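import Pool.Agent.Lib.MP_ccffa6_gt.ELI.Bil

/-!
Algebra of the scaling, topology of tubes.
-/

open Set Filter Topology
open scoped ContDiff RealInnerProductSpace

noncomputable section

namespace Pool.Agent.Lib.MP_ccffa6_gt.ELI

variable {F : Type} [NormedAddCommGroup F] [InnerProductSpace ℝ F] {P : F →L[ℝ] F}

theorem sa_apply (ρ : ℝ) (a : F) : sa P ρ a = ρ • P a + (a - P a) := rfl

theorem sb_apply (ρ : ℝ) (b : F) : sb P ρ b = P b + ρ • (b - P b) := rfl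

theorem Sc_apply (ρ : ℝ) (y : F × F) : Sc P ρ y = (sa P ρ y.1, sb P ρ y.2) := rfl

theorem Zv_apply (y : F × F) : Zv P y = (P y.1, y.2 - P y.2) := rfl

theorem nu_apply (y : F × F) : nu P y = (y.1 - P y.1, y.2) := rfl

theorem lam0_apply (y u : F × F) : lam0 P y u = ⟪P y.1, u.2⟫ - ⟪y.2 - P y.2, u.1⟫ := rfl

theorem isOP_one : IsOP (1 : F →L[ℝ] F) := ⟨fun _ => rfl, fun _ _ => rfl⟩

theorem sa_one (a : F) : sa P 1 a = a := by simp [sa_apply]

theorem sb_one (b : F) : sb P 1 b = b := by simp [sb_apply]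

theorem Sc_one (y : F × F) : Sc P 1 y = y := by simp [Sc_apply, sa_one, sb_one]

theorem Alg_Sc_eq (ρ : ℝ) (y : F × F) : Sc P ρ y = y + (ρ - 1) • Zv P y := by
  refine Prod.ext ?_ ?_
  · change ρ • P y.1 + (y.1 - P y.1) = y.1 + (ρ - 1) • P y.1
    module
  · change P y.2 + ρ • (y.2 - P y.2) = y.2 + (ρ - 1) • (y.2 - P y.2)
    module

theorem P_sa (hP : IsOP P) (ρ : ℝ) (a : F) : P (sa P ρ a) = ρ • P a := by
  simp [sa_apply, hP.idem]

theorem P_sb (hP : IsOP P) (ρ : ℝ) (b : F) : P (sb P ρ b) = P b := by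
  simp [sb_apply, hP.idem]

theorem sa_sa (hP : IsOP P) (ρ ρ' : ℝ) (a : F) : sa P ρ (sa P ρ' a) = sa P (ρ * ρ') a := by
  rw [sa_apply, P_sa hP, sa_apply, sa_apply]
  module

theorem sb_sb (hP : IsOP P) (ρ ρ' : ℝ) (b : F) : sb P ρ (sb P ρ' b) = sb P (ρ * ρ') b := by
  rw [sb_apply, P_sb hP, sb_apply, sb_apply]
  module

theorem Sc_Sc (hP : IsOP P) (ρ ρ' : ℝ) (y : F × F) :
    Sc P ρ (Sc P ρ' y) = Sc P (ρ * ρ') y := by
  exact Prod.ext (sa_sa hP ρ ρ' y.1) (sb_sb hP ρ ρ' y.2)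

theorem inner_sa_sb (hP : IsOP P) (ρ : ℝ) (a b : F) : ⟪sa P ρ a, sb P ρ b⟫ = ρ * ⟪a, b⟫ := by
  have h1 : ⟪P a, P b⟫ = ⟪a, P b⟫ := by rw [hP.symm, hP.idem]
  have h2 := hP.symm a b
  simp only [sa_apply, sb_apply, inner_add_left, inner_add_right, inner_sub_left, inner_sub_right,
    real_inner_smul_left, real_inner_smul_right, h1, h2]
  ring

theorem pbB_Sc_om0 (hP : IsOP P) (ρ : ℝ) : pbB (Sc P ρ) (om0 F) = ρ • om0 F := by
  refine ContinuousLinearMap.ext fun u => ContinuousLinearMap.ext fun v => ?_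
  change om0 F (Sc P ρ u) (Sc P ρ v) = ρ * om0 F u v
  rw [om0_apply, om0_apply, Sc_apply, Sc_apply, inner_sa_sb hP, real_inner_comm (sa P ρ v.1),
    inner_sa_sb hP, real_inner_comm v.1]
  ring

theorem Sc_inj (hP : IsOP P) {ρ : ℝ} (hρ : ρ ≠ 0) : Function.Injective (Sc P ρ) := by
  intro y z h
  have h1 := congrArg (Sc P ρ⁻¹) h
  rwa [Sc_Sc hP, Sc_Sc hP, inv_mul_cancel₀ hρ, Sc_one, Sc_one] at h1

theorem Sc_ne (hP : IsOP P) {ρ : ℝ} (hρ : 0 < ρ) {y : F × F} (hy : P y.1 ≠ 0) :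
    P (Sc P ρ y).1 ≠ 0 := by
  rw [Sc_apply, P_sa hP]
  exact smul_ne_zero hρ.ne' hy

theorem Zv_Sc (hP : IsOP P) (ρ : ℝ) (y : F × F) : Zv P (Sc P ρ y) = Sc P ρ (Zv P y) := by
  refine Prod.ext ?_ ?_
  · change P (sa P ρ y.1) = sa P ρ (P y.1)
    rw [P_sa hP, sa_apply, hP.idem, sub_self, add_zero]
  · change sb P ρ y.2 - P (sb P ρ y.2) = sb P ρ (y.2 - P y.2)
    rw [P_sb hP, sb_apply, sb_apply, map_sub, hP.idem]
    module

theorem hasDerivAt_Sc (y : F × F) (ρ : ℝ) : HasDerivAt (fun r => Sc P r y) (Zv P y) ρ := by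
  have h := (((hasDerivAt_id ρ).sub_const 1).smul_const (Zv P y)).const_add y
  rw [one_smul] at h
  exact h.congr_of_eventuallyEq (Eventually.of_forall fun r => Alg_Sc_eq r y)

theorem hasDerivAt_sa (a : F) (ρ : ℝ) : HasDerivAt (fun r => sa P r a) (P a) ρ := by
  have h := ((hasDerivAt_id ρ).smul_const (P a)).add_const (a - P a)
  rw [one_smul] at h
  exact h

theorem Alg_line {V : Type} [NormedAddCommGroup V] [NormedSpace ℝ V] (A B : V) :
    ContDiff ℝ ∞ fun ρ : ℝ => A + (ρ - 1) • B :=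
  contDiff_const.add ((contDiff_id.sub contDiff_const).smul contDiff_const)

theorem contDiff_Sc : ContDiff ℝ ∞ fun ρ : ℝ => Sc P ρ := by
  have e : (fun ρ : ℝ => Sc P ρ) = fun ρ : ℝ => 1 + (ρ - 1) • Zv P :=
    funext fun ρ => ContinuousLinearMap.ext fun y => Alg_Sc_eq ρ y
  rw [e]
  exact Alg_line _ _

theorem contDiff_sa : ContDiff ℝ ∞ fun ρ : ℝ => sa P ρ := by
  exact (contDiff_id.smul contDiff_const).add contDiff_const

theorem contDiff_sb : ContDiff ℝ ∞ fun ρ : ℝ => sb P ρ := by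
  exact contDiff_const.add (contDiff_id.smul contDiff_const)

theorem ht_pos {y : F × F} (hy : P y.1 ≠ 0) : 0 < ht P y := norm_pos_iff.2 hy

theorem ne_of_ht {y : F × F} (hy : ht P y = 1) : P y.1 ≠ 0 := fun h => by simp [ht, h] at hy

theorem ht_Sc (hP : IsOP P) {ρ : ℝ} (hρ : 0 < ρ) (y : F × F) : ht P (Sc P ρ y) = ρ * ht P y := by
  rw [ht, Sc_apply, P_sa hP, norm_smul, Real.norm_of_nonneg hρ.le, ht]

theorem ht_nz (hP : IsOP P) {y : F × F} (hy : P y.1 ≠ 0) : ht P (nz P y) = 1 := by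
  rw [nz, ht_Sc hP (inv_pos.2 (ht_pos hy)), inv_mul_cancel₀ (ht_pos hy).ne']

theorem nz_Sc (hP : IsOP P) {ρ : ℝ} (hρ : 0 < ρ) (y : F × F) : nz P (Sc P ρ y) = nz P y := by
  rw [nz, Sc_Sc hP, ht_Sc hP hρ, mul_inv, mul_right_comm, inv_mul_cancel₀ hρ.ne', one_mul, nz]

theorem Sc_nz (hP : IsOP P) {y : F × F} (hy : P y.1 ≠ 0) : Sc P (ht P y) (nz P y) = y := by
  rw [nz, Sc_Sc hP, mul_inv_cancel₀ (ht_pos hy).ne', Sc_one]

theorem nz_of_ht {y : F × F} (hy : ht P y = 1) : nz P y = y := by simp [nz, hy, Sc_one]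

theorem rad_Sc (hP : IsOP P) {ρ : ℝ} (hρ : 0 < ρ) (y : F × F) : rad P (Sc P ρ y) = rad P y := by
  rw [rad, nz_Sc hP hρ, rad]

theorem rad_of_ht {y : F × F} (hy : ht P y = 1) : rad P y = ‖nu P y‖ := by
  rw [rad, nz_of_ht hy]

theorem rad_nz (hP : IsOP P) {y : F × F} (hy : P y.1 ≠ 0) : rad P (nz P y) = rad P y :=
  rad_of_ht (ht_nz hP hy)

theorem rad_nonneg (y : F × F) : 0 ≤ rad P y := norm_nonneg _

theorem nz_mem_Cyl (hP : IsOP P) {R : ℝ} {y : F × F} (hy : P y.1 ≠ 0) (h : rad P y ≤ R) :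
    nz P y ∈ Cyl P R := ⟨ht_nz hP hy, h⟩

theorem core_ne {q : F} (hq : q ∈ core P) : P q ≠ 0 := by
  rw [hq.1, ← norm_ne_zero_iff, hq.2]
  exact one_ne_zero

theorem core_ht {q : F} (hq : q ∈ core P) (b : F) : ht P (q, b) = 1 := by
  rw [ht, hq.1, hq.2]

theorem core_rad {q : F} (hq : q ∈ core P) : rad P (q, 0) = 0 := by
  rw [rad_of_ht (core_ht hq 0), nu_apply, hq.1, sub_self]
  exact norm_zero

theorem core_mem_Cyl {q : F} (hq : q ∈ core P) {R : ℝ} (hR : 0 ≤ R) : (q, (0 : F)) ∈ Cyl P R := by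
  refine ⟨core_ht hq 0, ?_⟩
  rwa [← rad_of_ht (core_ht hq 0), core_rad hq]

theorem core_mem_Tube {q : F} (hq : q ∈ core P) {R : ℝ} (hR : 0 < R) :
    (q, (0 : F)) ∈ Tube P R := by
  refine ⟨core_ne hq, ?_⟩
  rwa [core_rad hq]

theorem unit_mem_core (hP : IsOP P) {a : F} (ha : P a ≠ 0) : ‖P a‖⁻¹ • P a ∈ core P := by
  exact ⟨by rw [map_smul, hP.idem], norm_smul_inv_norm ha⟩

/-- A point of height one is at distance `‖nu P y‖` from the core point `P y.1`. -/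
theorem cyl_near (hP : IsOP P) {y : F × F} (hy : ht P y = 1) :
    P y.1 ∈ core P ∧ y = (P y.1, 0) + nu P y := by
  refine ⟨⟨hP.idem _, hy⟩, Prod.ext ?_ ?_⟩
  · simp [nu_apply]
  · simp [nu_apply]

theorem isCompact_core [FiniteDimensional ℝ F] : IsCompact (core P) := by
  have := FiniteDimensional.proper_real F
  refine (isCompact_sphere (0 : F) 1).of_isClosed_subset
    ((isClosed_eq P.continuous continuous_id).inter (isClosed_eq continuous_norm continuous_const))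
    fun q hq => mem_sphere_zero_iff_norm.2 hq.2

theorem isCompact_Cyl [FiniteDimensional ℝ F] (R : ℝ) : IsCompact (Cyl P R) := by
  have := FiniteDimensional.proper_real F
  refine (isCompact_closedBall (0 : F × F) (1 + R)).of_isClosed_subset
    ((isClosed_eq (P.continuous.comp continuous_fst).norm continuous_const).inter
      (isClosed_le (nu P).continuous.norm continuous_const)) fun y hy => ?_
  have h1 : ‖y.1 - P y.1‖ ≤ R := (norm_fst_le (nu P y)).trans hy.2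
  have h2 : ‖y.2‖ ≤ R := (norm_snd_le (nu P y)).trans hy.2
  have h3 : ‖P y.1‖ = 1 := hy.1
  have h4 := norm_le_norm_add_norm_sub' y.1 (P y.1)
  rw [mem_closedBall_zero_iff, Prod.norm_def]
  exact max_le (by linarith) (by linarith)

theorem isOpen_ne : IsOpen {y : F × F | P y.1 ≠ 0} := by
  exact isOpen_ne_fun (P.continuous.comp continuous_fst) continuous_const

theorem eventually_ne {y : F × F} (hy : P y.1 ≠ 0) : ∀ᶠ z in 𝓝 y, P z.1 ≠ 0 :=
  isOpen_ne.mem_nhds hy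

theorem contDiffAt_normP {a : F} (ha : P a ≠ 0) : ContDiffAt ℝ ∞ (fun a => ‖P a‖) a := by
  exact P.contDiff.contDiffAt.norm ℝ ha

theorem contDiffAt_ht {y : F × F} (hy : P y.1 ≠ 0) : ContDiffAt ℝ ∞ (ht P) y := by
  exact (contDiffAt_normP hy).comp y contDiffAt_fst

theorem contDiffAt_nz {y : F × F} (hy : P y.1 ≠ 0) : ContDiffAt ℝ ∞ (nz P) y := by
  exact ((contDiff_Sc (P := P)).contDiffAt.comp y
    ((contDiffAt_ht hy).inv (ht_pos hy).ne')).clm_apply contDiffAt_id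

theorem continuousAt_rad {y : F × F} (hy : P y.1 ≠ 0) : ContinuousAt (rad P) y := by
  exact ((nu P).continuous.continuousAt.comp (contDiffAt_nz hy).continuousAt).norm

theorem isOpen_Tube (R : ℝ) : IsOpen (Tube P R) := by
  refine isOpen_iff_mem_nhds.2 fun y hy => ?_
  exact (eventually_ne hy.1).and ((continuousAt_rad hy.1).eventually_lt continuousAt_const hy.2)

theorem Tube_mono {r R : ℝ} (h : r ≤ R) : Tube P r ⊆ Tube P R := fun _ hy => ⟨hy.1, hy.2.trans_le h⟩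

theorem Cyl_mono {r R : ℝ} (h : r ≤ R) : Cyl P r ⊆ Cyl P R := fun _ hy => ⟨hy.1, hy.2.trans h⟩

/-- A property which holds near each point of the core holds on a thin cylinder. -/
theorem exists_cyl [FiniteDimensional ℝ F] (hP : IsOP P) {p : F × F → Prop}
    (h : ∀ q ∈ core P, ∀ᶠ y in 𝓝 (q, (0 : F)), p y) : ∃ r > 0, ∀ y ∈ Cyl P r, p y := by
  have hK : IsCompact ((fun q : F => (q, (0 : F))) '' core P) :=
    isCompact_core.image (by fun_prop)
  obtain ⟨r, hr, h1⟩ := hK.exists_cthickening_subset_open (isOpen_interior (s := {y | p y})) (by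
    rintro _ ⟨q, hq, rfl⟩
    exact mem_interior_iff_mem_nhds.2 (h q hq))
  refine ⟨r, hr, fun y hy => interior_subset (s := {y | p y}) (h1 ?_)⟩
  obtain ⟨h2, h3⟩ := cyl_near hP hy.1
  refine Metric.mem_cthickening_of_dist_le y (P y.1, 0) r _ ⟨_, h2, rfl⟩ ?_
  rw [dist_eq_norm, sub_eq_of_eq_add' h3]
  exact hy.2

theorem Alg_ht (hP : IsOP P) {y : F × F} (hy : ht P y = 1) :
    HasFDerivAt (ht P) ((innerSL ℝ (P y.1)).comp (ContinuousLinearMap.fst ℝ F F)) y := by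
  have h0 : ‖P y.1‖ = 1 := hy
  have h1 := (P.comp (ContinuousLinearMap.fst ℝ F F)).hasFDerivAt (x := y) |>.norm_sq.sqrt
    (by simp [h0])
  simp only [Real.sqrt_sq (norm_nonneg _)] at h1
  refine h1.congr_fderiv (ContinuousLinearMap.ext fun u => ?_)
  have h2 : ⟪P y.1, P u.1⟫ = ⟪P y.1, u.1⟫ := by rw [← hP.symm, hP.idem]
  simp [h0, h2]

/-- Derivative of the height at height one. -/
theorem fderiv_ht (hP : IsOP P) {y : F × F} (hy : ht P y = 1) (u : F × F) :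
    fderiv ℝ (ht P) y u = ⟪P y.1, u.1⟫ := by
  exact congrArg (fun L : F × F →L[ℝ] ℝ => L u) (Alg_ht hP hy).fderiv

/-- Derivative of the normalisation at height one. -/
theorem fderiv_nz (hP : IsOP P) {y : F × F} (hy : ht P y = 1) (u : F × F) :
    fderiv ℝ (nz P) y u = u - ⟪P y.1, u.1⟫ • Zv P y := by
  have e : nz P = fun z => z + ((ht P z)⁻¹ - 1) • Zv P z := funext fun z => Alg_Sc_eq _ z
  have h1 := ((hasDerivAt_inv (x := ht P y) (by simp [hy])).comp_hasFDerivAt y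
    (Alg_ht hP hy)).sub_const 1
  have h2 := (hasFDerivAt_id y).add (h1.smul (Zv P).hasFDerivAt)
  rw [e]
  refine (congrArg (fun L : F × F →L[ℝ] F × F => L u) h2.fderiv).trans ?_
  simp [hy, sub_eq_add_neg]

end Pool.Agent.Lib.MP_ccffa6_gt.ELI
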