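import Pool.Agent.Lib.MP_ccffa6_gt.ELI.Defs

/-!
Pull-back of bilinear forms, uniform nondegeneracy.
-/

open Set Filter Topology
open scoped ContDiff RealInnerProductSpace

noncomputable section

namespace Pool.Agent.Lib.MP_ccffa6_gt.ELI

section bil

variable {V V' V'' : Type} [NormedAddCommGroup V] [NormedSpace ℝ V] [NormedAddCommGroup V']
  [NormedSpace ℝ V'] [NormedAddCommGroup V''] [NormedSpace ℝ V'']

@[simp] theorem pbB_apply (M : V →L[ℝ] V') (w : Bil V') (u v : V) :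
    pbB M w u v = w (M u) (M v) := rfl

theorem pbB_comp (M : V →L[ℝ] V') (M' : V' →L[ℝ] V'') (w : Bil V'') :
    pbB (M'.comp M) w = pbB M (pbB M' w) := rfl

theorem pbB_id (w : Bil V) : pbB (ContinuousLinearMap.id ℝ V) w = w := rfl

theorem pbB_add (M : V →L[ℝ] V') (w w' : Bil V') : pbB M (w + w') = pbB M w + pbB M w' := rfl

theorem pbB_sub (M : V →L[ℝ] V') (w w' : Bil V') : pbB M (w - w') = pbB M w - pbB M w' := rfl

theorem pbB_smul (M : V →L[ℝ] V') (c : ℝ) (w : Bil V') : pbB M (c • w) = c • pbB M w := rfl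

theorem pbB_smul_left (M : V →L[ℝ] V') (c : ℝ) (w : Bil V') :
    pbB (c • M) w = (c * c) • pbB M w := by
  ext u v
  simp [mul_assoc]

theorem contDiff_pbB : ContDiff ℝ ∞ fun z : (V →L[ℝ] V') × Bil V' => pbB z.1 z.2 :=
  ((((ContinuousLinearMap.compL ℝ V V' ℝ).flip.contDiff.comp contDiff_fst).clm_comp
    (contDiff_snd.clm_comp contDiff_fst)) :)

theorem continuous_pbB : Continuous fun z : (V →L[ℝ] V') × Bil V' => pbB z.1 z.2 :=
  contDiff_pbB.continuous

theorem norm_pbB_le (M : V →L[ℝ] V') (w : Bil V') : ‖pbB M w‖ ≤ ‖M‖ * ‖M‖ * ‖w‖ := by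
  refine ContinuousLinearMap.opNorm_le_bound₂ _ (by positivity) fun u v =>
    (w.le_opNorm₂ (M u) (M v)).trans ?_
  calc _ ≤ ‖w‖ * (‖M‖ * ‖u‖) * (‖M‖ * ‖v‖) := by gcongr <;> exact M.le_opNorm _
    _ = _ := by ring

theorem nd_pbB [FiniteDimensional ℝ V] {M : V →L[ℝ] V} (hM : Function.Injective M) {w : Bil V}
    (hw : ND ⊤ w) : ND ⊤ (pbB M w) := by
  refine ⟨fun u _ => hw.1 _ trivial, fun u _ h => hM ((hw.2 _ trivial fun v _ => ?_).trans
    (map_zero M).symm)⟩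
  obtain ⟨v, rfl⟩ := (LinearMap.injective_iff_surjective (f := (M : V →ₗ[ℝ] V))).1 hM v
  exact h v trivial

theorem nd_of_pbB [FiniteDimensional ℝ V] {M : V →L[ℝ] V} {w : Bil V} (ha : ∀ u, w u u = 0)
    (hw : ND ⊤ (pbB M w)) : ND ⊤ w ∧ Function.Injective M := by
  have hM : Function.Injective M := (injective_iff_map_eq_zero M).2 fun u e =>
    hw.2 u trivial fun v _ => by simp [e]
  refine ⟨⟨fun u _ => ha u, fun u _ h => ?_⟩, hM⟩
  obtain ⟨u, rfl⟩ := (LinearMap.injective_iff_surjective (f := (M : V →ₗ[ℝ] V))).1 hM u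
  rw [hw.2 u trivial fun v _ => h _ trivial, map_zero]

theorem nd_smul {w : Bil V} (hw : ND ⊤ w) {c : ℝ} (hc : c ≠ 0) : ND ⊤ (c • w) :=
  ⟨fun u _ => by simp [hw.1 u trivial], fun u _ h => hw.2 u trivial fun v _ =>
    (mul_eq_zero.1 (h v trivial)).resolve_left hc⟩

theorem alt_swap {w : Bil V} (ha : ∀ u, w u u = 0) (u v : V) : w u v = -w v u := by
  have := ha (u + v)
  simp only [map_add, add_apply, ha] at this
  linarith

/-- Uniform nondegeneracy near a compact set. -/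
theorem nd_unif [FiniteDimensional ℝ V] {𝒞 : Set (Bil V)} (hc : IsCompact 𝒞)
    (hnd : ∀ w ∈ 𝒞, ND ⊤ w) :
    ∃ ε > 0, ∀ w ∈ 𝒞, ∀ w' : Bil V, (∀ u, w' u u = 0) → ‖w' - w‖ ≤ ε → ND ⊤ w' := by
  obtain ⟨ε, h0, h⟩ := hc.exists_cthickening_subset_open ContinuousLinearMap.isOpen_injective
    fun w hw => (injective_iff_map_eq_zero w).2 fun u e =>
      (hnd w hw).2 u trivial fun v _ => by simp [e]
  exact ⟨ε, h0, fun w hw w' ha e => ⟨fun u _ => ha u, fun u _ hu => (injective_iff_map_eq_zero w').1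
    (h (Metric.mem_cthickening_of_dist_le w' w ε _ hw ((dist_eq_norm w' w).trans_le e))) u
    (ContinuousLinearMap.ext fun v => hu v trivial)⟩⟩

end bil

end Pool.Agent.Lib.MP_ccffa6_gt.ELI
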