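import Pool.Agent.Lib.MP_ccffa6_gt.ELI.Calc

/-!
Homogeneous functions and their gradients.
-/

open Set Filter Topology
open scoped ContDiff RealInnerProductSpace

noncomputable section

namespace Pool.Agent.Lib.MP_ccffa6_gt.ELI

variable {F : Type} [NormedAddCommGroup F] [InnerProductSpace ℝ F] [FiniteDimensional ℝ F]
  {P : F →L[ℝ] F}

/-- Functions homogeneous of degree one on the position space. -/
structure Hom1 (P : F →L[ℝ] F) (Y : F → ℝ) : Prop where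
  sm : ∀ a : F, P a ≠ 0 → ContDiffAt ℝ ∞ Y a
  hom : ∀ ρ : ℝ, 0 < ρ → ∀ a : F, P a ≠ 0 → Y (sa P ρ a) = ρ * Y a

theorem Hom1.euler {Y : F → ℝ} (h : Hom1 P Y) {a : F} (ha : P a ≠ 0) :
    fderiv ℝ Y a (P a) = Y a := by
  have hl : HasFDerivAt Y (fderiv ℝ Y a) (sa P 1 a) := by
    rw [sa_one]
    exact ((h.sm a ha).differentiableAt (by simp)).hasFDerivAt
  have a1 : HasDerivAt (fun r : ℝ => Y (sa P r a)) (fderiv ℝ Y a (P a)) 1 :=
    hl.comp_hasDerivAt (1 : ℝ) (hasDerivAt_sa a 1)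
  have a2 : HasDerivAt (fun r : ℝ => Y (sa P r a)) (Y a) 1 := by
    refine (hasDerivAt_mul_const (Y a)).congr_of_eventuallyEq ?_
    filter_upwards [lt_mem_nhds (zero_lt_one' ℝ)] with r hr
    exact h.hom r hr a ha
  exact a1.unique a2

/-- The gradient is the derivative followed by a linear map. -/
theorem Hom_dual (F : Type) [NormedAddCommGroup F] [InnerProductSpace ℝ F]
    [FiniteDimensional ℝ F] : ∃ L : (F →L[ℝ] ℝ) →L[ℝ] F, (∀ l u, ⟪L l, u⟫ = l u) ∧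
      ∀ Y : F → ℝ, gradient Y = fun a => L (fderiv ℝ Y a) :=
  ⟨(InnerProductSpace.toDual ℝ F).symm.toLinearIsometry.toContinuousLinearMap,
    fun _ _ => InnerProductSpace.toDual_symm_apply, fun _ => rfl⟩

theorem Hom_ig (Y : F → ℝ) (a u : F) : ⟪gradient Y a, u⟫ = fderiv ℝ Y a u := by
  obtain ⟨L, h1, h2⟩ := Hom_dual F
  rw [h2]
  exact h1 _ _

omit [FiniteDimensional ℝ F] in
theorem Hom_ne (hP : IsOP P) {ρ : ℝ} (hρ : 0 < ρ) {a : F} (ha : P a ≠ 0) : P (sa P ρ a) ≠ 0 := by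
  rw [P_sa hP]
  exact smul_ne_zero hρ.ne' ha

omit [FiniteDimensional ℝ F] in
theorem Hom_ev {a : F} (ha : P a ≠ 0) : ∀ᶠ x in 𝓝 a, P x ≠ 0 :=
  P.continuous.continuousAt.eventually_ne ha

theorem Hom1.sect (hP : IsOP P) {Y : F → ℝ} (h : Hom1 P Y) : Sect P (gradient Y) := by
  refine ⟨fun a ha => ?_, fun ρ hρ a ha => ?_⟩
  · obtain ⟨L, -, h2⟩ := Hom_dual F
    rw [h2]
    exact L.contDiff.contDiffAt.comp a ((h.sm a ha).fderiv_right (m := ∞) (by simp))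
  · have d1 := ((h.sm _ (Hom_ne hP hρ ha)).differentiableAt (by simp)).hasFDerivAt
    have d2 := ((h.sm _ ha).differentiableAt (by simp)).hasFDerivAt
    have a1 := d1.comp a (sa P ρ).hasFDerivAt
    have a2 : HasFDerivAt (Y ∘ sa P ρ) (ρ • fderiv ℝ Y a) a := by
      refine (d2.const_mul ρ).congr_of_eventuallyEq ?_
      filter_upwards [Hom_ev ha] with x hx
      exact h.hom ρ hρ x hx
    have a3 : ∀ u, fderiv ℝ Y (sa P ρ a) (sa P ρ u) = ρ * fderiv ℝ Y a u := fun u =>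
      congrArg (fun l : F →L[ℝ] ℝ => l u) (a1.unique a2)
    refine ext_inner_right ℝ fun v => ?_
    have e : v = sa P ρ (sa P ρ⁻¹ v) := by rw [sa_sa hP, mul_inv_cancel₀ hρ.ne', sa_one]
    rw [e, Hom_ig, a3, real_inner_comm, inner_sa_sb hP, real_inner_comm, Hom_ig]

theorem Hom1.add {Y Y' : F → ℝ} (h : Hom1 P Y) (h' : Hom1 P Y') : Hom1 P fun a => Y a + Y' a := by
  refine ⟨fun a ha => (h.sm a ha).add (h'.sm a ha), fun ρ hρ a ha => ?_⟩
  rw [h.hom ρ hρ a ha, h'.hom ρ hρ a ha, mul_add]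

theorem Sect.hom1 (hP : IsOP P) {ς : F → F} (h : Sect P ς) : Hom1 P fun a => ⟪P a, ς a⟫ := by
  refine ⟨fun a ha => P.contDiff.contDiffAt.inner ℝ (h.sm a ha), fun ρ hρ a ha => ?_⟩
  have e1 : P (sa P ρ a) = sa P ρ (P a) := by
    rw [P_sa hP, sa_apply, hP.idem, sub_self, add_zero]
  rw [e1, h.eqv ρ hρ a ha, inner_sa_sb hP]

theorem inner_gradient (Y : F → ℝ) (a u : F) : ⟪gradient Y a, u⟫ = fderiv ℝ Y a u := by
  exact Hom_ig Y a u

/-- The Hessian is symmetric. -/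
theorem hess_symm {Y : F → ℝ} {a : F} (h : ContDiffAt ℝ ∞ Y a) (u v : F) :
    ⟪fderiv ℝ (gradient Y) a u, v⟫ = ⟪u, fderiv ℝ (gradient Y) a v⟫ := by
  obtain ⟨L, h1, h2⟩ := Hom_dual F
  have d1 := ((h.fderiv_right (m := ∞) (by simp)).differentiableAt (by simp)).hasFDerivAt
  have d2 : HasFDerivAt (gradient Y) (L.comp (fderiv ℝ (fderiv ℝ Y) a)) a := by
    rw [h2]
    exact L.hasFDerivAt.comp a d1
  have s := h.isSymmSndFDerivAt (by
    rw [minSmoothness_of_isRCLikeNormedField]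
    exact WithTop.coe_le_coe.2 (le_top : (2 : ℕ∞) ≤ ⊤))
  rw [real_inner_comm (fderiv ℝ (gradient Y) a v), d2.fderiv, ContinuousLinearMap.comp_apply,
    ContinuousLinearMap.comp_apply, h1, h1]
  exact s.eq u v

/-- Normalisation of positions. -/
def hat (P : F →L[ℝ] F) (a : F) : F := sa P ‖P a‖⁻¹ a

theorem hat_sa (hP : IsOP P) {ρ : ℝ} (hρ : 0 < ρ) (a : F) : hat P (sa P ρ a) = hat P a := by
  exact congrArg Prod.fst (nz_Sc hP hρ (a, (0 : F)))

theorem hat_of_norm {a : F} (ha : ‖P a‖ = 1) : hat P a = a := by simp [hat, ha, sa_one]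

theorem norm_P_hat (hP : IsOP P) {a : F} (ha : P a ≠ 0) : ‖P (hat P a)‖ = 1 := by
  exact ht_nz hP (y := (a, (0 : F))) ha

theorem contDiffAt_hat {a : F} (ha : P a ≠ 0) : ContDiffAt ℝ ∞ (hat P) a := by
  exact ((contDiffAt_nz (y := (a, (0 : F))) ha).comp a
    (contDiffAt_id.prodMk contDiffAt_const)).fst

theorem fderiv_hat (hP : IsOP P) {a : F} (ha : ‖P a‖ = 1) (u : F) :
    fderiv ℝ (hat P) a u = u - ⟪P a, u⟫ • P a := by
  have hy : ht P (a, (0 : F)) = 1 := ha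
  have d1 := ((contDiffAt_nz (ne_of_ht hy)).differentiableAt (by simp)).hasFDerivAt
  have d0 := (HasFDerivAt.comp (f := fun x : F => (x, (0 : F))) a d1
    (hasFDerivAt_prodMk_left (𝕜 := ℝ) a (0 : F))).fst
  have d2 : HasFDerivAt (hat P) ((ContinuousLinearMap.fst ℝ F F).comp
      ((fderiv ℝ (nz P) (a, (0 : F))).comp (ContinuousLinearMap.inl ℝ F F))) a := d0
  rw [d2.fderiv]
  exact congrArg Prod.fst (fderiv_nz hP hy (u, (0 : F)))

omit [FiniteDimensional ℝ F] in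
theorem Hom_dnorm (hP : IsOP P) {a : F} (ha : ‖P a‖ = 1) (u : F) :
    fderiv ℝ (fun a => ‖P a‖) a u = ⟪P a, u⟫ := by
  have hy : ht P (a, (0 : F)) = 1 := ha
  have d1 := ((contDiffAt_ht (ne_of_ht hy)).differentiableAt (by simp)).hasFDerivAt
  have d0 := HasFDerivAt.comp (f := fun x : F => (x, (0 : F))) a d1
    (hasFDerivAt_prodMk_left (𝕜 := ℝ) a (0 : F))
  have d2 : HasFDerivAt (fun a => ‖P a‖)
      ((fderiv ℝ (ht P) (a, (0 : F))).comp (ContinuousLinearMap.inl ℝ F F)) a := d0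
  rw [d2.fderiv]
  exact fderiv_ht hP hy (u, (0 : F))

/-- Homogeneous extension of a function. -/
theorem hom1_ext (hP : IsOP P) {g : F → ℝ} (hg : ∀ a : F, ‖P a‖ = 1 → ContDiffAt ℝ ∞ g a) :
    Hom1 P (fun a => ‖P a‖ * g (hat P a)) ∧ ∀ a : F, ‖P a‖ = 1 → ∀ u,
      fderiv ℝ (fun a => ‖P a‖ * g (hat P a)) a u =
        fderiv ℝ g a (u - ⟪P a, u⟫ • P a) + ⟪P a, u⟫ * g a := by
  refine ⟨⟨fun a ha => (contDiffAt_normP ha).mul
    ((hg _ (norm_P_hat hP ha)).comp a (contDiffAt_hat ha)), fun ρ hρ a _ => ?_⟩,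
    fun a ha u => ?_⟩
  · rw [hat_sa hP hρ, P_sa hP, norm_smul, Real.norm_of_nonneg hρ.le, mul_assoc]
  · have ha' : P a ≠ 0 := norm_ne_zero_iff.1 (by rw [ha]; exact one_ne_zero)
    have d1 := ((contDiffAt_normP ha').differentiableAt (by simp)).hasFDerivAt
    have d2 := ((contDiffAt_hat ha').differentiableAt (by simp)).hasFDerivAt
    have d3 : HasFDerivAt g (fderiv ℝ g a) (hat P a) := by
      rw [hat_of_norm ha]
      exact ((hg a ha).differentiableAt (by simp)).hasFDerivAt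
    have d4 : HasFDerivAt (fun a => ‖P a‖ * g (hat P a))
        (‖P a‖ • (fderiv ℝ g a).comp (fderiv ℝ (hat P) a) +
          g (hat P a) • fderiv ℝ (fun a => ‖P a‖) a) a := d1.mul (d3.comp a d2)
    rw [d4.fderiv, add_apply, smul_apply, smul_apply, ContinuousLinearMap.comp_apply,
      fderiv_hat hP ha, Hom_dnorm hP ha, hat_of_norm ha, ha, one_smul, smul_eq_mul, mul_comm]

end Pool.Agent.Lib.MP_ccffa6_gt.ELI
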