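import Pool.Agent.Lib.MP_ccffa6_gt.ELI.HP2
import Pool.Agent.Lib.MP_ccffa6_gt.ELI.Hom

/-!
Forms of block type, transport of jets.
-/

open Set Filter Topology
open scoped ContDiff RealInnerProductSpace

noncomputable section

namespace Pool.Agent.Lib.MP_ccffa6_gt.ELI

variable {F : Type} [NormedAddCommGroup F] [InnerProductSpace ℝ F] [FiniteDimensional ℝ F]
  {P : F →L[ℝ] F}

/-- `w` differs from `om0` only on the position block. -/
structure Blk (w : Bil (F × F)) : Prop where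
  alt : ∀ u, w u u = 0
  pair : ∀ u b : F, w (u, 0) (0, b) = ⟪u, b⟫
  iso : ∀ b b' : F, w (0, b) (0, b') = 0

theorem Blk.nd {w : Bil (F × F)} (h : Blk w) : ND ⊤ w := nd_block h.alt h.pair h.iso

theorem blk_om0 : Blk (om0 F) := by
  exact ⟨fun u => nd_om0.1 u trivial, fun u b => by simp [om0_apply],
    fun b b' => by simp [om0_apply]⟩

theorem Blk.lin {w w' : Bil (F × F)} (h : Blk w) (h' : Blk w') (t : ℝ) :
    Blk ((1 - t) • w + t • w') := by
  refine ⟨fun u => ?_, fun u b => ?_, fun b b' => ?_⟩ <;>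
    simp only [add_apply, smul_apply, smul_eq_mul, h.alt, h'.alt, h.pair, h'.pair, h.iso,
      h'.iso] <;> ring

theorem Blk.ext {w w' : Bil (F × F)} (h : Blk w) (h' : Blk w')
    (e : ∀ u u' : F, w (u, 0) (u', 0) = w' (u, 0) (u', 0)) : w = w' := by
  refine ContinuousLinearMap.ext fun u => ContinuousLinearMap.ext fun v => ?_
  have e1 : ∀ y : F × F, y = (y.1, 0) + (0, y.2) := fun y => by simp
  rw [e1 u, e1 v]
  simp only [map_add, add_apply, e, h.pair, h'.pair, h.iso, h'.iso,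
    alt_swap h.alt (0, u.2) (v.1, 0), alt_swap h'.alt (0, u.2) (v.1, 0)]

theorem Blk_cont {X Y : Type} [TopologicalSpace X] [NormedAddCommGroup Y] [NormedSpace ℝ Y]
    {C : Set X} {c : ℝ → X → Y} (hc : ContinuousOn (fun z : ℝ × X => c z.1 z.2) (Icc 0 1 ×ˢ C)) :
    ContinuousOn (fun z : (ℝ × ℝ) × X => (1 - z.1.2) • c z.1.1 z.2 +
      z.1.2 • ((1 - z.1.1) • c 0 z.2 + z.1.1 • c 1 z.2)) ((Icc 0 1 ×ˢ Icc 0 1) ×ˢ C) := by
  have h : ∀ τ : (ℝ × ℝ) × X → ℝ, Continuous τ →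
      (∀ z ∈ (Icc (0 : ℝ) 1 ×ˢ Icc (0 : ℝ) 1) ×ˢ C, τ z ∈ Icc (0 : ℝ) 1) →
      ContinuousOn (fun z => c (τ z) z.2) ((Icc 0 1 ×ˢ Icc 0 1) ×ˢ C) := fun τ hτ hm =>
    hc.comp (f := fun z => (τ z, z.2)) (hτ.prodMk continuous_snd).continuousOn
      fun z hz => ⟨hm z hz, hz.2⟩
  have h1 := h (fun z => z.1.1) (by fun_prop) fun z hz => hz.1.1
  have h2 := h (fun _ => 0) continuous_const fun _ _ => by simp
  have h3 := h (fun _ => 1) continuous_const fun _ _ => by simp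
  have a1 : Continuous fun z : (ℝ × ℝ) × X => z.1.1 := by fun_prop
  have a2 : Continuous fun z : (ℝ × ℝ) × X => z.1.2 := by fun_prop
  exact ((continuous_const.sub a2).continuousOn.smul h1).add (a2.continuousOn.smul
    (((continuous_const.sub a1).continuousOn.smul h2).add (a1.continuousOn.smul h3)))

theorem Blk_ext2 {V : Type} [NormedAddCommGroup V] [NormedSpace ℝ V] {w w' : Bil V}
    (h : ∀ u v, w u v = w' u v) : w = w' :=
  ContinuousLinearMap.ext fun u => ContinuousLinearMap.ext (h u)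

/-- Paths of block forms are homotopic to segments. -/
theorem co_blk {c : ℝ → F → Bil (F × F)}
    (hc : ContinuousOn (fun z : ℝ × F => c z.1 z.2) (Icc 0 1 ×ˢ core P))
    (hb : ∀ s ∈ Icc (0 : ℝ) 1, ∀ q ∈ core P, Blk (c s q)) {a a' : Lf P} :
    Co c a a' ↔ Co (seg (c 0) (c 1)) a a' := by
  have z0 : (0 : ℝ) ∈ Icc (0 : ℝ) 1 := by simp
  have z1 : (1 : ℝ) ∈ Icc (0 : ℝ) 1 := by simp
  obtain ⟨K, hK⟩ : ∃ K : ℝ × ℝ → F → Bil (F × F), ∀ p q, K p q = (1 - p.2) • c p.1 q +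
      p.2 • ((1 - p.1) • c 0 q + p.1 • c 1 q) := ⟨_, fun _ _ => rfl⟩
  have e : ∀ p q u v, K p q u v = (1 - p.2) * c p.1 q u v +
      p.2 * ((1 - p.1) * c 0 q u v + p.1 * c 1 q u v) := fun p q u v => by
    rw [hK]
    rfl
  have e' : ∀ t q u v, seg (c 0) (c 1) t q u v = (1 - t) * c 0 q u v + t * c 1 q u v :=
    fun _ _ _ _ => rfl
  have hf : Fam (Icc (0 : ℝ) 1 ×ˢ Icc (0 : ℝ) 1) (core P) K := by
    refine ⟨?_, fun p hp q hq => ?_⟩
    · simp only [hK]
      exact Blk_cont (Y := Bil (F × F)) hc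
    · rw [hK]
      exact ((hb _ hp.1 q hq).lin ((hb 0 z0 q hq).lin (hb 1 z1 q hq) p.1) p.2).nd
  have h := Co.homot (a := a) (a' := a') hf
    (fun σ _ q _ => Blk_ext2 fun u v => by rw [e, e]; ring)
    (fun σ _ q _ => Blk_ext2 fun u v => by rw [e, e]; ring)
  have e0 : ∀ t q, K (t, 0) q = c t q := fun t q => Blk_ext2 fun u v => by rw [e]; ring
  have e1 : ∀ t q, K (t, 1) q = seg (c 0) (c 1) t q := fun t q =>
    Blk_ext2 fun u v => by rw [e, e']; ring
  exact ⟨fun h1 => (h.1 (h1.congr fun t _ q _ => (e0 t q).symm)).congr fun t _ q _ => e1 t q,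
    fun h1 => (h.2 (h1.congr fun t _ q _ => (e1 t q).symm)).congr fun t _ q _ => e0 t q⟩

theorem Jets.contOn_frm {f : ℝ → F → F × F} {G : ℝ → F → F →L[ℝ] F × F} (h : Jets P f G) :
    ContinuousOn (fun z : ℝ × F => frm (f z.1) (G z.1 z.2) z.2) (Icc 0 1 ×ˢ core P) := by
  refine continuousOn_clm_apply.2 fun u z hz => ContinuousAt.continuousWithinAt ?_
  have h1 : ContinuousAt (fun z : ℝ × F => fderiv ℝ (f z.1) z.2 u.1) z :=
    (contDiffAt_fderiv_fam (h.smf z.1 hz.1 z.2 (core_ne hz.2))).continuousAt.clm_apply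
      continuousAt_const
  have h2 : ContinuousAt (fun z : ℝ × F => G z.1 z.2 u.2) z :=
    (h.smG z.1 hz.1 z.2 hz.2).continuousAt.clm_apply continuousAt_const
  simp only [frm_apply]
  exact h1.add h2

theorem Sect.neg {ς : F → F} (h : Sect P ς) : Sect P fun a => -ς a := by
  exact ⟨fun a ha => (h.sm a ha).neg, fun ρ hρ a ha => by rw [h.eqv ρ hρ a ha, map_neg]⟩

theorem Sect.add {ς ς' : F → F} (h : Sect P ς) (h' : Sect P ς') : Sect P fun a => ς a + ς' a := by
  exact ⟨fun a ha => (h.sm a ha).add (h'.sm a ha),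
    fun ρ hρ a ha => by rw [h.eqv ρ hρ a ha, h'.eqv ρ hρ a ha, map_add]⟩

theorem Sect.sub {ς ς' : F → F} (h : Sect P ς) (h' : Sect P ς') : Sect P fun a => ς a - ς' a := by
  exact ⟨fun a ha => (h.sm a ha).sub (h'.sm a ha),
    fun ρ hρ a ha => by rw [h.eqv ρ hρ a ha, h'.eqv ρ hρ a ha, map_sub]⟩

theorem blk_tr {ς : F → F} {y : F × F} (h : DifferentiableAt ℝ ς y.1) :
    Blk (pbB (fderiv ℝ (tr ς) y) (om0 F)) := by
  exact ⟨fun u => by rw [pbB_apply, nd_om0.1 _ trivial],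
    fun u b => by simp [om0_apply, fderiv_tr h],
    fun b b' => by simp [om0_apply, fderiv_tr h]⟩

theorem inj_fderiv_tr {ς : F → F} {y : F × F} (h : DifferentiableAt ℝ ς y.1) :
    Function.Injective (fderiv ℝ (tr ς) y) := by
  exact (nd_of_pbB (fun u => nd_om0.1 u trivial) (blk_tr h).nd).2

/-- Translating jets by a section. -/
theorem Jets.tr (hP : IsOP P) {f : ℝ → F → F × F} {G : ℝ → F → F →L[ℝ] F × F} (h : Jets P f G)
    {ς : F → F} (hς : Sect P ς) :
    Jets P (fun s a => tr ς (f s a)) (fun s q => (fderiv ℝ (tr ς) (f s q)).comp (G s q)) ∧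
    ∀ s ∈ Icc (0 : ℝ) 1, ∀ q ∈ core P,
      frm (fun a => tr ς (f s a)) ((fderiv ℝ (tr ς) (f s q)).comp (G s q)) q =
        (fderiv ℝ (tr ς) (f s q)).comp (frm (f s) (G s q) q) := by
  have E := hς.eqv_tr hP
  have key : ∀ s ∈ Icc (0 : ℝ) 1, ∀ q ∈ core P,
      frm (fun a => ELI.tr ς (f s a)) ((fderiv ℝ (ELI.tr ς) (f s q)).comp (G s q)) q =
        (fderiv ℝ (ELI.tr ς) (f s q)).comp (frm (f s) (G s q) q) := fun s hs q hq => by
    have h1 : DifferentiableAt ℝ (f s) q :=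
      ((h.smf s hs q (core_ne hq)).comp q (f := fun a => (s, a))
        (contDiffAt_const.prodMk contDiffAt_id)).differentiableAt (by simp)
    have h2 := (E.sm _ (h.ne s hs q (core_ne hq))).differentiableAt (by simp)
    refine ContinuousLinearMap.ext fun u => ?_
    rw [frm_apply, fderiv_fun_comp q h2 h1, ContinuousLinearMap.comp_apply,
      ContinuousLinearMap.comp_apply, ContinuousLinearMap.comp_apply, frm_apply, map_add]
  have hn : ∀ y : F × F, P y.1 ≠ 0 → nz P (ELI.tr ς y) = ELI.tr ς (nz P y) := fun y hy =>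
    (E.eqv _ (inv_pos.2 (ht_pos hy)) y hy).symm
  have hi : Function.Injective (ELI.tr ς) := fun y y' e => by
    have e1 : y.1 = y'.1 := (congrArg Prod.fst e :)
    have e2 : y.2 + ς y.1 = y'.2 + ς y'.1 := congrArg Prod.snd e
    rw [e1] at e2
    exact Prod.ext e1 (add_right_cancel e2)
  refine ⟨⟨fun s hs a ha => (E.sm _ (h.ne s hs a ha)).comp (s, a)
      (f := fun z : ℝ × F => f z.1 z.2) (h.smf s hs a ha),
    fun s hs q hq => ?_, fun s hs ρ hρ a ha => ?_, h.ne, fun s hs q hq => ?_,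
    fun s hs q hq q' hq' e => ?_⟩, key⟩
  · exact (((E.sm _ (h.ne s hs q (core_ne hq))).fderiv_right (m := ∞) (by simp)).comp (s, q)
      (f := fun z : ℝ × F => f z.1 z.2) (h.smf s hs q (core_ne hq))).clm_comp (h.smG s hs q hq)
  · rw [h.eqv s hs ρ hρ a ha, E.eqv ρ hρ _ (h.ne s hs a ha)]
  · rw [key s hs q hq]
    exact (inj_fderiv_tr ((hς.sm _ (h.ne s hs q (core_ne hq))).differentiableAt (by simp))).comp
      (h.inj s hs q hq)
  · rw [hn _ (h.ne s hs q (core_ne hq)), hn _ (h.ne s hs q' (core_ne hq'))] at e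
    exact h.emb s hs q hq q' hq' (hi e)

end Pool.Agent.Lib.MP_ccffa6_gt.ELI
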