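import Pool.Agent.Lib.MP_ccffa6_gt.ELI.Bil

/-!
Calculus of one-forms.
-/

open Set Filter Topology
open scoped ContDiff RealInnerProductSpace

noncomputable section

namespace Pool.Agent.Lib.MP_ccffa6_gt.ELI

section gen

variable {E E' : Type} [NormedAddCommGroup E] [NormedSpace ℝ E] [NormedAddCommGroup E']
  [NormedSpace ℝ E']

theorem dF_apply (α : Form1 E) (x u v : E) :
    dF α x u v = fderiv ℝ α x u v - fderiv ℝ α x v u := rfl

theorem dF_alt (α : Form1 E) (x u : E) : dF α x u u = 0 := by simp [dF_apply]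

theorem dF_congr {α β : Form1 E} {x : E} (h : α =ᶠ[𝓝 x] β) : dF α x = dF β x := by
  simp only [dF, h.fderiv_eq]

theorem dF_add {α β : Form1 E} {x : E} (hα : DifferentiableAt ℝ α x)
    (hβ : DifferentiableAt ℝ β x) : dF (fun y => α y + β y) x = dF α x + dF β x := by
  ext u v
  simp only [dF_apply, fderiv_fun_add hα hβ, add_apply]
  ring

theorem dF_sub {α β : Form1 E} {x : E} (hα : DifferentiableAt ℝ α x)
    (hβ : DifferentiableAt ℝ β x) : dF (fun y => α y - β y) x = dF α x - dF β x := by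
  ext u v
  simp only [dF_apply, fderiv_fun_sub hα hβ, sub_apply]
  ring

theorem dF_lin {α β : Form1 E} {x : E} (hα : DifferentiableAt ℝ α x)
    (hβ : DifferentiableAt ℝ β x) (s t : ℝ) :
    dF (fun y => s • α y + t • β y) x = s • dF α x + t • dF β x := by
  ext u v
  simp only [dF_apply, fderiv_fun_add (hα.fun_const_smul s) (hβ.fun_const_smul t),
    fderiv_fun_const_smul hα, fderiv_fun_const_smul hβ, add_apply, smul_apply, smul_eq_mul]
  ring

theorem dF_smul {α : Form1 E} {g : E → ℝ} {x : E} (hα : DifferentiableAt ℝ α x)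
    (hg : DifferentiableAt ℝ g x) (u v : E) :
    dF (fun y => g y • α y) x u v =
      g x * dF α x u v + (fderiv ℝ g x u * α x v - fderiv ℝ g x v * α x u) := by
  simp only [dF_apply, fderiv_fun_smul hg hα, add_apply, smul_apply, smul_eq_mul,
    ContinuousLinearMap.smulRight_apply]
  ring

theorem Form_symm {g : E → E'} {x : E} (hg : ContDiffAt ℝ ∞ g x) : IsSymmSndFDerivAt ℝ g x :=
  hg.isSymmSndFDerivAt (minSmoothness_of_isRCLikeNormedField.trans_le (by norm_cast))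

theorem dF_fderiv {g : E → ℝ} {x : E} (hg : ContDiffAt ℝ ∞ g x) : dF (fderiv ℝ g) x = 0 := by
  ext u v
  exact sub_eq_zero.2 ((Form_symm hg).eq u v)

theorem dF_pb {φ : E → E'} {α : Form1 E'} {x : E} (hφ : ContDiffAt ℝ ∞ φ x)
    (hα : DifferentiableAt ℝ α (φ x)) :
    dF (pb φ α) x = pbB (fderiv ℝ φ x) (dF α (φ x)) := by
  ext u v
  have h1 := hφ.differentiableAt (by simp)
  have h2 := (hα.hasFDerivAt.comp x h1.hasFDerivAt).clm_comp
    ((hφ.fderiv_right (m := ∞) (by simp)).differentiableAt (by simp)).hasFDerivAt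
  have h3 : fderiv ℝ (pb φ α) x = _ := h2.fderiv
  simp [dF_apply, h3, (Form_symm hφ).eq u v]

theorem contDiffAt_pb {φ : E → E'} {α : Form1 E'} {x : E} (hφ : ContDiffAt ℝ ∞ φ x)
    (hα : ContDiffAt ℝ ∞ α (φ x)) : ContDiffAt ℝ ∞ (pb φ α) x :=
  (hα.comp x hφ).clm_comp (hφ.fderiv_right (by simp))

theorem Form_alt {X : Type} [NormedAddCommGroup X] [NormedSpace ℝ X] {a : X → Bil E} {x : X}
    (h : ContDiffAt ℝ ∞ a x) : ContDiffAt ℝ ∞ (fun y => a y - (a y).flip) x :=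
  h.sub ((LinearIsometryEquiv.contDiff (𝕜 := ℝ) (E := Bil E) (F := Bil E)
    (ContinuousLinearMap.flipₗᵢ ℝ E E ℝ)).contDiffAt.comp x h :)

theorem contDiffAt_dF {α : Form1 E} {x : E} (hα : ContDiffAt ℝ ∞ α x) :
    ContDiffAt ℝ ∞ (dF α) x :=
  Form_alt (hα.fderiv_right (by simp))

theorem Form_fam {f : ℝ → E → E'} {s : ℝ} {x : E}
    (hf : ContDiffAt ℝ ∞ (fun z : ℝ × E => f z.1 z.2) (s, x)) :
    ContDiffAt ℝ ∞ (fun z : ℝ × E => fderiv ℝ (f z.1) z.2) (s, x) :=
  ContDiffAt.fderiv (n := ∞) (f := fun z : ℝ × E => f z.1) (hf.comp ((s, x), x)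
    (f := fun p : (ℝ × E) × E => (p.1.1, p.2)) (by fun_prop)) contDiffAt_snd (by simp)

/-- Smoothness of `dF` of a family. -/
theorem contDiffAt_dF_fam {α : ℝ → Form1 E} {s : ℝ} {x : E}
    (hα : ContDiffAt ℝ ∞ (fun z : ℝ × E => α z.1 z.2) (s, x)) :
    ContDiffAt ℝ ∞ (fun z : ℝ × E => dF (α z.1) z.2) (s, x) :=
  Form_alt (Form_fam hα)

/-- Smoothness of the space derivative of a family. -/
theorem contDiffAt_fderiv_fam {f : ℝ → E → E'} {s : ℝ} {x : E}
    (hf : ContDiffAt ℝ ∞ (fun z : ℝ × E => f z.1 z.2) (s, x)) :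
    ContDiffAt ℝ ∞ (fun z : ℝ × E => fderiv ℝ (f z.1) z.2) (s, x) :=
  Form_fam hf

theorem pb_comp {E'' : Type} [NormedAddCommGroup E''] [NormedSpace ℝ E''] {φ : E → E'}
    {ψ : E' → E''} (α : Form1 E'') {x : E} (hφ : DifferentiableAt ℝ φ x)
    (hψ : DifferentiableAt ℝ ψ (φ x)) : pb (fun y => ψ (φ y)) α x = pb φ (pb ψ α) x := by
  rw [pb, fderiv_fun_comp x hψ hφ]
  rfl

end gen

end Pool.Agent.Lib.MP_ccffa6_gt.ELI
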