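import Pool.Agent.Lib.MP_ccffa6_gt.ELI.Alg
import Pool.Agent.Lib.MP_ccffa6_gt.ELI.Form

/-!
Admissible forms, equivariant maps.
-/

open Set Filter Topology
open scoped ContDiff RealInnerProductSpace

noncomputable section

namespace Pool.Agent.Lib.MP_ccffa6_gt.ELI

variable {F : Type} [NormedAddCommGroup F] [InnerProductSpace ℝ F] {P : F →L[ℝ] F}
  {lam lam' : Form1 (F × F)}

/-- The model form as a bilinear map. -/
def Calc_L (P : F →L[ℝ] F) : Bil (F × F) :=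
  (innerSL ℝ : F →L[ℝ] F →L[ℝ] ℝ).bilinearComp (P.comp (ContinuousLinearMap.fst ℝ F F))
      (ContinuousLinearMap.snd ℝ F F) -
    (innerSL ℝ : F →L[ℝ] F →L[ℝ] ℝ).bilinearComp ((1 - P).comp (ContinuousLinearMap.snd ℝ F F))
      (ContinuousLinearMap.fst ℝ F F)

theorem Calc_L_apply (y u : F × F) :
    Calc_L P y u = ⟪P y.1, u.2⟫ - ⟪y.2 - P y.2, u.1⟫ := rfl

theorem Calc_L_eq : lam0 P = fun y => Calc_L P y := by
  funext y
  refine ContinuousLinearMap.ext fun u => ?_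
  rw [lam0_apply, Calc_L_apply]

theorem contDiff_lam0 : ContDiff ℝ ∞ (lam0 P) := by
  rw [Calc_L_eq]
  exact (Calc_L P).contDiff

theorem dF_lam0 (hP : IsOP P) (y : F × F) : dF (lam0 P) y = om0 F := by
  have hd : fderiv ℝ (lam0 P) y = Calc_L P := by
    rw [Calc_L_eq]
    exact (Calc_L P).fderiv
  refine ContinuousLinearMap.ext fun u => ContinuousLinearMap.ext fun v => ?_
  rw [dF_apply, hd, Calc_L_apply, Calc_L_apply, om0_apply, inner_sub_left, inner_sub_left,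
    hP.symm u.1 v.2, hP.symm v.1 u.2, real_inner_comm u.1 (P v.2), real_inner_comm v.1 (P u.2),
    real_inner_comm u.1 v.2]
  ring

theorem adm_lam0 (hP : IsOP P) : Adm P (lam0 P) := by
  refine ⟨fun y _ => contDiff_lam0.contDiffAt, fun ρ _ y _ u => ?_, fun y _ => ?_⟩
  · have e1 : P (sa P ρ y.1) = sa P ρ (P y.1) := by
      rw [P_sa hP, sa_apply, hP.idem, sub_self, add_zero]
    have e2 : sb P ρ y.2 - P (sb P ρ y.2) = sb P ρ (y.2 - P y.2) := by
      rw [P_sb hP, sb_apply, sb_apply, map_sub, hP.idem, sub_self, sub_zero, zero_add,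
        add_sub_cancel_left]
    rw [lam0_apply, lam0_apply, Sc_apply, Sc_apply]
    dsimp only
    rw [e1, e2, inner_sa_sb hP, real_inner_comm (sa P ρ u.1), inner_sa_sb hP,
      real_inner_comm u.1]
    ring
  · rw [lam0_apply, Zv_apply]
    dsimp only
    rw [real_inner_comm (P y.1), sub_self]

theorem Adm.diff (h : Adm P lam) {y : F × F} (hy : P y.1 ≠ 0) : DifferentiableAt ℝ lam y :=
  (h.sm y hy).differentiableAt (by simp)

theorem Adm.lin (h : Adm P lam) (h' : Adm P lam') (s t : ℝ) :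
    Adm P fun y => s • lam y + t • lam' y := by
  refine ⟨fun y hy => ((h.sm y hy).const_smul s).add ((h'.sm y hy).const_smul t),
    fun ρ hρ y hy u => ?_, fun y hy => ?_⟩
  · simp only [add_apply, smul_apply, smul_eq_mul,
      h.hom ρ hρ y hy, h'.hom ρ hρ y hy]
    ring
  · simp only [add_apply, smul_apply, smul_eq_mul,
      h.euler y hy, h'.euler y hy]
    ring

theorem Adm.add (h : Adm P lam) (h' : Adm P lam') : Adm P fun y => lam y + lam' y := by
  refine ⟨fun y hy => (h.sm y hy).add (h'.sm y hy), fun ρ hρ y hy u => ?_, fun y hy => ?_⟩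
  · simp only [add_apply, h.hom ρ hρ y hy, h'.hom ρ hρ y hy]
    ring
  · simp only [add_apply, h.euler y hy, h'.euler y hy]
    ring

theorem Adm.sub (h : Adm P lam) (h' : Adm P lam') : Adm P fun y => lam y - lam' y := by
  refine ⟨fun y hy => (h.sm y hy).sub (h'.sm y hy), fun ρ hρ y hy u => ?_, fun y hy => ?_⟩
  · simp only [sub_apply, h.hom ρ hρ y hy, h'.hom ρ hρ y hy]
    ring
  · simp only [sub_apply, h.euler y hy, h'.euler y hy]
    ring

/-- Multiplication by an invariant function. -/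
theorem Adm.smul (h : Adm P lam) {g : F × F → ℝ}
    (hg : ∀ y : F × F, P y.1 ≠ 0 → ContDiffAt ℝ ∞ g y)
    (hi : ∀ ρ : ℝ, 0 < ρ → ∀ y : F × F, P y.1 ≠ 0 → g (Sc P ρ y) = g y) :
    Adm P fun y => g y • lam y := by
  refine ⟨fun y hy => (hg y hy).smul (h.sm y hy), fun ρ hρ y hy u => ?_, fun y hy => ?_⟩
  · simp only [smul_apply, smul_eq_mul, h.hom ρ hρ y hy, hi ρ hρ y hy]
    ring
  · simp only [smul_apply, smul_eq_mul, h.euler y hy, mul_zero]

theorem Adm.congr (hP : IsOP P) (h : Adm P lam) (e : ∀ y : F × F, P y.1 ≠ 0 → lam' y = lam y) :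
    Adm P lam' := by
  refine ⟨fun y hy => (h.sm y hy).congr_of_eventuallyEq ((eventually_ne hy).mono e),
    fun ρ hρ y hy u => ?_, fun y hy => ?_⟩
  · rw [e _ (Sc_ne hP hρ hy), e y hy, h.hom ρ hρ y hy]
  · rw [e y hy, h.euler y hy]

theorem Adm.dF_hom (hP : IsOP P) (h : Adm P lam) {ρ : ℝ} (hρ : 0 < ρ) {y : F × F}
    (hy : P y.1 ≠ 0) : pbB (Sc P ρ) (dF lam (Sc P ρ y)) = ρ • dF lam y := by
  have h1 := dF_pb (φ := fun z => Sc P ρ z) (α := lam) (x := y) (Sc P ρ).contDiff.contDiffAt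
    (h.diff (Sc_ne hP hρ hy))
  have hS : ∀ z, fderiv ℝ (fun z => Sc P ρ z) z = Sc P ρ := fun z => (Sc P ρ).fderiv
  have h2 : pb (fun z => Sc P ρ z) lam =ᶠ[𝓝 y] fun z => ρ • lam z + (0 : ℝ) • lam z := by
    filter_upwards [eventually_ne hy] with z hz
    refine ContinuousLinearMap.ext fun u => ?_
    simp only [pb, hS, ContinuousLinearMap.comp_apply, h.hom ρ hρ z hz, zero_smul, add_zero,
      smul_apply, smul_eq_mul]
  rw [dF_congr h2, dF_lin (h.diff hy) (h.diff hy), hS] at h1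
  rw [← h1]
  refine ContinuousLinearMap.ext fun u => ContinuousLinearMap.ext fun v => ?_
  show ρ * dF lam y u v + 0 * dF lam y u v = ρ * dF lam y u v
  ring

theorem Adm.eq_dF (hP : IsOP P) (h : Adm P lam) {y : F × F} (hy : P y.1 ≠ 0) :
    lam y = dF lam y (Zv P y) := by
  refine ContinuousLinearMap.ext fun v => ?_
  have hl : HasFDerivAt lam (fderiv ℝ lam y) (Sc P 1 y) := by
    rw [Sc_one]
    exact (h.diff hy).hasFDerivAt
  have a1 : HasDerivAt (fun r : ℝ => lam (Sc P r y) (Sc P r v))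
      (fderiv ℝ lam y (Zv P y) (Sc P 1 v) + lam (Sc P 1 y) (Zv P v)) 1 :=
    (hl.comp_hasDerivAt (1 : ℝ) (hasDerivAt_Sc y 1)).clm_apply (hasDerivAt_Sc v 1)
  have a2 : HasDerivAt (fun r : ℝ => lam (Sc P r y) (Sc P r v)) (lam y v) 1 := by
    refine (hasDerivAt_mul_const (lam y v)).congr_of_eventuallyEq ?_
    filter_upwards [lt_mem_nhds (zero_lt_one' ℝ)] with r hr
    exact h.hom r hr y hy v
  have a3 := a1.unique a2
  rw [Sc_one, Sc_one] at a3
  have b1 := (h.diff hy).hasFDerivAt.clm_apply (Zv P).hasFDerivAt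
  have b2 : HasFDerivAt (fun z => lam z (Zv P z)) (0 : F × F →L[ℝ] ℝ) y := by
    refine (hasFDerivAt_const (0 : ℝ) y).congr_of_eventuallyEq ?_
    filter_upwards [eventually_ne hy] with z hz
    exact h.euler z hz
  have b3 := congrArg (fun L : F × F →L[ℝ] ℝ => L v) (b1.unique b2)
  simp only [add_apply, ContinuousLinearMap.comp_apply,
    ContinuousLinearMap.flip_apply, zero_apply] at b3
  rw [dF_apply]
  linarith

theorem Adm.nd [FiniteDimensional ℝ F] (hP : IsOP P) (h : Adm P lam) {R : ℝ} (hc : Ct P R lam)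
    {y : F × F} (hy : P y.1 ≠ 0) (hr : rad P y ≤ R) : ND ⊤ (dF lam y) := by
  have h1 := h.dF_hom hP (ht_pos hy) (ne_of_ht (ht_nz hP hy))
  rw [Sc_nz hP hy] at h1
  have h2 : ND ⊤ (pbB (Sc P (ht P y)) (dF lam y)) := by
    rw [h1]
    exact nd_smul (hc _ (nz_mem_Cyl hP hy hr)) (ht_pos hy).ne'
  exact (nd_of_pbB (dF_alt lam y) h2).1

theorem Adm.contOn_dF (h : Adm P lam) : ContinuousOn (dF lam) {y | P y.1 ≠ 0} := fun y hy =>
  (contDiffAt_dF (h.sm y hy)).continuousAt.continuousWithinAt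

theorem Adm.contOn_jet (h : Adm P lam) : ContinuousOn (jet lam) (core P) := by
  exact h.contOn_dF.comp (f := fun q : F => (q, (0 : F)))
    (continuous_id.prodMk continuous_const).continuousOn fun q hq => core_ne hq

theorem nrm_dF (hP : IsOP P) (h : Adm P lam) {y : F × F} (hy : P y.1 ≠ 0) :
    nrm P y (dF lam y) = ‖dF lam (nz P y)‖ := by
  have h1 := h.dF_hom hP (ht_pos hy) (ne_of_ht (ht_nz hP hy))
  rw [Sc_nz hP hy] at h1
  rw [nrm, h1, inv_smul_smul₀ (ht_pos hy).ne']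

theorem nrm_add_le (y : F × F) (D D' : Bil (F × F)) :
    nrm P y (D + D') ≤ nrm P y D + nrm P y D' := by
  have e : (ht P y)⁻¹ • pbB (Sc P (ht P y)) (D + D') =
      (ht P y)⁻¹ • pbB (Sc P (ht P y)) D + (ht P y)⁻¹ • pbB (Sc P (ht P y)) D' :=
    ContinuousLinearMap.ext fun u => ContinuousLinearMap.ext fun v => mul_add _ _ _
  rw [nrm, nrm, nrm, e]
  exact norm_add_le ((ht P y)⁻¹ • pbB (Sc P (ht P y)) D) ((ht P y)⁻¹ • pbB (Sc P (ht P y)) D')

theorem nrm_of_ht {y : F × F} (hy : ht P y = 1) (D : Bil (F × F)) : nrm P y D = ‖D‖ := by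
  have e : pbB (Sc P 1) D = D :=
    ContinuousLinearMap.ext fun u => ContinuousLinearMap.ext fun v => by
      rw [pbB_apply, Sc_one, Sc_one]
  rw [nrm, hy, e, inv_one, one_smul]

/-- Equivariant maps. -/
structure Eqv (P : F →L[ℝ] F) (φ : F × F → F × F) : Prop where
  sm : ∀ y : F × F, P y.1 ≠ 0 → ContDiffAt ℝ ∞ φ y
  eqv : ∀ ρ : ℝ, 0 < ρ → ∀ y : F × F, P y.1 ≠ 0 → φ (Sc P ρ y) = Sc P ρ (φ y)
  ne : ∀ y : F × F, P y.1 ≠ 0 → P (φ y).1 ≠ 0

variable {φ : F × F → F × F}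

theorem Eqv.fderiv_Sc (hP : IsOP P) (h : Eqv P φ) {ρ : ℝ} (hρ : 0 < ρ) {y : F × F}
    (hy : P y.1 ≠ 0) (u : F × F) :
    fderiv ℝ φ (Sc P ρ y) (Sc P ρ u) = Sc P ρ (fderiv ℝ φ y u) := by
  have d1 := ((h.sm _ (Sc_ne hP hρ hy)).differentiableAt (by simp)).hasFDerivAt
  have d2 := ((h.sm _ hy).differentiableAt (by simp)).hasFDerivAt
  have a1 := d1.comp y (Sc P ρ).hasFDerivAt
  have a2 := (Sc P ρ).hasFDerivAt.comp y d2
  have a3 : HasFDerivAt (φ ∘ Sc P ρ) ((Sc P ρ).comp (fderiv ℝ φ y)) y := by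
    refine a2.congr_of_eventuallyEq ?_
    filter_upwards [eventually_ne hy] with z hz
    exact h.eqv ρ hρ z hz
  exact congrArg (fun L : F × F →L[ℝ] F × F => L u) (a1.unique a3)

theorem Eqv.euler (h : Eqv P φ) {y : F × F} (hy : P y.1 ≠ 0) :
    fderiv ℝ φ y (Zv P y) = Zv P (φ y) := by
  have hl : HasFDerivAt φ (fderiv ℝ φ y) (Sc P 1 y) := by
    rw [Sc_one]
    exact ((h.sm _ hy).differentiableAt (by simp)).hasFDerivAt
  have a1 : HasDerivAt (fun r : ℝ => φ (Sc P r y)) (fderiv ℝ φ y (Zv P y)) 1 :=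
    hl.comp_hasDerivAt (1 : ℝ) (hasDerivAt_Sc y 1)
  have a2 : HasDerivAt (fun r : ℝ => φ (Sc P r y)) (Zv P (φ y)) 1 := by
    refine (hasDerivAt_Sc (φ y) 1).congr_of_eventuallyEq ?_
    filter_upwards [lt_mem_nhds (zero_lt_one' ℝ)] with r hr
    exact h.eqv r hr y hy
  exact a1.unique a2

theorem Eqv.adm (hP : IsOP P) (h : Eqv P φ) (hl : Adm P lam) : Adm P (pb φ lam) := by
  refine ⟨fun y hy => contDiffAt_pb (h.sm y hy) (hl.sm _ (h.ne y hy)), fun ρ hρ y hy u => ?_,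
    fun y hy => ?_⟩
  · simp only [pb, ContinuousLinearMap.comp_apply]
    rw [h.fderiv_Sc hP hρ hy, h.eqv ρ hρ y hy, hl.hom ρ hρ _ (h.ne y hy)]
  · simp only [pb, ContinuousLinearMap.comp_apply]
    rw [h.euler hy, hl.euler _ (h.ne y hy)]

theorem Eqv.dF_pb (h : Eqv P φ) (hl : Adm P lam) {y : F × F} (hy : P y.1 ≠ 0) :
    dF (pb φ lam) y = pbB (fderiv ℝ φ y) (dF lam (φ y)) :=
  ELI.dF_pb (h.sm y hy) (hl.diff (h.ne y hy))

theorem Eqv.comp {ψ : F × F → F × F} (h : Eqv P φ) (h' : Eqv P ψ) : Eqv P fun y => φ (ψ y) := by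
  refine ⟨fun y hy => (h.sm _ (h'.ne y hy)).comp y (h'.sm y hy), fun ρ hρ y hy => ?_,
    fun y hy => h.ne _ (h'.ne y hy)⟩
  rw [h'.eqv ρ hρ y hy, h.eqv ρ hρ _ (h'.ne y hy)]

/-- The cone over a one-form given near the cylinder. -/
def cone (P : F →L[ℝ] F) (A : Form1 (F × F)) : Form1 (F × F) := fun y => ht P y • pb (nz P) A y

theorem Calc_nz_Sc (hP : IsOP P) {ρ : ℝ} (hρ : 0 < ρ) {y : F × F} (hy : P y.1 ≠ 0) (u : F × F) :
    fderiv ℝ (nz P) (Sc P ρ y) (Sc P ρ u) = fderiv ℝ (nz P) y u := by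
  have d1 := ((contDiffAt_nz (Sc_ne hP hρ hy)).differentiableAt (by simp)).hasFDerivAt
  have a1 := d1.comp y (Sc P ρ).hasFDerivAt
  have e : nz P ∘ Sc P ρ = nz P := funext fun z => nz_Sc hP hρ z
  rw [e] at a1
  rw [a1.fderiv]
  rfl

theorem Calc_nz_Zv (hP : IsOP P) {y : F × F} (hy : P y.1 ≠ 0) :
    fderiv ℝ (nz P) y (Zv P y) = 0 := by
  have hl : HasFDerivAt (nz P) (fderiv ℝ (nz P) y) (Sc P 1 y) := by
    rw [Sc_one]
    exact ((contDiffAt_nz hy).differentiableAt (by simp)).hasFDerivAt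
  have a0 := HasFDerivAt.comp_hasDerivAt (f := fun r : ℝ => Sc P r y) (1 : ℝ) hl
    (hasDerivAt_Sc y 1)
  have a1 : HasDerivAt (fun r : ℝ => nz P (Sc P r y)) (fderiv ℝ (nz P) y (Zv P y)) 1 := a0
  have a2 : HasDerivAt (fun r : ℝ => nz P (Sc P r y)) 0 1 := by
    refine (hasDerivAt_const (1 : ℝ) (nz P y)).congr_of_eventuallyEq ?_
    filter_upwards [lt_mem_nhds (zero_lt_one' ℝ)] with r hr
    exact nz_Sc hP hr y
  exact a1.unique a2

theorem adm_cone (hP : IsOP P) {A : Form1 (F × F)}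
    (hA : ∀ y : F × F, ht P y = 1 → ContDiffAt ℝ ∞ A y) : Adm P (cone P A) := by
  refine ⟨fun y hy => (contDiffAt_ht hy).smul
    (contDiffAt_pb (contDiffAt_nz hy) (hA _ (ht_nz hP hy))), fun ρ hρ y hy u => ?_,
    fun y hy => ?_⟩
  · simp only [cone, pb, smul_apply, ContinuousLinearMap.comp_apply,
      smul_eq_mul]
    rw [Calc_nz_Sc hP hρ hy, nz_Sc hP hρ, ht_Sc hP hρ, mul_assoc]
  · simp only [cone, pb, smul_apply, ContinuousLinearMap.comp_apply,
      smul_eq_mul]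
    rw [Calc_nz_Zv hP hy, map_zero, mul_zero]

theorem cone_apply (hP : IsOP P) (A : Form1 (F × F)) {y : F × F} (hy : ht P y = 1) (u : F × F) :
    cone P A y u = A y (u - ⟪P y.1, u.1⟫ • Zv P y) := by
  simp only [cone, pb, smul_apply, ContinuousLinearMap.comp_apply,
    smul_eq_mul]
  rw [fderiv_nz hP hy, nz_of_ht hy, hy, one_mul]

theorem dF_cone (hP : IsOP P) {A : Form1 (F × F)} {y : F × F} (hy : ht P y = 1)
    (hA : ContDiffAt ℝ ∞ A y) (u v : F × F) :
    dF (cone P A) y u v =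
      dF A y (u - ⟪P y.1, u.1⟫ • Zv P y) (v - ⟪P y.1, v.1⟫ • Zv P y) +
        (⟪P y.1, u.1⟫ * A y (v - ⟪P y.1, v.1⟫ • Zv P y) -
          ⟪P y.1, v.1⟫ * A y (u - ⟪P y.1, u.1⟫ • Zv P y)) := by
  have hy' := ne_of_ht hy
  have hA' : ContDiffAt ℝ ∞ A (nz P y) := by
    rw [nz_of_ht hy]
    exact hA
  have h1 := dF_smul (α := pb (nz P) A) (g := ht P) (x := y)
    ((contDiffAt_pb (contDiffAt_nz hy') hA').differentiableAt (by simp))
    ((contDiffAt_ht hy').differentiableAt (by simp)) u v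
  rw [dF_pb (contDiffAt_nz hy') (hA'.differentiableAt (by simp))] at h1
  simp only [pb, pbB_apply, ContinuousLinearMap.comp_apply, fderiv_nz hP hy, fderiv_ht hP hy,
    nz_of_ht hy, hy, one_mul] at h1
  exact h1

/-- Translation by a section. -/
def tr (ς : F → F) (y : F × F) : F × F := (y.1, y.2 + ς y.1)

theorem Sect.eqv_tr (hP : IsOP P) {ς : F → F} (h : Sect P ς) : Eqv P (tr ς) := by
  refine ⟨fun y hy => contDiffAt_fst.prodMk
    (contDiffAt_snd.add ((h.sm _ hy).comp y contDiffAt_fst)), fun ρ hρ y hy => ?_,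
    fun y hy => hy⟩
  simp only [tr, Sc_apply, h.eqv ρ hρ _ hy, map_add]

theorem fderiv_tr {ς : F → F} {y : F × F} (h : DifferentiableAt ℝ ς y.1) (u : F × F) :
    fderiv ℝ (tr ς) y u = (u.1, u.2 + fderiv ℝ ς y.1 u.1) := by
  have a1 : HasFDerivAt (tr ς) ((ContinuousLinearMap.fst ℝ F F).prod
      (ContinuousLinearMap.snd ℝ F F + (fderiv ℝ ς y.1).comp (ContinuousLinearMap.fst ℝ F F))) y :=
    hasFDerivAt_fst.prodMk (hasFDerivAt_snd.add (h.hasFDerivAt.comp y hasFDerivAt_fst))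
  rw [a1.fderiv]
  rfl

theorem frm_apply (f : F → F × F) (G : F →L[ℝ] F × F) (q : F) (u : F × F) :
    frm f G q u = fderiv ℝ f q u.1 + G u.2 := rfl

/-- Forms which differ from `om0` only on the position block are nondegenerate. -/
theorem nd_block {w : Bil (F × F)} (ha : ∀ u, w u u = 0) (h1 : ∀ u b, w (u, 0) (0, b) = ⟪u, b⟫)
    (h2 : ∀ b b', w (0, b) (0, b') = 0) : ND ⊤ w := by
  refine ⟨fun u _ => ha u, fun u _ hu => ?_⟩
  obtain ⟨a, b⟩ := u
  have e : ((a, b) : F × F) = (a, 0) + (0, b) := by simp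
  have ha0 : a = 0 := by
    have h3 := hu (0, a) trivial
    rw [e, map_add, add_apply, h1, h2, add_zero] at h3
    exact inner_self_eq_zero.1 h3
  subst ha0
  have h4 := hu (b, 0) trivial
  rw [alt_swap ha, h1, neg_eq_zero] at h4
  rw [inner_self_eq_zero.1 h4]
  rfl

end Pool.Agent.Lib.MP_ccffa6_gt.ELI
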