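import Pool.Agent.Lib.MP_ccffa6_gt.ELI.Defs

/-!
The tracking calculus. (Owner helper18; may be split, keep the names.)
-/

open Set Filter Topology
open scoped ContDiff

noncomputable section

namespace Pool.Agent.Lib.MP_ccffa6_gt.ELI

variable {X : Type} [TopologicalSpace X] {V : Type} [NormedAddCommGroup V] [NormedSpace ℝ V]
  {C : Set X} {x₀ : NDsp C V}

/-- A continuous family of nondegenerate fields on `C` with parameters in `D`. -/
structure Fam {Y : Type} [TopologicalSpace Y] (D : Set Y) (C : Set X) (K : Y → X → Bil V) :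
    Prop where
  cont : ContinuousOn (fun z : Y × X => K z.1 z.2) (D ×ˢ C)
  nd : ∀ p ∈ D, ∀ q ∈ C, ND ⊤ (K p q)

theorem Lift.base_over {w : Bil V} {h : ND ⊤ w} : (Lift.base (cst C w h)).Over fun _ => w :=
  fun _ => rfl

theorem Lift.Over.congr {a : Lift x₀} {Ω Ω' : X → Bil V} (h : a.Over Ω)
    (e : ∀ q ∈ C, Ω q = Ω' q) : a.Over Ω' := fun q => (h q).trans (e q q.2)

theorem Lift.Over.eq {a : Lift x₀} {Ω Ω' : X → Bil V} (h : a.Over Ω) (h' : a.Over Ω') :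
    ∀ q ∈ C, Ω q = Ω' q := fun q hq => (h ⟨q, hq⟩).symm.trans (h' ⟨q, hq⟩)

theorem Co_ext {x y : NDsp C V} (h : ∀ q : C, x.1 q = y.1 q) : x = y :=
  Subtype.ext (ContinuousMap.ext h)

/-- The map into the space of fields given by a family. -/
def Fam.pt {Y : Type} [TopologicalSpace Y] {D : Set Y} {K : Y → X → Bil V} (h : Fam D C K) :
    C(D, NDsp C V) where
  toFun p := ⟨⟨fun q => K p q, h.cont.comp_continuous (f := fun q : C => ((p : Y), (q : X)))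
    (by fun_prop) fun q => ⟨p.2, q.2⟩⟩, fun q => h.nd p p.2 q q.2⟩
  continuous_toFun := by
    refine Continuous.subtype_mk (ContinuousMap.continuous_of_continuous_uncurry _ ?_) _
    exact h.cont.comp_continuous (f := fun z : D × C => ((z.1 : Y), (z.2 : X)))
      (by fun_prop) fun z => ⟨z.1.2, z.2.2⟩

open Classical in
/-- Extension by zero. -/
def Co_ext0 (g : NDsp C V) : X → Bil V := fun q => if h : q ∈ C then g.1 ⟨q, h⟩ else 0

theorem Co_ext0_apply (g : NDsp C V) {q : X} (h : q ∈ C) : Co_ext0 g q = g.1 ⟨q, h⟩ := by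
  simp [Co_ext0, h]

theorem Co_fam_of_cont (hC : IsCompact C) {Y : Type} [TopologicalSpace Y] (D : Set Y)
    {Φ : Y → NDsp C V} (hΦ : Continuous Φ) : Fam D C fun y => Co_ext0 (Φ y) := by
  have : CompactSpace C := isCompact_iff_compactSpace.1 hC
  refine ⟨?_, fun p _ q hq => by rw [Co_ext0_apply _ hq]; exact (Φ p).2 _⟩
  rw [continuousOn_iff_continuous_domRestrict]
  have h1 : Continuous fun z : (D ×ˢ C : Set (Y × X)) => (Φ z.1.1).1 :=
    continuous_subtype_val.comp (hΦ.comp (by fun_prop))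
  have h2 : Continuous fun z : (D ×ˢ C : Set (Y × X)) => (⟨z.1.2, z.2.2⟩ : C) :=
    Continuous.subtype_mk (by fun_prop) _
  refine (h1.eval h2).congr fun z => ?_
  exact (Co_ext0_apply _ z.2.2).symm

/-- A path in the parameter set. -/
def Co_path {Y : Type} [TopologicalSpace Y] {D : Set Y} {p : ℝ → Y}
    (hp : ContinuousOn p (Icc 0 1)) (hm : MapsTo p (Icc 0 1) D) {u v : D} (h0 : p 0 = u)
    (h1 : p 1 = v) : Path u v where
  toFun t := ⟨p t, hm t.2⟩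
  continuous_toFun := Continuous.subtype_mk (hp.comp_continuous continuous_subtype_val fun t => t.2) _
  source' := Subtype.ext h0
  target' := Subtype.ext h1

theorem Co_iff {c : ℝ → X → Bil V} {x y : NDsp C V} (γ : Path x y)
    (h : ∀ (t : unitInterval) (q : C), (γ t).1 q = c t q) (A : Path.Homotopic.Quotient x x₀)
    (B : Path.Homotopic.Quotient y x₀) :
    Co c ⟨x, A⟩ ⟨y, B⟩ ↔ A = Path.Homotopic.Quotient.trans (Path.Homotopic.Quotient.mk γ) B := by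
  refine ⟨fun ⟨γ', h', e⟩ => ?_, fun e => ⟨γ, h, e⟩⟩
  have : γ' = γ := Path.ext (funext fun t => Co_ext fun q => (h' t q).trans (h t q).symm)
  rw [← this]; exact e

theorem Co.over_left {c : ℝ → X → Bil V} {a a' : Lift x₀} (h : Co c a a') : a.Over (c 0) := by
  obtain ⟨γ, hγ, -⟩ := h
  intro q
  simpa using hγ 0 q

theorem Co.over_right {c : ℝ → X → Bil V} {a a' : Lift x₀} (h : Co c a a') : a'.Over (c 1) := by
  obtain ⟨γ, hγ, -⟩ := h
  intro q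
  simpa using hγ 1 q

theorem Co.fam (hC : IsCompact C) {c : ℝ → X → Bil V} {a a' : Lift x₀} (h : Co c a a') :
    Fam (Icc (0 : ℝ) 1) C c := by
  obtain ⟨γ, hγ, -⟩ := h
  have H := Co_fam_of_cont hC (Icc (0 : ℝ) 1) γ.continuous_extend
  have e : ∀ t ∈ Icc (0 : ℝ) 1, ∀ q ∈ C, c t q = Co_ext0 (γ.extend t) q := fun t ht q hq => by
    rw [Co_ext0_apply _ hq, Path.extend_apply γ ht, hγ]
  exact ⟨H.cont.congr fun z hz => e _ hz.1 _ hz.2, fun t ht q hq => by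
    rw [e t ht q hq]; exact H.nd t ht q hq⟩

theorem Co.exists_left {c : ℝ → X → Bil V} (hc : Fam (Icc (0 : ℝ) 1) C c) {a' : Lift x₀}
    (h : a'.Over (c 1)) : ∃ a, Co c a a' := by
  obtain ⟨y, B⟩ := a'
  obtain rfl : y = hc.pt ⟨1, by simp⟩ := Co_ext h
  let δ : Path (⟨0, by simp⟩ : Icc (0 : ℝ) 1) ⟨1, by simp⟩ :=
    Co_path continuousOn_id (mapsTo_id _) rfl rfl
  exact ⟨⟨_, (Path.Homotopic.Quotient.mk (δ.map hc.pt.continuous)).trans B⟩,
    δ.map hc.pt.continuous, fun _ _ => rfl, rfl⟩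

theorem Co.exists_right {c : ℝ → X → Bil V} (hc : Fam (Icc (0 : ℝ) 1) C c) {a : Lift x₀}
    (h : a.Over (c 0)) : ∃ a', Co c a a' := by
  obtain ⟨y, B⟩ := a
  obtain rfl : y = hc.pt ⟨0, by simp⟩ := Co_ext h
  let δ : Path (⟨0, by simp⟩ : Icc (0 : ℝ) 1) ⟨1, by simp⟩ :=
    Co_path continuousOn_id (mapsTo_id _) rfl rfl
  refine ⟨⟨_, (Path.Homotopic.Quotient.mk (δ.map hc.pt.continuous)).symm.trans B⟩,
    δ.map hc.pt.continuous, fun _ _ => rfl, ?_⟩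
  simp only [← Path.Homotopic.Quotient.trans_assoc, Path.Homotopic.Quotient.trans_symm,
    Path.Homotopic.Quotient.refl_trans]

theorem Co.unique_left {c : ℝ → X → Bil V} {a b a' : Lift x₀} (h : Co c a a') (h' : Co c b a') :
    a = b := by
  obtain ⟨x, A⟩ := a
  obtain ⟨y, B⟩ := b
  obtain ⟨z, A'⟩ := a'
  obtain rfl : x = y := Co_ext fun q => (h.over_left q).trans (h'.over_left q).symm
  obtain ⟨γ, hγ, e⟩ := h
  have e' := (Co_iff γ hγ B A').1 h'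
  exact congrArg (Sigma.mk x) (e.trans e'.symm)

theorem Co.unique_right {c : ℝ → X → Bil V} {a a' b' : Lift x₀} (h : Co c a a')
    (h' : Co c a b') : a' = b' := by
  obtain ⟨x, A⟩ := a'
  obtain ⟨y, B⟩ := b'
  obtain ⟨z, A'⟩ := a
  obtain rfl : x = y := Co_ext fun q => (h.over_right q).trans (h'.over_right q).symm
  obtain ⟨γ, hγ, e⟩ := h
  have e' := (Co_iff γ hγ A' B).1 h'
  have e2 := congrArg (Path.Homotopic.Quotient.trans (Path.Homotopic.Quotient.mk γ).symm)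
    (e.symm.trans e')
  simp only [← Path.Homotopic.Quotient.trans_assoc, Path.Homotopic.Quotient.symm_trans,
    Path.Homotopic.Quotient.refl_trans] at e2
  exact congrArg (Sigma.mk x) e2

theorem Co.congr {c c' : ℝ → X → Bil V} {a a' : Lift x₀} (h : Co c a a')
    (e : ∀ t ∈ Icc (0 : ℝ) 1, ∀ q ∈ C, c t q = c' t q) : Co c' a a' := by
  obtain ⟨γ, hγ, e'⟩ := h
  exact ⟨γ, fun t q => (hγ t q).trans (e t t.2 q q.2), e'⟩

theorem Co.symm {c : ℝ → X → Bil V} {a a' : Lift x₀} (h : Co c a a') :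
    Co (fun t => c (1 - t)) a' a := by
  obtain ⟨γ, hγ, e⟩ := h
  refine ⟨γ.symm, fun t q => by simpa using hγ (unitInterval.symm t) q, ?_⟩
  rw [e, Path.Homotopic.Quotient.mk_symm, ← Path.Homotopic.Quotient.trans_assoc,
    Path.Homotopic.Quotient.symm_trans, Path.Homotopic.Quotient.refl_trans]

theorem Co.refl {c : ℝ → X → Bil V} {a : Lift x₀}
    (h : ∀ t ∈ Icc (0 : ℝ) 1, a.Over (c t)) : Co c a a := by
  refine ⟨Path.refl _, fun t q => h t t.2 q, ?_⟩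
  rw [Path.Homotopic.Quotient.mk_refl, Path.Homotopic.Quotient.refl_trans]

/-- Three arbitrary paths in a convex parameter set. -/
theorem Co.tri_gen {Y : Type} [NormedAddCommGroup Y] [NormedSpace ℝ Y] {D : Set Y}
    (hD : Convex ℝ D) {K : Y → X → Bil V} (hK : Fam D C K) {p₁ p₂ p₃ : ℝ → Y}
    (c₁ : ContinuousOn p₁ (Icc 0 1)) (c₂ : ContinuousOn p₂ (Icc 0 1))
    (c₃ : ContinuousOn p₃ (Icc 0 1)) (m₁ : MapsTo p₁ (Icc 0 1) D) (m₂ : MapsTo p₂ (Icc 0 1) D)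
    (m₃ : MapsTo p₃ (Icc 0 1) D) (e₁ : p₃ 0 = p₁ 0) (e₂ : p₂ 0 = p₁ 1) (e₃ : p₃ 1 = p₂ 1)
    {a₁ a₂ a₃ : Lift x₀} (h12 : Co (fun t => K (p₁ t)) a₁ a₂)
    (h23 : Co (fun t => K (p₂ t)) a₂ a₃) : Co (fun t => K (p₃ t)) a₁ a₃ := by
  have z0 : (0 : ℝ) ∈ Icc (0 : ℝ) 1 := by simp
  have z1 : (1 : ℝ) ∈ Icc (0 : ℝ) 1 := by simp
  have : ContractibleSpace D := hD.contractibleSpace ⟨_, m₁ z0⟩
  obtain ⟨x₁, A₁⟩ := a₁
  obtain ⟨x₂, A₂⟩ := a₂
  obtain ⟨x₃, A₃⟩ := a₃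
  obtain rfl : x₁ = hK.pt ⟨_, m₁ z0⟩ := Co_ext h12.over_left
  obtain rfl : x₂ = hK.pt ⟨_, m₁ z1⟩ := Co_ext h12.over_right
  obtain rfl : x₃ = hK.pt ⟨_, m₂ z1⟩ := Co_ext h23.over_right
  let δ₁ : Path (⟨_, m₁ z0⟩ : D) ⟨_, m₁ z1⟩ := Co_path c₁ m₁ rfl rfl
  let δ₂ : Path (⟨_, m₁ z1⟩ : D) ⟨_, m₂ z1⟩ := Co_path c₂ m₂ e₂ rfl
  let δ₃ : Path (⟨_, m₁ z0⟩ : D) ⟨_, m₂ z1⟩ := Co_path c₃ m₃ e₁ e₃
  have q₁ := (Co_iff (δ₁.map hK.pt.continuous) (fun _ _ => rfl) _ _).1 h12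
  have q₂ := (Co_iff (δ₂.map hK.pt.continuous) (fun _ _ => rfl) _ _).1 h23
  refine (Co_iff (δ₃.map hK.pt.continuous) (fun _ _ => rfl) _ _).2 ?_
  have hh := (SimplyConnectedSpace.paths_homotopic (δ₁.trans δ₂) δ₃).map hK.pt
  rw [Path.map_trans] at hh
  rw [q₁, q₂, ← Path.Homotopic.Quotient.trans_assoc, ← Path.Homotopic.Quotient.mk_trans,
    Path.Homotopic.Quotient.eq.2 hh]

theorem Co_sq_convex : Convex ℝ (Icc (0 : ℝ) 1 ×ˢ Icc (0 : ℝ) 1) :=
  (convex_Icc 0 1).prod (convex_Icc 0 1)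

theorem Co_rev {t : ℝ} (ht : t ∈ Icc (0 : ℝ) 1) : 1 - t ∈ Icc (0 : ℝ) 1 :=
  ⟨by linarith [ht.2], by linarith [ht.1]⟩

/-- Triangle in a convex parameter set. -/
theorem Co.tri {Y : Type} [NormedAddCommGroup Y] [NormedSpace ℝ Y] {D : Set Y} (hD : Convex ℝ D)
    {K : Y → X → Bil V} (hK : Fam D C K) {p₁ p₂ p₃ : Y} (h₁ : p₁ ∈ D) (h₂ : p₂ ∈ D) (h₃ : p₃ ∈ D)
    {a₁ a₂ a₃ : Lift x₀} (h12 : Co (fun t => K ((1 - t) • p₁ + t • p₂)) a₁ a₂)
    (h23 : Co (fun t => K ((1 - t) • p₂ + t • p₃)) a₂ a₃) :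
    Co (fun t => K ((1 - t) • p₁ + t • p₃)) a₁ a₃ := by
  have m : ∀ {p p' : Y}, p ∈ D → p' ∈ D → MapsTo (fun t : ℝ => (1 - t) • p + t • p') (Icc 0 1) D :=
    fun hp hp' t ht => hD hp hp' (Co_rev ht).1 ht.1 (by ring)
  exact Co.tri_gen hD hK (p₁ := fun t => (1 - t) • p₁ + t • p₂)
    (p₂ := fun t => (1 - t) • p₂ + t • p₃) (p₃ := fun t => (1 - t) • p₁ + t • p₃)
    (by fun_prop) (by fun_prop) (by fun_prop) (m h₁ h₂) (m h₂ h₃) (m h₁ h₃) (by simp) (by simp)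
    (by simp) h12 h23

/-- Homotopy with fixed ends. -/
theorem Co.homot {K : ℝ × ℝ → X → Bil V} (hK : Fam (Icc (0 : ℝ) 1 ×ˢ Icc (0 : ℝ) 1) C K)
    (h0 : ∀ σ ∈ Icc (0 : ℝ) 1, ∀ q ∈ C, K (0, σ) q = K (0, 0) q)
    (h1 : ∀ σ ∈ Icc (0 : ℝ) 1, ∀ q ∈ C, K (1, σ) q = K (1, 0) q) {a a' : Lift x₀} :
    Co (fun t => K (t, 0)) a a' ↔ Co (fun t => K (t, 1)) a a' := by
  have z0 : (0 : ℝ) ∈ Icc (0 : ℝ) 1 := by simp
  have z1 : (1 : ℝ) ∈ Icc (0 : ℝ) 1 := by simp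
  have main : ∀ σ ∈ Icc (0 : ℝ) 1, ∀ τ ∈ Icc (0 : ℝ) 1,
      Co (fun t => K (t, σ)) a a' → Co (fun t => K (t, τ)) a a' := by
    intro σ hσ τ hτ h
    have m : ∀ t ∈ Icc (0 : ℝ) 1, (1 - t) * τ + t * σ ∈ Icc (0 : ℝ) 1 := fun t ht =>
      convex_Icc (0 : ℝ) 1 hτ hσ (Co_rev ht).1 ht.1 (by ring)
    have m' : ∀ t ∈ Icc (0 : ℝ) 1, (1 - t) * σ + t * τ ∈ Icc (0 : ℝ) 1 := fun t ht =>
      convex_Icc (0 : ℝ) 1 hσ hτ (Co_rev ht).1 ht.1 (by ring)
    have hl : Co (fun t => K (0, (1 - t) * τ + t * σ)) a a := Co.refl fun t ht =>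
      h.over_left.congr fun q hq => (h0 σ hσ q hq).trans (h0 _ (m t ht) q hq).symm
    have hr : Co (fun t => K (1, (1 - t) * σ + t * τ)) a' a' := Co.refl fun t ht =>
      h.over_right.congr fun q hq => (h1 σ hσ q hq).trans (h1 _ (m' t ht) q hq).symm
    have hd : Co (fun t => K (t, (1 - t) * τ + t * σ)) a a' :=
      Co.tri_gen Co_sq_convex hK (p₁ := fun t => (0, (1 - t) * τ + t * σ))
        (p₂ := fun t => (t, σ)) (p₃ := fun t => (t, (1 - t) * τ + t * σ)) (by fun_prop)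
        (by fun_prop) (by fun_prop) (fun t ht => ⟨z0, m t ht⟩) (fun t ht => ⟨ht, hσ⟩)
        (fun t ht => ⟨ht, m t ht⟩) (by simp) (by simp) (by simp) hl h
    exact Co.tri_gen Co_sq_convex hK (p₁ := fun t => (t, (1 - t) * τ + t * σ))
      (p₂ := fun t => (1, (1 - t) * σ + t * τ)) (p₃ := fun t => (t, τ)) (by fun_prop)
      (by fun_prop) (by fun_prop) (fun t ht => ⟨ht, m t ht⟩) (fun t ht => ⟨z1, m' t ht⟩)
      (fun t ht => ⟨ht, hτ⟩) (by simp) (by simp) (by simp) hd hr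
  exact ⟨main 0 z0 1 z1, main 1 z1 0 z0⟩

/-- Square: bottom, right, left give the top. -/
theorem Co.square {K : ℝ × ℝ → X → Bil V} (hK : Fam (Icc (0 : ℝ) 1 ×ˢ Icc (0 : ℝ) 1) C K)
    {a b c d : Lift x₀} (hb : Co (fun t => K (t, 0)) a b) (hr : Co (fun t => K (1, t)) b d)
    (hl : Co (fun t => K (0, t)) a c) : Co (fun t => K (t, 1)) c d := by
  have z0 : (0 : ℝ) ∈ Icc (0 : ℝ) 1 := by simp
  have z1 : (1 : ℝ) ∈ Icc (0 : ℝ) 1 := by simp
  have hd : Co (fun t => K (t, t)) a d :=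
    Co.tri_gen Co_sq_convex hK (p₁ := fun t => (t, 0)) (p₂ := fun t => (1, t))
      (p₃ := fun t => (t, t)) (by fun_prop) (by fun_prop) (by fun_prop) (fun t ht => ⟨ht, z0⟩)
      (fun t ht => ⟨z1, ht⟩) (fun t ht => ⟨ht, ht⟩) rfl rfl rfl hb hr
  exact Co.tri_gen Co_sq_convex hK (p₁ := fun t => (0, 1 - t)) (p₂ := fun t => (t, t))
    (p₃ := fun t => (t, 1)) (by fun_prop) (by fun_prop) (by fun_prop)
    (fun t ht => ⟨z0, Co_rev ht⟩) (fun t ht => ⟨ht, ht⟩) (fun t ht => ⟨ht, z1⟩) (by simp)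
    (by simp) rfl hl.symm hd

/-- Square: bottom and right give the diagonal. -/
theorem Co.diag {K : ℝ × ℝ → X → Bil V} (hK : Fam (Icc (0 : ℝ) 1 ×ˢ Icc (0 : ℝ) 1) C K)
    {a b d : Lift x₀} (hb : Co (fun t => K (t, 0)) a b) (hr : Co (fun t => K (1, t)) b d) :
    Co (fun t => K (t, t)) a d := by
  have z0 : (0 : ℝ) ∈ Icc (0 : ℝ) 1 := by simp
  have z1 : (1 : ℝ) ∈ Icc (0 : ℝ) 1 := by simp
  exact Co.tri_gen Co_sq_convex hK (p₁ := fun t => (t, 0)) (p₂ := fun t => (1, t))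
    (p₃ := fun t => (t, t)) (by fun_prop) (by fun_prop) (by fun_prop) (fun t ht => ⟨ht, z0⟩)
    (fun t ht => ⟨z1, ht⟩) (fun t ht => ⟨ht, ht⟩) rfl rfl rfl hb hr

theorem Co.reparam (hC : IsCompact C) {c : ℝ → X → Bil V} {σ : ℝ → ℝ} (hσ : Continuous σ)
    (h0 : σ 0 = 0) (h1 : σ 1 = 1) (hm : MapsTo σ (Icc 0 1) (Icc 0 1)) {a a' : Lift x₀}
    (h : Co c a a') : Co (fun t => c (σ t)) a a' := by
  have z1 : (1 : ℝ) ∈ Icc (0 : ℝ) 1 := by simp
  exact Co.tri_gen (convex_Icc 0 1) (h.fam hC) (p₁ := fun t => t) (p₂ := fun _ => 1) (p₃ := σ)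
    (by fun_prop) (by fun_prop) hσ.continuousOn (fun _ ht => ht) (fun _ _ => z1) hm h0 rfl h1 h
    (Co.refl fun _ _ => h.over_right)

/-- Every lift is joined to the base by a path. -/
theorem Lift.exists_co (a : Lift x₀) : ∃ c : ℝ → X → Bil V, Co c a (Lift.base x₀) := by
  obtain ⟨x, A⟩ := a
  obtain ⟨γ, rfl⟩ := Path.Homotopic.Quotient.mk_surjective A
  refine ⟨fun t => Co_ext0 (γ.extend t), γ, fun t q => ?_, ?_⟩
  · exact ((Co_ext0_apply _ q.2).trans (by rw [Path.extend_extends']; rfl)).symm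
  · exact (Path.Homotopic.Quotient.trans_refl _).symm

/-- Two paths with the same transport are homotopic with fixed ends. -/
theorem Co.extract (hC : IsCompact C) {c c' : ℝ → X → Bil V} {a a' : Lift x₀} (h : Co c a a')
    (h' : Co c' a a') : ∃ K : ℝ × ℝ → X → Bil V, Fam (Icc (0 : ℝ) 1 ×ˢ Icc (0 : ℝ) 1) C K ∧
      ∀ t ∈ Icc (0 : ℝ) 1, ∀ q ∈ C, K (t, 0) q = c t q ∧ K (t, 1) q = c' t q ∧
        K (0, t) q = c 0 q ∧ K (1, t) q = c 1 q := by
  obtain ⟨γ, hγ, e⟩ := h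
  obtain ⟨γ', hγ', e'⟩ := h'
  have e2 := congrArg (fun B => Path.Homotopic.Quotient.trans B a'.2.symm) (e.symm.trans e')
  simp only [Path.Homotopic.Quotient.trans_assoc, Path.Homotopic.Quotient.trans_symm,
    Path.Homotopic.Quotient.trans_refl] at e2
  obtain ⟨H⟩ := Path.Homotopic.Quotient.exact e2
  have hc : Continuous fun z : ℝ × ℝ =>
      H (projIcc 0 1 zero_le_one z.2, projIcc 0 1 zero_le_one z.1) :=
    H.continuous.comp ((continuous_projIcc.comp continuous_snd).prodMk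
      (continuous_projIcc.comp continuous_fst))
  refine ⟨_, Co_fam_of_cont hC _ hc, fun t ht q hq => ?_⟩
  have p0 : projIcc (0 : ℝ) 1 zero_le_one 0 = (0 : unitInterval) := projIcc_left _
  have p1 : projIcc (0 : ℝ) 1 zero_le_one 1 = (1 : unitInterval) := projIcc_right _
  simp only [Co_ext0_apply _ hq, projIcc_of_mem zero_le_one ht, p0, p1]
  refine ⟨?_, ?_, ?_, ?_⟩
  · rw [H.apply_zero]; exact hγ ⟨t, ht⟩ ⟨q, hq⟩
  · rw [H.apply_one]; exact hγ' ⟨t, ht⟩ ⟨q, hq⟩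
  · rw [H.source]; simpa using hγ 0 ⟨q, hq⟩
  · rw [H.target]; simpa using hγ 1 ⟨q, hq⟩

theorem Co_osum_apply {K : Type} [NormedAddCommGroup K] [NormedSpace ℝ K] (w : Bil V)
    (η : Bil K) (u v : V × K) : osum w η u v = w u.1 v.1 + η u.2 v.2 := rfl

theorem Co_nd_osum {K : Type} [NormedAddCommGroup K] [NormedSpace ℝ K] {η : Bil K}
    (hη : ND ⊤ η) {w : Bil V} (hw : ND ⊤ w) : ND ⊤ (osum w η) := by
  refine ⟨fun u _ => by rw [Co_osum_apply, hw.1 _ trivial, hη.1 _ trivial, add_zero],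
    fun u _ h => Prod.ext (hw.2 _ trivial fun v _ => ?_) (hη.2 _ trivial fun v _ => ?_)⟩
  · simpa [Co_osum_apply] using h (v, 0) trivial
  · simpa [Co_osum_apply] using h (0, v) trivial

theorem Co_cont_osum {K : Type} [NormedAddCommGroup K] [NormedSpace ℝ K] (η : Bil K) :
    Continuous fun w : Bil V => osum w η := by
  have h : Continuous fun w : Bil V => pbB (ContinuousLinearMap.fst ℝ V K) w := by
    have : (fun w : Bil V => pbB (ContinuousLinearMap.fst ℝ V K) w) = fun w =>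
        ((ContinuousLinearMap.compL ℝ (V × K) V ℝ).flip (ContinuousLinearMap.fst ℝ V K)).comp
          (w.comp (ContinuousLinearMap.fst ℝ V K)) := by
      funext w; ext <;> rfl
    rw [this]
    exact continuous_const.clm_comp (continuous_id.clm_comp continuous_const)
  have : ContinuousAdd (Bil (V × K)) :=
    (ContinuousLinearMap.topologicalAddGroup (E := V × K) (F := V × K →L[ℝ] ℝ)).toContinuousAdd
  exact h.add continuous_const

/-- Stabilisation of lifts. -/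
theorem Lift.exists_stab {K : Type} [NormedAddCommGroup K] [NormedSpace ℝ K] {η : Bil K}
    (hη : ND ⊤ η) {w : Bil V} (hw : ND ⊤ w) (hs : ND ⊤ (osum w η)) :
    ∃ st : Lift (cst C w hw) → Lift (cst C (osum w η) hs),
      st (Lift.base _) = Lift.base _ ∧
      (∀ a Ω, a.Over Ω → (st a).Over fun q => osum (Ω q) η) ∧
      ∀ c a a', Co c a a' → Co (fun t q => osum (c t q) η) (st a) (st a') := by
  let o : C(Bil V, Bil (V × K)) := ⟨fun w => osum w η, Co_cont_osum η⟩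
  let f : C(NDsp C V, NDsp C (V × K)) :=
    ⟨fun g => ⟨o.comp g.1, fun q => Co_nd_osum hη (g.2 q)⟩,
      Continuous.subtype_mk ((ContinuousMap.continuous_postcomp o).comp continuous_subtype_val) _⟩
  refine ⟨fun a => ⟨f a.1, a.2.map f⟩, ?_, fun a Ω h q => ?_, ?_⟩
  · rfl
  · exact congrArg (fun w => osum w η) (h q)
  · rintro c ⟨x, A⟩ ⟨y, B⟩ ⟨γ, hγ, e⟩
    refine ⟨γ.map f.continuous, fun t q => congrArg (fun w => osum w η) (hγ t q), ?_⟩
    obtain ⟨β, rfl⟩ := Path.Homotopic.Quotient.mk_surjective B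
    dsimp only at e ⊢
    rw [e]
    exact congrArg Path.Homotopic.Quotient.mk (Path.map_trans γ β f.continuous)

end Pool.Agent.Lib.MP_ccffa6_gt.ELI
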