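import Pool.Agent.Lib.MP_ccffa6_gt.ELI.Calc

/-!
First order cut-off.
-/

set_option maxSynthPendingDepth 3

open Set Filter Topology
open scoped ContDiff RealInnerProductSpace

noncomputable section

namespace Pool.Agent.Lib.MP_ccffa6_gt.ELI

theorem Cut_deriv_neg {x : ℝ} (hx : x < 0) : deriv Real.smoothTransition x = 0 := by
  have : Real.smoothTransition =ᶠ[𝓝 x] fun _ => 0 :=
    (eventually_lt_nhds hx).mono fun y hy => Real.smoothTransition.zero_of_nonpos hy.le
  rw [this.deriv_eq, deriv_const]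

theorem Cut_deriv_bound : ∃ L > 0, ∀ x, |deriv Real.smoothTransition x| ≤ L := by
  have hc : Continuous (deriv Real.smoothTransition) :=
    (Real.smoothTransition.contDiff (n := 1)).continuous_deriv (by simp)
  obtain ⟨L, hL⟩ := (isCompact_Icc (a := (0 : ℝ)) (b := 1)).exists_bound_of_continuousOn
    hc.continuousOn
  refine ⟨|L| + 1, by positivity, fun x => ?_⟩
  by_cases h0 : x < 0
  · rw [Cut_deriv_neg h0, abs_zero]; positivity
  by_cases h1 : 1 < x
  · have : Real.smoothTransition =ᶠ[𝓝 x] fun _ => 1 :=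
      (eventually_gt_nhds h1).mono fun y hy => Real.smoothTransition.one_of_one_le hy.le
    rw [this.deriv_eq, deriv_const, abs_zero]; positivity
  · have := hL x ⟨not_lt.1 h0, not_lt.1 h1⟩
    rw [Real.norm_eq_abs] at this
    linarith [le_abs_self L]

/-- Logarithmic cut-off. -/
theorem Cut_log {T η : ℝ} (hT : 0 < T) (hη : 0 < η) :
    ∃ (κ κ' : ℝ → ℝ) (s : ℝ), 0 < s ∧ (∀ t, 0 ≤ t → ContDiffAt ℝ ∞ κ t ∧ HasDerivAt κ (κ' t) t ∧
      |κ t| ≤ 1 ∧ |κ' t| * t ≤ η ∧ (t ≤ s → κ t = 1) ∧ (T ≤ t → κ t = 0 ∧ κ' t = 0)) := by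
  obtain ⟨L, L0, hL⟩ := Cut_deriv_bound
  set e := η / L with he
  have e0 : 0 < e := by positivity
  set s := T * Real.exp (-(1 / e)) / 2 with hs
  have s0 : 0 < s := by positivity
  refine ⟨fun t => Real.smoothTransition (e * (Real.log T - Real.log (t + s))),
    fun t => deriv Real.smoothTransition (e * (Real.log T - Real.log (t + s))) *
      (e * -(1 / (t + s))), s, s0, fun t ht => ?_⟩
  have ts : 0 < t + s := by positivity
  refine ⟨?_, ?_, ?_, ?_, fun h => ?_, fun h => ?_⟩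
  · exact Real.smoothTransition.contDiffAt.comp t (contDiffAt_const.mul (contDiffAt_const.sub
      ((contDiffAt_id.add contDiffAt_const).log ts.ne')))
  · have h1 : HasDerivAt (fun t => e * (Real.log T - Real.log (t + s))) (e * -(1 / (t + s))) t :=
      ((((hasDerivAt_id t).add_const s).log ts.ne').const_sub _).const_mul e
    exact ((Real.smoothTransition.contDiff (n := 1)).differentiable (by simp) _).hasDerivAt.comp
      t h1
  · rw [abs_of_nonneg (Real.smoothTransition.nonneg _)]; exact Real.smoothTransition.le_one _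
  · rw [abs_mul, abs_mul, abs_neg, abs_of_pos e0, abs_of_pos (by positivity : 0 < 1 / (t + s))]
    have h1 : 1 / (t + s) * t ≤ 1 := by
      rw [div_mul_eq_mul_div, div_le_one ts]; linarith
    have h2 : L * e = η := by rw [he]; field_simp
    calc _ = |deriv Real.smoothTransition _| * e * (1 / (t + s) * t) := by ring
      _ ≤ L * e * 1 := mul_le_mul (mul_le_mul_of_nonneg_right (hL _) e0.le) h1 (by positivity)
          (by positivity)
      _ = η := by rw [mul_one, h2]
  · refine Real.smoothTransition.one_of_one_le ?_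
    have h1 : Real.log (t + s) ≤ Real.log T - 1 / e := by
      have : t + s ≤ T * Real.exp (-(1 / e)) := by linarith
      refine (Real.log_le_log ts this).trans ?_
      rw [Real.log_mul hT.ne' (Real.exp_pos _).ne', Real.log_exp]; rfl
    have h2 : e * (1 / e) = 1 := by field_simp
    nlinarith
  · have h1 : Real.log T < Real.log (t + s) := Real.log_lt_log hT (by linarith)
    have h2 : e * (Real.log T - Real.log (t + s)) < 0 := by nlinarith
    exact ⟨Real.smoothTransition.zero_of_nonpos h2.le, by simp [Cut_deriv_neg h2]⟩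

variable {F : Type} [NormedAddCommGroup F] [InnerProductSpace ℝ F] {P : F →L[ℝ] F}

/-- Smooth invariant square of the distance to the core. -/
def Cut_N (P : F →L[ℝ] F) (y : F × F) : ℝ :=
  ⟪(nu P (nz P y)).1, (nu P (nz P y)).1⟫ + ⟪(nu P (nz P y)).2, (nu P (nz P y)).2⟫

theorem Cut_N_bounds (y : F × F) :
    rad P y * rad P y ≤ Cut_N P y ∧ Cut_N P y ≤ 2 * (rad P y * rad P y) := by
  rw [Cut_N, rad, real_inner_self_eq_norm_mul_norm, real_inner_self_eq_norm_mul_norm,
    Prod.norm_def]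
  set n := nu P (nz P y)
  rcases max_cases ‖n.1‖ ‖n.2‖ with h | h <;> rw [h.1] <;> constructor <;>
    nlinarith [norm_nonneg n.1, norm_nonneg n.2, h.2]

theorem Cut_N_nonneg (y : F × F) : 0 ≤ Cut_N P y :=
  (mul_self_nonneg _).trans (Cut_N_bounds y).1

theorem Cut_N_smooth {y : F × F} (hy : P y.1 ≠ 0) : ContDiffAt ℝ ∞ (Cut_N P) y := by
  have h : ContDiffAt ℝ ∞ (fun y => nu P (nz P y)) y :=
    (nu P).contDiff.contDiffAt.comp y (contDiffAt_nz hy)
  exact (h.fst.inner ℝ h.fst).add (h.snd.inner ℝ h.snd)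

theorem Cut_N_fderiv {y : F × F} (hy : ht P y = 1) (u : F × F) :
    |fderiv ℝ (Cut_N P) y u| ≤ 4 * (‖nu P y‖ * (‖fderiv ℝ (fun y => nu P (nz P y)) y‖ * ‖u‖)) := by
  have h : DifferentiableAt ℝ (fun y => nu P (nz P y)) y :=
    ((nu P).contDiff.contDiffAt.comp y (contDiffAt_nz (ne_of_ht hy))).differentiableAt (by simp)
  set D := fderiv ℝ (fun y => nu P (nz P y)) y
  have h0 := h.hasFDerivAt
  have h1 := (h0.fst.inner ℝ h0.fst).add (h0.snd.inner ℝ h0.snd)
  have e : fderiv ℝ (Cut_N P) y u = 2 * ⟪(nu P y).1, (D u).1⟫ + 2 * ⟪(nu P y).2, (D u).2⟫ := by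
    rw [show fderiv ℝ (Cut_N P) y = _ from h1.fderiv]
    simp only [add_apply, ContinuousLinearMap.comp_apply, ContinuousLinearMap.prod_apply,
      fderivInnerCLM_apply, nz_of_ht hy, ContinuousLinearMap.coe_fst',
      ContinuousLinearMap.coe_snd']
    rw [real_inner_comm (nu P y).1, real_inner_comm (nu P y).2]
    ring
  have b := D.le_opNorm u
  have b1 := (abs_real_inner_le_norm (nu P y).1 (D u).1).trans
    (mul_le_mul (norm_fst_le _) ((norm_fst_le _).trans b) (norm_nonneg _) (norm_nonneg _))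
  have b2 := (abs_real_inner_le_norm (nu P y).2 (D u).2).trans
    (mul_le_mul (norm_snd_le _) ((norm_snd_le _).trans b) (norm_nonneg _) (norm_nonneg _))
  rw [e, abs_le] at *
  constructor <;> linarith [b1.1, b1.2, b2.1, b2.2]

variable [FiniteDimensional ℝ F]

theorem Cut_N_lip : ∃ C > 0, ∀ y ∈ Cyl P 1, ∀ u,
    |fderiv ℝ (Cut_N P) y u| ≤ C * ‖nu P y‖ * ‖u‖ := by
  have hc : ContinuousOn (fderiv ℝ fun y => nu P (nz P y)) (Cyl P 1) := fun y hy =>
    (((nu P).contDiff.contDiffAt.comp y (contDiffAt_nz (ne_of_ht hy.1))).continuousAt_fderiv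
      (by simp)).continuousWithinAt
  obtain ⟨C, hC⟩ := (isCompact_Cyl 1).exists_bound_of_continuousOn hc
  refine ⟨4 * (|C| + 1), by positivity, fun y hy u => (Cut_N_fderiv hy.1 u).trans ?_⟩
  have h1 : ‖fderiv ℝ (fun y => nu P (nz P y)) y‖ ≤ |C| + 1 := by
    linarith [hC y hy, le_abs_self C]
  have := mul_le_mul_of_nonneg_left (mul_le_mul_of_nonneg_right h1 (norm_nonneg u))
    (norm_nonneg (nu P y))
  linarith

/-- A smooth map vanishing on the core is `O(‖nu‖)` on the cylinder. -/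
theorem Cut_lin (hP : IsOP P) {Y : Type} [NormedAddCommGroup Y] [NormedSpace ℝ Y]
    {f : F × F → Y} (hf : ∀ y : F × F, P y.1 ≠ 0 → ContDiffAt ℝ ∞ f y)
    (h0 : ∀ q ∈ core P, f (q, 0) = 0) : ∃ C > 0, ∀ y ∈ Cyl P 1, ‖f y‖ ≤ C * ‖nu P y‖ := by
  have hc : ContinuousOn (fderiv ℝ f) (Cyl P 1) := fun y hy =>
    ((hf y (ne_of_ht hy.1)).continuousAt_fderiv (by simp)).continuousWithinAt
  obtain ⟨C, hC⟩ := (isCompact_Cyl 1).exists_bound_of_continuousOn hc
  refine ⟨|C| + 1, by positivity, fun y hy => ?_⟩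
  obtain ⟨hq, e⟩ := cyl_near hP hy.1
  have hs : segment ℝ ((P y.1, 0) : F × F) y ⊆ Cyl P 1 := by
    rintro z ⟨a, b, ha, hb, hab, rfl⟩
    obtain rfl : a = 1 - b := by linarith
    have e1 : P ((1 - b) • ((P y.1, 0) : F × F) + b • y).1 = P y.1 := by
      simp [hP.idem, sub_smul]
    have e2 : nu P ((1 - b) • ((P y.1, 0) : F × F) + b • y) = b • nu P y := by
      rw [map_add, map_smul, map_smul, nu_apply (P y.1, 0)]
      simp [hP.idem]
    refine ⟨by rw [ht, e1]; exact hy.1, ?_⟩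
    rw [e2, norm_smul, Real.norm_of_nonneg hb]
    nlinarith [hy.2, norm_nonneg (nu P y)]
  have := (convex_segment _ _).norm_image_sub_le_of_norm_fderiv_le (𝕜 := ℝ) (f := f) (C := |C| + 1)
    (fun z hz => (hf z (ne_of_ht (hs hz).1)).differentiableAt (by simp))
    (fun z hz => by linarith [hC z (hs hz), le_abs_self C]) (left_mem_segment ℝ _ _)
    (right_mem_segment ℝ _ _)
  rwa [h0 _ hq, sub_zero, show y - (P y.1, 0) = nu P y from (sub_eq_of_eq_add' e)] at this

/-- Two admissible forms with the same jet on the core. -/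
theorem cut (hP : IsOP P) {lam lam' : Form1 (F × F)} (h : Adm P lam) (h' : Adm P lam')
    (e : ∀ q ∈ core P, jet lam q = jet lam' q) {r ε : ℝ} (hr : 0 < r) (hε : 0 < ε) :
    ∃ mu : Form1 (F × F), Adm P mu ∧ EqOut P r lam mu ∧ EqNear P mu lam' ∧
      ∀ y : F × F, ht P y = 1 → ‖dF mu y - dF lam y‖ ≤ ε := by
  set η : Form1 (F × F) := fun y => lam' y - lam y with hη
  have a : Adm P η := h'.sub h
  have d0 : ∀ q ∈ core P, dF η (q, 0) = 0 := fun q hq => by
    rw [hη, dF_sub (h'.diff (core_ne hq)) (h.diff (core_ne hq))]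
    exact sub_eq_zero.2 (e q hq).symm
  have v0 : ∀ q ∈ core P, η (q, 0) = 0 := fun q hq => by
    rw [a.eq_dF hP (y := (q, 0)) (core_ne hq), d0 q hq]; rfl
  obtain ⟨C, C0, hC⟩ := Cut_lin hP a.sm v0
  obtain ⟨C', C0', hC'⟩ := Cut_N_lip (P := P)
  obtain ⟨r₁, r0, h₁⟩ := exists_cyl hP (p := fun y => ‖dF η y‖ < ε / 2) fun q hq => by
    have := (contDiffAt_dF (a.sm (q, 0) (core_ne hq))).continuousAt.norm
    exact this.eventually_lt continuousAt_const (by rw [d0 q hq, norm_zero]; positivity)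
  set R := min (min r₁ 1) (r / 2) with hR
  have R0 : 0 < R := by positivity
  obtain ⟨κ, κ', s, s0, hκ⟩ := Cut_log (T := R * R) (η := ε / (4 * (C * C'))) (by positivity)
    (by positivity)
  have sχ : ∀ y : F × F, P y.1 ≠ 0 → ContDiffAt ℝ ∞ (fun y => κ (Cut_N P y)) y := fun y hy =>
    (hκ _ (Cut_N_nonneg y)).1.comp y (Cut_N_smooth hy)
  have aχ : Adm P fun y => κ (Cut_N P y) • η y :=
    a.smul sχ fun ρ hρ y _ => by rw [Cut_N, nz_Sc hP hρ, Cut_N]
  refine ⟨fun y => lam y + κ (Cut_N P y) • η y, h.add aχ,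
    ⟨R, by linarith [min_le_right (min r₁ 1) (r / 2)], fun y _ hy => ?_⟩,
    ⟨min 1 (s / 2), by positivity, fun y hy => ?_⟩, fun y hy => ?_⟩
  · have : R * R ≤ Cut_N P y := (mul_self_le_mul_self R0.le hy).trans (Cut_N_bounds y).1
    simp [((hκ _ (Cut_N_nonneg y)).2.2.2.2.2 this).1]
  · have h1 := hy.2.trans_le (min_le_left _ _)
    have h2 := hy.2.trans_le (min_le_right _ _)
    have : Cut_N P y ≤ s := by nlinarith [(Cut_N_bounds (P := P) y).2, rad_nonneg (P := P) y]
    simp [(hκ _ (Cut_N_nonneg y)).2.2.2.2.1 this, hη]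
  · have hy' := ne_of_ht hy
    obtain ⟨-, k1, k2, k3, -, k4⟩ := hκ _ (Cut_N_nonneg (P := P) y)
    have dχ : ∀ u, fderiv ℝ (fun y => κ (Cut_N P y)) y u =
        κ' (Cut_N P y) * fderiv ℝ (Cut_N P) y u := fun u => by
      rw [show fderiv ℝ (fun y => κ (Cut_N P y)) y = _ from (k1.comp_hasFDerivAt y
        ((Cut_N_smooth hy').differentiableAt (by simp)).hasFDerivAt).fderiv]
      rfl
    rw [dF_add (h.diff hy') (aχ.diff hy'), add_sub_cancel_left]
    refine ContinuousLinearMap.opNorm_le_bound₂ _ hε.le fun u v => ?_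
    rw [dF_smul (a.diff hy') ((sχ y hy').differentiableAt (by simp)), dχ, dχ]
    by_cases hN : R * R ≤ Cut_N P y
    · simp only [(k4 hN).1, (k4 hN).2, zero_mul, sub_zero, add_zero, norm_zero]
      positivity
    have hn : ‖nu P y‖ ≤ R := by
      have := (Cut_N_bounds (P := P) y).1
      rw [rad_of_ht hy] at this
      exact (abs_le_of_sq_le_sq' (by nlinarith) R0.le).2
    have m1 : y ∈ Cyl P 1 := ⟨hy, hn.trans ((min_le_left _ _).trans (min_le_right _ _))⟩
    have m2 : y ∈ Cyl P r₁ := ⟨hy, hn.trans ((min_le_left _ _).trans (min_le_left _ _))⟩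
    have b0 : |κ (Cut_N P y) * dF η y u v| ≤ ε / 2 * ‖u‖ * ‖v‖ := by
      rw [abs_mul]
      have := ((dF η y).le_opNorm₂ u v).trans (mul_le_mul_of_nonneg_right
        (mul_le_mul_of_nonneg_right (h₁ y m2).le (norm_nonneg u)) (norm_nonneg v))
      rw [Real.norm_eq_abs] at this
      nlinarith [abs_nonneg (dF η y u v)]
    have b1 : ∀ u v : F × F, |κ' (Cut_N P y) * fderiv ℝ (Cut_N P) y u * η y v| ≤
        ε / 4 * (‖u‖ * ‖v‖) := fun u v => by
      have t1 : |η y v| ≤ C * ‖nu P y‖ * ‖v‖ :=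
        ((η y).le_opNorm v).trans (mul_le_mul_of_nonneg_right (hC y m1) (norm_nonneg v))
      have t2 := mul_le_mul (hC' y m1 u) t1 (abs_nonneg _) (by positivity)
      have t3 := (Cut_N_bounds (P := P) y).1
      rw [rad_of_ht hy] at t3
      have t4 : |κ' (Cut_N P y)| * (‖nu P y‖ * ‖nu P y‖) ≤ ε / (4 * (C * C')) :=
        (mul_le_mul_of_nonneg_left t3 (abs_nonneg _)).trans k3
      have t5 : ε / (4 * (C * C')) * (C * C') = ε / 4 := by field_simp
      rw [mul_assoc, abs_mul, abs_mul]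
      calc _ ≤ |κ' (Cut_N P y)| * (C' * ‖nu P y‖ * ‖u‖ * (C * ‖nu P y‖ * ‖v‖)) :=
            mul_le_mul_of_nonneg_left t2 (abs_nonneg _)
        _ = |κ' (Cut_N P y)| * (‖nu P y‖ * ‖nu P y‖) * (C * C') * (‖u‖ * ‖v‖) := by ring
        _ ≤ ε / (4 * (C * C')) * (C * C') * (‖u‖ * ‖v‖) := by gcongr
        _ = _ := by rw [t5]
    have b2 := b1 u v
    have b3 := b1 v u
    rw [Real.norm_eq_abs, abs_le] at *
    constructor <;> nlinarith [b0.1, b0.2, b2.1, b2.2, b3.1, b3.2]

end Pool.Agent.Lib.MP_ccffa6_gt.ELI
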