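import Pool.Agent.Lib.MP_ccffa6_gt.Defs

/-!
Block ELI, common definitions. The model space is `F × F`, `y = (a, b)`, `P` an orthogonal
projector of `F`. Contact forms near the attaching sphere are one-forms on `{P a ≠ 0}` which are
homogeneous of degree one for the scaling `Sc P ρ`.
-/

open Set Filter Topology
open scoped ContDiff RealInnerProductSpace

noncomputable section

namespace Pool.Agent.Lib.MP_ccffa6_gt.ELI

/-- Pull-back of a bilinear form by a linear map. -/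
def pbB {V V' : Type} [NormedAddCommGroup V] [NormedSpace ℝ V] [NormedAddCommGroup V']
    [NormedSpace ℝ V'] (M : V →L[ℝ] V') (w : Bil V') : Bil V := w.bilinearComp M M

section track

variable {X : Type} [TopologicalSpace X] {V : Type} [NormedAddCommGroup V] [NormedSpace ℝ V]

/-- Continuous fields of nondegenerate two-forms on `C`. -/
def NDsp (C : Set X) (V : Type) [NormedAddCommGroup V] [NormedSpace ℝ V] : Type :=
  {g : C(C, Bil V) // ∀ q, ND ⊤ (g q)}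

instance (C : Set X) : TopologicalSpace (NDsp C V) := instTopologicalSpaceSubtype

/-- The constant field. -/
def cst (C : Set X) (w : Bil V) (h : ND ⊤ w) : NDsp C V := ⟨ContinuousMap.const C w, fun _ => h⟩

/-- A field together with a homotopy class of paths to the base field. -/
def Lift {C : Set X} (x₀ : NDsp C V) : Type := Σ x : NDsp C V, Path.Homotopic.Quotient x x₀

/-- The base point of `Lift`. -/
def Lift.base {C : Set X} (x₀ : NDsp C V) : Lift x₀ :=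
  ⟨x₀, Path.Homotopic.Quotient.mk (Path.refl x₀)⟩

/-- The lift `a` lies over the field `Ω`. -/
def Lift.Over {C : Set X} {x₀ : NDsp C V} (a : Lift x₀) (Ω : X → Bil V) : Prop :=
  ∀ q : C, a.1.1 q = Ω q

/-- `a` is the transport of `a'` along the path of fields `c t`, `0 ≤ t ≤ 1` (from `a` to `a'`). -/
def Co {C : Set X} {x₀ : NDsp C V} (c : ℝ → X → Bil V) (a a' : Lift x₀) : Prop :=
  ∃ γ : Path a.1 a'.1, (∀ (t : unitInterval) (q : C), (γ t).1 q = c t q) ∧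
    a.2 = Path.Homotopic.Quotient.trans (Path.Homotopic.Quotient.mk γ) a'.2

/-- The straight segment between two fields. -/
def seg (Ω Ω' : X → Bil V) : ℝ → X → Bil V := fun t q => (1 - t) • Ω q + t • Ω' q

end track

variable {F : Type} [NormedAddCommGroup F] [InnerProductSpace ℝ F]

/-- Orthogonal projector. -/
structure IsOP (P : F →L[ℝ] F) : Prop where
  idem : ∀ x, P (P x) = P x
  symm : ∀ x y, ⟪P x, y⟫ = ⟪x, P y⟫

/-- Scaling of positions. -/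
def sa (P : F →L[ℝ] F) (ρ : ℝ) : F →L[ℝ] F := ρ • P + (1 - P)

/-- Scaling of momenta. -/
def sb (P : F →L[ℝ] F) (ρ : ℝ) : F →L[ℝ] F := P + ρ • (1 - P)

/-- The scaling. -/
def Sc (P : F →L[ℝ] F) (ρ : ℝ) : F × F →L[ℝ] F × F := (sa P ρ).prodMap (sb P ρ)

/-- Its generator. -/
def Zv (P : F →L[ℝ] F) : F × F →L[ℝ] F × F := P.prodMap (1 - P)

/-- Height. -/
def ht (P : F →L[ℝ] F) (y : F × F) : ℝ := ‖P y.1‖

/-- Normalisation to height one. -/
def nz (P : F →L[ℝ] F) (y : F × F) : F × F := Sc P (ht P y)⁻¹ y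

/-- Normal coordinates. -/
def nu (P : F →L[ℝ] F) : F × F →L[ℝ] F × F := (1 - P).prodMap (ContinuousLinearMap.id ℝ F)

/-- Invariant distance to the core. -/
def rad (P : F →L[ℝ] F) (y : F × F) : ℝ := ‖nu P (nz P y)‖

/-- The attaching sphere. -/
def core (P : F →L[ℝ] F) : Set F := {q | P q = q ∧ ‖q‖ = 1}

/-- Compact piece of the cylinder of height one. -/
def Cyl (P : F →L[ℝ] F) (R : ℝ) : Set (F × F) := {y | ht P y = 1 ∧ ‖nu P y‖ ≤ R}

/-- Open invariant tube. -/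
def Tube (P : F →L[ℝ] F) (R : ℝ) : Set (F × F) := {y | P y.1 ≠ 0 ∧ rad P y < R}

/-- The standard symplectic form `⟪a, b'⟫ - ⟪a', b⟫`. -/
def om0 (F : Type) [NormedAddCommGroup F] [InnerProductSpace ℝ F] : Bil (F × F) :=
  (innerSL ℝ : F →L[ℝ] F →L[ℝ] ℝ).bilinearComp (ContinuousLinearMap.fst ℝ F F)
      (ContinuousLinearMap.snd ℝ F F) -
    (innerSL ℝ : F →L[ℝ] F →L[ℝ] ℝ).bilinearComp (ContinuousLinearMap.snd ℝ F F)
      (ContinuousLinearMap.fst ℝ F F)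

theorem om0_apply (u v : F × F) : om0 F u v = ⟪u.1, v.2⟫ - ⟪u.2, v.1⟫ := by
  simp [om0]

theorem nd_om0 : ND ⊤ (om0 F) := by
  refine ⟨fun u _ => by rw [om0_apply, real_inner_comm, sub_self], fun u _ h => ?_⟩
  have h1 := h (0, u.1) trivial
  have h2 := h (u.2, 0) trivial
  simp only [om0_apply, inner_zero_right, sub_zero, zero_sub, neg_eq_zero,
    inner_self_eq_zero] at h1 h2
  exact Prod.ext h1 h2

/-- The model form `⟪P a, db⟫ - ⟪(1 - P) b, da⟫`. -/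
def lam0 (P : F →L[ℝ] F) : Form1 (F × F) := fun y =>
  (innerSL ℝ (P y.1)).comp (ContinuousLinearMap.snd ℝ F F) -
    (innerSL ℝ (y.2 - P y.2)).comp (ContinuousLinearMap.fst ℝ F F)

/-- Homogeneous one-forms: cones over one-forms of the cylinder. -/
structure Adm (P : F →L[ℝ] F) (lam : Form1 (F × F)) : Prop where
  sm : ∀ y : F × F, P y.1 ≠ 0 → ContDiffAt ℝ ∞ lam y
  hom : ∀ ρ : ℝ, 0 < ρ → ∀ y : F × F, P y.1 ≠ 0 → ∀ u, lam (Sc P ρ y) (Sc P ρ u) = ρ * lam y u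
  euler : ∀ y : F × F, P y.1 ≠ 0 → lam y (Zv P y) = 0

/-- Contact on the closed tube of radius `R`. -/
def Ct (P : F →L[ℝ] F) (R : ℝ) (lam : Form1 (F × F)) : Prop := ∀ y ∈ Cyl P R, ND ⊤ (dF lam y)

/-- The two-form along the core. -/
def jet (lam : Form1 (F × F)) : F → Bil (F × F) := fun q => dF lam (q, 0)

/-- Base field of the tracking. -/
def x0 (P : F →L[ℝ] F) : NDsp (core P) (F × F) := cst (core P) (om0 F) nd_om0

/-- Lifts along the core. -/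
abbrev Lf (P : F →L[ℝ] F) : Type := Lift (x0 P)

/-- Base lift. -/
def bas (P : F →L[ℝ] F) : Lf P := Lift.base (x0 P)

/-- `lam'` equals `lam` outside a smaller tube. -/
def EqOut (P : F →L[ℝ] F) (R : ℝ) (lam lam' : Form1 (F × F)) : Prop :=
  ∃ r < R, ∀ y : F × F, P y.1 ≠ 0 → r ≤ rad P y → lam' y = lam y

/-- `lam` equals `lam'` near the core. -/
def EqNear (P : F →L[ℝ] F) (lam lam' : Form1 (F × F)) : Prop :=
  ∃ r > 0, ∀ y ∈ Tube P r, lam y = lam' y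

/-- A linear segment of contact forms, constant outside a smaller tube. -/
structure Seg (P : F →L[ℝ] F) (R : ℝ) (lam lam' : Form1 (F × F)) : Prop where
  adm : Adm P lam
  adm' : Adm P lam'
  out : EqOut P R lam lam'
  ct : ∀ t ∈ Icc (0 : ℝ) 1, Ct P R fun y => (1 - t) • lam y + t • lam' y

/-- Chains of segments from `lam` to a form equal to `tgt` near the core, with the tracking. -/
inductive Reach (P : F →L[ℝ] F) (R : ℝ) (tgt : Form1 (F × F)) : Form1 (F × F) → Lf P → Prop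
  | base {lam : Form1 (F × F)} : Adm P lam → Ct P R lam → EqNear P lam tgt →
      Reach P R tgt lam (bas P)
  | step {lam lam' : Form1 (F × F)} {a a' : Lf P} : Seg P R lam lam' →
      Co (seg (jet lam) (jet lam')) a a' → Reach P R tgt lam' a' → Reach P R tgt lam a

/-- The tube theorem, exported to the handle part. -/
def TubeStmt (F : Type) [NormedAddCommGroup F] [InnerProductSpace ℝ F] : Prop :=
  ∀ (P : F →L[ℝ] F), IsOP P → ∀ R : ℝ, 0 < R → ∀ lam tgt : Form1 (F × F), Adm P lam →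
    Ct P R lam → Adm P tgt → (∀ q ∈ core P, jet tgt q = om0 F) →
    ∀ a : Lf P, a.Over (jet lam) → Reach P R tgt lam a

/-- A path of equivariant local diffeomorphisms of the tube, the identity near its boundary. -/
structure HPath (P : F →L[ℝ] F) (R : ℝ) (H : ℝ → F × F → F × F) : Prop where
  sm : ∀ t ∈ Icc (0 : ℝ) 1, ∀ y : F × F, P y.1 ≠ 0 → ContDiffAt ℝ ∞ (H t) y
  c0 : ContinuousOn (fun z : ℝ × (F × F) => H z.1 z.2) (Icc 0 1 ×ˢ {y | P y.1 ≠ 0})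
  c1 : ContinuousOn (fun z : ℝ × (F × F) => fderiv ℝ (H z.1) z.2) (Icc 0 1 ×ˢ {y | P y.1 ≠ 0})
  eqv : ∀ t ∈ Icc (0 : ℝ) 1, ∀ ρ : ℝ, 0 < ρ → ∀ y : F × F, P y.1 ≠ 0 →
    H t (Sc P ρ y) = Sc P ρ (H t y)
  out : ∃ r < R, ∀ t ∈ Icc (0 : ℝ) 1, ∀ y : F × F, P y.1 ≠ 0 → r ≤ rad P y → H t y = y
  map : ∀ t ∈ Icc (0 : ℝ) 1, MapsTo (H t) (Tube P R) (Tube P R)
  inj : ∀ t ∈ Icc (0 : ℝ) 1, ∀ y : F × F, P y.1 ≠ 0 → Function.Injective (fderiv ℝ (H t) y)
  zero : ∀ y : F × F, P y.1 ≠ 0 → H 0 y = y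

/-- The frame `(u, b) ↦ D f u + G b`. -/
def frm (f : F → F × F) (G : F →L[ℝ] F × F) (q : F) : F × F →L[ℝ] F × F :=
  (fderiv ℝ f q).coprod G

/-- An isotopy of the core with frames: `f s` is an equivariant map of the position space. -/
structure Jets (P : F →L[ℝ] F) (f : ℝ → F → F × F) (G : ℝ → F → F →L[ℝ] F × F) : Prop where
  smf : ∀ s ∈ Icc (0 : ℝ) 1, ∀ a : F, P a ≠ 0 →
    ContDiffAt ℝ ∞ (fun z : ℝ × F => f z.1 z.2) (s, a)
  smG : ∀ s ∈ Icc (0 : ℝ) 1, ∀ q ∈ core P, ContDiffAt ℝ ∞ (fun z : ℝ × F => G z.1 z.2) (s, q)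
  eqv : ∀ s ∈ Icc (0 : ℝ) 1, ∀ ρ : ℝ, 0 < ρ → ∀ a : F, P a ≠ 0 →
    f s (sa P ρ a) = Sc P ρ (f s a)
  ne : ∀ s ∈ Icc (0 : ℝ) 1, ∀ a : F, P a ≠ 0 → P (f s a).1 ≠ 0
  inj : ∀ s ∈ Icc (0 : ℝ) 1, ∀ q ∈ core P, Function.Injective (frm (f s) (G s q) q)
  emb : ∀ s ∈ Icc (0 : ℝ) 1, ∀ q ∈ core P, ∀ q' ∈ core P,
    nz P (f s q) = nz P (f s q') → q = q'

/-- Isotopy extension for jets. -/
def IEStmt (F : Type) [NormedAddCommGroup F] [InnerProductSpace ℝ F] : Prop :=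
  ∀ (P : F →L[ℝ] F), IsOP P → ∀ (R : ℝ) (f : ℝ → F → F × F) (G : ℝ → F → F →L[ℝ] F × F),
    Jets P f G → (∀ s ∈ Icc (0 : ℝ) 1, ∀ q ∈ core P, f s q ∈ Tube P R) →
    (∀ a : F, P a ≠ 0 → f 0 a = (a, 0)) →
    (∀ q ∈ core P, G 0 q = ContinuousLinearMap.inr ℝ F F) →
    ∃ (H : ℝ → F × F → F × F) (σ : ℝ → ℝ), HPath P R H ∧ Continuous σ ∧ σ 0 = 0 ∧ σ 1 = 1 ∧
      MapsTo σ (Icc 0 1) (Icc 0 1) ∧ ∀ t ∈ Icc (0 : ℝ) 1, ∀ q ∈ core P,
        H t (q, 0) = f (σ t) q ∧ fderiv ℝ (H t) (q, 0) = frm (f (σ t)) (G (σ t) q) q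

/-- An equivariant section of `F × F → F`. -/
structure Sect (P : F →L[ℝ] F) (ς : F → F) : Prop where
  sm : ∀ a : F, P a ≠ 0 → ContDiffAt ℝ ∞ ς a
  eqv : ∀ ρ : ℝ, 0 < ρ → ∀ a : F, P a ≠ 0 → ς (sa P ρ a) = sb P ρ (ς a)

/-- Every section is approximated by a Lagrangian cone, formally isotopic to it. -/
def LegStmt (P : F →L[ℝ] F) : Prop :=
  ∀ ς : F → F, Sect P ς → ∀ r : ℝ, 0 < r →
    ∃ (f : ℝ → F → F × F) (G : ℝ → F → F →L[ℝ] F × F), Jets P f G ∧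
      (∀ a : F, P a ≠ 0 → f 0 a = (a, ς a)) ∧
      (∀ q ∈ core P, G 0 q = ContinuousLinearMap.inr ℝ F F) ∧
      (∀ s ∈ Icc (0 : ℝ) 1, ∀ q ∈ core P,
        ((f s q).1, (f s q).2 - ς (f s q).1) ∈ Tube P r) ∧
      (∀ q ∈ core P, pbB (frm (f 1) (G 1 q) q) (om0 F) = om0 F) ∧
      ∀ a : Lf P, Co (seg (fun q => pbB (frm (f 0) (G 0 q) q) (om0 F)) fun _ => om0 F) a (bas P) →
        Co (fun s q => pbB (frm (f s) (G s q) q) (om0 F)) a (bas P)

/-- Norm of a two-form at `y`, measured at height one. -/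
def nrm (P : F →L[ℝ] F) (y : F × F) (D : Bil (F × F)) : ℝ :=
  ‖(ht P y)⁻¹ • pbB (Sc P (ht P y)) D‖

end Pool.Agent.Lib.MP_ccffa6_gt.ELI
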