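import Pool.Agent.Lib.MP_ccffa6_gt.ELI.Gd

/-!
A jet with a path of Lagrangian complements is good.
-/

open Set Filter Topology
open scoped ContDiff RealInnerProductSpace

noncomputable section

namespace Pool.Agent.Lib.MP_ccffa6_gt.ELI

variable {F : Type} [NormedAddCommGroup F] [InnerProductSpace ℝ F] [FiniteDimensional ℝ F]
  {P : F →L[ℝ] F} {R : ℝ} {tgt : Form1 (F × F)} {a : Lf P}

/-- the complement with its position part scaled by `κ` -/
def DescA_G (κ : ℝ) (G : F →L[ℝ] F × F) : F →L[ℝ] F × F :=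
  κ • ((ContinuousLinearMap.inl ℝ F F).comp (ContinuousLinearMap.fst ℝ F F)).comp G +
    ((ContinuousLinearMap.inr ℝ F F).comp (ContinuousLinearMap.snd ℝ F F)).comp G

/-- the frame -/
def DescA_M (κ : ℝ) (G : F →L[ℝ] F × F) : F × F →L[ℝ] F × F :=
  (ContinuousLinearMap.inl ℝ F F).coprod (DescA_G κ G)

omit [FiniteDimensional ℝ F] in
theorem DescA_G_apply (κ : ℝ) (G : F →L[ℝ] F × F) (b : F) :
    DescA_G κ G b = (κ • (G b).1, (G b).2) := by simp [DescA_G]

omit [FiniteDimensional ℝ F] in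
theorem DescA_M_apply (κ : ℝ) (G : F →L[ℝ] F × F) (y : F × F) :
    DescA_M κ G y = (y.1 + κ • (G y.2).1, (G y.2).2) := by simp [DescA_M, DescA_G_apply]

omit [FiniteDimensional ℝ F] in
theorem DescA_G_sm : ContDiff ℝ ∞ fun z : ℝ × (F →L[ℝ] F × F) => DescA_G z.1 z.2 :=
  (contDiff_fst.smul (contDiff_const.clm_comp contDiff_snd)).add
    (contDiff_const.clm_comp contDiff_snd)

omit [FiniteDimensional ℝ F] in
theorem DescA_M_cont : Continuous fun z : ℝ × (F →L[ℝ] F × F) => DescA_M z.1 z.2 := by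
  have e : (fun z : ℝ × (F →L[ℝ] F × F) => DescA_M z.1 z.2) = fun z =>
      (ContinuousLinearMap.inl ℝ F F).comp (ContinuousLinearMap.fst ℝ F F) +
        (DescA_G z.1 z.2).comp (ContinuousLinearMap.snd ℝ F F) := by
    funext z
    exact ContinuousLinearMap.ext fun y => rfl
  rw [e]
  exact continuous_const.add ((DescA_G_sm (F := F)).continuous.clm_comp continuous_const)

omit [FiniteDimensional ℝ F] in
theorem DescA_blk {w : Bil (F × F)} {G : F →L[ℝ] F × F} (ha : ∀ u, w u u = 0)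
    (hi : ∀ b b', w (G b) (G b') = 0) (hp : ∀ u b, w (u, 0) (G b) = ⟪u, b⟫) :
    Blk (pbB (DescA_M 1 G) w) :=
  ⟨fun u => ha _, fun u b => by simpa [DescA_M_apply] using hp u b,
    fun b b' => by simpa [DescA_M_apply] using hi b b'⟩

omit [FiniteDimensional ℝ F] in
theorem DescA_inj {G : F →L[ℝ] F × F} (h : Function.Injective (DescA_M 1 G)) (κ : ℝ) :
    Function.Injective (DescA_M κ G) := by
  refine (injective_iff_map_eq_zero _).2 fun y hy => ?_
  rw [DescA_M_apply] at hy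
  obtain ⟨h1, h2⟩ := Prod.ext_iff.1 hy
  have h3 : y.2 = 0 := congrArg Prod.snd ((injective_iff_map_eq_zero _).1 h (-(G y.2).1, y.2) (by
    rw [DescA_M_apply]
    exact Prod.ext (by simp) h2))
  exact Prod.ext (by simpa [h3] using h1) h3

omit [FiniteDimensional ℝ F] in
theorem DescA_snd {G : F →L[ℝ] F × F} (hp : ∀ u b, om0 F (u, 0) (G b) = ⟪u, b⟫) (b : F) :
    (G b).2 = b :=
  ext_inner_left ℝ fun u => by simpa [om0_apply] using hp u b

omit [FiniteDimensional ℝ F] in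
theorem DescA_om0 {G : F →L[ℝ] F × F} (hi : ∀ b b', om0 F (G b) (G b') = 0)
    (hp : ∀ u b, om0 F (u, 0) (G b) = ⟪u, b⟫) (κ : ℝ) : pbB (DescA_M κ G) (om0 F) = om0 F := by
  refine ContinuousLinearMap.ext fun y => ContinuousLinearMap.ext fun y' => ?_
  have e := hi y.2 y'.2
  rw [om0_apply, DescA_snd hp, DescA_snd hp] at e
  simp only [pbB_apply, DescA_M_apply, om0_apply, DescA_snd hp, inner_add_left, inner_add_right,
    real_inner_smul_left, real_inner_smul_right]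
  linear_combination κ * e

theorem DescA_fam {G : ℝ → F → F →L[ℝ] F × F} {w : ℝ → F → Bil (F × F)}
    (cG : ContinuousOn (fun z : ℝ × F => G z.1 z.2) (Icc 0 1 ×ˢ core P))
    (fw : Fam (Icc (0 : ℝ) 1) (core P) w)
    (inj : ∀ κ, ∀ u ∈ Icc (0 : ℝ) 1, ∀ q ∈ core P, Function.Injective (DescA_M κ (G u q)))
    {Y : Type} [TopologicalSpace Y] {D : Set Y} {κ u σ : Y → ℝ} (hκ : Continuous κ)
    (hu : Continuous u) (hσ : Continuous σ) (mu : MapsTo u D (Icc 0 1))
    (mσ : MapsTo σ D (Icc 0 1)) :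
    Fam D (core P) fun p q => pbB (DescA_M (κ p) (G (u p) q)) (w (σ p) q) := by
  refine ⟨?_, fun p hp q hq => nd_pbB (inj _ _ (mu hp) q hq) (fw.nd _ (mσ hp) q hq)⟩
  have c1 : ContinuousOn (fun z : Y × F => G (u z.1) z.2) (D ×ˢ core P) :=
    cG.comp (f := fun z : Y × F => (u z.1, z.2)) (by fun_prop) fun z hz => ⟨mu hz.1, hz.2⟩
  have c2 : ContinuousOn (fun z : Y × F => w (σ z.1) z.2) (D ×ˢ core P) :=
    fw.cont.comp (f := fun z : Y × F => (σ z.1, z.2)) (by fun_prop) fun z hz => ⟨mσ hz.1, hz.2⟩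
  have c3 : ContinuousOn (fun z : Y × F => DescA_M (κ z.1) (G (u z.1) z.2)) (D ×ˢ core P) :=
    (DescA_M_cont (F := F)).comp_continuousOn
      (f := fun z : Y × F => (κ z.1, G (u z.1) z.2)) ((hκ.comp continuous_fst).continuousOn.prodMk c1)
  exact continuous_pbB.comp_continuousOn
    (f := fun z : Y × F => (DescA_M (κ z.1) (G (u z.1) z.2), w (σ z.1) z.2)) (c3.prodMk c2)

theorem DescA_co {G : ℝ → F → F →L[ℝ] F × F} {w : ℝ → F → Bil (F × F)}
    (cG : ContinuousOn (fun z : ℝ × F => G z.1 z.2) (Icc 0 1 ×ˢ core P)) (hs : Co w (bas P) a)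
    (inj : ∀ κ, ∀ u ∈ Icc (0 : ℝ) 1, ∀ q ∈ core P, Function.Injective (DescA_M κ (G u q)))
    (m0 : ∀ q ∈ core P, ∀ v, pbB (DescA_M 0 (G 0 q)) v = v)
    (o0 : ∀ q ∈ core P, ∀ κ, pbB (DescA_M κ (G 0 q)) (w 0 q) = om0 F) :
    ∃ a₁, Co (fun s q => pbB (DescA_M s (G s q)) (w 1 q)) a a₁ ∧
      Co (fun t q => pbB (DescA_M 1 (G t q)) (w t q)) (bas P) a₁ := by
  have z1 : (1 : ℝ) ∈ Icc (0 : ℝ) 1 := right_mem_Icc.2 zero_le_one
  have fw := hs.fam isCompact_core
  have f1 : Fam (Icc (0 : ℝ) 1) (core P) fun s q => pbB (DescA_M s (G s q)) (w 1 q) :=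
    DescA_fam cG fw inj (κ := fun s => s) (u := fun s => s) (σ := fun _ => 1) continuous_id
      continuous_id continuous_const (mapsTo_id _) fun _ _ => z1
  have f2 : Fam (Icc (0 : ℝ) 1 ×ˢ Icc (0 : ℝ) 1) (core P)
      fun p q => pbB (DescA_M p.2 (G p.2 q)) (w p.1 q) :=
    DescA_fam cG fw inj (κ := Prod.snd) (u := Prod.snd) (σ := Prod.fst) continuous_snd
      continuous_snd continuous_fst (fun _ hp => hp.2) fun _ hp => hp.1
  have f3 : Fam (Icc (0 : ℝ) 1 ×ˢ Icc (0 : ℝ) 1) (core P)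
      fun p q => pbB (DescA_M ((1 - p.2) * p.1 + p.2) (G p.1 q)) (w p.1 q) :=
    DescA_fam cG fw inj (κ := fun p : ℝ × ℝ => (1 - p.2) * p.1 + p.2) (u := Prod.fst)
      (σ := Prod.fst) (by fun_prop) continuous_fst continuous_fst (fun _ hp => hp.1)
      fun _ hp => hp.1
  obtain ⟨a₁, h1⟩ := Co.exists_right f1 (hs.over_right.congr fun q hq => (m0 q hq _).symm)
  have hb : Co (fun t q => pbB (DescA_M 0 (G 0 q)) (w t q)) (bas P) a :=
    hs.congr fun t _ q hq => (m0 q hq _).symm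
  have h2 : Co (fun t q => pbB (DescA_M t (G t q)) (w t q)) (bas P) a₁ := Co.diag f2 hb h1
  have h2' : Co (fun t q => pbB (DescA_M ((1 - 0) * t + 0) (G t q)) (w t q)) (bas P) a₁ :=
    h2.congr fun t _ q _ => by rw [sub_zero, one_mul, add_zero]
  have h3 : Co (fun t q => pbB (DescA_M ((1 - 1) * t + 1) (G t q)) (w t q)) (bas P) a₁ :=
    (Co.homot f3 (fun σ _ q hq => (o0 q hq _).trans (o0 q hq _).symm)
      (fun σ _ q _ => by simp only [mul_one, sub_add_cancel])).1 h2'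
  exact ⟨a₁, h1, h3.congr fun t _ q _ => by rw [sub_self, zero_mul, zero_add]⟩

/-- Transport to the frame of the complements, where the forms are of block type. -/
theorem gd_near (hie : IEStmt F) (hleg : LegStmt P) (hP : IsOP P) (hR : 0 < R)
    (hb : Gd P R tgt (bas P)) {lam : Form1 (F × F)} (hl : Adm P lam)
    {G : ℝ → F → F →L[ℝ] F × F}
    (hG : ∀ s ∈ Icc (0 : ℝ) 1, ∀ q ∈ core P, ContDiffAt ℝ ∞ (fun z : ℝ × F => G z.1 z.2) (s, q))
    (hiso : ∀ σ ∈ Icc (0 : ℝ) 1, ∀ q ∈ core P, ∀ b b',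
      ((1 - σ) • om0 F + σ • jet lam q) (G σ q b) (G σ q b') = 0)
    (hpair : ∀ σ ∈ Icc (0 : ℝ) 1, ∀ q ∈ core P, ∀ u b,
      ((1 - σ) • om0 F + σ • jet lam q) (u, 0) (G σ q b) = ⟪u, b⟫)
    (h : Co (seg (jet lam) fun _ => om0 F) a (bas P)) : Gd P R tgt a := by
  obtain ⟨w, hw⟩ : ∃ w : ℝ → F → Bil (F × F), ∀ σ q, w σ q = (1 - σ) • om0 F + σ • jet lam q :=
    ⟨_, fun _ _ => rfl⟩
  simp only [← hw] at hiso hpair
  have z0 : (0 : ℝ) ∈ Icc (0 : ℝ) 1 := left_mem_Icc.2 zero_le_one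
  have z1 : (1 : ℝ) ∈ Icc (0 : ℝ) 1 := right_mem_Icc.2 zero_le_one
  have w0 : ∀ q, w 0 q = om0 F := fun q =>
    ContinuousLinearMap.ext fun u => ContinuousLinearMap.ext fun v => by simp [hw]
  have w1 : ∀ q, w 1 q = jet lam q := fun q =>
    ContinuousLinearMap.ext fun u => ContinuousLinearMap.ext fun v => by simp [hw]
  have hs : Co w (bas P) a := h.symm.congr fun t _ q _ =>
    ContinuousLinearMap.ext fun u => ContinuousLinearMap.ext fun v => by simp [hw, seg, add_comm]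
  have fw := hs.fam isCompact_core
  have blk : ∀ u ∈ Icc (0 : ℝ) 1, ∀ q ∈ core P, Blk (pbB (DescA_M 1 (G u q)) (w u q)) :=
    fun u hu q hq => DescA_blk (fun y => (fw.nd u hu q hq).1 y trivial) (hiso u hu q hq)
      (hpair u hu q hq)
  have inj : ∀ κ, ∀ u ∈ Icc (0 : ℝ) 1, ∀ q ∈ core P, Function.Injective (DescA_M κ (G u q)) :=
    fun κ u hu q hq => DescA_inj
      (nd_of_pbB (fun y => (fw.nd u hu q hq).1 y trivial) (blk u hu q hq).nd).2 κ
  have i0 : ∀ q ∈ core P, ∀ b b', om0 F (G 0 q b) (G 0 q b') = 0 := fun q hq b b' => by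
    rw [← w0 q]; exact hiso 0 z0 q hq b b'
  have p0 : ∀ q ∈ core P, ∀ u b, om0 F (u, 0) (G 0 q b) = ⟪u, b⟫ := fun q hq u b => by
    rw [← w0 q]; exact hpair 0 z0 q hq u b
  have g0 : ∀ q ∈ core P, DescA_G 0 (G 0 q) = ContinuousLinearMap.inr ℝ F F := fun q hq =>
    ContinuousLinearMap.ext fun b => by rw [DescA_G_apply, DescA_snd (p0 q hq)]; simp
  have m0 : ∀ q ∈ core P, ∀ v, pbB (DescA_M 0 (G 0 q)) v = v := fun q hq v => by
    rw [DescA_M, g0 q hq, ContinuousLinearMap.coprod_inl_inr, pbB_id]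
  have o0 : ∀ q ∈ core P, ∀ κ, pbB (DescA_M κ (G 0 q)) (w 0 q) = om0 F := fun q hq κ => by
    rw [w0, DescA_om0 (i0 q hq) (p0 q hq)]
  obtain ⟨a₁, h1, h4⟩ := DescA_co (fun z hz =>
    (hG z.1 hz.1 z.2 hz.2).continuousAt.continuousWithinAt) hs inj m0 o0
  have h5 := ((co_blk (h4.fam isCompact_core).cont blk).1 h4).symm
  have h6 : Co (seg (fun q => pbB (DescA_M 1 (G 1 q)) (w 1 q)) fun _ => om0 F) a₁ (bas P) :=
    h5.congr fun t _ q hq => by
      simp only [seg, o0 q hq]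
      exact ContinuousLinearMap.ext fun u => ContinuousLinearMap.ext fun v => by simp [add_comm]
  have h7 : Co (fun s q => pbB ((ContinuousLinearMap.inl ℝ F F).coprod (DescA_G s (G s q)))
      (jet lam q)) a a₁ := h1.congr fun t _ q _ => by rw [w1, DescA_M]
  refine gd_frame hie hP hR hl (G := fun s q => DescA_G s (G s q)) (fun s hs q hq => ?_)
    (fun s hs q hq => inj s s hs q hq) g0 h7 (gd_blk hie hleg hP hR hb (blk 1 z1) h6)
  exact (DescA_G_sm (F := F)).contDiffAt.comp (f := fun z : ℝ × F => (z.1, G z.1 z.2)) (s, q)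
    (contDiffAt_fst.prodMk (hG s hs q hq))

end Pool.Agent.Lib.MP_ccffa6_gt.ELI
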