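import Pool.Agent.Lib.MP_ccffa6_gt.ELI.Sq2

/-!
Lagrangian complements, uniformly.
-/

set_option maxSynthPendingDepth 3

open Set Filter Topology
open scoped ContDiff RealInnerProductSpace

noncomputable section

namespace Pool.Agent.Lib.MP_ccffa6_gt.ELI

section gen

variable {V F : Type} [NormedAddCommGroup V] [NormedSpace ℝ V] [NormedAddCommGroup F]
  [NormedSpace ℝ F]

/-- Restriction of covectors. -/
def Frame_res (φ : F →L[ℝ] V) : (V →L[ℝ] ℝ) →L[ℝ] F →L[ℝ] ℝ :=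
  (ContinuousLinearMap.compL ℝ F V ℝ).flip φ

theorem Frame_res_apply (φ : F →L[ℝ] V) (ξ : V →L[ℝ] ℝ) (u : F) : Frame_res φ ξ u = ξ (φ u) := rfl

/-- Gram matrix. -/
def Frame_gr (g : Bil V) (φ : F →L[ℝ] V) : Bil F := (Frame_res φ).comp (g.comp φ)

/-- Orthogonal projector onto the image of `φ`. -/
def Frame_pr (g : Bil V) (φ : F →L[ℝ] V) : V →L[ℝ] V :=
  φ.comp ((ContinuousLinearMap.inverse (Frame_gr g φ)).comp ((Frame_res φ).comp g))

/-- The rational isotropic complement. -/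
def Frame_G (g : Bil V) (φ : F →L[ℝ] V) (Θ : Bil V) : F →L[ℝ] V :=
  ((1 / 2 : ℝ) • Frame_pr g φ - 1).comp (((ContinuousLinearMap.inverse Θ).comp g).comp φ)

/-- Its pairing with the image of `φ` after the square root. -/
def Frame_Q (g : Bil V) (φ : F →L[ℝ] V) (Θ Ω : Bil V) : Bil F :=
  -(Frame_res φ).comp (Ω.comp ((rpw (-1 / 2) Θ Ω).comp (Frame_G g φ Θ)))

/-- An auxiliary Euclidean structure. -/
structure Frame_Euc (g : Bil V) : Prop where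
  symm : ∀ x y, g x y = g y x
  lb : ∀ x, ‖x‖ * ‖x‖ ≤ g x x
  ub : ∀ x y, g x y ≤ 2 * (‖x‖ * ‖y‖)

variable [FiniteDimensional ℝ F] {g : Bil V} {φ : F →L[ℝ] V} {Θ Ω : Bil V}

theorem Frame_gr_inv (hg : Frame_Euc g) (hφ : Function.Injective φ) :
    (Frame_gr g φ).IsInvertible :=
  Sq_inv_bil fun u hu => (injective_iff_map_eq_zero φ).1 hφ u (by
    have h1 : g (φ u) (φ u) = 0 := hu u
    have h2 := hg.lb (φ u)
    exact norm_eq_zero.1 (by nlinarith [norm_nonneg (φ u)]))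

theorem Frame_pr_pair (hg : Frame_Euc g) (hφ : Function.Injective φ) (x : V) (u : F) :
    g (Frame_pr g φ x) (φ u) = g x (φ u) :=
  congrArg (fun ξ : F →L[ℝ] ℝ => ξ u)
    ((Frame_gr_inv hg hφ).self_apply_inverse (Frame_res φ (g x)))

theorem Frame_pr_norm (hg : Frame_Euc g) (hφ : Function.Injective φ) (x : V) :
    ‖Frame_pr g φ x‖ ≤ 2 * ‖x‖ := by
  have h1 : g (Frame_pr g φ x) (Frame_pr g φ x) = g x (Frame_pr g φ x) := Frame_pr_pair hg hφ x _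
  have h2 := hg.lb (Frame_pr g φ x)
  have h3 := hg.ub x (Frame_pr g φ x)
  by_contra h
  push Not at h
  nlinarith [norm_nonneg x, norm_nonneg (Frame_pr g φ x)]

omit [FiniteDimensional ℝ F] in
theorem Frame_G_apply (b : F) : Frame_G g φ Θ b =
    (1 / 2 : ℝ) • Frame_pr g φ (ContinuousLinearMap.inverse Θ (g (φ b))) -
      ContinuousLinearMap.inverse Θ (g (φ b)) := rfl

omit [FiniteDimensional ℝ F] in
theorem Frame_G_pair (h : Θ.IsInvertible) (hΘ : ∀ u, Θ u u = 0)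
    (hi : ∀ u u', Θ (φ u) (φ u') = 0) (u b : F) :
    Θ (φ u) (Frame_G g φ Θ b) = g (φ b) (φ u) := by
  have h1 : ∀ x, Θ (φ u) (Frame_pr g φ x) = 0 := fun x => hi u _
  rw [Frame_G_apply, map_sub, map_smul, h1, Sq_swap hΘ, h.self_apply_inverse]
  simp

theorem Frame_G_iso (hg : Frame_Euc g) (hφ : Function.Injective φ) (h : Θ.IsInvertible)
    (hΘ : ∀ u, Θ u u = 0) (hi : ∀ u u', Θ (φ u) (φ u') = 0) (b b' : F) :
    Θ (Frame_G g φ Θ b) (Frame_G g φ Θ b') = 0 := by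
  set x := ContinuousLinearMap.inverse Θ (g (φ b)) with hx
  set x' := ContinuousLinearMap.inverse Θ (g (φ b')) with hx'
  have e : ∀ y, Θ x y = g (φ b) y := fun y => by rw [hx, h.self_apply_inverse]
  have e' : ∀ y, Θ x' y = g (φ b') y := fun y => by rw [hx', h.self_apply_inverse]
  have h1 : Θ (Frame_pr g φ x) (Frame_pr g φ x') = 0 := hi _ _
  have h2 : Θ (Frame_pr g φ x) x' = Θ x x' := by
    rw [Sq_swap hΘ, e', hg.symm, Frame_pr_pair hg hφ, hg.symm, ← e', ← Sq_swap hΘ]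
  have h3 : Θ x (Frame_pr g φ x') = Θ x x' := by
    rw [e, hg.symm, Frame_pr_pair hg hφ, hg.symm, ← e]
  rw [Frame_G_apply, Frame_G_apply, ← hx, ← hx']
  simp only [map_sub, map_smul, sub_apply, smul_apply, h1, h2, h3, smul_eq_mul]
  ring

theorem Frame_G_norm [FiniteDimensional ℝ V] (hg : Frame_Euc g) (hφ : Function.Injective φ)
    {c : ℝ} (hc : 0 < c) (h : ∀ x, c * ‖x‖ ≤ ‖Θ x‖) (b : F) :
    c * ‖Frame_G g φ Θ b‖ ≤ 4 * ‖φ b‖ := by
  set x := ContinuousLinearMap.inverse Θ (g (φ b)) with hx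
  have h1 : c * ‖x‖ ≤ 2 * ‖φ b‖ := by
    refine (h x).trans ?_
    rw [hx, (Sq_inv_of_lb hc h).self_apply_inverse]
    refine ContinuousLinearMap.opNorm_le_bound _ (by positivity) fun y => ?_
    have h2 := hg.ub (φ b) y
    have h3 := hg.ub (φ b) (-y)
    rw [map_neg, norm_neg] at h3
    rw [Real.norm_eq_abs, abs_le]
    constructor <;> linarith
  have h2 : ‖Frame_G g φ Θ b‖ ≤ 2 * ‖x‖ := by
    rw [Frame_G_apply, ← hx]
    refine (norm_sub_le _ _).trans ?_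
    rw [norm_smul, Real.norm_of_nonneg (by norm_num)]
    linarith [Frame_pr_norm hg hφ x]
  nlinarith

theorem Frame_Q_inv [FiniteDimensional ℝ V] (hg : Frame_Euc g) (hφ : Function.Injective φ)
    {c M : ℝ} (hc : 0 < c) (hM0 : 0 < M) (h : ∀ x, c * ‖x‖ ≤ ‖Θ x‖) (hM : ‖Θ‖ ≤ M)
    (hΘ : ∀ u, Θ u u = 0) (hΩ : ∀ u, Ω u u = 0) (hi : ∀ u u', Θ (φ u) (φ u') = 0)
    (hn : ‖rel Θ Ω‖ < 1) (hB : ‖rpw (1 / 2) Θ Ω - 1‖ ≤ c / (8 * M)) :
    (Frame_Q g φ Θ Ω).IsInvertible := by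
  have hI := Sq_inv_of_lb hc h
  refine Sq_inv_bil fun b hb => (injective_iff_map_eq_zero φ).1 hφ b ?_
  have h1 : -Ω (rpw (-1 / 2) Θ Ω (Frame_G g φ Θ b)) (φ b) = 0 := hb b
  have h2 : φ b = rpw (-1 / 2) Θ Ω (rpw (1 / 2) Θ Ω (φ b)) := by
    have := rpw_inv (-1 / 2) hn (φ b)
    rw [show -(-1 / 2 : ℝ) = 1 / 2 by norm_num] at this
    exact this.symm
  rw [h2, rpw_pb hI hΘ hΩ hn, ← Sq_swap hΘ] at h1
  have h3 : rpw (1 / 2) Θ Ω (φ b) = φ b + (rpw (1 / 2) Θ Ω - 1) (φ b) := by simp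
  rw [h3, map_add, add_apply, Frame_G_pair hI hΘ hi] at h1
  have h4 := Θ.le_opNorm₂ ((rpw (1 / 2) Θ Ω - 1) (φ b)) (Frame_G g φ Θ b)
  have h5 : ‖(rpw (1 / 2) Θ Ω - 1) (φ b)‖ ≤ c / (8 * M) * ‖φ b‖ :=
    (ContinuousLinearMap.le_opNorm _ _).trans (mul_le_mul_of_nonneg_right hB (norm_nonneg _))
  have h6 := Frame_G_norm hg hφ hc h b
  have h7 := hg.lb (φ b)
  have h8 : ‖Θ‖ * ‖(rpw (1 / 2) Θ Ω - 1) (φ b)‖ ≤ M * (c / (8 * M) * ‖φ b‖) :=
    mul_le_mul hM h5 (norm_nonneg _) hM0.le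
  have h9 : M * (c / (8 * M) * ‖φ b‖) = c * ‖φ b‖ / 8 := by field_simp
  have h10 := mul_le_mul_of_nonneg_right (h8.trans h9.le) (norm_nonneg (Frame_G g φ Θ b))
  have h11 := mul_le_mul_of_nonneg_left h6 (norm_nonneg (φ b))
  rw [Real.norm_eq_abs] at h4
  have h12 := neg_abs_le (Θ ((rpw (1 / 2) Θ Ω - 1) (φ b)) (Frame_G g φ Θ b))
  exact norm_eq_zero.1 (by nlinarith [norm_nonneg (φ b)])

theorem Frame_smooth [FiniteDimensional ℝ V] {Z : Type} [NormedAddCommGroup Z] [NormedSpace ℝ Z]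
    {φ : Z → F →L[ℝ] V} {Θ Ω : Z → Bil V} {z : Z} (hg : Frame_Euc g)
    (hφ : Function.Injective (φ z)) (h : (Θ z).IsInvertible) (hn : ‖rel (Θ z) (Ω z)‖ < 1)
    (sφ : ContDiffAt ℝ ∞ φ z) (sΘ : ContDiffAt ℝ ∞ Θ z) (sΩ : ContDiffAt ℝ ∞ Ω z) :
    ContDiffAt ℝ ∞ (fun z => (rpw (-1 / 2) (Θ z) (Ω z)).comp (Frame_G g (φ z) (Θ z))) z ∧
      ContDiffAt ℝ ∞ (fun z => Frame_Q g (φ z) (Θ z) (Ω z)) z := by
  have s1 : ContDiffAt ℝ ∞ (fun z => Frame_res (φ z)) z :=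
    ((ContinuousLinearMap.compL ℝ F V ℝ).flip.contDiff.contDiffAt).comp z sφ
  have s2 : ContDiffAt ℝ ∞ (fun z => Frame_gr g (φ z)) z :=
    s1.clm_comp (contDiffAt_const.clm_comp sφ)
  have s2' : ContDiffAt ℝ ∞ (fun z => ContinuousLinearMap.inverse (Frame_gr g (φ z))) z :=
    ContDiffAt.comp (g := ContinuousLinearMap.inverse) (f := fun z => Frame_gr g (φ z)) z
      (Frame_gr_inv hg hφ).contDiffAt_map_inverse s2
  have s3 : ContDiffAt ℝ ∞ (fun z => Frame_pr g (φ z)) z :=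
    sφ.clm_comp (s2'.clm_comp (s1.clm_comp contDiffAt_const))
  have s4 : ContDiffAt ℝ ∞ (fun z => Frame_G g (φ z) (Θ z)) z :=
    ((s3.const_smul (1 / 2 : ℝ)).sub contDiffAt_const).clm_comp
      (((h.contDiffAt_map_inverse.comp z sΘ).clm_comp contDiffAt_const).clm_comp sφ)
  have s5 : ContDiffAt ℝ ∞ (fun z => rpw (-1 / 2) (Θ z) (Ω z)) z :=
    ContDiffAt.comp (g := fun y : Bil V × Bil V => rpw (-1 / 2) y.1 y.2)
      (f := fun z => (Θ z, Ω z)) z (contDiffAt_rpw _ h hn) (sΘ.prodMk sΩ)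
  exact ⟨s5.clm_comp s4, (s1.clm_comp (sΩ.clm_comp (s5.clm_comp s4))).neg⟩

end gen

variable {F : Type} [NormedAddCommGroup F] [InnerProductSpace ℝ F]

/-- The Euclidean product of `F × F`. -/
def Frame_g (F : Type) [NormedAddCommGroup F] [InnerProductSpace ℝ F] : Bil (F × F) :=
  pbB (ContinuousLinearMap.fst ℝ F F) (innerSL ℝ : F →L[ℝ] F →L[ℝ] ℝ) +
    pbB (ContinuousLinearMap.snd ℝ F F) (innerSL ℝ : F →L[ℝ] F →L[ℝ] ℝ)

theorem Frame_g_apply (x y : F × F) : Frame_g F x y = ⟪x.1, y.1⟫ + ⟪x.2, y.2⟫ := rfl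

theorem Frame_euc : Frame_Euc (Frame_g F) := by
  refine ⟨fun x y => ?_, fun x => ?_, fun x y => ?_⟩
  · rw [Frame_g_apply, Frame_g_apply, real_inner_comm x.1, real_inner_comm x.2]
  · rw [Frame_g_apply, real_inner_self_eq_norm_mul_norm, real_inner_self_eq_norm_mul_norm,
      Prod.norm_def]
    rcases max_cases ‖x.1‖ ‖x.2‖ with h | h <;> rw [h.1] <;>
      nlinarith [norm_nonneg x.1, norm_nonneg x.2]
  · rw [Frame_g_apply]
    have h1 := mul_le_mul (norm_fst_le x) (norm_fst_le y) (norm_nonneg _) (norm_nonneg _)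
    have h2 := mul_le_mul (norm_snd_le x) (norm_snd_le y) (norm_nonneg _) (norm_nonneg _)
    linarith [real_inner_le_norm x.1 y.1, real_inner_le_norm x.2 y.2]

variable [FiniteDimensional ℝ F]

/-- If `K^* Θ` is standard and `Ω` is close to `Θ` (both near a compact set of symplectic forms),
then `F × 0` has a `K^* Ω`-Lagrangian complement dual to it, smooth in the data; `δ` does not
depend on `K`. -/
theorem frame {𝒞 : Set (Bil (F × F))} (hc : IsCompact 𝒞) (hnd : ∀ w ∈ 𝒞, ND ⊤ w) :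
    ∃ δ > 0, ∃ 𝒢 : (F × F →L[ℝ] F × F) × Bil (F × F) × Bil (F × F) → (F →L[ℝ] F × F),
      ∀ w ∈ 𝒞, ∀ (K : F × F →L[ℝ] F × F) (Θ Ω : Bil (F × F)), ‖Θ - w‖ ≤ δ → ‖Ω - w‖ ≤ δ →
        (∀ u, Θ u u = 0) → (∀ u, Ω u u = 0) → pbB K Θ = om0 F →
        ND ⊤ Ω ∧ ContDiffAt ℝ ∞ 𝒢 (K, Θ, Ω) ∧
        (∀ b b', pbB K Ω (𝒢 (K, Θ, Ω) b) (𝒢 (K, Θ, Ω) b') = 0) ∧
        ∀ u b, pbB K Ω (u, 0) (𝒢 (K, Θ, Ω) b) = ⟪u, b⟫ := by
  obtain ⟨c, c0, M, M0, hb⟩ := Sq_bound hc hnd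
  obtain ⟨d, d0, d1, hd⟩ := pw_near (A := F × F →L[ℝ] F × F) (1 / 2)
    (ε := c / (8 * M)) (by positivity)
  let i := ContinuousLinearMap.inl ℝ F F
  refine ⟨c * d / 2, by positivity, fun z => (ContinuousLinearMap.inverse z.1).comp
    (((rpw (-1 / 2) z.2.1 z.2.2).comp (Frame_G (Frame_g F) (z.1.comp i) z.2.1)).comp
      ((ContinuousLinearMap.inverse (Frame_Q (Frame_g F) (z.1.comp i) z.2.1 z.2.2)).comp
        (innerSL ℝ : F →L[ℝ] F →L[ℝ] ℝ))), fun w hw K Θ Ω h1 h2 hΘ hΩ hK => ?_⟩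
  have hcd : c * d / 2 ≤ c := by nlinarith
  obtain ⟨hM, hl⟩ := hb w hw Θ (h1.trans hcd)
  have hI := Sq_inv_of_lb c0 hl
  have hI' := Sq_inv_of_lb c0 (hb w hw Ω (h2.trans hcd)).2
  have hK' : ∀ u v, Θ (K u) (K v) = om0 F u v := fun u v =>
    congrArg (fun m : Bil (F × F) => m u v) hK
  have Kinj : Function.Injective K := (injective_iff_map_eq_zero K).2 fun u hu =>
    nd_om0.2 u trivial fun v _ => by rw [← hK', hu]; simp
  have KI : K.IsInvertible := Sq_inv_of_inj Kinj rfl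
  have hφ : Function.Injective (K.comp i) := Kinj.comp fun a b h => congrArg Prod.fst h
  have hi : ∀ u u', Θ (K.comp i u) (K.comp i u') = 0 := fun u u' =>
    (hK' (u, 0) (u', 0)).trans (by simp [om0_apply])
  have hr : ‖rel Θ Ω‖ ≤ d := by
    refine (rel_norm c0 hl Ω).trans ?_
    rw [div_le_iff₀ c0]
    have := norm_sub_le_norm_sub_add_norm_sub Ω w Θ
    rw [norm_sub_rev w Θ] at this
    linarith
  have hn : ‖rel Θ Ω‖ < 1 := hr.trans_lt d1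
  have hQ := Frame_Q_inv Frame_euc hφ c0 M0 hl hM hΘ hΩ hi hn (hd _ hr).le
  refine ⟨⟨fun u _ => hΩ u, fun u _ hu => hI'.injective (a₂ := 0) ?_⟩, ?_, fun b b' => ?_,
    fun u b => ?_⟩
  · ext v <;> simpa using hu _ trivial
  · obtain ⟨s1, s2⟩ := Frame_smooth (g := Frame_g F)
      (φ := fun z : (F × F →L[ℝ] F × F) × Bil (F × F) × Bil (F × F) => z.1.comp i)
      (Θ := fun z => z.2.1) (Ω := fun z => z.2.2) (z := (K, Θ, Ω)) Frame_euc hφ hI hn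
      (contDiffAt_fst.clm_comp contDiffAt_const) contDiffAt_snd.fst contDiffAt_snd.snd
    have s3 := (hQ.contDiffAt_map_inverse (n := ∞)).comp (K, Θ, Ω) s2
    have s4 : ContDiffAt ℝ ∞ (fun z : (F × F →L[ℝ] F × F) × Bil (F × F) × Bil (F × F) =>
        ContinuousLinearMap.inverse z.1) (K, Θ, Ω) :=
      (KI.contDiffAt_map_inverse (n := ∞)).comp (K, Θ, Ω) contDiffAt_fst
    exact s4.clm_comp (s1.clm_comp (s3.clm_comp contDiffAt_const))
  · change Ω (K (ContinuousLinearMap.inverse K _)) (K (ContinuousLinearMap.inverse K _)) = 0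
    rw [KI.self_apply_inverse, KI.self_apply_inverse]
    exact (rpw_pb hI hΘ hΩ hn _ _).trans (Frame_G_iso Frame_euc hφ hI hΘ hi _ _)
  · change Ω (K (u, 0)) (K (ContinuousLinearMap.inverse K _)) = _
    rw [KI.self_apply_inverse, Sq_swap hΩ, real_inner_comm]
    exact congrArg (fun ξ : F →L[ℝ] ℝ => ξ u) (hQ.self_apply_inverse (innerSL ℝ b))

end Pool.Agent.Lib.MP_ccffa6_gt.ELI
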