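import Pool.Agent.Lib.MP_ccffa6_gt.ELI.DescA
import Pool.Agent.Lib.MP_ccffa6_gt.ELI.Frame

/-!
One step of the descent.
-/

set_option maxSynthPendingDepth 3

open Set Filter Topology
open scoped ContDiff RealInnerProductSpace

noncomputable section

namespace Pool.Agent.Lib.MP_ccffa6_gt.ELI

variable {F : Type} [NormedAddCommGroup F] [InnerProductSpace ℝ F] [FiniteDimensional ℝ F]
  {P : F →L[ℝ] F} {R : ℝ} {tgt : Form1 (F × F)}

/-- The derivative along the core, normalised to height one. -/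
def Kq (P : F →L[ℝ] F) (φ : F × F → F × F) (q : F) : F × F →L[ℝ] F × F :=
  Real.sqrt (ht P (φ (q, 0))) • (Sc P (ht P (φ (q, 0)))⁻¹).comp (fderiv ℝ φ (q, 0))

theorem Kq_smooth {φ : F × F → F × F} (h : Eqv P φ) {q : F} (hq : q ∈ core P) :
    ContDiffAt ℝ ∞ (Kq P φ) q := by
  have hq0 : P ((q, (0 : F)) : F × F).1 ≠ 0 := core_ne hq
  have h0 : ContDiffAt ℝ ∞ (fun x : F => ((x, 0) : F × F)) q := contDiffAt_id.prodMk contDiffAt_const
  have h1 : ContDiffAt ℝ ∞ (fun x : F => ht P (φ (x, 0))) q :=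
    ContDiffAt.comp (g := ht P) (f := fun x : F => φ (x, 0)) q (contDiffAt_ht (h.ne _ hq0))
      ((h.sm _ hq0).comp q h0)
  have hp : ht P (φ (q, 0)) ≠ 0 := (ht_pos (h.ne _ hq0)).ne'
  have h2 : ContDiffAt ℝ ∞ (fun x : F => fderiv ℝ φ (x, 0)) q :=
    ((h.sm _ hq0).fderiv_right (m := ∞) (by simp)).comp q h0
  exact (h1.sqrt hp).smul (((contDiff_Sc (P := P)).contDiffAt.comp q (h1.inv hp)).clm_comp h2)

/-- Sketch: `pbB_smul_left`, `pbB_comp`, `Sc_Sc`. -/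
theorem pbB_Kq (hP : IsOP P) {φ : F × F → F × F} (h : Eqv P φ) {q : F} (hq : q ∈ core P)
    (D : Bil (F × F)) :
    pbB (Kq P φ q) ((ht P (φ (q, 0)))⁻¹ • pbB (Sc P (ht P (φ (q, 0)))) D) =
      pbB (fderiv ℝ φ (q, 0)) D := by
  have hp : 0 < ht P (φ (q, 0)) := ht_pos (h.ne _ (core_ne hq))
  unfold Kq
  rw [pbB_smul_left, Real.mul_self_sqrt hp.le, pbB_smul, smul_smul, mul_inv_cancel₀ hp.ne',
    one_smul]
  refine ContinuousLinearMap.ext fun u => ContinuousLinearMap.ext fun v => ?_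
  simp only [pbB_apply, ContinuousLinearMap.comp_apply, Sc_Sc hP, mul_inv_cancel₀ hp.ne', Sc_one]

/-- Sketch: `pbB_Kq`, `Adm.dF_hom` at `nz P _`, `Sc_nz`. -/
theorem jet_pb_Kq (hP : IsOP P) {φ : F × F → F × F} (h : Eqv P φ) {lam : Form1 (F × F)}
    (hl : Adm P lam) {q : F} (hq : q ∈ core P) :
    jet (pb φ lam) q = pbB (Kq P φ q) (dF lam (nz P (φ (q, 0)))) := by
  have hq0 : P ((q, (0 : F)) : F × F).1 ≠ 0 := core_ne hq
  have hy := h.ne _ hq0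
  have hp : 0 < ht P (φ (q, 0)) := ht_pos hy
  have h1 := hl.dF_hom hP hp (ne_of_ht (ht_nz hP hy))
  rw [Sc_nz hP hy] at h1
  rw [jet, h.dF_pb hl hq0, ← pbB_Kq hP h hq, h1, smul_smul, inv_mul_cancel₀ hp.ne', one_smul]

theorem DescB_conv {V : Type} [NormedAddCommGroup V] [NormedSpace ℝ V] {x y c : V} {u δ : ℝ}
    (hu : u ∈ Icc (0 : ℝ) 1) (hx : ‖x - c‖ ≤ δ) (hy : ‖y - c‖ ≤ δ) :
    ‖(1 - u) • x + u • y - c‖ ≤ δ := by
  rw [← dist_eq_norm] at hx hy ⊢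
  exact convex_closedBall c δ hx hy (sub_nonneg.2 hu.2) hu.1 (sub_add_cancel 1 u)

theorem DescB_inv {M : F × F →L[ℝ] F × F} (h : Function.Injective M) : M.IsInvertible :=
  ⟨(LinearEquiv.ofInjectiveEndo M.toLinearMap h).toContinuousLinearEquiv, rfl⟩

theorem DescB_th {φ : F × F → F × F} (hE : Eqv P φ) {q : F} (hq : q ∈ core P)
    (hK : (Kq P φ q).IsInvertible) :
    ContDiffAt ℝ ∞ (fun q => pbB (Kq P φ q).inverse (om0 F)) q :=
  ContDiffAt.comp (g := fun z : (F × F →L[ℝ] F × F) × Bil (F × F) => pbB z.1 z.2)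
    (f := fun q => ((Kq P φ q).inverse, om0 F)) q contDiff_pbB.contDiffAt
    ((ContDiffAt.comp (g := ContinuousLinearMap.inverse) (f := Kq P φ) q
      hK.contDiffAt_map_inverse (Kq_smooth hE hq)).prodMk contDiffAt_const)

theorem DescB_om {φ : F × F → F × F} (hE : Eqv P φ) {lam : Form1 (F × F)} (hl : Adm P lam)
    (hP : IsOP P) {q : F} (hq : q ∈ core P) :
    ContDiffAt ℝ ∞ (fun q : F => dF lam (nz P (φ (q, 0)))) q := by
  have h0 : ContDiffAt ℝ ∞ (fun x : F => φ (x, 0)) q :=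
    (hE.sm _ (core_ne hq)).comp q (contDiffAt_id.prodMk contDiffAt_const)
  have h1 : ContDiffAt ℝ ∞ (fun x : F => nz P (φ (x, 0))) q :=
    ContDiffAt.comp (g := nz P) q (contDiffAt_nz (hE.ne _ (core_ne hq))) h0
  exact ContDiffAt.comp (g := dF lam) q
    (contDiffAt_dF (hl.sm _ (ne_of_ht (ht_nz hP (hE.ne _ (core_ne hq)))))) h1

theorem DescB_gd (hie : IEStmt F) (hleg : LegStmt P) (hP : IsOP P) (hR : 0 < R)
    (hb : Gd P R tgt (bas P)) {φ : F × F → F × F} (hE : Eqv P φ) {lam : Form1 (F × F)}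
    (hl : Adm P lam) {δ : ℝ} {w Θ : F → Bil (F × F)}
    {𝒢 : (F × F →L[ℝ] F × F) × Bil (F × F) × Bil (F × F) → (F →L[ℝ] F × F)}
    (h𝒢 : ∀ q ∈ core P, ∀ Ω : Bil (F × F), ‖Ω - w q‖ ≤ δ → (∀ u, Ω u u = 0) →
      ContDiffAt ℝ ∞ 𝒢 (Kq P φ q, Θ q, Ω) ∧
        (∀ b b', pbB (Kq P φ q) Ω (𝒢 (Kq P φ q, Θ q, Ω) b) (𝒢 (Kq P φ q, Θ q, Ω) b') = 0) ∧
        ∀ u b, pbB (Kq P φ q) Ω (u, 0) (𝒢 (Kq P φ q, Θ q, Ω) b) = ⟪u, b⟫)
    (hΘs : ∀ q ∈ core P, ContDiffAt ℝ ∞ Θ q) (hΘa : ∀ q u, Θ q u u = 0)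
    (hΘK : ∀ q ∈ core P, pbB (Kq P φ q) (Θ q) = om0 F) (hΘc : ∀ q ∈ core P, ‖Θ q - w q‖ ≤ δ)
    (hn : ∀ q ∈ core P, ‖dF lam (nz P (φ (q, 0))) - w q‖ ≤ δ) {a : Lf P}
    (h : Co (seg (jet (pb φ lam)) fun _ => om0 F) a (bas P)) : Gd P R tgt a := by
  obtain ⟨Ω, hΩ⟩ : ∃ Ω : F → Bil (F × F), Ω = fun q => dF lam (nz P (φ (q, 0))) := ⟨_, rfl⟩
  have hΩs : ∀ q ∈ core P, ContDiffAt ℝ ∞ Ω q := fun q hq => hΩ ▸ DescB_om hE hl hP hq
  have key := fun σ (hσ : σ ∈ Icc (0 : ℝ) 1) q (hq : q ∈ core P) =>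
    h𝒢 q hq ((1 - σ) • Θ q + σ • Ω q) (DescB_conv hσ (hΘc q hq) (hΩ ▸ hn q hq))
      (fun u => by simp [hΘa, hΩ, dF_alt])
  have hsrc : ∀ (σ : ℝ), ∀ q ∈ core P, pbB (Kq P φ q) ((1 - σ) • Θ q + σ • Ω q) =
      (1 - σ) • om0 F + σ • jet (pb φ lam) q := fun σ q hq => by
    rw [pbB_add, pbB_smul, pbB_smul, hΘK q hq, jet_pb_Kq hP hE hl hq, hΩ]
  refine gd_near hie hleg hP hR hb (hE.adm hP hl)
    (G := fun σ q => 𝒢 (Kq P φ q, Θ q, (1 - σ) • Θ q + σ • Ω q)) ?_ ?_ ?_ h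
  · intro s hs q hq
    have e0 : ContDiffAt ℝ ∞ (fun z : ℝ × F => Kq P φ z.2) (s, q) :=
      ContDiffAt.comp (g := Kq P φ) (s, q) (Kq_smooth hE hq) contDiffAt_snd
    have e1 : ContDiffAt ℝ ∞ (fun z : ℝ × F => Θ z.2) (s, q) :=
      ContDiffAt.comp (g := Θ) (s, q) (hΘs q hq) contDiffAt_snd
    have e2 : ContDiffAt ℝ ∞ (fun z : ℝ × F => Ω z.2) (s, q) :=
      ContDiffAt.comp (g := Ω) (s, q) (hΩs q hq) contDiffAt_snd
    have e3 : ContDiffAt ℝ ∞ (fun z : ℝ × F => (1 - z.1) • Θ z.2 + z.1 • Ω z.2) (s, q) :=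
      ((contDiffAt_const.sub contDiffAt_fst).smul e1).add (contDiffAt_fst.smul e2)
    exact ContDiffAt.comp (g := 𝒢)
      (f := fun z : ℝ × F => (Kq P φ z.2, Θ z.2, (1 - z.1) • Θ z.2 + z.1 • Ω z.2)) (s, q)
      (key s hs q hq).1 (e0.prodMk (e1.prodMk e3))
  · intro σ hσ q hq c c'
    rw [← hsrc σ q hq]
    exact (key σ hσ q hq).2.1 c c'
  · intro σ hσ q hq u c
    rw [← hsrc σ q hq]
    exact (key σ hσ q hq).2.2 u c

theorem DescB_sq (hR : 0 < R) {H : ℝ → F × F → F × F} (hH : HPath P R H)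
    {lam lam' : Form1 (F × F)} (hl : Adm P lam) (hl' : Adm P lam')
    (htf : TFam P R (Icc (0 : ℝ) 1 ×ˢ Icc (0 : ℝ) 1)
      fun p : ℝ × ℝ => fun y => (1 - p.2) • dF lam' y + p.2 • dF lam y)
    {a a' b b' : Lf P} (hco : Co (seg (jet lam') (jet lam)) a' a)
    (hab : Co (fun t => jet (pb (H t) lam)) a b) (hab' : Co (fun t => jet (pb (H t) lam')) a' b') :
    Co (seg (jet (pb (H 1) lam')) (jet (pb (H 1) lam))) b' b := by
  have h1 : (1 : ℝ) ∈ Icc (0 : ℝ) 1 := ⟨zero_le_one, le_rfl⟩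
  have hsq := (htf.pull hH (τ := Prod.fst) continuousOn_fst fun p hp => hp.1).fam hR.le
  have hsw := hsq.comp (D' := Icc (0 : ℝ) 1 ×ˢ Icc (0 : ℝ) 1) (g := Prod.swap)
    continuous_swap.continuousOn fun p hp => ⟨hp.2, hp.1⟩
  refine (Co.square hsw (a := a') (b := a) (c := b') (d := b) ?_ ?_ ?_).congr ?_
  · refine hco.congr fun t _ q hq => ?_
    have hq0 : P ((q, (0 : F)) : F × F).1 ≠ 0 := core_ne hq
    simp only [Prod.swap_prod_mk, hH.fderiv_zero hq0, pbB_id, hH.zero (q, 0) hq0, seg, jet]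
  · refine hab.congr fun t ht q hq => ?_
    simp only [Prod.swap_prod_mk, hH.jet_pb hl ht hq, sub_self, zero_smul, one_smul, zero_add]
  · refine hab'.congr fun t ht q hq => ?_
    simp only [Prod.swap_prod_mk, hH.jet_pb hl' ht hq, sub_zero, zero_smul, one_smul, add_zero]
  · intro t _ q hq
    simp only [Prod.swap_prod_mk, seg, hH.jet_pb hl h1 hq, hH.jet_pb hl' h1 hq, pbB_add,
      pbB_smul]

theorem DescB_tri {J J' J₀ : F → Bil (F × F)} (hJ : ContinuousOn J (core P))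
    (hJ' : ContinuousOn J' (core P)) (h₀ : ∀ q ∈ core P, J₀ q = om0 F)
    (hnd : ∀ u ∈ Icc (0 : ℝ) 1, ∀ v ∈ Icc (0 : ℝ) 1, ∀ q ∈ core P,
      ND ⊤ ((1 - u) • J' q + u • J q + v • (om0 F - J q)))
    {b b' c : Lf P} (h1 : Co (seg J' J) b' b) (h2 : Co (seg J J₀) b c) :
    Co (seg J' fun _ => om0 F) b' c := by
  have hfam : Fam (Icc (0 : ℝ) 1 ×ˢ Icc (0 : ℝ) 1) (core P) fun (p : ℝ × ℝ) q =>
      (1 - p.1) • J' q + p.1 • J q + p.2 • (om0 F - J q) := by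
    have c1 := hJ.comp (s := (Icc (0 : ℝ) 1 ×ˢ Icc (0 : ℝ) 1) ×ˢ core P)
      continuous_snd.continuousOn fun z hz => hz.2
    have c2 := hJ'.comp (s := (Icc (0 : ℝ) 1 ×ˢ Icc (0 : ℝ) 1) ×ˢ core P)
      continuous_snd.continuousOn fun z hz => hz.2
    exact ⟨(((continuous_const.sub continuous_fst.fst).continuousOn.smul c2).add
      (continuous_fst.fst.continuousOn.smul c1)).add
      (continuous_fst.snd.continuousOn.smul (continuousOn_const.sub c1)),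
      fun p hp q hq => hnd _ hp.1 _ hp.2 q hq⟩
  refine (Co.diag hfam (b := b) ?_ ?_).congr ?_
  · exact h1.congr fun t _ q _ => by simp only [seg, zero_smul, add_zero]
  · refine h2.congr fun t _ q hq => ?_
    simp only [seg, h₀ q hq]
    module
  · intro t _ q _
    simp only [seg]
    module

theorem DescB_theta (hP : IsOP P) {φ : F × F → F × F} (hE : Eqv P φ) {lam : Form1 (F × F)}
    (hl : Adm P lam) {q : F} (hq : q ∈ core P) {D : Bil (F × F)} (ha : ∀ u, D u u = 0)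
    (he : om0 F = pbB (fderiv ℝ φ (q, 0)) (dF lam (φ (q, 0)) + D)) :
    (Kq P φ q).IsInvertible ∧
      ‖pbB (Kq P φ q).inverse (om0 F) - dF lam (nz P (φ (q, 0)))‖ = nrm P (φ (q, 0)) D := by
  obtain ⟨D', hD'⟩ : ∃ D' : Bil (F × F),
    D' = (ht P (φ (q, 0)))⁻¹ • pbB (Sc P (ht P (φ (q, 0)))) D := ⟨_, rfl⟩
  have h1 : pbB (Kq P φ q) (dF lam (nz P (φ (q, 0))) + D') = om0 F := by
    rw [pbB_add, hD', pbB_Kq hP hE hq, ← jet_pb_Kq hP hE hl hq, jet, hE.dF_pb hl (core_ne hq),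
      ← pbB_add, ← he]
  have hK : (Kq P φ q).IsInvertible :=
    DescB_inv (nd_of_pbB (w := dF lam (nz P (φ (q, 0))) + D')
      (fun u => by simp [hD', ha, dF_alt]) (h1 ▸ nd_om0)).2
  refine ⟨hK, ?_⟩
  rw [← h1, ← pbB_comp, hK.self_comp_inverse, pbB_id, add_sub_cancel_left, hD', nrm]

/-- One step: two forms close to a common centre. -/
theorem near_step (hie : IEStmt F) (hleg : LegStmt P) (hP : IsOP P) (hR : 0 < R)
    (hb : Gd P R tgt (bas P)) (hj : ∀ q ∈ core P, jet tgt q = om0 F) {cen : Form1 (F × F)}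
    (hcen : Adm P cen) (hc : Ct P R cen) :
    ∃ δ > 0, ∀ lam lam' : Form1 (F × F), Adm P lam → Adm P lam' →
      (∀ y ∈ Cyl P R, ‖dF lam y - dF cen y‖ ≤ δ) → (∀ y ∈ Cyl P R, ‖dF lam' y - dF cen y‖ ≤ δ) →
      ∀ a a' : Lf P, Co (seg (jet lam') (jet lam)) a' a → Nr P R tgt lam a →
        Nr P R tgt lam' a' := by
  have hcpt : IsCompact (dF cen '' Cyl P R) :=
    (isCompact_Cyl R).image_of_continuousOn (hcen.contOn_dF.mono fun y hy => ne_of_ht hy.1)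
  have hnd : ∀ w ∈ dF cen '' Cyl P R, ND ⊤ w := by
    rintro _ ⟨y, hy, rfl⟩
    exact hc y hy
  obtain ⟨δf, hδf, 𝒢, h𝒢⟩ := frame hcpt hnd
  obtain ⟨ε, hε, hun⟩ := nd_unif hcpt hnd
  obtain ⟨δ, hδ, hm1, hm2⟩ : ∃ δ > 0, δ + δ ≤ δf ∧ δ + δ ≤ ε :=
    ⟨min δf ε / 2, by positivity, by linarith [min_le_left δf ε], by linarith [min_le_right δf ε]⟩
  refine ⟨δ, hδ, fun lam lam' hl hl' hn hn' a a' hco hN => ?_⟩
  have hseg : ∀ u ∈ Icc (0 : ℝ) 1, ∀ y ∈ Cyl P R,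
      ‖(1 - u) • dF lam' y + u • dF lam y - dF cen y‖ ≤ δ := fun u hu y hy =>
    DescB_conv hu (hn' y hy) (hn y hy)
  have hct' : Ct P R lam' := fun y hy =>
    hun _ (mem_image_of_mem _ hy) _ (dF_alt _ _) ((hn' y hy).trans (by linarith))
  have htf := tfam_seg hP hl' hl fun u hu y hy => hun _ (mem_image_of_mem _ hy) _
    (fun v => by simp [dF_alt]) ((hseg u hu y hy).trans (by linarith))
  obtain ⟨H, mu, b, hH, hmu, -, hnear, hD, hab, hb0⟩ := hN _ hδ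
  have h1 : (1 : ℝ) ∈ Icc (0 : ℝ) 1 := ⟨zero_le_one, le_rfl⟩
  have hE := hH.toEqv h1
  obtain ⟨b', hab'⟩ := Co.exists_right (hH.fam hP hl' hct' hR.le) (a := a')
    ((hco.over_left).congr fun q hq => by
      simp only [seg, sub_zero, one_smul, zero_smul, add_zero]
      exact dF_congr ((eventually_ne (core_ne hq)).mono fun y hy => (hH.pb_zero lam' hy).symm))
  refine nr_pull hP hR hH hl' hct' hab' ?_
  have hcy : ∀ q ∈ core P, nz P (H 1 (q, 0)) ∈ Cyl P R := fun q hq =>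
    nz_mem_Cyl hP (hE.ne _ (core_ne hq))
      (hH.rad_le h1 (core_ne hq) ((core_rad hq).trans_le hR.le))
  have hmj : ∀ q ∈ core P, jet mu q = om0 F := fun q hq => (hnear.jet_eq hq).trans (hj q hq)
  have hΘ : ∀ q ∈ core P, (Kq P (H 1) q).IsInvertible ∧
      ‖pbB (Kq P (H 1) q).inverse (om0 F) - dF lam (nz P (H 1 (q, 0)))‖ ≤ δ := by
    intro q hq
    obtain ⟨D, ha, he, hn⟩ := hD (q, 0) (core_ne hq) ((core_rad hq).trans_le hR.le)
    obtain ⟨e1, e2⟩ := DescB_theta hP hE hl hq ha ((hmj q hq).symm.trans he)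
    exact ⟨e1, e2.trans_le hn⟩
  obtain ⟨Θ, hΘd⟩ : ∃ Θ : F → Bil (F × F),
    Θ = fun q => pbB (Kq P (H 1) q).inverse (om0 F) := ⟨_, rfl⟩
  have hΘK : ∀ q ∈ core P, pbB (Kq P (H 1) q) (Θ q) = om0 F := fun q hq => by
    rw [hΘd, ← pbB_comp, (hΘ q hq).1.inverse_comp_self, pbB_id]
  have hΘn : ∀ q ∈ core P, ‖Θ q - dF lam (nz P (H 1 (q, 0)))‖ ≤ δ := fun q hq => by
    rw [hΘd]
    exact (hΘ q hq).2
  have hΘa : ∀ q u, Θ q u u = 0 := fun q u => by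
    simp only [hΘd, pbB_apply]
    exact nd_om0.1 ((Kq P (H 1) q).inverse u) trivial
  have hΘs : ∀ q ∈ core P, ContDiffAt ℝ ∞ Θ q := fun q hq => by
    rw [hΘd]
    exact DescB_th hE hq (hΘ q hq).1
  have hΘc : ∀ q ∈ core P, ‖Θ q - dF cen (nz P (H 1 (q, 0)))‖ ≤ δf := fun q hq =>
    (norm_sub_le_norm_sub_add_norm_sub (Θ q) (dF lam (nz P (H 1 (q, 0)))) _).trans
      ((add_le_add (hΘn q hq) (hn _ (hcy q hq))).trans hm1)
  have hgd : ∀ a : Lf P, Co (seg (jet (pb (H 1) lam')) fun _ => om0 F) a (bas P) →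
      Gd P R tgt a := fun a ha =>
    DescB_gd hie hleg hP hR hb hE hl' (δ := δf) (𝒢 := 𝒢) (Θ := Θ)
      (w := fun q => dF cen (nz P (H 1 (q, 0))))
      (fun q hq Ω h2 h3 => (h𝒢 _ (mem_image_of_mem _ (hcy q hq)) (Kq P (H 1) q) (Θ q) Ω (hΘc q hq)
        h2 (hΘa q) h3 (hΘK q hq)).2)
      hΘs hΘa hΘK hΘc (fun q hq => (hn' _ (hcy q hq)).trans (by linarith)) ha
  refine hgd b' ?_ _ (hE.adm hP hl') (hH.ct hP hl' hct' h1) hab'.over_right
  refine DescB_tri (hE.adm hP hl).contOn_jet (hE.adm hP hl').contOn_jet hmj ?_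
    (DescB_sq hR hH hl hl' htf hco hab hab') hb0
  intro u hu v hv q hq
  rw [jet_pb_Kq hP hE hl hq, jet_pb_Kq hP hE hl' hq, ← hΘK q hq, ← pbB_sub, ← pbB_smul,
    ← pbB_smul, ← pbB_smul, ← pbB_add, ← pbB_add]
  refine nd_pbB (hΘ q hq).1.injective (hun _ (mem_image_of_mem _ (hcy q hq)) _
    (fun u => by simp [hΘa, dF_alt]) ?_)
  rw [add_sub_right_comm]
  refine (norm_add_le _ _).trans ((add_le_add (hseg u hu _ (hcy q hq)) ?_).trans hm2)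
  rw [norm_smul, Real.norm_of_nonneg hv.1]
  exact (mul_le_of_le_one_left (norm_nonneg _) hv.2).trans (hΘn q hq)

end Pool.Agent.Lib.MP_ccffa6_gt.ELI
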