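import Pool.Agent.Lib.MP_ccffa6_gt.ELI.DescB

/-!
The descent along a family of contact forms.
-/

open Set Filter Topology
open scoped ContDiff RealInnerProductSpace

noncomputable section

namespace Pool.Agent.Lib.MP_ccffa6_gt.ELI

variable {F : Type} [NormedAddCommGroup F] [InnerProductSpace ℝ F] [FiniteDimensional ℝ F]
  {P : F →L[ℝ] F} {R : ℝ} {tgt : Form1 (F × F)}

theorem DescC_mem {s s' t : ℝ} (hs : s ∈ Icc (0 : ℝ) 1) (hs' : s' ∈ Icc (0 : ℝ) 1)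
    (ht : t ∈ Icc (0 : ℝ) 1) : (1 - t) • s + t • s' ∈ Icc (0 : ℝ) 1 :=
  convex_Icc (0 : ℝ) 1 hs hs' (Co_rev ht).1 ht.1 (by ring)

theorem DescC_cont {G X : Type} [NormedAddCommGroup G] [NormedSpace ℝ G] [TopologicalSpace X]
    {C : Set X} {J : ℝ → X → G}
    (hJ : ContinuousOn (fun z : ℝ × X => J z.1 z.2) (Icc 0 1 ×ˢ C)) {s s' : ℝ}
    (hs : s ∈ Icc (0 : ℝ) 1) (hs' : s' ∈ Icc (0 : ℝ) 1) :
    ContinuousOn (fun z : (ℝ × ℝ) × X => (1 - z.1.2) • J ((1 - z.1.1) • s' + z.1.1 • s) z.2 +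
      z.1.2 • ((1 - z.1.1) • J s' z.2 + z.1.1 • J s z.2))
      ((Icc (0 : ℝ) 1 ×ˢ Icc (0 : ℝ) 1) ×ˢ C) := by
  have h1 : ∀ p : ℝ → ℝ, Continuous p → MapsTo p (Icc 0 1) (Icc 0 1) →
      ContinuousOn (fun z : (ℝ × ℝ) × X => J (p z.1.1) z.2)
        ((Icc (0 : ℝ) 1 ×ˢ Icc (0 : ℝ) 1) ×ˢ C) := fun p hp hm =>
    hJ.comp (f := fun z : (ℝ × ℝ) × X => (p z.1.1, z.2)) (by fun_prop)
      fun z hz => ⟨hm hz.1.1, hz.2⟩
  have h2 := h1 (fun t => (1 - t) • s' + t • s) (by fun_prop) fun t ht => DescC_mem hs' hs ht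
  have h3 := h1 (fun _ => s') continuous_const fun _ _ => hs'
  have h4 := h1 (fun _ => s) continuous_const fun _ _ => hs
  exact (ContinuousOn.smul (by fun_prop) h2).add (ContinuousOn.smul (by fun_prop)
    ((ContinuousOn.smul (by fun_prop) h3).add (ContinuousOn.smul (by fun_prop) h4)))

theorem DescC_unif {G Y : Type} [NormedAddCommGroup G] [PseudoMetricSpace Y] {K : Set Y}
    (hK : IsCompact K) {f : ℝ → Y → G}
    (hf : ContinuousOn (fun z : ℝ × Y => f z.1 z.2) (Icc 0 1 ×ˢ K)) {δ s₀ : ℝ} (hδ : 0 < δ)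
    (hs₀ : s₀ ∈ Icc (0 : ℝ) 1) : ∃ η > 0, ∀ s ∈ Icc (0 : ℝ) 1, s ∈ Metric.ball s₀ η →
      ∀ y ∈ K, ‖f s y - f s₀ y‖ ≤ δ := by
  obtain ⟨η, hη, hcl⟩ := Metric.uniformContinuousOn_iff.1
    ((isCompact_Icc.prod hK).uniformContinuousOn_of_continuous hf) δ hδ
  refine ⟨η, hη, fun s hs hs' y hy => ?_⟩
  have h1 := hcl (s, y) ⟨hs, hy⟩ (s₀, y) ⟨hs₀, hy⟩ (by
    rw [dist_prod_same_right]
    exact hs')
  rw [dist_eq_norm] at h1
  exact h1.le

theorem DescC_ball {G : Type} [NormedAddCommGroup G] [NormedSpace ℝ G] {a b w : G} {ε t : ℝ}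
    (ha : ‖a - w‖ ≤ ε) (hb : ‖b - w‖ ≤ ε) (ht : t ∈ Icc (0 : ℝ) 1) :
    ‖(1 - t) • a + t • b - w‖ ≤ ε := by
  rw [← mem_closedBall_iff_norm] at ha hb ⊢
  exact convex_closedBall w ε ha hb (Co_rev ht).1 ht.1 (by ring)

theorem DescC_same {G : Type} [AddCommGroup G] [Module ℝ G] (a : G) (t : ℝ) :
    (1 - t) • a + t • a = a := by
  rw [← add_smul, sub_add_cancel, one_smul]

/-- A short path of fields may be replaced by the straight segment. -/
theorem DescC_seg {X V : Type} [TopologicalSpace X] [NormedAddCommGroup V] [NormedSpace ℝ V]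
    {C : Set X} {x₀ : NDsp C V} {J : ℝ → X → Bil V} (hJ : Fam (Icc (0 : ℝ) 1) C J) {s s' : ℝ}
    (hs : s ∈ Icc (0 : ℝ) 1) (hs' : s' ∈ Icc (0 : ℝ) 1) {w : X → Bil V} {ε : ℝ}
    (hε : ∀ q ∈ C, ∀ w' : Bil V, (∀ u, w' u u = 0) → ‖w' - w q‖ ≤ ε → ND ⊤ w')
    (hcl : ∀ t ∈ Icc (0 : ℝ) 1, ∀ q ∈ C, ‖J ((1 - t) • s' + t • s) q - w q‖ ≤ ε)
    {a a' : Lift x₀} (h : Co (fun t => J ((1 - t) • s' + t • s)) a a') :
    Co (seg (J s') (J s)) a a' := by
  have hK : Fam (Icc (0 : ℝ) 1 ×ˢ Icc (0 : ℝ) 1) C fun (z : ℝ × ℝ) q =>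
      (1 - z.2) • J ((1 - z.1) • s' + z.1 • s) q + z.2 • ((1 - z.1) • J s' q + z.1 • J s q) := by
    refine ⟨DescC_cont (G := Bil V) (J := J) hJ.cont hs hs', fun z hz q hq => hε q hq _ (fun u => ?_) ?_⟩
    · have h1 := (hJ.nd _ (DescC_mem hs' hs hz.1) q hq).1 u trivial
      have h2 := (hJ.nd _ hs' q hq).1 u trivial
      have h3 := (hJ.nd _ hs q hq).1 u trivial
      simp only [add_apply, smul_apply, h1, h2, h3, smul_zero, add_zero]
    · have h2 := hcl 0 (by simp) q hq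
      have h3 := hcl 1 (by simp) q hq
      simp only [sub_zero, one_smul, zero_smul, add_zero, sub_self, zero_add] at h2 h3
      exact DescC_ball (G := Bil V) (hcl _ hz.1 q hq) (DescC_ball (G := Bil V) h2 h3 hz.1) hz.2
  have h1 := (Co.homot hK (a := a) (a' := a')
    (fun σ _ q _ => by
      ext u v
      simp only [add_apply, smul_apply, sub_zero, one_smul, zero_smul, add_zero, DescC_same])
    (fun σ _ q _ => by
      ext u v
      simp only [add_apply, smul_apply, sub_zero, one_smul, zero_smul, add_zero, sub_self,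
        zero_add, DescC_same])).1
    (h.congr fun t _ q _ => by
      ext u v
      simp only [add_apply, smul_apply, sub_zero, one_smul, zero_smul, add_zero])
  refine h1.congr fun t _ q _ => ?_
  ext u v
  simp only [seg, add_apply, smul_apply, sub_self, one_smul, zero_smul, zero_add]

/-- Descent along the family, by connectedness of the parameter interval. -/
theorem descent (hie : IEStmt F) (hleg : LegStmt P) (hP : IsOP P) (hR : 0 < R)
    (hb : Gd P R tgt (bas P)) (hj : ∀ q ∈ core P, jet tgt q = om0 F) {fam : ℝ → Form1 (F × F)}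
    (hadm : ∀ s ∈ Icc (0 : ℝ) 1, Adm P (fam s)) (hct : ∀ s ∈ Icc (0 : ℝ) 1, Ct P R (fam s))
    (hc : ContinuousOn (fun z : ℝ × (F × F) => dF (fam z.1) z.2) (Icc 0 1 ×ˢ {y | P y.1 ≠ 0}))
    {a₀ a₁ : Lf P} (hco : Co (fun s => jet (fam s)) a₀ a₁) (h : Nr P R tgt (fam 1) a₁) :
    Nr P R tgt (fam 0) a₀ := by
  have hK : Fam (Icc (0 : ℝ) 1) (core P) fun s => jet (fam s) := hco.fam isCompact_core
  have z1 : (1 : ℝ) ∈ Icc (0 : ℝ) 1 := by simp
  let p : ℝ → Prop := fun s => ∀ b : Lf P,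
    Co (fun τ => jet (fam ((1 - τ) • s + τ • (1 : ℝ)))) b a₁ → Nr P R tgt (fam s) b
  have hne : ∀ y ∈ Cyl P R, P y.1 ≠ 0 := fun y hy => by
    rw [← norm_ne_zero_iff]
    exact hy.1.trans_ne one_ne_zero
  have loc : ∀ s₀ ∈ Icc (0 : ℝ) 1, ∃ η > 0, ∀ s ∈ Icc (0 : ℝ) 1, ∀ s' ∈ Icc (0 : ℝ) 1,
      s ∈ Metric.ball s₀ η → s' ∈ Metric.ball s₀ η → p s → p s' := by
    intro s₀ hs₀
    obtain ⟨δ, hδ, hstep⟩ := near_step hie hleg hP hR hb hj (hadm s₀ hs₀) (hct s₀ hs₀)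
    obtain ⟨ε, hε, hnd⟩ := nd_unif (isCompact_core.image_of_continuousOn (hadm s₀ hs₀).contOn_jet)
      (by
        rintro _ ⟨q, hq, rfl⟩
        exact hK.nd s₀ hs₀ q hq)
    obtain ⟨η, hη, hcl'⟩ := DescC_unif (G := Bil (F × F)) (f := fun s y => dF (fam s) y)
      (isCompact_Cyl (P := P) R) (hc.mono (prod_mono subset_rfl hne)) (lt_min hδ hε) hs₀
    refine ⟨η, hη, fun s hs s' hs' hb₁ hb₂ hp b' hb' => ?_⟩
    have hF : Fam (Icc (0 : ℝ) 1) (core P) fun t => jet (fam ((1 - t) • s' + t • s)) :=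
      ⟨hK.cont.comp (f := fun z : ℝ × F => ((1 - z.1) • s' + z.1 • s, z.2)) (by fun_prop)
        fun z hz => ⟨DescC_mem hs' hs hz.1, hz.2⟩,
        fun t ht q hq => hK.nd _ (DescC_mem hs' hs ht) q hq⟩
    obtain ⟨b, hbb⟩ := Co.exists_right hF (a := b') (by simpa using hb'.over_left)
    have h1 : Co (fun t => jet (fam ((1 - t) • s + t • s'))) b b' :=
      hbb.symm.congr fun t _ q _ => by rw [sub_sub_cancel, add_comm]
    have h2 := hp b (Co.tri (convex_Icc 0 1) hK hs hs' z1 h1 hb')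
    refine hstep (fam s) (fam s') (hadm s hs) (hadm s' hs')
      (fun y hy => (hcl' s hs hb₁ y hy).trans (min_le_left _ _))
      (fun y hy => (hcl' s' hs' hb₂ y hy).trans (min_le_left _ _)) b b' ?_ h2
    exact DescC_seg hK hs hs' (w := jet (fam s₀)) (fun q hq => hnd _ ⟨q, hq, rfl⟩)
      (fun t ht q hq => (hcl' _ (DescC_mem hs' hs ht)
        (convex_ball s₀ η hb₂ hb₁ (Co_rev ht).1 ht.1 (by ring)) _
        (core_mem_Cyl hq hR.le)).trans (min_le_right _ _)) hbb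
  have key : p 1 → p 0 := by
    refine isPreconnected_Icc.induction₂' (fun s s' => p s → p s') (fun s hs => ?_)
      (fun _ _ _ _ _ _ h₁ h₂ => h₂ ∘ h₁) z1 (by simp)
    obtain ⟨η, hη, hl⟩ := loc s hs
    filter_upwards [self_mem_nhdsWithin, mem_nhdsWithin_of_mem_nhds (Metric.ball_mem_nhds s hη)]
      with s' h₁ h₂
    exact ⟨hl s hs s' h₁ (Metric.mem_ball_self hη) h₂, hl s' h₁ s hs h₂ (Metric.mem_ball_self hη)⟩
  refine key (fun b hb' => ?_) a₀ (hco.congr fun t _ q _ => by simp)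
  have h1 : Co (fun τ : ℝ => jet (fam ((1 - τ) • (1 : ℝ) + τ • (1 : ℝ)))) a₁ a₁ :=
    Co.refl fun t _ => by
      rw [DescC_same]
      exact hco.over_right
  rwa [hb'.unique_left h1]

end Pool.Agent.Lib.MP_ccffa6_gt.ELI
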