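import Pool.Agent.Lib.MP_ccffa6_gt.P.SBDef

/-! Relative homotopies of fields of nondegenerate two-forms on a fixed vector space. -/

set_option maxSynthPendingDepth 3

open Set Filter Topology

noncomputable section

namespace Pool.Agent.Lib.MP_ccffa6_gt.ELI

open P

variable {F U U' : Type} [TopologicalSpace F] [NormedAddCommGroup U] [NormedSpace ℝ U]
  [NormedAddCommGroup U'] [NormedSpace ℝ U']

/-- Homotopy of nondegenerate fields on `X`, constant over `Y`. -/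
def Rel (X Y : Set F) (w₀ w₁ : F → Bil U) : Prop :=
  ∃ H : ℝ × F → Bil U, NDField (Icc (0 : ℝ) 1 ×ˢ X) (fun _ => ⊤) H ∧
    (∀ x ∈ X, H (0, x) = w₀ x ∧ H (1, x) = w₁ x) ∧
    ∀ t ∈ Icc (0 : ℝ) 1, ∀ y ∈ X, y ∈ Y → H (t, y) = w₀ y

theorem ds_alt {w : Bil U} (h : ND ⊤ w) (u v : U) : w u v = -w v u := by
  have h1 := h.1 (u + v) trivial
  have h2 := h.1 u trivial
  have h3 := h.1 v trivial
  simp only [map_add, add_apply] at h1
  linarith

theorem ds_cont_wg {X : Set F} {a b : F → U →L[ℝ] ℝ} (ha : ContinuousOn a X)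
    (hb : ContinuousOn b X) : ContinuousOn (fun p => wg (a p) (b p)) X := by
  have h : ∀ {a b : F → U →L[ℝ] ℝ}, ContinuousOn a X → ContinuousOn b X →
      ContinuousOn (fun p => (a p).smulRight (b p)) X := fun {a b} ha hb =>
    ((ContinuousLinearMap.smulRightL ℝ U (U →L[ℝ] ℝ)).continuous.comp_continuousOn ha).clm_apply hb
  exact (h ha hb).sub (h hb ha)

theorem ds_cont_bp {X : Set F} (A : U →L[ℝ] U') {w : F → Bil U'} (h : ContinuousOn w X) :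
    ContinuousOn (fun p => bp A (w p)) X := by
  have e : (fun p => bp A (w p)) = fun p =>
      (((ContinuousLinearMap.compL ℝ U U' ℝ).flip A).comp (w p)).comp A := by
    funext p; ext u v; simp
  rw [e]
  exact (continuousOn_const.clm_comp h).clm_comp continuousOn_const

variable {X Y : Set F} {w₀ w₁ w₂ : F → Bil U}

theorem Rel.nd₀ (h : Rel X Y w₀ w₁) : NDField X (fun _ => ⊤) w₀ := by
  obtain ⟨H, hH, h0, -⟩ := h
  refine ⟨ContinuousOn.congr (hH.cont.comp (f := fun x => ((0 : ℝ), x)) (by fun_prop)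
    fun x hx => ⟨by simp, hx⟩) fun x hx => (h0 x hx).1.symm, fun x hx => ?_⟩
  rw [← (h0 x hx).1]
  exact hH.nd (0, x) ⟨by simp, hx⟩

theorem Rel.nd₁ (h : Rel X Y w₀ w₁) : NDField X (fun _ => ⊤) w₁ := by
  obtain ⟨H, hH, h0, -⟩ := h
  refine ⟨ContinuousOn.congr (hH.cont.comp (f := fun x => ((1 : ℝ), x)) (by fun_prop)
    fun x hx => ⟨by simp, hx⟩) fun x hx => (h0 x hx).2.symm, fun x hx => ?_⟩
  rw [← (h0 x hx).2]
  exact hH.nd (1, x) ⟨by simp, hx⟩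

theorem Rel.eq_on (h : Rel X Y w₀ w₁) {y : F} (hy : y ∈ X) (hy' : y ∈ Y) : w₁ y = w₀ y := by
  obtain ⟨H, -, h0, h1⟩ := h
  rw [← (h0 y hy).2, h1 1 (by simp) y hy hy']

theorem Rel.refl (h : NDField X (fun _ => ⊤) w₀) (Y : Set F) : Rel X Y w₀ w₀ :=
  ⟨fun q => w₀ q.2, ⟨h.cont.comp continuousOn_snd fun _ hq => hq.2, fun q hq => h.nd q.2 hq.2⟩,
    fun _ _ => ⟨rfl, rfl⟩, fun _ _ _ _ _ => rfl⟩

theorem Rel.congr {v₀ v₁ : F → Bil U} (h : Rel X Y w₀ w₁) (e₀ : ∀ x ∈ X, v₀ x = w₀ x)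
    (e₁ : ∀ x ∈ X, v₁ x = w₁ x) : Rel X Y v₀ v₁ := by
  obtain ⟨H, hH, h0, h1⟩ := h
  exact ⟨H, hH, fun x hx => by rw [e₀ x hx, e₁ x hx]; exact h0 x hx,
    fun t ht y hy hy' => by rw [e₀ y hy]; exact h1 t ht y hy hy'⟩

theorem Rel.mono {Y' : Set F} (h : Rel X Y w₀ w₁) (e : ∀ y ∈ X, y ∈ Y' → y ∈ Y) :
    Rel X Y' w₀ w₁ := by
  obtain ⟨H, hH, h0, h1⟩ := h
  exact ⟨H, hH, h0, fun t ht y hy hy' => h1 t ht y hy (e y hy hy')⟩

theorem Rel.symm (h : Rel X Y w₀ w₁) : Rel X Y w₁ w₀ := by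
  have he := fun y hy hy' => h.eq_on (y := y) hy hy'
  obtain ⟨H, hH, h0, h1⟩ := h
  have m : ∀ t ∈ Icc (0 : ℝ) 1, 1 - t ∈ Icc (0 : ℝ) 1 := fun t ht =>
    ⟨by linarith [ht.2], by linarith [ht.1]⟩
  refine ⟨fun q => H (1 - q.1, q.2), ⟨hH.cont.comp (by fun_prop) fun q hq => ⟨m _ hq.1, hq.2⟩,
    fun q hq => hH.nd _ ⟨m _ hq.1, hq.2⟩⟩, fun x hx => ?_, fun t ht y hy hy' => ?_⟩
  · simpa using ⟨(h0 x hx).2, (h0 x hx).1⟩
  · rw [he y hy hy']
    exact h1 _ (m t ht) y hy hy'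

theorem Rel.trans (h : Rel X Y w₀ w₁) (h' : Rel X Y w₁ w₂) : Rel X Y w₀ w₂ := by
  have he := fun y hy hy' => h.eq_on (y := y) hy hy'
  obtain ⟨H, hH, h0, h1⟩ := h
  obtain ⟨G, hG, g0, g1⟩ := h'
  have m1 : ∀ t ∈ Icc (0 : ℝ) 1, min (2 * t) 1 ∈ Icc (0 : ℝ) 1 := fun t ht =>
    ⟨le_min (by linarith [ht.1]) zero_le_one, min_le_right _ _⟩
  have m2 : ∀ t ∈ Icc (0 : ℝ) 1, max (2 * t - 1) 0 ∈ Icc (0 : ℝ) 1 := fun t ht =>
    ⟨le_max_right _ _, max_le (by linarith [ht.2]) zero_le_one⟩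
  have key : ∀ t : ℝ, ∀ x ∈ X, H (min (2 * t) 1, x) + G (max (2 * t - 1) 0, x) - w₁ x =
      if t ≤ 1 / 2 then H (min (2 * t) 1, x) else G (max (2 * t - 1) 0, x) := by
    intro t x hx
    split_ifs with ht
    · rw [max_eq_right (by linarith), (g0 x hx).1]; abel
    · rw [min_eq_right (by linarith), (h0 x hx).2]; abel
  have c1 : ContinuousOn w₁ X := (Rel.nd₀ ⟨G, hG, g0, g1⟩).cont
  refine ⟨fun q => H (min (2 * q.1) 1, q.2) + G (max (2 * q.1 - 1) 0, q.2) - w₁ q.2,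
    ⟨((hH.cont.comp (f := fun q : ℝ × F => (min (2 * q.1) 1, q.2)) (by fun_prop)
      fun q hq => ⟨m1 _ hq.1, hq.2⟩).add
      (hG.cont.comp (f := fun q : ℝ × F => (max (2 * q.1 - 1) 0, q.2)) (by fun_prop)
      fun q hq => ⟨m2 _ hq.1, hq.2⟩)).sub
      (c1.comp continuousOn_snd fun q hq => hq.2), fun q hq => ?_⟩, fun x hx => ⟨?_, ?_⟩,
    fun t ht y hy hy' => ?_⟩
  · rw [key _ _ hq.2]
    split_ifs
    · exact hH.nd _ ⟨m1 _ hq.1, hq.2⟩
    · exact hG.nd _ ⟨m2 _ hq.1, hq.2⟩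
  · simp only [key _ _ hx]
    norm_num [(h0 x hx).1]
  · simp only [key _ _ hx]
    norm_num [(g0 x hx).2]
  · simp only []
    rw [h1 _ (m1 t ht) y hy hy', g1 _ (m2 t ht) y hy hy']
    abel

/-- A straight segment of nondegenerate forms. -/
theorem rel_of_segment (h₀ : ContinuousOn w₀ X) (h₁ : ContinuousOn w₁ X)
    (nd : ∀ t ∈ Icc (0 : ℝ) 1, ∀ x ∈ X, ND ⊤ (w₀ x + t • (w₁ x - w₀ x)))
    (e : ∀ y ∈ X, y ∈ Y → w₁ y = w₀ y) : Rel X Y w₀ w₁ := by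
  have a₀ : ContinuousOn (fun q : ℝ × F => w₀ q.2) (Icc (0 : ℝ) 1 ×ˢ X) :=
    h₀.comp continuousOn_snd fun _ hq => hq.2
  have a₁ : ContinuousOn (fun q : ℝ × F => w₁ q.2) (Icc (0 : ℝ) 1 ×ˢ X) :=
    h₁.comp continuousOn_snd fun _ hq => hq.2
  refine ⟨fun q => w₀ q.2 + q.1 • (w₁ q.2 - w₀ q.2), ⟨a₀.add (continuousOn_fst.smul (a₁.sub a₀)),
    fun q hq => nd _ hq.1 _ hq.2⟩, fun x _ => by simp, fun t _ y hy hy' => by simp [e y hy hy']⟩

/-- Transport along a map of forms which is continuous and keeps nondegeneracy. -/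
theorem Rel.map {Φ : Bil U → Bil U'} (hΦ : Continuous Φ) (nd : ∀ w, ND ⊤ w → ND ⊤ (Φ w))
    (h : Rel X Y w₀ w₁) : Rel X Y (fun x => Φ (w₀ x)) fun x => Φ (w₁ x) := by
  obtain ⟨H, hH, h0, h1⟩ := h
  exact ⟨fun q => Φ (H q), ⟨hΦ.comp_continuousOn hH.cont, fun q hq => nd _ (hH.nd q hq)⟩,
    fun x hx => by simp only [(h0 x hx).1, (h0 x hx).2, and_self],
    fun t ht y hy hy' => by simp only [h1 t ht y hy hy']⟩

theorem ds_nd_move {w : Bil U} (h : ND ⊤ w) {d : U →L[ℝ] ℝ} {z : U} (hz : 1 + d z ≠ 0) :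
    ND ⊤ (w + wg (-w z) d) := by
  refine ⟨fun u _ => ?_, fun u _ hu => ?_⟩
  · simp [h.1 u trivial, mul_comm]
  · have h1 := hu z trivial
    have hzz := h.1 z trivial
    have hzu : w z u = 0 := by
      have a := ds_alt h u z
      simp only [add_apply, wg_apply, neg_apply, hzz,
        a] at h1
      have : w z u * (1 + d z) = 0 := by linarith
      exact (mul_eq_zero.1 this).resolve_right hz
    have h2 : u + d u • z = 0 := by
      refine h.2 _ trivial fun v _ => ?_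
      have := hu v trivial
      simp only [add_apply, wg_apply, neg_apply,
        hzu] at this
      simp only [map_add, map_smul, add_apply, smul_apply,
        smul_eq_mul]
      linarith
    have h3 : d u * (1 + d z) = 0 := by
      have := congrArg d h2
      simp only [map_add, map_smul, smul_eq_mul, map_zero] at this
      linarith
    have h4 : d u = 0 := (mul_eq_zero.1 h3).resolve_right hz
    simpa [h4] using h2

end Pool.Agent.Lib.MP_ccffa6_gt.ELI
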