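import Pool.Agent.Lib.MP_ccffa6_gt.ELI.Ds1

/-! One step of destabilisation. -/

set_option maxSynthPendingDepth 3

open Set Filter Topology

noncomputable section

namespace Pool.Agent.Lib.MP_ccffa6_gt.ELI

open P

variable {U U' : Type} [NormedAddCommGroup U] [NormedSpace ℝ U] [NormedAddCommGroup U']
  [NormedSpace ℝ U']

/-- The covector `w e` can be moved to `ψ` if both are positive on a common vector. -/
theorem ds_move {F : Type} [MetricSpace F] {X : Set F} {w : F → Bil U}
    (hw : NDField X (fun _ => ⊤) w) (e : U) {ψ : F → U →L[ℝ] ℝ} (hψ : ContinuousOn ψ X)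
    (he : ∀ x ∈ X, ψ x e = 0) (ex : ∀ x ∈ X, ∃ z, 0 < w x e z ∧ 0 < ψ x z) :
    ∃ w' : F → Bil U, Rel X {y | ψ y = w y e} w w' ∧ ∀ x ∈ X, w' x e = ψ x := by
  have cφ : ContinuousOn (fun x => w x e) X := hw.cont.clm_apply continuousOn_const
  obtain ⟨g, hg⟩ := exists_continuous_forall_mem_convex_of_local_const (X := X) (E := U)
    (t := fun x => {z | 0 < w x e z} ∩ {z | 0 < ψ x z})
    (fun x => (convex_halfSpace_gt (w x e : U →ₗ[ℝ] ℝ).isLinear 0).inter
      (convex_halfSpace_gt (ψ x : U →ₗ[ℝ] ℝ).isLinear 0)) (fun x => by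
      obtain ⟨z, h1, h2⟩ := ex x x.2
      have c1 : Continuous fun y : X => w y e z := (cφ.clm_apply continuousOn_const).domRestrict
      have c2 : Continuous fun y : X => ψ y z := (hψ.clm_apply continuousOn_const).domRestrict
      exact ⟨z, ((isOpen_lt continuous_const c1).eventually_mem h1).and
        ((isOpen_lt continuous_const c2).eventually_mem h2)⟩)
  classical
  let G : F → U := fun x => if h : x ∈ X then g ⟨x, h⟩ else 0
  have cG : ContinuousOn G X := by
    refine continuousOn_iff_continuous_domRestrict.2 (g.continuous.congr fun x => ?_)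
    show g x = G x
    simp [G]
  have hG : ∀ x ∈ X, 0 < w x e (G x) ∧ 0 < ψ x (G x) := fun x hx => by
    simpa [G, hx] using hg ⟨x, hx⟩
  let z : F → U := fun x => (w x e (G x))⁻¹ • G x
  have cz : ContinuousOn z X :=
    ((cφ.clm_apply cG).inv₀ fun x hx => (hG x hx).1.ne').smul cG
  have z1 : ∀ x ∈ X, w x e (z x) = 1 := fun x hx => by
    simp [z, (hG x hx).1.ne']
  have z2 : ∀ x ∈ X, 0 < ψ x (z x) := fun x hx => by
    simp only [z, map_smul, smul_eq_mul]
    exact mul_pos (inv_pos.2 (hG x hx).1) (hG x hx).2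
  refine ⟨fun x => w x + wg (-w x (z x)) (ψ x - w x e), rel_of_segment hw.cont
    (hw.cont.add (ds_cont_wg (hw.cont.clm_apply cz).neg (hψ.sub cφ))) (fun t ht x hx => ?_)
    (fun y _ hy => ?_), fun x hx => ?_⟩
  · have := ds_nd_move (hw.nd x hx) (d := t • (ψ x - w x e)) (z := z x) (by
      simp only [smul_apply, sub_apply, z1 x hx, smul_eq_mul]
      rcases ht.1.eq_or_lt with h | h
      · simp [← h]
      · nlinarith [mul_pos h (z2 x hx), ht.2])
    convert this using 1
    ext u v
    simp only [add_apply, smul_apply, sub_apply, wg_apply, neg_apply, smul_eq_mul]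
    ring
  · have hy' : ψ y = w y e := hy
    ext u v
    simp [hy']
  · ext v
    have a := ds_alt (hw.nd x hx) (z x) e
    simp only [add_apply, wg_apply, neg_apply, sub_apply, a, z1 x hx, he x hx,
      (hw.nd x hx).1 e trivial]
    ring

/-- `U = i U' ⊕ ℝ e ⊕ ℝ f` with dual data. -/
structure Split (i : U' →L[ℝ] U) (p : U →L[ℝ] U') (e f : U) (a b : U →L[ℝ] ℝ) : Prop where
  dec : ∀ u, u = i (p u) + a u • e + b u • f
  pi : ∀ v, p (i v) = v
  pe : p e = 0
  pf : p f = 0
  ai : ∀ v, a (i v) = 0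
  bi : ∀ v, b (i v) = 0
  ae : a e = 1
  af : a f = 0
  be : b e = 0
  bf : b f = 1

variable {i : U' →L[ℝ] U} {p : U →L[ℝ] U'} {e f : U} {a b : U →L[ℝ] ℝ}

theorem Split.nd_of (s : Split i p e f a b) {w : Bil U} (alt : ∀ u, w u u = 0)
    (he : w e = b) (nd : ND ⊤ (bp i w)) : ND ⊤ w := by
  refine ⟨fun u _ => alt u, fun u _ hu => ?_⟩
  have sk : ∀ u v, w u v = -w v u := fun u v => by
    have h1 := alt (u + v)
    simp only [map_add, add_apply, alt u, alt v] at h1
    linarith
  have hb : b u = 0 := by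
    have := hu e trivial
    rw [sk, he] at this
    linarith
  have hd := s.dec u
  rw [hb, zero_smul, add_zero] at hd
  have hp : p u = 0 := nd.2 _ trivial fun v _ => by
    have := hu (i v) trivial
    rw [hd] at this
    simpa [he, s.bi] using this
  rw [hp, map_zero, zero_add] at hd
  have := hu f trivial
  rw [hd] at this
  simp only [map_smul, smul_apply, he, s.bf, smul_eq_mul, mul_one] at this
  rw [hd, this, zero_smul]

theorem Split.nd_res (s : Split i p e f a b) {w : Bil U} (nd : ND ⊤ w) (he : w e = b) :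
    ND ⊤ (bp i w) := by
  refine ⟨fun u _ => nd.1 _ trivial, fun v _ hv => ?_⟩
  have h : i v - w (i v) f • e = 0 := nd.2 _ trivial fun u _ => by
    have h1 := hv (p u) trivial
    have h2 : w (i v) e = 0 := by rw [ds_alt nd, he, s.bi, neg_zero]
    rw [bp_apply] at h1
    have h3 : w (i v) u = b u * w (i v) f := by
      conv_lhs => rw [s.dec u]
      simp [h1, h2]
    simp only [map_sub, map_smul, sub_apply, smul_apply, he, h3, smul_eq_mul]
    ring
  have := congrArg p h
  simpa [s.pi, s.pe] using this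

theorem Split.nd_sum (s : Split i p e f a b) {w : Bil U'} (nd : ND ⊤ w) :
    ND ⊤ (bp p w + wg a b) := by
  refine s.nd_of (fun u => ?_) ?_ ?_
  · simp [nd.1 _ trivial, mul_comm]
  · ext v; simp [s.pe, s.ae, s.be]
  · convert nd using 1
    ext u v; simp [s.pi, s.ai, s.bi]

/-- A field with `w e = b` is homotopic to a split one. -/
theorem Split.rel {F : Type} [TopologicalSpace F] {X : Set F} (s : Split i p e f a b)
    {w : F → Bil U} (hw : NDField X (fun _ => ⊤) w) (he : ∀ x ∈ X, w x e = b) :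
    Rel X {y | w y = bp p (bp i (w y)) + wg a b} w fun x => bp p (bp i (w x)) + wg a b := by
  refine rel_of_segment hw.cont ((ds_cont_bp p (ds_cont_bp i hw.cont)).add continuousOn_const)
    (fun t _ x hx => s.nd_of (fun u => ?_) ?_ ?_) fun y _ hy => hy.symm
  · simp [(hw.nd x hx).1 _ trivial, mul_comm]
  · ext v; simp [s.pe, s.ae, s.be, he x hx]
  · convert s.nd_res (hw.nd x hx) (he x hx) using 1
    ext u v; simp [s.pi, s.ai, s.bi]

/-- General position: a continuous map from a compact set into a space of larger dimension has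
small perturbations without zeros. -/
theorem ds_gp {F Z : Type} [NormedAddCommGroup F] [NormedSpace ℝ F] [FiniteDimensional ℝ F]
    [NormedAddCommGroup Z] [NormedSpace ℝ Z] [FiniteDimensional ℝ Z] {X : Set F}
    (hX : IsClosed X) {c : F → Z} (hc : ContinuousOn c X)
    (hd : Module.finrank ℝ F < Module.finrank ℝ Z) {ε : ℝ} (hε : 0 < ε) :
    ∃ c' : F → Z, Continuous c' ∧ (∀ x, c' x ≠ 0) ∧ ∀ x ∈ X, ‖c' x - c x‖ < ε := by
  obtain ⟨g, hg⟩ := ContinuousMap.exists_restrict_eq hX (⟨X.domRestrict c, hc.domRestrict⟩ : C(X, Z))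
  obtain ⟨k, hk, hk', -⟩ := g.continuous.exists_contDiff_approx 1 (ε := fun _ => ε / 2)
    continuous_const fun _ => by positivity
  obtain ⟨z, hz, hz'⟩ := (ContDiff.dense_compl_range_of_finrank_lt_finrank hk hd).exists_dist_lt 0
    (show 0 < ε / 2 by positivity)
  refine ⟨fun x => k x - z, hk.continuous.sub continuous_const,
    fun x h => hz ⟨x, sub_eq_zero.1 h⟩, fun x hx => ?_⟩
  have h1 : g x = c x := congrArg (fun m : C(X, Z) => m ⟨x, hx⟩) hg
  have h2 := hk' x
  rw [dist_eq_norm, h1] at h2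
  rw [dist_comm, dist_zero_right] at hz'
  calc ‖k x - z - c x‖ = ‖(k x - c x) - z‖ := by congr 1; abel
    _ ≤ ‖k x - c x‖ + ‖z‖ := norm_sub_le _ _
    _ < ε := by linarith

end Pool.Agent.Lib.MP_ccffa6_gt.ELI
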