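import Pool.Agent.Lib.MP_ccffa6_gt.ELI.Ds2

/-! Destabilisation of fields of nondegenerate forms; the space of such forms has at most two
components. -/

set_option maxSynthPendingDepth 3

open Set Filter Topology Module

noncomputable section

namespace Pool.Agent.Lib.MP_ccffa6_gt.ELI

open P

variable {F : Type} [NormedAddCommGroup F] [NormedSpace ℝ F] [FiniteDimensional ℝ F] {X Y : Set F}

section step

variable {U U' : Type} [NormedAddCommGroup U] [NormedSpace ℝ U] [NormedAddCommGroup U']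
  [NormedSpace ℝ U'] {i : U' →L[ℝ] U} {p : U →L[ℝ] U'} {e f : U} {a b : U →L[ℝ] ℝ}

theorem ds_pos {φ ψ : U →L[ℝ] ℝ} (h : ‖ψ - φ‖ < ‖φ‖) : ∃ z, 0 < φ z ∧ 0 < ψ z := by
  obtain ⟨z, hz, h'⟩ := φ.exists_lt_apply_of_lt_opNorm h
  have h1 : ‖(ψ - φ) z‖ ≤ ‖ψ - φ‖ :=
    ((ψ - φ).le_opNorm z).trans (mul_le_of_le_one_right (norm_nonneg _) hz.le)
  have h0 := norm_nonneg (ψ - φ)
  rw [Real.norm_eq_abs, sub_apply] at h1
  rw [Real.norm_eq_abs] at h'
  obtain ⟨h2, h3⟩ := abs_le.1 h1
  rcases lt_abs.1 h' with h4 | h4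
  · exact ⟨z, by linarith, by linarith⟩
  · exact ⟨-z, by rw [map_neg]; linarith, by rw [map_neg]; linarith⟩

/-- One step: split off the plane spanned by `e, f`. -/
theorem Split.step [FiniteDimensional ℝ U'] (s : Split i p e f a b) (hX : IsCompact X)
    (hd : finrank ℝ F < finrank ℝ U') {w : F → Bil U} (hw : NDField X (fun _ => ⊤) w)
    (hY : ∀ y ∈ X, y ∈ Y → w y = bp p (bp i (w y)) + wg a b) :
    ∃ w' : F → Bil U', NDField X (fun _ => ⊤) w' ∧ (∀ y ∈ X, y ∈ Y → w' y = bp i (w y)) ∧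
      Rel X Y w fun x => bp p (w' x) + wg a b := by
  have cφ : ContinuousOn (fun x => w x e) X := hw.cont.clm_apply continuousOn_const
  have e0 : e ≠ 0 := fun h => by simpa [h] using s.ae
  have φ0 : ∀ x ∈ X, 0 < ‖w x e‖ := fun x hx => norm_pos_iff.2 fun h =>
    e0 ((hw.nd x hx).2 e trivial fun v _ => by rw [h]; rfl)
  obtain ⟨m, hm, hm'⟩ := hX.exists_forall_le' cφ.norm φ0
  have cc : ContinuousOn (fun x => (w x e).comp i) X := cφ.clm_comp continuousOn_const
  have hd' : finrank ℝ F < finrank ℝ (U' →L[ℝ] ℝ) := by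
    rwa [← (LinearMap.toContinuousLinearMap (𝕜 := ℝ) (E := U') (F' := ℝ)).finrank_eq,
      Subspace.dual_finrank_eq]
  have hp : 0 < ‖p‖ + 1 := by positivity
  obtain ⟨c', c1, c2, c3⟩ := ds_gp hX.isClosed cc hd' (div_pos hm hp)
  let χ : F → ℝ := fun x => min 1 (max 0 (2 * (1 - w x e f)))
  have cχ : ContinuousOn χ X :=
    (show Continuous fun t : ℝ => min 1 (max 0 (2 * (1 - t))) by fun_prop).comp_continuousOn
      (cφ.clm_apply continuousOn_const)
  have χ0 : ∀ x, 0 ≤ χ x := fun x => le_min zero_le_one (le_max_left _ _)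
  let ψ : F → U →L[ℝ] ℝ := fun x => w x e + χ x • (c' x - (w x e).comp i).comp p
  have cψ : ContinuousOn ψ X :=
    cφ.add (cχ.smul ((c1.continuousOn.sub cc).clm_comp continuousOn_const))
  have yb : ∀ y ∈ X, y ∈ Y → w y e = b := fun y hy hy' => by
    rw [hY y hy hy']; ext v; simp [s.pe, s.ae, s.be]
  obtain ⟨w1, r1, h1⟩ := ds_move hw e cψ
    (fun x hx => by simp [ψ, s.pe, (hw.nd x hx).1 e trivial]) fun x hx => ds_pos (by
      have : ψ x - w x e = χ x • (c' x - (w x e).comp i).comp p := by simp [ψ]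
      rw [this, norm_smul, Real.norm_of_nonneg (χ0 x)]
      have h3 := c3 x hx
      rw [lt_div_iff₀ hp] at h3
      calc _ ≤ 1 * (‖c' x - (w x e).comp i‖ * ‖p‖) :=
            mul_le_mul (min_le_left _ _) (ContinuousLinearMap.opNorm_comp_le _ _) (norm_nonneg _)
              zero_le_one
        _ ≤ ‖c' x - (w x e).comp i‖ * (‖p‖ + 1) := by
            nlinarith [norm_nonneg (c' x - (w x e).comp i)]
        _ < _ := h3.trans_le (hm' x hx))
  have r1' : Rel X Y w w1 := r1.mono fun y hy hy' => by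
    simp [ψ, χ, yb y hy hy', s.bf]
  obtain ⟨w2, r2, h2⟩ := ds_move r1.nd₁ e (ψ := fun _ => b) continuousOn_const (fun _ _ => s.be)
    fun x hx => by
      rw [h1 x hx]
      by_cases h : 0 < w x e f
      · exact ⟨f, by simpa [ψ, s.pf] using h, by simp [s.bf]⟩
      · have h5 : χ x = 1 := min_eq_left (le_max_of_le_right (by linarith))
        obtain ⟨v, hv⟩ : ∃ v, c' x v ≠ 0 := by
          by_contra! hv
          exact c2 x (ContinuousLinearMap.ext hv)
        refine ⟨f + ((1 - w x e f) / c' x v) • i v, ?_, by simp [s.bf, s.bi]⟩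
        simp only [ψ, h5, one_smul, add_apply, map_add, map_smul, ContinuousLinearMap.comp_apply,
          s.pf, s.pi, map_zero, sub_apply, smul_eq_mul]
        have := div_mul_cancel₀ (1 - w x e f) hv
        linarith
  have r2' : Rel X Y w1 w2 := r2.mono fun y hy hy' => by
    rw [mem_setOf_eq, r1'.eq_on hy hy', yb y hy hy']
  have r12 := r1'.trans r2'
  refine ⟨fun x => bp i (w2 x), ⟨ds_cont_bp i r2.nd₁.cont, fun x hx =>
    s.nd_res (r2.nd₁.nd x hx) (h2 x hx)⟩, fun y hy hy' => by simp only [r12.eq_on hy hy'],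
    r12.trans ((s.rel r2.nd₁ h2).mono fun y hy hy' => ?_)⟩
  rw [mem_setOf_eq, r12.eq_on hy hy']
  exact hY y hy hy'

/-- The splitting defined by a symplectic pair. -/
theorem ds_split {K : Type} [NormedAddCommGroup K] [NormedSpace ℝ K] {η : Bil K} (h : ND ⊤ η)
    {e f : K} (hef : η e f = 1) : ∃ (K' : Submodule ℝ K) (p : K →L[ℝ] K'), e ∉ K' ∧
      Split K'.subtypeL p e f (-η f) (η e) ∧ η = bp p (bp K'.subtypeL η) + wg (-η f) (η e) := by
  have hfe : η f e = -1 := by rw [ds_alt h, hef]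
  have hee := h.1 e trivial
  have hff := h.1 f trivial
  let K' : Submodule ℝ K := LinearMap.ker (η e : K →ₗ[ℝ] ℝ) ⊓ LinearMap.ker (η f : K →ₗ[ℝ] ℝ)
  let q : K →L[ℝ] K := ContinuousLinearMap.id ℝ K + (η f).smulRight e - (η e).smulRight f
  have hq : ∀ u, q u ∈ K' := fun u => by
    constructor <;> simp [q, hee, hff, hef, hfe]
  refine ⟨K', q.codRestrict K' hq, fun he => ?_, ⟨fun u => ?_, fun v => ?_, ?_, ?_, fun v => ?_,
    fun v => ?_, by simp [hfe], by simp [hff], hee, hef⟩, ?_⟩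
  · have : η f e = 0 := he.2
    linarith
  · simp only [q, Submodule.subtypeL_apply, ContinuousLinearMap.coe_codRestrict_apply, sub_apply,
      add_apply, ContinuousLinearMap.id_apply, ContinuousLinearMap.smulRight_apply, neg_apply,
      neg_smul]
    abel
  · have h1 : η e v = 0 := v.2.1
    have h2 : η f v = 0 := v.2.2
    ext; simp [q, h1, h2]
  · ext; simp [q, hee, hfe]
  · ext; simp [q, hff, hef]
  · have h2 : η f v = 0 := v.2.2
    simp [h2]
  · exact v.2.1
  · ext u v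
    simp [q, hee, hff, hef, hfe, ds_alt h u e, ds_alt h u f]
    ring

end step

theorem ds_ind {V : Type} [NormedAddCommGroup V] [NormedSpace ℝ V] [FiniteDimensional ℝ V]
    (hX : IsCompact X) (hd : finrank ℝ F < finrank ℝ V) {w₀ : F → Bil V} (n : ℕ) :
    ∀ (K : Type) [NormedAddCommGroup K] [NormedSpace ℝ K] [FiniteDimensional ℝ K] (η : Bil K),
      finrank ℝ K = n → ND ⊤ η → ∀ w : F → Bil (V × K), NDField X (fun _ => ⊤) w →
      (∀ y ∈ X, y ∈ Y → w y = osum (w₀ y) η) →
      ∃ w' : F → Bil V, NDField X (fun _ => ⊤) w' ∧ (∀ y ∈ X, y ∈ Y → w' y = w₀ y) ∧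
        Rel X Y w fun x => osum (w' x) η := by
  induction n using Nat.strong_induction_on with
  | _ n ih =>
  intro K _ _ _ η hn hη w hw hY
  by_cases h0 : ∀ k : K, k = 0
  · have hk : ∀ u : V × K, u = (u.1, 0) := fun u => Prod.ext rfl (h0 _)
    refine ⟨fun x => bp (ContinuousLinearMap.inl ℝ V K) (w x), ⟨ds_cont_bp _ hw.cont,
      fun x hx => ⟨fun u _ => (hw.nd x hx).1 _ trivial, fun u _ hu => ?_⟩⟩, fun y hy hy' => ?_,
      (Rel.refl hw Y).congr (fun _ _ => rfl) fun x _ => ?_⟩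
    · have := (hw.nd x hx).2 (u, 0) trivial fun v _ => by
        rw [hk v]; exact hu v.1 trivial
      exact congrArg Prod.fst this
    · ext u v; simp [hY y hy hy']
    · refine ContinuousLinearMap.ext fun u => ContinuousLinearMap.ext fun v => ?_
      rw [hk u, hk v]; simp
  push Not at h0
  obtain ⟨e, he⟩ := h0
  obtain ⟨f, hf⟩ : ∃ f, η e f = 1 := by
    by_contra! hf
    refine he (hη.2 e trivial fun v _ => by_contra fun hv => hf ((η e v)⁻¹ • v) ?_)
    simp [hv]
  obtain ⟨K', p, hK', s, hs⟩ := ds_split hη hf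
  have hlt : finrank ℝ K' < n := hn ▸ Submodule.finrank_lt fun h => hK' (h ▸ trivial)
  let i' : V × K' →L[ℝ] V × K := (ContinuousLinearMap.id ℝ V).prodMap K'.subtypeL
  let p' : V × K →L[ℝ] V × K' := (ContinuousLinearMap.id ℝ V).prodMap p
  let a' : V × K →L[ℝ] ℝ := (-η f).comp (ContinuousLinearMap.snd ℝ V K)
  let b' : V × K →L[ℝ] ℝ := (η e).comp (ContinuousLinearMap.snd ℝ V K)
  have s' : Split i' p' (0, e) (0, f) a' b' :=
    ⟨fun u => Prod.ext (by simp [i', p']) (s.dec u.2), fun v => Prod.ext rfl (s.pi v.2),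
      Prod.ext rfl s.pe, Prod.ext rfl s.pf, fun v => s.ai v.2, fun v => s.bi v.2, s.ae, s.af, s.be,
      s.bf⟩
  have key : ∀ o : Bil V, osum o η = bp p' (osum o (bp K'.subtypeL η)) + wg a' b' := fun o => by
    refine ContinuousLinearMap.ext fun u => ContinuousLinearMap.ext fun v => ?_
    have := congrArg (fun m : Bil K => m u.2 v.2) hs
    simp only [osum_apply, add_apply, bp_apply, wg_apply] at this ⊢
    rw [this, add_assoc]
    rfl
  have key' : ∀ o : Bil V, bp i' (osum o η) = osum o (bp K'.subtypeL η) := fun o => by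
    refine ContinuousLinearMap.ext fun u => ContinuousLinearMap.ext fun v => ?_
    simp [i']
  obtain ⟨w1, n1, y1, r1⟩ := s'.step (Y := Y) hX
    (hd.trans_le (by rw [Module.finrank_prod]; omega)) hw fun y hy hy' => by
      rw [hY y hy hy', key', ← key]
  obtain ⟨w', n', y', r'⟩ := ih _ hlt K' (bp K'.subtypeL η) rfl (s.nd_res hη rfl) w1 n1
    fun y hy hy' => by rw [y1 y hy hy', hY y hy hy', key']
  refine ⟨w', n', y', r1.trans ((r'.map (Φ := fun o => bp p' o + wg a' b') ?_
    fun o ho => s'.nd_sum ho).congr (fun _ _ => rfl) fun x _ => key _)⟩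
  exact continuousOn_univ.1 ((ds_cont_bp p' continuousOn_id).add continuousOn_const)

/-- DESTABILISATION over a compact set of dimension below `finrank V`, relative to `Y`. -/
theorem destab {V K : Type} [NormedAddCommGroup V] [NormedSpace ℝ V] [FiniteDimensional ℝ V]
    [NormedAddCommGroup K] [NormedSpace ℝ K] [FiniteDimensional ℝ K] (hX : IsCompact X)
    (hd : finrank ℝ F < finrank ℝ V) {η : Bil K} (hη : ND ⊤ η) {w : F → Bil (V × K)}
    (hw : NDField X (fun _ => ⊤) w) {w₀ : F → Bil V} (hY : ∀ y ∈ X, y ∈ Y → w y = osum (w₀ y) η) :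
    ∃ w' : F → Bil V, NDField X (fun _ => ⊤) w' ∧ (∀ y ∈ X, y ∈ Y → w' y = w₀ y) ∧
      Rel X Y w fun x => osum (w' x) η :=
  ds_ind hX hd _ K η rfl hη w hw hY

end Pool.Agent.Lib.MP_ccffa6_gt.ELI
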