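import Pool.Agent.Lib.MP_ccffa6_gt.ELI.Ds3

/-! Every nondegenerate form is joined to a given one or to its mirror image. -/

set_option maxSynthPendingDepth 3

open Set Filter Topology Module

noncomputable section

namespace Pool.Agent.Lib.MP_ccffa6_gt.ELI

open P

variable {V V' : Type} [NormedAddCommGroup V] [NormedSpace ℝ V] [NormedAddCommGroup V']
  [NormedSpace ℝ V']

theorem ds_nd_bp {A : V' →L[ℝ] V} (hA : Function.Bijective A) {w : Bil V} (h : ND ⊤ w) :
    ND ⊤ (bp A w) := by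
  refine ⟨fun u _ => h.1 _ trivial, fun u _ hu => hA.1 ?_⟩
  rw [map_zero]
  refine h.2 _ trivial fun v _ => ?_
  obtain ⟨v', rfl⟩ := hA.2 v
  exact hu v' trivial

theorem ds_nd_osum {w : Bil V} {η : Bil V'} (h : ND ⊤ w) (h' : ND ⊤ η) : ND ⊤ (osum w η) := by
  refine ⟨fun u _ => by simp [h.1 _ trivial, h'.1 _ trivial], fun u _ hu => Prod.ext
    (h.2 _ trivial fun v _ => ?_) (h'.2 _ trivial fun v _ => ?_)⟩
  · simpa using hu (v, 0) trivial
  · simpa using hu (0, v) trivial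

theorem ds_cont_osum (η : Bil V') : Continuous fun w : Bil V => osum w η :=
  continuousOn_univ.1 ((ds_cont_bp (ContinuousLinearMap.fst ℝ V V') continuousOn_id).add
    continuousOn_const)

/-- the area form of `ℝ × ℝ` -/
def ds_ar : Bil (ℝ × ℝ) := wg (ContinuousLinearMap.fst ℝ ℝ ℝ) (ContinuousLinearMap.snd ℝ ℝ ℝ)

theorem ds_nd_ar {c : ℝ} (hc : c ≠ 0) : ND ⊤ (c • ds_ar) := by
  refine ⟨fun u _ => by simp [ds_ar, mul_comm], fun u _ hu => Prod.ext ?_ ?_⟩
  · simpa [ds_ar, hc] using hu (0, 1) trivial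
  · simpa [ds_ar, hc] using hu (1, 0) trivial

theorem ds_plane {w : Bil (ℝ × ℝ)} (h : ND ⊤ w) : ∃ c : ℝ, c ≠ 0 ∧ w = c • ds_ar := by
  have e : w = w (1, 0) (0, 1) • ds_ar := by
    refine ContinuousLinearMap.ext fun u => ContinuousLinearMap.ext fun v => ?_
    have hu : u = u.1 • ((1, 0) : ℝ × ℝ) + u.2 • ((0, 1) : ℝ × ℝ) := by ext <;> simp
    have hv : v = v.1 • ((1, 0) : ℝ × ℝ) + v.2 • ((0, 1) : ℝ × ℝ) := by ext <;> simp
    conv_lhs => rw [hu, hv]
    simp only [map_add, map_smul, add_apply, smul_apply, h.1 _ trivial, ds_alt h (0, 1) (1, 0),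
      ds_ar, wg_apply, smul_eq_mul, ContinuousLinearMap.coe_fst', ContinuousLinearMap.coe_snd']
    ring
  refine ⟨_, fun h0 => ?_, e⟩
  rw [h0, zero_smul] at e
  simpa using h.2 (1, 0) trivial fun v _ => by simp [e]

/-- CONNECTEDNESS: `w` is joined to `η` or to the pull-back of `η` by the reflection
`u ↦ u - 2 l(u) f`. -/
theorem nd_conn [FiniteDimensional ℝ V] {η w : Bil V} (hη : ND ⊤ η) (hw : ND ⊤ w)
    {l : V →L[ℝ] ℝ} {f : V} (hl : l f = 1) :
    ∃ γ : ℝ → Bil V, ContinuousOn γ (Icc 0 1) ∧ (∀ t ∈ Icc (0 : ℝ) 1, ND ⊤ (γ t)) ∧ γ 0 = w ∧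
      (γ 1 = η ∨ γ 1 = bp (ContinuousLinearMap.id ℝ V - (2 : ℝ) • l.smulRight f) η) := by
  obtain ⟨e, rfl⟩ : ∃ e, η e = l := by
    have inj : Function.Injective (η : V →ₗ[ℝ] V →L[ℝ] ℝ) := (injective_iff_map_eq_zero _).2
      fun u hu => hη.2 u trivial fun v _ => by rw [show η u = 0 from hu]; rfl
    refine (LinearMap.injective_iff_surjective_of_finrank_eq_finrank ?_).1 inj l
    rw [← (LinearMap.toContinuousLinearMap (𝕜 := ℝ) (E := V) (F' := ℝ)).finrank_eq,
      Subspace.dual_finrank_eq]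
  obtain ⟨K', p, -, s, hs⟩ := ds_split hη hl
  let j : (ℝ × ℝ) × K' →L[ℝ] V := (((ContinuousLinearMap.fst ℝ ℝ ℝ).smulRight e +
    (ContinuousLinearMap.snd ℝ ℝ ℝ).smulRight f)).coprod K'.subtypeL
  let j' : V →L[ℝ] (ℝ × ℝ) × K' := ((-η f).prod (η e)).prod p
  have jj : ∀ u, j (j' u) = u := fun u => by
    conv_rhs => rw [s.dec u]
    simp [j, j']
    abel
  have jj' : ∀ u, j' (j u) = u := fun u => by
    have a1 := s.ai u.2
    have a2 := s.bi u.2
    have a3 := s.pi u.2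
    have a4 : η f e = -1 := by rw [ds_alt hη, hl]
    have a5 := s.af
    simp only [Submodule.subtypeL_apply, neg_apply, neg_eq_zero] at a1 a2 a3 a5
    ext <;> simp [j, j', a1, a2, a3, a5, s.pe, s.pf, s.be, s.bf, a4]
  have bj : Function.Bijective j := Function.bijective_iff_has_inverse.2 ⟨j', jj', jj⟩
  have bj' : Function.Bijective j' := Function.bijective_iff_has_inverse.2 ⟨j, jj, jj'⟩
  have hη' := s.nd_res hη rfl
  obtain ⟨w', n', -, r⟩ := destab (F := Rd 0) (X := {0}) (Y := ∅) (V := ℝ × ℝ) isCompact_singleton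
    (by simp) hη' (w := fun _ => bp j w) ⟨continuousOn_const, fun _ _ => ds_nd_bp bj hw⟩
    (w₀ := fun _ => 0) fun _ _ h => h.elim
  obtain ⟨c, hc, hc'⟩ := ds_plane (n'.nd 0 rfl)
  obtain ⟨σ, hσ, hσ'⟩ : ∃ σ : ℝ, (σ = 1 ∨ σ = -1) ∧ 0 < σ * c := by
    rcases hc.lt_or_gt with h | h
    · exact ⟨-1, Or.inr rfl, by linarith⟩
    · exact ⟨1, Or.inl rfl, by linarith⟩
  have r2 : Rel ({0} : Set (Rd 0)) ∅ w' fun _ => σ • ds_ar := rel_of_segment n'.cont
    continuousOn_const (fun t ht x hx => by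
      rw [show x = 0 from hx, hc', ← sub_smul, smul_smul, ← add_smul]
      refine ds_nd_ar fun h => ?_
      have h1 : σ * σ = 1 := by rcases hσ with h | h <;> simp [h]
      have h2 : (1 - t) * (σ * c) + t * (σ * σ) = 0 := by linear_combination σ * h
      rcases ht.1.eq_or_lt with h3 | h3
      · simp [← h3, hσ'.ne'] at h2
      · nlinarith [mul_nonneg (sub_nonneg.2 ht.2) hσ'.le]) fun _ _ h => h.elim
  obtain ⟨H, hH, h0, -⟩ := (r.trans (r2.map (ds_cont_osum _) fun o ho => ds_nd_osum ho hη')).map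
    (Φ := bp j') (continuousOn_univ.1 (ds_cont_bp j' continuousOn_id)) fun o ho => ds_nd_bp bj' ho
  refine ⟨fun t => H (t, 0), hH.cont.comp (by fun_prop) fun t ht => ⟨ht, rfl⟩,
    fun t ht => hH.nd (t, 0) ⟨ht, rfl⟩, ?_, ?_⟩
  · simp only [(h0 0 rfl).1]
    ext u v; simp [jj]
  · simp only [(h0 0 rfl).2]
    have k : ∀ u v, η u v = η (p u) (p v) + (-η f u * η e v - η e u * -η f v) := fun u v =>
      congrArg (fun m : Bil V => m u v) hs
    rcases hσ with rfl | rfl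
    · left; ext u v
      rw [k u v]; simp [j', ds_ar]; ring
    · right; ext u v
      have hff := hη.1 f trivial
      simp only [bp_apply, sub_apply, smul_apply, ContinuousLinearMap.id_apply,
        ContinuousLinearMap.smulRight_apply, map_sub, map_smul, hff, ds_alt hη u f, smul_eq_mul]
      rw [k u v]; simp [j', ds_ar]; ring

end Pool.Agent.Lib.MP_ccffa6_gt.ELI
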