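import Pool.Agent.Lib.MP_ccffa6_gt.ELI.Nr2
import Pool.Agent.Lib.MP_ccffa6_gt.ELI.Blk
import Pool.Agent.Lib.MP_ccffa6_gt.ELI.Cut

/-!
Everything depends on the jet along the core only.
-/

open Set Filter Topology
open scoped ContDiff RealInnerProductSpace

noncomputable section

namespace Pool.Agent.Lib.MP_ccffa6_gt.ELI

variable {F : Type} [NormedAddCommGroup F] [InnerProductSpace ℝ F] [FiniteDimensional ℝ F]
  {P : F →L[ℝ] F} {R : ℝ} {tgt : Form1 (F × F)} {a : Lf P}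

/-- Every contact form with jet `a` is nearly standard. -/
def Gd (P : F →L[ℝ] F) (R : ℝ) (tgt : Form1 (F × F)) (a : Lf P) : Prop :=
  ∀ lam : Form1 (F × F), Adm P lam → Ct P R lam → a.Over (jet lam) → Nr P R tgt lam a

theorem Gd_seg_zero {X V : Type} [NormedAddCommGroup V] [NormedSpace ℝ V] (Ω Ω' : X → Bil V)
    (q : X) : seg Ω Ω' 0 q = Ω q := by
  refine ContinuousLinearMap.ext fun u => ContinuousLinearMap.ext fun v => ?_
  show (1 - 0) * Ω q u v + 0 * Ω' q u v = _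
  ring

/-- The section dual to the horizontal part of a form. -/
theorem Gd_sect (hP : IsOP P) {lam : Form1 (F × F)} (hl : Adm P lam) :
    ∃ ς : F → F, Sect P ς ∧ ∀ x u, ⟪ς x, u⟫ = -lam (x, 0) (u, 0) := by
  let b := stdOrthonormalBasis ℝ F
  have e : ∀ x u, ⟪-∑ i, lam (x, 0) (b i, 0) • b i, u⟫ = -lam (x, 0) (u, 0) := fun x u => by
    have h1 := map_sum ((lam (x, 0)).comp (ContinuousLinearMap.inl ℝ F F))
      (fun i => ⟪b i, u⟫ • b i) Finset.univ
    rw [b.sum_repr' u] at h1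
    rw [inner_neg_left, sum_inner, show lam (x, 0) (u, 0) = _ from h1]
    refine congrArg _ (Finset.sum_congr rfl fun i _ => ?_)
    rw [real_inner_smul_left, map_smul, smul_eq_mul, mul_comm]
    rfl
  refine ⟨fun x => -∑ i, lam (x, 0) (b i, 0) • b i, ⟨fun x hx => ?_, fun ρ hρ x hx => ?_⟩, e⟩
  · refine (ContDiffAt.sum fun i _ => ContDiffAt.smul ?_ contDiffAt_const).neg
    exact ((hl.sm (x, 0) hx).comp x (contDiff_id.prodMk contDiff_const).contDiffAt).clm_apply
      contDiffAt_const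
  · refine ext_inner_right ℝ fun u => ?_
    have h1 : u = sa P ρ (sa P ρ⁻¹ u) := by rw [sa_sa hP, mul_inv_cancel₀ hρ.ne', sa_one]
    have h2 := hl.hom ρ hρ (x, 0) hx (sa P ρ⁻¹ u, 0)
    rw [Sc_apply, Sc_apply, map_zero] at h2
    rw [e, h1, real_inner_comm, inner_sa_sb hP, real_inner_comm, e, h2, mul_neg]

/-- The base lift is good. -/
theorem gd_base (hP : IsOP P) (hR : 0 < R) (ht : Adm P tgt)
    (hj : ∀ q ∈ core P, jet tgt q = om0 F) : Gd P R tgt (bas P) := by
  intro lam hl hc ho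
  have e : ∀ q ∈ core P, jet lam q = jet tgt q := fun q hq =>
    (ho.eq Lift.base_over q hq).trans (hj q hq).symm
  refine nr_pert hP hR hl hc fun ε hε => ?_
  obtain ⟨mu, hm, h1, h2, h3⟩ := cut hP hl ht e hR hε
  exact ⟨mu, hm, h1, h3, fun q hq => (h2.jet_eq hq).trans (e q hq).symm, fun _ => nr_std hm h2 hj⟩

/-- Moving the core by an isotopy. -/
theorem gd_move (hie : IEStmt F) (hP : IsOP P) (hR : 0 < R) {lam' : Form1 (F × F)}
    (hl : Adm P lam') (ha : a.Over (jet lam'))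
    (h : ∀ r > 0, ∃ (f : ℝ → F → F × F) (G : ℝ → F → F →L[ℝ] F × F) (a' : Lf P), Jets P f G ∧
      (∀ s ∈ Icc (0 : ℝ) 1, ∀ q ∈ core P, f s q ∈ Tube P r) ∧
      (∀ x : F, P x ≠ 0 → f 0 x = (x, 0)) ∧
      (∀ q ∈ core P, G 0 q = ContinuousLinearMap.inr ℝ F F) ∧
      Co (fun s q => pbB (frm (f s) (G s q) q) (dF lam' (f s q))) a a' ∧ Gd P R tgt a') :
    Gd P R tgt a := by
  intro lam hla hc ho
  have e := ho.eq ha
  refine nr_pert hP hR hla hc fun ε hε => ?_
  obtain ⟨mu, hm, h1, h2, h3⟩ := cut hP hla hl e hR hε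
  refine ⟨mu, hm, h1, h3, fun q hq => (h2.jet_eq hq).trans (e q hq).symm, fun hc' => ?_⟩
  obtain ⟨r, hr, h2⟩ := h2
  obtain ⟨f, G, a', hJ, hT, hf, hG, hco, hg⟩ := h (min r R) (lt_min hr hR)
  obtain ⟨H, σ, hH, hσ, s0, s1, sm, hE⟩ := hie P hP R f G hJ
    (fun s hs q hq => Tube_mono (min_le_right _ _) (hT s hs q hq)) hf hG
  have hco' : Co (fun t => jet (pb (H t) mu)) a a' :=
    (hco.reparam isCompact_core hσ s0 s1 sm).congr fun t ht q hq => by
      have hy := Tube_mono (min_le_left _ _) (hT _ (sm ht) q hq)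
      have ev : mu =ᶠ[𝓝 (f (σ t) q)] lam' := by
        filter_upwards [(isOpen_Tube r).mem_nhds hy] with y hy using h2 y hy
      rw [hH.jet_pb hm ht hq, (hE t ht q hq).1, (hE t ht q hq).2, dF_congr ev]
  have h01 : (1 : ℝ) ∈ Icc (0 : ℝ) 1 := ⟨zero_le_one, le_rfl⟩
  exact nr_pull hP hR hH hm hc' hco'
    (hg _ ((hH.toEqv h01).adm hP hm) (hH.ct hP hm hc' h01) hco'.over_right)

/-- Jets of sections. -/
theorem gd_sec (hie : IEStmt F) (hleg : LegStmt P) (hP : IsOP P) (hR : 0 < R)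
    (hb : Gd P R tgt (bas P)) {ς : F → F} (hς : Sect P ς)
    (h : Co (seg (fun q => pbB (fderiv ℝ (tr ς) (q, 0)) (om0 F)) fun _ => om0 F) a (bas P)) :
    Gd P R tgt a := by
  have hE := hς.eqv_tr hP
  have hd : ∀ x : F, P x ≠ 0 → DifferentiableAt ℝ ς x := fun x hx =>
    (hς.sm x hx).differentiableAt (by simp)
  have hD : ∀ y : F × F, P y.1 ≠ 0 →
      dF (pb (tr ς) (lam0 P)) y = pbB (fderiv ℝ (tr ς) y) (om0 F) := fun y hy => by
    rw [hE.dF_pb (adm_lam0 hP) hy, dF_lam0 hP]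
  refine gd_move hie hP hR (hE.adm hP (adm_lam0 hP)) (h.over_left.congr fun q hq => ?_)
    fun r hr => ?_
  · rw [Gd_seg_zero]
    exact (hD (q, 0) (core_ne hq)).symm
  obtain ⟨f, G, hJ, hf, hG, hT, -, hco⟩ := hleg ς hς r hr
  obtain ⟨hJ', hfr⟩ := hJ.tr hP hς.neg
  refine ⟨_, _, bas P, hJ', fun s hs q hq => ?_, fun x hx => ?_, fun q hq => ?_, ?_, hb⟩
  · have h1 := hT s hs q hq
    rwa [sub_eq_add_neg] at h1
  · rw [hf x hx]
    exact Prod.ext rfl (add_neg_cancel _)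
  · have h1 : P (f 0 q).1 ≠ 0 := hJ.ne 0 ⟨le_rfl, zero_le_one⟩ q (core_ne hq)
    refine ContinuousLinearMap.ext fun b => ?_
    rw [ContinuousLinearMap.comp_apply, fderiv_tr (hd _ h1).fun_neg, hG q hq]
    simp
  · refine (hco a (h.congr fun t _ q hq => ?_)).congr fun s hs q hq => ?_
    · have ev : f 0 =ᶠ[𝓝 q] fun x => (x, ς x) := by
        filter_upwards [P.continuous.continuousAt.eventually_ne (core_ne hq)] with x hx
        exact hf x hx
      have h1 : HasFDerivAt (fun x => (x, ς x))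
          ((ContinuousLinearMap.id ℝ F).prod (fderiv ℝ ς q)) q :=
        (hasFDerivAt_id q).prodMk (hd q (core_ne hq)).hasFDerivAt
      have e : fderiv ℝ (tr ς) (q, 0) = frm (f 0) (G 0 q) q := by
        refine ContinuousLinearMap.ext fun u => ?_
        rw [fderiv_tr (hd q (core_ne hq)), frm_apply, ev.fderiv_eq, h1.fderiv, hG q hq]
        exact Prod.ext (add_zero _).symm (add_comm _ _)
      simp only [seg, e]
    · have h1 : P (f s q).1 ≠ 0 := hJ.ne s hs q (core_ne hq)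
      have e : ∀ w, fderiv ℝ (tr ς) (tr (fun x => -ς x) (f s q))
          (fderiv ℝ (tr fun x => -ς x) (f s q) w) = w := fun w => by
        rw [fderiv_tr (y := tr (fun x => -ς x) (f s q)) (hd _ h1), fderiv_tr (hd _ h1).fun_neg,
          fderiv_fun_neg]
        exact Prod.ext rfl (neg_add_cancel_right _ _)
      rw [hfr s hs q hq, hD (tr (fun x => -ς x) (f s q)) h1]
      refine ContinuousLinearMap.ext fun u => ContinuousLinearMap.ext fun v => ?_
      simp only [pbB_apply, ContinuousLinearMap.comp_apply, e]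

/-- Block jets. -/
theorem gd_blk (hie : IEStmt F) (hleg : LegStmt P) (hP : IsOP P) (hR : 0 < R)
    (hb : Gd P R tgt (bas P)) {Ω : F → Bil (F × F)} (hΩ : ∀ q ∈ core P, Blk (Ω q))
    (h : Co (seg Ω fun _ => om0 F) a (bas P)) : Gd P R tgt a := by
  intro lam hl hc ho
  obtain ⟨ς, hς, e⟩ := Gd_sect hP hl
  refine gd_sec hie hleg hP hR hb hς (h.congr fun t _ q hq => ?_) lam hl hc ho
  have hq' := core_ne hq
  have hd : DifferentiableAt ℝ ς q := (hς.sm q hq').differentiableAt (by simp)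
  have h1 : Ω q = jet lam q := by
    rw [← Gd_seg_zero Ω (fun _ => om0 F) q]
    exact h.over_left.eq ho q hq
  have h2 : ∀ u v : F, ⟪fderiv ℝ ς q u, v⟫ = -fderiv ℝ lam (q, 0) (u, 0) (v, 0) := fun u v => by
    have d1 := (innerSL ℝ v).hasFDerivAt.comp q hd.hasFDerivAt
    have d2 := (((ContinuousLinearMap.apply ℝ ℝ (v, (0 : F))).hasFDerivAt.comp (q, 0)
      (hl.diff (y := (q, 0)) hq').hasFDerivAt).comp q
        (ContinuousLinearMap.inl ℝ F F).hasFDerivAt).neg
    have d3 := d1.unique (d2.congr_of_eventuallyEq (Eventually.of_forall fun x =>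
      (real_inner_comm _ _).trans (e x v)))
    rw [real_inner_comm]
    exact DFunLike.congr_fun d3 u
  have h3 : Ω q = pbB (fderiv ℝ (tr ς) (q, 0)) (om0 F) := by
    refine (hΩ q hq).ext (blk_tr hd) fun u v => ?_
    rw [h1, pbB_apply, fderiv_tr hd, fderiv_tr hd, om0_apply, jet, dF_apply]
    dsimp only
    rw [zero_add, zero_add, real_inner_comm, h2, h2]
    ring
  simp only [seg, h3]

/-- Change of the complement. -/
theorem gd_frame (hie : IEStmt F) (hP : IsOP P) (hR : 0 < R) {lam : Form1 (F × F)}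
    (hl : Adm P lam) {G : ℝ → F → F →L[ℝ] F × F}
    (hG : ∀ s ∈ Icc (0 : ℝ) 1, ∀ q ∈ core P, ContDiffAt ℝ ∞ (fun z : ℝ × F => G z.1 z.2) (s, q))
    (hi : ∀ s ∈ Icc (0 : ℝ) 1, ∀ q ∈ core P,
      Function.Injective ((ContinuousLinearMap.inl ℝ F F).coprod (G s q)))
    (h0 : ∀ q ∈ core P, G 0 q = ContinuousLinearMap.inr ℝ F F) {a' : Lf P}
    (hco : Co (fun s q => pbB ((ContinuousLinearMap.inl ℝ F F).coprod (G s q)) (jet lam q)) a a')
    (h : Gd P R tgt a') : Gd P R tgt a := by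
  have e : ∀ (A : F →L[ℝ] F × F) (q : F),
      frm (fun x => (x, (0 : F))) A q = (ContinuousLinearMap.inl ℝ F F).coprod A := fun A q => by
    rw [frm, show fderiv ℝ (fun x : F => (x, (0 : F))) q = _ from
      (ContinuousLinearMap.inl ℝ F F).fderiv]
  refine gd_move hie hP hR hl (hco.over_left.congr fun q hq => ?_) fun r hr =>
    ⟨fun _ x => (x, 0), G, a', ⟨fun s _ x _ => (contDiff_snd.prodMk contDiff_const).contDiffAt,
      hG, fun s _ ρ _ x _ => ?_, fun _ _ _ hx => hx, fun s hs q hq => ?_,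
      fun s _ q hq q' hq' h1 => ?_⟩, fun s _ q hq => core_mem_Tube hq hr, fun _ _ => rfl, h0,
      hco.congr fun s _ q _ => ?_, h⟩
  · rw [h0 q hq, ContinuousLinearMap.coprod_inl_inr, pbB_id]
  · rw [Sc_apply, map_zero]
  · rw [e]
    exact hi s hs q hq
  · rw [nz_of_ht (core_ht hq 0), nz_of_ht (core_ht hq' 0)] at h1
    exact congrArg Prod.fst h1
  · rw [e]
    rfl

end Pool.Agent.Lib.MP_ccffa6_gt.ELI
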