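import Pool.Agent.Lib.MP_ccffa6_gt.ELI.Blk

/-!
Smoothing of the formal path.
-/

open Set Filter Topology
open scoped ContDiff RealInnerProductSpace

noncomputable section

namespace Pool.Agent.Lib.MP_ccffa6_gt.ELI

variable {F : Type} [NormedAddCommGroup F] [InnerProductSpace ℝ F] [FiniteDimensional ℝ F]
  {P : F →L[ℝ] F}

section aux

variable {E B V : Type} [NormedAddCommGroup E] [NormedSpace ℝ E] [NormedAddCommGroup B]
  [NormedSpace ℝ B] [NormedAddCommGroup V] [NormedSpace ℝ V]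

theorem GenA_approx [FiniteDimensional ℝ E] [FiniteDimensional ℝ B] {A : Set E} (hA : IsClosed A)
    {f : E → B} (hf : ContinuousOn f A) {ε : ℝ} (hε : 0 < ε) :
    ∃ g : E → B, ContDiff ℝ ∞ g ∧ ∀ x ∈ A, ‖g x - f x‖ ≤ ε := by
  obtain ⟨k, hk⟩ := ContinuousMap.exists_restrict_eq hA ⟨A.domRestrict f, hf.domRestrict⟩
  obtain ⟨g, h1, h2, -⟩ := k.continuous.exists_contDiff_approx ⊤ (continuous_const (y := ε))
    fun _ => hε
  refine ⟨g, h1, fun x hx => ?_⟩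
  have e : k x = f x := congrArg (fun k : C(A, B) => k ⟨x, hx⟩) hk
  rw [← e, ← dist_eq_norm]
  exact (h2 x).le

theorem GenA_alt [FiniteDimensional ℝ E] [FiniteDimensional ℝ V] {A : Set E} (hA : IsClosed A)
    {f : E → Bil V} (hf : ContinuousOn f A) (ha : ∀ x ∈ A, ∀ u, f x u u = 0) {ε : ℝ}
    (hε : 0 < ε) : ∃ g : E → Bil V, ContDiff ℝ ∞ g ∧ (∀ x u, g x u u = 0) ∧
      ∀ x ∈ A, ‖g x - f x‖ ≤ ε := by
  obtain ⟨g, h1, h2⟩ := GenA_approx (B := Bil V) (f := fun x => (2⁻¹ : ℝ) • f x) hA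
    (hf.const_smul (2⁻¹ : ℝ)) (half_pos hε)
  refine ⟨fun x => g x - (g x).flip, contDiff_iff_contDiffAt.2 fun x => Form_alt h1.contDiffAt,
    fun x u => sub_self _, fun x hx => ?_⟩
  have e : g x - (g x).flip - f x = (g x - (2⁻¹ : ℝ) • f x) - (g x - (2⁻¹ : ℝ) • f x).flip := by
    ext u v
    simp only [sub_apply, smul_apply, ContinuousLinearMap.flip_apply, smul_eq_mul]
    rw [alt_swap (ha x hx) v u]
    ring
  have h3 : ‖g x - (2⁻¹ : ℝ) • f x‖ ≤ ε / 2 := h2 x hx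
  rw [e]
  refine (norm_sub_le (E := Bil V) _ _).trans ?_
  rw [ContinuousLinearMap.opNorm_flip]
  linarith

theorem GenA_norm {g c g0 c0 g1 c1 : B} {s δ : ℝ} (hs : s ∈ Icc (0 : ℝ) 1)
    (h : ‖g - c‖ ≤ δ) (h0 : ‖g0 - c0‖ ≤ δ) (h1 : ‖g1 - c1‖ ≤ δ) :
    ‖g + (1 - s) • (c0 - g0) + s • (c1 - g1) - c‖ ≤ 2 * δ := by
  have e : g + (1 - s) • (c0 - g0) + s • (c1 - g1) - c =
      g - c - (1 - s) • (g0 - c0) - s • (g1 - c1) := by module
  have h2 := norm_sub_le (g - c - (1 - s) • (g0 - c0)) (s • (g1 - c1))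
  have h3 := norm_sub_le (g - c) ((1 - s) • (g0 - c0))
  rw [norm_smul, Real.norm_of_nonneg hs.1] at h2
  rw [norm_smul, Real.norm_of_nonneg (sub_nonneg.2 hs.2)] at h3
  rw [e]
  linarith [mul_le_mul_of_nonneg_left h0 (sub_nonneg.2 hs.2), mul_le_mul_of_nonneg_left h1 hs.1]

theorem GenA_norm' {c d : B} {σ δ : ℝ} (hσ : σ ∈ Icc (0 : ℝ) 1) (h : ‖d - c‖ ≤ δ) :
    ‖c + σ • (d - c) - c‖ ≤ δ := by
  rw [add_sub_cancel_left, norm_smul, Real.norm_of_nonneg hσ.1]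
  exact (mul_le_of_le_one_left (norm_nonneg _) hσ.2).trans h

theorem GenA_ends (g0 g1 j w : B) :
    g0 + (1 - (0 : ℝ)) • (j - g0) + (0 : ℝ) • (w - g1) = j ∧
      g1 + (1 - (1 : ℝ)) • (j - g0) + (1 : ℝ) • (w - g1) = w := by
  constructor <;> module

theorem GenA_eq (c d : B) (σ : ℝ) : c + σ • (c - c) = c + (0 : ℝ) • (c - c) ∧
    c = c + (0 : ℝ) • (d - c) ∧ c + (1 : ℝ) • (d - c) = d := by
  refine ⟨?_, ?_, ?_⟩ <;> module

theorem GenA_sm {g : ℝ × E → B} (hg : ContDiff ℝ ∞ g) {j : E → B} {x : E}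
    (hj : ContDiffAt ℝ ∞ j x) (w : B) (s : ℝ) : ContDiffAt ℝ ∞
      (fun z : ℝ × E => g (z.1, z.2) + (1 - z.1) • (j z.2 - g (0, z.2)) + z.1 • (w - g (1, z.2)))
      (s, x) :=
  (hg.contDiffAt.add ((contDiffAt_const.sub contDiffAt_fst).smul
    ((hj.comp (s, x) contDiffAt_snd).sub
      (hg.comp (contDiff_const.prodMk contDiff_snd)).contDiffAt))).add (contDiffAt_fst.smul
    (contDiffAt_const.sub (hg.comp (contDiff_const.prodMk contDiff_snd)).contDiffAt))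

omit [NormedSpace ℝ E] in
theorem GenA_cont {c Ω : ℝ → E → B} {C : Set E}
    (hc : ContinuousOn (fun z : ℝ × E => c z.1 z.2) (Icc 0 1 ×ˢ C))
    (hΩ : ContinuousOn (fun z : ℝ × E => Ω z.1 z.2) (Icc 0 1 ×ˢ C)) : ContinuousOn
      (fun z : (ℝ × ℝ) × E => c z.1.1 z.2 + z.1.2 • (Ω z.1.1 z.2 - c z.1.1 z.2))
      ((Icc 0 1 ×ˢ Icc 0 1) ×ˢ C) := by
  have hp : Continuous fun z : (ℝ × ℝ) × E => (z.1.1, z.2) := by fun_prop
  have hm : MapsTo (fun z : (ℝ × ℝ) × E => (z.1.1, z.2)) ((Icc 0 1 ×ˢ Icc 0 1) ×ˢ C)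
      (Icc 0 1 ×ˢ C) := fun z hz => ⟨hz.1.1, hz.2⟩
  have h1 := hc.comp hp.continuousOn hm
  exact h1.add ((continuous_snd.comp continuous_fst).continuousOn.smul
    ((hΩ.comp hp.continuousOn hm).sub h1))

omit [NormedSpace ℝ E] in
theorem GenA_near [FiniteDimensional ℝ V] {C : Set E} (hC : IsCompact C) {x₀ : NDsp C V}
    {a a' : Lift x₀} {c : ℝ → E → Bil V} (h : Co c a a') : ∃ ε > 0, ∀ Ω : ℝ → E → Bil V,
      ContinuousOn (fun z : ℝ × E => Ω z.1 z.2) (Icc 0 1 ×ˢ C) → (∀ s x u, Ω s x u u = 0) →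
      (∀ q ∈ C, Ω 0 q = c 0 q ∧ Ω 1 q = c 1 q) →
      (∀ s ∈ Icc (0 : ℝ) 1, ∀ q ∈ C, ‖Ω s q - c s q‖ ≤ ε) → Co Ω a a' := by
  have hF := h.fam hC
  obtain ⟨ε, hε, hn⟩ := nd_unif
    (((isCompact_Icc (a := (0 : ℝ)) (b := 1)).prod hC).image_of_continuousOn hF.cont)
    (forall_mem_image.2 fun z hz => hF.nd _ hz.1 _ hz.2)
  refine ⟨ε, hε, fun Ω h1 h2 h3 h4 => ?_⟩
  have hK : Fam (Icc (0 : ℝ) 1 ×ˢ Icc (0 : ℝ) 1) C fun p x => c p.1 x + p.2 • (Ω p.1 x - c p.1 x) :=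
    ⟨GenA_cont (B := Bil V) hF.cont h1, fun p hp q hq =>
      hn (c p.1 q) ⟨(p.1, q), ⟨hp.1, hq⟩, rfl⟩ _ (fun u => by
        have h5 : c p.1 q u u = 0 := (hF.nd _ hp.1 _ hq).1 u trivial
        simp only [add_apply, sub_apply, smul_apply, h2, h5, sub_self, smul_zero, add_zero])
        (GenA_norm' (B := Bil V) hp.2 (h4 _ hp.1 q hq))⟩
  refine ((Co.homot hK (fun σ _ q hq => ?_) fun σ _ q hq => ?_).1
    (h.congr fun t _ q _ => ?_)).congr fun t _ q _ => ?_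
  · simp only [(h3 q hq).1]
    exact (GenA_eq (B := Bil V) _ 0 σ).1
  · simp only [(h3 q hq).2]
    exact (GenA_eq (B := Bil V) _ 0 σ).1
  · exact (GenA_eq (B := Bil V) _ _ 0).2.1
  · exact (GenA_eq (B := Bil V) _ _ 0).2.2

theorem GenA_main [FiniteDimensional ℝ E] [FiniteDimensional ℝ V] {C U : Set E} (hC : IsCompact C)
    (hU : C ⊆ U) {x₀ : NDsp C V} {a a' : Lift x₀} {c : ℝ → E → Bil V} (h : Co c a a')
    {j : E → Bil V} (hj : ∀ x ∈ U, ContDiffAt ℝ ∞ j x) (ja : ∀ x u, j x u u = 0) {w : Bil V}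
    (wa : ∀ u, w u u = 0) (h0 : a.Over j) (h1 : a'.Over fun _ => w) :
    ∃ Ω : ℝ → E → Bil V,
      (∀ s : ℝ, ∀ x ∈ U, ContDiffAt ℝ ∞ (fun z : ℝ × E => Ω z.1 z.2) (s, x)) ∧
      (∀ s x u, Ω s x u u = 0) ∧ Co Ω a a' := by
  have hF := h.fam hC
  obtain ⟨ε, hε, hn⟩ := GenA_near hC h
  obtain ⟨g, g1, g2, g3⟩ := GenA_alt ((isCompact_Icc (a := (0 : ℝ)) (b := 1)).prod hC).isClosed
    hF.cont (fun z hz u => (hF.nd _ hz.1 _ hz.2).1 u trivial) (half_pos hε)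
  have e0 := h0.eq h.over_left
  have e1 : ∀ q ∈ C, w = c 1 q := h1.eq h.over_right
  have sm := fun s x hx => GenA_sm (B := Bil V) g1 (hj x hx) w s
  have al : ∀ (s : ℝ) x u, (g (s, x) + (1 - s) • (j x - g (0, x)) + s • (w - g (1, x))) u u = 0 :=
    fun s x u => by
      simp only [add_apply, sub_apply, smul_apply, g2, ja, wa, sub_self, smul_zero, add_zero]
  refine ⟨fun s x => g (s, x) + (1 - s) • (j x - g (0, x)) + s • (w - g (1, x)), sm, al,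
    hn _ (fun z hz => (sm z.1 z.2 (hU hz.2)).continuousAt.continuousWithinAt) al
      (fun q hq => ?_) fun s hs q hq => ?_⟩
  · rw [← e0 q hq, ← e1 q hq]
    exact GenA_ends (B := Bil V) _ _ _ _
  · rw [e0 q hq, e1 q hq]
    exact (GenA_norm (B := Bil V) hs (g3 (s, q) ⟨hs, hq⟩) (g3 (0, q) ⟨by simp, hq⟩)
      (g3 (1, q) ⟨by simp, hq⟩)).trans_eq (mul_div_cancel₀ ε two_ne_zero)

end aux

/-- Sketch: `c` from `Lift.exists_co`, continuous on `Icc 0 1 ×ˢ core` (`Co.fam`), `ε` from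
`nd_unif` for its image. Extend it continuously to `ℝ × F` (Tietze in finite dimension,
`ContinuousMap.exists_restrict_eq`, or `‖P x‖ • c (projIcc s) (‖P x‖⁻¹ • P x)`), approximate by a
smooth `g` within `ε / 8` (`Continuous.exists_contDiff_approx`-type lemma), antisymmetrise, and put
`Ω s x = g s x + (1 - s) • (jet lam x - g 0 x) + s • (om0 - g 1 x)`; `Co.homot` with the linear
homotopy. -/
theorem gen_smooth (hP : IsOP P) {lam : Form1 (F × F)} (hl : Adm P lam) {a : Lf P}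
    (ha : a.Over (jet lam)) :
    ∃ Ω : ℝ → F → Bil (F × F),
      (∀ (s : ℝ) (x : F), P x ≠ 0 → ContDiffAt ℝ ∞ (fun z : ℝ × F => Ω z.1 z.2) (s, x)) ∧
      (∀ s x u, Ω s x u u = 0) ∧ Co Ω a (bas P) := by
  obtain ⟨c, hc⟩ := a.exists_co
  exact GenA_main (U := {x | P x ≠ 0}) (j := jet lam) isCompact_core (fun _ => core_ne) hc
    (fun x hx => (contDiffAt_dF (hl.sm (x, 0) hx)).comp x (contDiffAt_id.prodMk contDiffAt_const))
    (fun x u => dF_alt _ _ u) (fun u => nd_om0.1 u trivial) ha Lift.base_over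

end Pool.Agent.Lib.MP_ccffa6_gt.ELI
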