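import Pool.Agent.Lib.MP_ccffa6_gt.ELI.Blk

/-!
One-forms with prescribed jet up to a tangential defect.
-/

set_option maxSynthPendingDepth 3

open Set Filter Topology
open scoped ContDiff RealInnerProductSpace

noncomputable section

namespace Pool.Agent.Lib.MP_ccffa6_gt.ELI

variable {F : Type} [NormedAddCommGroup F] [InnerProductSpace ℝ F] [FiniteDimensional ℝ F]
  {P : F →L[ℝ] F}

/-- Projection to the tangent space of the core at `q`. -/
def tg (P : F →L[ℝ] F) (q : F) (u : F × F) : F := P u.1 - ⟪q, u.1⟫ • q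

omit [FiniteDimensional ℝ F] in
/-- The cone over a smooth family is a smooth family. -/
theorem GenB_cone_fam (hP : IsOP P) {A : ℝ → Form1 (F × F)}
    (hA : ∀ (s : ℝ) (y : F × F), ht P y = 1 →
      ContDiffAt ℝ ∞ (fun z : ℝ × (F × F) => A z.1 z.2) (s, y))
    (s : ℝ) {y : F × F} (hy : P y.1 ≠ 0) :
    ContDiffAt ℝ ∞ (fun z : ℝ × (F × F) => cone P (A z.1) z.2) (s, y) := by
  have h1 : ContDiffAt ℝ ∞ (fun z : ℝ × (F × F) => nz P z.2) (s, y) :=
    (contDiffAt_nz hy).comp (s, y) contDiffAt_snd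
  have h2 : ContDiffAt ℝ ∞ (fun z : ℝ × (F × F) => A z.1 (nz P z.2)) (s, y) :=
    ContDiffAt.comp (g := fun z : ℝ × (F × F) => A z.1 z.2) (f := fun z => (z.1, nz P z.2)) (s, y)
      (hA s _ (ht_nz hP hy)) (contDiffAt_fst.prodMk h1)
  have h3 : ContDiffAt ℝ ∞ (fun z : ℝ × (F × F) => fderiv ℝ (nz P) z.2) (s, y) :=
    ((contDiffAt_nz hy).fderiv_right (m := ∞) (by simp)).comp (s, y) contDiffAt_snd
  have h4 : ContDiffAt ℝ ∞ (fun z : ℝ × (F × F) => ht P z.2) (s, y) :=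
    ContDiffAt.comp (g := ht P) (f := Prod.snd) (s, y) (contDiffAt_ht hy) contDiffAt_snd
  exact h4.smul (h2.clm_comp h3)

theorem GenB_slice {E Y : Type} [NormedAddCommGroup E] [NormedSpace ℝ E] [NormedAddCommGroup Y]
    [NormedSpace ℝ Y] {f : ℝ → E → Y} {s : ℝ} {x : E}
    (h : ContDiffAt ℝ ∞ (fun z : ℝ × E => f z.1 z.2) (s, x)) : ContDiffAt ℝ ∞ (f s) x :=
  ContDiffAt.comp (g := fun z : ℝ × E => f z.1 z.2) (f := fun y => (s, y)) x h
    (contDiffAt_const.prodMk contDiffAt_id)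

theorem GenB_deriv {E Y : Type} [NormedAddCommGroup E] [NormedSpace ℝ E] [NormedAddCommGroup Y]
    [NormedSpace ℝ Y] {M : E → E →L[ℝ] Y} {L : E →L[ℝ] E} {x : E} (hM : DifferentiableAt ℝ M x)
    (hx : L x = 0) : HasFDerivAt (fun y => M y (L y)) ((M x).comp L) x := by
  have := hM.hasFDerivAt.clm_apply L.hasFDerivAt
  rw [hx] at this
  convert this using 1
  ext u; simp

omit [FiniteDimensional ℝ F] in
/-- The first order correction. -/
theorem GenB_dF {A : Form1 (F × F)} {Δ : F × F → Bil (F × F)} {y : F × F}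
    (hA : DifferentiableAt ℝ A y) (hΔ : DifferentiableAt ℝ Δ y) (hy : nu P y = 0)
    (ha : ∀ u, Δ y u u = 0) (u v : F × F) :
    dF (fun y => A y + (Δ y (nu P y) - (1 / 2 : ℝ) • (Δ y (nu P y)).comp (nu P))) y u v =
      dF A y u v + (Δ y u v - Δ y (P u.1, 0) (P v.1, 0)) := by
  have h1 := GenB_deriv hΔ hy
  let R : (F × F →L[ℝ] ℝ) →L[ℝ] F × F →L[ℝ] ℝ :=
    (ContinuousLinearMap.compL ℝ (F × F) (F × F) ℝ).flip (nu P)
  have h2 : HasFDerivAt (fun y => (Δ y (nu P y)).comp (nu P)) (R.comp ((Δ y).comp (nu P))) y :=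
    R.hasFDerivAt.comp y h1
  have h3 := hA.hasFDerivAt.add (h1.sub (h2.const_smul (1 / 2 : ℝ)))
  have e : ∀ u : F × F, ((P u.1, 0) : F × F) = u - nu P u := fun u => by
    rw [nu_apply]; ext <;> simp
  rw [dF_apply, dF_apply, show fderiv ℝ (fun y => A y + (Δ y (nu P y) -
    (1 / 2 : ℝ) • (Δ y (nu P y)).comp (nu P))) y = _ from h3.fderiv, e u, e v]
  have r : ∀ (ξ : F × F →L[ℝ] ℝ) w, R ξ w = ξ (nu P w) := fun _ _ => rfl
  simp only [add_apply, sub_apply, smul_apply, ContinuousLinearMap.comp_apply, r, map_sub,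
    smul_eq_mul]
  rw [alt_swap ha (nu P v) u, alt_swap ha (nu P v) (nu P u)]
  ring

omit [FiniteDimensional ℝ F] in
/-- Sketch: `A0 s y = Ω s (P y.1) (P y.1, 0)`, `Δ s x = Ω s x - dF (A0 s) (x, 0)`,
`A s y = A0 s y + Δ s (P y.1) (nu P y) - (1/2) • (Δ s (P y.1) (nu P y)).comp (nu P)`. At a core
point `nu P (q, 0) = 0`, so `dF (A s) (q, 0) u v = Ω s q u v - Δ s q (P u.1, 0) (P v.1, 0)`, and
`dF_cone` gives the claim with `η s x = pbB inl (Δ s (P x))`, `md s = cone P (A s)`. -/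
theorem gen_model (hP : IsOP P) {Ω : ℝ → F → Bil (F × F)}
    (hΩ : ∀ (s : ℝ) (x : F), P x ≠ 0 → ContDiffAt ℝ ∞ (fun z : ℝ × F => Ω z.1 z.2) (s, x))
    (ha : ∀ s x u, Ω s x u u = 0) :
    ∃ (md : ℝ → Form1 (F × F)) (η : ℝ → F → Bil F), (∀ s, Adm P (md s)) ∧
      (∀ (s : ℝ) (y : F × F), P y.1 ≠ 0 →
        ContDiffAt ℝ ∞ (fun z : ℝ × (F × F) => md z.1 z.2) (s, y)) ∧
      (∀ (s : ℝ) (x : F), P x ≠ 0 → ContDiffAt ℝ ∞ (fun z : ℝ × F => η z.1 z.2) (s, x)) ∧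
      (∀ s x u, η s x u u = 0) ∧
      ∀ s, ∀ q ∈ core P, ∀ u v, Ω s q u v = jet (md s) q u v + η s q (tg P q u) (tg P q v) := by
  let A0 : ℝ → Form1 (F × F) := fun s y => Ω s (P y.1) (P y.1, 0)
  let Δ : ℝ → F → Bil (F × F) := fun s x => Ω s x - dF (A0 s) (x, 0)
  let A : ℝ → Form1 (F × F) := fun s y => A0 s y +
    (Δ s (P y.1) (nu P y) - (1 / 2 : ℝ) • (Δ s (P y.1) (nu P y)).comp (nu P))
  have pp : ∀ {x : F}, P x ≠ 0 → P (P x) ≠ 0 := fun h => by rwa [hP.idem]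
  have s0 : ∀ (s : ℝ) (y : F × F), P y.1 ≠ 0 →
      ContDiffAt ℝ ∞ (fun z : ℝ × (F × F) => A0 z.1 z.2) (s, y) := fun s y hy =>
    (ContDiffAt.comp (g := fun z : ℝ × F => Ω z.1 z.2)
      (f := fun z : ℝ × (F × F) => (z.1, P z.2.1)) (s, y) (hΩ s _ (pp hy))
      (by fun_prop)).clm_apply (by fun_prop)
  have s1 : ∀ (s : ℝ) (x : F), P x ≠ 0 →
      ContDiffAt ℝ ∞ (fun z : ℝ × F => Δ z.1 z.2) (s, x) := fun s x hx =>
    (hΩ s x hx).sub (ContDiffAt.comp (g := fun z : ℝ × (F × F) => dF (A0 z.1) z.2)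
      (f := fun z : ℝ × F => (z.1, (z.2, 0))) (s, x) (contDiffAt_dF_fam (s0 s (x, 0) hx))
      (by fun_prop))
  have s2 : ∀ (s : ℝ) (y : F × F), P y.1 ≠ 0 →
      ContDiffAt ℝ ∞ (fun z : ℝ × (F × F) => Δ z.1 (P z.2.1)) (s, y) := fun s y hy =>
    ContDiffAt.comp (g := fun z : ℝ × F => Δ z.1 z.2)
      (f := fun z : ℝ × (F × F) => (z.1, P z.2.1)) (s, y) (s1 s _ (pp hy)) (by fun_prop)
  have s3 : ∀ (s : ℝ) (y : F × F), P y.1 ≠ 0 →
      ContDiffAt ℝ ∞ (fun z : ℝ × (F × F) => A z.1 z.2) (s, y) := fun s y hy => by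
    have h : ContDiffAt ℝ ∞ (fun z : ℝ × (F × F) => Δ z.1 (P z.2.1) (nu P z.2)) (s, y) :=
      (s2 s y hy).clm_apply (by fun_prop)
    exact (s0 s y hy).add (h.sub ((h.clm_comp contDiffAt_const).const_smul _))
  have aΔ : ∀ s x u, Δ s x u u = 0 := fun s x u => by
    change Ω s x u u - dF (A0 s) (x, 0) u u = 0
    rw [ha, dF_alt, sub_zero]
  refine ⟨fun s => cone P (A s), fun s x => pbB (ContinuousLinearMap.inl ℝ F F) (Δ s (P x)),
    fun s => adm_cone hP fun y hy => GenB_slice (s3 s y (ne_of_ht hy)),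
    fun s y hy => GenB_cone_fam hP (fun s y hy => s3 s y (ne_of_ht hy)) s hy,
    fun s x hx => ?_, fun s x u => aΔ _ _ _, fun s q hq u v => ?_⟩
  · exact ContDiffAt.comp (g := fun z : (F →L[ℝ] F × F) × Bil (F × F) => pbB z.1 z.2)
      (f := fun z : ℝ × F => (ContinuousLinearMap.inl ℝ F F, Δ z.1 (P z.2))) (s, x)
      contDiff_pbB.contDiffAt (contDiffAt_const.prodMk
        (ContDiffAt.comp (g := fun z : ℝ × F => Δ z.1 z.2) (f := fun z : ℝ × F => (z.1, P z.2))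
          (s, x) (s1 s _ (pp hx)) (by fun_prop)))
  · have hq' : P ((q, 0) : F × F).1 ≠ 0 := core_ne hq
    have n0 : nu P ((q, 0) : F × F) = 0 := by rw [nu_apply]; ext <;> simp [hq.1]
    have z0 : Zv P ((q, 0) : F × F) = (q, 0) := by rw [Zv_apply]; ext <;> simp [hq.1]
    have v0 : A s (q, 0) = Ω s q (q, 0) := by simp [A, A0, n0, hq.1]
    have d0 := GenB_dF (P := P) (A := A0 s) (Δ := fun y => Δ s (P y.1)) (y := (q, 0))
      ((GenB_slice (s0 s _ hq')).differentiableAt (by simp))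
      ((GenB_slice (f := fun s (y : F × F) => Δ s (P y.1)) (s2 s _ hq')).differentiableAt (by simp)) n0
      (aΔ s _)
    have d1 : ∀ u v, dF (A s) (q, 0) u v = Ω s q u v - Δ s q (P u.1, 0) (P v.1, 0) := fun u v => by
      refine (d0 u v).trans ?_
      simp only [hq.1, Δ, sub_apply]
      ring
    have t : ∀ u : F × F, P (u - ⟪q, u.1⟫ • ((q, 0) : F × F)).1 = tg P q u := fun u => by
      simp [tg, hq.1]
    rw [jet, dF_cone hP (core_ht hq 0) (GenB_slice (s3 s _ hq')), z0, v0, d1]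
    simp only [hq.1, t, pbB_apply, ContinuousLinearMap.inl_apply, map_sub, map_smul, sub_apply,
      smul_apply, smul_eq_mul, ha]
    rw [alt_swap (ha s q) u (q, 0)]
    ring

/-- Sketch: `pre s = md s + (1 - s) • (lam - md 0) + s • (lam0 - md 1)`,
`β s x = (1/2) • (η s x - (1 - s) • η 0 x - s • η 1 x)`. -/
theorem gen_pre (hP : IsOP P) {lam : Form1 (F × F)} (hl : Adm P lam) {Ω : ℝ → F → Bil (F × F)}
    (hΩ : ∀ (s : ℝ) (x : F), P x ≠ 0 → ContDiffAt ℝ ∞ (fun z : ℝ × F => Ω z.1 z.2) (s, x))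
    (ha : ∀ s x u, Ω s x u u = 0) (h0 : ∀ q ∈ core P, Ω 0 q = jet lam q)
    (h1 : ∀ q ∈ core P, Ω 1 q = om0 F) :
    ∃ (pre : ℝ → Form1 (F × F)) (β : ℝ → F → Bil F), (∀ s, Adm P (pre s)) ∧
      (∀ (s : ℝ) (y : F × F), P y.1 ≠ 0 →
        ContDiffAt ℝ ∞ (fun z : ℝ × (F × F) => pre z.1 z.2) (s, y)) ∧
      (∀ (s : ℝ) (x : F), P x ≠ 0 → ContDiffAt ℝ ∞ (fun z : ℝ × F => β z.1 z.2) (s, x)) ∧
      pre 0 = lam ∧ pre 1 = lam0 P ∧ β 0 = 0 ∧ β 1 = 0 ∧
      ∀ s, ∀ q ∈ core P, ∀ u v, Ω s q u v = jet (pre s) q u v +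
        (β s q (tg P q u) (tg P q v) - β s q (tg P q v) (tg P q u)) := by
  obtain ⟨md, η, a1, a2, a3, a4, a5⟩ := gen_model hP hΩ ha
  have l0 := adm_lam0 hP
  refine ⟨fun s y => md s y + ((1 - s) • (lam y - md 0 y) + s • (lam0 P y - md 1 y)),
    fun s x => (1 / 2 : ℝ) • (η s x - (1 - s) • η 0 x - s • η 1 x),
    fun s => (a1 s).add ((hl.sub (a1 0)).lin (l0.sub (a1 1)) _ _), fun s y hy => ?_,
    fun s x hx => ?_, ?_, ?_, ?_, ?_, fun s q hq u v => ?_⟩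
  · have e0 : ContDiffAt ℝ ∞ (fun z : ℝ × (F × F) => lam z.2 - md 0 z.2) (s, y) :=
      ContDiffAt.comp (g := fun y => lam y - md 0 y) (s, y) ((hl.sub (a1 0)).sm y hy) contDiffAt_snd
    have e1 : ContDiffAt ℝ ∞ (fun z : ℝ × (F × F) => lam0 P z.2 - md 1 z.2) (s, y) :=
      ContDiffAt.comp (g := fun y => lam0 P y - md 1 y) (s, y) ((l0.sub (a1 1)).sm y hy)
        contDiffAt_snd
    exact (a2 s y hy).add (((contDiffAt_const.sub contDiffAt_fst).smul e0).add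
      (contDiffAt_fst.smul e1))
  · have e0 : ContDiffAt ℝ ∞ (fun z : ℝ × F => η 0 z.2) (s, x) :=
      ContDiffAt.comp (g := η 0) (s, x) (GenB_slice (a3 0 x hx)) contDiffAt_snd
    have e1 : ContDiffAt ℝ ∞ (fun z : ℝ × F => η 1 z.2) (s, x) :=
      ContDiffAt.comp (g := η 1) (s, x) (GenB_slice (a3 1 x hx)) contDiffAt_snd
    exact (((a3 s x hx).sub ((contDiffAt_const.sub contDiffAt_fst).smul e0)).sub
      (contDiffAt_fst.smul e1)).const_smul _
  · funext y; simp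
  · funext y; simp
  · funext x; simp
  · funext x; simp
  · have hq' : P ((q, 0) : F × F).1 ≠ 0 := core_ne hq
    have e0 := a5 0 q hq u v
    have e1 := a5 1 q hq u v
    have es := a5 s q hq u v
    rw [h0 q hq] at e0
    rw [h1 q hq] at e1
    simp only [jet] at e0 e1 es ⊢
    rw [dF_add ((a1 s).diff hq') (((hl.sub (a1 0)).lin (l0.sub (a1 1)) _ _).diff hq'),
      dF_lin ((hl.sub (a1 0)).diff hq') ((l0.sub (a1 1)).diff hq'),
      dF_sub (hl.diff hq') ((a1 0).diff hq'), dF_sub (l0.diff hq') ((a1 1).diff hq'), dF_lam0 hP]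
    simp only [add_apply, sub_apply, smul_apply, smul_eq_mul]
    rw [alt_swap (a4 s q) (tg P q v), alt_swap (a4 0 q) (tg P q v), alt_swap (a4 1 q) (tg P q v),
      es, e0, e1]
    ring

end Pool.Agent.Lib.MP_ccffa6_gt.ELI
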