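import Pool.Agent.Lib.MP_ccffa6_gt.ELI.Defs

/-!
The wiggle identity.
-/

open Set Filter Topology
open scoped ContDiff

noncomputable section

namespace Pool.Agent.Lib.MP_ccffa6_gt.ELI

variable {E : Type} [NormedAddCommGroup E] [NormedSpace ℝ E]
  {Y : Type} [NormedAddCommGroup Y] [NormedSpace ℝ Y]

theorem W_bd {O K : Set E} (hO : IsOpen O) (hK : IsCompact K) (hKO : K ⊆ O) {f : E → Y}
    (hf : ContDiffOn ℝ ∞ f O) : ∀ᶠ M in atTop, ∀ x ∈ K, ‖f x‖ ≤ M ∧ ‖fderiv ℝ f x‖ ≤ M := by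
  obtain ⟨A, hA⟩ := hK.exists_bound_of_continuousOn (hf.continuousOn.mono hKO)
  obtain ⟨B, hB⟩ := hK.exists_bound_of_continuousOn
    ((hf.continuousOn_fderiv_of_isOpen hO (by simp)).mono hKO)
  filter_upwards [eventually_ge_atTop A, eventually_ge_atTop B] with M h1 h2 x hx
  exact ⟨(hA x hx).trans h1, (hB x hx).trans h2⟩

theorem W_at {O : Set E} (hO : IsOpen O) {f : E → Y} (hf : ContDiffOn ℝ ∞ f O) {x : E}
    (hx : x ∈ O) : HasFDerivAt f (fderiv ℝ f x) x :=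
  ((hf.contDiffAt (hO.mem_nhds hx)).differentiableAt (by simp)).hasFDerivAt

theorem W_smul {c t M : ℝ} {y : Y} (hc : |c| ≤ 1) (ht : 0 ≤ t) (hy : ‖y‖ ≤ M) :
    ‖(t * c) • y‖ ≤ t * M := by
  rw [norm_smul, Real.norm_eq_abs, abs_mul, abs_of_nonneg ht]
  exact mul_le_mul (mul_le_of_le_one_right ht hc) hy (norm_nonneg _) ht

/-- One pass. `e` is the change of the covector:
`(a dφ + b dψ + e) - dz = a' d(φ - δ sin (N ψ))`. -/
theorem wig1 {O K : Set E} (hO : IsOpen O) (hK : IsCompact K) (hKO : K ⊆ O) {φ ψ : E → ℝ}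
    {a b : E → Y} (hφ : ContDiffOn ℝ ∞ φ O) (hψ : ContDiffOn ℝ ∞ ψ O) (ha : ContDiffOn ℝ ∞ a O)
    (hb : ContDiffOn ℝ ∞ b O) {ε : ℝ} (hε : 0 < ε) :
    ∃ (δ : ℝ) (N : ℕ) (a' z : E → Y), |δ| ≤ ε ∧ ContDiffOn ℝ ∞ a' O ∧ ContDiffOn ℝ ∞ z O ∧
      (∀ x, a x = 0 → b x = 0 → a' x = 0 ∧ z x = 0) ∧
      ∀ x ∈ K, ‖z x‖ ≤ ε ∧
        ‖(fderiv ℝ (fun x => φ x - δ * Real.sin (N * ψ x)) x).smulRight (a' x) + fderiv ℝ z x -
          (fderiv ℝ φ x).smulRight (a x) - (fderiv ℝ ψ x).smulRight (b x)‖ ≤ ε := by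
  obtain ⟨M, ⟨⟨bφ, ba⟩, bb⟩, hM⟩ := ((((W_bd hO hK hKO hφ).and (W_bd hO hK hKO ha)).and
    (W_bd hO hK hKO hb)).and (eventually_ge_atTop 1)).exists
  obtain ⟨δ, hδ, h1⟩ : ∃ δ : ℝ, 0 < δ ∧ δ * M = ε / 3 :=
    ⟨ε / 3 / M, by positivity, div_mul_cancel₀ _ (by positivity)⟩
  obtain ⟨N, hN⟩ := exists_nat_gt ((2 * δ⁻¹ * (M * M) + M) / (ε / 3))
  have N0 : (0 : ℝ) < N := lt_trans (by positivity) hN
  rw [div_lt_iff₀ (by positivity), ← inv_mul_lt_iff₀ N0, mul_add] at hN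
  have h2 : 0 ≤ (N : ℝ)⁻¹ * M := by positivity
  have h3 : 0 ≤ (N : ℝ)⁻¹ * (2 * δ⁻¹ * (M * M)) := by positivity
  have cs : ContDiffOn ℝ ∞ (fun x => Real.sin (N * ψ x)) O := (contDiffOn_const.mul hψ).sin
  have cc : ContDiffOn ℝ ∞ (fun x => Real.cos (N * ψ x)) O := (contDiffOn_const.mul hψ).cos
  refine ⟨δ, N, fun x => a x - ((N : ℝ)⁻¹ * (2 * δ⁻¹) * Real.cos (N * ψ x)) • b x,
    fun x => (δ * Real.sin (N * ψ x)) • a x -
      ((N : ℝ)⁻¹ * (Real.sin (N * ψ x) * Real.cos (N * ψ x))) • b x, ?_,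
    ha.sub ((contDiffOn_const.mul cc).smul hb),
    ((contDiffOn_const.mul cs).smul ha).sub ((contDiffOn_const.mul (cs.mul cc)).smul hb),
    fun x e1 e2 => by simp [e1, e2], fun x hx => ?_⟩
  · rw [abs_of_pos hδ]
    nlinarith
  have a1 := Real.abs_sin_le_one (N * ψ x)
  have a2 := Real.abs_cos_le_one (N * ψ x)
  have a3 : |Real.sin (N * ψ x) * Real.cos (N * ψ x)| ≤ 1 := by
    rw [abs_mul]
    exact mul_le_one₀ a1 (abs_nonneg _) a2
  have i0 : (0 : ℝ) ≤ (N : ℝ)⁻¹ := by positivity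
  refine ⟨(norm_sub_le _ _).trans ?_, ?_⟩
  · linarith [W_smul a1 hδ.le (ba x hx).1, W_smul a3 i0 (bb x hx).1]
  have d := (W_at hO hψ (hKO hx)).const_mul (N : ℝ)
  have e : (fderiv ℝ (fun x => φ x - δ * Real.sin (N * ψ x)) x).smulRight
        (a x - ((N : ℝ)⁻¹ * (2 * δ⁻¹) * Real.cos (N * ψ x)) • b x) +
      fderiv ℝ (fun x => (δ * Real.sin (N * ψ x)) • a x -
        ((N : ℝ)⁻¹ * (Real.sin (N * ψ x) * Real.cos (N * ψ x))) • b x) x -
      (fderiv ℝ φ x).smulRight (a x) - (fderiv ℝ ψ x).smulRight (b x) =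
      (δ * Real.sin (N * ψ x)) • fderiv ℝ a x -
        ((N : ℝ)⁻¹ * (Real.sin (N * ψ x) * Real.cos (N * ψ x))) • fderiv ℝ b x -
        ((N : ℝ)⁻¹ * (2 * δ⁻¹) * Real.cos (N * ψ x)) • (fderiv ℝ φ x).smulRight (b x) := by
    rw [((W_at hO hφ (hKO hx)).fun_sub (d.sin.const_mul δ)).fderiv,
      (((d.sin.const_mul δ).fun_smul (W_at hO ha (hKO hx))).fun_sub
        (((d.sin.fun_mul d.cos).const_mul _).fun_smul (W_at hO hb (hKO hx)))).fderiv]
    ext v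
    simp only [add_apply, sub_apply, smul_apply, ContinuousLinearMap.smulRight_apply, smul_eq_mul]
    match_scalars
    · ring
    · linear_combination 2 * Real.cos (N * ψ x) ^ 2 * ((N : ℝ)⁻¹ * N) * fderiv ℝ ψ x v *
        inv_mul_cancel₀ hδ.ne' + fderiv ℝ ψ x v * (Real.sin (N * ψ x) ^ 2 +
        Real.cos (N * ψ x) ^ 2) * inv_mul_cancel₀ N0.ne' +
        fderiv ℝ ψ x v * Real.sin_sq_add_cos_sq (N * ψ x)
    · ring
    · ring
  have a4 : ‖(fderiv ℝ φ x).smulRight (b x)‖ ≤ M * M := by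
    rw [ContinuousLinearMap.norm_smulRight_apply]
    exact mul_le_mul (bφ x hx).2 (bb x hx).1 (norm_nonneg _) (by positivity)
  rw [e]
  refine (norm_sub_le _ _).trans ((add_le_add (norm_sub_le _ _) le_rfl).trans ?_)
  linarith [W_smul a1 hδ.le (ba x hx).2, W_smul a3 i0 (bb x hx).2,
    W_smul a2 (t := (N : ℝ)⁻¹ * (2 * δ⁻¹)) (by positivity) a4]

/-- All passes: `w` is a function of the values `ψ i x` only, `2π`-periodic in each. -/
theorem wig {ι : Type} [Fintype ι] {O K : Set E} (hO : IsOpen O) (hK : IsCompact K) (hKO : K ⊆ O)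
    {φ : E → ℝ} {ψ : ι → E → ℝ} {a : E → Y} {b : ι → E → Y} (hφ : ContDiffOn ℝ ∞ φ O)
    (hψ : ∀ i, ContDiffOn ℝ ∞ (ψ i) O) (ha : ContDiffOn ℝ ∞ a O)
    (hb : ∀ i, ContDiffOn ℝ ∞ (b i) O) {ε : ℝ} (hε : 0 < ε) :
    ∃ (δ : ι → ℝ) (N : ι → ℕ) (a' z : E → Y), ∑ i, |δ i| ≤ ε ∧ ContDiffOn ℝ ∞ a' O ∧
      ContDiffOn ℝ ∞ z O ∧ (∀ x, a x = 0 → (∀ i, b i x = 0) → a' x = 0 ∧ z x = 0) ∧
      ∀ x ∈ K, ‖z x‖ ≤ ε ∧
        ‖(fderiv ℝ (fun x => φ x - ∑ i, δ i * Real.sin (N i * ψ i x)) x).smulRight (a' x) +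
          fderiv ℝ z x - (fderiv ℝ φ x).smulRight (a x) -
          ∑ i, (fderiv ℝ (ψ i) x).smulRight (b i x)‖ ≤ ε := by
  classical
  induction (Finset.univ : Finset ι) using Finset.induction_on generalizing ε with
  | empty => exact ⟨0, 0, a, 0, by simp [hε.le], ha, contDiffOn_const, fun x e _ => ⟨e, rfl⟩,
      fun x _ => by simp [hε.le]⟩
  | insert j s hj ih =>
    obtain ⟨δ, N, a₁, z₁, p1, p2, p3, p4, p5⟩ := ih (half_pos hε)
    obtain ⟨δ', N', a₂, z₂, q1, q2, q3, q4, q5⟩ := wig1 hO hK hKO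
      (φ := fun x => φ x - ∑ i ∈ s, δ i * Real.sin (N i * ψ i x)) (hφ.sub (ContDiffOn.sum
        fun i _ => contDiffOn_const.mul (contDiffOn_const.mul (hψ i)).sin)) (hψ j) p2 (hb j)
      (half_pos hε)
    have e : ∀ f : ι → ℝ → ℕ → ℝ, ∑ i ∈ insert j s, f i (Function.update δ j δ' i)
        (Function.update N j N' i) = ∑ i ∈ s, f i (δ i) (N i) + f j δ' N' := fun f => by
      rw [Finset.sum_insert hj, Function.update_self, Function.update_self, add_comm]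
      congr 1
      exact Finset.sum_congr rfl fun i hi => by
        rw [Function.update_of_ne (ne_of_mem_of_not_mem hi hj),
          Function.update_of_ne (ne_of_mem_of_not_mem hi hj)]
    refine ⟨Function.update δ j δ', Function.update N j N', a₂, fun x => z₁ x + z₂ x,
      (e fun _ d _ => |d|).trans_le (by linarith), q2, p3.add q3, fun x e1 e2 => ?_,
      fun x hx => ⟨(norm_add_le _ _).trans (by linarith [(p5 x hx).1, (q5 x hx).1]), ?_⟩⟩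
    · obtain ⟨r1, r2⟩ := p4 x e1 e2
      simp [r2, q4 x r1 (e2 j)]
    · have := (norm_add_le _ _).trans (add_le_add (q5 x hx).2 (p5 x hx).2)
      simp only [fun x => e fun i d n => d * Real.sin (n * ψ i x), ← sub_sub]
      rw [((W_at hO p3 (hKO hx)).fun_add (W_at hO q3 (hKO hx))).fderiv, Finset.sum_insert hj]
      refine (congrArg _ ?_).trans_le (this.trans_eq (add_halves ε))
      abel

end Pool.Agent.Lib.MP_ccffa6_gt.ELI
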