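import Pool.Agent.Lib.MP_ccffa6_gt.ELI.GenB
import Pool.Agent.Lib.MP_ccffa6_gt.ELI.W

/-!
The defect is almost exact along a wiggled core.
-/

set_option maxSynthPendingDepth 3

open Set Filter Topology
open scoped ContDiff RealInnerProductSpace

noncomputable section

namespace Pool.Agent.Lib.MP_ccffa6_gt.ELI

variable {F : Type} [NormedAddCommGroup F] [InnerProductSpace ℝ F] [FiniteDimensional ℝ F]
  {P : F →L[ℝ] F}

omit [FiniteDimensional ℝ F] in
theorem GenC_norm_P (hP : IsOP P) (x : F) : ‖P x‖ ≤ ‖x‖ := by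
  have h1 : ‖P x‖ * ‖P x‖ = ⟪x, P x⟫ := by
    rw [← real_inner_self_eq_norm_mul_norm, hP.symm, hP.idem]
  have h2 := real_inner_le_norm x (P x)
  by_contra h
  push Not at h
  nlinarith [norm_nonneg x]

omit [FiniteDimensional ℝ F] in
/-- The cone over `f ∘ P ∘ fst` at a point whose momentum lies in the range of `P`. -/
theorem GenC_cone (hP : IsOP P) {f : F × F → F →L[ℝ] ℝ} {q b : F} (hq : q ∈ core P)
    (hb : P b = b) (hf : ContDiffAt ℝ ∞ f (q, b)) {β : Bil F} {ε : ℝ}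
    (h0 : ‖f (q, b)‖ ≤ ε) (h1 : ∀ u, ‖fderiv ℝ f (q, b) u - β (P u.1)‖ ≤ ε * ‖u‖) (u v : F × F) :
    |dF (cone P fun y => (f y).comp (P.comp (ContinuousLinearMap.fst ℝ F F))) (q, b) u v -
      (β (tg P q u) (tg P q v) - β (tg P q v) (tg P q u))| ≤ 12 * ε * ‖u‖ * ‖v‖ := by
  let R : (F →L[ℝ] ℝ) →L[ℝ] F × F →L[ℝ] ℝ :=
    (ContinuousLinearMap.compL ℝ (F × F) F ℝ).flip (P.comp (ContinuousLinearMap.fst ℝ F F))
  have sA : ContDiffAt ℝ ∞ (fun y => (f y).comp (P.comp (ContinuousLinearMap.fst ℝ F F))) (q, b) :=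
    hf.clm_comp contDiffAt_const
  have dA : fderiv ℝ (fun y => (f y).comp (P.comp (ContinuousLinearMap.fst ℝ F F))) (q, b) =
      R.comp (fderiv ℝ f (q, b)) :=
    (R.hasFDerivAt.comp (q, b) (hf.differentiableAt (by simp)).hasFDerivAt).fderiv
  have z0 : Zv P ((q, b) : F × F) = (q, 0) := by rw [Zv_apply]; ext <;> simp [hq.1, hb]
  have ε0 : 0 ≤ ε := (norm_nonneg _).trans h0
  have t : ∀ u : F × F, P (u - ⟪q, u.1⟫ • ((q, 0) : F × F)).1 = tg P q u := fun u => by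
    simp [tg, hq.1]
  have i1 : ∀ u : F × F, |⟪q, u.1⟫| ≤ ‖u‖ := fun u => by
    have := abs_real_inner_le_norm q u.1
    rw [hq.2, one_mul] at this
    exact this.trans (norm_fst_le u)
  have n1 : ∀ u : F × F, ‖u - ⟪q, u.1⟫ • ((q, 0) : F × F)‖ ≤ 2 * ‖u‖ := fun u => by
    refine (norm_sub_le _ _).trans ?_
    rw [norm_smul, Prod.norm_def (q, (0 : F)), Real.norm_eq_abs]
    simp only [hq.2, norm_zero, zero_le_one, max_eq_left, mul_one]
    linarith [i1 u]
  have n2 : ∀ u : F × F, ‖tg P q u‖ ≤ 2 * ‖u‖ := fun u => by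
    rw [← t]; exact (GenC_norm_P hP _).trans ((norm_fst_le _).trans (n1 u))
  have b1 : ∀ u v : F × F, |fderiv ℝ f (q, b) (u - ⟪q, u.1⟫ • ((q, 0) : F × F)) (tg P q v) -
      β (tg P q u) (tg P q v)| ≤ 4 * (ε * (‖u‖ * ‖v‖)) := fun u v => by
    have h2 := h1 (u - ⟪q, u.1⟫ • ((q, 0) : F × F))
    rw [t] at h2
    have h3 := ((fderiv ℝ f (q, b) (u - ⟪q, u.1⟫ • ((q, 0) : F × F)) - β (tg P q u)).le_opNorm
      (tg P q v)).trans (mul_le_mul (h2.trans (mul_le_mul_of_nonneg_left (n1 u) ε0)) (n2 v)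
        (norm_nonneg _) (by positivity))
    rw [sub_apply, Real.norm_eq_abs] at h3
    linarith
  have b2 : ∀ u v : F × F, |⟪q, u.1⟫ * f (q, b) (tg P q v)| ≤ 2 * (ε * (‖u‖ * ‖v‖)) :=
    fun u v => by
    have h3 := ((f (q, b)).le_opNorm (tg P q v)).trans (mul_le_mul h0 (n2 v) (norm_nonneg _) ε0)
    rw [Real.norm_eq_abs] at h3
    have h4 := mul_le_mul (i1 u) h3 (abs_nonneg _) (norm_nonneg _)
    rw [abs_mul]
    linarith
  have r : ∀ (ξ : F →L[ℝ] ℝ) (w : F × F), R ξ w = ξ (P w.1) := fun _ _ => rfl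
  rw [dF_cone hP (core_ht hq b) sA, z0, dF_apply, dA]
  simp only [ContinuousLinearMap.comp_apply, r, hq.1, t, ContinuousLinearMap.coe_fst']
  have c1 := b1 u v
  have c2 := b1 v u
  have c3 := b2 u v
  have c4 := b2 v u
  rw [mul_comm ‖v‖] at c2 c4
  rw [abs_le] at *
  constructor <;> linarith [c1.1, c1.2, c2.1, c2.2, c3.1, c3.2, c4.1, c4.2]

/-- Sketch: `wig` on `ℝ × (F × F)` with values in `F →L[ℝ] ℝ`, `O = {P y.1 ≠ 0}`,
`K = Icc 0 1 ×ˢ Cyl P 1`, `φ = ⟪e, y.2⟫`, `ψ i = ⟪v i, P y.1⟫` for an orthonormal basis `v`,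
`a = 0`, `b i = β s (P y.1) (v i)`; `w x = ∑ i, δ i * sin (N i * ⟪v i, P x⟫)`,
`f = z + (φ - w) • a'`, `B s = cone P fun y => (f (s, y)).comp (P.comp fst)`. At
`y = (q, w q • e)` one has `φ - w = 0`, so `fderiv f (0, u)` is `ε`-close to `β s q (P u.1)`
and `‖f‖ ≤ ε`; `dF_cone`; bound the norm with `ContinuousLinearMap.opNorm_le_bound₂`
(use a smaller `ε`). -/
theorem gen_wig (hP : IsOP P) {e : F} (he : e ∈ core P) {β : ℝ → F → Bil F}
    (hβ : ∀ (s : ℝ) (x : F), P x ≠ 0 → ContDiffAt ℝ ∞ (fun z : ℝ × F => β z.1 z.2) (s, x))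
    {ε : ℝ} (hε : 0 < ε) :
    ∃ (w : F → ℝ) (B : ℝ → Form1 (F × F)), ContDiff ℝ ∞ w ∧ (∀ x, |w x| ≤ ε) ∧
      (∀ x, w (P x) = w x) ∧ (∀ s, Adm P (B s)) ∧
      (∀ (s : ℝ) (y : F × F), P y.1 ≠ 0 →
        ContDiffAt ℝ ∞ (fun z : ℝ × (F × F) => B z.1 z.2) (s, y)) ∧
      (∀ s, β s = 0 → B s = 0) ∧
      ∀ s ∈ Icc (0 : ℝ) 1, ∀ q ∈ core P, ∀ u v : F × F,
        |dF (B s) (q, w q • e) u v -
          (β s q (tg P q u) (tg P q v) - β s q (tg P q v) (tg P q u))| ≤ ε * ‖u‖ * ‖v‖ := by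
  let v := stdOrthonormalBasis ℝ F
  let O : Set (ℝ × (F × F)) := {z | P z.2.1 ≠ 0}
  have hO : IsOpen O := isOpen_ne.preimage continuous_snd
  let φ : ℝ × (F × F) →L[ℝ] ℝ := (innerSL ℝ e).comp
    ((ContinuousLinearMap.snd ℝ F F).comp (ContinuousLinearMap.snd ℝ ℝ (F × F)))
  let ψ : Fin (Module.finrank ℝ F) → ℝ × (F × F) →L[ℝ] ℝ := fun i => (innerSL ℝ (v i)).comp
    (P.comp ((ContinuousLinearMap.fst ℝ F F).comp (ContinuousLinearMap.snd ℝ ℝ (F × F))))
  let b : Fin (Module.finrank ℝ F) → ℝ × (F × F) → F →L[ℝ] ℝ := fun i z => β z.1 (P z.2.1) (v i)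
  have sb : ∀ i, ContDiffOn ℝ ∞ (b i) O := fun i z hz =>
    ((ContDiffAt.comp (g := fun z : ℝ × F => β z.1 z.2)
      (f := fun z : ℝ × (F × F) => (z.1, P z.2.1)) z (hβ z.1 _ (by rwa [hP.idem]))
      (by fun_prop)).clm_apply contDiffAt_const).contDiffWithinAt
  have e0 : 0 < min (ε / 12) 1 := by positivity
  obtain ⟨δ, N, a', z, hδ, sa', sz, h0, hK⟩ := wig (ι := Fin (Module.finrank ℝ F)) hO
    (isCompact_Icc.prod (isCompact_Cyl (P := P) 1)) (K := Icc (0 : ℝ) 1 ×ˢ Cyl P 1)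
    (fun z hz => ne_of_ht hz.2.1) (φ := φ) (ψ := fun i => ψ i) (a := fun _ => (0 : F →L[ℝ] ℝ))
    (b := b) φ.contDiff.contDiffOn (fun i => (ψ i).contDiff.contDiffOn) contDiffOn_const sb e0
  let w : F → ℝ := fun x => ∑ i, δ i * Real.sin (N i * ⟪v i, P x⟫)
  let g : ℝ × (F × F) → ℝ := fun x => φ x - ∑ i, δ i * Real.sin (N i * ψ i x)
  let f : ℝ × (F × F) → F →L[ℝ] ℝ := fun x => z x + g x • a' x
  have sg : ContDiff ℝ ∞ g := φ.contDiff.sub (ContDiff.sum fun i _ =>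
    contDiff_const.mul (Real.contDiff_sin.comp (contDiff_const.mul (ψ i).contDiff)))
  have sf : ∀ x ∈ O, ContDiffAt ℝ ∞ f x := fun x hx =>
    (sz.contDiffAt (hO.mem_nhds hx)).add (sg.contDiffAt.smul (sa'.contDiffAt (hO.mem_nhds hx)))
  have hw : ∀ x, |w x| ≤ min (ε / 12) 1 := fun x =>
    (Finset.abs_sum_le_sum_abs _ _).trans ((Finset.sum_le_sum fun i _ => by
      rw [abs_mul]
      exact mul_le_of_le_one_right (abs_nonneg _) (Real.abs_sin_le_one _)).trans hδ)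
  have sA : ∀ (s : ℝ) (y : F × F), ht P y = 1 → ContDiffAt ℝ ∞ (fun x : ℝ × (F × F) =>
      (f (x.1, x.2)).comp (P.comp (ContinuousLinearMap.fst ℝ F F))) (s, y) := fun s y hy =>
    (sf (s, y) (ne_of_ht hy)).clm_comp contDiffAt_const
  refine ⟨w, fun s => cone P fun y => (f (s, y)).comp (P.comp (ContinuousLinearMap.fst ℝ F F)),
    ContDiff.sum fun i _ => contDiff_const.mul (Real.contDiff_sin.comp
      (contDiff_const.mul (contDiff_const.inner ℝ P.contDiff))),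
    fun x => (hw x).trans ((min_le_left _ _).trans (by linarith)),
    fun x => by simp only [w, hP.idem], fun s => adm_cone hP fun y hy => GenB_slice
      (f := fun s y => (f (s, y)).comp (P.comp (ContinuousLinearMap.fst ℝ F F))) (sA s y hy),
    fun s y hy => GenB_cone_fam hP
      (A := fun s y => (f (s, y)).comp (P.comp (ContinuousLinearMap.fst ℝ F F))) sA s hy,
    fun s hs => ?_, fun s hs q hq u u' => ?_⟩
  · funext y
    obtain ⟨h1, h2⟩ := h0 (s, nz P y) rfl fun i => by simp [b, hs]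
    simp [cone, pb, f, h1, h2]
  · have hb : P (w q • e) = w q • e := by rw [map_smul, he.1]
    have hx : ((s, (q, w q • e)) : ℝ × (F × F)) ∈ Icc (0 : ℝ) 1 ×ˢ Cyl P 1 := by
      refine ⟨hs, core_ht hq _, ?_⟩
      rw [nu_apply, Prod.norm_def]
      simp only [hq.1, sub_self, norm_zero, norm_smul, he.2, mul_one, Real.norm_eq_abs]
      exact max_le zero_le_one ((hw q).trans (min_le_right _ _))
    have hxO : ((s, (q, w q • e)) : ℝ × (F × F)) ∈ O := ne_of_ht hx.2.1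
    obtain ⟨k0, k1⟩ := hK _ hx
    have g0 : g (s, (q, w q • e)) = 0 := by
      have : φ (s, (q, w q • e)) = w q := by
        change ⟪e, w q • e⟫ = w q
        rw [real_inner_smul_right, real_inner_self_eq_norm_mul_norm, he.2]; ring
      simp only [g, this]
      exact sub_self _
    have dz := ((sz.contDiffAt (hO.mem_nhds hxO)).differentiableAt (by simp)).hasFDerivAt
    have da := ((sa'.contDiffAt (hO.mem_nhds hxO)).differentiableAt (by simp)).hasFDerivAt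
    have dg := (sg.differentiable (by simp) (s, (q, w q • e))).hasFDerivAt
    have df := (dz.add (dg.smul da)).comp (q, w q • e)
      (hasFDerivAt_prodMk_right (𝕜 := ℝ) s ((q, w q • e) : F × F))
    have key := GenC_cone hP (f := fun y => f (s, y)) hq hb
      (GenB_slice (f := fun s y => f (s, y)) (sf _ hxO)) (β := β s q) (ε := ε / 12)
      (by simpa [f, g0] using k0.trans (min_le_left _ _)) (fun u => ?_) u u'
    · convert key using 3
      ring
    · have k2 := (ContinuousLinearMap.le_opNorm _ ((0, u) : ℝ × (F × F))).trans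
        (mul_le_mul_of_nonneg_right (k1.trans (min_le_left _ _)) (norm_nonneg _))
      have e1 : β s q (P u.1) = ∑ i, ⟪v i, P u.1⟫ • β s q (v i) := by
        conv_lhs => rw [← v.sum_repr' (P u.1)]
        simp
      rw [show fderiv ℝ (fun y => f (s, y)) (q, w q • e) = _ from df.fderiv, e1]
      have n0 : ‖((0, u) : ℝ × (F × F))‖ = ‖u‖ := by simp [Prod.norm_def ((0 : ℝ), u)]
      rw [n0] at k2
      refine le_of_eq_of_le (congrArg norm ?_) k2
      have p : ∀ i, ψ i (0, u) = ⟪v i, P u.1⟫ := fun i => rfl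
      simp only [ContinuousLinearMap.comp_apply, ContinuousLinearMap.inr_apply, add_apply,
        sub_apply, g0, zero_smul, zero_add, ContinuousLinearMap.smulRight_apply, smul_zero,
        sub_zero, sum_apply, ContinuousLinearMap.fderiv, p, b, hq.1]
      rw [add_comm]

end Pool.Agent.Lib.MP_ccffa6_gt.ELI
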