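import Pool.Agent.Lib.MP_ccffa6_gt.ELI.GenA
import Pool.Agent.Lib.MP_ccffa6_gt.ELI.GenC

/-!
The formal path is realised by contact forms near the core.
-/

open Set Filter Topology
open scoped ContDiff RealInnerProductSpace

noncomputable section

namespace Pool.Agent.Lib.MP_ccffa6_gt.ELI

variable {F : Type} [NormedAddCommGroup F] [InnerProductSpace ℝ F] [FiniteDimensional ℝ F]
  {P : F →L[ℝ] F}

section

variable (A : Type) [NormedAddCommGroup A] [NormedSpace ℝ A]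

theorem GenD_comb {X : Type} [TopologicalSpace X] {a b c d : X → A} {t : X → ℝ} {x : X}
    (ha : ContinuousAt a x) (hb : ContinuousAt b x) (hc : ContinuousAt c x) (hd : ContinuousAt d x)
    (ht : ContinuousAt t x) :
    ContinuousAt (fun z => a z + (1 - t z) • (b z - c z) + t z • d z) x :=
  (ha.add ((continuousAt_const.sub ht).smul (hb.sub hc))).add (ht.smul hd)

theorem GenD_est {a b c d : A} {t η : ℝ} (ht : t ∈ Icc (0 : ℝ) 1) (h1 : ‖a - c‖ ≤ η / 2)
    (h2 : ‖d - (b - c)‖ ≤ η / 2) : ‖a + (1 - t) • (b - c) + t • d - b‖ ≤ η := by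
  have e1 : a + (1 - t) • (b - c) + t • d - b = (a - c) + t • (d - (b - c)) := by module
  rw [e1]
  refine (norm_add_le _ _).trans ?_
  rw [norm_smul, Real.norm_of_nonneg ht.1]
  linarith [(mul_le_of_le_one_left (norm_nonneg _) ht.2).trans h2]

theorem GenD_uc {X : Type} [PseudoMetricSpace X] {S : Set X} (hS : IsCompact S) {f : X → A}
    (hf : ContinuousOn f S) {η : ℝ} (hη : 0 < η) :
    ∃ δ > 0, ∀ x ∈ S, ∀ y ∈ S, dist x y ≤ δ → ‖f x - f y‖ ≤ η := by
  simpa only [dist_eq_norm] using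
    Metric.uniformContinuousOn_iff_le.1 (hS.uniformContinuousOn_of_continuous hf) η hη

end

theorem GenD_ext {w w' : Bil (F × F)} (h : ∀ u v, w u v = w' u v) : w = w' :=
  ContinuousLinearMap.ext fun u => ContinuousLinearMap.ext (h u)

theorem GenD_pbB {X : Type} [TopologicalSpace X] {M : X → F × F →L[ℝ] F × F}
    {w : X → Bil (F × F)} {x : X} (hM : ContinuousAt M x) (hw : ContinuousAt w x) :
    ContinuousAt (fun z => pbB (M z) (w z)) x :=
  ContinuousAt.comp (f := fun z => (M z, w z)) continuous_pbB.continuousAt (hM.prodMk hw)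

/-- The wiggling section. -/
def GenD_sec (P : F →L[ℝ] F) (w : F → ℝ) (e : F) (c : ℝ) (x : F) : F := (c * w (hat P x)) • e

theorem GenD_sect (hP : IsOP P) {e : F} (he : e ∈ core P) {w : F → ℝ} (hw : ContDiff ℝ ∞ w)
    (c : ℝ) : Sect P (GenD_sec P w e c) := by
  refine ⟨fun a ha => (contDiffAt_const.mul (hw.contDiffAt.comp a (contDiffAt_hat ha))).smul
    contDiffAt_const, fun ρ hρ a _ => ?_⟩
  rw [GenD_sec, GenD_sec, hat_sa hP hρ, map_smul, sb_apply, he.1]
  simp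

theorem GenD_tr {e : F} {w : F → ℝ} (hw : ContDiff ℝ ∞ w) (c : ℝ) {y : F × F} (hy : P y.1 ≠ 0) :
    ContDiffAt ℝ ∞ (fun z : ℝ × (F × F) => tr (GenD_sec P w e z.1) z.2) (c, y) := by
  have h1 : ContDiffAt ℝ ∞ (fun z : ℝ × (F × F) => hat P z.2.1) (c, y) :=
    ContDiffAt.comp (c, y) (g := hat P) (contDiffAt_hat hy) contDiffAt_snd.fst
  exact contDiffAt_snd.fst.prodMk (contDiffAt_snd.snd.add
    ((contDiffAt_fst.mul (hw.contDiffAt.comp _ h1)).smul contDiffAt_const))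

theorem GenD_zero (w : F → ℝ) (e : F) : tr (GenD_sec P w e 0) = id := by
  funext y
  simp [tr, GenD_sec]

theorem GenD_core {q : F} (hq : q ∈ core P) (w : F → ℝ) (e : F) (c : ℝ) :
    GenD_sec P w e c q = (c * w q) • e := by
  rw [GenD_sec, hat_of_norm (by rw [hq.1, hq.2])]

theorem GenD_cyl {q b : F} (hq : q ∈ core P) (hb : ‖b‖ ≤ 1) : (q, b) ∈ Cyl P 1 := by
  refine ⟨core_ht hq b, ?_⟩
  rw [nu_apply]
  simpa [hq.1] using hb

theorem GenD_dF0 (y u v : F × F) : dF (0 : Form1 (F × F)) y u v = 0 := by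
  simp [dF_apply]

theorem GenD_time : ∃ σ ρ : ℝ → ℝ, ContDiff ℝ ∞ σ ∧ ContDiff ℝ ∞ ρ ∧ σ 0 = 0 ∧ σ 1 = 1 ∧
    ρ 0 = 0 ∧ ρ 1 = 0 ∧ (∀ s, σ s ∈ Icc (0 : ℝ) 1) ∧ (∀ s, ρ s ∈ Icc (0 : ℝ) 1) ∧
    ∀ s, σ s = 0 ∨ σ s = 1 ∨ ρ s = 1 := by
  refine ⟨fun s => Real.smoothTransition (3 * s - 1),
    fun s => Real.smoothTransition (3 * s) * Real.smoothTransition (3 - 3 * s),
    Real.smoothTransition.contDiff.comp (by fun_prop),
    (Real.smoothTransition.contDiff.comp (by fun_prop)).mul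
      (Real.smoothTransition.contDiff.comp (by fun_prop)),
    Real.smoothTransition.zero_of_nonpos (by norm_num),
    Real.smoothTransition.one_of_one_le (by norm_num), by simp, by simp,
    fun s => ⟨Real.smoothTransition.nonneg _, Real.smoothTransition.le_one _⟩,
    fun s => ⟨mul_nonneg (Real.smoothTransition.nonneg _) (Real.smoothTransition.nonneg _),
      mul_le_one₀ (Real.smoothTransition.le_one _) (Real.smoothTransition.nonneg _)
        (Real.smoothTransition.le_one _)⟩, fun s => ?_⟩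
  rcases le_total (3 * s) 1 with h | h
  · exact Or.inl (Real.smoothTransition.zero_of_nonpos (by linarith))
  rcases le_total 2 (3 * s) with h' | h'
  · exact Or.inr (Or.inl (Real.smoothTransition.one_of_one_le (by linarith)))
  · refine Or.inr (Or.inr ?_)
    show Real.smoothTransition (3 * s) * Real.smoothTransition (3 - 3 * s) = 1
    rw [Real.smoothTransition.one_of_one_le h,
      Real.smoothTransition.one_of_one_le (by linarith), mul_one]

theorem GenD_unif {pre : ℝ → Form1 (F × F)} (hs : ∀ (s : ℝ) (y : F × F), P y.1 ≠ 0 →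
    ContDiffAt ℝ ∞ (fun z : ℝ × (F × F) => pre z.1 z.2) (s, y)) {η : ℝ} (hη : 0 < η) :
    ∃ δ > 0, ∀ s ∈ Icc (0 : ℝ) 1, ∀ q ∈ core P, ∀ b : F, ‖b‖ ≤ δ →
      ‖dF (pre s) (q, b) - jet (pre s) q‖ ≤ η := by
  have h1 : ContinuousOn (fun z : ℝ × (F × F) => dF (pre z.1) z.2) (Icc 0 1 ×ˢ Cyl P 1) :=
    fun z hz => (contDiffAt_dF_fam (hs z.1 z.2 (ne_of_ht hz.2.1))).continuousAt.continuousWithinAt
  obtain ⟨δ, hδ, h2⟩ := GenD_uc (Bil (F × F)) (isCompact_Icc.prod (isCompact_Cyl 1)) h1 hη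
  refine ⟨min δ 1, lt_min hδ one_pos, fun s hs q hq b hb => ?_⟩
  refine h2 (s, q, b) ⟨hs, GenD_cyl hq (hb.trans (min_le_right _ _))⟩ (s, q, 0)
    ⟨hs, GenD_cyl hq (by simp)⟩ ?_
  simpa [Prod.dist_eq, hδ.le] using hb.trans (min_le_left _ _)

/-- The formal path is realised by a path of contact forms near the core. -/
theorem genuine (hP : IsOP P) {lam : Form1 (F × F)} (hl : Adm P lam) {a : Lf P}
    (ha : a.Over (jet lam)) :
    ∃ r > 0, ∃ fam : ℝ → Form1 (F × F), (∀ s ∈ Icc (0 : ℝ) 1, Adm P (fam s)) ∧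
      (∀ s ∈ Icc (0 : ℝ) 1, Ct P r (fam s)) ∧
      ContinuousOn (fun z : ℝ × (F × F) => dF (fam z.1) z.2) (Icc 0 1 ×ˢ {y | P y.1 ≠ 0}) ∧
      (∀ y : F × F, P y.1 ≠ 0 → fam 0 y = lam y) ∧
      (∀ y : F × F, P y.1 ≠ 0 → fam 1 y = lam0 P y) ∧
      Co (fun s => jet (fam s)) a (bas P) := by
  rcases (core P).eq_empty_or_nonempty with h0 | ⟨e, he⟩
  · have h1 : ∀ x, ¬ P x ≠ 0 := fun x hx => (h0 ▸ unit_mem_core hP hx :)
    obtain ⟨c, hc⟩ := Lift.exists_co a
    exact ⟨1, one_pos, fun _ => lam, fun _ _ => hl, fun _ _ y hy => absurd (ne_of_ht hy.1) (h1 _),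
      fun z hz => absurd hz.2 (h1 _), fun _ _ => rfl, fun y hy => absurd hy (h1 _),
      hc.congr fun _ _ q hq => absurd (core_ne hq) (h1 _)⟩
  obtain ⟨Ω, hΩ, halt, hco⟩ := gen_smooth hP hl ha
  have h0 := hco.over_left.eq ha
  have h1 : ∀ q ∈ core P, Ω 1 q = om0 F := hco.over_right.eq Lift.base_over
  obtain ⟨pre, β, hpre, spre, hβ, p0, p1, b0, b1, hdef⟩ := gen_pre hP hl hΩ halt h0 h1
  obtain ⟨σ, ρ, hσ, hρ, s0, s1, r0, r1, mσ, mρ, hor⟩ := GenD_time
  have hfam := hco.fam isCompact_core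
  obtain ⟨η, hη, hnd⟩ := nd_unif ((isCompact_Icc.prod isCompact_core).image_of_continuousOn
    hfam.cont) (by rintro _ ⟨z, hz, rfl⟩; exact hfam.nd _ hz.1 _ hz.2)
  obtain ⟨δ, hδ, hu⟩ := GenD_unif spre (half_pos hη)
  have hσ' : ∀ {X : Type} [NormedAddCommGroup X] [NormedSpace ℝ X] (z : ℝ × X),
      ContDiffAt ℝ ∞ (fun z : ℝ × X => (σ z.1, z.2)) z := fun z =>
    ((hσ.comp contDiff_fst).prodMk contDiff_snd).contDiffAt
  obtain ⟨w, B, hw, hwε, -, hB, sB, hB0, hest⟩ := gen_wig hP he (β := fun s => β (σ s))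
    (fun s x hx => ContDiffAt.comp (s, x) (g := fun z : ℝ × F => β z.1 z.2) (hβ (σ s) x hx)
      (hσ' _)) (lt_min hδ (half_pos hη))
  have hor' : ∀ s, B s = 0 ∨ ρ s = 1 := fun s => by
    rcases hor s with h | h | h
    · exact Or.inl (hB0 s (by rw [h, b0]))
    · exact Or.inl (hB0 s (by rw [h, b1]))
    · exact Or.inr h
  let fam : ℝ → Form1 (F × F) := fun s =>
    pb (tr (GenD_sec P w e (ρ s))) fun y => pre (σ s) y + B s y
  let Br : ℝ × ℝ → F → Bil (F × F) := fun z q =>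
    dF (pre (σ z.1)) (q, (z.2 * ρ z.1 * w q) • e) +
      (1 - z.2) • (Ω (σ z.1) q - jet (pre (σ z.1)) q) + z.2 • dF (B z.1) (q, w q • e)
  let K : ℝ × ℝ → F → Bil (F × F) := fun z q =>
    pbB (fderiv ℝ (tr (GenD_sec P w e (z.2 * ρ z.1))) (q, 0)) (Br z q)
  have hK : Fam (Icc (0 : ℝ) 1 ×ˢ Icc (0 : ℝ) 1) (core P) K := by
    refine ⟨fun z hz => ContinuousAt.continuousWithinAt ?_, fun z hz q hq => ?_⟩
    · have hq := core_ne hz.2
      have c0 := hσ.continuous
      have c0' := hρ.continuous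
      have c0'' := hw.continuous
      have c1 : ContinuousAt (fun z : (ℝ × ℝ) × F =>
          fderiv ℝ (tr (GenD_sec P w e (z.1.2 * ρ z.1.1))) (z.2, 0)) z :=
        ContinuousAt.comp (f := fun z : (ℝ × ℝ) × F => (z.1.2 * ρ z.1.1, z.2, (0 : F)))
          (contDiffAt_fderiv_fam (f := fun c => tr (GenD_sec P w e c))
            (GenD_tr hw _ hq)).continuousAt (by fun_prop)
      have c2 : ContinuousAt (fun z : (ℝ × ℝ) × F =>
          dF (pre (σ z.1.1)) (z.2, (z.1.2 * ρ z.1.1 * w z.2) • e)) z :=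
        ContinuousAt.comp (f := fun z : (ℝ × ℝ) × F =>
          (σ z.1.1, z.2, (z.1.2 * ρ z.1.1 * w z.2) • e))
          (contDiffAt_dF_fam (spre _ _ hq)).continuousAt (by fun_prop)
      have c3 : ContinuousAt (fun z : (ℝ × ℝ) × F => Ω (σ z.1.1) z.2) z :=
        ContinuousAt.comp (f := fun z : (ℝ × ℝ) × F => (σ z.1.1, z.2))
          (hΩ _ _ hq).continuousAt (by fun_prop)
      have c4 : ContinuousAt (fun z : (ℝ × ℝ) × F => jet (pre (σ z.1.1)) z.2) z :=
        ContinuousAt.comp (f := fun z : (ℝ × ℝ) × F => (σ z.1.1, z.2, (0 : F)))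
          (contDiffAt_dF_fam (spre _ _ hq)).continuousAt (by fun_prop)
      have c5 : ContinuousAt (fun z : (ℝ × ℝ) × F => dF (B z.1.1) (z.2, w z.2 • e)) z :=
        ContinuousAt.comp (f := fun z : (ℝ × ℝ) × F => (z.1.1, z.2, w z.2 • e))
          (contDiffAt_dF_fam (sB _ _ hq)).continuousAt (by fun_prop)
      have c6 : ContinuousAt (fun z : (ℝ × ℝ) × F => Br z.1 z.2) z :=
        GenD_comb (Bil (F × F)) c2 c3 c4 c5 continuousAt_fst.snd
      exact GenD_pbB c1 c6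
    · have e2 := hu _ (mσ z.1) q hq ((z.2 * ρ z.1 * w q) • e) (by
        rw [norm_smul, he.2, mul_one, norm_mul, Real.norm_of_nonneg (mul_nonneg hz.2.1 (mρ _).1)]
        exact (mul_le_of_le_one_left (norm_nonneg _)
          (mul_le_one₀ hz.2.2 (mρ _).1 (mρ _).2)).trans ((hwε q).trans (min_le_left _ _)))
      have e3 : ‖dF (B z.1) (q, w q • e) - (Ω (σ z.1) q - jet (pre (σ z.1)) q)‖ ≤ min δ (η / 2) := by
        refine ContinuousLinearMap.opNorm_le_bound₂ _ (lt_min hδ (half_pos hη)).le fun u v => ?_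
        have e4 := hest z.1 hz.1 q hq u v
        simpa [hdef (σ z.1) q hq u v] using e4
      have e4 : ‖Br z q - Ω (σ z.1) q‖ ≤ η :=
        GenD_est (Bil (F × F)) hz.2 e2 (e3.trans (min_le_right _ _))
      have e5 : ND ⊤ (Br z q) := hnd (Ω (σ z.1) q) ⟨(σ z.1, q), ⟨mσ _, hq⟩, rfl⟩ (Br z q)
        (fun u => by simp [Br, jet, dF_alt, halt]) e4
      exact nd_pbB (inj_fderiv_tr (y := (q, 0))
        (((GenD_sect hP he hw _).sm q (core_ne hq)).differentiableAt (by simp))) e5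
  have hend : ∀ s t, ∀ q ∈ core P, ρ s = 0 → Ω (σ s) q = jet (pre (σ s)) q →
      K (s, t) q = jet (pre (σ s)) q := by
    intro s t q _ h2 h3
    have h4 : B s = 0 := (hor' s).resolve_right (by rw [h2]; exact zero_ne_one)
    simp only [K, h2, mul_zero, GenD_zero, fderiv_id, pbB_id]
    exact GenD_ext fun u v => by simp [Br, h2, h3, h4, GenD_dF0, jet]
  have e0 : ∀ t, ∀ q ∈ core P, K (0, t) q = jet (pre (σ 0)) q := fun t q hq =>
    hend 0 t q hq r0 (by rw [s0, p0, h0 q hq])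
  have e1 : ∀ t, ∀ q ∈ core P, K (1, t) q = jet (pre (σ 1)) q := fun t q hq =>
    hend 1 t q hq r1 (by rw [s1, p1, h1 q hq, jet, dF_lam0 hP])
  have hadm : ∀ s, Adm P fun y => pre (σ s) y + B s y := fun s => (hpre _).add (hB s)
  have hc1 : Co (fun s => K (s, 0)) a (bas P) :=
    (hco.reparam isCompact_core hσ.continuous s0 s1 fun s _ => mσ s).congr fun s _ q _ => by
      simp only [K, zero_mul, GenD_zero, fderiv_id, pbB_id]
      exact GenD_ext fun u v => by simp [Br, jet]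
  have hc2 : Co (fun s => jet (fam s)) a (bas P) :=
    ((Co.homot hK (fun t _ q hq => (e0 t q hq).trans (e0 0 q hq).symm)
      fun t _ q hq => (e1 t q hq).trans (e1 0 q hq).symm).1 hc1).congr fun s _ q hq => by
      have h2 : P (q, (ρ s * w q) • e).1 ≠ 0 := core_ne hq
      have h3 : tr (GenD_sec P w e (ρ s)) (q, 0) = (q, (ρ s * w q) • e) := by
        simp [tr, GenD_core hq]
      have h4 : dF (B s) (q, w q • e) = dF (B s) (q, (ρ s * w q) • e) := by
        rcases hor' s with h | h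
        · exact GenD_ext fun u v => by rw [h, GenD_dF0, GenD_dF0]
        · rw [h, one_mul]
      rw [jet, ((GenD_sect hP he hw (ρ s)).eqv_tr hP).dF_pb (hadm s) (y := (q, 0)) (core_ne hq),
        h3, dF_add ((hpre _).diff h2) ((hB _).diff h2)]
      simp only [K, one_mul]
      exact congrArg _ (GenD_ext fun u v => by simp [Br, h4])
  have hcont : ContinuousOn (fun z : ℝ × (F × F) => dF (fam z.1) z.2)
      (Icc 0 1 ×ˢ {y | P y.1 ≠ 0}) := by
    refine fun z hz => (contDiffAt_dF_fam ?_).continuousAt.continuousWithinAt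
    have c1 : ContDiffAt ℝ ∞ (fun z : ℝ × (F × F) => tr (GenD_sec P w e (ρ z.1)) z.2) (z.1, z.2) :=
      ContDiffAt.comp (z.1, z.2) (g := fun z : ℝ × (F × F) => tr (GenD_sec P w e z.1) z.2)
        (f := fun z : ℝ × (F × F) => (ρ z.1, z.2)) (GenD_tr hw _ hz.2)
        ((hρ.comp contDiff_fst).prodMk contDiff_snd).contDiffAt
    have c2 : P (tr (GenD_sec P w e (ρ z.1)) z.2).1 ≠ 0 := hz.2
    have c3 := ContDiffAt.comp (z.1, z.2) (g := fun z : ℝ × (F × F) => pre z.1 z.2)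
      (f := fun z : ℝ × (F × F) => (σ z.1, tr (GenD_sec P w e (ρ z.1)) z.2)) (spre _ _ c2)
      ((hσ.comp contDiff_fst).contDiffAt.prodMk c1)
    have c4 := ContDiffAt.comp (z.1, z.2) (g := fun z : ℝ × (F × F) => B z.1 z.2)
      (f := fun z : ℝ × (F × F) => (z.1, tr (GenD_sec P w e (ρ z.1)) z.2)) (sB _ _ c2)
      (contDiffAt_fst.prodMk c1)
    exact (c3.add c4).clm_comp
      (contDiffAt_fderiv_fam (f := fun s => tr (GenD_sec P w e (ρ s))) c1)
  obtain ⟨r, hr, hct⟩ := exists_ct hP hcont (hc2.fam isCompact_core).nd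
  refine ⟨r, hr, fam, fun s _ => ((GenD_sect hP he hw (ρ s)).eqv_tr hP).adm hP (hadm s), hct,
    hcont, fun y _ => ?_, fun y _ => ?_, hc2⟩
  · simp [fam, pb, r0, s0, p0, GenD_zero, hB0 0 (by rw [s0, b0])]
  · simp [fam, pb, r1, s1, p1, GenD_zero, hB0 1 (by rw [s1, b1])]

end Pool.Agent.Lib.MP_ccffa6_gt.ELI
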