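import Pool.Agent.Lib.MP_ccffa6_gt.ELI.HD
import Pool.Agent.Lib.MP_ccffa6_gt.K.Forms

/-! Algebra of the handle model. -/

open Set Filter Topology Metric
open scoped ContDiff RealInnerProductSpace

noncomputable section

namespace Pool.Agent.Lib.MP_ccffa6_gt

variable {F : Type} [NormedAddCommGroup F] [InnerProductSpace ℝ F] [FiniteDimensional ℝ F]
  {P : F →L[ℝ] F}

theorem hX_apply (p : F × F) : hX P p =
    ((1 / 2 : ℝ) • p.1 - (3 / 2 : ℝ) • P p.1, (1 / 2 : ℝ) • p.2 + (3 / 2 : ℝ) • P p.2) := rfl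

theorem hom_apply (u v : F × F) :
    hom P u v = ⟪(2 : ℝ) • P u.2 - u.2, v.1⟫ - ⟪(2 : ℝ) • P v.2 - v.2, u.1⟫ := rfl

theorem hsg_apply (p u : F × F) : hsg P p u = -⟪P p.1, u.1⟫ := rfl

theorem hio_apply (p u : F × F) : hio P p u = (u - hsg P p u • hX P p, hsg P p u) := rfl

theorem halg_omI (A : Form1 (F × F)) (p u v : F × F) : OmI P A p u v =
    dF A p (u - hsg P p u • hX P p) (v - hsg P p v • hX P p) +
      (hsg P p u * A p (v - hsg P p v • hX P p) - A p (u - hsg P p u • hX P p) * hsg P p v) :=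
  symz_apply A p (hio P p u) (hio P p v)

theorem halg_cd {G : F × F → F} (h : ContDiff ℝ ∞ G) : ContDiff ℝ ∞ fun p => ‖G p‖ ^ 2 :=
  h.norm_sq ℝ

theorem contDiff_hs : ContDiff ℝ ∞ (hs P) := halg_cd (by fun_prop)
theorem contDiff_hr : ContDiff ℝ ∞ (hr P) := (halg_cd (by fun_prop)).add (halg_cd (by fun_prop))
theorem contDiff_hI : ContDiff ℝ ∞ (hI P) :=
  ((halg_cd (by fun_prop)).mul (contDiff_hs.pow 2)).add
    ((((halg_cd (by fun_prop)).add (halg_cd (by fun_prop))).pow 2).mul contDiff_hs)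
theorem contDiff_hlam : ContDiff ℝ ∞ (hlam P) := ((hom P).comp (hX P)).contDiff
theorem contDiff_hsg : ContDiff ℝ ∞ (hsg P) :=
  contDiff_clm_apply_iff.2 fun u =>
    (ContDiff.inner ℝ (f := fun p : F × F => P p.1) (by fun_prop) (contDiff_const (c := u.1))).neg
theorem contDiff_hio : ContDiff ℝ ∞ (hio P) :=
  contDiff_clm_apply_iff.2 fun u => (contDiff_const.sub ((contDiff_hsg.clm_apply
    contDiff_const).smul (hX P).contDiff)).prodMk (contDiff_hsg.clm_apply (contDiff_const (c := u)))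
theorem contDiff_OmI {A : Form1 (F × F)} (h : ContDiff ℝ ∞ A) : ContDiff ℝ ∞ (OmI P A) :=
  contDiff_clm_apply_iff.2 fun u => contDiff_clm_apply_iff.2 fun v =>
    ((contDiff_symz h).clm_apply (contDiff_hio.clm_apply (contDiff_const (c := u)))).clm_apply
      (contDiff_hio.clm_apply (contDiff_const (c := v)))
theorem hs_nonneg (p : F × F) : 0 ≤ hs P p := sq_nonneg _
theorem hr_nonneg (p : F × F) : 0 ≤ hr P p := add_nonneg (sq_nonneg _) (sq_nonneg _)
theorem hI_nonneg (p : F × F) : 0 ≤ hI P p :=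
  add_nonneg (mul_nonneg (sq_nonneg _) (sq_nonneg _)) (mul_nonneg (sq_nonneg _) (hs_nonneg p))
theorem isOpen_hU : IsOpen (hU P) :=
  (isOpen_lt continuous_const contDiff_hs.continuous).inter
    ((isOpen_lt contDiff_hs.continuous continuous_const).inter
      (isOpen_lt contDiff_hr.continuous continuous_const))
theorem hCore_subset : hCore P ⊆ hCyl P ∩ hU P := fun p hp =>
  ⟨hp.1, by rw [hp.1]; norm_num, by rw [hp.1]; norm_num, by rw [hp.2]; norm_num⟩
theorem isClosed_hCyl : IsClosed (hCyl P) := isClosed_eq contDiff_hs.continuous continuous_const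

theorem OPr.halg_PP (h : OPr P) (a b : F) : ⟪P a, P b⟫ = ⟪P a, b⟫ := by
  rw [← h.symm, h.idem]

theorem OPr.pyth (h : OPr P) (a : F) : ‖a‖ ^ 2 = ‖P a‖ ^ 2 + ‖a - P a‖ ^ 2 := by
  rw [norm_sub_sq_real, real_inner_comm, ← h.halg_PP, real_inner_self_eq_norm_sq]
  ring

theorem OPr.sq_le (h : OPr P) (p : F × F) :
    ‖p‖ ^ 2 ≤ hs P p + hr P p ∧ hs P p + hr P p ≤ 2 * ‖p‖ ^ 2 := by
  have h1 := h.pyth p.1
  have h2 := pow_le_pow_left₀ (norm_nonneg _) (norm_fst_le p) 2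
  have h3 := pow_le_pow_left₀ (norm_nonneg _) (norm_snd_le p) 2
  have h4 := sq_nonneg ‖p.1‖
  have h5 := sq_nonneg ‖p.2‖
  unfold hs hr
  refine ⟨?_, by linarith⟩
  rw [Prod.norm_def]
  rcases max_choice ‖p.1‖ ‖p.2‖ with h6 | h6 <;> rw [h6] <;> linarith

theorem OPr.compact_cyl (h : OPr P) (c : ℝ) : IsCompact {p | p ∈ hCyl P ∧ hr P p ≤ c} := by
  refine (isCompact_closedBall (0 : F × F) (|c| + 2)).of_isClosed_subset
    (isClosed_hCyl.inter (isClosed_le contDiff_hr.continuous continuous_const)) fun p hp => ?_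
  have h1 := (h.sq_le p).1
  have h2 : hs P p = 1 := hp.1
  have h3 := abs_nonneg c
  refine mem_closedBall_zero_iff.2 (le_of_pow_le_pow_left₀ two_ne_zero (by linarith) ?_)
  nlinarith [hp.2, le_abs_self c]

theorem OPr.compact_core (h : OPr P) : IsCompact (hCore P) := by
  convert h.compact_cyl 0 using 1
  exact Set.ext fun p => and_congr_right fun _ => ⟨le_of_eq, fun h => h.antisymm (hr_nonneg p)⟩

theorem OPr.hU_subset (h : OPr P) : hU P ⊆ ball 0 2 := fun p hp => by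
  have h1 := (h.sq_le p).1
  refine mem_ball_zero_iff.2 (lt_of_pow_lt_pow_left₀ 2 zero_le_two ?_)
  linarith [hp.2.1, hp.2.2]

/-- `(a, b) ↦ (P a, 0)` retracts the cylinder onto the core. -/
theorem OPr.retr (h : OPr P) {p : F × F} (hp : p ∈ hCyl P) : ((P p.1, 0) : F × F) ∈ hCore P :=
  ⟨(congrArg (fun a => ‖a‖ ^ 2) (h.idem p.1)).trans hp, by simp [hr, h.idem]⟩

theorem OPr.retr_self (h : OPr P) {p : F × F} (hp : p ∈ hCore P) : ((P p.1, 0) : F × F) = p := by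
  obtain ⟨h1, h2⟩ := (add_eq_zero_iff_of_nonneg (sq_nonneg _) (sq_nonneg _)).1 hp.2
  rw [sq_eq_zero_iff, norm_eq_zero] at h1 h2
  exact Prod.ext (sub_eq_zero.1 h1).symm h2.symm

theorem OPr.nd_hom (h : OPr P) : ND ⊤ (hom P) := by
  have key : ∀ a : F, (2 : ℝ) • P ((2 : ℝ) • P a - a) - ((2 : ℝ) • P a - a) = a := fun a => by
    rw [map_sub, map_smul, h.idem]
    module
  refine ⟨fun u _ => sub_self _, fun u _ hu => Prod.ext ?_ ?_⟩
  · have h1 := hu (0, (2 : ℝ) • P u.1 - u.1) trivial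
    rw [hom_apply, key] at h1
    simpa using h1
  · have h1 := hu ((2 : ℝ) • P u.2 - u.2, 0) trivial
    rw [hom_apply] at h1
    have h2 : (2 : ℝ) • P u.2 - u.2 = 0 := by simpa using h1
    rw [← key u.2, h2]
    simp

/-- `hom (X u) v + hom u (X v) = hom u v` -/
theorem OPr.dF_hlam (h : OPr P) (p : F × F) : dF (hlam P) p = hom P := by
  have h1 : fderiv ℝ (hlam P) p = (hom P).comp (hX P) := ((hom P).comp (hX P)).fderiv
  refine ContinuousLinearMap.ext fun u => ContinuousLinearMap.ext fun v => ?_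
  rw [dF_apply, h1]
  simp only [ContinuousLinearMap.comp_apply, hom_apply, hX_apply, map_add, map_smul, h.idem,
    inner_sub_left, inner_add_left, inner_sub_right, real_inner_smul_left, real_inner_smul_right,
    ← h.symm]
  ring

theorem halg_nsq (L : F × F →L[ℝ] F) (p : F × F) :
    HasFDerivAt (fun p => ‖L p‖ ^ 2) (2 • (innerSL ℝ (L p)).comp L) p := L.hasFDerivAt.norm_sq

theorem halg_eig (L : F × F →L[ℝ] F) {p : F × F} (c : ℝ) (h : L (hX P p) = c • L p) :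
    ∃ D : F × F →L[ℝ] ℝ, HasFDerivAt (fun p => ‖L p‖ ^ 2) D p ∧
      D (hX P p) = 2 * c * ‖L p‖ ^ 2 :=
  ⟨_, halg_nsq L p, by simp [h, mul_assoc]⟩

theorem OPr.halg_four (h : OPr P) (p : F × F) : ∃ D₁ D₂ D₃ D₄ : F × F →L[ℝ] ℝ,
    (HasFDerivAt (hs P) D₁ p ∧ D₁ (hX P p) = 2 * (-1) * ‖P p.1‖ ^ 2) ∧
    (HasFDerivAt (fun p : F × F => ‖p.1 - P p.1‖ ^ 2) D₂ p ∧
      D₂ (hX P p) = 2 * (1 / 2) * ‖p.1 - P p.1‖ ^ 2) ∧
    (HasFDerivAt (fun p : F × F => ‖P p.2‖ ^ 2) D₃ p ∧ D₃ (hX P p) = 2 * 2 * ‖P p.2‖ ^ 2) ∧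
    HasFDerivAt (fun p : F × F => ‖p.2 - P p.2‖ ^ 2) D₄ p ∧
      D₄ (hX P p) = 2 * (1 / 2) * ‖p.2 - P p.2‖ ^ 2 := by
  obtain ⟨D₁, h₁⟩ := halg_eig (P := P) (P.comp (.fst ℝ F F)) (p := p) (-1) (by
    simp only [ContinuousLinearMap.comp_apply, ContinuousLinearMap.coe_fst', hX_apply, map_sub,
      map_smul, h.idem]
    module)
  obtain ⟨D₂, h₂⟩ := halg_eig (P := P) ((.id ℝ F - P).comp (.fst ℝ F F)) (p := p) (1 / 2) (by
    simp only [ContinuousLinearMap.comp_apply, ContinuousLinearMap.coe_fst', hX_apply, map_sub,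
      map_smul, sub_apply, ContinuousLinearMap.id_apply, h.idem]
    module)
  obtain ⟨D₃, h₃⟩ := halg_eig (P := P) (P.comp (.snd ℝ F F)) (p := p) 2 (by
    simp only [ContinuousLinearMap.comp_apply, ContinuousLinearMap.coe_snd', hX_apply, map_add,
      map_smul, h.idem]
    module)
  obtain ⟨D₄, h₄⟩ := halg_eig (P := P) ((.id ℝ F - P).comp (.snd ℝ F F)) (p := p) (1 / 2) (by
    simp only [ContinuousLinearMap.comp_apply, ContinuousLinearMap.coe_snd', hX_apply, map_add,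
      map_smul, sub_apply, ContinuousLinearMap.id_apply, h.idem]
    module)
  exact ⟨D₁, D₂, D₃, D₄, h₁, h₂, h₃, h₄⟩

theorem OPr.fderiv_hs (h : OPr P) (p u : F × F) : fderiv ℝ (hs P) p u = -2 * hsg P p u := by
  have h1 : fderiv ℝ (hs P) p = _ := (halg_nsq (P.comp (.fst ℝ F F)) p).fderiv
  rw [h1, hsg_apply]
  simp [h.halg_PP]

theorem OPr.hsg_X (h : OPr P) (p : F × F) : hsg P p (hX P p) = hs P p := by
  rw [hsg_apply, hX_apply, inner_sub_right, real_inner_smul_right, real_inner_smul_right,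
    ← h.halg_PP, real_inner_self_eq_norm_sq, hs]
  ring

theorem OPr.fderiv_hr_X (h : OPr P) (p : F × F) : fderiv ℝ (hr P) p (hX P p) =
    ‖p.1 - P p.1‖ ^ 2 + 4 * ‖P p.2‖ ^ 2 + ‖p.2 - P p.2‖ ^ 2 := by
  obtain ⟨-, D₂, D₃, D₄, -, h₂, h₃, h₄⟩ := h.halg_four p
  have h1 : hr P = fun p => ‖p.1 - P p.1‖ ^ 2 + (‖P p.2‖ ^ 2 + ‖p.2 - P p.2‖ ^ 2) :=
    funext fun p => by rw [hr, h.pyth p.2]
  rw [h1, (h₂.1.fun_add (h₃.1.fun_add h₄.1)).fderiv, add_apply, add_apply, h₂.2, h₃.2, h₄.2]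
  ring

theorem OPr.fderiv_hI_X (h : OPr P) (p : F × F) : fderiv ℝ (hI P) p (hX P p) = 0 := by
  obtain ⟨D₁, D₂, D₃, D₄, h₁, h₂, h₃, h₄⟩ := h.halg_four p
  have h1 : fderiv ℝ (hI P) p = _ := ((h₃.1.fun_mul (h₁.1.pow 2)).fun_add
    (((h₂.1.fun_add h₄.1).pow 2).fun_mul h₁.1)).fderiv
  rw [h1]
  simp only [add_apply, smul_apply, smul_eq_mul, nsmul_eq_mul, h₁.2, h₂.2, h₃.2, h₄.2, hs]
  push_cast
  ring

theorem OPr.omI_hlam (h : OPr P) {p : F × F} (hp : p ∈ hCyl P) : OmI P (hlam P) p = hom P := by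
  refine ContinuousLinearMap.ext fun u => ContinuousLinearMap.ext fun v => ?_
  have h1 := h.nd_hom.1 (hX P p) trivial
  have h2 := h.nd_hom.skew (u := u) (v := hX P p) trivial trivial
  rw [halg_omI, h.dF_hlam]
  simp only [hlam, map_sub, map_smul, sub_apply, smul_apply, smul_eq_mul, h1, h2]
  ring

/-- `OmI` determines the form on the tangent space of the cylinder. -/
theorem OPr.omI_X (h : OPr P) (A : Form1 (F × F)) {p : F × F} (hp : p ∈ hCyl P) {u : F × F}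
    (hu : hsg P p u = 0) : OmI P A p (hX P p) u = A p u := by
  have h1 : hsg P p (hX P p) = 1 := (h.hsg_X p).trans hp
  simp [halg_omI, h1, hu]

theorem OPr.hio_bijOn (h : OPr P) {p : F × F} (hp : p ∈ hCyl P) :
    BijOn (hio P p) (⊤ : Submodule ℝ (F × F)) (pl (hsg P p).ker ℝ) := by
  have h1 : hsg P p (hX P p) = 1 := (h.hsg_X p).trans hp
  refine ⟨fun u _ => ⟨?_, trivial⟩, fun u _ v _ e => ?_, fun w hw => ⟨w.1 + w.2 • hX P p, trivial, ?_⟩⟩
  · show hsg P p (u - hsg P p u • hX P p) = 0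
    simp [h1]
  · obtain ⟨e1, e2⟩ := Prod.mk.inj ((hio_apply p u).symm.trans (e.trans (hio_apply p v)))
    rwa [e2, sub_left_inj] at e1
  · have h2 : hsg P p w.1 = 0 := hw.1
    simp [hio_apply, h1, h2]

theorem OmI_lin (A B : Form1 (F × F)) (hA : ContDiff ℝ ∞ A) (hB : ContDiff ℝ ∞ B) (s t : ℝ)
    (p : F × F) : OmI P (fun z => s • A z + t • B z) p = s • OmI P A p + t • OmI P B p := by
  have h1 : fderiv ℝ (fun z => s • A z + t • B z) p = s • fderiv ℝ A p + t • fderiv ℝ B p :=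
    (((hA.differentiable (by simp) p).hasFDerivAt.const_smul s).add
      ((hB.differentiable (by simp) p).hasFDerivAt.const_smul t)).fderiv
  refine ContinuousLinearMap.ext fun u => ContinuousLinearMap.ext fun v => ?_
  simp only [add_apply, smul_apply, halg_omI, dF_apply, h1, smul_eq_mul]
  ring

end Pool.Agent.Lib.MP_ccffa6_gt
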