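import Pool.Agent.Lib.MP_ccffa6_gt.ELI.HAlg
import Pool.Agent.Lib.MP_ccffa6_gt.ELI.Calc

/-! Dictionary between the handle model and the cone model. -/

open Set Filter Topology Metric
open scoped ContDiff RealInnerProductSpace

noncomputable section

namespace Pool.Agent.Lib.MP_ccffa6_gt

variable {F : Type} [NormedAddCommGroup F] [InnerProductSpace ℝ F] [FiniteDimensional ℝ F]
  {P : F →L[ℝ] F}

/-- `(a, b) ↦ (a, b - 2 P b + 2 ⟪P a, b⟫ P a)`, an involution of the cylinder -/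
def htau (P : F →L[ℝ] F) (p : F × F) : F × F :=
  (p.1, p.2 - (2 : ℝ) • P p.2 + (2 * ⟪P p.1, p.2⟫) • P p.1)

/-- `w ↦ Dτ (w - hsg w • X p) + hsg w • Zv (τ p)` -/
def hN (P : F →L[ℝ] F) (p : F × F) : F × F →L[ℝ] F × F :=
  (fderiv ℝ (htau P) p).comp (ContinuousLinearMap.id ℝ (F × F) - (hsg P p).smulRight (hX P p)) +
    (hsg P p).smulRight (ELI.Zv P (htau P p))

theorem OPr.isOP (h : OPr P) : ELI.IsOP P := ⟨h.idem, h.symm⟩

omit [FiniteDimensional ℝ F] in
theorem hbr1_pp (h : OPr P) (x y : F) : ⟪P x, P y⟫ = ⟪P x, y⟫ := by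
  rw [← h.symm, h.idem]

omit [FiniteDimensional ℝ F] in
theorem hbr1_one {p : F × F} (hp : p ∈ hCyl P) : ⟪P p.1, P p.1⟫ = 1 :=
  (real_inner_self_eq_norm_sq _).trans hp

theorem contDiff_htau : ContDiff ℝ ∞ (htau P) :=
  contDiff_fst.prodMk ((contDiff_snd.sub ((P.contDiff.comp contDiff_snd).const_smul _)).add
    ((contDiff_const.mul ((P.contDiff.comp contDiff_fst).inner ℝ contDiff_snd)).smul
      (P.contDiff.comp contDiff_fst)))

theorem contDiff_hN : ContDiff ℝ ∞ (hN P) :=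
  ((contDiff_htau.fderiv_right (m := ∞) le_rfl).clm_comp
    (contDiff_const.sub (contDiff_hsg.smulRight (hX P).contDiff))).add
    (contDiff_hsg.smulRight ((ELI.Zv P).contDiff.comp contDiff_htau))

theorem fderiv_htau (p u : F × F) : fderiv ℝ (htau P) p u =
    (u.1, u.2 - (2 : ℝ) • P u.2 + (2 * (⟪P p.1, u.2⟫ + ⟪P u.1, p.2⟫)) • P p.1 +
      (2 * ⟪P p.1, p.2⟫) • P u.1) := by
  have h1 : HasFDerivAt (fun z : F × F => P z.1) _ p := P.hasFDerivAt.comp p hasFDerivAt_fst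
  have h2 : HasFDerivAt (fun z : F × F => P z.2) _ p := P.hasFDerivAt.comp p hasFDerivAt_snd
  have h3 : HasFDerivAt (htau P) _ p :=
    hasFDerivAt_fst.prodMk ((hasFDerivAt_snd.sub (h2.const_smul (2 : ℝ))).add
      (((h1.inner ℝ hasFDerivAt_snd).const_mul 2).smul h1))
  rw [h3.fderiv]
  refine Prod.ext rfl ?_
  show u.2 - (2 : ℝ) • P u.2 + ((2 * ⟪P p.1, p.2⟫) • P u.1 +
    (2 * (⟪P p.1, u.2⟫ + ⟪P u.1, p.2⟫)) • P p.1) = u.2 - (2 : ℝ) • P u.2 + _ + _
  rw [add_assoc, add_comm (_ • P u.1)]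

theorem hN_apply (p w : F × F) : hN P p w =
    fderiv ℝ (htau P) p (w - hsg P p w • hX P p) + hsg P p w • ELI.Zv P (htau P p) := rfl

theorem mem_hCyl {p : F × F} : p ∈ hCyl P ↔ ELI.ht P p = 1 :=
  pow_eq_one_iff_of_nonneg (norm_nonneg (P p.1)) two_ne_zero

theorem OPr.mem_hCore (h : OPr P) {p : F × F} : p ∈ hCore P ↔ p.1 ∈ ELI.core P ∧ p.2 = 0 := by
  refine ⟨fun hp => ?_, fun hp => ⟨?_, ?_⟩⟩
  · have h1 := h.retr_self hp
    have h2 : P p.1 = p.1 := congrArg Prod.fst h1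
    exact ⟨⟨h2, h2 ▸ mem_hCyl.1 hp.1⟩, (congrArg Prod.snd h1).symm⟩
  · rw [hs, hp.1.1, hp.1.2, one_pow]
  · rw [hr, hp.1.1, hp.2, sub_self, norm_zero, zero_pow two_ne_zero, add_zero]

theorem OPr.htau_cyl (h : OPr P) {p : F × F} (hp : p ∈ hCyl P) :
    htau P p ∈ hCyl P ∧ htau P (htau P p) = p ∧ ‖ELI.nu P (htau P p)‖ = ‖ELI.nu P p‖ := by
  have h1 := hbr1_one hp
  refine ⟨hp, Prod.ext rfl ?_, ?_⟩
  · simp only [htau, map_add, map_sub, map_smul, h.idem, inner_add_right, inner_sub_right,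
      real_inner_smul_right, h1, hbr1_pp h p.1 p.2]
    module
  · have h2 : ‖(htau P p).2‖ = ‖p.2‖ := by
      have h3 : ⟪p.2, P p.2⟫ = ⟪P p.2, P p.2⟫ := by rw [hbr1_pp h, real_inner_comm]
      have h4 : ⟪P p.2, P p.1⟫ = ⟪P p.1, p.2⟫ := by rw [real_inner_comm, hbr1_pp h]
      rw [← sq_eq_sq₀ (norm_nonneg _) (norm_nonneg _), ← real_inner_self_eq_norm_sq,
        ← real_inner_self_eq_norm_sq]
      simp only [htau, inner_add_right, inner_sub_right, inner_add_left, inner_sub_left,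
        real_inner_smul_right, real_inner_smul_left, h1, hbr1_pp h p.1 p.2, h3, h4,
        ← hbr1_pp h p.2 p.2, real_inner_comm (P p.1) p.2]
      ring
    rw [ELI.nu_apply, ELI.nu_apply, Prod.norm_def, Prod.norm_def, h2]
    rfl

theorem htau_zero (q : F) : htau P (q, 0) = (q, 0) := by
  simp [htau]

theorem OPr.fderiv_htau_htau (h : OPr P) {p u : F × F} (hp : p ∈ hCyl P) (hu : hsg P p u = 0) :
    fderiv ℝ (htau P) (htau P p) (fderiv ℝ (htau P) p u) = u := by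
  have h1 := hbr1_one hp
  have h2 : ⟪P p.1, P u.1⟫ = 0 := by
    rw [hbr1_pp h, ← neg_eq_zero, ← hsg_apply, hu]
  have h3 : ⟪P u.1, P p.1⟫ = 0 := by rw [real_inner_comm, h2]
  rw [fderiv_htau, fderiv_htau]
  refine Prod.ext rfl ?_
  simp only [htau, map_add, map_sub, map_smul, h.idem, inner_add_right, inner_sub_right,
    real_inner_smul_right, h1, h2, h3, hbr1_pp h p.1 p.2, hbr1_pp h p.1 u.2, hbr1_pp h u.1 p.2]
  module

theorem OPr.inner_hN (h : OPr P) {p : F × F} (hp : p ∈ hCyl P) (w : F × F) :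
    ⟪P p.1, (hN P p w).1⟫ = hsg P p w := by
  have h1 := hbr1_one hp
  have h2 : ⟪P p.1, p.1⟫ = 1 := by rw [← hbr1_pp h, h1]
  rw [hN_apply, fderiv_htau, hX_apply, ELI.Zv_apply, hsg_apply]
  simp only [htau, Prod.fst_add, Prod.fst_sub, Prod.smul_fst, inner_add_right, inner_sub_right,
    real_inner_smul_right, h1, h2]
  ring

theorem OPr.hN_inj (h : OPr P) {p : F × F} (hp : p ∈ hCyl P) : Function.Injective (hN P p) := by
  refine (injective_iff_map_eq_zero _).2 fun w hw => ?_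
  have h1 := h.inner_hN hp w
  rw [hw, Prod.fst_zero, inner_zero_right] at h1
  rw [hN_apply, ← h1, zero_smul, zero_smul, sub_zero, add_zero] at hw
  rw [← h.fderiv_htau_htau hp h1.symm, hw, map_zero]

/-- on the core `hN (q, 0) w = (w.1 - 2 ⟪q, w.1⟫ q, w.2 - 2 P w.2 + 2 ⟪q, w.2⟫ q)` -/
theorem OPr.hN_core (h : OPr P) {p : F × F} (hp : p ∈ hCore P) :
    (∀ w, hN P p (hN P p w) = w) ∧ bq (hN P p) (ELI.om0 F) = hom P ∧
      bq (hN P p) (hom P) = ELI.om0 F := by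
  obtain ⟨q, b⟩ := p
  obtain ⟨⟨h1, h2⟩, rfl⟩ : (P q = q ∧ ‖q‖ = 1) ∧ b = 0 := h.mem_hCore.1 hp
  have h3 : ⟪q, q⟫ = 1 := by rw [real_inner_self_eq_norm_sq, h2, one_pow]
  have h4 : ∀ x, ⟪q, P x⟫ = ⟪q, x⟫ := fun x => by rw [← h.symm, h1]
  have e : ∀ w : F × F, hN P (q, 0) w =
      (w.1 - (2 * ⟪q, w.1⟫) • q, w.2 - (2 : ℝ) • P w.2 + (2 * ⟪q, w.2⟫) • q) := fun w => by
    rw [hN_apply, fderiv_htau, hX_apply, htau_zero, ELI.Zv_apply, hsg_apply]
    refine Prod.ext ?_ ?_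
    · simp only [h1, Prod.fst_add, Prod.fst_sub, Prod.smul_fst]
      module
    · simp only [h1, Prod.snd_add, Prod.snd_sub, Prod.smul_snd, map_zero, smul_zero, add_zero,
        sub_zero, inner_zero_right, mul_zero, zero_smul]
  have e1 : ∀ w, hN P (q, 0) (hN P (q, 0) w) = w := fun w => by
    rw [e, e]
    refine Prod.ext ?_ ?_
    · simp only [inner_sub_right, real_inner_smul_right, h3]
      module
    · simp only [map_add, map_sub, map_smul, h.idem, h1, inner_add_right, inner_sub_right,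
        real_inner_smul_right, h3, h4]
      module
  have e2 : ∀ x y : F, ⟪x - (2 * ⟪q, x⟫) • q, y - (2 : ℝ) • P y + (2 * ⟪q, y⟫) • q⟫ =
      -⟪(2 : ℝ) • P y - y, x⟫ := fun x y => by
    simp only [inner_add_right, inner_sub_right, inner_sub_left, real_inner_smul_right,
      real_inner_smul_left, h3, h4, real_inner_comm x (P y), real_inner_comm x y,
      real_inner_comm q x]
    ring
  have e3 : ∀ u v, ELI.om0 F (hN P (q, 0) u) (hN P (q, 0) v) = hom P u v := fun u v => by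
    rw [ELI.om0_apply, real_inner_comm (hN P (q, 0) v).1, e, e, e2, e2, hom_apply]
    ring
  refine ⟨e1, ContinuousLinearMap.ext fun u => ContinuousLinearMap.ext (e3 u),
    ContinuousLinearMap.ext fun u => ContinuousLinearMap.ext fun v => ?_⟩
  show hom P (hN P (q, 0) u) (hN P (q, 0) v) = _
  rw [← e3, e1, e1]

/-- `Adm.eq_dF`, `ELI.dF_pb`, `symz_apply`, `hio_apply` -/
theorem OPr.omI_adm (h : OPr P) {lam B : Form1 (F × F)} (hl : ELI.Adm P lam) {p : F × F}
    (hp : p ∈ hCyl P) (e : B =ᶠ[𝓝 p] pb (htau P) lam) :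
    OmI P B p = bq (hN P p) (dF lam (htau P p)) := by
  have hy : P (htau P p).1 ≠ 0 := ELI.ne_of_ht (mem_hCyl.1 (h.htau_cyl hp).1)
  refine ContinuousLinearMap.ext fun u => ContinuousLinearMap.ext fun v => ?_
  show symz B p (hio P p u) (hio P p v) = dF lam (htau P p) (hN P p u) (hN P p v)
  rw [symz_apply, hio_apply, hio_apply, hN_apply, hN_apply, ELI.dF_congr e, e.eq_of_nhds,
    ELI.dF_pb contDiff_htau.contDiffAt (hl.diff hy), pb, hl.eq_dF h.isOP hy]
  generalize u - hsg P p u • hX P p = u'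
  generalize v - hsg P p v • hX P p = v'
  simp only [ELI.pbB_apply, ContinuousLinearMap.comp_apply, map_add, map_smul, add_apply,
    smul_apply, smul_eq_mul, ELI.dF_alt]
  rw [ELI.alt_swap (ELI.dF_alt lam _) (fderiv ℝ (htau P) p u') (ELI.Zv P _)]
  ring

/-- `ELI.dF_cone`, `inner_hN`, `fderiv_htau_htau` -/
theorem OPr.omI_cone (h : OPr P) {A : Form1 (F × F)} (hA : ContDiff ℝ ∞ A) {p : F × F}
    (hp : p ∈ hCyl P) :
    bq (hN P p) (dF (ELI.cone P (pb (htau P) A)) (htau P p)) = OmI P A p := by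
  obtain ⟨h1, h2, -⟩ := h.htau_cyl hp
  have h3 : ∀ w, hsg P p (w - hsg P p w • hX P p) = 0 := fun w => by
    rw [map_sub, map_smul, h.hsg_X, show hs P p = 1 from hp, smul_eq_mul, mul_one, sub_self]
  have h4 : ∀ w, ⟪P (htau P p).1, (hN P p w).1⟫ = hsg P p w := h.inner_hN hp
  refine ContinuousLinearMap.ext fun u => ContinuousLinearMap.ext fun v => ?_
  show dF (ELI.cone P (pb (htau P) A)) (htau P p) (hN P p u) (hN P p v) =
    symz A p (hio P p u) (hio P p v)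
  rw [ELI.dF_cone h.isOP (mem_hCyl.1 h1)
    (ELI.contDiffAt_pb contDiff_htau.contDiffAt hA.contDiffAt), h4, h4, hN_apply, hN_apply,
    add_sub_cancel_right, add_sub_cancel_right,
    ELI.dF_pb contDiff_htau.contDiffAt (hA.differentiable (by simp) _), ELI.pbB_apply, pb,
    ContinuousLinearMap.comp_apply, ContinuousLinearMap.comp_apply, h.fderiv_htau_htau hp (h3 u),
    h.fderiv_htau_htau hp (h3 v), h2, symz_apply, hio_apply, hio_apply, mul_comm (hsg P p v)]

end Pool.Agent.Lib.MP_ccffa6_gt
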