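import Pool.Agent.Lib.MP_ccffa6_gt.ELI.Calc
import Pool.Agent.Lib.MP_ccffa6_gt.ELI.Co

/-! A chain of segments is a path. -/

open Set Filter Topology Metric
open scoped ContDiff RealInnerProductSpace

noncomputable section

namespace Pool.Agent.Lib.MP_ccffa6_gt

variable {F : Type} [NormedAddCommGroup F] [InnerProductSpace ℝ F] [FiniteDimensional ℝ F]
  {P : F →L[ℝ] F}

theorem hbr2_cont {X V : Type} [TopologicalSpace X] [NormedAddCommGroup V] [NormedSpace ℝ V]
    {S : Set X} {a : X → ℝ} {u v w : X → V} (ha : ContinuousOn a S) (hu : ContinuousOn u S)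
    (hv : ContinuousOn v S) (hw : ContinuousOn w S) :
    ContinuousOn (fun z => (1 - a z) • u z + a z • v z + w z - v z) S :=
  ((((continuousOn_const.sub ha).smul hu).add (ha.smul hv)).add hw).sub hv

/-- The concatenation of a segment and a path. -/
def hbr2_cat {V : Type} [NormedAddCommGroup V] [NormedSpace ℝ V] (u v : Form1 V)
    (L : ℝ → Form1 V) (s : ℝ) : Form1 V := fun y =>
  (1 - min (2 * s) 1) • u y + min (2 * s) 1 • v y + L (max (2 * s - 1) 0) y - v y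

theorem hbr2_lo {V : Type} [NormedAddCommGroup V] [NormedSpace ℝ V] (u : Form1 V)
    (L : ℝ → Form1 V) {s : ℝ} (h : s ≤ 1 / 2) :
    hbr2_cat u (L 0) L s = fun y => (1 - 2 * s) • u y + (2 * s) • L 0 y := by
  funext y
  rw [hbr2_cat, min_eq_left (by linarith), max_eq_right (by linarith), add_sub_cancel_right]

theorem hbr2_hi {V : Type} [NormedAddCommGroup V] [NormedSpace ℝ V] (u v : Form1 V)
    (L : ℝ → Form1 V) {s : ℝ} (h : 1 / 2 ≤ s) : hbr2_cat u v L s = L (2 * s - 1) := by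
  funext y
  rw [hbr2_cat, min_eq_right (by linarith), max_eq_left (by linarith), sub_self, zero_smul,
    zero_add, one_smul, add_sub_cancel_left]

open ELI in
/-- Induction on `Reach`. -/
theorem reach_path (hP : IsOP P) {R : ℝ} (hR : 0 < R) {tgt lam : Form1 (F × F)} {a : Lf P}
    (ht : ∀ q ∈ core P, jet tgt q = om0 F) (h : Reach P R tgt lam a) :
    ∃ L : ℝ → Form1 (F × F), (∀ t, Adm P (L t)) ∧
      ContinuousOn (fun z : ℝ × (F × F) => dF (L z.1) z.2) (Icc 0 1 ×ˢ {y | P y.1 ≠ 0}) ∧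
      (∀ t ∈ Icc (0 : ℝ) 1, Ct P R (L t)) ∧ L 0 = lam ∧ EqNear P (L 1) tgt ∧
      (∃ r < R, ∀ t ∈ Icc (0 : ℝ) 1, ∀ y : F × F, P y.1 ≠ 0 → r ≤ rad P y → L t y = lam y) ∧
      Co (fun t => jet (L t)) a (bas P) := by
  induction h with
  | @base lam h1 h2 h3 =>
    refine ⟨fun _ => lam, fun _ => h1, h1.contOn_dF.comp continuousOn_snd fun _ hz => hz.2,
      fun _ _ => h2, rfl, h3, ⟨0, hR, fun _ _ _ _ _ => rfl⟩,
      Co.refl fun _ _ => Lift.base_over.congr fun q hq => ?_⟩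
    obtain ⟨r, hr, e⟩ := h3
    exact (ht q hq).symm.trans (ELI.dF_congr (mem_of_superset
      ((isOpen_Tube r).mem_nhds (core_mem_Tube hq hr)) e)).symm
  | @step lam lam' a a' hs hc _ ih =>
    obtain ⟨L, a1, a2, a3, rfl, a5, ⟨r, hr, a6⟩, a7⟩ := ih
    obtain ⟨r', hr', a8⟩ := hs.out
    have hb : ∀ s ∈ Icc (0 : ℝ) 1, max (2 * s - 1) 0 ∈ Icc (0 : ℝ) 1 := fun s hs =>
      ⟨le_max_right _ _, max_le (by linarith [hs.2]) zero_le_one⟩
    have c1 : ContinuousOn (fun z : ℝ × (F × F) => dF (hbr2_cat lam (L 0) L z.1) z.2)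
        (Icc 0 1 ×ˢ {y | P y.1 ≠ 0}) := by
      have m1 : MapsTo Prod.snd (Icc (0 : ℝ) 1 ×ˢ {y : F × F | P y.1 ≠ 0}) {y | P y.1 ≠ 0} :=
        fun _ hz => hz.2
      have m2 : MapsTo (fun z : ℝ × (F × F) => (max (2 * z.1 - 1) 0, z.2))
          (Icc 0 1 ×ˢ {y | P y.1 ≠ 0}) (Icc 0 1 ×ˢ {y | P y.1 ≠ 0}) :=
        fun z hz => ⟨hb _ hz.1, hz.2⟩
      have k1 := hs.adm.contOn_dF.comp continuousOn_snd m1
      have k2 := hs.adm'.contOn_dF.comp continuousOn_snd m1
      have k3 := a2.comp (Continuous.continuousOn (by fun_prop)) m2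
      have k4 : Continuous fun z : ℝ × (F × F) => min (2 * z.1) 1 := by fun_prop
      refine (hbr2_cont (V := Bil (F × F)) k4.continuousOn k1 k2 k3).congr fun z hz => ?_
      have h1 := hs.adm.lin hs.adm' (1 - min (2 * z.1) 1) (min (2 * z.1) 1)
      exact (ELI.dF_sub ((h1.add (a1 _)).diff hz.2) (hs.adm'.diff hz.2)).trans (by
        rw [ELI.dF_add (h1.diff hz.2) ((a1 _).diff hz.2),
          dF_lin (hs.adm.diff hz.2) (hs.adm'.diff hz.2)]
        rfl)
    have c2 : ∀ t ∈ Icc (0 : ℝ) 1, Ct P R (hbr2_cat lam (L 0) L t) := fun t h => by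
      rcases le_total t (1 / 2) with e | e
      · rw [hbr2_lo _ _ e]
        exact hs.ct _ ⟨by linarith [h.1], by linarith⟩
      · rw [hbr2_hi _ _ _ e]
        exact a3 _ ⟨by linarith, by linarith [h.2]⟩
    refine ⟨hbr2_cat lam (L 0) L, fun t => ((hs.adm.lin hs.adm' _ _).add (a1 _)).sub hs.adm', c1,
      c2, ?_, ?_, ⟨max r r', max_lt hr hr', fun t h y hy e => ?_⟩, ?_⟩
    · rw [hbr2_lo _ _ (by norm_num)]
      funext y
      rw [mul_zero, sub_zero, one_smul, zero_smul, add_zero]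
    · rwa [hbr2_hi _ _ _ (by norm_num), show (2 : ℝ) * 1 - 1 = 1 by norm_num]
    · rw [hbr2_cat, a6 _ (hb t h) y hy (le_of_max_le_left e), a8 y hy (le_of_max_le_right e),
        add_sub_cancel_right, ← add_smul, sub_add_cancel, one_smul]
    have hK : Fam (Icc (0 : ℝ) 1) (core P) fun t => jet (hbr2_cat lam (L 0) L t) :=
      ⟨c1.comp (f := fun z : ℝ × F => (z.1, (z.2, 0))) (by fun_prop)
        fun z hz => ⟨hz.1, core_ne hz.2⟩, fun t h q hq => c2 t h _ (core_mem_Cyl hq hR.le)⟩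
    have h := Co.tri (p₁ := 0) (p₂ := 1 / 2) (p₃ := 1) (convex_Icc 0 1) hK
      ⟨le_rfl, zero_le_one⟩ ⟨by norm_num, by norm_num⟩ ⟨zero_le_one, le_rfl⟩
      (hc.congr fun t h q hq => ?_) (a7.congr fun t h q _ => ?_)
    · simpa only [smul_eq_mul, mul_zero, mul_one, zero_add] using h
    · rw [smul_eq_mul, smul_eq_mul, mul_zero, zero_add, hbr2_lo _ _ (by linarith [h.2]),
        show 2 * (t * (1 / 2)) = t by ring]
      exact (dF_lin (hs.adm.diff (core_ne hq)) (hs.adm'.diff (core_ne hq)) _ _).symm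
    · rw [smul_eq_mul, smul_eq_mul, hbr2_hi _ _ _ (by linarith [h.1]),
        show 2 * ((1 - t) * (1 / 2) + t * 1) - 1 = t by ring]

end Pool.Agent.Lib.MP_ccffa6_gt
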