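import Pool.Agent.Lib.MP_ccffa6_gt.ELI.HBr1
import Pool.Agent.Lib.MP_ccffa6_gt.ELI.HBr2
import Pool.Agent.Lib.MP_ccffa6_gt.K.Htpy

/-! The tube theorem in the handle model. -/

open Set Filter Topology Metric
open scoped ContDiff RealInnerProductSpace

noncomputable section

namespace Pool.Agent.Lib.MP_ccffa6_gt

variable {F : Type} [NormedAddCommGroup F] [InnerProductSpace ℝ F] [FiniteDimensional ℝ F]
  {P : F →L[ℝ] F}

/-- `B p = smoothTransition (4 * hs P p - 1) • pb (htau P) lam p` -/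
theorem OPr.exists_cutForm (h : OPr P) {lam : Form1 (F × F)} (hl : ELI.Adm P lam) :
    ∃ B : Form1 (F × F), ContDiff ℝ ∞ B ∧ ∀ p ∈ hCyl P, B =ᶠ[𝓝 p] pb (htau P) lam := by
  have hc : ContDiff ℝ ∞ fun p : F × F => Real.smoothTransition (4 * hs P p - 1) :=
    Real.smoothTransition.contDiff.comp ((contDiff_const.mul contDiff_hs).sub contDiff_const)
  refine ⟨fun p => Real.smoothTransition (4 * hs P p - 1) • pb (htau P) lam p,
    contDiff_iff_contDiffAt.2 fun p => ?_, fun p hp => ?_⟩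
  · by_cases h0 : P p.1 = 0
    · have : ∀ᶠ z in 𝓝 p, hs P z < 1 / 4 :=
        contDiff_hs.continuous.continuousAt.eventually_lt continuousAt_const (by simp [hs, h0])
      refine (contDiffAt_const (c := 0)).congr_of_eventuallyEq (this.mono fun z hz => ?_)
      simp only [Real.smoothTransition.zero_of_nonpos (show 4 * hs P z - 1 ≤ 0 by linarith),
        zero_smul]
    · exact hc.contDiffAt.smul (ELI.contDiffAt_pb contDiff_htau.contDiffAt (hl.sm _ h0))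
  · have : ∀ᶠ z in 𝓝 p, 1 / 2 < hs P z :=
      continuousAt_const.eventually_lt contDiff_hs.continuous.continuousAt
        (by rw [show hs P p = 1 from hp]; norm_num)
    filter_upwards [this] with z hz
    rw [Real.smoothTransition.one_of_one_le (by linarith), one_smul]

theorem hbr3_inv {N : F × F →L[ℝ] F × F} (h : ∀ w, N (N w) = w) (w : Bil (F × F)) :
    bq N (bq N w) = w :=
  ContinuousLinearMap.ext fun u => ContinuousLinearMap.ext fun v => by
    simp only [ContinuousLinearMap.bilinearComp_apply, h]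

theorem hbr3_cont {X V : Type} [TopologicalSpace X] [NormedAddCommGroup V] [NormedSpace ℝ V]
    {S : Set X} {N : X → V →L[ℝ] V} {w : X → Bil V} (hN : ContinuousOn N S)
    (hw : ContinuousOn w S) : ContinuousOn (fun x => bq (N x) (w x)) S := by
  have := (ELI.continuous_pbB (V := V) (V' := V)).comp_continuousOn (hN.prodMk hw)
  exact this

/-- `R` from `ELI.exists_cyl` (`Cyl P R ⊆ U`), `lam = cone P (pb τ A)`, `tgt = cone P (pb τ hlam)`
(`adm_cone`, `omI_cone`, `nd_of_pbB`, `omI_hlam`, `hN_core`), `c t q = bq (hN (q, 0)) (Ω (t, (q, 0)))`,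
`a` from `Co.exists_left`, `reach_path`, `B t` from `exists_cutForm`, `C = Cyl P R`,
`OmI (B t) p = bq (hN p) (dF (L t) (τ p))` (`omI_adm`), `K` from `Co.extract`,
`D ((s, t), p) = bq (hN p) (K (t, s) p.1)`. -/
theorem tubeH_of_tube {n : ℕ}
    (h : ∀ (F : Type) [NormedAddCommGroup F] [InnerProductSpace ℝ F] [FiniteDimensional ℝ F],
      Module.finrank ℝ F = n + 1 → ELI.TubeStmt F) : TubeH n := by
  intro F _ _ _ P hP hd A U Ω hA hU hc hnd hΩ e
  have hP' := hP.isOP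
  have cN : Continuous (hN P) := (contDiff_hN (P := P)).continuous
  have i0 : (0 : ℝ) ∈ Icc (0 : ℝ) 1 := ⟨le_rfl, zero_le_one⟩
  have i1 : (1 : ℝ) ∈ Icc (0 : ℝ) 1 := ⟨zero_le_one, le_rfl⟩
  have hcore : ∀ q ∈ ELI.core P, (q, (0 : F)) ∈ hCore P := fun q hq => hP.mem_hCore.2 ⟨hq, rfl⟩
  have hcore' : ∀ p ∈ hCore P, ∃ q ∈ ELI.core P, p = (q, 0) := fun p hp =>
    ⟨p.1, (hP.mem_hCore.1 hp).1, Prod.ext rfl (hP.mem_hCore.1 hp).2⟩
  obtain ⟨R, hR, hRU⟩ := ELI.exists_cyl hP' (p := fun y => y ∈ U)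
    fun q hq => hU.mem_nhds (hc (hcore q hq))
  have adm : ∀ {A : Form1 (F × F)}, ContDiff ℝ ∞ A → ELI.Adm P (ELI.cone P (pb (htau P) A)) :=
    fun hA => ELI.adm_cone hP' fun y _ => (contDiff_pb contDiff_htau hA).contDiffAt
  have hτ : ∀ p ∈ ELI.Cyl P R, htau P p ∈ ELI.Cyl P R := fun p hp => by
    obtain ⟨a1, -, a3⟩ := hP.htau_cyl (mem_hCyl.2 hp.1)
    exact ⟨mem_hCyl.1 a1, a3.trans_le hp.2⟩
  have hjet : ∀ {A : Form1 (F × F)}, ContDiff ℝ ∞ A → ∀ q ∈ ELI.core P,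
      ELI.jet (ELI.cone P (pb (htau P) A)) q = bq (hN P (q, 0)) (OmI P A (q, 0)) := by
    intro A hA q hq
    rw [← hP.omI_cone hA (hCore_subset (hcore q hq)).1, hbr3_inv (hP.hN_core (hcore q hq)).1,
      htau_zero]
    rfl
  have hct : ELI.Ct P R (ELI.cone P (pb (htau P) A)) := fun y hy => by
    have a1 := hτ y hy
    have a2 := hP.omI_cone hA (mem_hCyl.2 a1.1)
    rw [(hP.htau_cyl (mem_hCyl.2 hy.1)).2.1] at a2
    exact (ELI.nd_of_pbB (M := hN P (htau P y)) (ELI.dF_alt _ _)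
      (a2 ▸ hnd _ ⟨mem_hCyl.2 a1.1, hRU _ a1⟩ :)).1
  have htg : ∀ q ∈ ELI.core P, ELI.jet (ELI.cone P (pb (htau P) (hlam P))) q = ELI.om0 F :=
    fun q hq => by
      rw [hjet contDiff_hlam q hq, hP.omI_hlam (hCore_subset (hcore q hq)).1,
        (hP.hN_core (hcore q hq)).2.2]
  have hfam : ELI.Fam (Icc (0 : ℝ) 1) (ELI.core P)
      fun t q => bq (hN P (q, 0)) (Ω (t, (q, 0))) :=
    ⟨hbr3_cont (cN.comp (f := fun z : ℝ × F => (z.2, (0 : F)))
        (by fun_prop)).continuousOn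
      (hΩ.cont.comp (f := fun z : ℝ × F => (z.1, (z.2, (0 : F)))) (by fun_prop)
        fun z hz => ⟨hz.1, hcore _ hz.2⟩),
      fun t ht q hq => ELI.nd_pbB (hP.hN_inj (hCore_subset (hcore q hq)).1)
        (hΩ.nd (t, (q, 0)) ⟨ht, hcore q hq⟩)⟩
  obtain ⟨a, ha⟩ := ELI.Co.exists_left hfam (a' := ELI.bas P) (ELI.Lift.base_over.congr
    fun q hq => by rw [(e _ (hcore q hq)).2, (hP.hN_core (hcore q hq)).2.2])
  obtain ⟨L, l1, l2, l3, l4, ⟨r₀, hr₀, l5⟩, ⟨r, hr, l6⟩, l7⟩ := reach_path hP' hR htg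
    (h F hd P hP' R hR _ _ (adm hA) hct (adm contDiff_hlam) htg a (ha.over_left.congr
      fun q hq => by rw [(e _ (hcore q hq)).1, hjet hA q hq]))
  choose B b1 b2 using fun t => hP.exists_cutForm (l1 t)
  have hB : ∀ t, ∀ p ∈ hCyl P, OmI P (B t) p = bq (hN P p) (dF (L t) (htau P p)) :=
    fun t p hp => hP.omI_adm (l1 t) hp (b2 t p hp)
  obtain ⟨K, k1, k2⟩ := ELI.Co.extract ELI.isCompact_core l7 ha
  have hne : ∀ p ∈ hCyl P, P (htau P p).1 ≠ 0 := fun p hp => ELI.ne_of_ht (mem_hCyl.1 hp)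
  have hrad : ∀ p ∈ hCyl P, ELI.rad P (htau P p) = ‖ELI.nu P p‖ := fun p hp => by
    rw [ELI.rad_of_ht (mem_hCyl.1 (hP.htau_cyl hp).1), (hP.htau_cyl hp).2.2]
  have hoff : ∀ t ∈ Icc (0 : ℝ) 1, ∀ p ∈ (hCyl P ∩ U) \ ELI.Cyl P R,
      OmI P (B t) p = OmI P A p := fun t ht p hp => by
    have a1 : r < ELI.rad P (htau P p) := by
      rw [hrad p hp.1.1]
      exact hr.trans (not_le.1 fun a => hp.2 ⟨mem_hCyl.1 hp.1.1, a⟩)
    rw [hB t p hp.1.1, ← hP.omI_cone hA hp.1.1, ELI.dF_congr]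
    filter_upwards [ELI.eventually_ne (hne p hp.1.1),
      continuousAt_const.eventually_lt (ELI.continuousAt_rad (hne p hp.1.1)) a1] with y h1 h2
      using l6 t ht y h1 h2.le
  have hnear : ∀ p ∈ hCyl P, ‖ELI.nu P p‖ < r₀ → OmI P (B 1) p = hom P := fun p hp h1 => by
    rw [hB 1 p hp, ← hP.omI_hlam hp, ← hP.omI_cone contDiff_hlam hp, ELI.dF_congr]
    filter_upwards [(ELI.isOpen_Tube r₀).mem_nhds
      (show htau P p ∈ ELI.Tube P r₀ from ⟨hne p hp, (hrad p hp).trans_lt h1⟩)] with y hy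
      using l5 y hy
  have h0 : ∀ p ∈ hCyl P, OmI P (B 0) p = OmI P A p := fun p hp => by
    rw [hB 0 p hp, l4, hP.omI_cone hA hp]
  refine ⟨B, ELI.Cyl P R, fun z => bq (hN P z.2) (K (z.1.2, z.1.1) z.2.1), ELI.isCompact_Cyl R,
    fun p hp => ⟨mem_hCyl.2 hp.1, hRU p hp⟩, b1, ⟨?_, fun z hz => ?_⟩, hoff,
    fun p hp => h0 p hp.1, ?_, ⟨?_, fun z hz => ?_⟩, fun p hp t ht => ?_⟩
  · refine (hbr3_cont (cN.comp continuous_snd).continuousOn
      (l2.comp (f := fun z : ℝ × (F × F) => (z.1, htau P z.2))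
        (continuous_fst.prodMk (contDiff_htau.continuous.comp continuous_snd)).continuousOn
        fun z hz => ⟨hz.1, hne _ hz.2.1⟩)).congr fun z hz => hB _ _ hz.2.1
  · by_cases hz' : z.2 ∈ ELI.Cyl P R
    · rw [hB _ _ hz.2.1]
      exact ELI.nd_pbB (hP.hN_inj hz.2.1) (l3 _ hz.1 _ (hτ _ hz'))
    · rw [hoff _ hz.1 _ ⟨hz.2, hz'⟩]
      exact hnd _ hz.2
  · refine eventually_nhdsSet_iff_forall.2 fun p hp => ?_
    obtain ⟨q, hq, rfl⟩ := hcore' p hp
    have : ‖ELI.nu P (q, 0)‖ < r₀ := by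
      rw [← ELI.rad_of_ht (ELI.core_ht hq 0), ELI.core_rad hq]
      exact hr₀
    filter_upwards [(ELI.nu P).continuous.norm.continuousAt.eventually_lt continuousAt_const this]
      with y h1 h2 using hnear y h2 h1
  · exact hbr3_cont (cN.comp continuous_snd).continuousOn
      (k1.cont.comp (f := fun z : (ℝ × ℝ) × (F × F) => ((z.1.2, z.1.1), z.2.1)) (by fun_prop)
        fun z hz => ⟨⟨hz.1.2, hz.1.1⟩, (hP.mem_hCore.1 hz.2).1⟩)
  · exact ELI.nd_pbB (hP.hN_inj (hCore_subset hz.2).1)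
      (k1.nd _ ⟨hz.1.2, hz.1.1⟩ _ (hP.mem_hCore.1 hz.2).1)
  · obtain ⟨q, hq, rfl⟩ := hcore' p hp
    obtain ⟨a1, a2, a3, a4⟩ := k2 t ht q hq
    have hq' := (hCore_subset hp).1
    have hj : ∀ s, bq (hN P (q, 0)) (ELI.jet (L s) q) = OmI P (B s) (q, 0) := fun s => by
      rw [hB s _ hq', htau_zero]
      rfl
    simp only [a1, a2, a3, a4, hj, hbr3_inv (hP.hN_core hp).1, h0 _ hq', true_and]
    exact hnear _ hq' (by
      rw [← ELI.rad_of_ht (ELI.core_ht hq 0), ELI.core_rad hq]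
      exact hr₀)

end Pool.Agent.Lib.MP_ccffa6_gt
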