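import Pool.Agent.Lib.MP_ccffa6_gt.ELI.HNu
import Pool.Agent.Lib.MP_ccffa6_gt.K.Glue

/-! Paths of contact forms which are only continuous in the parameter. -/

open Set Filter Topology Metric
open scoped ContDiff RealInnerProductSpace

noncomputable section

namespace Pool.Agent.Lib.MP_ccffa6_gt

variable {E : Type} [NormedAddCommGroup E] [NormedSpace ℝ E] [FiniteDimensional ℝ E]
  {K : Type} [NormedAddCommGroup K] [NormedSpace ℝ K] [FiniteDimensional ℝ K] {n : ℕ}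

theorem symz_lin {α β : Form1 E} (hα : ContDiff ℝ ∞ α) (hβ : ContDiff ℝ ∞ β) (s t : ℝ) (x : E) :
    symz (fun y => s • α y + t • β y) x = s • symz α x + t • symz β x := by
  have e : fderiv ℝ (fun y => s • α y + t • β y) x = s • fderiv ℝ α x + t • fderiv ℝ β x :=
    (((hα.differentiable (by simp) x).hasFDerivAt.const_smul s).add
      ((hβ.differentiable (by simp) x).hasFDerivAt.const_smul t)).fderiv
  refine ContinuousLinearMap.ext fun u => ContinuousLinearMap.ext fun v => ?_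
  simp only [symz_apply, dF_apply, e, add_apply,
    smul_apply, smul_eq_mul]
  ring

theorem hcp_unif {X V : Type} [PseudoMetricSpace X] [SeminormedAddCommGroup V] {A : Set X}
    (hA : IsCompact A) {H : X → V} (hH : ContinuousOn H A) {ε : ℝ} (hε : 0 < ε) :
    ∃ δ > 0, ∀ x ∈ A, ∀ y ∈ A, dist x y < δ → ‖H x - H y‖ < ε := by
  simpa only [dist_eq_norm (E := V)] using Metric.uniformContinuousOn_iff.1
    (hA.uniformContinuousOn_of_continuous hH) ε hε

/-- `NDField.stable` on `I × S` (projectors from `IsSub.exists_proj`) gives `ε`, uniform continuity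
of `H` gives `m` with `‖H (t, x) - H (t', x)‖ ≤ ε` for `|t - t'| ≤ 1 / m`; then the segment from
`β (i / m)` to `β ((i + 1) / m)` consists of contact forms, `Good.path`, induction on `i`. -/
theorem Good.of_field {S : Set E} (hS : Closed (2 * n + 1) S) {β : ℝ → Form1 E}
    (hβ : ∀ t, ContDiff ℝ ∞ (β t)) {H : ℝ × E → Bil (E × ℝ)}
    (hH : NDField (Icc (0 : ℝ) 1 ×ˢ S) (fun q => T1 S q.2) H)
    (e : ∀ t ∈ Icc (0 : ℝ) 1, ∀ x ∈ S, ∀ u ∈ T1 S x, ∀ v ∈ T1 S x, H (t, x) u v = symz (β t) x u v)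
    (h0 : Good n S (β 0)) : CMan n S (β 1) ∧ Good n S (β 1) := by
  obtain ⟨P, U, hP, -, hU, hT⟩ := hS.sub.exists_proj hS.cpt subset_rfl
  have hc : IsCompact (Icc (0 : ℝ) 1 ×ˢ S) := isCompact_Icc.prod hS.cpt
  have hP' : Continuous fun q : ℝ × E => (P q.2).prodMap (ContinuousLinearMap.id ℝ ℝ) :=
    (hP.continuous.comp continuous_snd).prod_mapL ℝ continuous_const
  obtain ⟨ε, hε, hst⟩ := hH.stable hc hP'.continuousOn fun q hq =>
    ⟨fun v => mem_T1.2 ((hT q.2 ⟨hq.2, hU hq.2⟩).1 v.1),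
      fun v hv => Prod.ext ((hT q.2 ⟨hq.2, hU hq.2⟩).2 v.1 (mem_T1.1 hv)) rfl⟩
  obtain ⟨δ, hδ, hu⟩ := hcp_unif hc (V := Bil (E × ℝ)) hH.cont hε
  have key : ∀ t ∈ Icc (0 : ℝ) 1, ∀ t' ∈ Icc (0 : ℝ) 1, |t' - t| < δ → ∀ s ∈ Icc (0 : ℝ) 1,
      CMan n S fun y => (1 - s) • β t y + s • β t' y := by
    intro t ht t' ht' hd s hs
    refine ⟨hS, ((hβ t).const_smul _).add ((hβ t').const_smul _), fun x hx => ?_⟩
    rw [symz_lin (hβ t) (hβ t')]
    refine hst (t, x) ⟨ht, hx⟩ _ (fun u hu' => ?_) fun u hu' v hv => ?_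
    · have a1 := (hH.nd (t, x) ⟨ht, hx⟩).1 u hu'
      have a2 := (hH.nd (t', x) ⟨ht', hx⟩).1 u hu'
      rw [e t ht x hx u hu' u hu'] at a1
      rw [e t' ht' x hx u hu' u hu'] at a2
      simp only [add_apply, smul_apply, a1, a2, smul_zero,
        add_zero]
    · have a1 : ‖H (t', x) - H (t, x)‖ < ε :=
        hu (t', x) ⟨ht', hx⟩ (t, x) ⟨ht, hx⟩ (by
          rw [Prod.dist_eq, dist_self, Real.dist_eq]
          exact max_lt hd hδ)
      have a2 := (H (t', x) - H (t, x)).le_opNorm₂ u v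
      have a3 : ((1 - s) • symz (β t) x + s • symz (β t') x) u v - H (t, x) u v =
          s * (H (t', x) - H (t, x)) u v := by
        simp only [add_apply, smul_apply,
          sub_apply, e t ht x hx u hu' v hv, e t' ht' x hx u hu' v hv,
          smul_eq_mul]
        ring
      rw [a3, abs_mul, abs_of_nonneg hs.1]
      rw [Real.norm_eq_abs] at a2
      calc s * |(H (t', x) - H (t, x)) u v| ≤ 1 * |(H (t', x) - H (t, x)) u v| := by
            gcongr
            exact hs.2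
        _ ≤ ‖H (t', x) - H (t, x)‖ * ‖u‖ * ‖v‖ := by rwa [one_mul]
        _ ≤ ε * ‖u‖ * ‖v‖ := by gcongr
  have step : ∀ t ∈ Icc (0 : ℝ) 1, ∀ t' ∈ Icc (0 : ℝ) 1, |t' - t| < δ → Good n S (β t) →
      Good n S (β t') := by
    intro t ht t' ht' hd hg
    simpa using Good.path (α := fun s y => (1 - s) • β t y + s • β t' y)
      (((contDiff_const.sub contDiff_fst).smul ((hβ t).comp contDiff_snd)).add
        (contDiff_fst.smul ((hβ t').comp contDiff_snd)))
      (key t ht t' ht' hd) (by simpa using hg)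
  have ind : ∀ i : ℕ, ∀ t ∈ Icc (0 : ℝ) 1, t ≤ i * (δ / 2) → Good n S (β t) := by
    intro i
    induction i with
    | zero =>
      intro t ht h1
      rwa [show t = 0 from le_antisymm (by simpa using h1) ht.1]
    | succ i ih =>
      intro t ht h1
      have hm : max 0 (t - δ / 2) ∈ Icc (0 : ℝ) 1 :=
        ⟨le_max_left _ _, max_le zero_le_one (by linarith [ht.2])⟩
      refine step _ hm t ht ?_ (ih _ hm (max_le (by positivity) ?_))
      · have c1 : max 0 (t - δ / 2) ≤ t := max_le ht.1 (by linarith)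
        have c2 := le_max_right 0 (t - δ / 2)
        rw [abs_lt]
        constructor <;> linarith
      · push_cast at h1
        linarith
  have h1 : (1 : ℝ) ∈ Icc (0 : ℝ) 1 := ⟨zero_le_one, le_rfl⟩
  obtain ⟨i, hi⟩ := exists_nat_ge (1 / (δ / 2))
  refine ⟨?_, ind i 1 h1 ((div_le_iff₀ (by positivity)).1 hi)⟩
  simpa using key 1 h1 1 h1 (by simpa using hδ) 1 h1

/-- `H (t, x) = bq ((incl (ν x) K).comp (inl ..)) (G (t, x))`; `IsSub.h_incl`, `ND.of_plus` -/
theorem HUp.good_path {W : Set E} {f : E → ℝ} {c : ℝ} {ν : E → E} {η : Bil K} (h : HUp W f c ν)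
    (hW : IsSub (2 * n + 2) W) (hf : ContDiff ℝ ∞ f) (hc : IsCompact (Lev W f c))
    {β : ℝ → Form1 E} (hβ : ∀ t, ContDiff ℝ ∞ (β t)) {G : ℝ × E → Bil (E × K)}
    (hG : NDField (Icc (0 : ℝ) 1 ×ˢ Lev W f c) (fun q => pl (Tan W q.2) K) G)
    (e : ∀ t ∈ Icc (0 : ℝ) 1, ∀ x ∈ Lev W f c, ∀ u ∈ pl (Tan W x) K, ∀ v ∈ pl (Tan W x) K,
      G (t, x) u v = upf η f (β t) (ν x) x u v) (h0 : Good n (Lev W f c) (β 0)) :
    CMan n (Lev W f c) (β 1) ∧ Good n (Lev W f c) (β 1) := by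
  have hcl : Closed (2 * n + 1) (Lev W f c) :=
    IsSub.closed_lev hW hf hc fun x hx => ⟨ν x, h.tan x hx, (h.pos x hx).ne'⟩
  have hi := fun x hx => hW.h_incl (K := K) hf (c := c) (x := x) hx (h.tan x hx) (h.pos x hx).ne'
  have ee : ∀ t ∈ Icc (0 : ℝ) 1, ∀ x ∈ Lev W f c, ∀ u ∈ pl (T1 (Lev W f c) x) K,
      ∀ v ∈ pl (T1 (Lev W f c) x) K,
      G (t, x) (incl (ν x) K u) (incl (ν x) K v) = osum (symz (β t) x) η u v := by
    intro t ht x hx u hu v hv
    rw [e t ht x hx _ ((hi x hx).1.1 hu) _ ((hi x hx).1.1 hv), upf_apply, osum_apply,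
      incl_apply, incl_apply, (hi x hx).2 _ (mem_pl.1 hu), (hi x hx).2 _ (mem_pl.1 hv)]
  let A : E → (E × ℝ) →L[ℝ] E × K := fun x =>
    (incl (ν x) K).comp (ContinuousLinearMap.inl ℝ (E × ℝ) K)
  have eA : ∀ t ∈ Icc (0 : ℝ) 1, ∀ x ∈ Lev W f c, ∀ u ∈ T1 (Lev W f c) x,
      ∀ v ∈ T1 (Lev W f c) x, (G (t, x)).bilinearComp (A x) (A x) u v = symz (β t) x u v := by
    intro t ht x hx u hu v hv
    have := ee t ht x hx (u, 0) (mem_pl.2 hu) (v, 0) (mem_pl.2 hv)
    rw [osum_apply, map_zero, add_zero] at this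
    exact this
  refine Good.of_field hcl hβ (H := fun q => (G q).bilinearComp (A q.2) (A q.2))
    ⟨?_, fun q hq => ?_⟩ eA h0
  · have hν : ContinuousOn (fun q : ℝ × E => ν q.2) (Icc (0 : ℝ) 1 ×ˢ Lev W f c) :=
      h.cont.comp continuousOn_snd fun _ hq => hq.2
    have hA : ContinuousOn (fun q : ℝ × E => A q.2) (Icc (0 : ℝ) 1 ×ˢ Lev W f c) :=
      continuousOn_clm_apply.2 fun v =>
        (continuousOn_const.add ((continuousOn_const (c := v.2)).smul hν)).prodMk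
          continuousOn_const
    exact htpy_cont hG.cont hA hA
  · have a1 := ((hG.nd q hq).comp (hi q.2 hq.2).1).congr (ee q.1 hq.1 q.2 hq.2)
    exact a1.of_plus.1.congr fun u hu v hv => (eA q.1 hq.1 q.2 hq.2 u hu v hv).symm

end Pool.Agent.Lib.MP_ccffa6_gt
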