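import Pool.Agent.Lib.MP_ccffa6_gt.ELI.HD
import Pool.Agent.Lib.MP_ccffa6_gt.K.Forms

/-! Charts which are valid on a ball. -/

open Set Filter Topology Metric
open scoped ContDiff RealInnerProductSpace

noncomputable section

namespace Pool.Agent.Lib.MP_ccffa6_gt

variable {E : Type} [NormedAddCommGroup E] [NormedSpace ℝ E] [FiniteDimensional ℝ E]
  {V : Type} [NormedAddCommGroup V] [NormedSpace ℝ V] [FiniteDimensional ℝ V]
  {K : Type} [NormedAddCommGroup K] [NormedSpace ℝ K] [FiniteDimensional ℝ K]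

variable {W O : Set E} {φ : V → E} {ψ : E → V} {R : ℝ}

theorem HCh.chart (h : HCh W φ ψ O R) {z : V} (hz : z ∈ ball (0 : V) R) : Chart W (φ z) φ ψ := by
  refine ⟨h.smφ, h.smψ, ?_, ?_⟩
  · filter_upwards [self_mem_nhdsWithin,
      mem_nhdsWithin_of_mem_nhds (h.op.mem_nhds (h.right z hz).1.2)] with y h1 h2
    exact (h.left y ⟨h1, h2⟩).2
  · rw [(h.right z hz).2]
    filter_upwards [isOpen_ball.mem_nhds hz] with w hw using ⟨(h.right w hw).1.1, (h.right w hw).2⟩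

theorem HCh.bijOn (h : HCh W φ ψ O R) {z : V} (hz : z ∈ ball (0 : V) R) :
    BijOn (fderiv ℝ φ z) (⊤ : Submodule ℝ V) (Tan W (φ z)) := by
  have h1 := (h.chart hz).mem_tan (h.right z hz).1.1
  have h2 := (h.chart hz).left_inv_fderiv (h.right z hz).1.1
  rw [(h.right z hz).2] at h1 h2
  exact ⟨fun u _ => (h1 _).2 ⟨u, rfl⟩, (Function.LeftInverse.injective h2).injOn,
    fun v hv => ((h1 v).1 hv).imp fun _ e => ⟨trivial, e⟩⟩

theorem HCh.bijOn' (h : HCh W φ ψ O R) {z : V} (hz : z ∈ ball (0 : V) R) :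
    BijOn (fderiv ℝ ψ (φ z)) (Tan W (φ z)) (⊤ : Submodule ℝ V) := by
  have h1 := fun v => (h.chart hz).right_inv_fderiv (h.right z hz).1.1 (v := v)
  refine ⟨fun _ _ => trivial, fun u hu v hv e => ?_, fun u _ =>
    ⟨_, ((h.chart hz).mem_tan (h.right z hz).1.1 _).2 ⟨u, rfl⟩,
      (h.chart hz).left_inv_fderiv (h.right z hz).1.1 u⟩⟩
  rw [← h1 u hu, e, h1 v hv]

theorem HCh.left_inv (h : HCh W φ ψ O R) {z : V} (hz : z ∈ ball (0 : V) R) (u : V) :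
    fderiv ℝ ψ (φ z) (fderiv ℝ φ z u) = u := by
  have h2 := (h.chart hz).left_inv_fderiv (h.right z hz).1.1 u
  rwa [(h.right z hz).2] at h2

theorem HCh.right_inv (h : HCh W φ ψ O R) {z : V} (hz : z ∈ ball (0 : V) R) {v : E}
    (hv : v ∈ Tan W (φ z)) : fderiv ℝ φ z (fderiv ℝ ψ (φ z) v) = v := by
  have h2 := (h.chart hz).right_inv_fderiv (h.right z hz).1.1 hv
  rwa [(h.right z hz).2] at h2

/-- derivative of a function read in the chart -/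
theorem HCh.fderiv_val (h : HCh W φ ψ O R) {g : E → K} {Q : V → K} (hg : ContDiff ℝ ∞ g)
    (e : ∀ z ∈ ball (0 : V) R, g (φ z) = Q z) {z : V} (hz : z ∈ ball (0 : V) R) (u : V) :
    fderiv ℝ g (φ z) (fderiv ℝ φ z u) = fderiv ℝ Q z u := by
  rw [← level_comp hg h.smφ rfl,
    EventuallyEq.fderiv_eq (f₁ := g ∘ φ) (eventually_of_mem (isOpen_ball.mem_nhds hz) e)]

/-- a bump which is `1` near the image of a smaller ball -/
theorem HCh.exists_bump (h : HCh W φ ψ O R) {r : ℝ} (hr : r < R) :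
    ∃ b : E → ℝ, ContDiff ℝ ∞ b ∧ (∀ y, b y ∈ Icc (0 : ℝ) 1) ∧ HasCompactSupport b ∧
      tsupport b ⊆ O ∧ ∀ᶠ y in 𝓝ˢ (φ '' closedBall 0 r), b y = 1 := by
  have hA := (isCompact_closedBall (0 : V) r).image h.smφ.continuous
  obtain ⟨b, h1, h2, h3, h4, h5⟩ := exists_cutoff hA.isClosed h.op (by
    rintro _ ⟨z, hz, rfl⟩
    exact (h.right z (closedBall_subset_ball hr hz)).1.2)
  exact ⟨b, h1, h2, h5 hA, h4, h3⟩

/-- push forward of a function with support in a smaller ball -/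
theorem HCh.exists_push (h : HCh W φ ψ O R) {r : ℝ} (hr : r < R) {k : V → K}
    (hk : ContDiff ℝ ∞ k) (h0 : ∀ z, r ≤ ‖z‖ → k z = 0) :
    ∃ G : E → K, ContDiff ℝ ∞ G ∧ HasCompactSupport G ∧ (∀ z ∈ ball (0 : V) R, G (φ z) = k z) ∧
      (∀ y ∈ W, y ∉ φ '' closedBall 0 r → ∀ᶠ y' in 𝓝[W] y, G y' = 0) ∧
      ∀ y, ∃ t ∈ Icc (0 : ℝ) 1, G y = t • k (ψ y) := by
  obtain ⟨b, h1, h2, h3, h4, h5⟩ := h.exists_bump hr
  refine ⟨fun y => b y • k (ψ y), h1.smul (hk.comp h.smψ), h3.smul_right, fun z hz => ?_,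
    fun y _ hy => ?_, fun y => ⟨b y, h2 y, rfl⟩⟩
  · beta_reduce
    rw [(h.right z hz).2]
    rcases le_total ‖z‖ r with h6 | h6
    · rw [h5.self_of_nhdsSet _ ⟨z, mem_closedBall_zero_iff.2 h6, rfl⟩, one_smul]
    · rw [h0 z h6, smul_zero]
  · filter_upwards [self_mem_nhdsWithin, mem_nhdsWithin_of_mem_nhds
      (((isCompact_closedBall (0 : V) r).image h.smφ.continuous).isClosed.isOpen_compl.mem_nhds hy)]
      with x h6 h7
    by_cases h8 : x ∈ O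
    · rw [h0 _ (le_of_not_ge fun h9 => h7 ⟨_, mem_closedBall_zero_iff.2 h9, (h.left x ⟨h6, h8⟩).2⟩),
        smul_zero]
    · rw [image_eq_zero_of_notMem_tsupport fun h9 => h8 (h4 h9), zero_smul]

/-- Rescaling of an exact chart. -/
theorem hCh_of_exact {G : Type} [NormedAddCommGroup G] [NormedSpace ℝ G] {φ : G → E} {ψ : E → G}
    (hφ : ContDiff ℝ ∞ φ) (hψ : ContDiff ℝ ∞ ψ) (hO : IsOpen O) {ρ τ : ℝ} (hτ : τ ≠ 0)
    (e : W ∩ O = φ '' ball 0 ρ) (l : ∀ z ∈ ball (0 : G) ρ, ψ (φ z) = z) (L : V ≃L[ℝ] G)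
    (hL : ∀ z ∈ ball (0 : V) R, τ • L z ∈ ball (0 : G) ρ) :
    ∃ O', O' ⊆ O ∧ HCh W (fun z => φ (τ • L z)) (fun y => τ⁻¹ • L.symm (ψ y)) O' R := by
  have s : ContDiff ℝ ∞ fun y => τ⁻¹ • L.symm (ψ y) := (L.symm.contDiff.comp hψ).const_smul _
  refine ⟨O ∩ (fun y => τ⁻¹ • L.symm (ψ y)) ⁻¹' ball 0 R, inter_subset_left,
    hφ.comp (L.contDiff.const_smul τ), s, hO.inter (isOpen_ball.preimage s.continuous),
    fun z hz => ?_, fun y hy => ⟨hy.2.2, ?_⟩⟩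
  · have h1 : φ (τ • L z) ∈ W ∩ O := e ▸ mem_image_of_mem φ (hL z hz)
    have h2 : τ⁻¹ • L.symm (ψ (φ (τ • L z))) = z := by
      rw [l _ (hL z hz), map_smul, L.symm_apply_apply, inv_smul_smul₀ hτ]
    exact ⟨⟨h1.1, h1.2, by rwa [mem_preimage, h2]⟩, h2⟩
  · obtain ⟨w, hw, rfl⟩ : y ∈ φ '' ball 0 ρ := e ▸ mem_inter hy.1 hy.2.1
    rw [map_smul, L.apply_symm_apply, smul_inv_smul₀ hτ, l w hw]

/-- precomposition with a linear isometry -/
theorem HCh.comp (h : HCh W φ ψ O R) (r : V ≃L[ℝ] V) (hr : ∀ z, ‖r z‖ = ‖z‖) :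
    HCh W (fun z => φ (r z)) (fun y => r.symm (ψ y)) O R := by
  have e : ∀ z, r z ∈ ball (0 : V) R ↔ z ∈ ball (0 : V) R := fun z => by
    rw [mem_ball_zero_iff, mem_ball_zero_iff, hr]
  refine ⟨h.smφ.comp r.contDiff, r.symm.contDiff.comp h.smψ, h.op, fun z hz => ?_, fun y hy => ?_⟩
  · obtain ⟨h1, h2⟩ := h.right _ ((e z).2 hz)
    exact ⟨h1, by rw [h2, r.symm_apply_apply]⟩
  · rw [← e, r.apply_symm_apply]
    exact h.left y hy

end Pool.Agent.Lib.MP_ccffa6_gt
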