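import Pool.Agent.Lib.MP_ccffa6_gt.Iface

/-! One handle: the interface between the Morse reduction and the handle construction. -/

open Set Filter Topology
open scoped ContDiff

noncomputable section

namespace Pool.Agent.Lib.MP_ccffa6_gt.ELI

variable {E : Type} [NormedAddCommGroup E] [NormedSpace ℝ E]
  {K : Type} [NormedAddCommGroup K] [NormedSpace ℝ K]

/-- The level `c` carries a good contact form in the class induced by `Ω`. -/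
def QG (n : ℕ) (η : Bil K) (W : Set E) (f : E → ℝ) (Ω : E → Bil (E × K)) (c : ℝ) : Prop :=
  ∃ (β : Form1 E) (ν : E → E), CMan n (Lev W f c) β ∧ Good n (Lev W f c) β ∧
    ContinuousOn ν (Lev W f c) ∧ (∀ x ∈ Lev W f c, ν x ∈ Tan W x ∧ fderiv ℝ f x (ν x) = 1) ∧
    NDHtpy (Lev W f c) (fun x => pl (T1 (Lev W f c) x) K) (fun x => osum (symz β x) η)
      (fun x => (Ω x).bilinearComp (incl (ν x) K) (incl (ν x) K))

/-- One handle.  The chart `φ` is exact on the ball of radius `3 * ρ`, the slab is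
`f p ± ρ ^ 2`, and `p` is its only critical point. -/
def H1Stmt (n : ℕ) : Prop :=
  ∀ (E : Type) [NormedAddCommGroup E] [NormedSpace ℝ E] [FiniteDimensional ℝ E]
    (K : Type) [NormedAddCommGroup K] [NormedSpace ℝ K] [FiniteDimensional ℝ K] (η : Bil K)
    (W : Set E) (f : E → ℝ) (Ω : E → Bil (E × K)) (p : E) (i j : ℕ) (φ : Rd i × Rd j → E)
    (ψ : E → Rd i × Rd j) (O : Set E) (ρ : ℝ), ND ⊤ η → IsSub (2 * n + 2) W → ContDiff ℝ ∞ f →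
    0 < ρ → i ≤ n + 1 → i + j = 2 * n + 2 → ContDiff ℝ ∞ φ → ContDiff ℝ ∞ ψ → φ 0 = p →
    IsOpen O → W ∩ O = φ '' Metric.ball 0 (3 * ρ) →
    (∀ z ∈ Metric.ball (0 : Rd i × Rd j) (3 * ρ),
      ψ (φ z) = z ∧ f (φ z) = f p - ‖z.1‖ ^ 2 + ‖z.2‖ ^ 2) →
    IsCompact (W ∩ f ⁻¹' Icc (f p - ρ ^ 2) (f p + ρ ^ 2)) →
    (∀ x ∈ W ∩ f ⁻¹' Icc (f p - ρ ^ 2) (f p + ρ ^ 2), x ≠ p →
      ∃ v ∈ Tan W x, fderiv ℝ f x v ≠ 0) →
    NDField (W ∩ f ⁻¹' Icc (f p - ρ ^ 2) (f p + ρ ^ 2)) (fun x => pl (Tan W x) K) Ω →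
    QG n η W f Ω (f p - ρ ^ 2) → QG n η W f Ω (f p + ρ ^ 2)

/-- Transport of a homotopy along a deformation (lemma L). -/
def LStmt : Prop :=
  ∀ (E : Type) [NormedAddCommGroup E] [NormedSpace ℝ E] [FiniteDimensional ℝ E]
    (V : Type) [NormedAddCommGroup V] [NormedSpace ℝ V] [FiniteDimensional ℝ V]
    (A B Y : Set E) (T : E → Submodule ℝ V) (P : E → V →L[ℝ] V) (Ω₀ Ω₁ : E → Bil V)
    (r : ℝ × E → E), IsCompact B → ContinuousOn P A →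
    (∀ x ∈ A, (∀ v, P x v ∈ T x) ∧ ∀ v ∈ T x, P x v = v) → NDField A T Ω₀ → NDField A T Ω₁ →
    ContinuousOn r (Icc 0 1 ×ˢ B) → MapsTo r (Icc 0 1 ×ˢ B) A → (∀ x ∈ B, r (0, x) = x) →
    (∀ x ∈ B, r (1, x) ∈ Y) → Y ⊆ A → NDHtpy Y T Ω₀ Ω₁ → NDHtpy B T Ω₀ Ω₁

end Pool.Agent.Lib.MP_ccffa6_gt.ELI
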