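import Pool.Agent.Lib.MP_ccffa6_gt.ELI.HRH
import Pool.Agent.Lib.MP_ccffa6_gt.ELI.HDef
import Pool.Agent.Lib.MP_ccffa6_gt.K.LSlab

/-! Forms of a level read on the tangent bundle of the slab. -/

open Set Filter Topology Metric
open scoped ContDiff RealInnerProductSpace

noncomputable section

namespace Pool.Agent.Lib.MP_ccffa6_gt

variable {E : Type} [NormedAddCommGroup E] [NormedSpace ℝ E] [FiniteDimensional ℝ E]
  {V : Type} [NormedAddCommGroup V] [NormedSpace ℝ V] [FiniteDimensional ℝ V]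
  {K : Type} [NormedAddCommGroup K] [NormedSpace ℝ K] [FiniteDimensional ℝ K]

variable {W : Set E} {f g : E → ℝ} {c : ℝ} {η : Bil K} {ν ν' : E → E} {n d : ℕ}

theorem jn_apply (l : E →L[ℝ] ℝ) (a u : E) : jn l a u = (u - ((l a)⁻¹ * l u) • a, (l a)⁻¹ * l u) :=
  rfl

theorem upf_apply (β : Form1 E) (a x : E) (u v : E × K) : upf η f β a x u v =
    symz β x (jn (fderiv ℝ f x) a u.1) (jn (fderiv ℝ f x) a v.1) + η u.2 v.2 := by
  simp [upf]

theorem hnu_lev (hW : IsSub (d + 1) W) (hf : ContDiff ℝ ∞ f) {x : E} (hx : x ∈ Lev W f c)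
    (hr : ∃ v ∈ Tan W x, fderiv ℝ f x v ≠ 0) :
    (∃ (φ : Rd d → E) (ψ : E → Rd d), Chart (Lev W f c) x φ ψ) ∧
      ∀ v, v ∈ Tan (Lev W f c) x ↔ v ∈ Tan W x ∧ fderiv ℝ f x v = 0 := by
  obtain ⟨a, h1, h2⟩ := hr
  have e : Lev W f c = W ∩ (fun y => f y - c) ⁻¹' {0} := by
    ext y
    exact and_congr_right fun _ => sub_eq_zero.symm
  rw [e, ← fderiv_sub_const c]
  refine Chart.level hW (hf.sub contDiff_const) (by rw [Module.finrank_self]) hx.1
    (sub_eq_zero.2 hx.2) fun w => ⟨(w / fderiv ℝ f x a) • a, Submodule.smul_mem _ _ h1, ?_⟩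
  rw [fderiv_sub_const, map_smul, smul_eq_mul, div_mul_cancel₀ _ h2]

theorem IsSub.h_mem_tan (hW : IsSub d W) (hf : ContDiff ℝ ∞ f) {x : E} (hx : x ∈ Lev W f c)
    (hr : ∃ v ∈ Tan W x, fderiv ℝ f x v ≠ 0) (v : E) :
    v ∈ Tan (Lev W f c) x ↔ v ∈ Tan W x ∧ fderiv ℝ f x v = 0 := by
  rcases d with _ | d
  · obtain ⟨a, h1, h2⟩ := hr
    rw [Submodule.finrank_eq_zero.1 (hW.finrank hx.1), Submodule.mem_bot] at h1
    simp [h1] at h2
  · exact (hnu_lev hW hf hx hr).2 v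

theorem IsSub.closed_lev (hW : IsSub (d + 1) W) (hf : ContDiff ℝ ∞ f) (hc : IsCompact (Lev W f c))
    (hr : ∀ x ∈ Lev W f c, ∃ v ∈ Tan W x, fderiv ℝ f x v ≠ 0) : Closed d (Lev W f c) :=
  ⟨fun x hx => (hnu_lev hW hf hx (hr x hx)).1, hc⟩

theorem IsSub.jn_bijOn (hW : IsSub d W) (hf : ContDiff ℝ ∞ f) {x a : E} (hx : x ∈ Lev W f c)
    (ha : a ∈ Tan W x) (h0 : fderiv ℝ f x a ≠ 0) :
    BijOn (jn (fderiv ℝ f x) a) (Tan W x) (T1 (Lev W f c) x) := by
  have hT := hW.h_mem_tan hf hx ⟨a, ha, h0⟩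
  refine ⟨fun u hu => mem_T1.2 ((hT _).2 ⟨sub_mem hu (Submodule.smul_mem _ _ ha), ?_⟩),
    fun u _ v _ e => ?_, fun u hu => ?_⟩
  · simp only [jn_apply, map_sub, map_smul, smul_eq_mul]
    field_simp
    ring
  · rw [jn_apply, jn_apply, Prod.mk.injEq] at e
    rw [← sub_left_inj, e.1, e.2]
  · obtain ⟨h1, h2⟩ := (hT _).1 (mem_T1.1 hu)
    refine ⟨u.1 + u.2 • a, add_mem h1 (Submodule.smul_mem _ _ ha), ?_⟩
    simp [jn_apply, h2, mul_comm u.2, inv_mul_cancel_left₀ h0]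

theorem pK_bijOn {A : V →L[ℝ] E} {T : Submodule ℝ V} {T' : Submodule ℝ E} (h : BijOn A T T') :
    BijOn (pK A K) (pl T K) (pl T' K) := h.prodMap (bijOn_id univ)

theorem hnu_cont {X : Type} [TopologicalSpace X] {S : Set X} {l : X → E →L[ℝ] ℝ} {a : X → E}
    (hl : ContinuousOn l S) (ha : ContinuousOn a S) (h0 : ∀ q ∈ S, l q (a q) ≠ 0) :
    ContinuousOn (fun q => jn (l q) (a q)) S := continuousOn_clm_apply.2 fun v => by
  have := ((hl.clm_apply ha).inv₀ h0).mul (hl.clm_apply (continuousOn_const (c := v)))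
  simp only [jn_apply]
  exact (continuousOn_const.sub (this.smul ha)).prodMk this

theorem hnu_field (hW : IsSub d W) (hf : ContDiff ℝ ∞ f) {β : Form1 E}
    (hβ : CMan n (Lev W f c) β) (hη : ND ⊤ η) {X : Type} [TopologicalSpace X] {S : Set X}
    {r a : X → E} (hr : ContinuousOn r S) (hm : MapsTo r S (Lev W f c)) (ha : ContinuousOn a S)
    (h0 : ∀ q ∈ S, a q ∈ Tan W (r q) ∧ fderiv ℝ f (r q) (a q) ≠ 0) :
    NDField S (fun q => pl (Tan W (r q)) K) fun q => upf η f β (a q) (r q) :=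
  (NDField.comp hβ.formal hr hm (hnu_cont ((hf.continuous_fderiv (by simp)).comp_continuousOn hr) ha
    fun q hq => (h0 q hq).2) fun q hq => hW.jn_bijOn hf (hm hq) (h0 q hq).1 (h0 q hq).2).plus hη

theorem HUp.field (h : HUp W f c ν) (hW : IsSub d W) (hf : ContDiff ℝ ∞ f) {β : Form1 E}
    (hβ : CMan n (Lev W f c) β) (hη : ND ⊤ η) :
    NDField (Lev W f c) (fun x => pl (Tan W x) K) fun x => upf η f β (ν x) x :=
  hnu_field hW hf hβ hη continuousOn_id (mapsTo_id _) h.cont fun x hx =>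
    ⟨h.tan x hx, (h.pos x hx).ne'⟩

/-- change of the transverse field along the segment -/
theorem HUp.change (h : HUp W f c ν) (h' : HUp W f c ν') (hW : IsSub d W) (hf : ContDiff ℝ ∞ f)
    {β : Form1 E} (hβ : CMan n (Lev W f c) β) (hη : ND ⊤ η) :
    RH (Lev W f c) {x | ν x = ν' x} (fun x => pl (Tan W x) K) (fun x => upf η f β (ν x) x)
      fun x => upf η f β (ν' x) x := by
  refine ⟨_, hnu_field hW hf hβ hη (a := fun q => (1 - q.1) • ν q.2 + q.1 • ν' q.2) continuousOn_snd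
    (fun _ hq => hq.2) (((continuousOn_const.sub continuousOn_fst).smul
      (h.cont.comp continuousOn_snd fun _ hq => hq.2)).add
      (continuousOn_fst.smul (h'.cont.comp continuousOn_snd fun _ hq => hq.2))) fun q hq =>
      ⟨add_mem (Submodule.smul_mem _ _ (h.tan _ hq.2)) (Submodule.smul_mem _ _ (h'.tan _ hq.2)),
        ne_of_gt ?_⟩, fun x _ u _ v _ => by simp, fun t _ x hx u _ v _ => ?_⟩
  · rw [map_add, map_smul, map_smul, smul_eq_mul, smul_eq_mul]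
    rcases hq.1.2.eq_or_lt with e | e
    · simpa [e] using h'.pos _ hq.2
    · linarith [mul_pos (sub_pos.2 e) (h.pos _ hq.2), mul_nonneg hq.1.1 (h'.pos _ hq.2).le]
  · simp only [← show ν x = ν' x from hx.2, ← add_smul, sub_add_cancel, one_smul]

/-- `upf` only depends on the germ of the restriction to the level -/
theorem IsSub.upf_congr (hW : IsSub (d + 1) W) (hf : ContDiff ℝ ∞ f) {β β' : Form1 E}
    (hβ : ContDiff ℝ ∞ β) (hβ' : ContDiff ℝ ∞ β') {x a : E} (hx : x ∈ Lev W f c)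
    (ha : a ∈ Tan W x) (h0 : fderiv ℝ f x a ≠ 0)
    (e : ∀ᶠ y in 𝓝[Lev W f c] x, ∀ v ∈ Tan (Lev W f c) y, β y v = β' y v)
    {u v : E × K} (hu : u ∈ pl (Tan W x) K) (hv : v ∈ pl (Tan W x) K) :
    upf η f β a x u v = upf η f β' a x u v := by
  obtain ⟨φ, ψ, hc⟩ := (hnu_lev hW hf hx ⟨a, ha, h0⟩).1
  have h1 := mem_T1.1 ((hW.jn_bijOn hf hx ha h0).1 (mem_pl.1 hu))
  have h2 := mem_T1.1 ((hW.jn_bijOn hf hx ha h0).1 (mem_pl.1 hv))
  have h3 := e.self_of_nhdsWithin hx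
  rw [upf_apply, upf_apply, symz_apply, symz_apply, h3 _ h1, h3 _ h2,
    hc.dF_congr hx (hβ.differentiable (by simp) x) (hβ'.differentiable (by simp) x) e h1 h2]

/-- `upf` only depends on the restriction of the form to the level -/
theorem HUp.upf_congr (h : HUp W f c ν) (hW : IsSub d W) (hf : ContDiff ℝ ∞ f) {β β' : Form1 E}
    (hβ : CMan n (Lev W f c) β) (hβ' : ContDiff ℝ ∞ β') (e : EqT (Lev W f c) β β') {x : E}
    (hx : x ∈ Lev W f c) {u v : E × K} (hu : u ∈ pl (Tan W x) K) (hv : v ∈ pl (Tan W x) K) :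
    upf η f β (ν x) x u v = upf η f β' (ν x) x u v := by
  have hb := (hW.jn_bijOn hf hx (h.tan x hx) (h.pos x hx).ne').1
  have h1 := mem_T1.1 (hb (mem_pl.1 hu))
  have h2 := mem_T1.1 (hb (mem_pl.1 hv))
  rw [upf_apply, upf_apply, symz_apply, symz_apply, e x hx _ h1, e x hx _ h2,
    e.dF_eq hβ.cl.sub hβ.sm hβ' hx h1 h2]

/-- the homotopy of `KG` for any transverse field -/
theorem KG.of_up {Ω : E → Bil (E × K)} (h : KG n η W f c Ω) (hW : IsSub d W)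
    (hf : ContDiff ℝ ∞ f) (hη : ND ⊤ η) (hν : HUp W f c ν) :
    ∃ β, CMan n (Lev W f c) β ∧ Good n (Lev W f c) β ∧
      NDHtpy (Lev W f c) (fun x => pl (Tan W x) K) (fun x => upf η f β (ν x) x) Ω :=
  let ⟨β, _, h1, h2, h3, h4⟩ := h
  ⟨β, h1, h2, (hν.change h3 hW hf h1 hη).htpy.trans h4⟩

/-- change of the function -/
theorem KG.congr {Ω Ω' : E → Bil (E × K)} (h : KG n η W f c Ω) (hf : ContDiff ℝ ∞ f) {c' s : ℝ}
    (hs : 0 < s) (e : Lev W g c' = Lev W f c)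
    (e' : ∀ x ∈ Lev W f c, ∀ v ∈ Tan W x, fderiv ℝ g x v = s * fderiv ℝ f x v)
    (e'' : ∀ x ∈ Lev W f c, ∀ u ∈ pl (Tan W x) K, ∀ v ∈ pl (Tan W x) K, Ω x u v = Ω' x u v) :
    KG n η W g c' Ω' := by
  obtain ⟨β, ν, h1, h2, h3, h4⟩ := h
  refine ⟨β, ν, e ▸ h1, e ▸ h2, ⟨e ▸ h3.cont, e ▸ h3.tan, e ▸ fun x hx => ?_⟩,
    e ▸ h4.congr (fun x hx u hu v hv => ?_) e''⟩
  · rw [e' x hx _ (h3.tan x hx)]
    exact mul_pos hs (h3.pos x hx)
  · have : ∀ w ∈ Tan W x, jn (fderiv ℝ g x) (ν x) w = jn (fderiv ℝ f x) (ν x) w := fun w hw => by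
      rw [jn_apply, jn_apply, e' x hx _ hw, e' x hx _ (h3.tan x hx), mul_inv, mul_mul_mul_comm,
        inv_mul_cancel₀ hs.ne', one_mul]
    rw [upf_apply, upf_apply, this _ (mem_pl.1 hu), this _ (mem_pl.1 hv)]

theorem IsSub.h_incl (hW : IsSub d W) (hf : ContDiff ℝ ∞ f) {x a : E} (hx : x ∈ Lev W f c)
    (ha : a ∈ Tan W x) (h0 : fderiv ℝ f x a ≠ 0) :
    BijOn (incl a K) (pl (T1 (Lev W f c) x) K) (pl (Tan W x) K) ∧
      ∀ u ∈ T1 (Lev W f c) x, jn (fderiv ℝ f x) a (u.1 + u.2 • a) = u := by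
  have hT := hW.h_mem_tan hf hx ⟨a, ha, h0⟩
  refine ⟨gl_incl hT ha h0, fun u hu => ?_⟩
  simp [jn_apply, ((hT _).1 (mem_T1.1 hu)).2, mul_comm u.2, inv_mul_cancel_left₀ h0]

/-- From and to the statement of the interface. -/
theorem qG_iff (hW : IsSub d W) (hf : ContDiff ℝ ∞ f) (hη : ND ⊤ η) {Ω : E → Bil (E × K)} :
    ELI.QG n η W f Ω c ↔ KG n η W f c Ω := by
  have cf := (hf.continuous_fderiv (by simp)).continuousOn (s := Lev W f c)
  refine ⟨fun ⟨β, ν, h1, h2, h3, h4, h5⟩ => ?_, fun h => ?_⟩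
  · have h0 := fun x hx => ((h4 x hx).2.trans_ne one_ne_zero)
    refine ⟨β, ν, h1, h2, ⟨h3, fun x hx => (h4 x hx).1, fun x hx => (h4 x hx).2 ▸ one_pos⟩,
      (h5.comp continuousOn_id (mapsTo_id _) (Φ := fun x => pK (jn (fderiv ℝ f x) (ν x)) K)
        (continuousOn_clm_apply.2 fun v => ((hnu_cont cf h3 h0).clm_apply
          continuousOn_const).prodMk continuousOn_const)
        fun x hx => pK_bijOn (hW.jn_bijOn hf hx (h4 x hx).1 (h0 x hx))).congr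
        (fun x _ u _ v _ => by simp [upf_apply]) fun x _ u _ v _ => by simp [jn_apply]⟩
  · obtain ⟨μ, h0, h1⟩ : ∃ μ, (∀ x ∈ Lev W f c, fderiv ℝ f x (μ x) = 1) ∧ HUp W f c μ := by
      obtain ⟨_, ν, -, -, hν, -⟩ := h
      have h0 : ∀ x ∈ Lev W f c, fderiv ℝ f x ((fderiv ℝ f x (ν x))⁻¹ • ν x) = 1 := fun x hx => by
        rw [map_smul, smul_eq_mul, inv_mul_cancel₀ (hν.pos x hx).ne']
      exact ⟨_, h0, ((cf.clm_apply hν.cont).inv₀ fun x hx => (hν.pos x hx).ne').smul hν.cont,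
        fun x hx => Submodule.smul_mem _ _ (hν.tan x hx), fun x hx => (h0 x hx).symm ▸ one_pos⟩
    obtain ⟨β, h2, h3, h4⟩ := h.of_up hW hf hη h1
    have h5 := fun x hx => hW.h_incl (K := K) hf hx (h1.tan x hx) (h1.pos x hx).ne'
    refine ⟨β, μ, h2, h3, h1.cont, fun x hx => ⟨h1.tan x hx, h0 x hx⟩,
      (h4.comp continuousOn_id (mapsTo_id _) (Φ := fun x => incl (μ x) K)
        (continuousOn_clm_apply.2 fun v => (continuousOn_const.add
          (h1.cont.const_smul _)).prodMk continuousOn_const) fun x hx => (h5 x hx).1).congr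
        (fun x hx u hu v hv => ?_) fun _ _ _ _ _ _ => rfl⟩
    simp [upf_apply, (h5 x hx).2 _ (mem_pl.1 hu), (h5 x hx).2 _ (mem_pl.1 hv)]

/-- The Liouville field along the two levels. -/
theorem LSlab.exists_up {a b : ℝ} {lam : Form1 E} (h : LSlab n W f a b ν lam) (η : Bil K)
    (hc : c = a ∨ c = b) : ∃ Z : E → E, HUp W f c Z ∧ ∀ x ∈ Lev W f c,
      (∀ v ∈ Tan W x, dF lam x (Z x) v = lam x v) ∧
      ∀ u ∈ pl (Tan W x) K, ∀ v ∈ pl (Tan W x) K,
        osum (dF lam x) η u v = upf η f lam (Z x) x u v := by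
  obtain ⟨Z, sZ, hZ⟩ := h.field
  have m {x} (hx : x ∈ Lev W f c) := h.slab.lev_sub hc hx
  refine ⟨Z, ⟨sZ.continuous.continuousOn, fun x hx => (hZ x (m hx).1).1, fun x hx =>
    h.up x (m hx).2 _ (hZ x (m hx).1).1 (hZ x (m hx).1).2⟩, fun x hx =>
    ⟨(hZ x (m hx).1).2, fun u hu v hv => ?_⟩⟩
  obtain ⟨z1, z2⟩ := hZ x (m hx).1
  have h1 : lam x (Z x) = 0 := by rw [← z2 _ z1, dF_apply, sub_self]
  have h2 : dF lam x u.1 (Z x) = -lam x u.1 := by
    rw [← z2 _ (mem_pl.1 hu), dF_apply, dF_apply, neg_sub]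
  simp only [upf_apply, osum_apply, symz_apply, jn_apply, map_sub, map_smul, smul_eq_mul,
    sub_apply, smul_apply, h1, h2, z2 _ z1, z2 _ (mem_pl.1 hv)]
  ring

end Pool.Agent.Lib.MP_ccffa6_gt
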