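import Pool.Agent.Lib.MP_ccffa6_gt.ELI.HFlow
import Pool.Agent.Lib.MP_ccffa6_gt.ELI.HNu

/-! The lower level in the chart. -/

open Set Filter Topology Metric
open scoped ContDiff RealInnerProductSpace

noncomputable section

namespace Pool.Agent.Lib.MP_ccffa6_gt

variable {E : Type} [NormedAddCommGroup E] [NormedSpace ℝ E] [FiniteDimensional ℝ E]
  {K : Type} [NormedAddCommGroup K] [NormedSpace ℝ K] [FiniteDimensional ℝ K]
  {F : Type} [NormedAddCommGroup F] [InnerProductSpace ℝ F] [FiniteDimensional ℝ F]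
  {n : ℕ} {η : Bil K} {W O N N' : Set E} {g j : E → ℝ} {P : F →L[ℝ] F} {R δ : ℝ} {Q : F × F → ℝ}
  {φ : F × F → E} {ψ : E → F × F} {Ω : E → Bil (E × K)} {Y Y₀ : E → E} {Φ : ℝ → E → E}

theorem HData.hU_ball (h : HData n η W g P R Q φ ψ O Ω) : hU P ⊆ closedBall 0 (R - 1) ∩ ball 0 R := by
  intro z hz
  have h1 := mem_ball_zero_iff.1 (h.pr.hU_subset hz)
  have h2 := h.md.big
  exact ⟨mem_closedBall_zero_iff.2 (by linarith), mem_ball_zero_iff.2 (by linarith)⟩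

theorem hcon_Q (h : HData n η W g P R Q φ ψ O Ω) {z : F × F} (hz : z ∈ hU P) :
    Q z = -hs P z - 1 := h.md.flat z (by linarith [hz.2.1]) hz.2.2.le

theorem hcon_dg (h : HData n η W g P R Q φ ψ O Ω) {z : F × F} (hz : z ∈ hU P) (u : F × F) :
    fderiv ℝ g (φ z) (fderiv ℝ φ z u) = 2 * hsg P z u := by
  have e : Q =ᶠ[𝓝 z] fun p => -hs P p - 1 :=
    mem_of_superset (isOpen_hU.mem_nhds hz) fun p hp => hcon_Q h hp
  have d := ((contDiff_hs (P := P)).differentiable (by simp) z).hasFDerivAt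
  have d2 : fderiv ℝ (fun p => -hs P p - 1) z = _ := (d.neg.sub_const 1).fderiv
  rw [h.dg (h.hU_ball hz).2, e.fderiv_eq, d2, neg_apply, h.pr.fderiv_hs]
  ring

theorem hcon_dgX (h : HData n η W g P R Q φ ψ O Ω) {z : F × F} (hz : z ∈ hCyl P ∩ hU P) :
    fderiv ℝ g (φ z) (fderiv ℝ φ z (hX P z)) = 2 := by
  rw [hcon_dg h hz.2, h.pr.hsg_X, show hs P z = 1 from hz.1, mul_one]

theorem HData.lev_right (h : HData n η W g P R Q φ ψ O Ω) {z : F × F} (hz : z ∈ hCyl P ∩ hU P) :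
    φ z ∈ Lev W g (-2) ∩ (O ∩ ψ ⁻¹' hU P) ∧ ψ (φ z) = z := by
  have hb := (h.hU_ball hz.2).2
  obtain ⟨⟨h1, h2⟩, h3⟩ := h.ch.right z hb
  refine ⟨⟨⟨h1, ?_⟩, h2, ?_⟩, h3⟩
  · show g (φ z) = -2
    rw [h.val z hb, hcon_Q h hz.2, show hs P z = 1 from hz.1]
    norm_num
  · show ψ (φ z) ∈ hU P
    rw [h3]
    exact hz.2

theorem HData.lev_left (h : HData n η W g P R Q φ ψ O Ω) {y : E}
    (hy : y ∈ Lev W g (-2) ∩ (O ∩ ψ ⁻¹' hU P)) : ψ y ∈ hCyl P ∩ hU P ∧ φ (ψ y) = y := by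
  obtain ⟨h1, h2⟩ := h.ch.left y ⟨hy.1.1, hy.2.1⟩
  refine ⟨⟨?_, hy.2.2⟩, h2⟩
  have h3 := h.val _ h1
  rw [h2, hcon_Q h hy.2.2, show g y = -2 from hy.1.2] at h3
  show hs P (ψ y) = 1
  linarith

theorem HData.lev_tan (h : HData n η W g P R Q φ ψ O Ω) {z : F × F} (hz : z ∈ hCyl P ∩ hU P)
    {v : E} (hv : v ∈ Tan (Lev W g (-2)) (φ z)) :
    hsg P z (fderiv ℝ ψ (φ z) v) = 0 ∧ fderiv ℝ φ z (fderiv ℝ ψ (φ z) v) = v := by
  have h1 := h.ch.right_inv (h.hU_ball hz.2).2 (Tan.mono inter_subset_left hv)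
  refine ⟨?_, h1⟩
  have h2 := Tan.fderiv_congr (g := fun _ => (-2 : ℝ)) (h.lev_right hz).1.1
    (h.sm.differentiable (by simp) _) (differentiableAt_const _)
    (eventually_nhdsWithin_of_forall fun y hy => hy.2) hv
  have h3 := hcon_dg h hz.2 (fderiv ℝ ψ (φ z) v)
  rw [h1, h2] at h3
  simpa using h3

/-- `jn dg (Dφ X) (Dφ u) = (Dφ (hio u).1, (hio u).2)` because `dg (Dφ u) = 2 * hsg u`; `symz_pb` -/
theorem HData.upf_chart (h : HData n η W g P R Q φ ψ O Ω) {z : F × F} (hz : z ∈ hCyl P ∩ hU P)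
    {β : Form1 E} (hβ : ContDiff ℝ ∞ β) :
    bq (pK (fderiv ℝ φ z) K) (upf η g β (fderiv ℝ φ z (hX P z)) (φ z)) =
      osum (OmI P (pb φ β) z) η := by
  have e : ∀ u, jn (fderiv ℝ g (φ z)) (fderiv ℝ φ z (hX P z)) (fderiv ℝ φ z u) =
      (fderiv ℝ φ z).prodMap (ContinuousLinearMap.id ℝ ℝ) (hio P z u) := by
    intro u
    have e1 : (2 : ℝ)⁻¹ * (2 * hsg P z u) = hsg P z u := by ring
    rw [jn_apply, hcon_dgX h hz, hcon_dg h hz.2, e1, hio_apply]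
    simp
  refine ContinuousLinearMap.ext fun u => ContinuousLinearMap.ext fun v => ?_
  have e2 : bq (pK (fderiv ℝ φ z) K) (upf η g β (fderiv ℝ φ z (hX P z)) (φ z)) u v =
    upf η g β (fderiv ℝ φ z (hX P z)) (φ z) (fderiv ℝ φ z u.1, u.2) (fderiv ℝ φ z v.1, v.2) := rfl
  rw [e2, upf_apply, osum_apply, e, e, OmI, symz_pb h.ch.smφ hβ]
  rfl

/-- two forms on `pl (Tan W (φ z)) K` agree iff their pull-backs agree -/
theorem HData.eq_iff (h : HData n η W g P R Q φ ψ O Ω) {z : F × F} (hz : z ∈ ball (0 : F × F) R)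
    (w w' : Bil (E × K)) : bq (pK (fderiv ℝ φ z) K) w = bq (pK (fderiv ℝ φ z) K) w' ↔
      ∀ u ∈ pl (Tan W (φ z)) K, ∀ v ∈ pl (Tan W (φ z)) K, w u v = w' u v := by
  have hb := pK_bijOn (K := K) (h.ch.bijOn hz)
  constructor
  · intro e u hu v hv
    obtain ⟨u', -, rfl⟩ := hb.2.2 hu
    obtain ⟨v', -, rfl⟩ := hb.2.2 hv
    exact congrArg (fun B : Bil ((F × F) × K) => B u' v') e
  · intro e
    exact ContinuousLinearMap.ext fun u => ContinuousLinearMap.ext fun v =>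
      e _ (hb.1 (mem_pl.2 trivial)) _ (hb.1 (mem_pl.2 trivial))

theorem hcon_cont {X V V' : Type} [TopologicalSpace X] [NormedAddCommGroup V] [NormedSpace ℝ V]
    [FiniteDimensional ℝ V] [NormedAddCommGroup V'] [NormedSpace ℝ V'] {A : X → V →L[ℝ] V'}
    (hA : Continuous A) : Continuous fun x => pK (A x) K :=
  continuous_clm_apply.2 fun _ => (hA.clm_apply continuous_const).prodMk continuous_const

/-- `h_patch` with `a z = pK (Dφ z) K`, `b y = pK (Dψ y) K` and the open set `O ∩ ψ ⁻¹' hU P` -/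
theorem HData.patch (h : HData n η W g P R Q φ ψ O Ω) {C : Set (F × F)} (hC : IsCompact C)
    (hCS : C ⊆ hCyl P ∩ hU P) {G₀ : ℝ × E → Bil (E × K)}
    (h0 : NDField (Icc (0 : ℝ) 1 ×ˢ Lev W g (-2)) (fun q => pl (Tan W q.2) K) G₀)
    {k : ℝ × (F × F) → Bil ((F × F) × K)}
    (hk : NDField (Icc (0 : ℝ) 1 ×ˢ (hCyl P ∩ hU P)) (fun _ => ⊤) k)
    (e : ∀ t ∈ Icc (0 : ℝ) 1, ∀ z ∈ (hCyl P ∩ hU P) \ C,
      k (t, z) = bq (pK (fderiv ℝ φ z) K) (G₀ (t, φ z))) :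
    ∃ G : ℝ × E → Bil (E × K),
      NDField (Icc (0 : ℝ) 1 ×ˢ Lev W g (-2)) (fun q => pl (Tan W q.2) K) G ∧
      (∀ t ∈ Icc (0 : ℝ) 1, ∀ z ∈ hCyl P ∩ hU P,
        bq (pK (fderiv ℝ φ z) K) (G (t, φ z)) = k (t, z)) ∧
      ∀ t ∈ Icc (0 : ℝ) 1, ∀ y ∈ Lev W g (-2) \ φ '' C, G (t, y) = G₀ (t, y) := by
  refine h_patch (T := fun y => pl (Tan W y) K) (O := O ∩ ψ ⁻¹' hU P) (ψ := ψ)
    (a := fun z => pK (fderiv ℝ φ z) K) (b := fun y => pK (fderiv ℝ ψ y) K)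
    (h.ch.op.inter (isOpen_hU.preimage h.ch.smψ.continuous)) hC hCS
    h.ch.smφ.continuous.continuousOn h.ch.smψ.continuous.continuousOn
    (fun z hz => h.lev_right hz) (fun y hy => h.lev_left hy)
    (hcon_cont (h.ch.smφ.continuous_fderiv (by simp))).continuousOn
    (hcon_cont (h.ch.smψ.continuous_fderiv (by simp))).continuousOn (fun z hz => ?_) h0 hk e
  have hb := (h.hU_ball hz.2).2
  exact ⟨fun u => ⟨mem_pl.2 ((h.ch.bijOn hb).1 trivial), Prod.ext (h.ch.left_inv hb u.1) rfl⟩,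
    fun v hv => Prod.ext (h.ch.right_inv hb (mem_pl.1 hv)) rfl⟩

/-- `NDField.comp` with `r (t, z) = (t, φ z)` -/
theorem HData.pull (h : HData n η W g P R Q φ ψ O Ω) {G : ℝ × E → Bil (E × K)}
    (h0 : NDField (Icc (0 : ℝ) 1 ×ˢ Lev W g (-2)) (fun q => pl (Tan W q.2) K) G) :
    NDField (Icc (0 : ℝ) 1 ×ˢ (hCyl P ∩ hU P)) (fun _ => ⊤)
      fun q => bq (pK (fderiv ℝ φ q.2) K) (G (q.1, φ q.2)) := by
  refine NDField.comp (r := fun q : ℝ × (F × F) => (q.1, φ q.2))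
    (Φ := fun q => pK (fderiv ℝ φ q.2) K) h0
    (continuous_fst.prodMk (h.ch.smφ.continuous.comp continuous_snd)).continuousOn
    (fun q hq => ⟨hq.1, (h.lev_right hq.2).1.1⟩)
    (hcon_cont ((h.ch.smφ.continuous_fderiv (by simp)).comp continuous_snd)).continuousOn
    fun q hq => ?_
  have hb := pK_bijOn (K := K) (h.ch.bijOn (h.hU_ball hq.2.2).2)
  rwa [show pl (⊤ : Submodule ℝ (F × F)) K = ⊤ from Submodule.prod_top] at hb

theorem hcon_omI {A B : Form1 (F × F)} {p : F × F} (e : A =ᶠ[𝓝 p] B) : OmI P A p = OmI P B p := by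
  rw [OmI, OmI, symz, symz, dF, dF, e.fderiv_eq, e.eq_of_nhds]

/-- `γ y = β y + b y • pb ψ (fun z => ζ z • (B z - pb φ β z)) y`, `b` from `HCh.exists_bump`
(`r = 2`), `ζ` from `exists_cutoff` (`C ⊆ hU P`). Second claim: `omI_X` and `lev_tan`. First
claim: near `C` we have `pb φ γ = B`; off `C` use the second claim near `φ p`, `IsSub.upf_congr`,
`upf_chart`. -/
theorem HData.exists_form (h : HData n η W g P R Q φ ψ O Ω) {C : Set (F × F)} (hC : IsCompact C)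
    (hCS : C ⊆ hCyl P ∩ hU P) {β : Form1 E} (hβ : ContDiff ℝ ∞ β) {B : Form1 (F × F)}
    (hB : ContDiff ℝ ∞ B) (e : ∀ p ∈ (hCyl P ∩ hU P) \ C, OmI P B p = OmI P (pb φ β) p) :
    ∃ γ : Form1 E, ContDiff ℝ ∞ γ ∧ (∀ p ∈ hCyl P ∩ hU P, OmI P (pb φ γ) p = OmI P B p) ∧
      ∀ y ∈ Lev W g (-2) \ φ '' C, ∀ v ∈ Tan (Lev W g (-2)) y, γ y v = β y v := by
  obtain ⟨b, sb, -, -, b1, b2⟩ := h.ch.exists_bump (r := 2) (by linarith [h.md.big])
  obtain ⟨ζ, sζ, -, z1, z2, -⟩ := exists_cutoff hC.isClosed isOpen_hU fun z hz => (hCS hz).2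
  have sφ := contDiff_pb h.ch.smφ hβ
  set γ : Form1 E := fun y => β y + b y • pb ψ (fun z => ζ z • (B z - pb φ β z)) y with hγ
  have sγ : ContDiff ℝ ∞ γ := hβ.add (sb.smul (contDiff_pb h.ch.smψ (sζ.smul (hB.sub sφ))))
  have eγ : ∀ y v, γ y v = β y v + b y * (ζ (ψ y) *
      (B (ψ y) (fderiv ℝ ψ y v) - pb φ β (ψ y) (fderiv ℝ ψ y v))) := fun y v => rfl
  have two : ∀ y ∈ Lev W g (-2) \ φ '' C, ∀ v ∈ Tan (Lev W g (-2)) y, γ y v = β y v := by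
    intro y hy v hv
    rw [eγ]
    by_cases h1 : b y = 0
    · rw [h1, zero_mul, add_zero]
    by_cases h2 : ζ (ψ y) = 0
    · rw [h2, zero_mul, mul_zero, add_zero]
    obtain ⟨a1, a2⟩ := h.lev_left ⟨hy.1, b1 (subset_tsupport _ h1), z2 (subset_tsupport _ h2)⟩
    have a3 := (h.lev_tan a1 (a2.symm ▸ hv)).1
    rw [a2] at a3
    have a4 := e _ ⟨a1, fun hc => hy.2 ⟨_, hc, a2⟩⟩
    rw [← h.pr.omI_X B a1.1 a3, ← h.pr.omI_X (pb φ β) a1.1 a3, a4, sub_self, mul_zero, mul_zero,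
      add_zero]
  refine ⟨γ, sγ, fun p hp => ?_, two⟩
  by_cases hc : p ∈ C
  · refine hcon_omI ?_
    filter_upwards [isOpen_hU.mem_nhds hp.2, (eventually_nhdsSet_iff_forall.1 z1) p hc] with z a1 a2
    have hb := (h.hU_ball a1).2
    have a3 : b (φ z) = 1 :=
      b2.self_of_nhdsSet _ ⟨z, ball_subset_closedBall (h.pr.hU_subset a1), rfl⟩
    refine ContinuousLinearMap.ext fun u => ?_
    have a4 : pb φ γ z u = γ (φ z) (fderiv ℝ φ z u) := rfl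
    have a5 : pb φ β z u = β (φ z) (fderiv ℝ φ z u) := rfl
    rw [a4, eγ, h.ch.left_inv hb, (h.ch.right z hb).2, a2, a3, a5]
    ring
  · have hb := (h.hU_ball hp.2).2
    have a1 : φ p ∉ φ '' C := by
      rintro ⟨c, c1, c2⟩
      have c3 := congrArg ψ c2
      rw [(h.lev_right (hCS c1)).2, (h.lev_right hp).2] at c3
      exact hc (c3 ▸ c1)
    have a2 : ∀ᶠ y in 𝓝[Lev W g (-2)] φ p, ∀ v ∈ Tan (Lev W g (-2)) y, γ y v = β y v := by
      filter_upwards [self_mem_nhdsWithin, mem_nhdsWithin_of_mem_nhds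
        ((hC.image h.ch.smφ.continuous).isClosed.isOpen_compl.mem_nhds a1)] with y y1 y2
      exact two y ⟨y1, y2⟩
    have a3 := (h.eq_iff hb _ _).2 fun u hu v hv =>
      IsSub.upf_congr (η := η) (d := 2 * n + 1) h.sub h.sm sγ hβ (h.lev_right hp).1.1
        ((h.ch.bijOn hb).1 (show hX P p ∈ _ from trivial)) (by rw [hcon_dgX h hp]; norm_num) a2
        hu hv
    rw [h.upf_chart hp sγ, h.upf_chart hp hβ] at a3
    rw [e p ⟨hp, hc⟩]
    refine ContinuousLinearMap.ext fun u => ContinuousLinearMap.ext fun v => ?_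
    have a4 := congrArg (fun w : Bil ((F × F) × K) => w (u, 0) (v, 0)) a3
    simpa only [osum_apply, add_left_inj] using a4

end Pool.Agent.Lib.MP_ccffa6_gt
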