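import Pool.Agent.Lib.MP_ccffa6_gt.Defs

/-! Definitions for the handle step of block ELI. -/

open Set Filter Topology Metric
open scoped ContDiff RealInnerProductSpace

noncomputable section

namespace Pool.Agent.Lib.MP_ccffa6_gt

section gen

variable {E : Type} [NormedAddCommGroup E] [NormedSpace ℝ E]
  {V : Type} [NormedAddCommGroup V] [NormedSpace ℝ V]
  {K : Type} [NormedAddCommGroup K] [NormedSpace ℝ K]

/-- pull-back of a bilinear form -/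
abbrev bq (A : V →L[ℝ] E) (w : Bil E) : Bil V := w.bilinearComp A A

/-- `A ⊕ id` -/
abbrev pK (A : V →L[ℝ] E) (K : Type) [NormedAddCommGroup K] [NormedSpace ℝ K] :
    V × K →L[ℝ] E × K := A.prodMap (ContinuousLinearMap.id ℝ K)

/-- `u ↦ (u - (g u / g ν) ν, g u / g ν)`, inverse to `(v, s) ↦ v + s ν` -/
def jn (g : E →L[ℝ] ℝ) (ν : E) : E →L[ℝ] E × ℝ :=
  (ContinuousLinearMap.id ℝ E - ((g ν)⁻¹ • g).smulRight ν).prod ((g ν)⁻¹ • g)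

/-- the form `ds ∧ β + dβ ⊕ η` of a level of `f`, read on `TW ⊕ K` with `∂_s = ν` -/
def upf (η : Bil K) (f : E → ℝ) (β : Form1 E) (ν : E) (x : E) : Bil (E × K) :=
  osum (bq (jn (fderiv ℝ f x) ν) (symz β x)) η

/-- `ν` is a continuous field along the level, tangent to `W` and pointing upwards -/
structure HUp (W : Set E) (f : E → ℝ) (c : ℝ) (ν : E → E) : Prop where
  cont : ContinuousOn ν (Lev W f c)
  tan : ∀ x ∈ Lev W f c, ν x ∈ Tan W x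
  pos : ∀ x ∈ Lev W f c, 0 < fderiv ℝ f x (ν x)

/-- The level `c` carries a good contact form in the class of `Ω`. -/
def KG (n : ℕ) (η : Bil K) (W : Set E) (f : E → ℝ) (c : ℝ) (Ω : E → Bil (E × K)) : Prop :=
  ∃ (β : Form1 E) (ν : E → E), CMan n (Lev W f c) β ∧ Good n (Lev W f c) β ∧ HUp W f c ν ∧
    NDHtpy (Lev W f c) (fun x => pl (Tan W x) K) (fun x => upf η f β (ν x) x) Ω

/-- Homotopy which is constant over `B`. -/
def RH {X : Type} [TopologicalSpace X] (S B : Set X) (T : X → Submodule ℝ V)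
    (Ω₀ Ω₁ : X → Bil V) : Prop :=
  ∃ H : ℝ × X → Bil V, NDField (Icc (0 : ℝ) 1 ×ˢ S) (fun q => T q.2) H ∧
    (∀ x ∈ S, ∀ u ∈ T x, ∀ v ∈ T x, H (0, x) u v = Ω₀ x u v ∧ H (1, x) u v = Ω₁ x u v) ∧
    ∀ t ∈ Icc (0 : ℝ) 1, ∀ x ∈ S ∩ B, ∀ u ∈ T x, ∀ v ∈ T x, H (t, x) u v = Ω₀ x u v

/-- the part of `W` between two levels -/
def HSl (W : Set E) (f : E → ℝ) (a b : ℝ) : Set E := W ∩ f ⁻¹' Icc a b

/-- critical points in a slab -/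
def HCrit (W : Set E) (f : E → ℝ) (a b : ℝ) : Set E :=
  {x | x ∈ HSl W f a b ∧ ∀ v ∈ Tan W x, fderiv ℝ f x v = 0}

/-- A chart of `W` which is valid on the ball of radius `R`. -/
structure HCh (W : Set E) (φ : V → E) (ψ : E → V) (O : Set E) (R : ℝ) : Prop where
  smφ : ContDiff ℝ ∞ φ
  smψ : ContDiff ℝ ∞ ψ
  op : IsOpen O
  right : ∀ z ∈ ball (0 : V) R, φ z ∈ W ∩ O ∧ ψ (φ z) = z
  left : ∀ y ∈ W ∩ O, ψ y ∈ ball (0 : V) R ∧ φ (ψ y) = y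

end gen

section model

variable {F : Type} [NormedAddCommGroup F] [InnerProductSpace ℝ F]

/-- orthogonal projector -/
structure OPr (P : F →L[ℝ] F) : Prop where
  idem : ∀ a, P (P a) = P a
  symm : ∀ a b, ⟪P a, b⟫ = ⟪a, P b⟫

/-- For `p = (a, b)` put `q = P a`, `x = a - P a`, `v = P b`, `y = b - P b`; this is `|q|²`. -/
def hs (P : F →L[ℝ] F) (p : F × F) : ℝ := ‖P p.1‖ ^ 2

/-- `|x|² + |v|² + |y|²` -/
def hr (P : F →L[ℝ] F) (p : F × F) : ℝ := ‖p.1 - P p.1‖ ^ 2 + ‖p.2‖ ^ 2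

/-- the Liouville field `(-q + x / 2, 2 v + y / 2)` of the handle -/
def hX (P : F →L[ℝ] F) : F × F →L[ℝ] F × F :=
  ((1 / 2 : ℝ) • ContinuousLinearMap.id ℝ F - (3 / 2 : ℝ) • P).prodMap
    ((1 / 2 : ℝ) • ContinuousLinearMap.id ℝ F + (3 / 2 : ℝ) • P)

/-- the bilinear form `(u, u') ↦ ⟪(2 P - 1) u.2, u'.1⟫` -/
def hhalf (P : F →L[ℝ] F) : Bil (F × F) :=
  (innerSL ℝ : F →L[ℝ] F →L[ℝ] ℝ).bilinearComp
    (((2 : ℝ) • P - ContinuousLinearMap.id ℝ F).comp (ContinuousLinearMap.snd ℝ F F))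
    (ContinuousLinearMap.fst ℝ F F)

/-- `dv ∧ dq + dx ∧ dy` -/
def hom (P : F →L[ℝ] F) : Bil (F × F) := hhalf P - (hhalf P).flip

/-- the Liouville form of the handle -/
def hlam (P : F →L[ℝ] F) : Form1 (F × F) := fun p => hom P (hX P p)

/-- an invariant of the Liouville flow: `|v|² |q|⁴ + (|x|² + |y|²)² |q|²` -/
def hI (P : F →L[ℝ] F) (p : F × F) : ℝ :=
  ‖P p.2‖ ^ 2 * hs P p ^ 2 + (‖p.1 - P p.1‖ ^ 2 + ‖p.2 - P p.2‖ ^ 2) ^ 2 * hs P p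

/-- the cylinder `|q| = 1` -/
def hCyl (P : F →L[ℝ] F) : Set (F × F) := {p | hs P p = 1}

/-- the attaching sphere -/
def hCore (P : F →L[ℝ] F) : Set (F × F) := {p | hs P p = 1 ∧ hr P p = 0}

/-- the open set in which the lower level is the cylinder -/
def hU (P : F →L[ℝ] F) : Set (F × F) := {p | 1 / 2 < hs P p ∧ hs P p < 2 ∧ hr P p < 1}

/-- `-⟨q, dq⟩` -/
def hsg (P : F →L[ℝ] F) (p : F × F) : F × F →L[ℝ] ℝ :=
  -(innerSL ℝ (P p.1)).comp (ContinuousLinearMap.fst ℝ F F)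

/-- the isomorphism onto `T Cyl ⊕ ℝ` with `∂_s = X` -/
def hio (P : F →L[ℝ] F) (p : F × F) : F × F →L[ℝ] (F × F) × ℝ :=
  (ContinuousLinearMap.id ℝ (F × F) - (hsg P p).smulRight (hX P p)).prod (hsg P p)

/-- `ds ∧ A + dA` on the cylinder, read on the ambient space -/
def OmI (P : F →L[ℝ] F) (A : Form1 (F × F)) (p : F × F) : Bil (F × F) := bq (hio P p) (symz A p)

/-- projection to the cylinder along the Liouville flow -/
def hpi (P : F →L[ℝ] F) (p : F × F) : F × F :=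
  (‖P p.1‖⁻¹ • P p.1 + √‖P p.1‖ • (p.1 - P p.1),
    ‖P p.1‖ ^ 2 • P p.2 + √‖P p.1‖ • (p.2 - P p.2))

/-- The flattened and lowered model function. -/
structure HMod (P : F →L[ℝ] F) (R : ℝ) (Q : F × F → ℝ) : Prop where
  sm : ContDiff ℝ ∞ Q
  big : 5 ≤ R
  out : ∀ p, R - 2 ≤ ‖p‖ → Q p = hr P p - hs P p
  bd : ∀ p, hr P p - hs P p - 4 ≤ Q p ∧ Q p ≤ hr P p - hs P p
  nonneg : ∀ p, 0 ≤ fderiv ℝ Q p (hX P p)
  zero : ∀ p, fderiv ℝ Q p (hX P p) = 0 → hs P p = 0 ∧ hr P p ≤ 1 ∧ Q p = -1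
  flat : ∀ p, hs P p ≤ 3 → hr P p ≤ 1 → Q p = -hs P p - 1
  conf : ∀ p, hI P p ≤ 1 / 10 → -5 / 2 ≤ Q p → Q p ≤ -1 / 4 → ‖p‖ ≤ 3
  low : ∀ ε > 0, ∃ δ > 0, ∀ p, hI P p ≤ δ → Q p = -2 → hs P p = 1 ∧ hr P p < ε

/-- ELI in the tube, in the form used by the handle step. -/
def TubeH (n : ℕ) : Prop :=
  ∀ (F : Type) [NormedAddCommGroup F] [InnerProductSpace ℝ F] [FiniteDimensional ℝ F]
    (P : F →L[ℝ] F), OPr P → Module.finrank ℝ F = n + 1 →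
    ∀ (A : Form1 (F × F)) (U : Set (F × F)) (Ω : ℝ × (F × F) → Bil (F × F)),
    ContDiff ℝ ∞ A → IsOpen U → hCore P ⊆ U → (∀ p ∈ hCyl P ∩ U, ND ⊤ (OmI P A p)) →
    NDField (Icc (0 : ℝ) 1 ×ˢ hCore P) (fun _ => ⊤) Ω →
    (∀ p ∈ hCore P, Ω (0, p) = OmI P A p ∧ Ω (1, p) = hom P) →
    ∃ (B : ℝ → Form1 (F × F)) (C : Set (F × F)) (D : (ℝ × ℝ) × (F × F) → Bil (F × F)),
      IsCompact C ∧ C ⊆ hCyl P ∩ U ∧ (∀ t, ContDiff ℝ ∞ (B t)) ∧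
      NDField (Icc (0 : ℝ) 1 ×ˢ (hCyl P ∩ U)) (fun _ => ⊤) (fun z => OmI P (B z.1) z.2) ∧
      (∀ t ∈ Icc (0 : ℝ) 1, ∀ p ∈ (hCyl P ∩ U) \ C, OmI P (B t) p = OmI P A p) ∧
      (∀ p ∈ hCyl P ∩ U, OmI P (B 0) p = OmI P A p) ∧
      (∀ᶠ p in 𝓝ˢ (hCore P), p ∈ hCyl P → OmI P (B 1) p = hom P) ∧
      NDField ((Icc (0 : ℝ) 1 ×ˢ Icc (0 : ℝ) 1) ×ˢ hCore P) (fun _ => ⊤) D ∧
      ∀ p ∈ hCore P, ∀ t ∈ Icc (0 : ℝ) 1, D ((0, t), p) = OmI P (B t) p ∧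
        D ((1, t), p) = Ω (t, p) ∧ D ((t, 0), p) = OmI P A p ∧ D ((t, 1), p) = hom P

end model

/-- The data of a handle: lower level `-2`, upper level `-1/2`. -/
structure HData {E K F : Type} [NormedAddCommGroup E] [NormedSpace ℝ E] [NormedAddCommGroup K]
    [NormedSpace ℝ K] [NormedAddCommGroup F] [InnerProductSpace ℝ F] (n : ℕ) (η : Bil K)
    (W : Set E) (g : E → ℝ) (P : F →L[ℝ] F) (R : ℝ) (Q : F × F → ℝ) (φ : F × F → E)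
    (ψ : E → F × F) (O : Set E) (Ω : E → Bil (E × K)) : Prop where
  sub : IsSub (2 * n + 2) W
  sm : ContDiff ℝ ∞ g
  dim : Module.finrank ℝ F = n + 1
  pr : OPr P
  md : HMod P R Q
  ch : HCh W φ ψ O R
  val : ∀ z ∈ ball (0 : F × F) R, g (φ z) = Q z
  cpt : IsCompact (HSl W g (-5 / 2) (-1 / 4))
  reg : ∀ x ∈ HSl W g (-5 / 2) (-1 / 4), x ∉ O → ∃ v ∈ Tan W x, fderiv ℝ g x v ≠ 0
  nd : ND ⊤ η
  fld : NDField (HSl W g (-5 / 2) (-1 / 4)) (fun x => pl (Tan W x) K) Ω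
  nrm : ∀ z ∈ closedBall (0 : F × F) (R - 1), φ z ∈ HSl W g (-5 / 2) (-1 / 4) →
    bq (pK (fderiv ℝ φ z) K) (Ω (φ z)) = osum (hom P) η

/-- A gradient-like field which is the Liouville field in the chart. -/
structure HFld {E F : Type} [NormedAddCommGroup E] [NormedSpace ℝ E] [NormedAddCommGroup F]
    [InnerProductSpace ℝ F] (W : Set E) (g : E → ℝ) (P : F →L[ℝ] F) (R : ℝ) (φ : F × F → E)
    (Y : E → E) (N : Set E) : Prop where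
  sm : ContDiff ℝ ∞ Y
  cs : HasCompactSupport Y
  op : IsOpen N
  sub : HSl W g (-5 / 2) (-1 / 4) ⊆ N
  tan : ∀ y ∈ W ∩ N, Y y ∈ Tan W y
  ch : ∀ z ∈ closedBall (0 : F × F) (R - 1), φ z ∈ N → Y (φ z) = fderiv ℝ φ z (hX P z)
  pos : ∀ y ∈ W ∩ N, y ∉ φ '' closedBall 0 (R - 1) → 0 < fderiv ℝ g y (Y y)

end Pool.Agent.Lib.MP_ccffa6_gt
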