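import Pool.Agent.Lib.MP_ccffa6_gt.ELI.HAlg

/-! The flattened model function. -/

open Set Filter Topology Metric
open scoped ContDiff RealInnerProductSpace

noncomputable section

namespace Pool.Agent.Lib.MP_ccffa6_gt

variable {F : Type} [NormedAddCommGroup F] [InnerProductSpace ℝ F] [FiniteDimensional ℝ F]
  {P : F →L[ℝ] F}

theorem hmod_S : ∃ M : ℝ, 0 ≤ M ∧ ∀ x, 0 ≤ deriv Real.smoothTransition x ∧
    deriv Real.smoothTransition x ≤ M := by
  have hc : Continuous (deriv Real.smoothTransition) :=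
    (Real.smoothTransition.contDiff (n := 1)).continuous_deriv le_rfl
  obtain ⟨M, hM⟩ := (isCompact_Icc (a := (0 : ℝ)) (b := 1)).exists_bound_of_continuousOn
    hc.continuousOn
  refine ⟨|M|, abs_nonneg M, fun x => ⟨Real.smoothTransition.monotone.deriv_nonneg, ?_⟩⟩
  rcases lt_or_ge x 0 with h0 | h0
  · have e : Real.smoothTransition =ᶠ[𝓝 x] fun _ => 0 := by
      filter_upwards [gt_mem_nhds h0] with y hy
      exact Real.smoothTransition.zero_of_nonpos hy.le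
    rw [e.deriv_eq, deriv_const]
    exact abs_nonneg M
  rcases lt_or_ge 1 x with h1 | h1
  · have e : Real.smoothTransition =ᶠ[𝓝 x] fun _ => 1 := by
      filter_upwards [lt_mem_nhds h1] with y hy
      exact Real.smoothTransition.one_of_one_le hy.le
    rw [e.deriv_eq, deriv_const]
    exact abs_nonneg M
  · exact ((le_abs_self _).trans (hM x ⟨h0, h1⟩)).trans (le_abs_self M)

theorem hmod_dS (a L s : ℝ) : HasDerivAt (fun s => Real.smoothTransition ((s - a) / L))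
    (deriv Real.smoothTransition ((s - a) / L) * (1 / L)) s :=
  (((Real.smoothTransition.contDiff (n := 1)).differentiable one_ne_zero _).hasDerivAt).comp s
    (((hasDerivAt_id s).sub_const a).div_const L)

theorem hmod_cS (a L : ℝ) : ContDiff ℝ ∞ fun s => Real.smoothTransition ((s - a) / L) :=
  Real.smoothTransition.contDiff.comp ((contDiff_id.sub contDiff_const).div_const L)

/-- a cut-off with small slope: `1 - smoothTransition ((s - 4) / L)` with `L` large -/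
theorem hmod_cut : ∃ (χ : ℝ → ℝ) (T : ℝ), ContDiff ℝ ∞ χ ∧ 4 < T ∧ (∀ s, χ s ∈ Icc (0 : ℝ) 1) ∧
    (∀ s ≤ 4, χ s = 1) ∧ (∀ s, T ≤ s → χ s = 0) ∧ ∀ s, -1 / 5 ≤ deriv χ s := by
  obtain ⟨M, hM0, hM⟩ := hmod_S
  have hL : 0 < 5 * M + 1 := by positivity
  refine ⟨fun s => 1 - Real.smoothTransition ((s - 4) / (5 * M + 1)), 4 + (5 * M + 1),
    contDiff_const.sub (hmod_cS _ _), by linarith, fun s => ⟨?_, ?_⟩, fun s hs => ?_,
    fun s hs => ?_, fun s => ?_⟩
  · exact sub_nonneg.2 (Real.smoothTransition.le_one _)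
  · exact sub_le_self _ (Real.smoothTransition.nonneg _)
  · show 1 - Real.smoothTransition ((s - 4) / (5 * M + 1)) = 1
    rw [Real.smoothTransition.zero_of_nonpos
      (div_nonpos_of_nonpos_of_nonneg (by linarith) hL.le), sub_zero]
  · show 1 - Real.smoothTransition ((s - 4) / (5 * M + 1)) = 0
    rw [Real.smoothTransition.one_of_one_le ((one_le_div hL).2 (by linarith)), sub_self]
  · rw [((hmod_dS 4 (5 * M + 1) s).const_sub 1).deriv, mul_one_div, neg_div, neg_le_neg_iff,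
      div_le_iff₀ hL]
    linarith [(hM ((s - 4) / (5 * M + 1))).2]

/-- `γ r = (1 - θ r) (1 + r)` with `θ r = smoothTransition ((r - 1) / 2)` -/
theorem hmod_flat : ∃ γ : ℝ → ℝ, ContDiff ℝ ∞ γ ∧ (∀ r, 0 ≤ r → γ r ∈ Icc (0 : ℝ) 4) ∧
    (∀ r ≤ 1, γ r = 1 + r) ∧ (∀ r, 3 ≤ r → γ r = 0) ∧ (∀ r, 0 ≤ r → γ r ≤ 1 + r) ∧
    (∀ r, 0 ≤ r → deriv γ r ≤ 1) ∧ ∀ r, 1 < r → deriv γ r < 1 := by
  obtain ⟨M, -, hM⟩ := hmod_S
  have hd : ∀ r, deriv (fun r => (1 - Real.smoothTransition ((r - 1) / 2)) * (1 + r)) r =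
      1 - Real.smoothTransition ((r - 1) / 2) -
        deriv Real.smoothTransition ((r - 1) / 2) * (1 + r) / 2 := fun r => by
    have h1 : HasDerivAt (fun r => (1 - Real.smoothTransition ((r - 1) / 2)) * (1 + r)) _ r :=
      ((hmod_dS 1 2 r).const_sub 1).mul ((hasDerivAt_id r).const_add 1)
    rw [h1.deriv]
    ring
  have h0 := fun r : ℝ => Real.smoothTransition.nonneg ((r - 1) / 2)
  have h1 := fun r : ℝ => Real.smoothTransition.le_one ((r - 1) / 2)
  have h3 : ∀ r : ℝ, 3 ≤ r → (1 - Real.smoothTransition ((r - 1) / 2)) * (1 + r) = 0 :=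
    fun r hr => by rw [Real.smoothTransition.one_of_one_le (by linarith), sub_self, zero_mul]
  have h4 : ∀ r : ℝ, 0 ≤ r → (1 - Real.smoothTransition ((r - 1) / 2)) * (1 + r) ≤ 1 + r :=
    fun r hr => mul_le_of_le_one_left (by linarith) (by linarith [h0 r])
  refine ⟨fun r => (1 - Real.smoothTransition ((r - 1) / 2)) * (1 + r),
    (contDiff_const.sub (hmod_cS _ _)).mul (contDiff_const.add contDiff_id),
    fun r hr => ⟨mul_nonneg (by linarith [h1 r]) (by linarith), ?_⟩, fun r hr => ?_, h3, h4,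
    fun r hr => ?_, fun r hr => ?_⟩
  · rcases le_total r 3 with h | h
    · exact (h4 r hr).trans (by linarith)
    · exact (h3 r h).le.trans (by norm_num)
  · show (1 - Real.smoothTransition ((r - 1) / 2)) * (1 + r) = 1 + r
    rw [Real.smoothTransition.zero_of_nonpos (by linarith), sub_zero, one_mul]
  · have := mul_nonneg (hM ((r - 1) / 2)).1 (by linarith : 0 ≤ 1 + r)
    rw [hd]
    linarith [h0 r]
  · have := mul_nonneg (hM ((r - 1) / 2)).1 (by linarith : 0 ≤ 1 + r)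
    have := Real.smoothTransition.pos_of_pos (by linarith : 0 < (r - 1) / 2)
    rw [hd]
    linarith

theorem hmod_inv (h : OPr P) {p : F × F} {δ : ℝ} (hδ : 0 ≤ δ) (h1 : 1 ≤ hs P p)
    (hi : hI P p ≤ δ ^ 2) : hr P p ≤ δ ^ 2 + δ := by
  have e := h.pyth p.2
  obtain ⟨U, hU⟩ : ∃ U, U = ‖p.1 - P p.1‖ ^ 2 + ‖p.2 - P p.2‖ ^ 2 := ⟨_, rfl⟩
  rw [hI, ← hU] at hi
  have a1 : ‖P p.2‖ ^ 2 ≤ ‖P p.2‖ ^ 2 * hs P p ^ 2 :=
    le_mul_of_one_le_right (sq_nonneg _) (one_le_pow₀ h1)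
  have a2 : U ^ 2 ≤ U ^ 2 * hs P p := le_mul_of_one_le_right (sq_nonneg _) h1
  have a3 : U ≤ δ := le_of_sq_le_sq (by linarith [sq_nonneg ‖P p.2‖]) hδ
  rw [hr]
  linarith [sq_nonneg U]

/-- `Q = r - s - χ s * γ r` with `s = hs`, `r = hr` -/
theorem OPr.exists_hMod (h : OPr P) : ∃ (R : ℝ) (Q : F × F → ℝ), HMod P R Q := by
  obtain ⟨χ, T, cχ, hT, χ01, χ1, χ0, χd⟩ := hmod_cut
  obtain ⟨γ, cγ, γ04, γ1, γ0, γle, γd, γd'⟩ := hmod_flat
  obtain ⟨Q, hQ⟩ : ∃ Q : F × F → ℝ, Q = fun p => hr P p - hs P p - χ (hs P p) * γ (hr P p) :=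
    ⟨_, rfl⟩
  have hQp : ∀ p, Q p = hr P p - hs P p - χ (hs P p) * γ (hr P p) := fun p => by rw [hQ]
  have hD : ∀ p, fderiv ℝ Q p (hX P p) =
      2 * hs P p * (1 + deriv χ (hs P p) * γ (hr P p)) +
        fderiv ℝ (hr P) p (hX P p) * (1 - χ (hs P p) * deriv γ (hr P p)) := fun p => by
    have ds := ((contDiff_hs (P := P)).differentiable (by simp) p).hasFDerivAt
    have dr := ((contDiff_hr (P := P)).differentiable (by simp) p).hasFDerivAt
    have d1 := (cχ.differentiable (by simp) (hs P p)).hasDerivAt.comp_hasFDerivAt p ds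
    have d2 := (cγ.differentiable (by simp) (hr P p)).hasDerivAt.comp_hasFDerivAt p dr
    have d3 : HasFDerivAt (fun p => hr P p - hs P p - χ (hs P p) * γ (hr P p)) _ p :=
      (dr.sub ds).sub (d1.mul d2)
    rw [hQ, d3.fderiv]
    simp only [sub_apply, add_apply, smul_apply, smul_eq_mul, Function.comp_apply, h.fderiv_hs,
      h.hsg_X]
    ring
  have hr' : ∀ p, hr P p ≤ fderiv ℝ (hr P) p (hX P p) := fun p => by
    rw [h.fderiv_hr_X, hr, h.pyth p.2]
    linarith [sq_nonneg ‖P p.2‖]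
  have t1 : ∀ p, 1 / 5 ≤ 1 + deriv χ (hs P p) * γ (hr P p) := fun p => by
    have a := γ04 _ (hr_nonneg (P := P) p)
    have b := mul_le_mul_of_nonneg_right (χd (hs P p)) a.1
    linarith [a.2]
  have t2 : ∀ p, 0 ≤ 1 - χ (hs P p) * deriv γ (hr P p) := fun p => by
    have a := mul_le_mul_of_nonneg_left (γd _ (hr_nonneg (P := P) p)) (χ01 (hs P p)).1
    linarith [(χ01 (hs P p)).2]
  have u1 : ∀ p, 0 ≤ 2 * hs P p * (1 + deriv χ (hs P p) * γ (hr P p)) := fun p =>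
    mul_nonneg (by linarith [hs_nonneg (P := P) p]) (by linarith [t1 p])
  have u2 : ∀ p, 0 ≤ fderiv ℝ (hr P) p (hX P p) * (1 - χ (hs P p) * deriv γ (hr P p)) := fun p =>
    mul_nonneg ((hr_nonneg p).trans (hr' p)) (t2 p)
  have bd : ∀ p, hr P p - hs P p - 4 ≤ Q p ∧ Q p ≤ hr P p - hs P p := fun p => by
    have a := γ04 _ (hr_nonneg (P := P) p)
    have b := χ01 (hs P p)
    have c1 := mul_nonneg b.1 a.1
    have c2 := mul_le_of_le_one_left a.1 b.2
    rw [hQp]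
    exact ⟨by linarith [a.2], by linarith⟩
  have fl : ∀ p, hs P p ≤ 4 → hr P p ≤ 1 → Q p = -hs P p - 1 := fun p h1 h2 => by
    rw [hQp, χ1 _ h1, γ1 _ h2]
    ring
  have r1 : ∀ p, hI P p ≤ 1 / 10 → 1 ≤ hs P p → hr P p ≤ 1 := fun p h1 h2 =>
    (hmod_inv h (δ := 1 / 2) (by norm_num) h2 (by linarith)).trans (by norm_num)
  have s32 : ∀ p, hI P p ≤ 1 / 10 → -5 / 2 ≤ Q p → hs P p ≤ 3 / 2 := fun p h1 h2 => by
    by_contra hc
    have a := r1 p h1 (by linarith)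
    rcases le_total (hs P p) 4 with b | b
    · rw [fl p b a] at h2
      linarith
    · linarith [(bd p).2]
  refine ⟨T + 10, Q, ?_, by linarith, fun p hp => ?_, bd, fun p => ?_, fun p hp => ?_,
    fun p h1 h2 => fl p (by linarith) h2, fun p h1 h2 h3 => ?_, fun ε hε => ?_⟩
  · rw [hQ]
    exact (contDiff_hr.sub contDiff_hs).sub ((cχ.comp contDiff_hs).mul (cγ.comp contDiff_hr))
  · have a := (h.sq_le p).1
    have b : T + 3 ≤ ‖p‖ ^ 2 := by nlinarith
    rw [hQp]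
    rcases le_total T (hs P p) with c | c
    · rw [χ0 _ c, zero_mul, sub_zero]
    · rw [γ0 _ (by linarith), mul_zero, sub_zero]
  · rw [hD]
    exact add_nonneg (u1 p) (u2 p)
  · rw [hD] at hp
    have a1 : 2 * hs P p * (1 + deriv χ (hs P p) * γ (hr P p)) = 0 := by linarith [u1 p, u2 p]
    have a2 : fderiv ℝ (hr P) p (hX P p) * (1 - χ (hs P p) * deriv γ (hr P p)) = 0 := by
      linarith [u1 p, u2 p]
    have s0 : hs P p = 0 := by
      have := (mul_eq_zero.1 a1).resolve_right (by linarith [t1 p])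
      linarith
    have r0 : hr P p ≤ 1 := by
      by_contra hc
      rw [χ1 _ (by linarith), one_mul] at a2
      rcases mul_eq_zero.1 a2 with b | b
      · linarith [hr' p]
      · linarith [γd' _ (not_le.1 hc)]
    refine ⟨s0, r0, ?_⟩
    rw [fl p (by linarith) r0, s0]
    norm_num
  · have a := s32 p h1 h2
    have b : hr P p ≤ 3 := by
      by_contra hc
      rw [hQp, γ0 _ (not_le.1 hc).le] at h3
      linarith
    exact le_of_sq_le_sq (by linarith [(h.sq_le p).1]) (by norm_num)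
  · obtain ⟨d, d0, d1, d2⟩ : ∃ d : ℝ, 0 < d ∧ d ≤ 1 / 4 ∧ d ≤ ε / 4 :=
      ⟨min (1 / 4) (ε / 4), lt_min (by norm_num) (by positivity), min_le_left _ _, min_le_right _ _⟩
    have d3 : d ^ 2 ≤ d / 4 := by nlinarith
    refine ⟨d ^ 2, by positivity, fun p h1 h2 => ?_⟩
    have a := s32 p (by linarith) (by linarith)
    have b : 1 ≤ hs P p := by
      have := γle _ (hr_nonneg (P := P) p)
      rw [hQp, χ1 _ (by linarith)] at h2
      linarith
    have c := hmod_inv h d0.le b h1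
    rw [fl p (by linarith) (by linarith)] at h2
    exact ⟨by linarith, by linarith⟩

theorem HMod.fderiv_flat (h : OPr P) {R : ℝ} {Q : F × F → ℝ} (hm : HMod P R Q) {p : F × F}
    (hp : p ∈ hU P) (u : F × F) : fderiv ℝ Q p u = 2 * hsg P p u := by
  have e : Q =ᶠ[𝓝 p] fun z => -hs P z - 1 := by
    filter_upwards [isOpen_hU.mem_nhds hp] with z hz
    exact hm.flat z (by linarith [hz.2.1]) hz.2.2.le
  have ds := ((contDiff_hs (P := P)).differentiable (by simp) p).hasFDerivAt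
  have d1 : HasFDerivAt (fun z => -hs P z - 1) _ p := ds.neg.sub_const 1
  rw [e.fderiv_eq, d1.fderiv, neg_apply, h.fderiv_hs]
  ring

theorem HMod.cyl_iff {R : ℝ} {Q : F × F → ℝ} (hm : HMod P R Q) {p : F × F} (hp : p ∈ hU P) :
    Q p = -2 ↔ p ∈ hCyl P := by
  rw [hm.flat p (by linarith [hp.2.1]) hp.2.2.le]
  exact ⟨fun e => show hs P p = 1 by linarith, fun e => by rw [show hs P p = 1 from e]; norm_num⟩

theorem hmod_iso {i m d : ℕ} (h : i + m = d) : ∃ c : Rd d ≃L[ℝ] (Rd i × Rd m),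
    ∀ a b, ⟪a, b⟫ = ⟪(c a).1, (c b).1⟫ + ⟪(c a).2, (c b).2⟫ := by
  have hd : Module.finrank ℝ (WithLp 2 (Rd i × Rd m)) = d := by
    rw [(WithLp.linearEquiv 2 ℝ (Rd i × Rd m)).finrank_eq, Module.finrank_prod,
      finrank_euclideanSpace_fin, finrank_euclideanSpace_fin, h]
  let e : WithLp 2 (Rd i × Rd m) ≃ₗᵢ[ℝ] Rd d :=
    ((stdOrthonormalBasis ℝ (WithLp 2 (Rd i × Rd m))).reindex (finCongr hd)).repr
  refine ⟨e.symm.toContinuousLinearEquiv.trans
    (WithLp.prodContinuousLinearEquiv 2 ℝ (Rd i) (Rd m)), fun a b => ?_⟩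
  rw [← e.symm.inner_map_map, WithLp.prod_inner_apply]
  rfl

/-- the splitting of a Morse chart -/
theorem exists_split {n i j : ℕ} (hi : i ≤ n + 1) (hij : i + j = 2 * n + 2) :
    ∃ (P : Rd (n + 1) →L[ℝ] Rd (n + 1)) (L : (Rd (n + 1) × Rd (n + 1)) ≃L[ℝ] (Rd i × Rd j)),
      OPr P ∧ ∀ p, ‖(L p).1‖ ^ 2 = hs P p ∧ ‖(L p).2‖ ^ 2 = hr P p := by
  obtain ⟨c, hc⟩ := hmod_iso (i := i) (m := n + 1 - i) (d := n + 1) (by omega)
  obtain ⟨c', hc'⟩ := hmod_iso (i := n + 1 - i) (m := n + 1) (d := j) (by omega)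
  have nc : ∀ a, ‖a‖ ^ 2 = ‖(c a).1‖ ^ 2 + ‖(c a).2‖ ^ 2 := fun a => by
    simp only [← real_inner_self_eq_norm_sq]
    exact hc a a
  have nc' : ∀ a, ‖a‖ ^ 2 = ‖(c' a).1‖ ^ 2 + ‖(c' a).2‖ ^ 2 := fun a => by
    simp only [← real_inner_self_eq_norm_sq]
    exact hc' a a
  obtain ⟨P, hP⟩ : ∃ P : Rd (n + 1) →L[ℝ] Rd (n + 1), ∀ a, c (P a) = ((c a).1, 0) :=
    ⟨c.symm.toContinuousLinearMap.comp ((ContinuousLinearMap.inl ℝ (Rd i) (Rd (n + 1 - i))).comp
      ((ContinuousLinearMap.fst ℝ (Rd i) (Rd (n + 1 - i))).comp c.toContinuousLinearMap)),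
      fun a => c.apply_symm_apply _⟩
  refine ⟨P, ((c.prodCongr (ContinuousLinearEquiv.refl ℝ _)).trans
    (ContinuousLinearEquiv.prodAssoc ℝ _ _ _)).trans
      ((ContinuousLinearEquiv.refl ℝ _).prodCongr c'.symm),
    ⟨fun a => c.injective (by rw [hP, hP]), fun a b => ?_⟩, fun p => ⟨?_, ?_⟩⟩
  · rw [hc, hc a, hP, hP, inner_zero_left, inner_zero_right]
  · show ‖(c p.1).1‖ ^ 2 = ‖P p.1‖ ^ 2
    rw [nc (P p.1), hP]
    simp
  · show ‖c'.symm ((c p.1).2, p.2)‖ ^ 2 = ‖p.1 - P p.1‖ ^ 2 + ‖p.2‖ ^ 2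
    rw [nc', nc (p.1 - P p.1), map_sub, hP, c'.apply_symm_apply]
    simp

end Pool.Agent.Lib.MP_ccffa6_gt
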