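import Pool.Agent.Lib.MP_ccffa6_gt.ELI.HCh
import Pool.Agent.Lib.MP_ccffa6_gt.ELI.HMod
import Pool.Agent.Lib.MP_ccffa6_gt.K.Flow

/-! The gradient-like field of a handle and its flow. -/

open Set Filter Topology Metric
open scoped ContDiff RealInnerProductSpace

noncomputable section

namespace Pool.Agent.Lib.MP_ccffa6_gt

open Pool.Agent.Lib.MP_45f3cb_gt

variable {E : Type} [NormedAddCommGroup E] [NormedSpace ℝ E] [FiniteDimensional ℝ E]
  {K : Type} [NormedAddCommGroup K] [NormedSpace ℝ K] [FiniteDimensional ℝ K]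
  {F : Type} [NormedAddCommGroup F] [InnerProductSpace ℝ F] [FiniteDimensional ℝ F]
  {n : ℕ} {η : Bil K} {W O N N' : Set E} {g j : E → ℝ} {P : F →L[ℝ] F} {R δ : ℝ} {Q : F × F → ℝ}
  {φ : F × F → E} {ψ : E → F × F} {Ω : E → Bil (E × K)} {Y Y₀ : E → E} {Φ : ℝ → E → E}

/-- The normalised field `Y`, its flow, and an invariant function `j` which marks the handle. -/
structure HFl (W : Set E) (g : E → ℝ) (P : F →L[ℝ] F) (R : ℝ) (φ : F × F → E) (δ : ℝ)
    (j : E → ℝ) (Y : E → E) (Φ : ℝ → E → E) (N : Set E) : Prop where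
  fl : IsFlow Y Φ
  sm : ContDiff ℝ ∞ j
  mem : ∀ y, j y ∈ Icc (0 : ℝ) 1
  op : IsOpen N
  sub : HSl W g (-5 / 2) (-1 / 4) ⊆ N
  tan : ∀ y ∈ W ∩ N, Y y ∈ Tan W y
  inv : ∀ y ∈ HSl W g (-5 / 2) (-1 / 4), fderiv ℝ j y (Y y) = 0
  spd : ∀ y ∈ HSl W g (-5 / 2) (-1 / 4), fderiv ℝ g y (Y y) ∈ Icc (0 : ℝ) 1
  one : ∀ y ∈ HSl W g (-5 / 2) (-1 / 4), j y ≤ 2 / 3 → fderiv ℝ g y (Y y) = 1
  ch : ∀ y ∈ HSl W g (-5 / 2) (-1 / 4), 0 < j y → ∃ z ∈ closedBall (0 : F × F) 3, φ z = y ∧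
    hI P z ≤ δ ∧ ∃ c : ℝ, 0 < c ∧ Y y = c • fderiv ℝ φ z (hX P z)
  top : ∀ z ∈ ball (0 : F × F) R, φ z ∈ HSl W g (-5 / 2) (-1 / 4) → hs P z = 0 → j (φ z) = 1

/-- `dg (Dφ u) = dQ u` (`HCh.fderiv_val`) -/
theorem HData.dg (h : HData n η W g P R Q φ ψ O Ω) {z : F × F} (hz : z ∈ ball (0 : F × F) R)
    (u : F × F) : fderiv ℝ g (φ z) (fderiv ℝ φ z u) = fderiv ℝ Q z u :=
  h.ch.fderiv_val h.sm h.val hz u

theorem HData.dg_pos (h : HData n η W g P R Q φ ψ O Ω) {z : F × F} (hz : z ∈ ball (0 : F × F) R)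
    (h1 : g (φ z) ≠ -1) : 0 < fderiv ℝ g (φ z) (fderiv ℝ φ z (hX P z)) := by
  rw [h.dg hz]
  exact (h.md.nonneg z).lt_of_ne fun e => h1 ((h.val z hz).trans (h.md.zero z e.symm).2.2)

theorem HData.reg' (h : HData n η W g P R Q φ ψ O Ω) {y : E} (hy : y ∈ HSl W g (-5 / 2) (-1 / 4))
    (h1 : g y ≠ -1) : ∃ v ∈ Tan W y, fderiv ℝ g y v ≠ 0 := by
  by_cases hO : y ∈ O
  · obtain ⟨h2, h3⟩ := h.ch.left y ⟨hy.1, hO⟩
    rw [← h3] at h1 ⊢
    exact ⟨_, (h.ch.bijOn h2).mapsTo trivial, (h.dg_pos h2 h1).ne'⟩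
  · exact h.reg y hy hO

theorem HData.cpt' (h : HData n η W g P R Q φ ψ O Ω) {a b : ℝ} (ha : -5 / 2 ≤ a)
    (hb : b ≤ -1 / 4) : IsCompact (HSl W g a b) := by
  have e : HSl W g a b = HSl W g (-5 / 2) (-1 / 4) ∩ g ⁻¹' Icc a b :=
    Subset.antisymm (fun y hy => ⟨⟨hy.1, Icc_subset_Icc ha hb hy.2⟩, hy.2⟩)
      fun y hy => ⟨hy.1.1, hy.2⟩
  rw [e]
  exact h.cpt.inter_right (isClosed_Icc.preimage h.sm.continuous)

theorem HData.cpt_lev (h : HData n η W g P R Q φ ψ O Ω) {c : ℝ} (ha : -5 / 2 ≤ c)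
    (hb : c ≤ -1 / 4) : IsCompact (Lev W g c) := by
  have h1 := h.cpt' ha hb
  rwa [HSl, Icc_self] at h1

theorem hflow_ball {r : ℝ} (h : r < R) : closedBall (0 : F × F) r ⊆ ball 0 R :=
  closedBall_subset_ball h

/-- `exists_smooth_convex` with `C y = {v ∈ Tan W y | (∀ z ∈ closedBall 0 (R - 1), φ z = y →
v = Dφ z (X z)) ∧ (y ∉ φ '' closedBall 0 (R - 1) → 0 < dg y v)}`. Near a point of `O` take
`y ↦ Dφ (ψ y) (X (ψ y))` (`dQ (X z) = 0` forces `‖z‖ ≤ 1`), near the other points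
`exists_field_local`. -/
theorem HData.exists_fld (h : HData n η W g P R Q φ ψ O Ω) : ∃ Y N, HFld W g P R φ Y N := by
  have hb : closedBall (0 : F × F) (R - 1) ⊆ ball 0 R := hflow_ball (by linarith)
  obtain ⟨Y, N, h1, h2, h3, h4, h5⟩ := exists_smooth_convex (S := W) h.cpt.isClosed
    (C := fun y => {v | v ∈ Tan W y ∧ (∀ z ∈ closedBall (0 : F × F) (R - 1), φ z = y →
      v = fderiv ℝ φ z (hX P z)) ∧ (y ∉ φ '' closedBall 0 (R - 1) → 0 < fderiv ℝ g y v)})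
    (fun y => (Tan W y).convex.inter (Convex.inter (fun u hu v hv a b _ _ hab z hz e => by
      rw [hu z hz e, hv z hz e, ← add_smul, hab, one_smul])
      (ext_imp ((convex_Ioi (0 : ℝ)).linear_preimage (fderiv ℝ g y : E →ₗ[ℝ] ℝ)))))
    fun x hx => by
      by_cases hO : x ∈ O
      · refine ⟨fun y => fderiv ℝ φ (ψ y) (hX P (ψ y)),
          ((contDiff_infty_iff_fderiv.1 h.ch.smφ).2.comp h.ch.smψ).clm_apply
            ((hX P).contDiff.comp h.ch.smψ), ?_⟩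
        filter_upwards [self_mem_nhdsWithin, nhdsWithin_le_nhds (h.ch.op.mem_nhds hO)]
          with y y1 y2
        obtain ⟨a1, a2⟩ := h.ch.left y ⟨y1, y2⟩
        refine ⟨?_, fun z hz e => ?_, fun hy => ?_⟩
        · have a3 := (h.ch.bijOn a1).mapsTo (x := hX P (ψ y)) trivial
          rwa [a2] at a3
        · rw [← e, (h.ch.right z (hb hz)).2]
        · have a3 := h.dg a1 (hX P (ψ y))
          rw [a2] at a3
          rw [a3]
          refine (h.md.nonneg _).lt_of_ne fun e => hy ⟨ψ y, mem_closedBall_zero_iff.2 ?_, a2⟩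
          obtain ⟨b1, b2, -⟩ := h.md.zero _ e.symm
          have b3 := (h.pr.sq_le (ψ y)).1
          have b4 : ‖ψ y‖ ≤ 1 := (sq_le_one_iff₀ (norm_nonneg _)).1 (by linarith)
          linarith [h.md.big]
      · obtain ⟨Z, a1, a2⟩ := h.sub.exists_field_local h.sm hx.1 (h.reg x hx hO)
        have a3 : IsClosed (φ '' closedBall 0 (R - 1)) :=
          ((isCompact_closedBall _ _).image h.ch.smφ.continuous).isClosed
        have a4 : x ∉ φ '' closedBall 0 (R - 1) := fun ⟨z, hz, e⟩ =>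
          hO (e ▸ (h.ch.right z (hb hz)).1.2)
        refine ⟨Z, a1, ?_⟩
        filter_upwards [a2, nhdsWithin_le_nhds (a3.isOpen_compl.mem_nhds a4)] with y y1 y2
        exact ⟨y1.1, fun z hz e => absurd ⟨z, hz, e⟩ y2, fun _ => y1.2 ▸ one_pos⟩
  exact ⟨Y, N, h1, h5 h.cpt, h2, h3, fun y hy => (h4 y hy).1,
    fun z hz hn => (h4 _ ⟨(h.ch.right z (hb hz)).1.1, hn⟩).2.1 z hz rfl,
    fun y hy => (h4 y hy).2.2⟩

/-- The field is gradient-like on the slab. -/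
theorem hflow_pos (hY : HFld W g P R φ Y N) (h : HData n η W g P R Q φ ψ O Ω) {y : E}
    (hy : y ∈ HSl W g (-5 / 2) (-1 / 4)) : 0 < fderiv ℝ g y (Y y) ∨ (fderiv ℝ g y (Y y) = 0 ∧
      g y = -1 ∧ ∃ z ∈ ball (0 : F × F) R, φ z = y ∧ hs P z = 0) := by
  by_cases h1 : y ∈ φ '' closedBall 0 (R - 1)
  · obtain ⟨z, hz, rfl⟩ := h1
    have h2 : z ∈ ball (0 : F × F) R := hflow_ball (by linarith) hz
    rw [hY.ch z hz (hY.sub hy), h.dg h2]
    refine (h.md.nonneg z).eq_or_lt.symm.imp_right fun e => ⟨e.symm, ?_, z, h2, rfl, ?_⟩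
    · exact (h.val z h2).trans (h.md.zero z e.symm).2.2
    · exact (h.md.zero z e.symm).1
  · exact Or.inl (hY.pos y ⟨hy.1, hY.sub hy⟩ h1)

theorem HFld.up (hY : HFld W g P R φ Y N) (h : HData n η W g P R Q φ ψ O Ω) {c : ℝ}
    (hc : c = -2 ∨ c = -1 / 2) : HUp W g c Y := by
  have h1 : ∀ x ∈ Lev W g c, x ∈ HSl W g (-5 / 2) (-1 / 4) := fun x hx => ⟨hx.1, by
    rw [mem_preimage, show g x = c from hx.2]
    rcases hc with rfl | rfl <;> constructor <;> norm_num⟩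
  refine ⟨hY.sm.continuous.continuousOn, fun x hx => hY.tan x ⟨hx.1, hY.sub (h1 x hx)⟩,
    fun x hx => (hflow_pos hY h (h1 x hx)).resolve_right fun e => ?_⟩
  have h2 : c = -1 := (show g x = c from hx.2).symm.trans e.2.1
  rcases hc with rfl | rfl <;> norm_num at h2

/-- `j` is the push forward (`HCh.exists_push`, `r = 4`) of `ζ z * χ (hI z)`, where `ζ = 1` near
the ball of radius `3`, `ζ = 0` for `‖z‖ ≥ 4`, `χ = 1` near `0`, `χ s = 0` for `s ≥ min δ (1/10)`.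
On the slab `hI z ≤ 1/10` forces `‖z‖ ≤ 3` (`conf`). -/
theorem HFld.exists_j (hY : HFld W g P R φ Y N) (h : HData n η W g P R Q φ ψ O Ω) (hδ : 0 < δ) :
    ∃ j : E → ℝ, ContDiff ℝ ∞ j ∧ (∀ y, j y ∈ Icc (0 : ℝ) 1) ∧
      (∀ y ∈ HSl W g (-5 / 2) (-1 / 4), fderiv ℝ j y (Y y) = 0 ∧
        (0 < j y → ∃ z ∈ closedBall (0 : F × F) 3, φ z = y ∧ hI P z ≤ δ)) ∧
      ∀ z ∈ ball (0 : F × F) R, φ z ∈ HSl W g (-5 / 2) (-1 / 4) → hs P z = 0 → j (φ z) = 1 := by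
  have hR := h.md.big
  obtain ⟨ζ, a1, a2, a3, a4, -⟩ := exists_cutoff (A := closedBall (0 : F × F) 3) isClosed_closedBall
    isOpen_ball (closedBall_subset_ball (show (3 : ℝ) < 4 by norm_num))
  obtain ⟨χ, b1, b2, b3, b4, -⟩ := exists_cutoff (A := {(0 : ℝ)}) (U := Iio (min δ (1 / 10)))
    isClosed_singleton isOpen_Iio (singleton_subset_iff.2 (lt_min hδ (by norm_num)))
  have b5 : ∀ s, χ s ≠ 0 → s < min δ (1 / 10) := fun s hs => b4 (subset_tsupport χ hs)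
  obtain ⟨G, c1, -, c2, c3, c4⟩ := h.ch.exists_push (r := 4) (by linarith)
    (k := fun z => ζ z * χ (hI P z)) (a1.mul (b1.comp contDiff_hI)) fun z hz => by
      rw [image_eq_zero_of_notMem_tsupport fun e => not_lt.2 hz (mem_ball_zero_iff.1 (a4 e)),
        zero_mul]
  have hc : ∀ z ∈ ball (0 : F × F) R, φ z ∈ HSl W g (-5 / 2) (-1 / 4) → hI P z ≤ 1 / 10 →
      z ∈ closedBall (0 : F × F) 3 := fun z hz h1 h2 =>
    mem_closedBall_zero_iff.2 (h.md.conf z h2 (h.val z hz ▸ h1.2.1) (h.val z hz ▸ h1.2.2))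
  refine ⟨G, c1, fun y => ?_, fun y hy => ?_, fun z hz h1 h2 => ?_⟩
  · obtain ⟨t, ht, e⟩ := c4 y
    rw [e, smul_eq_mul]
    exact unitInterval.mul_mem ht (unitInterval.mul_mem (a2 _) (b2 _))
  · by_cases h1 : y ∈ φ '' closedBall 0 4
    · obtain ⟨z, hz, rfl⟩ := h1
      have h2 : z ∈ ball (0 : F × F) R := hflow_ball (by linarith) hz
      refine ⟨?_, fun h3 => ?_⟩
      · rw [hY.ch z (closedBall_subset_closedBall (by linarith) hz) (hY.sub hy),
          h.ch.fderiv_val c1 c2 h2]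
        rcases le_or_gt (hI P z) (1 / 10) with h3 | h3
        · have e : (fun z => ζ z * χ (hI P z)) =ᶠ[𝓝 z] fun z => χ (hI P z) := by
            filter_upwards [a3.filter_mono (nhds_le_nhdsSet (hc z h2 hy h3))] with w hw
            rw [hw, one_mul]
          rw [e.fderiv_eq, fderiv_fun_comp z (b1.differentiable (by simp) _)
            (contDiff_hI.differentiable (by simp) z), ContinuousLinearMap.comp_apply,
            h.pr.fderiv_hI_X, map_zero]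
        · have e : (fun z => ζ z * χ (hI P z)) =ᶠ[𝓝 z] fun _ => 0 := by
            filter_upwards [contDiff_hI.continuous.continuousAt.eventually (lt_mem_nhds h3)]
              with w hw
            rw [by_contra fun e => (hw.trans (b5 _ e)).not_ge (min_le_right _ _), mul_zero]
          rw [e.fderiv_eq, fderiv_fun_const]
          rfl
      · rw [c2 z h2] at h3
        have h4 := lt_min_iff.1 (b5 _ (right_ne_zero_of_mul h3.ne'))
        exact ⟨z, hc z h2 hy h4.2.le, rfl, h4.1.le⟩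
    · have h2 := c3 y hy.1 h1
      refine ⟨?_, fun h3 => absurd (h2.self_of_nhdsWithin hy.1) h3.ne'⟩
      rw [Tan.fderiv_congr hy.1 (c1.differentiable (by simp) y) (differentiableAt_const (0 : ℝ)) h2
        (hY.tan y ⟨hy.1, hY.sub hy⟩), fderiv_fun_const]
      rfl
  · have h3 : hI P z = 0 := by simp [hI, h2]
    rw [c2 z hz, h3, b3.self_of_nhdsSet 0 rfl,
      a3.self_of_nhdsSet z (hc z hz h1 (by rw [h3]; norm_num)), one_mul]

/-- `Y = m • Y₀`, where `m` is smooth and equals `(dg Y₀ + expNegInvGlue (j - 2/3))⁻¹` near the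
slab (`exists_smooth_nhdsSet`); the denominator is positive on the slab. -/
theorem HData.exists_fl (h : HData n η W g P R Q φ ψ O Ω) (hδ : 0 < δ) :
    ∃ j Y Φ N, HFl W g P R φ δ j Y Φ N := by
  obtain ⟨Y, N, hY⟩ := h.exists_fld
  obtain ⟨j, j1, j2, j3, j4⟩ := hY.exists_j h hδ
  have hd : ContDiff ℝ ∞ fun y => fderiv ℝ g y (Y y) + expNegInvGlue (j y - 2 / 3) :=
    ((contDiff_infty_iff_fderiv.1 h.sm).2.clm_apply hY.sm).add
      (expNegInvGlue.contDiff.comp (j1.sub contDiff_const))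
  have h0 : ∀ y ∈ HSl W g (-5 / 2) (-1 / 4), 0 ≤ fderiv ℝ g y (Y y) := fun y hy =>
    (hflow_pos hY h hy).elim le_of_lt fun e => e.1.ge
  have hp : ∀ y ∈ HSl W g (-5 / 2) (-1 / 4),
      0 < fderiv ℝ g y (Y y) + expNegInvGlue (j y - 2 / 3) := fun y hy => by
    rcases hflow_pos hY h hy with e | ⟨e, -, z, hz, rfl, e'⟩
    · exact add_pos_of_pos_of_nonneg e (expNegInvGlue.nonneg _)
    · rw [e, j4 z hz hy e', zero_add]
      exact expNegInvGlue.pos_of_pos (by norm_num)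
  obtain ⟨m, m1, m2, -⟩ := exists_smooth_nhdsSet h.cpt.isClosed
    (isOpen_lt continuous_const hd.continuous) hp
    (f := fun y => (fderiv ℝ g y (Y y) + expNegInvGlue (j y - 2 / 3))⁻¹)
    (hd.contDiffOn.inv fun y hy => ne_of_gt hy)
  have m3 := m2.self_of_nhdsSet
  obtain ⟨Φ, hΦ⟩ := exists_isFlow (Y := fun y => m y • Y y) (m1.smul hY.sm) hY.cs.smul_left
  refine ⟨j, _, Φ, N, hΦ, j1, j2, hY.op, hY.sub, fun y hy => Submodule.smul_mem _ _ (hY.tan y hy),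
    fun y hy => ?_, fun y hy => ?_, fun y hy h1 => ?_, fun y hy h1 => ?_, j4⟩
  · rw [map_smul, (j3 y hy).1, smul_zero]
  · rw [map_smul, m3 y hy, smul_eq_mul, inv_mul_eq_div]
    exact ⟨div_nonneg (h0 y hy) (hp y hy).le,
      (div_le_one (hp y hy)).2 (le_add_of_nonneg_right (expNegInvGlue.nonneg _))⟩
  · have h2 := hp y hy
    rw [map_smul, m3 y hy, smul_eq_mul]
    rw [expNegInvGlue.zero_of_nonpos (sub_nonpos.2 h1), add_zero] at h2 ⊢
    exact inv_mul_cancel₀ h2.ne'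
  · obtain ⟨z, hz, rfl, h2⟩ := (j3 y hy).2 h1
    refine ⟨z, hz, rfl, h2, m (φ z), m3 _ hy ▸ inv_pos.2 (hp _ hy), ?_⟩
    rw [hY.ch z (closedBall_subset_closedBall (by linarith [h.md.big]) hz) (hY.sub hy)]

end Pool.Agent.Lib.MP_ccffa6_gt
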