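import Pool.Agent.Lib.MP_ccffa6_gt.ELI.HRH
import Pool.Agent.Lib.MP_ccffa6_gt.ELI.Bil

/-! Extension of a homotopy from a compact retract. -/

open Set Filter Topology Metric
open scoped ContDiff RealInnerProductSpace

noncomputable section

namespace Pool.Agent.Lib.MP_ccffa6_gt

variable {X : Type} [NormedAddCommGroup X] [NormedSpace ℝ X]
  {V : Type} [NormedAddCommGroup V] [NormedSpace ℝ V] [FiniteDimensional ℝ V]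

omit [NormedSpace ℝ X] [FiniteDimensional ℝ V] in
theorem hhep_pi {S : Set X} {π : X → X} (hπ : Continuous π) (hm : MapsTo π S S)
    {h : ℝ × X → Bil V} (hh : ContinuousOn h (Icc (0 : ℝ) 1 ×ˢ S)) :
    ContinuousOn (fun q : ℝ × X => h (q.1, π q.2)) (Icc (0 : ℝ) 1 ×ˢ S) :=
  hh.comp (by fun_prop) fun _ hq => ⟨hq.1, hm hq.2⟩

theorem hhep_cut {a b : ℝ} (h : a < b) : ∃ χ : ℝ → ℝ, Continuous χ ∧ (∀ s, χ s ∈ Icc (0 : ℝ) 1) ∧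
    (∀ s ≤ a, χ s = 1) ∧ ∀ s, b ≤ s → χ s = 0 :=
  ⟨fun s => Real.smoothTransition ((b - s) / (b - a)), by fun_prop,
    fun _ => ⟨Real.smoothTransition.nonneg _, Real.smoothTransition.le_one _⟩,
    fun s hs => Real.smoothTransition.one_of_one_le ((one_le_div (by linarith)).2 (by linarith)),
    fun s hs => Real.smoothTransition.zero_of_nonpos
      (div_nonpos_of_nonpos_of_nonneg (by linarith) (by linarith))⟩

set_option maxSynthPendingDepth 3 in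
/-- Near the core a field is close to its pull-back by the retraction. -/
theorem hhep_small {S : Set X} {ρ : X → ℝ} {π : X → X} {c : ℝ} (hρ : Continuous ρ)
    (h0 : ∀ x, 0 ≤ ρ x) (hπ : Continuous π) (hc : 0 < c) (hK : IsCompact {x | x ∈ S ∧ ρ x ≤ c})
    (hm : ∀ x ∈ S, π x ∈ S ∧ (ρ x = 0 → π x = x)) {h : ℝ × X → Bil V}
    (hh : ContinuousOn h (Icc (0 : ℝ) 1 ×ˢ S)) {e : ℝ} (he : 0 < e) :
    ∃ ε > 0, ∀ t ∈ Icc (0 : ℝ) 1, ∀ x ∈ S, ρ x ≤ ε → ‖h (t, x) - h (t, π x)‖ < e := by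
  have hA : IsCompact (Icc (0 : ℝ) 1 ×ˢ {x | x ∈ S ∧ ρ x ≤ c}) := isCompact_Icc.prod hK
  have hg := ((hh.sub (hhep_pi hπ (fun x hx => (hm x hx).1) hh)).norm.mono
    (prod_mono le_rfl fun x (hx : x ∈ S ∧ ρ x ≤ c) => hx.1)).preimage_isClosed_of_isClosed
    hA.isClosed (isClosed_Ici (a := e))
  obtain ⟨a, ha, h1⟩ := (hA.of_isClosed_subset hg inter_subset_left).exists_forall_le'
    (hρ.comp continuous_snd).continuousOn (a := 0) fun q hq => (h0 q.2).lt_of_ne fun h2 => by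
      simpa [(hm q.2 hq.1.2.1).2 h2.symm, he.not_ge] using hq.2
  refine ⟨min (a / 2) c, by positivity, fun t ht x hx h2 => not_le.1 fun h3 => ?_⟩
  have := h1 (t, x) ⟨⟨ht, hx, (le_min_iff.1 h2).2⟩, h3⟩
  have := (le_min_iff.1 h2).1
  simp only [Function.comp] at *
  linarith

set_option maxSynthPendingDepth 3 in
/-- Extension of a homotopy of paths from the core. -/
theorem h_hep {S : Set X} {ρ : X → ℝ} {π : X → X} {c : ℝ} (hρ : Continuous ρ)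
    (h0 : ∀ x, 0 ≤ ρ x) (hπ : Continuous π) (hc : 0 < c) (hK : IsCompact {x | x ∈ S ∧ ρ x ≤ c})
    (hm : ∀ x ∈ S, π x ∈ S ∧ ρ (π x) = 0 ∧ (ρ x = 0 → π x = x)) {h b : ℝ × X → Bil V} {w : Bil V}
    (hh : NDField (Icc (0 : ℝ) 1 ×ˢ S) (fun _ => ⊤) h)
    (hb : NDField (Icc (0 : ℝ) 1 ×ˢ S) (fun _ => ⊤) b)
    (e0 : ∀ x ∈ S, b (0, x) = h (0, x)) (e1 : ∀ x ∈ S, h (1, x) = w)
    (e2 : ∀ x ∈ S, ρ x ≤ c → b (1, x) = w) {D : (ℝ × ℝ) × X → Bil V}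
    (hD : NDField ((Icc (0 : ℝ) 1 ×ˢ Icc (0 : ℝ) 1) ×ˢ {x | x ∈ S ∧ ρ x = 0}) (fun _ => ⊤) D)
    (eD : ∀ x ∈ S, ρ x = 0 → ∀ t ∈ Icc (0 : ℝ) 1, D ((0, t), x) = h (t, x) ∧
      D ((1, t), x) = b (t, x) ∧ D ((t, 0), x) = h (0, x) ∧ D ((t, 1), x) = w) :
    ∃ (ε : ℝ) (k₁ k₂ : ℝ × X → Bil V), 0 < ε ∧ ε ≤ c ∧
      NDField (Icc (0 : ℝ) 1 ×ˢ S) (fun _ => ⊤) k₁ ∧ NDField (Icc (0 : ℝ) 1 ×ˢ S) (fun _ => ⊤) k₂ ∧
      ∀ x ∈ S, k₁ (0, x) = b (1, x) ∧ k₁ (1, x) = k₂ (0, x) ∧ k₂ (1, x) = w ∧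
        ∀ t ∈ Icc (0 : ℝ) 1, (c < ρ x → k₁ (t, x) = b (1 - t, x) ∧ k₂ (t, x) = h (t, x)) ∧
          (ρ x < ε → k₁ (t, x) = w ∧ k₂ (t, x) = w) := by
  have hC : IsCompact {x | x ∈ S ∧ ρ x = 0} := by
    convert hK.inter_right (isClosed_eq hρ (continuous_const (y := 0))) using 1
    exact Set.ext fun x => ⟨fun h => ⟨⟨h.1, h.2.trans_le hc.le⟩, h.2⟩, fun h => ⟨h.1.1, h.2⟩⟩
  obtain ⟨e, he, hn⟩ := ELI.nd_unif
    (((isCompact_Icc.prod isCompact_Icc).prod hC).image_of_continuousOn hD.cont)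
    (by rintro _ ⟨q, hq, rfl⟩; exact hD.nd q hq)
  have hm' := fun x hx => And.intro (hm x hx).1 (hm x hx).2.2
  obtain ⟨ε₁, p1, a1⟩ := hhep_small hρ h0 hπ hc hK hm' hh.cont he
  obtain ⟨ε₂, p2, a2⟩ := hhep_small hρ h0 hπ hc hK hm' hb.cont he
  obtain ⟨ε, hε, l0, l1, l2⟩ : ∃ ε > 0, 3 * ε ≤ c ∧ 3 * ε ≤ ε₁ ∧ 3 * ε ≤ ε₂ :=
    ⟨min c (min ε₁ ε₂) / 3, by positivity, by simp [mul_div_cancel₀]⟩
  obtain ⟨χ, cχ, mχ, χ1, χ0⟩ := hhep_cut (show 2 * ε < 3 * ε by linarith)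
  obtain ⟨κ, cκ, mκ, κ1, κ0⟩ := hhep_cut (show ε < 2 * ε by linarith)
  obtain ⟨g, eg⟩ : ∃ g : ℝ × X → Bil V, ∀ q, g q = D ((χ (ρ q.2), q.1), π q.2) +
    ((1 - χ (ρ q.2)) • (h q - h (q.1, π q.2)) + χ (ρ q.2) • (b q - b (q.1, π q.2))) :=
    ⟨_, fun _ => rfl⟩
  have eP := fun x hx => eD (π x) (hm x hx).1 (hm x hx).2.1
  have gh : ∀ t ∈ Icc (0 : ℝ) 1, ∀ x ∈ S, 3 * ε ≤ ρ x → g (t, x) = h (t, x) := fun t ht x hx l => by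
    simp [eg, χ0 _ l, (eP x hx t ht).1]
  have gb : ∀ t ∈ Icc (0 : ℝ) 1, ∀ x ∈ S, ρ x ≤ 2 * ε → g (t, x) = b (t, x) := fun t ht x hx l => by
    simp [eg, χ1 _ l, (eP x hx t ht).2.1]
  have g0 : ∀ x ∈ S, g (0, x) = b (0, x) := fun x hx => by
    rw [eg, (eP x hx _ (mχ _)).2.2.1, e0 x hx, e0 _ (hm x hx).1]
    module
  have g1 : ∀ x ∈ S, g (1, x) = w := fun x hx => by
    rcases le_total (ρ x) c with l | l
    · simp [eg, (eP x hx _ (mχ _)).2.2.2, e1 x hx, e1 _ (hm x hx).1, e2 x hx l,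
        e2 _ (hm x hx).1 ((hm x hx).2.1.trans_le hc.le)]
    · rw [gh 1 ⟨zero_le_one, le_rfl⟩ x hx (l0.trans l), e1 x hx]
  have mD : MapsTo (fun q : ℝ × X => ((χ (ρ q.2), q.1), π q.2)) (Icc (0 : ℝ) 1 ×ˢ S)
      ((Icc (0 : ℝ) 1 ×ˢ Icc (0 : ℝ) 1) ×ˢ {x | x ∈ S ∧ ρ x = 0}) :=
    fun q hq => ⟨⟨mχ _, hq.1⟩, (hm _ hq.2).1, (hm _ hq.2).2.1⟩
  have hg : NDField (Icc (0 : ℝ) 1 ×ˢ S) (fun _ => ⊤) g := by
    have mπ : MapsTo π S S := fun x hx => (hm x hx).1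
    refine ⟨funext eg ▸ (hD.cont.comp (by fun_prop) mD).add (htpy_comb (by fun_prop) (by fun_prop)
      (hh.cont.sub (hhep_pi hπ mπ hh.cont)) (hb.cont.sub (hhep_pi hπ mπ hb.cont))),
      fun q hq => ?_⟩
    rcases le_total (ρ q.2) (3 * ε) with l | l
    · have hq' : (q.1, π q.2) ∈ Icc (0 : ℝ) 1 ×ˢ S := ⟨hq.1, mπ hq.2⟩
      refine hn _ ⟨_, mD hq, rfl⟩ _ (fun u => ?_) ?_
      · simp [eg, (hD.nd _ (mD hq)).1 u trivial, (hh.nd _ hq).1 u trivial,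
          (hh.nd _ hq').1 u trivial, (hb.nd _ hq).1 u trivial, (hb.nd _ hq').1 u trivial]
      · rw [eg, add_sub_cancel_left]
        refine (norm_add_le _ _).trans ?_
        rw [norm_smul, norm_smul, Real.norm_of_nonneg (mχ _).1,
          Real.norm_of_nonneg (sub_nonneg.2 (mχ _).2)]
        nlinarith [a1 q.1 hq.1 q.2 hq.2 (l.trans l1), a2 q.1 hq.1 q.2 hq.2 (l.trans l2),
          (mχ (ρ q.2)).1, (mχ (ρ q.2)).2]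
    · exact gh q.1 hq.1 q.2 hq.2 l ▸ hh.nd q hq
  have key : ∀ {f : ℝ × X → Bil V} {s : ℝ × X → ℝ}, NDField (Icc (0 : ℝ) 1 ×ˢ S) (fun _ => ⊤) f →
      Continuous s → (∀ q : ℝ × X, q.1 ∈ Icc (0 : ℝ) 1 → s q ∈ Icc (0 : ℝ) 1) →
      NDField (Icc (0 : ℝ) 1 ×ˢ S) (fun _ => ⊤) fun q => f (s q, q.2) := fun hf hs m =>
    ⟨hf.cont.comp (by fun_prop) fun q hq => ⟨m q hq.1, hq.2⟩,
      fun q hq => hf.nd _ ⟨m q hq.1, hq.2⟩⟩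
  refine ⟨ε, _, _, hε, by linarith,
    key (s := fun q => 1 - q.1 * (1 - κ (ρ q.2))) hb (by fun_prop) fun q hq => ?_,
    key (s := fun q => κ (ρ q.2) + q.1 * (1 - κ (ρ q.2))) hg (by fun_prop) fun q hq => ?_,
    fun x hx => ⟨by simp, ?_, by simp [g1 x hx], fun t ht => ⟨fun l => ?_, fun l => ?_⟩⟩⟩
  · constructor <;> nlinarith [hq.1, hq.2, (mκ (ρ q.2)).1, (mκ (ρ q.2)).2]
  · constructor <;> nlinarith [hq.1, hq.2, (mκ (ρ q.2)).1, (mκ (ρ q.2)).2]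
  · rcases le_total (ρ x) (2 * ε) with l | l
    · simp [gb _ (mκ _) x hx l]
    · simp [κ0 _ l, g0 x hx]
  · simp [κ0 (ρ x) (by linarith), gh t ht x hx (by linarith)]
  · simp [κ1 _ l.le, g1 x hx, e2 x hx (by linarith)]

end Pool.Agent.Lib.MP_ccffa6_gt
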