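import Pool.Agent.Lib.MP_ccffa6_gt.ELI.HOrb
import Pool.Agent.Lib.MP_ccffa6_gt.ELI.HCon
import Pool.Agent.Lib.MP_ccffa6_gt.K.LinY

/-! The Liouville form on the slab of a handle. -/

open Set Filter Topology Metric
open scoped ContDiff RealInnerProductSpace

noncomputable section

namespace Pool.Agent.Lib.MP_ccffa6_gt

open Pool.Agent.Lib.MP_45f3cb_gt

variable {E : Type} [NormedAddCommGroup E] [NormedSpace ℝ E] [FiniteDimensional ℝ E]
  {K : Type} [NormedAddCommGroup K] [NormedSpace ℝ K] [FiniteDimensional ℝ K]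
  {F : Type} [NormedAddCommGroup F] [InnerProductSpace ℝ F] [FiniteDimensional ℝ F]
  {n : ℕ} {η : Bil K} {W O N N' : Set E} {g j : E → ℝ} {P : F →L[ℝ] F} {R δ : ℝ} {Q : F × F → ℝ}
  {φ : F × F → E} {ψ : E → F × F} {Ω : E → Bil (E × K)} {Y Y₀ : E → E} {Φ : ℝ → E → E}

/-- A piece of the symplectisation. -/
theorem h_cyl {S : Set E} (hW : IsSub (2 * n + 2) W) {β lam : Form1 E} (hβ : CMan n S β)
    (hl : ContDiff ℝ ∞ lam) {π : E → E} (hπ : ContDiff ℝ ∞ π) {k : E → ℝ} {y a : E} (hy : y ∈ W)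
    (hk : ContDiffAt ℝ ∞ k y) (hm : ∀ᶠ y' in 𝓝[W] y, π y' ∈ S)
    (e : ∀ᶠ y' in 𝓝[W] y, ∀ v ∈ Tan W y', lam y' v = k y' * pb π β y' v) (ha : a ∈ Tan W y)
    (h0 : fderiv ℝ π y a = 0) (hker : ∀ v, fderiv ℝ π y v = 0 → ∃ c : ℝ, v = c • a)
    (hk0 : 0 < k y) (hk1 : 0 < fderiv ℝ k y a) :
    ND (Tan W y) (dF lam y) ∧ ∀ Z ∈ Tan W y, (∀ v ∈ Tan W y, dF lam y Z v = lam y v) →
      ∃ c : ℝ, 0 < c ∧ Z = c • a := by
  obtain ⟨φ, ψ, hc⟩ := hW y hy
  have hS : π y ∈ S := hm.self_of_nhdsWithin hy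
  have d1 : DifferentiableAt ℝ k y := hk.differentiableAt (by simp)
  have d2 : DifferentiableAt ℝ (pb π β) y := (contDiff_pb hπ hβ.sm).differentiable (by simp) y
  let A : E →L[ℝ] E × ℝ := (fderiv ℝ π y).prod ((k y)⁻¹ • fderiv ℝ k y)
  have hA : ∀ u, A u = (fderiv ℝ π y u, (k y)⁻¹ * fderiv ℝ k y u) := fun _ => rfl
  have key : ∀ u ∈ Tan W y, ∀ v ∈ Tan W y, dF lam y u v = k y * symz β (π y) (A u) (A v) := by
    intro u hu v hv
    rw [hc.dF_congr hy (hl.differentiable (by simp) y) (β := fun y' => k y' • pb π β y') (d1.smul d2)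
      e hu hv, dF_smul d1 d2, dF_pb (hπ.contDiffAt.of_le (WithTop.coe_le_coe.2 le_top))
      (hβ.sm.differentiable (by simp) _), symz_apply, hA, hA]
    simp only [pb, ContinuousLinearMap.comp_apply]
    field_simp
    ring
  have hb : BijOn A (Tan W y) (T1 S (π y)) := by
    refine bijOn_of_inj ?_ (fun u hu => mem_T1.2 (Tan.map (hπ.differentiable (by simp) y) hm hu))
      (fun u _ hu => ?_)
    · rw [T1, finrank_pl, hW.finrank hy, hβ.cl.sub.finrank hS, Module.finrank_self]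
    · rw [hA, Prod.mk_eq_zero] at hu
      obtain ⟨c, rfl⟩ := hker u hu.1
      have := hu.2
      simp only [map_smul, smul_eq_mul, mul_eq_zero, inv_eq_zero, hk0.ne', hk1.ne', or_false,
        false_or] at this
      rw [this, zero_smul]
  have hn : ND (Tan W y) (dF lam y) :=
    (((hβ.nd _ hS).comp hb).smul hk0.ne').congr fun u hu v hv => (key u hu v hv).symm
  refine ⟨hn, fun Z hZ h => ⟨k y / fderiv ℝ k y a, div_pos hk0 hk1, sub_eq_zero.1 (hn.2 _
    (Submodule.sub_mem _ hZ (Submodule.smul_mem _ _ ha)) fun v hv => ?_)⟩⟩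
  rw [map_sub, ContinuousLinearMap.sub_apply, h v hv, key _ (Submodule.smul_mem _ _ ha) v hv,
    e.self_of_nhdsWithin hy v hv, symz_apply, hA, hA]
  simp only [map_smul, h0, smul_zero, map_zero, ContinuousLinearMap.zero_apply, smul_eq_mul, pb,
    ContinuousLinearMap.comp_apply]
  field_simp
  ring

/-- The model form in the chart (`dF_pb`, `dF_hlam`, `HCh.bijOn'`, `nd_hom`). -/
theorem HData.model (h : HData n η W g P R Q φ ψ O Ω) {lam : Form1 E} {z : F × F}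
    (hz : z ∈ ball (0 : F × F) R) (e : lam =ᶠ[𝓝 (φ z)] pb ψ (hlam P)) :
    dF lam (φ z) = bq (fderiv ℝ ψ (φ z)) (hom P) ∧ ND (Tan W (φ z)) (dF lam (φ z)) ∧
      ∀ Z ∈ Tan W (φ z), (∀ v ∈ Tan W (φ z), dF lam (φ z) Z v = lam (φ z) v) →
        Z = fderiv ℝ φ z (hX P z) := by
  have e1 : dF lam (φ z) = bq (fderiv ℝ ψ (φ z)) (hom P) := by
    ext u v
    rw [show dF lam (φ z) = dF (pb ψ (hlam P)) (φ z) by simp only [dF, e.fderiv_eq],
      dF_pb (h.ch.smψ.contDiffAt.of_le (WithTop.coe_le_coe.2 le_top))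
        (contDiff_hlam.differentiable (by simp) _), h.pr.dF_hlam]
    rfl
  have hn : ND (Tan W (φ z)) (dF lam (φ z)) := e1 ▸ h.pr.nd_hom.comp (h.ch.bijOn' hz)
  refine ⟨e1, hn, fun Z hZ hv => sub_eq_zero.1 (hn.2 _
    (Submodule.sub_mem _ hZ ((h.ch.bijOn hz).mapsTo trivial)) fun v hv' => ?_)⟩
  rw [map_sub, ContinuousLinearMap.sub_apply, hv v hv', e1, e.eq_of_nhds]
  simp [pb, hlam, h.ch.left_inv hz, (h.ch.right z hz).2]

/-- The model form near the handle, `e^(g+2)` times the pull-back of `β` elsewhere. -/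
theorem HFl.exists_lam (hf : HFl W g P R φ δ j Y Φ N) (h : HData n η W g P R Q φ ψ O Ω) {ε : ℝ}
    (hε : ε ≤ 1) (hδ : ∀ p, hI P p ≤ δ → Q p = -2 → hs P p = 1 ∧ hr P p < ε) {β : Form1 E}
    (hβ : CMan n (Lev W g (-2)) β)
    (e : ∀ p ∈ hCyl P, hr P p < ε → ∀ u, hsg P p u = 0 → β (φ p) (fderiv ℝ φ p u) = hlam P p u) :
    ∃ (lam : Form1 E) (ν : E → E), LSlab n W g (-2) (-1 / 2) ν lam ∧ EqT (Lev W g (-2)) β lam ∧
      ∀ y, 1 / 2 < j y → lam =ᶠ[𝓝 y] pb ψ (hlam P) := by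
  let χ : E → ℝ := fun y => Real.smoothTransition (4 * j y - 1)
  have sχ : ContDiff ℝ ∞ χ :=
    Real.smoothTransition.contDiff.comp ((contDiff_const.mul hf.sm).sub contDiff_const)
  have χ0 : ∀ y, 0 ≤ χ y := fun y => Real.smoothTransition.nonneg _
  have χ1 : ∀ y, χ y ≤ 1 := fun y => Real.smoothTransition.le_one _
  have sE : ContDiff ℝ ∞ fun y => Real.exp (g y + 2) := (h.sm.add contDiff_const).exp
  have sπ := hf.contDiff_pr h.sm
  let lam : Form1 E := fun y => χ y • pb ψ (hlam P) y +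
    ((1 - χ y) * Real.exp (g y + 2)) • pb (hpr g Φ) β y
  have sl : ContDiff ℝ ∞ lam := (sχ.smul (contDiff_pb h.ch.smψ contDiff_hlam)).add
    (((contDiff_const.sub sχ).mul sE).smul (contDiff_pb sπ hβ.sm))
  have top : ∀ y, 1 / 2 < j y → lam =ᶠ[𝓝 y] pb ψ (hlam P) := fun y hy => by
    filter_upwards [hf.sm.continuous.continuousAt.eventually (lt_mem_nhds hy)] with x hx
    simp [lam, show χ x = 1 from Real.smoothTransition.one_of_one_le (by linarith)]
  have hball : ∀ z ∈ closedBall (0 : F × F) 3, z ∈ ball (0 : F × F) R := fun z hz =>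
    closedBall_subset_ball (by linarith [h.md.big]) hz
  have sub : ∀ y ∈ W ∩ g ⁻¹' Icc (-2) (-1 / 2), y ∈ HSl W g (-5 / 2) (-1 / 4) ∧
      g y ∈ Ioo (-5 / 2 : ℝ) (-1 / 4) := fun y hy =>
    ⟨⟨hy.1, by linarith [hy.2.1], by linarith [hy.2.2]⟩, by linarith [hy.2.1], by linarith [hy.2.2]⟩
  have main : ∀ y ∈ W ∩ g ⁻¹' Icc (-2) (-1 / 2), ND (Tan W y) (dF lam y) ∧
      ∀ Z ∈ Tan W y, (∀ v ∈ Tan W y, dF lam y Z v = lam y v) → ∃ c : ℝ, 0 < c ∧ Z = c • Y y := by
    intro y hy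
    obtain ⟨hy1, hy2⟩ := sub y hy
    by_cases h1 : 1 / 2 < j y
    · obtain ⟨z, hz, rfl, -, c, hc, hY⟩ := hf.ch y hy1 (by linarith)
      obtain ⟨-, a2, a3⟩ := h.model (hball z hz) (top _ h1)
      refine ⟨a2, fun Z hZ hv => ⟨c⁻¹, inv_pos.2 hc, ?_⟩⟩
      rw [hY, smul_smul, inv_mul_cancel₀ hc.ne', one_smul, a3 Z hZ hv]
    have h2 : j y < 2 / 3 := by linarith
    obtain ⟨p1, p2, p3⟩ := hf.pr_tan h hy.1 hy2 h2
    have hE : HasFDerivAt (fun y => Real.exp (g y + 2)) (Real.exp (g y + 2) • fderiv ℝ g y) y :=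
      ((h.sm.differentiable (by simp) y).hasFDerivAt.add_const 2).exp
    have hg1 := hf.one y hy1 h2.le
    have hT := hf.tan y ⟨hy.1, hf.sub hy1⟩
    by_cases h3 : j y < 1 / 4
    · refine h_cyl h.sub hβ sl sπ hy.1 sE.contDiffAt p1 ?_ hT p2 p3 (Real.exp_pos _) ?_
      · filter_upwards [nhdsWithin_le_nhds
          (hf.sm.continuous.continuousAt.eventually (gt_mem_nhds h3))] with x hx v _
        simp [lam, show χ x = 0 from Real.smoothTransition.zero_of_nonpos (by linarith)]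
      · simpa [hE.fderiv, hg1] using Real.exp_pos _
    have h4 : 0 < j y := by linarith
    obtain ⟨z, hz, rfl, -, c, hc, hY⟩ := hf.ch y hy1 h4
    obtain ⟨-, q2, -⟩ := hf.pr_chart h (fun p a b => (hδ p a b).1) hy.1 hy2 h4 h2.le
    obtain ⟨i1, i2⟩ := h.pr.fderiv_inv_X q2
    have i3 : 0 < (√(hs P (ψ (φ z))))⁻¹ :=
      inv_pos.2 (Real.sqrt_pos.2 (lt_of_le_of_ne (hs_nonneg _) q2.symm))
    have hI := (i1.differentiableAt (by simp)).hasFDerivAt.comp (φ z)
      (h.ch.smψ.differentiable (by simp) (φ z)).hasFDerivAt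
    have hχ := (sχ.differentiable (by simp) (φ z)).hasFDerivAt
    have dχ : fderiv ℝ χ (φ z) (Y (φ z)) = 0 := by
      have := ((Real.smoothTransition.contDiff (n := 1)).differentiable (by simp)
        (4 * j (φ z) - 1)).hasDerivAt.comp_hasFDerivAt (φ z)
        (((hf.sm.differentiable (by simp) (φ z)).hasFDerivAt.const_mul 4).sub_const 1)
      rw [show fderiv ℝ χ (φ z) = _ from this.fderiv]
      simp [hf.inv _ hy1]
    refine h_cyl (k := fun y => χ y * (√(hs P (ψ y)))⁻¹ + (1 - χ y) * Real.exp (g y + 2)) h.sub hβ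
      sl sπ hy.1 ((sχ.contDiffAt.mul (i1.comp _ h.ch.smψ.contDiffAt)).add
        ((contDiff_const.sub sχ).mul sE).contDiffAt) p1 ?_ hT p2 p3 ?_ ?_
    · filter_upwards [self_mem_nhdsWithin, nhdsWithin_le_nhds
        (hf.sm.continuous.continuousAt.eventually (isOpen_Ioo.mem_nhds (⟨h4, h2⟩ : j (φ z) ∈ Ioo _ _))),
        nhdsWithin_le_nhds (h.sm.continuous.continuousAt.eventually (isOpen_Ioo.mem_nhds hy2))]
        with x x1 x2 x3 v hv
      simp only [lam, ContinuousLinearMap.add_apply, ContinuousLinearMap.smul_apply, smul_eq_mul,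
        hf.pb_chart h hε hδ e x1 x3 x2.1 x2.2 hv]
      ring
    · rcases (χ0 (φ z)).eq_or_lt with a | a
      · simpa [← a] using Real.exp_pos _
      · exact add_pos_of_pos_of_nonneg (mul_pos a i3)
          (mul_nonneg (sub_nonneg.2 (χ1 _)) (Real.exp_pos _).le)
    · have i4 : fderiv ℝ (fun z => (√(hs P z))⁻¹) (ψ (φ z)) (fderiv ℝ ψ (φ z) (Y (φ z))) =
          c * (√(hs P (ψ (φ z))))⁻¹ := by
        rw [hY, map_smul, h.ch.left_inv (hball z hz), map_smul, ← i2, (h.ch.right z (hball z hz)).2]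
        rfl
      rw [show fderiv ℝ (fun y => χ y * (√(hs P (ψ y)))⁻¹ + (1 - χ y) * Real.exp (g y + 2)) (φ z) = _
        from ((hχ.mul hI).add ((hχ.const_sub 1).mul hE)).fderiv]
      simp only [ContinuousLinearMap.add_apply, ContinuousLinearMap.smul_apply, smul_eq_mul,
        ContinuousLinearMap.comp_apply, ContinuousLinearMap.neg_apply, dχ, i4, hg1, mul_zero,
        neg_zero, add_zero, mul_one]
      rcases (χ0 (φ z)).eq_or_lt with a | a
      · simpa [← a] using Real.exp_pos _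
      · exact add_pos_of_pos_of_nonneg (mul_pos a (mul_pos hc i3))
          (mul_nonneg (sub_nonneg.2 (χ1 _)) (Real.exp_pos _).le)
  have ends : ∀ x ∈ W ∩ g ⁻¹' {-2, -1 / 2}, x ∈ W ∩ g ⁻¹' Icc (-2) (-1 / 2) ∧ g x ≠ -1 :=
    fun x hx => by
      rcases hx.2 with a | a
      · exact ⟨⟨hx.1, a.ge, by rw [a]; norm_num⟩, by rw [a]; norm_num⟩
      · have a' : g x = -1 / 2 := a
        exact ⟨⟨hx.1, by rw [a']; norm_num, a'.le⟩, by rw [a']; norm_num⟩
  obtain ⟨ν, -, hν⟩ := exists_slab (a := -2) (b := -1 / 2) h.sub h.sm (by norm_num)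
    (h.cpt' (by norm_num) (by norm_num)) fun x hx => h.reg' (sub x (ends x hx).1).1 (ends x hx).2
  refine ⟨lam, ν, ⟨hν, sl, fun x hx => (main x hx).1, fun x hx Z hZ hv => ?_⟩, fun x hx v hv => ?_,
    top⟩
  · obtain ⟨c, hc, rfl⟩ := (main x (ends x hx).1).2 Z hZ hv
    rw [map_smul]
    exact mul_pos hc ((hf.up h hx.2).pos x ⟨hx.1, rfl⟩)
  · have g2 : g x = -2 := hx.2
    have a1 : pb (hpr g Φ) β x v = β x v := by
      have := Tan.fderiv_congr hx (sπ.differentiable (by simp) x) differentiableAt_id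
        (eventually_mem_nhdsWithin.mono fun y hy => hf.pr_self hy.2) hv
      simp only [pb, ContinuousLinearMap.comp_apply, this, hf.pr_self g2, fderiv_id,
        ContinuousLinearMap.id_apply]
    simp only [lam, ContinuousLinearMap.add_apply, ContinuousLinearMap.smul_apply, smul_eq_mul, a1,
      g2, neg_add_cancel, Real.exp_zero]
    by_cases h4 : 0 < j x
    · obtain ⟨z, hz, rfl, hI, -⟩ := hf.ch x ⟨hx.1, by linarith, by linarith⟩ h4
      obtain ⟨b1, b2⟩ := hδ z hI ((h.val z (hball z hz)).symm.trans g2)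
      obtain ⟨b3, b4⟩ := h.lev_tan (z := z)
        ⟨b1, by rw [b1]; norm_num, by rw [b1]; norm_num, b2.trans_le hε⟩ hv
      have := e z b1 b2 _ b3
      rw [b4] at this
      simp only [pb, ContinuousLinearMap.comp_apply, (h.ch.right z (hball z hz)).2, ← this]
      ring
    · rw [show χ x = 0 from Real.smoothTransition.zero_of_nonpos (by linarith)]
      ring

end Pool.Agent.Lib.MP_ccffa6_gt
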