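import Pool.Agent.Lib.MP_ccffa6_gt.ELI.HOne
import Pool.Agent.Lib.MP_ccffa6_gt.ELI.HBr3

/-! One handle from the tube theorem. -/

namespace Pool.Agent.Lib.MP_ccffa6_gt.ELI

theorem h1 {n : ℕ} (hn : 1 ≤ n)
    (h : ∀ (F : Type) [NormedAddCommGroup F] [InnerProductSpace ℝ F] [FiniteDimensional ℝ F],
      Module.finrank ℝ F = n + 1 → TubeStmt F) : H1Stmt n :=
  h1_of_tubeH (tubeH_of_tube h) hn

end Pool.Agent.Lib.MP_ccffa6_gt.ELI
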