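import Pool.Agent.Lib.MP_ccffa6_gt.ELI.HHep
import Pool.Agent.Lib.MP_ccffa6_gt.ELI.HAlg
import Pool.Agent.Lib.MP_ccffa6_gt.ELI.Ds4

/-! The tube theorem with stabilisation and relative tracking. -/

set_option maxSynthPendingDepth 3

open Set Filter Topology Metric
open scoped ContDiff RealInnerProductSpace

noncomputable section

namespace Pool.Agent.Lib.MP_ccffa6_gt

variable {K : Type} [NormedAddCommGroup K] [NormedSpace ℝ K] [FiniteDimensional ℝ K]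
  {F : Type} [NormedAddCommGroup F] [InnerProductSpace ℝ F] [FiniteDimensional ℝ F]
  {P : F →L[ℝ] F} {η : Bil K}

/-- Destabilisation of a path of fields on the core, with fixed ends. -/
theorem hrel_destab (hP : OPr P) (hd : 2 ≤ Module.finrank ℝ F) (hη : ND ⊤ η)
    {a : F × F → Bil (F × F)} {w : Bil (F × F)} {h : ℝ × (F × F) → Bil ((F × F) × K)}
    (hh : NDField (Icc (0 : ℝ) 1 ×ˢ hCore P) (fun _ => ⊤) h)
    (e : ∀ p ∈ hCore P, h (0, p) = osum (a p) η ∧ h (1, p) = osum w η) :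
    ∃ (Ω : ℝ × (F × F) → Bil (F × F)) (H : (ℝ × ℝ) × (F × F) → Bil ((F × F) × K)),
      NDField (Icc (0 : ℝ) 1 ×ˢ hCore P) (fun _ => ⊤) Ω ∧
      NDField ((Icc (0 : ℝ) 1 ×ˢ Icc (0 : ℝ) 1) ×ˢ hCore P) (fun _ => ⊤) H ∧
      ∀ p ∈ hCore P, Ω (0, p) = a p ∧ Ω (1, p) = w ∧ ∀ t ∈ Icc (0 : ℝ) 1,
        H ((0, t), p) = h (t, p) ∧ H ((1, t), p) = osum (Ω (t, p)) η ∧
        H ((t, 0), p) = h (0, p) ∧ H ((t, 1), p) = h (1, p) := by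
  have c1 : ∀ p ∈ hCore P, ((p.1, 0) : F × F) = p := fun p hp => by
    have := hP.retr_self hp
    exact Prod.ext rfl (congrArg Prod.snd this :)
  let X : Set (ℝ × F) := (fun z : ℝ × (F × F) => (z.1, z.2.1)) '' (Icc (0 : ℝ) 1 ×ˢ hCore P)
  have hX : IsCompact X := (isCompact_Icc.prod hP.compact_core).image (by fun_prop)
  have m1 : ∀ z ∈ X, ((z.1, (z.2, 0)) : ℝ × (F × F)) ∈ Icc (0 : ℝ) 1 ×ˢ hCore P := by
    rintro _ ⟨z, hz, rfl⟩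
    exact ⟨hz.1, by simpa only [c1 _ hz.2] using hz.2⟩
  have m2 : ∀ t ∈ Icc (0 : ℝ) 1, ∀ p ∈ hCore P, (t, p.1) ∈ X := fun t ht p hp =>
    ⟨(t, p), ⟨ht, hp⟩, rfl⟩
  obtain ⟨w', n', y', H, hH, h0, h1⟩ := ELI.destab (F := ℝ × F) (X := X)
    (Y := {z | z.1 = 0 ∨ z.1 = 1}) hX
    (by simp only [Module.finrank_prod, Module.finrank_self]; omega) hη
    (w := fun z => h (z.1, (z.2, 0))) ⟨hh.cont.comp (by fun_prop) m1, fun z hz => hh.nd _ (m1 z hz)⟩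
    (w₀ := fun z => (1 - z.1) • a (z.2, 0) + z.1 • w) (by
      rintro ⟨t, q⟩ hz (h0 | h0)
      · obtain rfl : t = 0 := h0
        simpa using (e _ (m1 _ hz).2).1
      · obtain rfl : t = 1 := h0
        simpa using (e _ (m1 _ hz).2).2)
  have z0 : (0 : ℝ) ∈ Icc (0 : ℝ) 1 := by simp
  have z1 : (1 : ℝ) ∈ Icc (0 : ℝ) 1 := by simp
  refine ⟨fun z => w' (z.1, z.2.1), fun z => H (z.1.1, (z.1.2, z.2.1)),
    ⟨n'.cont.comp (by fun_prop) fun z hz => m2 _ hz.1 _ hz.2,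
      fun z hz => n'.nd _ (m2 _ hz.1 _ hz.2)⟩,
    ⟨hH.cont.comp (by fun_prop) fun z hz => ⟨hz.1.1, m2 _ hz.1.2 _ hz.2⟩,
      fun z hz => hH.nd _ ⟨hz.1.1, m2 _ hz.1.2 _ hz.2⟩⟩, fun p hp => ⟨?_, ?_, fun t ht => ?_⟩⟩
  · simpa [c1 p hp] using y' _ (m2 0 z0 p hp) (Or.inl rfl)
  · simpa using y' _ (m2 1 z1 p hp) (Or.inr rfl)
  · refine ⟨?_, (h0 _ (m2 t ht p hp)).2, ?_, ?_⟩
    · simpa only [c1 p hp] using (h0 _ (m2 t ht p hp)).1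
    · simpa only [c1 p hp] using h1 t ht _ (m2 0 z0 p hp) (Or.inl rfl)
    · simpa only [c1 p hp] using h1 t ht _ (m2 1 z1 p hp) (Or.inr rfl)

omit [InnerProductSpace ℝ F] [FiniteDimensional ℝ F] in
/-- A square with fixed ends as a relative homotopy. -/
theorem hrel_rel {V : Type} [NormedAddCommGroup V] [NormedSpace ℝ V] {C : Set (F × F)}
    {H : (ℝ × ℝ) × (F × F) → Bil V} {u v : ℝ × (F × F) → Bil V}
    (hH : NDField ((Icc (0 : ℝ) 1 ×ˢ Icc (0 : ℝ) 1) ×ˢ C) (fun _ => ⊤) H)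
    (e : ∀ p ∈ C, ∀ t ∈ Icc (0 : ℝ) 1, H ((0, t), p) = u (t, p) ∧ H ((1, t), p) = v (t, p) ∧
      H ((t, 0), p) = u (0, p) ∧ H ((t, 1), p) = u (1, p)) :
    ELI.Rel (Icc (0 : ℝ) 1 ×ˢ C) {z | z.1 = 0 ∨ z.1 = 1} u v := by
  refine ⟨fun z => H ((z.1, z.2.1), z.2.2),
    ⟨hH.cont.comp (by fun_prop) fun z hz => ⟨⟨hz.1, hz.2.1⟩, hz.2.2⟩,
      fun z hz => hH.nd _ ⟨⟨hz.1, hz.2.1⟩, hz.2.2⟩⟩,
    fun z hz => ⟨(e _ hz.2 _ hz.1).1, (e _ hz.2 _ hz.1).2.1⟩, ?_⟩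
  rintro s hs ⟨t, p⟩ hz (h0 | h0)
  · obtain rfl : t = 0 := h0
    exact (e _ hz.2 s hs).2.2.1
  · obtain rfl : t = 1 := h0
    exact (e _ hz.2 s hs).2.2.2

/-- The tube theorem with stabilisation and relative tracking. -/
theorem h_rel {n : ℕ} (hT : TubeH n) (hn : 1 ≤ n) (hP : OPr P) (hd : Module.finrank ℝ F = n + 1)
    (hη : ND ⊤ η) {A : Form1 (F × F)} (hA : ContDiff ℝ ∞ A)
    {h : ℝ × (F × F) → Bil ((F × F) × K)}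
    (hh : NDField (Icc (0 : ℝ) 1 ×ˢ (hCyl P ∩ hU P)) (fun _ => ⊤) h)
    (e : ∀ p ∈ hCyl P ∩ hU P, h (0, p) = osum (OmI P A p) η ∧ h (1, p) = osum (hom P) η) :
    ∃ (B : ℝ → Form1 (F × F)) (C : Set (F × F)) (ε : ℝ)
      (k₁ k₂ : ℝ × (F × F) → Bil ((F × F) × K)),
      IsCompact C ∧ C ⊆ hCyl P ∩ hU P ∧ 0 < ε ∧ ε ≤ 1 ∧ (∀ t, ContDiff ℝ ∞ (B t)) ∧
      NDField (Icc (0 : ℝ) 1 ×ˢ (hCyl P ∩ hU P)) (fun _ => ⊤) (fun z => OmI P (B z.1) z.2) ∧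
      NDField (Icc (0 : ℝ) 1 ×ˢ (hCyl P ∩ hU P)) (fun _ => ⊤) k₁ ∧
      NDField (Icc (0 : ℝ) 1 ×ˢ (hCyl P ∩ hU P)) (fun _ => ⊤) k₂ ∧
      ∀ p ∈ hCyl P ∩ hU P, OmI P (B 0) p = OmI P A p ∧ (hr P p < ε → OmI P (B 1) p = hom P) ∧
        k₁ (0, p) = osum (OmI P (B 1) p) η ∧ k₁ (1, p) = k₂ (0, p) ∧
        k₂ (1, p) = osum (hom P) η ∧ ∀ t ∈ Icc (0 : ℝ) 1,
          (p ∉ C → OmI P (B t) p = OmI P A p ∧ k₁ (t, p) = osum (OmI P A p) η ∧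
            k₂ (t, p) = h (t, p)) ∧
          (hr P p < ε → k₁ (t, p) = osum (hom P) η ∧ k₂ (t, p) = osum (hom P) η) := by
  have z0 : (0 : ℝ) ∈ Icc (0 : ℝ) 1 := by simp
  have z1 : (1 : ℝ) ∈ Icc (0 : ℝ) 1 := by simp
  have cs : hCore P ⊆ hCyl P ∩ hU P := hCore_subset
  obtain ⟨Ω, H, nΩ, nH, eH⟩ := hrel_destab hP (by omega) hη (a := OmI P A) (w := hom P) (h := h)
    (hh.hmono (prod_mono Subset.rfl cs)) fun p hp => e p (cs hp)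
  have nA : ∀ p ∈ hCyl P ∩ hU P, ND ⊤ (OmI P A p) := fun p hp => by
    have h1 := hh.nd (0, p) ⟨z0, hp⟩
    rw [(e p hp).1] at h1
    refine ⟨fun u _ => by simpa [osum] using h1.1 (u, 0) trivial, fun u _ hu => ?_⟩
    refine congrArg Prod.fst (h1.2 (u, 0) trivial fun v _ => ?_)
    simpa [osum] using hu v.1 trivial
  obtain ⟨B, C, D, hC, hCs, sB, nB, o1, o2, o3, nD, eD⟩ := hT F P hP hd A (hU P) Ω hA isOpen_hU
    (fun p hp => (cs hp).2) nA nΩ fun p hp => ⟨(eH p hp).1, (eH p hp).2.1⟩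
  -- a thin compact piece of the cylinder on which `B 1` is standard
  obtain ⟨c, c0, c1, hc⟩ : ∃ c : ℝ, 0 < c ∧ c < 1 ∧
      ∀ p ∈ hCyl P, hr P p ≤ c → OmI P (B 1) p = hom P := by
    obtain ⟨O, hO, hOc, hOp⟩ := eventually_nhdsSet_iff_exists.1 o3
    have hK : IsCompact ({p | p ∈ hCyl P ∧ hr P p ≤ 1} \ O) := (hP.compact_cyl 1).diff hO
    obtain ⟨m, m0, hm⟩ := hK.exists_forall_le' (f := hr P) contDiff_hr.continuous.continuousOn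
      (a := 0) fun p hp => lt_of_le_of_ne (hr_nonneg p) fun h0 => hp.2 (hOc ⟨hp.1.1, h0.symm⟩)
    refine ⟨min (m / 2) (1 / 2), by positivity, by linarith [min_le_right (m / 2) (1 / 2 : ℝ)],
      fun p hp h1 => hOp p (by_contra fun hn => ?_) hp⟩
    have := hm p ⟨⟨hp, by linarith [min_le_right (m / 2) (1 / 2 : ℝ)]⟩, hn⟩
    linarith [min_le_left (m / 2) (1 / 2 : ℝ)]
  have sub : ∀ p ∈ hCyl P, hr P p ≤ c → p ∈ hCyl P ∩ hU P := fun p hp h1 => by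
    have h2 : hs P p = 1 := hp
    exact ⟨hp, by rw [h2]; norm_num, by rw [h2]; norm_num, h1.trans_lt c1⟩
  have r1 := hrel_rel (u := h) (v := fun z => osum (Ω z) η) nH fun p hp t ht => (eH p hp).2.2 t ht
  have r2 := hrel_rel (u := fun z => OmI P (B z.1) z.2) (v := Ω) nD fun p hp t ht =>
    ⟨(eD p hp t ht).1, (eD p hp t ht).2.1, (eD p hp t ht).2.2.1.trans (o2 p (cs hp)).symm,
      (eD p hp t ht).2.2.2.trans (hc p hp.1 (hp.2.trans_le c0.le)).symm⟩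
  obtain ⟨G, nG, g0, g1⟩ := r1.trans (r2.map (ELI.ds_cont_osum η)
    fun o ho => ELI.ds_nd_osum ho hη).symm
  have eK : {x | x ∈ hCyl P ∩ hU P ∧ hr P x ≤ c} = {p | p ∈ hCyl P ∧ hr P p ≤ c} :=
    Set.ext fun p => ⟨fun hp => ⟨hp.1.1, hp.2⟩, fun hp => ⟨sub p hp.1 hp.2, hp.2⟩⟩
  obtain ⟨ε, k₁, k₂, ε0, ε1, n1, n2, hk⟩ := h_hep (S := hCyl P ∩ hU P) (ρ := hr P)
    (π := fun p => (P p.1, 0)) (c := c) contDiff_hr.continuous hr_nonneg (by fun_prop) c0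
    (eK ▸ hP.compact_cyl c)
    (fun x hx => ⟨cs (hP.retr hx.1), (hP.retr hx.1).2, fun h0 => hP.retr_self ⟨hx.1, h0⟩⟩)
    (b := fun z => osum (OmI P (B z.1) z.2) η) (w := osum (hom P) η) hh
    ⟨(ELI.ds_cont_osum η).comp_continuousOn nB.cont, fun z hz => ELI.ds_nd_osum (nB.nd z hz) hη⟩
    (fun x hx => by simp only [o2 x hx, (e x hx).1]) (fun x hx => (e x hx).2)
    (fun x hx h1 => by simp only [hc x hx.1 h1])
    (D := fun z => G (z.1.1, (z.1.2, z.2)))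
    ⟨nG.cont.comp (by fun_prop) fun z hz => ⟨hz.1.1, hz.1.2, hz.2.1.1, hz.2.2⟩,
      fun z hz => nG.nd _ ⟨hz.1.1, hz.1.2, hz.2.1.1, hz.2.2⟩⟩
    fun x hx h0 t ht => ⟨(g0 (t, x) ⟨ht, hx.1, h0⟩).1, (g0 (t, x) ⟨ht, hx.1, h0⟩).2,
      g1 t ht (0, x) ⟨z0, hx.1, h0⟩ (Or.inl rfl),
      (g1 t ht (1, x) ⟨z1, hx.1, h0⟩ (Or.inr rfl)).trans (e x hx).2⟩
  refine ⟨B, C ∪ {p | p ∈ hCyl P ∧ hr P p ≤ c}, ε, k₁, k₂, hC.union (hP.compact_cyl c),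
    union_subset hCs fun p hp => sub p hp.1 hp.2, ε0, ε1.trans c1.le, sB, nB, n1, n2,
    fun p hp => ⟨o2 p hp, fun h1 => hc p hp.1 (h1.le.trans ε1), (hk p hp).1, (hk p hp).2.1,
      (hk p hp).2.2.1, fun t ht => ⟨fun hn => ?_, ((hk p hp).2.2.2 t ht).2⟩⟩⟩
  have hn1 : p ∉ C := fun h1 => hn (Or.inl h1)
  have hn2 : c < hr P p := not_le.1 fun h1 => hn (Or.inr ⟨hp.1, h1⟩)
  obtain ⟨a1, a2⟩ := ((hk p hp).2.2.2 t ht).1 hn2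
  refine ⟨o1 t ht p ⟨hp, hn1⟩, ?_, a2⟩
  rw [a1]
  exact congrArg (osum · η) (o1 (1 - t) ⟨by linarith [ht.2], by linarith [ht.1]⟩ p ⟨hp, hn1⟩)

end Pool.Agent.Lib.MP_ccffa6_gt
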