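import Pool.Agent.Lib.MP_ccffa6_gt.ELI.HCon
import Pool.Agent.Lib.MP_ccffa6_gt.ELI.HRel
import Pool.Agent.Lib.MP_ccffa6_gt.ELI.HCP

/-! The contact form of the lower level is made standard near the attaching sphere. -/

open Set Filter Topology Metric
open scoped ContDiff RealInnerProductSpace

noncomputable section

namespace Pool.Agent.Lib.MP_ccffa6_gt

variable {E : Type} [NormedAddCommGroup E] [NormedSpace ℝ E] [FiniteDimensional ℝ E]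
  {K : Type} [NormedAddCommGroup K] [NormedSpace ℝ K] [FiniteDimensional ℝ K]
  {F : Type} [NormedAddCommGroup F] [InnerProductSpace ℝ F] [FiniteDimensional ℝ F]
  {n : ℕ} {η : Bil K} {W O N N' : Set E} {g j : E → ℝ} {P : F →L[ℝ] F} {R δ : ℝ} {Q : F × F → ℝ}
  {φ : F × F → E} {ψ : E → F × F} {Ω : E → Bil (E × K)} {Y Y₀ : E → E} {Φ : ℝ → E → E}

theorem hmd_top {V : Type} [NormedAddCommGroup V] [NormedSpace ℝ V] :
    pl (⊤ : Submodule ℝ V) K = ⊤ := Submodule.prod_top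

theorem hmd_const {X V : Type} [TopologicalSpace X] [NormedAddCommGroup V] [NormedSpace ℝ V]
    {S : Set X} {T : X → Submodule ℝ V} {w : X → Bil V} (h : NDField S T w) :
    NDField (Icc (0 : ℝ) 1 ×ˢ S) (fun q => T q.2) fun q => w q.2 :=
  ⟨h.cont.comp continuousOn_snd fun _ hq => hq.2, fun q hq => h.nd q.2 hq.2⟩

theorem hmd_sl {y : E} (hy : y ∈ Lev W g (-2)) : y ∈ HSl W g (-5 / 2) (-1 / 4) := by
  have : g y = -2 := hy.2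
  exact ⟨hy.1, by rw [mem_preimage, this]; constructor <;> norm_num⟩

theorem HFld.hmd_chart (hY : HFld W g P R φ Y N) (h : HData n η W g P R Q φ ψ O Ω) {z : F × F}
    (hz : z ∈ hCyl P ∩ hU P) {β : Form1 E} (hβ : ContDiff ℝ ∞ β) :
    bq (pK (fderiv ℝ φ z) K) (upf η g β (Y (φ z)) (φ z)) = osum (OmI P (pb φ β) z) η := by
  rw [hY.ch z (h.hU_ball hz.2).1 (hY.sub (hmd_sl (h.lev_right hz).1.1))]
  exact h.upf_chart hz hβ

theorem HData.hmd_ext (h : HData n η W g P R Q φ ψ O Ω) {C : Set (F × F)}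
    (hCS : C ⊆ hCyl P ∩ hU P) {y : E} {w w' : E → Bil (E × K)}
    (h1 : ∀ z ∈ hCyl P ∩ hU P,
      bq (pK (fderiv ℝ φ z) K) (w (φ z)) = bq (pK (fderiv ℝ φ z) K) (w' (φ z)))
    (h2 : y ∉ φ '' C → ∀ u ∈ pl (Tan W y) K, ∀ v ∈ pl (Tan W y) K, w y u v = w' y u v) :
    ∀ u ∈ pl (Tan W y) K, ∀ v ∈ pl (Tan W y) K, w y u v = w' y u v := by
  by_cases hy : y ∈ φ '' C
  · obtain ⟨z, hz, rfl⟩ := hy
    exact (h.eq_iff (h.hU_ball (hCS hz).2).2 _ _).1 (h1 z (hCS hz))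
  · exact h2 hy

/-- Choose `γ t` by `exists_form` (any smooth form for `t ∉ I`). `patch` with the constant family
`upf η g β (Y y) y` (`HUp.field`) and `k = osum (OmI (B t)) η` gives the field for
`HUp.good_path` (`upf_chart`, `eq_iff` in the chart, `IsSub.upf_congr` off `φ '' C`).
`γ 0` is `EqT` to `β` (`omI_X`, `lev_tan`), `Good.diff` with the identity. -/
theorem HFld.good (hY : HFld W g P R φ Y N) (h : HData n η W g P R Q φ ψ O Ω) {C : Set (F × F)}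
    (hC : IsCompact C) (hCS : C ⊆ hCyl P ∩ hU P) {β : Form1 E} (hβ : CMan n (Lev W g (-2)) β)
    (hG : Good n (Lev W g (-2)) β) {B : ℝ → Form1 (F × F)} (hB : ∀ t, ContDiff ℝ ∞ (B t))
    (hk : NDField (Icc (0 : ℝ) 1 ×ˢ (hCyl P ∩ hU P)) (fun _ => ⊤) fun z => OmI P (B z.1) z.2)
    (e0 : ∀ p ∈ hCyl P ∩ hU P, OmI P (B 0) p = OmI P (pb φ β) p)
    (e : ∀ t ∈ Icc (0 : ℝ) 1, ∀ p ∈ (hCyl P ∩ hU P) \ C, OmI P (B t) p = OmI P (pb φ β) p) :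
    ∃ γ : Form1 E, CMan n (Lev W g (-2)) γ ∧ Good n (Lev W g (-2)) γ ∧
      (∀ p ∈ hCyl P ∩ hU P, OmI P (pb φ γ) p = OmI P (B 1) p) ∧
      ∀ y ∈ Lev W g (-2) \ φ '' C, ∀ u ∈ pl (Tan W y) K, ∀ v ∈ pl (Tan W y) K,
        upf η g γ (Y y) y u v = upf η g β (Y y) y u v := by
  have hup := hY.up h (c := -2) (Or.inl rfl)
  have hex : ∀ t : ℝ, ∃ γ : Form1 E, ContDiff ℝ ∞ γ ∧ (t ∈ Icc (0 : ℝ) 1 →
      (∀ p ∈ hCyl P ∩ hU P, OmI P (pb φ γ) p = OmI P (B t) p) ∧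
      ∀ y ∈ Lev W g (-2) \ φ '' C, ∀ v ∈ Tan (Lev W g (-2)) y, γ y v = β y v) := fun t => by
    by_cases ht : t ∈ Icc (0 : ℝ) 1
    · obtain ⟨γ, a, b⟩ := h.exists_form hC hCS hβ.sm (hB t) (e t ht)
      exact ⟨γ, a, fun _ => b⟩
    · exact ⟨β, hβ.sm, fun h => absurd h ht⟩
  choose γ g1 g2 using hex
  have hcl : IsClosed (φ '' C) := (hC.image h.ch.smφ.continuous).isClosed
  have hoff : ∀ t ∈ Icc (0 : ℝ) 1, ∀ y ∈ Lev W g (-2) \ φ '' C, ∀ u ∈ pl (Tan W y) K,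
      ∀ v ∈ pl (Tan W y) K, upf η g (γ t) (Y y) y u v = upf η g β (Y y) y u v := by
    intro t ht y hy u hu v hv
    refine IsSub.upf_congr (d := 2 * n + 1) h.sub h.sm (g1 t) hβ.sm hy.1 (hup.tan y hy.1)
      (hup.pos y hy.1).ne' ?_ hu hv
    filter_upwards [self_mem_nhdsWithin, nhdsWithin_le_nhds (hcl.isOpen_compl.mem_nhds hy.2)]
      with y' h1 h2 using (g2 t ht).2 y' ⟨h1, h2⟩
  have hk' := hk.plus h.nd
  simp only [hmd_top] at hk'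
  obtain ⟨G, hG1, hG2, hG3⟩ := h.patch hC hCS (hmd_const (hup.field h.sub h.sm hβ h.nd)) hk'
    fun t ht z hz => by rw [hY.hmd_chart h hz.1 hβ.sm, e t ht z hz]
  have i0 : (0 : ℝ) ∈ Icc (0 : ℝ) 1 := ⟨le_rfl, zero_le_one⟩
  have i1 : (1 : ℝ) ∈ Icc (0 : ℝ) 1 := ⟨zero_le_one, le_rfl⟩
  have h0 : EqT (Lev W g (-2)) (γ 0) (pb id β) := fun y hy v hv => by
    have : pb id β y v = β y v := by simp [pb]
    rw [this]
    by_cases hy' : y ∈ φ '' C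
    · obtain ⟨z, hz, rfl⟩ := hy'
      obtain ⟨a1, a2⟩ := h.lev_tan (hCS hz) hv
      have a3 := h.pr.omI_X (pb φ (γ 0)) (hCS hz).1 a1
      rw [(g2 0 i0).1 z (hCS hz), e0 z (hCS hz), h.pr.omI_X _ (hCS hz).1 a1] at a3
      simpa only [pb, ContinuousLinearMap.comp_apply, a2] using a3.symm
    · exact (g2 0 i0).2 y ⟨hy, hy'⟩ v hv
  obtain ⟨c1, c2⟩ := hup.good_path (η := η) h.sub h.sm (h.cpt_lev (by norm_num) (by norm_num)) g1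
    hG1 (fun t ht y hy => h.hmd_ext hCS (w := fun y => G (t, y))
      (w' := fun y => upf η g (γ t) (Y y) y)
      (fun z hz => by rw [hG2 t ht z hz, hY.hmd_chart h hz (g1 t), (g2 t ht).1 z hz])
      fun hy' u hu v hv => by rw [hG3 t ht y ⟨hy, hy'⟩, hoff t ht y ⟨hy, hy'⟩ u hu v hv])
    (Good.diff ⟨contDiff_id, contDiff_id, fun _ h => h, fun _ h => h, fun _ _ => rfl,
      fun _ _ => rfl⟩ h0 hG)
  exact ⟨γ 1, c1, c2, (g2 1 i1).1, hoff 1 i1⟩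

/-- `KG.of_up` with `Y` gives `β` and a homotopy `H`; `h_rel` for `A = pb φ β` and the pull-back
of `H` (`pull`, `upf_chart`, `eq_iff`, `nrm`); `good`; `patch` twice (`k₁` into the constant
family `upf η g β (Y y) y`, `k₂` into `H`); `RH.trans`. The value on `ker hsg`: `omI_X`,
`omI_hlam`. -/
theorem HFld.exists_mod (hY : HFld W g P R φ Y N) (h : HData n η W g P R Q φ ψ O Ω) (hT : TubeH n)
    (hn : 1 ≤ n) (hK : KG n η W g (-2) Ω) :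
    ∃ (β : Form1 E) (ε : ℝ), 0 < ε ∧ ε ≤ 1 ∧ CMan n (Lev W g (-2)) β ∧ Good n (Lev W g (-2)) β ∧
      (∀ p ∈ hCyl P, hr P p < ε → ∀ u, hsg P p u = 0 →
        β (φ p) (fderiv ℝ φ p u) = hlam P p u) ∧
      RH (Lev W g (-2)) (φ '' {p | p ∈ hCyl P ∧ hr P p < ε}) (fun x => pl (Tan W x) K)
        (fun x => upf η g β (Y x) x) Ω := by
  have hup := hY.up h (c := -2) (Or.inl rfl)
  obtain ⟨β, hβ, hG, H, hH, eH⟩ := hK.of_up h.sub h.sm h.nd hup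
  have hA := contDiff_pb h.ch.smφ hβ.sm
  have i0 : (0 : ℝ) ∈ Icc (0 : ℝ) 1 := ⟨le_rfl, zero_le_one⟩
  have i1 : (1 : ℝ) ∈ Icc (0 : ℝ) 1 := ⟨zero_le_one, le_rfl⟩
  have hΩ : ∀ z ∈ hCyl P ∩ hU P, bq (pK (fderiv ℝ φ z) K) (Ω (φ z)) = osum (hom P) η :=
    fun z hz => h.nrm z (h.hU_ball hz.2).1 (hmd_sl (h.lev_right hz).1.1)
  obtain ⟨B, C, ε, k₁, k₂, hC, hCS, ε0, ε1, hB, b1, b2, b3, b4⟩ :=
    h_rel hT hn h.pr h.dim h.nd hA (h.pull hH) fun z hz => by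
      have a := eH _ (h.lev_right hz).1.1
      have hz' := (h.hU_ball hz.2).2
      rw [← hY.hmd_chart h hz hβ.sm, ← hΩ z hz]
      exact ⟨(h.eq_iff hz' _ _).2 fun u hu v hv => (a u hu v hv).1,
        (h.eq_iff hz' _ _).2 fun u hu v hv => (a u hu v hv).2⟩
  obtain ⟨γ, c1, c2, c3, c4⟩ := hY.good h hC hCS hβ hG hB b1 (fun p hp => (b4 p hp).1)
    fun t ht p hp => (((b4 p hp.1).2.2.2.2.2 t ht).1 hp.2).1
  obtain ⟨G₁, d1, d2, d3⟩ := h.patch hC hCS (hmd_const (hup.field h.sub h.sm hβ h.nd)) b2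
    fun t ht z hz => by
      rw [hY.hmd_chart h hz.1 hβ.sm]
      exact (((b4 z hz.1).2.2.2.2.2 t ht).1 hz.2).2.1
  obtain ⟨G₂, f1, f2, f3⟩ := h.patch hC hCS hH b3
    fun t ht z hz => (((b4 z hz.1).2.2.2.2.2 t ht).1 hz.2).2.2
  have hU' : ∀ p ∈ hCyl P, hr P p < ε → p ∈ hCyl P ∩ hU P := fun p hp h1 => by
    have : hs P p = 1 := hp
    exact ⟨hp, by rw [this]; norm_num, by rw [this]; norm_num, h1.trans_le ε1⟩
  refine ⟨γ, ε, ε0, ε1, c1, c2, fun p hp h1 u hu => ?_, ?_⟩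
  · have a := h.pr.omI_X (pb φ γ) hp hu
    rw [c3 p (hU' p hp h1), (b4 p (hU' p hp h1)).2.1 h1] at a
    exact a.symm
  have hB : ∀ {G : ℝ × E → Bil (E × K)} {w : E → Bil (E × K)},
      (∀ t ∈ Icc (0 : ℝ) 1, ∀ z ∈ hCyl P ∩ hU P, hr P z < ε →
        bq (pK (fderiv ℝ φ z) K) (G (t, φ z)) = osum (hom P) η) →
      (∀ y ∈ Lev W g (-2), ∀ u ∈ pl (Tan W y) K, ∀ v ∈ pl (Tan W y) K, G (0, y) u v = w y u v) →
      ∀ t ∈ Icc (0 : ℝ) 1, ∀ x ∈ Lev W g (-2) ∩ φ '' {p | p ∈ hCyl P ∧ hr P p < ε},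
        ∀ u ∈ pl (Tan W x) K, ∀ v ∈ pl (Tan W x) K, G (t, x) u v = w x u v := by
    rintro G w a1 a2 t ht _ ⟨hx, z, hz, rfl⟩ u hu v hv
    have hz' := hU' z hz.1 hz.2
    rw [← a2 _ hx u hu v hv]
    exact (h.eq_iff (h.hU_ball hz'.2).2 _ _).1
      ((a1 t ht z hz' hz.2).trans (a1 0 i0 z hz' hz.2).symm) u hu v hv
  have r0 : ∀ y ∈ Lev W g (-2), ∀ u ∈ pl (Tan W y) K, ∀ v ∈ pl (Tan W y) K,
      G₁ (0, y) u v = upf η g γ (Y y) y u v := fun y hy =>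
    h.hmd_ext hCS (w := fun y => G₁ (0, y)) (w' := fun y => upf η g γ (Y y) y)
      (fun z hz => by rw [d2 0 i0 z hz, hY.hmd_chart h hz c1.sm, c3 z hz, (b4 z hz).2.2.1])
      fun hy' u hu v hv => by rw [d3 0 i0 y ⟨hy, hy'⟩, c4 y ⟨hy, hy'⟩ u hu v hv]
  have r1 : ∀ y ∈ Lev W g (-2), ∀ u ∈ pl (Tan W y) K, ∀ v ∈ pl (Tan W y) K,
      G₁ (1, y) u v = G₂ (0, y) u v := fun y hy =>
    h.hmd_ext hCS (w := fun y => G₁ (1, y)) (w' := fun y => G₂ (0, y))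
      (fun z hz => by rw [d2 1 i1 z hz, f2 0 i0 z hz, (b4 z hz).2.2.2.1])
      fun hy' u hu v hv => by
        rw [d3 1 i1 y ⟨hy, hy'⟩, f3 0 i0 y ⟨hy, hy'⟩, (eH y hy u hu v hv).1]
  have r2 : ∀ y ∈ Lev W g (-2), ∀ u ∈ pl (Tan W y) K, ∀ v ∈ pl (Tan W y) K,
      G₂ (1, y) u v = Ω y u v := fun y hy =>
    h.hmd_ext hCS (w := fun y => G₂ (1, y)) (w' := Ω)
      (fun z hz => by rw [f2 1 i1 z hz, hΩ z hz, (b4 z hz).2.2.2.2.1])
      fun hy' u hu v hv => by rw [f3 1 i1 y ⟨hy, hy'⟩, (eH y hy u hu v hv).2]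
  refine RH.trans (Ω₁ := fun y => G₂ (0, y))
    ⟨G₁, d1, fun y hy u hu v hv => ⟨r0 y hy u hu v hv, r1 y hy u hu v hv⟩, hB (fun t ht z hz h1 => ?_) r0⟩
    ⟨G₂, f1, fun y hy u hu v hv => ⟨rfl, r2 y hy u hu v hv⟩,
      hB (fun t ht z hz h1 => ?_) fun _ _ _ _ _ _ => rfl⟩
  · rw [d2 t ht z hz, (((b4 z hz).2.2.2.2.2 t ht).2 h1).1]
  · rw [f2 t ht z hz, (((b4 z hz).2.2.2.2.2 t ht).2 h1).2]

end Pool.Agent.Lib.MP_ccffa6_gt
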