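import Pool.Agent.Lib.MP_ccffa6_gt.ELI.HReg
import Pool.Agent.Lib.MP_ccffa6_gt.TOP.MChC

/-! Reduction of `ELIKStmt` to one handle. -/

open Set Filter Topology
open scoped ContDiff

noncomputable section

namespace Pool.Agent.Lib.MP_ccffa6_gt.ELI

variable {E : Type} [NormedAddCommGroup E] [NormedSpace ℝ E] [FiniteDimensional ℝ E]
  {K : Type} [NormedAddCommGroup K] [NormedSpace ℝ K] [FiniteDimensional ℝ K]

/-- Lower one isolated critical point. -/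
theorem hmor_lower {d : ℕ} {W : Set E} {f : E → ℝ} {a b : ℝ} (hW : IsSub d W)
    (hf : ContDiff ℝ ∞ f) (hc : IsCompact (W ∩ f ⁻¹' Icc a b)) {C : Set E} (hC : C.Finite)
    (hcr : ∀ x ∈ W ∩ f ⁻¹' Icc a b, Crit W f x → x ∈ C) {p : E} (hp : f p ∈ Ioo a b) :
    ∃ (g : E → ℝ) (ε : ℝ), 0 < ε ∧ ContDiff ℝ ∞ g ∧ (∀ x, f x ∉ Ioo a b → g =ᶠ[𝓝 x] f) ∧
      (∀ x, f x ∈ Ioo a b → g x ∈ Ioo a b) ∧ (∀ x ∈ C, x ≠ p → g =ᶠ[𝓝 x] f) ∧
      (g =ᶠ[𝓝 p] fun y => f y - ε) ∧ ∀ x ∈ W ∩ f ⁻¹' Icc a b, Crit W g x → x ∈ C := by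
  set a' := (a + f p) / 2 with ha'
  have h1 : a < a' := by rw [ha']; linarith [hp.1]
  have h2 : a' < f p := by rw [ha']; linarith [hp.1]
  have hU : IsOpen (f ⁻¹' Ioo a' b ∩ (C \ {p})ᶜ) :=
    (isOpen_Ioo.preimage hf.continuous).inter (hC.subset diff_subset).isClosed.isOpen_compl
  obtain ⟨χ, c1, c2, c3, c4, -⟩ := exists_cutoff (A := {p}) isClosed_singleton hU
    (singleton_subset_iff.2 ⟨⟨h2, hp.2⟩, fun h => h.2 rfl⟩)
  rw [nhdsSet_singleton] at c3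
  obtain ⟨O, o1, o2, o3⟩ := eventually_nhds_iff.1 c3
  have hG : ContDiff ℝ ∞ fun q : E × ℝ => f q.1 - q.2 * χ q.1 :=
    (hf.comp contDiff_fst).sub (contDiff_snd.mul (c1.comp contDiff_fst))
  have hK : IsCompact ((W ∩ f ⁻¹' Icc a b ∩ tsupport χ) ∩ Oᶜ) :=
    (hc.inter_right (isClosed_tsupport χ)).inter_right o2.isClosed_compl
  have hev := hK.eventually_forall_of_forall_eventually (x₀ := (0 : ℝ))
    (P := fun e y => y ∈ W → ¬ Crit W (fun z => f z - e * χ z) y) fun y hy => by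
      have hn : ¬ Crit W (fun z => f z - (0 : ℝ) * χ z) y := by
        simp only [zero_mul, sub_zero]
        intro h
        exact (c4 hy.1.2).2 ⟨hcr y hy.1.1 h, fun e => hy.2 (by rw [e]; exact o3)⟩
      have := top_ncrit_open (G := fun q : E × ℝ => f q.1 - q.2 * χ q.1) hW hG hy.1.1.1 hn
      rw [eventually_nhdsWithin_iff] at this
      exact (continuous_swap.tendsto ((0 : ℝ), y)).eventually (this.mono fun q hq h => hq ⟨h, trivial⟩)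
  obtain ⟨ε, e1, e2, e3⟩ := (((hev.and (gt_mem_nhds (sub_pos.2 h1))).filter_mono
    (nhdsWithin_le_nhds (s := Ioi (0 : ℝ)))).and self_mem_nhdsWithin).exists.imp
      fun _ h => And.intro h.2 h.1
  have off : ∀ x ∉ tsupport χ, (fun z => f z - ε * χ z) =ᶠ[𝓝 x] f := fun x hx =>
    (notMem_tsupport_iff_eventuallyEq.1 hx).mono fun z hz => by simp [hz]
  have on : ∀ x ∈ O, (fun z => f z - ε * χ z) =ᶠ[𝓝 x] fun z => f z - ε := fun x hx =>
    Filter.mem_of_superset (o2.mem_nhds hx) fun z hz => by simp [o1 z hz]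
  refine ⟨fun z => f z - ε * χ z, ε, e1, hf.sub (contDiff_const.mul c1), fun x hx => off x fun h =>
    hx ⟨h1.trans (c4 h).1.1, (c4 h).1.2⟩, fun x hx => ?_, fun x hx hxp => off x fun h =>
    (c4 h).2 ⟨hx, hxp⟩, on p o3, fun x hx h => ?_⟩
  · by_cases h : x ∈ tsupport χ
    · have := (c4 h).1.1
      exact ⟨by nlinarith [(c2 x).1, (c2 x).2], by nlinarith [(c2 x).1, hx.2]⟩
    · exact mem_of_eq_of_mem (off x h).eq_of_nhds hx
  · refine hcr x hx fun v hv => ?_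
    by_cases h3 : x ∈ tsupport χ
    · by_cases h4 : x ∈ O
      · have := h v hv
        rwa [(on x h4).fderiv_eq, fderiv_sub_const] at this
      · exact absurd h (e2 x ⟨⟨hx, h3⟩, h4⟩ hx.1)
    · have := h v hv
      rwa [(off x h3).fderiv_eq] at this

omit [FiniteDimensional ℝ E] in
theorem hmor_exact {W : Set E} {f : E → ℝ} {p : E} {i j : ℕ} (h : MChart W f p i j) (hp : p ∈ W) :
    ∃ (φ : Rd i × Rd j → E) (ψ : E → Rd i × Rd j), ContDiff ℝ ∞ φ ∧ ContDiff ℝ ∞ ψ ∧ φ 0 = p ∧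
      ∀ᶠ ρ in 𝓝 (0 : ℝ), ∃ O, IsOpen O ∧ W ∩ O = φ '' Metric.ball 0 (3 * ρ) ∧
        ∀ z ∈ Metric.ball (0 : Rd i × Rd j) (3 * ρ),
          ψ (φ z) = z ∧ f (φ z) = f p - ‖z.1‖ ^ 2 + ‖z.2‖ ^ 2 := by
  obtain ⟨φ, ψ, hc, h0, hf⟩ := h
  have e0 : φ 0 = p := h0 ▸ hc.left.self_of_nhdsWithin hp
  obtain ⟨O, o1, o2, o3⟩ := eventually_nhds_iff.1 (eventually_nhdsWithin_iff.1 hc.left)
  have hO : ∀ᶠ z in 𝓝 (0 : Rd i × Rd j), φ z ∈ O :=
    hc.smφ.continuous.continuousAt.eventually (by rw [e0]; exact o2.mem_nhds o3)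
  obtain ⟨r, hr, hb⟩ := Metric.eventually_nhds_iff_ball.1 ((hf.and hO).and (h0 ▸ hc.right))
  refine ⟨φ, ψ, hc.smφ, hc.smψ, e0, ?_⟩
  filter_upwards [gt_mem_nhds (show (0 : ℝ) < r / 3 by positivity)] with ρ hρ
  have hs : Metric.ball (0 : Rd i × Rd j) (3 * ρ) ⊆ Metric.ball 0 r :=
    Metric.ball_subset_ball (by linarith)
  refine ⟨O ∩ ψ ⁻¹' Metric.ball 0 (3 * ρ), o2.inter (Metric.isOpen_ball.preimage
    hc.smψ.continuous), ?_, fun z hz => ⟨(hb z (hs hz)).2.2, (hb z (hs hz)).1.1⟩⟩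
  refine Subset.antisymm (fun y hy => ⟨ψ y, hy.2.2, o1 y hy.2.1 hy.1⟩) ?_
  rintro _ ⟨z, hz, rfl⟩
  exact ⟨(hb z (hs hz)).2.1, (hb z (hs hz)).1.2, by rwa [mem_preimage, (hb z (hs hz)).2.2]⟩

omit [FiniteDimensional ℝ E] [FiniteDimensional ℝ K] in
theorem QG.congr {n : ℕ} {η : Bil K} {W : Set E} {f g : E → ℝ} {Ω : E → Bil (E × K)} {c : ℝ}
    (h : QG n η W f Ω c) (he : Lev W g c = Lev W f c) (hg : ∀ x ∈ Lev W f c, g =ᶠ[𝓝 x] f) :
    QG n η W g Ω c := by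
  obtain ⟨β, ν, h1, h2, h3, h4, h5⟩ := h
  refine ⟨β, ν, ?_⟩
  rw [he]
  exact ⟨h1, h2, h3, fun x hx => by rw [(hg x hx).fderiv_eq]; exact h4 x hx, h5⟩

theorem hmor_ind {n : ℕ} (H : H1Stmt n) {η : Bil K} (hη : ND ⊤ η) {W : Set E}
    (hW : IsSub (2 * n + 2) W) {Ω : E → Bil (E × K)} {b : ℝ} (N : ℕ) :
    ∀ (f : E → ℝ) (a : ℝ) (C : Finset E), C.card = N → ContDiff ℝ ∞ f → a ≤ b →
      IsCompact (W ∩ f ⁻¹' Icc a b) → (∀ x ∈ W ∩ f ⁻¹' Icc a b, Crit W f x → x ∈ C) →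
      (∀ x ∈ C, x ∈ W ∧ f x ∈ Ioo a b ∧ ∃ i j, i ≤ n + 1 ∧ MChart W f x i j) →
      NDField (W ∩ f ⁻¹' Icc a b) (fun x => pl (Tan W x) K) Ω →
      QG n η W f Ω a → QG n η W f Ω b := by
  classical
  have reg : ∀ {f : E → ℝ} {x : E}, ¬ Crit W f x → ∃ v ∈ Tan W x, fderiv ℝ f x v ≠ 0 :=
    fun h => by simpa [Crit] using h
  induction N with
  | zero =>
    intro f a C hN hf hab hc hcr _ hΩ h
    refine h.reg hW hf hab hc (fun x hx => reg fun h' => ?_) hΩ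
    simpa [Finset.card_eq_zero.1 hN] using hcr x hx h'
  | succ N ih =>
    intro f a C hN hf hab hc hcr hC hΩ h
    obtain ⟨p, hp, hmin⟩ := C.exists_min_image f (Finset.card_pos.1 (by omega))
    obtain ⟨hpW, hpI, i, j, hi, hM⟩ := hC p hp
    obtain ⟨g, ε, hε, hg, g1, g2, g3, g4, g5⟩ := hmor_lower hW hf hc C.finite_toSet hcr hpI
    have gp : g p = f p - ε := g4.eq_of_nhds
    have hI : ∀ x, g x ∈ Icc a b ↔ f x ∈ Icc a b := fun x => by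
      by_cases hx : f x ∈ Ioo a b
      · exact iff_of_true (Ioo_subset_Icc_self (g2 x hx)) (Ioo_subset_Icc_self hx)
      · rw [(g1 x hx).eq_of_nhds]
    have hS : W ∩ g ⁻¹' Icc a b = W ∩ f ⁻¹' Icc a b := by
      ext x
      exact and_congr_right fun _ => hI x
    have hL : ∀ c, c = a ∨ c = b → Lev W g c = Lev W f c ∧ ∀ x ∈ Lev W f c, g =ᶠ[𝓝 x] f := by
      intro c hc'
      have hn : c ∉ Ioo a b := by rintro ⟨u, v⟩; rcases hc' with rfl | rfl <;> exact lt_irrefl _ ‹_›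
      refine ⟨?_, fun x hx => g1 x (by rwa [show f x = c from hx.2])⟩
      ext x
      refine and_congr_right fun _ => ?_
      by_cases hx : f x ∈ Ioo a b
      · exact iff_of_false (fun e => hn (by rw [← show g x = c from e]; exact g2 x hx))
          fun e => hn (by rw [← show f x = c from e]; exact hx)
      · rw [mem_preimage, mem_preimage, (g1 x hx).eq_of_nhds]
    have hM' : MChart W g p i j := by
      refine MChart.congr (f := fun y => f y - ε) ?_ hpW (g4.filter_mono nhdsWithin_le_nhds)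
      obtain ⟨φ, ψ, m1, m2, m3⟩ := hM
      exact ⟨φ, ψ, m1, m2, m3.mono fun z hz => by simp only [hz]; ring⟩
    obtain ⟨φ, ψ, s1, s2, s3, s4⟩ := hmor_exact hM' hpW
    have hgp := g2 p hpI
    have t1 : Tendsto (fun ρ : ℝ => g p + ρ ^ 2) (𝓝 0) (𝓝 (g p)) :=
      Continuous.tendsto' (by fun_prop) _ _ (by simp)
    have t2 : Tendsto (fun ρ : ℝ => g p - ρ ^ 2) (𝓝 0) (𝓝 (g p)) :=
      Continuous.tendsto' (by fun_prop) _ _ (by simp)
    obtain ⟨ρ, ⟨⟨⟨O, o1, o2, o3⟩, r1⟩, r2⟩, hρ⟩ := ((((s4.and (t1.eventually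
      (gt_mem_nhds (show g p < f p by linarith)))).and (t2.eventually
      (lt_mem_nhds hgp.1))).filter_mono (nhdsWithin_le_nhds (s := Ioi (0 : ℝ)))).and
      self_mem_nhdsWithin).exists
    have hρ2 : 0 < ρ ^ 2 := pow_pos hρ 2
    have sub : ∀ {u v : ℝ}, a ≤ u → v ≤ b → W ∩ g ⁻¹' Icc u v ⊆ W ∩ f ⁻¹' Icc a b :=
      fun hu hv x hx => hS ▸ ⟨hx.1, hu.trans hx.2.1, hx.2.2.trans hv⟩
    have cp : ∀ {u v : ℝ}, a ≤ u → v ≤ b → IsCompact (W ∩ g ⁻¹' Icc u v) := fun {u v} hu hv => by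
      have := hc.inter_right ((isClosed_Icc (a := u) (b := v)).preimage hg.continuous)
      exact (Subset.antisymm (fun x hx => ⟨hx.1.1, hx.2⟩) fun x hx => ⟨sub hu hv hx, hx.2⟩ :
        W ∩ f ⁻¹' Icc a b ∩ g ⁻¹' Icc u v = W ∩ g ⁻¹' Icc u v) ▸ this
    have gx : ∀ x ∈ C, x ≠ p → g p + ρ ^ 2 < g x := fun x hx hne => by
      rw [(g3 x hx hne).eq_of_nhds]
      exact r1.trans_le (hmin x hx)
    have b1 : g p + ρ ^ 2 ≤ b := r1.le.trans hpI.2.le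
    have b0 : g p - ρ ^ 2 ≤ b := by linarith
    have q1 : QG n η W g Ω (g p - ρ ^ 2) := by
      refine (h.congr (hL a (Or.inl rfl)).1 (hL a (Or.inl rfl)).2).reg hW hg r2.le (cp le_rfl b0)
        (fun x hx => reg fun h' => ?_) (NDField.mono' hΩ (sub le_rfl b0))
      have hx' := g5 x (sub le_rfl b0 hx) h'
      have h2 : g x ≤ g p - ρ ^ 2 := hx.2.2
      by_cases e : x = p
      · rw [e] at h2; linarith
      · linarith [gx x hx' e]
    have q2 := H E K η W g Ω p i j φ ψ O ρ hη hW hg hρ hi (hM'.dim hpW hW) s1 s2 s3 o1 o2 o3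
      (cp r2.le b1) (fun x hx e => reg fun h' =>
        absurd hx.2.2 (not_le.2 (gx x (g5 x (sub r2.le b1 hx) h') e)))
      (NDField.mono' hΩ (sub r2.le b1)) q1
    have a1 : a ≤ g p + ρ ^ 2 := by linarith [hgp.1]
    have q3 := ih g (g p + ρ ^ 2) (C.erase p) (by rw [Finset.card_erase_of_mem hp]; omega) hg b1
      (cp a1 le_rfl) (fun x hx h' => Finset.mem_erase.2 ⟨fun e => ?_, g5 x (sub a1 le_rfl hx) h'⟩)
      (fun x hx => ?_) (NDField.mono' hΩ (sub a1 le_rfl)) q2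
    · exact q3.congr (hL b (Or.inr rfl)).1.symm fun x hx =>
        ((hL b (Or.inr rfl)).2 x ((hL b (Or.inr rfl)).1 ▸ hx)).symm
    · have h2 : g p + ρ ^ 2 ≤ g x := hx.2.1
      rw [e] at h2
      linarith
    · obtain ⟨e, hx⟩ := Finset.mem_erase.1 hx
      obtain ⟨u1, u2, i', j', u3, u4⟩ := hC x hx
      exact ⟨u1, ⟨gx x hx e, (g2 x u2).2⟩, i', j', u3,
        u4.congr u1 ((g3 x hx e).filter_mono nhdsWithin_le_nhds)⟩

theorem elik_of_h1 {n : ℕ} (H : H1Stmt n) : ELIKStmt n := by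
  intro E _ _ _ K _ _ _ η W f a b Ωa Ωb hη ⟨ν, Ω, hs, hM, _, _, hΩ, ha, hb⟩ ⟨β, h1, h2, h3⟩
  have hfin := top_crit_finite hs.sub hs.sm hs.cpt inter_subset_left fun x hx h => by
    obtain ⟨i, j, φ, ψ, -, m⟩ := hM x hx h
    exact ⟨i, j, φ, ψ, m⟩
  have la : Lev W f a ⊆ W ∩ f ⁻¹' {a, b} := fun x hx => ⟨hx.1, Or.inl hx.2⟩
  have lb : Lev W f b ⊆ W ∩ f ⁻¹' {a, b} := fun x hx => ⟨hx.1, Or.inr hx.2⟩
  obtain ⟨β', ν', k1, k2, k3, k4, k5⟩ := hmor_ind H hη hs.sub _ f a hfin.toFinset rfl hs.sm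
    hs.le.le hs.cpt (fun x hx h => hfin.mem_toFinset.2 ⟨hx, h⟩) (fun x hx => by
      obtain ⟨hx, h⟩ := hfin.mem_toFinset.1 hx
      obtain ⟨i, j, φ, ψ, hi, m⟩ := hM x hx h
      have hn : f x ∉ ({a, b} : Set ℝ) := fun e => by
        have := hs.tν x ⟨hx.1, e⟩
        exact zero_ne_one ((h _ this.1).symm.trans this.2)
      exact ⟨hx.1, ⟨lt_of_le_of_ne hx.2.1 fun e => hn (Or.inl e.symm),
        lt_of_le_of_ne hx.2.2 fun e => hn (Or.inr e)⟩, i, j, hi, φ, ψ, m⟩) hΩ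
    ⟨β, ν, h1, h2, hs.cν.mono la, fun x hx => hs.tν x (la hx), h3.trans ha⟩
  refine ⟨β', k1, k2, (k5.trans (hreg_nu hs.sub hs.sm (NDField.mono' hΩ fun x hx => ?_) k3
    (hs.cν.mono lb) k4 fun x hx => hs.tν x (lb hx))).trans hb.symm⟩
  exact ⟨hx.1, by rw [mem_preimage, show f x = b from hx.2]; exact ⟨hs.le.le, le_rfl⟩⟩

end Pool.Agent.Lib.MP_ccffa6_gt.ELI
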