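import Pool.Agent.Lib.MP_ccffa6_gt.ELI.HD
import Pool.Agent.Lib.MP_ccffa6_gt.K.Htpy

/-! Relative homotopies of nondegenerate forms. -/

open Set Filter Topology Metric
open scoped ContDiff RealInnerProductSpace

noncomputable section

namespace Pool.Agent.Lib.MP_ccffa6_gt

variable {E : Type} [NormedAddCommGroup E] [NormedSpace ℝ E] [FiniteDimensional ℝ E]
  {V : Type} [NormedAddCommGroup V] [NormedSpace ℝ V] [FiniteDimensional ℝ V]
  {K : Type} [NormedAddCommGroup K] [NormedSpace ℝ K] [FiniteDimensional ℝ K]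

variable {X : Type} [TopologicalSpace X] {S B : Set X} {T : X → Submodule ℝ V}
  {Ω₀ Ω₁ Ω₂ : X → Bil V}

theorem hrh_add {f g : X → Bil V} (hf : ContinuousOn f S) (hg : ContinuousOn g S) :
    ContinuousOn (fun x => f x + g x) S :=
  continuousOn_clm_apply.2 fun _ => continuousOn_clm_apply.2 fun _ =>
    ((hf.clm_apply continuousOn_const).clm_apply continuousOn_const).add
      ((hg.clm_apply continuousOn_const).clm_apply continuousOn_const)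

theorem hrh_sub {f g : X → Bil V} (hf : ContinuousOn f S) (hg : ContinuousOn g S) :
    ContinuousOn (fun x => f x - g x) S :=
  continuousOn_clm_apply.2 fun _ => continuousOn_clm_apply.2 fun _ =>
    ((hf.clm_apply continuousOn_const).clm_apply continuousOn_const).sub
      ((hg.clm_apply continuousOn_const).clm_apply continuousOn_const)

theorem RH.htpy (h : RH S B T Ω₀ Ω₁) : NDHtpy S T Ω₀ Ω₁ :=
  let ⟨H, h1, h2, _⟩ := h
  ⟨H, h1, h2⟩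

theorem RH.eq (h : RH S B T Ω₀ Ω₁) {x : X} (hx : x ∈ S ∩ B) {u v : V} (hu : u ∈ T x)
    (hv : v ∈ T x) : Ω₀ x u v = Ω₁ x u v :=
  let ⟨_, _, h2, h3⟩ := h
  (h3 1 ⟨zero_le_one, le_rfl⟩ x hx u hu v hv).symm.trans (h2 x hx.1 u hu v hv).2

theorem RH.mono (h : RH S B T Ω₀ Ω₁) {B' : Set X} (e : S ∩ B' ⊆ B) : RH S B' T Ω₀ Ω₁ :=
  let ⟨H, h1, h2, h3⟩ := h
  ⟨H, h1, h2, fun t ht x hx => h3 t ht x ⟨hx.1, e hx⟩⟩

theorem RH.symm (h : RH S B T Ω₀ Ω₁) : RH S B T Ω₁ Ω₀ := by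
  have h' := h
  obtain ⟨H, hH, he, h3⟩ := h
  have hm : MapsTo (fun q : ℝ × X => (1 - q.1, q.2)) (Icc 0 1 ×ˢ S) (Icc 0 1 ×ˢ S) :=
    fun q hq => ⟨⟨sub_nonneg.2 hq.1.2, sub_le_self _ hq.1.1⟩, hq.2⟩
  refine ⟨fun q => H (1 - q.1, q.2), ⟨hH.cont.comp (by fun_prop) hm, fun q hq => hH.nd _ (hm hq)⟩,
    fun x hx u hu v hv => ?_, fun t ht x hx u hu v hv =>
      (h3 _ ⟨sub_nonneg.2 ht.2, sub_le_self _ ht.1⟩ x hx u hu v hv).trans (h'.eq hx hu hv)⟩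
  simpa using (he x hx u hu v hv).symm

theorem RH.congr (h : RH S B T Ω₀ Ω₁) {Θ₀ Θ₁ : X → Bil V}
    (h0 : ∀ x ∈ S, ∀ u ∈ T x, ∀ v ∈ T x, Ω₀ x u v = Θ₀ x u v)
    (h1 : ∀ x ∈ S, ∀ u ∈ T x, ∀ v ∈ T x, Ω₁ x u v = Θ₁ x u v) : RH S B T Θ₀ Θ₁ :=
  let ⟨H, hH, he, h3⟩ := h
  ⟨H, hH, fun x hx u hu v hv => ⟨(he x hx u hu v hv).1.trans (h0 x hx u hu v hv),
    (he x hx u hu v hv).2.trans (h1 x hx u hu v hv)⟩,
    fun t ht x hx u hu v hv => (h3 t ht x hx u hu v hv).trans (h0 x hx.1 u hu v hv)⟩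

/-- With `a t = min (2 t) 1`, `b t = max (2 t - 1) 0` take `H (a t) + H' (b t) - H' 0`: on `T` it
is `H (2 t)` for `t ≤ 1/2` and `H' (2 t - 1)` for `t ≥ 1/2`. -/
theorem RH.trans (h : RH S B T Ω₀ Ω₁) (h' : RH S B T Ω₁ Ω₂) : RH S B T Ω₀ Ω₂ := by
  obtain ⟨H, hH, he, h3⟩ := h
  obtain ⟨G, hG, ge, g3⟩ := h'
  have ma : ∀ t ∈ Icc (0 : ℝ) 1, min (2 * t) 1 ∈ Icc (0 : ℝ) 1 := fun t ht =>
    ⟨le_min (by linarith [ht.1]) zero_le_one, min_le_right _ _⟩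
  have mb : ∀ t ∈ Icc (0 : ℝ) 1, max (2 * t - 1) 0 ∈ Icc (0 : ℝ) 1 := fun t ht =>
    ⟨le_max_right _ _, max_le (by linarith [ht.2]) zero_le_one⟩
  have m0 : (0 : ℝ) ∈ Icc (0 : ℝ) 1 := ⟨le_rfl, zero_le_one⟩
  refine ⟨fun q => H (min (2 * q.1) 1, q.2) + G (max (2 * q.1 - 1) 0, q.2) - G (0, q.2),
    ⟨hrh_sub (hrh_add (hH.cont.comp (by fun_prop) fun q hq => ⟨ma _ hq.1, hq.2⟩)
      (hG.cont.comp (by fun_prop) fun q hq => ⟨mb _ hq.1, hq.2⟩))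
      (hG.cont.comp (by fun_prop) fun q hq => ⟨m0, hq.2⟩), fun q hq => ?_⟩,
    fun x hx u hu v hv => ⟨?_, ?_⟩, fun t ht x hx u hu v hv => ?_⟩
  · rcases le_total (2 * q.1) 1 with h1 | h1
    · refine (hH.nd (_, q.2) ⟨ma _ hq.1, hq.2⟩).congr fun u _ v _ => ?_
      simp only [max_eq_right (sub_nonpos.2 h1), sub_apply, add_apply, add_sub_cancel_right]
    · refine (hG.nd (_, q.2) ⟨mb _ hq.1, hq.2⟩).congr fun u hu v hv => ?_
      simp only [min_eq_right h1, sub_apply, add_apply, (he _ hq.2 u hu v hv).2,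
        (ge _ hq.2 u hu v hv).1]
      ring
  · simpa using (he x hx u hu v hv).1
  · have h1 : (2 : ℝ) - 1 = 1 := by norm_num
    simp [h1, (he x hx u hu v hv).2, (ge x hx u hu v hv).1, (ge x hx u hu v hv).2]
  · simp only [sub_apply, add_apply, h3 _ (ma t ht) x hx u hu v hv, g3 _ (mb t ht) x hx u hu v hv,
      g3 _ m0 x hx u hu v hv, add_sub_cancel_right]

/-- Extension by the constant homotopy. Compose `H` and `Θ` with the projectors `Pr`, so that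
they agree on `I × (S ∩ B)` as ambient forms, and glue (`ContinuousOn.union_of_isClosed`,
`Set.piecewise`). -/
theorem RH.glue (h : RH S B T Ω₀ Ω₁) (hS : IsClosed S) (hB : IsClosed B) {Pr : X → V →L[ℝ] V}
    (hP : ContinuousOn Pr (S ∪ B))
    (hT : ∀ x ∈ S ∪ B, (∀ v, Pr x v ∈ T x) ∧ ∀ v ∈ T x, Pr x v = v) (h0 : NDField B T Ω₀)
    (h1 : ∀ x ∈ B, ∀ u ∈ T x, ∀ v ∈ T x, Ω₀ x u v = Ω₁ x u v) : NDHtpy (S ∪ B) T Ω₀ Ω₁ := by
  classical
  obtain ⟨H, hH, he, h3⟩ := h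
  let M : ℝ × X → Bil V := fun q => bq (Pr q.2) (if q.2 ∈ S then H q else Ω₀ q.2)
  have hM : ∀ q : ℝ × X, q.2 ∈ S ∪ B → ∀ u ∈ T q.2, ∀ v ∈ T q.2,
      M q u v = (if q.2 ∈ S then H q else Ω₀ q.2) u v := fun q hq u hu v hv => by
    simp only [M, ContinuousLinearMap.bilinearComp_apply, (hT _ hq).2 u hu, (hT _ hq).2 v hv]
  have c1 : ContinuousOn (fun q : ℝ × X => Pr q.2) (Icc 0 1 ×ˢ S) :=
    hP.comp continuousOn_snd fun q hq => .inl hq.2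
  have c2 : ContinuousOn (fun q : ℝ × X => Pr q.2) (Icc 0 1 ×ˢ B) :=
    hP.comp continuousOn_snd fun q hq => .inr hq.2
  refine ⟨M, ⟨?_, fun q hq => ?_⟩, fun x hx u hu v hv => ?_⟩
  · rw [prod_union]
    refine ContinuousOn.union_of_isClosed ((htpy_cont hH.cont c1 c1).congr fun q hq => ?_)
      ((htpy_cont (h0.cont.comp continuousOn_snd fun q hq => hq.2) c2 c2).congr fun q hq => ?_)
      (isClosed_Icc.prod hS) (isClosed_Icc.prod hB)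
    · simp only [M, if_pos hq.2]
    · simp only [M]
      split_ifs with h4
      · exact ContinuousLinearMap.ext fun u => ContinuousLinearMap.ext fun v =>
          h3 q.1 hq.1 q.2 ⟨h4, hq.2⟩ _ ((hT _ (.inl h4)).1 u) _ ((hT _ (.inl h4)).1 v)
      · rfl
  · by_cases h4 : q.2 ∈ S
    · exact (hH.nd q ⟨hq.1, h4⟩).congr fun u hu v hv => by rw [hM q hq.2 u hu v hv, if_pos h4]
    · exact (h0.nd _ (hq.2.resolve_left h4)).congr fun u hu v hv => by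
        rw [hM q hq.2 u hu v hv, if_neg h4]
  · rw [hM (0, x) hx u hu v hv, hM (1, x) hx u hu v hv]
    by_cases h4 : x ∈ S
    · rw [if_pos h4, if_pos h4]
      exact he x h4 u hu v hv
    · rw [if_neg h4, if_neg h4]
      exact ⟨rfl, h1 x (hx.resolve_left h4) u hu v hv⟩

theorem NDField.hmono {Ω : X → Bil V} (h : NDField S T Ω) {S' : Set X} (e : S' ⊆ S) :
    NDField S' T Ω :=
  ⟨h.cont.mono e, fun x hx => h.nd x (e hx)⟩

/-- Modification of a field inside a chart. `a z : V' → T (φ z)` is a continuous family of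
isomorphisms with inverse `b (φ z)`. Take
`G (t, y) = G₀ (t, y) + indicator O (bq (b y) (k (t, ψ y) - bq (a (ψ y)) (G₀ (t, y))))`; the second
term vanishes off the compact set `φ '' C ⊆ O`. -/
theorem h_patch {X' V' : Type} [TopologicalSpace X'] [T2Space X] [NormedAddCommGroup V']
    [NormedSpace ℝ V'] [FiniteDimensional ℝ V'] {O : Set X} (hO : IsOpen O) {S' C : Set X'}
    (hC : IsCompact C) (hCS : C ⊆ S') {φ : X' → X} {ψ : X → X'} (hφ : ContinuousOn φ S')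
    (hψ : ContinuousOn ψ (S ∩ O)) (r : ∀ z ∈ S', φ z ∈ S ∩ O ∧ ψ (φ z) = z)
    (l : ∀ y ∈ S ∩ O, ψ y ∈ S' ∧ φ (ψ y) = y) {a : X' → V' →L[ℝ] V} {b : X → V →L[ℝ] V'}
    (ha : ContinuousOn a S') (hb : ContinuousOn b (S ∩ O))
    (hab : ∀ z ∈ S', (∀ u, a z u ∈ T (φ z) ∧ b (φ z) (a z u) = u) ∧
      ∀ v ∈ T (φ z), a z (b (φ z) v) = v)
    {G₀ : ℝ × X → Bil V} (h0 : NDField (Icc (0 : ℝ) 1 ×ˢ S) (fun q => T q.2) G₀)
    {k : ℝ × X' → Bil V'} (hk : NDField (Icc (0 : ℝ) 1 ×ˢ S') (fun _ => ⊤) k)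
    (e : ∀ t ∈ Icc (0 : ℝ) 1, ∀ z ∈ S' \ C, k (t, z) = bq (a z) (G₀ (t, φ z))) :
    ∃ G : ℝ × X → Bil V, NDField (Icc (0 : ℝ) 1 ×ˢ S) (fun q => T q.2) G ∧
      (∀ t ∈ Icc (0 : ℝ) 1, ∀ z ∈ S', bq (a z) (G (t, φ z)) = k (t, z)) ∧
      ∀ t ∈ Icc (0 : ℝ) 1, ∀ y ∈ S \ φ '' C, G (t, y) = G₀ (t, y) := by
  classical
  let D : ℝ × X → Bil V := fun q => bq (b q.2) (k (q.1, ψ q.2) - bq (a (ψ q.2)) (G₀ q))
  let N : ℝ × X → Bil V := fun q => if q.2 ∈ O then D q else 0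
  have hN : ∀ q : ℝ × X, q.1 ∈ Icc (0 : ℝ) 1 → q.2 ∈ S \ φ '' C → N q = 0 := fun q h1 h2 => by
    simp only [N]
    split_ifs with h3
    · obtain ⟨h4, h5⟩ := l _ ⟨h2.1, h3⟩
      simp only [D]
      rw [e _ h1 _ ⟨h4, fun h6 => h2.2 ⟨_, h6, h5⟩⟩, h5]
      exact ContinuousLinearMap.ext fun u => ContinuousLinearMap.ext fun v => sub_self _
    · rfl
  have hG : ∀ q : ℝ × X, q.2 ∈ S ∩ O → ∀ u ∈ T q.2, ∀ v ∈ T q.2,
      (G₀ q + N q) u v = k (q.1, ψ q.2) (b q.2 u) (b q.2 v) := fun q hq u hu v hv => by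
    obtain ⟨h4, h5⟩ := l _ hq
    have h6 := (hab _ h4).2
    rw [h5] at h6
    simp only [N, D, if_pos hq.2, add_apply, sub_apply, ContinuousLinearMap.bilinearComp_apply,
      h6 u hu, h6 v hv, add_sub_cancel]
  have cD : ContinuousOn D (Icc 0 1 ×ˢ S ∩ Prod.snd ⁻¹' O) := by
    have c1 : ContinuousOn (fun q : ℝ × X => ψ q.2) (Icc 0 1 ×ˢ S ∩ Prod.snd ⁻¹' O) :=
      hψ.comp continuousOn_snd fun q hq => ⟨hq.1.2, hq.2⟩
    have c2 : ContinuousOn (fun q : ℝ × X => b q.2) (Icc 0 1 ×ˢ S ∩ Prod.snd ⁻¹' O) :=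
      hb.comp continuousOn_snd fun q hq => ⟨hq.1.2, hq.2⟩
    have c3 := ha.comp c1 fun q hq => (l _ ⟨hq.1.2, hq.2⟩).1
    exact htpy_cont (hrh_sub (hk.cont.comp (continuousOn_fst.prodMk c1)
      fun q hq => ⟨hq.1.1, (l _ ⟨hq.1.2, hq.2⟩).1⟩)
      (htpy_cont (h0.cont.mono inter_subset_left) c3 c3)) c2 c2
  have cC : IsClosed (φ '' C) := (hC.image_of_continuousOn (hφ.mono hCS)).isClosed
  refine ⟨fun q => G₀ q + N q, ⟨hrh_add h0.cont
    (continuousOn_of_locally_continuousOn fun q hq => ?_), fun q hq => ?_⟩,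
    fun t ht z hz => ?_, fun t ht y hy => ContinuousLinearMap.ext fun u =>
      ContinuousLinearMap.ext fun v => by simp [hN (t, y) ht hy]⟩
  · by_cases h1 : q.2 ∈ O
    · exact ⟨_, hO.preimage continuous_snd, h1, cD.congr fun p hp => if_pos hp.2⟩
    · refine ⟨_, cC.isOpen_compl.preimage continuous_snd, ?_,
        continuousOn_const.congr fun p hp => hN p hp.1.1 ⟨hp.1.2, hp.2⟩⟩
      rintro ⟨z, h2, h3⟩
      exact h1 (h3 ▸ (r z (hCS h2)).1.2)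
  · by_cases h1 : q.2 ∈ O
    · obtain ⟨h4, h5⟩ := l _ ⟨hq.2, h1⟩
      obtain ⟨h6, h7⟩ := hab _ h4
      rw [h5] at h6 h7
      refine ((hk.nd (q.1, ψ q.2) ⟨hq.1, h4⟩).comp (A := b q.2) (T := T q.2) ⟨fun _ _ => trivial,
        fun u hu v hv h8 => by rw [← h7 u hu, h8, h7 v hv], fun u _ =>
          ⟨_, (h6 u).1, (h6 u).2⟩⟩).congr fun u hu v hv => (hG q ⟨hq.2, h1⟩ u hu v hv).symm
    · exact (h0.nd q hq).congr fun u _ v _ => by simp [N, h1]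
  · refine ContinuousLinearMap.ext fun u => ContinuousLinearMap.ext fun v => ?_
    have h1 := (hab z hz).1
    refine (hG (t, φ z) (r z hz).1 _ (h1 u).1 _ (h1 v).1).trans ?_
    simp only [(r z hz).2, (h1 u).2, (h1 v).2]

end Pool.Agent.Lib.MP_ccffa6_gt
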