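import Pool.Agent.Lib.MP_ccffa6_gt.ELI.HCh
import Pool.Agent.Lib.MP_ccffa6_gt.ELI.HRH
import Pool.Agent.Lib.MP_ccffa6_gt.ELI.HAlg
import Pool.Agent.Lib.MP_ccffa6_gt.ELI.Ds4

/-! The formal data are made standard in the chart. -/

open Set Filter Topology Metric
open scoped ContDiff RealInnerProductSpace

noncomputable section

namespace Pool.Agent.Lib.MP_ccffa6_gt

variable {E : Type} [NormedAddCommGroup E] [NormedSpace ℝ E] [FiniteDimensional ℝ E]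
  {K : Type} [NormedAddCommGroup K] [NormedSpace ℝ K] [FiniteDimensional ℝ K]
  {F : Type} [NormedAddCommGroup F] [InnerProductSpace ℝ F] [FiniteDimensional ℝ F]
  {n : ℕ} {η : Bil K} {W O N N' : Set E} {g j : E → ℝ} {P : F →L[ℝ] F} {R δ : ℝ} {Q : F × F → ℝ}
  {φ : F × F → E} {ψ : E → F × F} {Ω : E → Bil (E × K)} {Y Y₀ : E → E} {Φ : ℝ → E → E}

set_option maxSynthPendingDepth 3 in
/-- With `a s = max 0 (min 1 (4 * (R - 3/4 - s)))`, `b s = max 0 (min 1 (4 * (s - (R - 3/4))))`: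
`k z = γ (a ‖z‖) + w (b ‖z‖ • z) - w 0`. -/
theorem hnorm_ball {X V : Type} [NormedAddCommGroup X] [NormedSpace ℝ X] [NormedAddCommGroup V]
    [NormedSpace ℝ V] (hR : 1 ≤ R) {w : X → Bil V} (hw : NDField (ball 0 R) (fun _ => ⊤) w)
    {γ : ℝ → Bil V} (hγ : ContinuousOn γ (Icc 0 1)) (hn : ∀ t ∈ Icc (0 : ℝ) 1, ND ⊤ (γ t))
    (h0 : γ 0 = w 0) : ∃ k : X → Bil V, NDField (ball 0 R) (fun _ => ⊤) k ∧
      (∀ z, ‖z‖ ≤ R - 1 → k z = γ 1) ∧ ∀ z, R - 1 / 2 ≤ ‖z‖ → k z = w z := by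
  obtain ⟨a, hac, haI, ha0, ha1⟩ : ∃ a : ℝ → ℝ, Continuous a ∧ (∀ s, a s ∈ Icc (0 : ℝ) 1) ∧
      (∀ s ≤ 0, a s = 0) ∧ ∀ s, 1 / 4 ≤ s → a s = 1 :=
    ⟨fun s => max 0 (min 1 (4 * s)), by fun_prop,
      fun s => ⟨le_max_left _ _, max_le zero_le_one (min_le_left _ _)⟩,
      fun s hs => max_eq_left ((min_le_right _ _).trans (by linarith)), fun s hs => by
        simp only [min_eq_left (by linarith : 1 ≤ 4 * s), max_eq_right zero_le_one]⟩
  have hm : ∀ z ∈ ball (0 : X) R, a (‖z‖ - (R - 3 / 4)) • z ∈ ball (0 : X) R := by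
    intro z hz
    rw [mem_ball_zero_iff] at hz ⊢
    rw [norm_smul, Real.norm_of_nonneg (haI _).1]
    exact lt_of_le_of_lt (mul_le_of_le_one_left (norm_nonneg _) (haI _).2) hz
  have e1 : ∀ z : X, ‖z‖ ≤ R - 3 / 4 → γ (a (R - 3 / 4 - ‖z‖)) +
      (w (a (‖z‖ - (R - 3 / 4)) • z) - w 0) = γ (a (R - 3 / 4 - ‖z‖)) := by
    intro z hz
    rw [ha0 _ (sub_nonpos.2 hz), zero_smul, sub_self, add_zero]
  have e2 : ∀ z : X, R - 3 / 4 ≤ ‖z‖ → γ (a (R - 3 / 4 - ‖z‖)) +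
      (w (a (‖z‖ - (R - 3 / 4)) • z) - w 0) = w (a (‖z‖ - (R - 3 / 4)) • z) := by
    intro z hz
    rw [ha0 _ (sub_nonpos.2 hz), h0, add_sub_cancel]
  refine ⟨fun z => γ (a (R - 3 / 4 - ‖z‖)) + (w (a (‖z‖ - (R - 3 / 4)) • z) - w 0),
    ⟨?_, fun z hz => ?_⟩, fun z hz => ?_, fun z hz => ?_⟩
  · have c1 : ContinuousOn (fun z : X => γ (a (R - 3 / 4 - ‖z‖))) (ball 0 R) :=
      hγ.comp (by fun_prop) fun z _ => haI _
    have c2 : ContinuousOn (fun z : X => w (a (‖z‖ - (R - 3 / 4)) • z)) (ball 0 R) :=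
      hw.cont.comp (by fun_prop) hm
    exact c1.add (c2.sub continuousOn_const)
  · rcases le_total ‖z‖ (R - 3 / 4) with h | h
    · simp only [e1 z h]
      exact hn _ (haI _)
    · simp only [e2 z h]
      exact hw.nd _ (hm z hz)
  · simp only [e1 z (by linarith)]
    rw [ha1 _ (by linarith)]
  · simp only [e2 z (by linarith)]
    rw [ha1 _ (by linarith), one_smul]

/-- the reflection `(a, b) ↦ (a, b - 2 ⟪e, b⟫ e)` for a unit vector `e` -/
theorem hnorm_refl (hd : 1 ≤ Module.finrank ℝ F) (P : F →L[ℝ] F) :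
    ∃ (r : (F × F) ≃L[ℝ] (F × F)) (l : (F × F) × K →L[ℝ] ℝ) (f : (F × F) × K), l f = 1 ∧
      (∀ u, u - (2 : ℝ) • l u • f = (r u.1, u.2)) ∧
      ∀ z, r (r z) = z ∧ ‖r z‖ = ‖z‖ ∧ hs P (r z) = hs P z ∧ hr P (r z) = hr P z := by
  have : Nontrivial F := Module.nontrivial_of_finrank_pos (R := ℝ) hd
  obtain ⟨e, he⟩ := exists_norm_eq F zero_le_one
  have hee : ⟪e, e⟫ = 1 := by rw [real_inner_self_eq_norm_sq, he, one_pow]
  let s : F →L[ℝ] F := ContinuousLinearMap.id ℝ F - (2 : ℝ) • (innerSL ℝ e).smulRight e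
  have hs' : ∀ b, s b = b - (2 : ℝ) • ⟪e, b⟫ • e := fun b => by simp [s]
  have hss : ∀ b, s (s b) = b := fun b => by
    rw [hs' (s b), hs' b, inner_sub_right, inner_smul_right, inner_smul_right, hee]
    module
  have hn : ∀ b, ‖s b‖ = ‖b‖ := fun b => by
    rw [← sq_eq_sq₀ (norm_nonneg _) (norm_nonneg _), hs', norm_sub_sq_real, inner_smul_right,
      inner_smul_right, norm_smul, norm_smul, he, real_inner_comm, mul_pow, mul_pow,
      Real.norm_eq_abs, Real.norm_eq_abs, sq_abs, sq_abs]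
    ring
  refine ⟨(ContinuousLinearEquiv.refl ℝ F).prodCongr
    (ContinuousLinearEquiv.equivOfInverse s s hss hss), (innerSL ℝ e).comp
      ((ContinuousLinearMap.snd ℝ F F).comp (ContinuousLinearMap.fst ℝ (F × F) K)), ((0, e), 0),
    by simpa using hee, fun u => ?_, fun z => ⟨?_, ?_, rfl, ?_⟩⟩
  · refine Prod.ext (Prod.ext ?_ ?_) ?_ <;> simp [hs']
  · exact Prod.ext rfl (hss _)
  · simp [Prod.norm_def, hn]
  · simp [hr, hn]

/-- `w z = bq (pK (Dφ z) K) (Ω (φ z))`; `ELI.nd_conn` joins `w 0` to `osum (hom P) η` or to its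
reflection (then use the chart `φ ∘ r`, otherwise `r = refl`); `hnorm_ball`; `h_patch` for
families which do not depend on `t`, `S' = ball 0 R`, `C = closedBall 0 (R - 1/2)`. -/
theorem HCh.exists_norm (h : HCh W φ ψ O R) (hR : 1 ≤ R) (hd : 1 ≤ Module.finrank ℝ F)
    (hP : OPr P) (hη : ND ⊤ η) {S : Set E} (hS : S ⊆ W) (hb : φ '' ball 0 R ⊆ S)
    (hΩ : NDField S (fun x => pl (Tan W x) K) Ω) :
    ∃ (r : (F × F) ≃L[ℝ] (F × F)) (Ω' : E → Bil (E × K)),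
      (∀ z, ‖r z‖ = ‖z‖ ∧ hs P (r z) = hs P z ∧ hr P (r z) = hr P z) ∧
      NDField S (fun x => pl (Tan W x) K) Ω' ∧
      (∀ y ∈ S \ φ '' closedBall 0 (R - 1 / 2), Ω' y = Ω y) ∧
      ∀ z ∈ closedBall (0 : F × F) (R - 1),
        bq (pK (fderiv ℝ (fun z => φ (r z)) z) K) (Ω' (φ (r z))) = osum (hom P) η := by
  have hφ' : Continuous fun z => pK (fderiv ℝ φ z) K :=
    (ContinuousLinearMap.prodMapL ℝ (F × F) E K K).continuous.comp
      ((h.smφ.continuous_fderiv (by simp)).prodMk continuous_const)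
  have hψ' : Continuous fun y => pK (fderiv ℝ ψ y) K :=
    (ContinuousLinearMap.prodMapL ℝ E (F × F) K K).continuous.comp
      ((h.smψ.continuous_fderiv (by simp)).prodMk continuous_const)
  have hw : NDField (ball (0 : F × F) R) (fun _ => ⊤)
      fun z => bq (pK (fderiv ℝ φ z) K) (Ω (φ z)) := by
    refine hΩ.comp h.smφ.continuous.continuousOn (fun z hz => hb ⟨z, hz, rfl⟩) hφ'.continuousOn
      fun z hz => ⟨fun u _ => ⟨(h.bijOn hz).mapsTo trivial, trivial⟩, fun u _ v _ e => ?_,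
        fun v hv => ?_⟩
    · exact Prod.ext ((h.bijOn hz).injOn trivial trivial (congrArg Prod.fst e))
        (congrArg (fun x : E × K => x.2) e)
    · obtain ⟨u, -, hu⟩ := (h.bijOn hz).surjOn hv.1
      exact ⟨(u, v.2), trivial, Prod.ext hu rfl⟩
  obtain ⟨r, l, f, hl, hrl, hr'⟩ := hnorm_refl (K := K) hd P
  obtain ⟨γ, hγ, hn, h0, h1⟩ := ELI.nd_conn (ELI.ds_nd_osum hP.nd_hom hη)
    (hw.nd 0 (mem_ball_self (by linarith))) hl
  obtain ⟨k, hk, k1, k2⟩ := hnorm_ball hR hw hγ hn h0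
  obtain ⟨G, hG, g1, g2⟩ := h_patch (S := S) (T := fun x => pl (Tan W x) K) h.op
    (isCompact_closedBall (0 : F × F) (R - 1 / 2)) (closedBall_subset_ball (by linarith))
    h.smφ.continuous.continuousOn h.smψ.continuous.continuousOn
    (fun z hz => ⟨⟨hb ⟨z, hz, rfl⟩, (h.right z hz).1.2⟩, (h.right z hz).2⟩)
    (fun y hy => h.left y ⟨hS hy.1, hy.2⟩) hφ'.continuousOn hψ'.continuousOn
    (fun z hz => ⟨fun u => ⟨⟨(h.bijOn hz).mapsTo trivial, trivial⟩,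
      Prod.ext (h.left_inv hz _) rfl⟩, fun v hv => Prod.ext (h.right_inv hz hv.1) rfl⟩)
    (G₀ := fun q => Ω q.2)
    ⟨hΩ.cont.comp continuousOn_snd fun q hq => hq.2, fun q hq => hΩ.nd _ hq.2⟩
    (k := fun q => k q.2)
    ⟨hk.cont.comp continuousOn_snd fun q hq => hq.2, fun q hq => hk.nd _ hq.2⟩
    fun t _ z hz => k2 z (le_of_lt (by simpa using hz.2))
  have i0 : (0 : ℝ) ∈ Icc (0 : ℝ) 1 := ⟨le_rfl, zero_le_one⟩
  have hG0 : NDField S (fun x => pl (Tan W x) K) fun y => G (0, y) :=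
    ⟨hG.cont.comp (by fun_prop) fun y hy => ⟨i0, hy⟩, fun y hy => hG.nd (0, y) ⟨i0, hy⟩⟩
  have g3 : ∀ z : F × F, ‖z‖ ≤ R - 1 → bq (pK (fderiv ℝ φ z) K) (G (0, φ z)) = γ 1 :=
    fun z hz => (g1 0 i0 z (mem_ball_zero_iff.2 (by linarith))).trans (k1 z hz)
  rcases h1 with h1 | h1
  · exact ⟨ContinuousLinearEquiv.refl ℝ _, fun y => G (0, y), fun z => ⟨rfl, rfl, rfl⟩, hG0,
      g2 0 i0, fun z hz => (g3 z (mem_closedBall_zero_iff.1 hz)).trans h1⟩
  refine ⟨r, fun y => G (0, y), fun z => (hr' z).2, hG0, g2 0 i0, fun z hz => ?_⟩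
  have h2 := (g3 (r z) ((hr' z).2.1.trans_le (mem_closedBall_zero_iff.1 hz))).trans h1
  have h3 : fderiv ℝ (fun z => φ (r z)) z = (fderiv ℝ φ (r z)).comp (r : F × F →L[ℝ] F × F) :=
    ((h.smφ.differentiable (by simp) (r z)).hasFDerivAt.comp z r.hasFDerivAt).fderiv
  refine ContinuousLinearMap.ext fun u => ContinuousLinearMap.ext fun v => ?_
  have h4 := congrArg (fun w : Bil ((F × F) × K) => w (r u.1, u.2) (r v.1, v.2)) h2
  have h5 : ∀ u : (F × F) × K, (ContinuousLinearMap.id ℝ ((F × F) × K) -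
      (2 : ℝ) • l.smulRight f : (F × F) × K →L[ℝ] (F × F) × K) (r u.1, u.2) = u := fun u => by
    have h6 := hrl (r u.1, u.2)
    rw [(hr' u.1).1] at h6
    exact h6
  rw [h3]
  refine Eq.trans h4 ?_
  exact congrArg₂ (fun a b => osum (hom P) η a b) (h5 u) (h5 v)

end Pool.Agent.Lib.MP_ccffa6_gt
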