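import Pool.Agent.Lib.MP_ccffa6_gt.ELI.HStep
import Pool.Agent.Lib.MP_ccffa6_gt.ELI.HNorm

/-! One handle. -/

open Set Filter Topology Metric
open scoped ContDiff RealInnerProductSpace

noncomputable section

namespace Pool.Agent.Lib.MP_ccffa6_gt

variable {E : Type} [NormedAddCommGroup E] [NormedSpace ℝ E] [FiniteDimensional ℝ E]
  {K : Type} [NormedAddCommGroup K] [NormedSpace ℝ K] [FiniteDimensional ℝ K]
  {F : Type} [NormedAddCommGroup F] [InnerProductSpace ℝ F] [FiniteDimensional ℝ F]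
  {n : ℕ} {η : Bil K} {W O N N' : Set E} {g j : E → ℝ} {P : F →L[ℝ] F} {R δ : ℝ} {Q : F × F → ℝ}
  {φ : F × F → E} {ψ : E → F × F} {Ω : E → Bil (E × K)} {Y Y₀ : E → E} {Φ : ℝ → E → E}

theorem hone_bd (hP : OPr P) {z : F × F} (hz : z ∈ ball (0 : F × F) R) :
    hs P z + hr P z < 2 * R ^ 2 := by
  have h1 := (hP.sq_le z).2
  have h2 : ‖z‖ < R := mem_ball_zero_iff.1 hz
  have h3 := norm_nonneg z
  nlinarith

omit [FiniteDimensional ℝ E] in
theorem hone_cpt {a b a' b' : ℝ} (hg : ContDiff ℝ ∞ g) (h : IsCompact (HSl W g a b)) (ha : a ≤ a')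
    (hb : b' ≤ b) : IsCompact (HSl W g a' b') := by
  have e : HSl W g a' b' = HSl W g a b ∩ g ⁻¹' Icc a' b' := by
    ext x
    exact ⟨fun hx => ⟨⟨hx.1, ha.trans hx.2.1, hx.2.2.trans hb⟩, hx.2⟩, fun hx => ⟨hx.1.1, hx.2⟩⟩
  rw [e]
  exact h.inter_right (isClosed_Icc.preimage hg.continuous)

omit [NormedAddCommGroup E] [NormedSpace ℝ E] [FiniteDimensional ℝ E] in
theorem hone_sub {a b a' b' : ℝ} (ha : a ≤ a') (hb : b' ≤ b) : HSl W g a' b' ⊆ HSl W g a b :=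
  fun _ hx => ⟨hx.1, ha.trans hx.2.1, hx.2.2.trans hb⟩

/-- Lowering. `g = f + G`, `G` the push forward of `Q - (hr - hs)` (`HCh.exists_push`,
`r = R - 2`). On `φ '' closedBall 0 (R - 2)` both `f` and `g` lie in `(-4 R², 4 R²)`
(`OPr.sq_le`, `bd`, `5 ≤ R`), elsewhere `g = f` near the point in `W`. -/
theorem hone_lower (hP : OPr P) (hm : HMod P R Q) (hc : HCh W φ ψ O R) {f : E → ℝ}
    (hf : ContDiff ℝ ∞ f) (val : ∀ z ∈ ball (0 : F × F) R, f (φ z) = hr P z - hs P z) :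
    ∃ g : E → ℝ, ContDiff ℝ ∞ g ∧ (∀ z ∈ ball (0 : F × F) R, g (φ z) = Q z) ∧
      HSl W g (-(4 * R ^ 2)) (4 * R ^ 2) = HSl W f (-(4 * R ^ 2)) (4 * R ^ 2) ∧
      (∀ c, c = -(4 * R ^ 2) ∨ c = 4 * R ^ 2 → Lev W g c = Lev W f c ∧ Disjoint (Lev W f c) O) ∧
      ∀ y ∈ W, y ∉ O → ∀ v ∈ Tan W y, fderiv ℝ g y v = fderiv ℝ f y v := by
  have hR := hm.big
  obtain ⟨G, hG, -, hv, h0, -⟩ := hc.exists_push (r := R - 2) (by linarith)
    (k := fun z => Q z - (hr P z - hs P z)) (hm.sm.sub (contDiff_hr.sub contDiff_hs))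
    fun z hz => by rw [hm.out z hz, sub_self]
  have hval : ∀ z ∈ ball (0 : F × F) R, f (φ z) + G (φ z) = Q z := fun z hz => by
    rw [val z hz, hv z hz]; ring
  have hout : ∀ y ∈ W, y ∉ O → ∀ᶠ y' in 𝓝[W] y, G y' = 0 := by
    intro y hy hO
    refine h0 y hy ?_
    rintro ⟨z, hz, rfl⟩
    exact hO (hc.right z (closedBall_subset_ball (by linarith) hz)).1.2
  have hout' : ∀ y ∈ W, y ∉ O → f y + G y = f y := fun y hy hO => by
    rw [(hout y hy hO).self_of_nhdsWithin hy, add_zero]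
  have hin : ∀ y ∈ W, y ∈ O → f y ∈ Ioo (-(4 * R ^ 2)) (4 * R ^ 2) ∧
      f y + G y ∈ Ioo (-(4 * R ^ 2)) (4 * R ^ 2) := by
    intro y hy hO
    obtain ⟨hz, e⟩ := hc.left y ⟨hy, hO⟩
    have h1 := hone_bd hP hz
    have h2 := hs_nonneg (P := P) (ψ y)
    have h3 := hr_nonneg (P := P) (ψ y)
    have h4 := hm.bd (ψ y)
    have h5 := val _ hz
    have h6 := hval _ hz
    rw [e] at h5 h6
    rw [h6, h5]
    refine ⟨⟨?_, ?_⟩, ?_, ?_⟩ <;> nlinarith [h4.1, h4.2]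
  refine ⟨fun y => f y + G y, hf.add hG, hval, ?_, fun c hc' => ⟨?_, ?_⟩, fun y hy hO v hv => ?_⟩
  · ext y
    refine and_congr_right fun hy => ?_
    by_cases hO : y ∈ O
    · exact iff_of_true (Ioo_subset_Icc_self (hin y hy hO).2) (Ioo_subset_Icc_self (hin y hy hO).1)
    · simp only [mem_preimage, hout' y hy hO]
  · ext y
    refine and_congr_right fun hy => ?_
    by_cases hO : y ∈ O
    · obtain ⟨h1, h2⟩ := hin y hy hO
      refine iff_of_false (fun e : f y + G y = c => ?_) fun e : f y = c => ?_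
      · rcases hc' with rfl | rfl
        · exact h2.1.ne' e
        · exact h2.2.ne e
      · rcases hc' with rfl | rfl
        · exact h1.1.ne' e
        · exact h1.2.ne e
    · simp only [mem_preimage, hout' y hy hO]
  · refine Set.disjoint_left.2 fun y hy hO => ?_
    have h1 := (hin y hy.1 hO).1
    have e : f y = c := hy.2
    rcases hc' with rfl | rfl
    · exact h1.1.ne' e
    · exact h1.2.ne e
  · refine Tan.fderiv_congr hy ((hf.add hG).differentiable (by simp) y)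
      (hf.differentiable (by simp) y) ?_ hv
    filter_upwards [hout y hy hO] with y' hy'
    rw [hy', add_zero]

/-- `HCh.exists_norm` (with `S` the slab), `HCh.comp`, `hone_lower` for the new chart, `HData`;
`KG.congr`, `h_prod` on `[-4 R², -2]`, `h_step`, `h_prod` on `[-1/2, 4 R²]`, `KG.congr`.
Regular points: outside `O` by `reg`, in `O` by `HData.dg_pos`. -/
theorem h_one (hT : TubeH n) (hn : 1 ≤ n) (hW : IsSub (2 * n + 2) W) (hP : OPr P)
    (hd : Module.finrank ℝ F = n + 1) (hm : HMod P R Q) (hc : HCh W φ ψ O R) {f : E → ℝ}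
    (hf : ContDiff ℝ ∞ f) (val : ∀ z ∈ ball (0 : F × F) R, f (φ z) = hr P z - hs P z)
    (cpt : IsCompact (HSl W f (-(4 * R ^ 2)) (4 * R ^ 2)))
    (reg : ∀ x ∈ HSl W f (-(4 * R ^ 2)) (4 * R ^ 2), x ∉ O → ∃ v ∈ Tan W x, fderiv ℝ f x v ≠ 0)
    (hη : ND ⊤ η) (hΩ : NDField (HSl W f (-(4 * R ^ 2)) (4 * R ^ 2)) (fun x => pl (Tan W x) K) Ω)
    (hK : KG n η W f (-(4 * R ^ 2)) Ω) : KG n η W f (4 * R ^ 2) Ω := by
  have hR := hm.big
  have hb : φ '' ball 0 R ⊆ HSl W f (-(4 * R ^ 2)) (4 * R ^ 2) := by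
    rintro _ ⟨z, hz, rfl⟩
    have h1 := hone_bd hP hz
    have h2 := hs_nonneg (P := P) z
    have h3 := hr_nonneg (P := P) z
    refine ⟨(hc.right z hz).1.1, ?_⟩
    rw [mem_preimage, val z hz]
    constructor <;> nlinarith
  obtain ⟨r, Ω', hr', hΩ', he, hnm⟩ := hc.exists_norm (by linarith) (by omega) hP hη
    (S := HSl W f (-(4 * R ^ 2)) (4 * R ^ 2)) inter_subset_left hb hΩ
  have hc' := hc.comp r fun z => (hr' z).1
  obtain ⟨g, hg, hv, eS, eL, eD⟩ := hone_lower hP hm hc' hf fun z hz => by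
    rw [val (r z) (by rwa [mem_ball_zero_iff, (hr' z).1, ← mem_ball_zero_iff]), (hr' z).2.1,
      (hr' z).2.2]
  have hR2 : (25 : ℝ) ≤ R ^ 2 := by nlinarith
  rw [← eS] at cpt reg hΩ'
  have reg' : ∀ x ∈ HSl W g (-(4 * R ^ 2)) (4 * R ^ 2), x ∉ O →
      ∃ v ∈ Tan W x, fderiv ℝ g x v ≠ 0 := by
    intro x hx hO
    obtain ⟨v, hv1, hv2⟩ := reg x hx hO
    exact ⟨v, hv1, by rwa [eD x hx.1 hO v hv1]⟩
  have hD : HData n η W g P R Q (fun z => φ (r z)) (fun y => r.symm (ψ y)) O Ω' :=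
    ⟨hW, hg, hd, hP, hm, hc', hv, hone_cpt hg cpt (by linarith) (by linarith),
      fun x hx => reg' x (hone_sub (by linarith) (by linarith) hx), hη,
      hΩ'.hmono (hone_sub (by linarith) (by linarith)), fun z hz _ => hnm z hz⟩
  have reg2 : ∀ x ∈ HSl W g (-(4 * R ^ 2)) (4 * R ^ 2), g x ≠ -1 →
      ∃ v ∈ Tan W x, fderiv ℝ g x v ≠ 0 := by
    intro x hx h1
    by_cases hO : x ∈ O
    · obtain ⟨hz, e⟩ := hc'.left x ⟨hx.1, hO⟩
      have h2 := hD.dg_pos hz (by rwa [e])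
      have h3 := (hc'.bijOn hz).mapsTo (x := hX P (r.symm (ψ x))) trivial
      rw [e] at h2 h3
      exact ⟨_, h3, h2.ne'⟩
    · exact reg' x hx hO
  have eΩ : ∀ c, c = -(4 * R ^ 2) ∨ c = 4 * R ^ 2 → ∀ x ∈ Lev W f c, Ω' x = Ω x := by
    intro c hc0 x hx
    refine he x ⟨⟨hx.1, ?_⟩, ?_⟩
    · rw [mem_preimage, show f x = c from hx.2]
      rcases hc0 with rfl | rfl <;> constructor <;> linarith
    · rintro ⟨z, hz, rfl⟩
      exact Set.disjoint_left.1 (eL c hc0).2 hx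
        (hc.right z (closedBall_subset_ball (by linarith) hz)).1.2
  have k1 : KG n η W g (-(4 * R ^ 2)) Ω' :=
    hK.congr hf one_pos (eL _ (Or.inl rfl)).1
      (fun x hx v hv => by
        rw [one_mul, eD x hx.1 (Set.disjoint_left.1 (eL _ (Or.inl rfl)).2 hx) v hv])
      fun x hx u _ v _ => by rw [eΩ _ (Or.inl rfl) x hx]
  have k2 : KG n η W g (-2) Ω' :=
    h_prod hW hg (by linarith) (hone_cpt hg cpt le_rfl (by linarith))
      (fun x hx => reg2 x (hone_sub le_rfl (by linarith) hx) fun e => by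
        have := hx.2.2; linarith) hη (hΩ'.hmono (hone_sub le_rfl (by linarith))) k1
  have k3 : KG n η W g (4 * R ^ 2) Ω' :=
    h_prod hW hg (by linarith) (hone_cpt hg cpt (by linarith) le_rfl)
      (fun x hx => reg2 x (hone_sub (by linarith) le_rfl hx) fun e => by
        have := hx.2.1; linarith) hη (hΩ'.hmono (hone_sub (by linarith) le_rfl))
      (h_step hT hn hD k2)
  have e1 := (eL _ (Or.inr rfl)).1
  refine k3.congr hg one_pos e1.symm (fun x hx v hv => ?_) fun x hx u _ v _ => ?_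
  · rw [e1] at hx
    rw [one_mul, eD x hx.1 (Set.disjoint_left.1 (eL _ (Or.inr rfl)).2 hx) v hv]
  · rw [e1] at hx
    rw [eΩ _ (Or.inr rfl) x hx]

/-- `exists_split`, `exists_hMod`, `τ = ρ / (2 R)`, `hCh_of_exact`, `h_one` for
`(f - f p) / τ²`, `KG.congr`, `qG_iff`. -/
theorem h1_of_tubeH (hT : TubeH n) (hn : 1 ≤ n) : ELI.H1Stmt n := by
  intro E _ _ _ K _ _ _ η W f Ω p i j φ ψ O ρ hη hW hf hρ hi hij hφ hψ hp hO e l cpt reg hΩ hQ
  obtain ⟨P, L, hP, hL⟩ := exists_split hi hij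
  obtain ⟨R, Q, hm⟩ := hP.exists_hMod
  have hR := hm.big
  have hR0 : 0 < R := by linarith
  obtain ⟨τ, hτ0, hτ⟩ : ∃ τ : ℝ, 0 < τ ∧ τ * (2 * R) = ρ :=
    ⟨ρ / (2 * R), by positivity, by field_simp⟩
  have hρ2 : ρ ^ 2 = τ ^ 2 * (4 * R ^ 2) := by rw [← hτ]; ring
  have hτ2 : 0 < τ ^ 2 := by positivity
  have hLb : ∀ z ∈ ball (0 : Rd (n + 1) × Rd (n + 1)) R,
      τ • L z ∈ ball (0 : Rd i × Rd j) (3 * ρ) := by
    intro z hz
    have h1 := hone_bd hP hz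
    have h2 := hs_nonneg (P := P) z
    have h3 := hr_nonneg (P := P) z
    have h4 : ‖L z‖ < 2 * R := by
      rw [Prod.norm_def, max_lt_iff]
      constructor
      · exact lt_of_pow_lt_pow_left₀ 2 (by linarith) (by rw [(hL z).1]; nlinarith)
      · exact lt_of_pow_lt_pow_left₀ 2 (by linarith) (by rw [(hL z).2]; nlinarith)
    rw [mem_ball_zero_iff, norm_smul, Real.norm_of_nonneg hτ0.le]
    nlinarith
  obtain ⟨O', -, hc⟩ := hCh_of_exact hφ hψ hO hτ0.ne' e (fun z hz => (l z hz).1) L hLb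
  have hg : ContDiff ℝ ∞ fun x => (τ ^ 2)⁻¹ * (f x - f p) :=
    contDiff_const.mul (hf.sub contDiff_const)
  have hD : ∀ x v, fderiv ℝ (fun x => (τ ^ 2)⁻¹ * (f x - f p)) x v =
      (τ ^ 2)⁻¹ * fderiv ℝ f x v := by
    intro x v
    rw [(((hf.differentiable (by simp) x).hasFDerivAt.sub_const (f p)).const_mul (τ ^ 2)⁻¹).fderiv]
    rfl
  have eS : HSl W (fun x => (τ ^ 2)⁻¹ * (f x - f p)) (-(4 * R ^ 2)) (4 * R ^ 2) =
      W ∩ f ⁻¹' Icc (f p - ρ ^ 2) (f p + ρ ^ 2) := by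
    ext x
    refine and_congr_right fun _ => ?_
    simp only [mem_preimage, mem_Icc]
    rw [le_inv_mul_iff₀ hτ2, inv_mul_le_iff₀ hτ2, hρ2]
    constructor <;> rintro ⟨h1, h2⟩ <;> constructor <;> linarith
  have eL : ∀ c, Lev W (fun x => (τ ^ 2)⁻¹ * (f x - f p)) c = Lev W f (f p + τ ^ 2 * c) := by
    intro c
    ext x
    refine and_congr_right fun _ => ?_
    simp only [mem_preimage, mem_singleton_iff]
    rw [inv_mul_eq_iff_eq_mul₀ hτ2.ne', sub_eq_iff_eq_add']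
  have k1 : KG n η W (fun x => (τ ^ 2)⁻¹ * (f x - f p)) (-(4 * R ^ 2)) Ω :=
    ((qG_iff hW hf hη).1 hQ).congr hf (inv_pos.2 hτ2)
      (by rw [eL, hρ2, mul_neg, sub_eq_add_neg]) (fun x _ v _ => hD x v) fun _ _ _ _ _ _ => rfl
  have k2 := h_one hT hn hW hP finrank_euclideanSpace_fin hm hc hg (fun z hz => by
      rw [(l _ (hLb z hz)).2, Prod.smul_fst, Prod.smul_snd, norm_smul, norm_smul,
        Real.norm_of_nonneg hτ0.le, mul_pow, mul_pow, (hL z).1, (hL z).2]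
      field_simp
      ring)
    (by rwa [eS]) (fun x hx hxO => by
      rw [eS] at hx
      obtain ⟨v, hv, h⟩ := reg x hx fun h => hxO (by
        have := (hc.right 0 (mem_ball_self hR0)).1.2
        rwa [map_zero, smul_zero, hp, ← h] at this)
      exact ⟨v, hv, by rw [hD]; exact mul_ne_zero (inv_ne_zero hτ2.ne') h⟩)
    hη (by rwa [eS]) k1
  refine (qG_iff hW hf hη).2 (k2.congr hg hτ2 (by rw [eL, hρ2]) (fun x _ v _ => ?_)
    fun _ _ _ _ _ _ => rfl)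
  rw [hD, mul_inv_cancel_left₀ hτ2.ne']

end Pool.Agent.Lib.MP_ccffa6_gt
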