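import Pool.Agent.Lib.MP_ccffa6_gt.ELI.HAlg

/-! The projection to the cylinder along the Liouville flow. -/

open Set Filter Topology Metric
open scoped ContDiff RealInnerProductSpace

noncomputable section

namespace Pool.Agent.Lib.MP_ccffa6_gt

variable {F : Type} [NormedAddCommGroup F] [InnerProductSpace ℝ F] [FiniteDimensional ℝ F]
  {P : F →L[ℝ] F}

omit [FiniteDimensional ℝ F] in
theorem hpi_pos {p : F × F} (hp : hs P p ≠ 0) : 0 < ‖P p.1‖ :=
  (norm_nonneg _).lt_of_ne fun h => hp (by rw [hs, ← h]; norm_num)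

omit [FiniteDimensional ℝ F] in
theorem hpi_norm {p : F × F} (hp : hs P p ≠ 0) : ContDiffAt ℝ ∞ (fun z : F × F => ‖P z.1‖) p :=
  (P.contDiff.comp contDiff_fst).contDiffAt.norm ℝ (norm_pos_iff.1 (hpi_pos hp))

omit [FiniteDimensional ℝ F] in
theorem hpi_sqrt (p : F × F) : √(hs P p) = ‖P p.1‖ := Real.sqrt_sq (norm_nonneg _)

theorem hpi_dX (h : OPr P) {p : F × F} (hp : hs P p ≠ 0) :
    fderiv ℝ (fun z : F × F => ‖P z.1‖) p (hX P p) = -‖P p.1‖ := by
  have d := ((hpi_norm hp).differentiableAt (by simp)).hasFDerivAt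
  have e := h.fderiv_hs p (hX P p)
  rw [h.hsg_X, show hs P = fun z : F × F => ‖P z.1‖ * ‖P z.1‖ from funext fun z => sq _,
    (d.fun_mul d).fderiv] at e
  simp only [add_apply, smul_apply, smul_eq_mul] at e
  refine mul_left_cancel₀ (hpi_pos hp).ne' ?_
  linarith

omit [FiniteDimensional ℝ F] in
theorem hpi_fderiv {p : F × F} (hp : hs P p ≠ 0) (u : F × F) {r t l : ℝ} (hr : r = ‖P p.1‖)
    (ht : t = √‖P p.1‖) (hl : l = fderiv ℝ (fun z : F × F => ‖P z.1‖) p u) :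
    fderiv ℝ (hpi P) p u =
      ((r⁻¹ • P u.1 - (r⁻¹ ^ 2 * l) • P p.1) + (t • (u.1 - P u.1) + (l / (2 * t)) • (p.1 - P p.1)),
        (r ^ 2 • P u.2 + (2 * r * l) • P p.2) +
          (t • (u.2 - P u.2) + (l / (2 * t)) • (p.2 - P p.2))) := by
  have r0 := hpi_pos hp
  have d := ((hpi_norm hp).differentiableAt (by simp)).hasFDerivAt
  have d₁ := (hasDerivAt_inv r0.ne').comp_hasFDerivAt p d
  have d₂ := d.sqrt r0.ne'
  have d₃ := d.pow 2
  have a₁ := (P.comp (ContinuousLinearMap.fst ℝ F F)).hasFDerivAt (x := p)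
  have a₂ := (P.comp (ContinuousLinearMap.snd ℝ F F)).hasFDerivAt (x := p)
  have D := ((d₁.fun_smul a₁).fun_add (d₂.fun_smul (hasFDerivAt_fst.fun_sub a₁))).prodMk
    ((d₃.fun_smul a₂).fun_add (d₂.fun_smul (hasFDerivAt_snd.fun_sub a₂)))
  rw [show fderiv ℝ (hpi P) p = _ from D.fderiv, hr, ht, hl]
  refine Prod.ext ?_ ?_
  · simp
    module
  · simp
    module

omit [FiniteDimensional ℝ F] in
theorem hpi_c (h : OPr P) (a : F) : P (a - P a) = 0 := by rw [map_sub, h.idem, sub_self]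

theorem hpi_lam (h : OPr P) (z w : F × F) : hlam P z w = 2 * ⟪P z.2, P w.1⟫ -
    ⟪z.2 - P z.2, w.1 - P w.1⟫ / 2 + ⟪P z.1, P w.2⟫ + ⟪z.1 - P z.1, w.2 - P w.2⟫ / 2 := by
  have e : ∀ a b, ⟪P a, P b⟫ = ⟪a, P b⟫ := fun a b => by rw [h.symm, h.idem]
  have f : ⟪P w.2, z.1⟫ = ⟪z.1, P w.2⟫ := real_inner_comm _ _
  have g : ⟪w.2, P z.1⟫ = ⟪z.1, P w.2⟫ := by rw [← h.symm, f]
  have k : ⟪P z.2, w.1⟫ = ⟪z.2, P w.1⟫ := h.symm _ _
  have m : ⟪P z.1, w.2⟫ = ⟪z.1, P w.2⟫ := h.symm _ _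
  rw [hlam, hom_apply, hX_apply]
  simp only [map_add, map_smul, h.idem, inner_add_left, inner_sub_left, inner_sub_right,
    real_inner_smul_left, real_inner_smul_right, e, f, g, k, m, real_inner_comm z.1 w.2]
  ring

theorem contDiffAt_hpi {p : F × F} (hp : hs P p ≠ 0) : ContDiffAt ℝ ∞ (hpi P) p := by
  have n := hpi_norm hp
  have r0 := hpi_pos hp
  have a₁ : ContDiffAt ℝ ∞ (fun z : F × F => P z.1) p := (P.contDiff.comp contDiff_fst).contDiffAt
  have a₂ : ContDiffAt ℝ ∞ (fun z : F × F => P z.2) p := (P.contDiff.comp contDiff_snd).contDiffAt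
  exact (((n.inv r0.ne').smul a₁).add ((n.sqrt r0.ne').smul (contDiffAt_fst.sub a₁))).prodMk
    (((n.pow 2).smul a₂).add ((n.sqrt r0.ne').smul (contDiffAt_snd.sub a₂)))

theorem OPr.hpi_mem (h : OPr P) {p : F × F} (hp : hs P p ≠ 0) : hpi P p ∈ hCyl P := by
  have r0 := hpi_pos hp
  show ‖P (hpi P p).1‖ ^ 2 = 1
  simp only [hpi, map_add, map_smul, h.idem, hpi_c h, smul_zero, add_zero, norm_smul, norm_inv,
    norm_norm, inv_mul_cancel₀ r0.ne', one_pow]

theorem OPr.hpi_self (h : OPr P) {p : F × F} (hp : p ∈ hCyl P) : hpi P p = p := by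
  have e : ‖P p.1‖ = 1 := by rw [← hpi_sqrt, show hs P p = 1 from hp, Real.sqrt_one]
  simp [hpi, e]

/-- the projection is constant along the flow -/
theorem OPr.fderiv_hpi_X (h : OPr P) {p : F × F} (hp : hs P p ≠ 0) :
    fderiv ℝ (hpi P) p (hX P p) = 0 := by
  have r0 := hpi_pos hp
  have t0 : 0 < √‖P p.1‖ := Real.sqrt_pos.2 r0
  have e := Real.mul_self_sqrt r0.le
  rw [hpi_fderiv hp _ rfl rfl (hpi_dX h hp).symm, hX_apply]
  generalize √‖P p.1‖ = t at t0 e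
  rw [← e]
  refine Prod.ext ?_ ?_ <;>
    simp only [map_add, map_sub, map_smul, h.idem, Prod.fst_zero, Prod.snd_zero] <;>
    match_scalars <;> field_simp <;> ring

/-- the pull-back of the Liouville form -/
theorem OPr.hlam_hpi (h : OPr P) {p : F × F} (hp : hs P p ≠ 0) (u : F × F) :
    hlam P (hpi P p) (fderiv ℝ (hpi P) p u) = √(hs P p) * hlam P p u := by
  have r0 := hpi_pos hp
  have t0 : 0 < √‖P p.1‖ := Real.sqrt_pos.2 r0
  have e := Real.mul_self_sqrt r0.le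
  rw [hpi_fderiv hp u rfl rfl rfl, hpi_sqrt, hpi_lam h, hpi_lam h, hpi]
  generalize fderiv ℝ (fun z : F × F => ‖P z.1‖) p u = l
  generalize √‖P p.1‖ = t at t0 e
  rw [← e]
  simp only [map_add, map_sub (f := P) (_ • _), map_smul, h.idem, hpi_c h, smul_zero, add_zero,
    add_sub_cancel_left]
  generalize p.1 - P p.1 = x
  generalize p.2 - P p.2 = y
  generalize u.1 - P u.1 = x'
  generalize u.2 - P u.2 = y'
  simp only [inner_add_right, inner_sub_right, real_inner_smul_left, real_inner_smul_right,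
    real_inner_comm x y, real_inner_comm (P p.1) (P p.2)]
  field_simp
  ring

/-- the factor `1 / |q|` grows along `X` -/
theorem OPr.fderiv_inv_X (h : OPr P) {p : F × F} (hp : hs P p ≠ 0) :
    ContDiffAt ℝ ∞ (fun z => (√(hs P z))⁻¹) p ∧
      fderiv ℝ (fun z => (√(hs P z))⁻¹) p (hX P p) = (√(hs P p))⁻¹ := by
  have r0 := hpi_pos hp
  simp only [hpi_sqrt]
  refine ⟨(hpi_norm hp).inv r0.ne', ?_⟩
  have d := ((hpi_norm hp).differentiableAt (by simp)).hasFDerivAt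
  rw [show fderiv ℝ (fun z : F × F => ‖P z.1‖⁻¹) p = _ from
    ((hasDerivAt_inv r0.ne').comp_hasFDerivAt p d).fderiv, smul_apply, hpi_dX h hp, smul_eq_mul]
  field_simp

end Pool.Agent.Lib.MP_ccffa6_gt
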