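import Pool.Agent.Lib.MP_ccffa6_gt.ELI.HDef
import Pool.Agent.Lib.MP_ccffa6_gt.K.Main
import Pool.Agent.Lib.MP_ccffa6_gt.K.Flow

/-! The invariant `QG` along regular levels. -/

open Set Filter Topology
open scoped ContDiff

noncomputable section

namespace Pool.Agent.Lib.MP_ccffa6_gt.ELI

variable {E : Type} [NormedAddCommGroup E] [NormedSpace ℝ E] [FiniteDimensional ℝ E]
  {K : Type} [NormedAddCommGroup K] [NormedSpace ℝ K] [FiniteDimensional ℝ K]

theorem hreg_tan {e : ℕ} {W : Set E} {f : E → ℝ} (hW : IsSub (e + 1) W) (hf : ContDiff ℝ ∞ f)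
    {c : ℝ} {x ν : E} (hx : x ∈ Lev W f c) (hν : ν ∈ Tan W x ∧ fderiv ℝ f x ν = 1) (v : E) :
    v ∈ Tan (Lev W f c) x ↔ v ∈ Tan W x ∧ fderiv ℝ f x v = 0 := by
  have e1 : fderiv ℝ (fun y => f y - c) x = fderiv ℝ f x := fderiv_sub_const c
  have h := (Chart.level (e := e) hW (G := fun y => f y - c) (hf.sub contDiff_const) (by simp) hx.1
    (sub_eq_zero.2 hx.2) fun w => ⟨w • ν, Submodule.smul_mem _ _ hν.1, by simp [e1, hν.2]⟩).2 v
  have e2 : W ∩ (fun y => f y - c) ⁻¹' {0} = Lev W f c := by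
    ext y
    simp [Lev, sub_eq_zero]
  rwa [e2, e1] at h

theorem hreg_bij {e : ℕ} {W : Set E} {f : E → ℝ} (hW : IsSub (e + 1) W) (hf : ContDiff ℝ ∞ f)
    {c : ℝ} {x ν : E} (hx : x ∈ Lev W f c) (hν : ν ∈ Tan W x ∧ fderiv ℝ f x ν = 1) :
    BijOn (incl ν K) (pl (T1 (Lev W f c) x) K) (pl (Tan W x) K) := by
  have ht := hreg_tan hW hf hx hν
  refine ⟨fun v hv => ?_, fun v hv w hw e => ?_, fun w hw => ?_⟩
  · have h1 := (ht _).1 (mem_T1.1 (mem_pl.1 hv))
    exact mem_pl.2 (by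
      rw [incl_apply]
      exact Submodule.add_mem _ h1.1 (Submodule.smul_mem _ _ hν.1))
  · have h1 := (ht _).1 (mem_T1.1 (mem_pl.1 hv))
    have h2 := (ht _).1 (mem_T1.1 (mem_pl.1 hw))
    rw [incl_apply, incl_apply, Prod.mk.injEq] at e
    have h3 := congrArg (fderiv ℝ f x) e.1
    simp only [map_add, map_smul, h1.2, h2.2, hν.2, smul_eq_mul, mul_one, zero_add] at h3
    have h4 := e.1
    rw [h3, add_left_inj] at h4
    exact Prod.ext (Prod.ext h4 h3) e.2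
  · have h1 : w.1 ∈ Tan W x := mem_pl.1 hw
    refine ⟨((w.1 - fderiv ℝ f x w.1 • ν, fderiv ℝ f x w.1), w.2), ?_, by simp⟩
    exact mem_pl.2 (mem_T1.2 ((ht _).2
      ⟨Submodule.sub_mem _ h1 (Submodule.smul_mem _ _ hν.1), by simp [hν.2]⟩))

theorem hreg_cont_incl : Continuous fun ν : E => incl ν K := by
  refine continuous_clm_apply.2 fun v => ?_
  simp only [incl_apply]
  fun_prop

/-- The class induced on a level does not depend on the transverse field. -/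
theorem hreg_nu {e : ℕ} {W : Set E} {f : E → ℝ} (hW : IsSub (e + 1) W) (hf : ContDiff ℝ ∞ f)
    {c : ℝ} {Ω : E → Bil (E × K)} (hΩ : NDField (Lev W f c) (fun x => pl (Tan W x) K) Ω)
    {ν ν' : E → E} (h : ContinuousOn ν (Lev W f c)) (h' : ContinuousOn ν' (Lev W f c))
    (hν : ∀ x ∈ Lev W f c, ν x ∈ Tan W x ∧ fderiv ℝ f x (ν x) = 1)
    (hν' : ∀ x ∈ Lev W f c, ν' x ∈ Tan W x ∧ fderiv ℝ f x (ν' x) = 1) :
    NDHtpy (Lev W f c) (fun x => pl (T1 (Lev W f c) x) K)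
      (fun x => (Ω x).bilinearComp (incl (ν x) K) (incl (ν x) K))
      (fun x => (Ω x).bilinearComp (incl (ν' x) K) (incl (ν' x) K)) := by
  have := NDField.comp_htpy (S := Lev W f c) (T := fun x => pl (T1 (Lev W f c) x) K) hΩ
    (r := Prod.snd) continuousOn_snd (fun q hq => hq.2)
    (Φ := fun q => incl ((1 - q.1) • ν q.2 + q.1 • ν' q.2) K)
    (hreg_cont_incl.comp_continuousOn
      (((continuousOn_const.sub continuousOn_fst).smul
        (h.comp continuousOn_snd fun q hq => hq.2)).add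
        (continuousOn_fst.smul (h'.comp continuousOn_snd fun q hq => hq.2))))
    fun q hq => hreg_bij hW hf hq.2
      ⟨Submodule.add_mem _ (Submodule.smul_mem _ _ (hν _ hq.2).1)
        (Submodule.smul_mem _ _ (hν' _ hq.2).1), by simp [(hν _ hq.2).2, (hν' _ hq.2).2]⟩
  simpa using this

omit [FiniteDimensional ℝ E] [FiniteDimensional ℝ K] in
theorem NDField.mono' {X : Type} [TopologicalSpace X] {S S' : Set X} {T : X → Submodule ℝ E}
    {Ω : X → Bil E} (h : NDField S T Ω) (hS : S' ⊆ S) : NDField S' T Ω :=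
  ⟨h.cont.mono hS, fun x hx => h.nd x (hS hx)⟩

open Pool.Agent.Lib.MP_45f3cb_gt in
/-- No critical point between two levels. -/
theorem QG.reg {n : ℕ} {η : Bil K} {W : Set E} {f : E → ℝ} {Ω : E → Bil (E × K)} {a b : ℝ}
    (hW : IsSub (2 * n + 2) W) (hf : ContDiff ℝ ∞ f) (hab : a ≤ b)
    (hc : IsCompact (W ∩ f ⁻¹' Icc a b))
    (hr : ∀ x ∈ W ∩ f ⁻¹' Icc a b, ∃ v ∈ Tan W x, fderiv ℝ f x v ≠ 0)
    (hΩ : NDField (W ∩ f ⁻¹' Icc a b) (fun x => pl (Tan W x) K) Ω) (h : QG n η W f Ω a) :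
    QG n η W f Ω b := by
  obtain ⟨β, ν, h1, h2, h3, h4, h5⟩ := h
  obtain ⟨Y, Φ, hΦ, hY, hm⟩ := exists_level_flow hW hf hab hc hr
  have hY' : Continuous Y := hΦ.smY.continuous
  have sub : ∀ c ∈ Icc a b, Lev W f c ⊆ W ∩ f ⁻¹' Icc a b := fun c hc x hx =>
    ⟨hx.1, by rwa [mem_preimage, show f x = c from hx.2]⟩
  have ha : a ∈ Icc a b := ⟨le_rfl, hab⟩
  have hb : b ∈ Icc a b := ⟨hab, le_rfl⟩
  have mp : ∀ c ∈ Icc a b, ∀ c' ∈ Icc a b, MapsTo (Φ (c' - c)) (Lev W f c) (Lev W f c') := by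
    intro c hc c' hc' x hx
    have e : f x + (c' - c) = c' := by rw [show f x = c from hx.2]; ring
    have := hm x (sub c hc hx) (c' - c) (by rwa [e])
    exact ⟨this.1, this.2.trans e⟩
  have df : ∀ c ∈ Icc a b, Diff (Lev W f b) (Lev W f c) (Φ (c - b)) (Φ (b - c)) := fun c hc =>
    ⟨hΦ.sm_t _, hΦ.sm_t _, mp b hb c hc, mp c hc b hb,
      fun x _ => by rw [← hΦ.add, show b - c + (c - b) = 0 by ring, hΦ.zero],
      fun x _ => by rw [← hΦ.add, show c - b + (b - c) = 0 by ring, hΦ.zero]⟩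
  let D : ℝ × E → ((E × ℝ) × K) →L[ℝ] ((E × ℝ) × K) := fun q =>
    ((fderiv ℝ (Φ q.1) q.2).prodMap (ContinuousLinearMap.id ℝ ℝ)).prodMap
      (ContinuousLinearMap.id ℝ K)
  have cD : Continuous D := by
    refine continuous_clm_apply.2 fun w => ?_
    exact ((hΦ.sm_fderiv w.1.1).continuous.prodMk continuous_const).prodMk continuous_const
  have bD : ∀ c ∈ Icc a b, ∀ x ∈ Lev W f b, BijOn (D (c - b, x)) (pl (T1 (Lev W f b) x) K)
      (pl (T1 (Lev W f c) (Φ (c - b) x)) K) := by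
    intro c hc x hx
    have := (((df c hc).tan_bijOn hx).prodMap (bijOn_id (univ : Set ℝ))).prodMap
      (bijOn_id (univ : Set K))
    exact this
  have hs : ∀ t ∈ Icc (0 : ℝ) 1, b + t * (a - b) ∈ Icc a b := fun t ht =>
    ⟨by nlinarith [ht.1, ht.2], by nlinarith [ht.1, ht.2]⟩
  have mr : ∀ q ∈ Icc (0 : ℝ) 1 ×ˢ Lev W f b,
      Φ (q.1 * (a - b)) q.2 ∈ Lev W f (b + q.1 * (a - b)) := fun q hq => by
    simpa using mp b hb _ (hs _ hq.1) hq.2
  have cr : Continuous fun q : ℝ × E => Φ (q.1 * (a - b)) q.2 :=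
    hΦ.cont.comp (f := fun q : ℝ × E => (q.1 * (a - b), q.2)) (by fun_prop)
  have k1 := NDField.comp_htpy (S := Lev W f b) (T := fun x => pl (T1 (Lev W f b) x) K) hΩ
    (r := fun q => Φ (q.1 * (a - b)) q.2) cr.continuousOn
    (fun q hq => sub _ (hs _ hq.1) (mr q hq))
    (Φ := fun q => (incl (Y (Φ (q.1 * (a - b)) q.2)) K).comp (D (q.1 * (a - b), q.2)))
    (((hreg_cont_incl (K := K)).comp (hY'.comp cr)).clm_comp
      (cD.comp (f := fun q : ℝ × E => (q.1 * (a - b), q.2)) (by fun_prop))).continuousOn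
    fun q hq => by
      have b1 := bD _ (hs _ hq.1) q.2 hq.2
      rw [add_sub_cancel_left] at b1
      exact (hreg_bij (K := K) hW hf (mr q hq) (hY _ (sub _ (hs _ hq.1) (mr q hq)))).comp b1
  have k2 := h5.trans (hreg_nu hW hf (NDField.mono' hΩ (sub a ha)) h3 hY'.continuousOn h4
    fun x hx => hY x (sub a ha hx))
  have k3 := NDHtpy.comp (S := Lev W f b) (T := fun x => pl (T1 (Lev W f b) x) K) k2
    (r := Φ (a - b)) (hΦ.sm_t _).continuous.continuousOn (mp b hb a ha)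
    (Φ := fun x => D (a - b, x))
    (cD.comp (f := fun x : E => (a - b, x)) (by fun_prop)).continuousOn (bD a ha)
  refine ⟨pb (Φ (a - b)) β, Y, h1.diff (df a ha), h2.diff (df a ha) fun _ _ _ _ => rfl,
    hY'.continuousOn, fun x hx => hY x (sub b hb hx), ?_⟩
  simp only [zero_mul, one_mul, hΦ.zero] at k1
  refine (NDHtpy.trans k3 k1.symm).congr ?_ ?_
  · intro x _ u _ v _
    simp [D, symz_pb (hΦ.sm_t _) h1.sm, pb2_apply, Prod.map]
  · intro x _ u _ v _
    simp [D, hΦ.fderiv_zero]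

end Pool.Agent.Lib.MP_ccffa6_gt.ELI
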