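import Pool.Agent.Lib.MP_ccffa6_gt.ELI.HNu
import Pool.Agent.Lib.MP_ccffa6_gt.ELI.HReg

/-! Transport along a flow; slabs without critical points. -/

open Set Filter Topology Metric
open scoped ContDiff RealInnerProductSpace

noncomputable section

namespace Pool.Agent.Lib.MP_ccffa6_gt

open Pool.Agent.Lib.MP_45f3cb_gt

variable {E : Type} [NormedAddCommGroup E] [NormedSpace ℝ E] [FiniteDimensional ℝ E]
  {V : Type} [NormedAddCommGroup V] [NormedSpace ℝ V] [FiniteDimensional ℝ V]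
  {K : Type} [NormedAddCommGroup K] [NormedSpace ℝ K] [FiniteDimensional ℝ K]

variable {W : Set E} {f : E → ℝ} {η : Bil K} {Y : E → E} {Φ : ℝ → E → E} {n d : ℕ}

/-- differentiate `Φ (-t) (Φ t x) = x` -/
theorem h_flow_inj (h : IsFlow Y Φ) (t : ℝ) (x : E) : Function.Injective (fderiv ℝ (Φ t) x) := by
  have e : Φ (-t) ∘ Φ t = id := funext fun y => by
    rw [Function.comp, ← h.add, neg_add_cancel, h.zero, id]
  have h1 := fderiv_comp x (FlowD_diff (h.sm_t (-t)) (Φ t x)) (FlowD_diff (h.sm_t t) x)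
  rw [e, fderiv_id] at h1
  exact Function.LeftInverse.injective (g := fderiv ℝ (Φ (-t)) (Φ t x))
    fun v => (congrArg (fun L : E →L[ℝ] E => L v) h1).symm

theorem h_flow_cont (h : IsFlow Y Φ) : Continuous fun q : ℝ × E => fderiv ℝ (Φ q.1) q.2 :=
  continuous_clm_apply.2 fun w => (h.sm_fderiv w).continuous

/-- The tangent space is spanned by the tangent space of the level and the field. -/
theorem h_flow_bijOn (h : IsFlow Y Φ) (hW : IsSub d W) (hf : ContDiff ℝ ∞ f) {c t : ℝ}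
    (hY : ∀ x ∈ Lev W f c, Y x ∈ Tan W x ∧ fderiv ℝ f x (Y x) ≠ 0)
    (hm : ∀ x ∈ Lev W f c, Φ t x ∈ W ∧ Y (Φ t x) ∈ Tan W (Φ t x)) {x : E} (hx : x ∈ Lev W f c) :
    BijOn (fderiv ℝ (Φ t) x) (Tan W x) (Tan W (Φ t x)) := by
  have h1 : ∀ v ∈ Tan W x, fderiv ℝ (Φ t) x v ∈ Tan W (Φ t x) := fun v hv => by
    obtain ⟨y1, y2⟩ := hY x hx
    have h2 := Tan.map (S' := W) (FlowD_diff (h.sm_t t) x)
      (eventually_mem_nhdsWithin.mono fun y hy => (hm y hy).1)
      ((hW.h_mem_tan hf hx ⟨_, y1, y2⟩ (v - (fderiv ℝ f x v / fderiv ℝ f x (Y x)) • Y x)).2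
        ⟨Submodule.sub_mem _ hv (Submodule.smul_mem _ _ y1), by
          rw [map_sub, map_smul, smul_eq_mul, div_mul_cancel₀ _ y2, sub_self]⟩)
    rw [map_sub, map_smul, h.fderiv_field] at h2
    exact (Submodule.sub_mem_iff_left _ (Submodule.smul_mem _ _ (hm x hx).2)).1 h2
  refine ⟨h1, (h_flow_inj h t x).injOn, fun w hw => ?_⟩
  have h2 : Function.Injective ((fderiv ℝ (Φ t) x).toLinearMap.restrict h1) := fun u v e =>
    Subtype.ext (h_flow_inj h t x (congrArg Subtype.val e))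
  obtain ⟨v, hv⟩ := (LinearMap.injective_iff_surjective_of_finrank_eq_finrank
    ((hW.finrank hx.1).trans (hW.finrank (hm x hx).1).symm)).1 h2 ⟨w, hw⟩
  exact ⟨v, v.2, congrArg Subtype.val hv⟩

theorem hprod_uIcc (s r : ℝ) : r ∈ uIcc 0 s ↔ ∃ θ ∈ Icc (0 : ℝ) 1, θ * s = r := by
  rw [← segment_eq_uIcc, segment_eq_image']
  simp

/-- `NDField.comp_htpy` with `r (s, x) = Φ (s * T) x` -/
theorem h_transport (h : IsFlow Y Φ) (hW : IsSub d W) (hf : ContDiff ℝ ∞ f) {c T : ℝ} {A : Set E}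
    (hA : A ⊆ W) (hY : ∀ x ∈ Lev W f c, fderiv ℝ f x (Y x) ≠ 0) (hT : ∀ y ∈ A, Y y ∈ Tan W y)
    (hm : ∀ x ∈ Lev W f c, ∀ t ∈ uIcc 0 T, Φ t x ∈ A) {Ω : E → Bil (E × K)}
    (hΩ : NDField A (fun x => pl (Tan W x) K) Ω) :
    NDHtpy (Lev W f c) (fun x => pl (Tan W x) K) Ω
      fun x => bq (pK (fderiv ℝ (Φ T) x) K) (Ω (Φ T x)) := by
  have hc : Continuous fun q : ℝ × E => (q.1 * T, q.2) := by fun_prop
  have h1 : ∀ s ∈ Icc (0 : ℝ) 1, ∀ x ∈ Lev W f c, Φ (s * T) x ∈ A := fun s hs x hx =>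
    hm x hx _ ((hprod_uIcc _ _).2 ⟨s, hs, rfl⟩)
  refine (hΩ.comp_htpy (r := fun q => Φ (q.1 * T) q.2) (h.cont.comp hc).continuousOn
    (fun q hq => h1 _ hq.1 _ hq.2) (Φ := fun q => pK (fderiv ℝ (Φ (q.1 * T)) q.2) K)
    ((ContinuousLinearMap.prodMapL ℝ E E K K).continuous.comp
      (((h_flow_cont h).comp hc).prodMk continuous_const)).continuousOn
    fun q hq => pK_bijOn (h_flow_bijOn h hW hf (fun x hx => ⟨hT x ?_, hY x hx⟩)
      (fun x hx => ⟨hA (h1 _ hq.1 x hx), hT _ (h1 _ hq.1 x hx)⟩) hq.2)).congr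
      (fun x _ u _ v _ => ?_) fun x _ u _ v _ => ?_
  · exact h.zero x ▸ hm x hx 0 left_mem_uIcc
  · simp [h.zero, Prod.map, h.fderiv_zero]
  · simp only [one_mul]

/-- An orbit stays in the slab as long as `f` cannot leave `Ioo a b`. -/
theorem h_stay (h : IsFlow Y Φ) (hW : IsSub d W) (hf : ContDiff ℝ ∞ f) {a b : ℝ} {N : Set E}
    (hc : IsCompact (HSl W f a b)) (hN : IsOpen N) (hs : HSl W f a b ⊆ N)
    (hT : ∀ y ∈ W ∩ N, Y y ∈ Tan W y) (h1 : ∀ y ∈ HSl W f a b, fderiv ℝ f y (Y y) ∈ Icc (0 : ℝ) 1)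
    {x : E} (hx : x ∈ W) {t : ℝ} (ha : a < f x + min t 0) (hb : f x + max t 0 < b) :
    Φ t x ∈ W ∧ f x + min t 0 ≤ f (Φ t x) ∧ f (Φ t x) ≤ f x + max t 0 := by
  have hd : ∀ r, HasDerivAt (fun r => f (Φ r x)) (fderiv ℝ f (Φ r x) (Y (Φ r x))) r := fun r =>
    h.der_comp (hf.differentiable (by simp) _)
  have key : ∀ s, (∀ r ∈ uIcc 0 s, Φ r x ∈ HSl W f a b) →
      f x + min s 0 ≤ f (Φ s x) ∧ f (Φ s x) ≤ f x + max s 0 := fun s hP => by
    have k1 := (convex_uIcc 0 s).mul_sub_le_image_sub_of_le_deriv (f := fun r => f (Φ r x))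
      (fun r _ => (hd r).continuousAt.continuousWithinAt)
      (fun r _ => (hd r).differentiableAt.differentiableWithinAt) (C := 0)
      fun r hr => (hd r).deriv ▸ (h1 _ (hP r (interior_subset hr))).1
    have k2 := (convex_uIcc 0 s).image_sub_le_mul_sub_of_deriv_le (f := fun r => f (Φ r x))
      (fun r _ => (hd r).continuousAt.continuousWithinAt)
      (fun r _ => (hd r).differentiableAt.differentiableWithinAt) (C := 1)
      fun r hr => (hd r).deriv ▸ (h1 _ (hP r (interior_subset hr))).2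
    rcases le_total 0 s with e | e
    · have k3 := k1 0 left_mem_uIcc s right_mem_uIcc e
      have k4 := k2 0 left_mem_uIcc s right_mem_uIcc e
      simp only [h.zero] at k3 k4
      rw [min_eq_right e, max_eq_left e]
      constructor <;> linarith
    · have k3 := k1 s right_mem_uIcc 0 left_mem_uIcc e
      have k4 := k2 s right_mem_uIcc 0 left_mem_uIcc e
      simp only [h.zero] at k3 k4
      rw [min_eq_left e, max_eq_right e]
      constructor <;> linarith
  have main := uIcc_induction (P := fun s => ∀ r ∈ uIcc 0 s, Φ r x ∈ HSl W f a b) (t := t)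
    (fun r hr => by
      rw [uIcc_self, mem_singleton_iff] at hr
      rw [hr, h.zero]
      exact ⟨hx, by linarith [min_le_right t 0], by linarith [le_max_right t 0]⟩)
    (fun s hst hP => by
      obtain ⟨k1, k2⟩ := key s hP
      have k3 : min t 0 ≤ min s 0 := le_min ((min_comm t 0).trans_le hst.1) (min_le_right _ _)
      have k4 : max s 0 ≤ max t 0 := max_le (hst.2.trans_eq (max_comm 0 t)) (le_max_right _ _)
      have k5 := hP s right_mem_uIcc
      have k6 : Tendsto (fun r : ℝ => r - s) (𝓝 s) (𝓝 0) := by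
        simpa using (continuous_sub_right s).tendsto s
      have k7 : ∀ᶠ r in 𝓝 s, Φ r x ∈ HSl W f a b := by
        filter_upwards [k6.eventually (hW.flow_local hN h hT k5.1 (hs k5)),
          (hd s).continuousAt.eventually (Icc_mem_nhds (a := a) (b := b) (by linarith)
            (by linarith))] with r r1 r2
        rw [← h.add, sub_add_cancel] at r1
        exact ⟨r1, r2⟩
      obtain ⟨ε, hε, k8⟩ := Metric.eventually_nhds_iff_ball.1 k7
      filter_upwards [ball_mem_nhds s hε] with r hr _ r' hr'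
      rcases uIcc_subset_uIcc_union_uIcc (b := s) hr' with e | e
      · exact hP r' e
      · exact k8 r' ((convex_ball s ε).ordConnected.uIcc_subset (mem_ball_self hε) hr e))
    (fun s _ hP r hr => by
      obtain ⟨θ, hθ, rfl⟩ := (hprod_uIcc s r).1 hr
      exact hc.isClosed.closure_subset (map_mem_closure (f := fun s => Φ (θ * s) x)
        ((h.cont_z x).comp (continuous_const_mul θ)) hP
        fun s' hs' => hs'.2 _ ((hprod_uIcc _ _).2 ⟨θ, hθ, rfl⟩)))
    t right_mem_uIcc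
  exact ⟨(main t right_mem_uIcc).1, key t main⟩

theorem h_prod (hW : IsSub (2 * n + 2) W) (hf : ContDiff ℝ ∞ f) {a b : ℝ} (hab : a ≤ b)
    (hc : IsCompact (HSl W f a b)) (hr : ∀ x ∈ HSl W f a b, ∃ v ∈ Tan W x, fderiv ℝ f x v ≠ 0)
    (hη : ND ⊤ η) {Ω : E → Bil (E × K)} (hΩ : NDField (HSl W f a b) (fun x => pl (Tan W x) K) Ω)
    (h : KG n η W f a Ω) : KG n η W f b Ω :=
  (qG_iff hW hf hη).1 (ELI.QG.reg hW hf hab hc hr hΩ ((qG_iff hW hf hη).2 h))

end Pool.Agent.Lib.MP_ccffa6_gt
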