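import Pool.Agent.Lib.MP_ccffa6_gt.ELI.HFlow
import Pool.Agent.Lib.MP_ccffa6_gt.ELI.HProd
import Pool.Agent.Lib.MP_ccffa6_gt.ELI.HPi

/-! Orbits of the flow of a handle. -/

open Set Filter Topology Metric
open scoped ContDiff RealInnerProductSpace

noncomputable section

namespace Pool.Agent.Lib.MP_ccffa6_gt

open Pool.Agent.Lib.MP_45f3cb_gt

variable {E : Type} [NormedAddCommGroup E] [NormedSpace ℝ E] [FiniteDimensional ℝ E]
  {K : Type} [NormedAddCommGroup K] [NormedSpace ℝ K] [FiniteDimensional ℝ K]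
  {F : Type} [NormedAddCommGroup F] [InnerProductSpace ℝ F] [FiniteDimensional ℝ F]
  {n : ℕ} {η : Bil K} {W O N N' : Set E} {g j : E → ℝ} {P : F →L[ℝ] F} {R δ : ℝ} {Q : F × F → ℝ}
  {φ : F × F → E} {ψ : E → F × F} {Ω : E → Bil (E × K)} {Y Y₀ : E → E} {Φ : ℝ → E → E}

/-- projection to the lower level along the flow -/
def hpr (g : E → ℝ) (Φ : ℝ → E → E) (y : E) : E := Φ (-2 - g y) y

theorem horb_const {G : Type} [NormedAddCommGroup G] [NormedSpace ℝ G] {f : ℝ → G} {t : ℝ}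
    (h : ∀ s ∈ uIcc 0 t, HasDerivAt f 0 s) : f t = f 0 := by
  have h1 := (convex_uIcc (0 : ℝ) t).norm_image_sub_le_of_norm_hasDerivWithin_le
    (f' := fun _ => (0 : G)) (C := 0) (fun s hs => (h s hs).hasDerivWithinAt) (fun _ _ => by simp)
    left_mem_uIcc right_mem_uIcc
  rw [zero_mul] at h1
  exact sub_eq_zero.1 (norm_le_zero_iff.1 h1)

theorem horb_minmax {s t : ℝ} (hs : s ∈ uIcc 0 t) : min t 0 ≤ min s 0 ∧ max s 0 ≤ max t 0 := by
  rcases mem_uIcc.1 hs with h | h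
  · exact ⟨le_min ((min_le_right _ _).trans h.1) (min_le_right _ _),
      max_le (h.2.trans (le_max_left _ _)) (le_max_right _ _)⟩
  · exact ⟨le_min ((min_le_left _ _).trans h.1) (min_le_right _ _),
      max_le (h.2.trans (le_max_right _ _)) (le_max_right _ _)⟩

theorem horb_sl (hf : HFl W g P R φ δ j Y Φ N) (h : HData n η W g P R Q φ ψ O Ω) {x : E}
    (hx : x ∈ W) {t : ℝ} (ha : -5 / 2 < g x + min t 0) (hb : g x + max t 0 < -1 / 4) {s : ℝ}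
    (hs : s ∈ uIcc 0 t) : Φ s x ∈ HSl W g (-5 / 2) (-1 / 4) := by
  obtain ⟨h1, h2⟩ := horb_minmax hs
  obtain ⟨a, b, c⟩ := h_stay hf.fl h.sub h.sm h.cpt hf.op hf.sub hf.tan hf.spd hx (t := s)
    (by linarith) (by linarith)
  exact ⟨a, by linarith, by linarith⟩

theorem horb_j (hf : HFl W g P R φ δ j Y Φ N) (h : HData n η W g P R Q φ ψ O Ω) {x : E}
    (hx : x ∈ W) {t : ℝ} (ha : -5 / 2 < g x + min t 0) (hb : g x + max t 0 < -1 / 4) {s : ℝ}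
    (hs : s ∈ uIcc 0 t) : j (Φ s x) = j x := by
  have h1 : j (Φ s x) = j (Φ 0 x) := horb_const (f := fun r => j (Φ r x)) fun r hr => by
    have h2 := hf.fl.der_comp (F := j) (z := x) (t := r)
      (hf.sm.differentiable (by simp)).differentiableAt
    rwa [hf.inv _ (horb_sl hf h hx ha hb (uIcc_subset_uIcc_left hs hr))] at h2
  rwa [hf.fl.zero] at h1

theorem horb_time {a : ℝ} (h1 : a ∈ Ioo (-5 / 2 : ℝ) (-1 / 4)) :
    -5 / 2 < a + min (-2 - a) 0 ∧ a + max (-2 - a) 0 < -1 / 4 := by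
  obtain ⟨h2, h3⟩ := h1
  constructor
  · rcases min_choice (-2 - a) 0 with e | e <;> rw [e] <;> linarith
  · rcases max_choice (-2 - a) 0 with e | e <;> rw [e] <;> linarith

theorem horb_ball (h : HData n η W g P R Q φ ψ O Ω) {z : F × F}
    (hz : z ∈ closedBall (0 : F × F) 3) : z ∈ ball (0 : F × F) R :=
  closedBall_subset_ball (by linarith [h.md.big]) hz

theorem horb_near {y : E} (hg : Continuous g) (hj : Continuous j)
    (h1 : g y ∈ Ioo (-5 / 2 : ℝ) (-1 / 4)) (h2 : j y < 2 / 3) :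
    ∀ᶠ y' in 𝓝[W] y, y' ∈ W ∧ g y' ∈ Ioo (-5 / 2 : ℝ) (-1 / 4) ∧ j y' < 2 / 3 := by
  have a : ∀ᶠ y' in 𝓝 y, g y' ∈ Ioo (-5 / 2 : ℝ) (-1 / 4) :=
    hg.continuousAt.eventually (isOpen_Ioo.mem_nhds h1)
  have b : ∀ᶠ y' in 𝓝 y, j y' < 2 / 3 := hj.continuousAt.eventually (gt_mem_nhds h2)
  filter_upwards [self_mem_nhdsWithin, nhdsWithin_le_nhds a, nhdsWithin_le_nhds b] with y' a b c
  exact ⟨a, b, c⟩

/-- `h_stay` for all times between `0` and `t`, then `IsFlow.der_comp` -/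
theorem HFl.stay (hf : HFl W g P R φ δ j Y Φ N) (h : HData n η W g P R Q φ ψ O Ω) {x : E}
    (hx : x ∈ W) {t : ℝ} (ha : -5 / 2 < g x + min t 0) (hb : g x + max t 0 < -1 / 4) :
    Φ t x ∈ W ∧ g x + min t 0 ≤ g (Φ t x) ∧ g (Φ t x) ≤ g x + max t 0 ∧ j (Φ t x) = j x ∧
      (j x ≤ 2 / 3 → g (Φ t x) = g x + t) := by
  obtain ⟨a, b, c⟩ := h_stay hf.fl h.sub h.sm h.cpt hf.op hf.sub hf.tan hf.spd hx ha hb
  refine ⟨a, b, c, horb_j hf h hx ha hb right_mem_uIcc, fun h2 => ?_⟩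
  have h1 : g (Φ t x) - t = g (Φ 0 x) - 0 :=
    horb_const (f := fun r => g (Φ r x) - r) fun r hr => by
      have h3 := hf.fl.der_comp (F := g) (z := x) (t := r)
        (h.sm.differentiable (by simp)).differentiableAt
      rw [hf.one _ (horb_sl hf h hx ha hb hr) (by rw [horb_j hf h hx ha hb hr]; exact h2)] at h3
      have h4 := h3.sub (hasDerivAt_id r)
      rwa [sub_self] at h4
  rw [hf.fl.zero] at h1
  linarith

theorem HFl.up (hf : HFl W g P R φ δ j Y Φ N) (h : HData n η W g P R Q φ ψ O Ω) {c : ℝ}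
    (hc : c = -2 ∨ c = -1 / 2) : HUp W g c Y := by
  have hs : ∀ x ∈ Lev W g c, x ∈ HSl W g (-5 / 2) (-1 / 4) ∧ g x ≠ -1 := fun x hx => by
    have e : g x = c := hx.2
    refine ⟨⟨hx.1, ?_⟩, ?_⟩
    · rcases hc with rfl | rfl <;> (rw [mem_preimage, e]; constructor <;> norm_num)
    · rcases hc with rfl | rfl <;> (rw [e]; norm_num)
  refine ⟨hf.fl.smY.continuous.continuousOn, fun x hx => hf.tan x ⟨hx.1, hf.sub (hs x hx).1⟩,
    fun x hx => ?_⟩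
  by_cases h2 : j x ≤ 2 / 3
  · rw [hf.one x (hs x hx).1 h2]
    exact one_pos
  · obtain ⟨z, hz, rfl, -, a, ha, e⟩ := hf.ch x (hs x hx).1 (by linarith [not_le.1 h2])
    rw [e, map_smul]
    exact mul_pos ha (h.dg_pos (horb_ball h hz) (hs _ hx).2)

theorem HFl.contDiff_pr (hf : HFl W g P R φ δ j Y Φ N) (hg : ContDiff ℝ ∞ g) :
    ContDiff ℝ ∞ (hpr g Φ) :=
  hf.fl.sm.comp ((contDiff_const.sub hg).prodMk contDiff_id)

theorem HFl.pr_self (hf : HFl W g P R φ δ j Y Φ N) {y : E} (hy : g y = -2) : hpr g Φ y = y := by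
  rw [hpr, hy, sub_self, hf.fl.zero]

theorem HFl.pr_mem (hf : HFl W g P R φ δ j Y Φ N) (h : HData n η W g P R Q φ ψ O Ω) {y : E}
    (hy : y ∈ W) (h1 : g y ∈ Ioo (-5 / 2 : ℝ) (-1 / 4)) (h2 : j y ≤ 2 / 3) :
    hpr g Φ y ∈ Lev W g (-2) ∧ j (hpr g Φ y) = j y := by
  obtain ⟨a, -, -, b, c⟩ := hf.stay h hy (horb_time h1).1 (horb_time h1).2
  refine ⟨⟨a, ?_⟩, b⟩
  have e := c h2
  show g (Φ (-2 - g y) y) = -2
  linarith

/-- chain rule, `FlowD_fst`, `FlowD_snd`, `IsFlow.fderiv_field` -/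
theorem HFl.fderiv_pr (hf : HFl W g P R φ δ j Y Φ N) (hg : ContDiff ℝ ∞ g) (y v : E) :
    fderiv ℝ (hpr g Φ) y v = fderiv ℝ (Φ (-2 - g y)) y (v - fderiv ℝ g y v • Y y) := by
  have d1 : HasFDerivAt (fun y => (-2 - g y, y))
      ((-fderiv ℝ g y).prod (ContinuousLinearMap.id ℝ E)) y :=
    ((hg.differentiable (by simp) y).hasFDerivAt.const_sub (-2)).prodMk (hasFDerivAt_id y)
  have d2 := (hf.fl.sm.differentiable (by simp) (-2 - g y, y)).hasFDerivAt.comp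
    (f := fun y => (-2 - g y, y)) y d1
  have d3 : fderiv ℝ (hpr g Φ) y v = fderiv ℝ (fun q : ℝ × E => Φ q.1 q.2) (-2 - g y, y)
      (-fderiv ℝ g y v, v) := congrArg (fun L => L v) d2.fderiv
  have e : ((-fderiv ℝ g y v, v) : ℝ × E) = (0, v) - fderiv ℝ g y v • ((1 : ℝ), (0 : E)) := by
    simp
  rw [d3, e, map_sub, map_smul, FlowD_fst hf.fl, ← FlowD_snd hf.fl, map_sub, map_smul,
    hf.fl.fderiv_field]

/-- `Tan.map`, `fderiv_pr`, `h_flow_inj` -/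
theorem HFl.pr_tan (hf : HFl W g P R φ δ j Y Φ N) (h : HData n η W g P R Q φ ψ O Ω) {y : E}
    (hy : y ∈ W) (h1 : g y ∈ Ioo (-5 / 2 : ℝ) (-1 / 4)) (h2 : j y < 2 / 3) :
    (∀ᶠ y' in 𝓝[W] y, hpr g Φ y' ∈ Lev W g (-2)) ∧ fderiv ℝ (hpr g Φ) y (Y y) = 0 ∧
      ∀ v, fderiv ℝ (hpr g Φ) y v = 0 → ∃ c : ℝ, v = c • Y y := by
  refine ⟨?_, ?_, fun v hv => ⟨fderiv ℝ g y v, ?_⟩⟩
  · filter_upwards [horb_near h.sm.continuous hf.sm.continuous h1 h2] with y' hy'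
    exact (hf.pr_mem h hy'.1 hy'.2.1 hy'.2.2.le).1
  · rw [hf.fderiv_pr h.sm, hf.one y ⟨hy, h1.1.le, h1.2.le⟩ h2.le, one_smul, sub_self, map_zero]
  · rw [hf.fderiv_pr h.sm, ← map_zero (fderiv ℝ (Φ (-2 - g y)) y)] at hv
    exact sub_eq_zero.1 (h_flow_inj hf.fl _ _ hv)

/-- The orbit from `y` to `hpr y` stays in the chart, `c t = ψ (Φ t y)` has `c' = m • X (c t)`
and `hs (c t) ≠ 0` (`top`), so `hpi (c t)` is constant (`fderiv_hpi_X`, `hpi_self`). -/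
theorem HFl.pr_chart (hf : HFl W g P R φ δ j Y Φ N) (h : HData n η W g P R Q φ ψ O Ω)
    (hδ : ∀ p, hI P p ≤ δ → Q p = -2 → hs P p = 1) {y : E} (hy : y ∈ W)
    (h1 : g y ∈ Ioo (-5 / 2 : ℝ) (-1 / 4)) (h0 : 0 < j y) (h2 : j y ≤ 2 / 3) :
    y ∈ O ∧ hs P (ψ y) ≠ 0 ∧ ψ (hpr g Φ y) = hpi P (ψ y) := by
  obtain ⟨ha, hb⟩ := horb_time h1
  have key : ∀ s ∈ uIcc 0 (-2 - g y), ∃ z ∈ ball (0 : F × F) R, φ z = Φ s y ∧ hI P z ≤ δ ∧
      hs P z ≠ 0 ∧ ∃ c : ℝ, Y (Φ s y) = c • fderiv ℝ φ z (hX P z) := fun s hs => by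
    have hj := horb_j hf h hy ha hb hs
    have hS := horb_sl hf h hy ha hb hs
    obtain ⟨z, hz, e, hi, c, -, hc⟩ := hf.ch _ hS (by rw [hj]; exact h0)
    refine ⟨z, horb_ball h hz, e, hi, fun h3 => ?_, c, hc⟩
    have h4 := hf.top z (horb_ball h hz) (by rw [e]; exact hS) h3
    rw [e, hj] at h4
    linarith
  have h3 : hpi P (ψ (Φ (-2 - g y) y)) = hpi P (ψ (Φ 0 y)) :=
    horb_const (f := fun r => hpi P (ψ (Φ r y))) fun r hr => by
      obtain ⟨z, hz, e, -, hz0, c, hc⟩ := key r hr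
      have e1 : ψ (Φ r y) = z := by rw [← e]; exact (h.ch.right z hz).2
      have d1 := (h.ch.smψ.differentiable (by simp) (Φ r y)).hasFDerivAt.comp_hasDerivAt r
        (hf.fl.der y r)
      have d2 : DifferentiableAt ℝ (hpi P) (ψ (Φ r y)) := by
        rw [e1]
        exact (contDiffAt_hpi hz0).differentiableAt (by simp)
      have d3 := d2.hasFDerivAt.comp_hasDerivAt r d1
      rwa [hc, e1, ← e, map_smul, h.ch.left_inv hz, map_smul, h.pr.fderiv_hpi_X hz0,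
        smul_zero] at d3
  rw [hf.fl.zero] at h3
  obtain ⟨z, hz, e, -, hz0, -⟩ := key 0 left_mem_uIcc
  rw [hf.fl.zero] at e
  obtain ⟨z', hz', e', hi, -⟩ := key _ right_mem_uIcc
  have e1 : ψ (Φ (-2 - g y) y) = z' := by rw [← e']; exact (h.ch.right z' hz').2
  have hq : Q z' = -2 := by
    rw [← h.val z' hz', e']
    exact (hf.pr_mem h hy h1 h2).1.2
  refine ⟨by rw [← e]; exact (h.ch.right z hz).1.2, by rw [← e, (h.ch.right z hz).2]; exact hz0, ?_⟩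
  rw [← h3, hpr, e1, h.pr.hpi_self (hδ z' hi hq)]

/-- On the region `0 < j < 2/3` the model form is a multiple of the pull-back of `β`:
`D hpr v` is tangent to the lower level, `Dψ (D hpr v) = D hpi (Dψ v)` (`Tan.fderiv_congr`),
`hlam_hpi`. -/
theorem HFl.pb_chart (hf : HFl W g P R φ δ j Y Φ N) (h : HData n η W g P R Q φ ψ O Ω) {ε : ℝ}
    (hε : ε ≤ 1) (hδ : ∀ p, hI P p ≤ δ → Q p = -2 → hs P p = 1 ∧ hr P p < ε) {β : Form1 E}
    (e : ∀ p ∈ hCyl P, hr P p < ε → ∀ u, hsg P p u = 0 → β (φ p) (fderiv ℝ φ p u) = hlam P p u)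
    {y : E} (hy : y ∈ W) (h1 : g y ∈ Ioo (-5 / 2 : ℝ) (-1 / 4)) (h0 : 0 < j y) (h2 : j y < 2 / 3)
    {v : E} (hv : v ∈ Tan W y) :
    pb ψ (hlam P) y v = (√(hs P (ψ y)))⁻¹ * pb (hpr g Φ) β y v := by
  have hδ' : ∀ p, hI P p ≤ δ → Q p = -2 → hs P p = 1 := fun p a b => (hδ p a b).1
  obtain ⟨hL, hj⟩ := hf.pr_mem h hy h1 h2.le
  obtain ⟨-, hs0, hπ⟩ := hf.pr_chart h hδ' hy h1 h0 h2.le
  have hg : g (hpr g Φ y) = -2 := hL.2
  obtain ⟨z, hz3, ez, hi, -⟩ := hf.ch (hpr g Φ y)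
    ⟨hL.1, by rw [mem_preimage, hg]; constructor <;> norm_num⟩ (by rw [hj]; exact h0)
  have hz := horb_ball h hz3
  obtain ⟨h3, h4⟩ := hδ z hi (by rw [← h.val z hz, ez, hg])
  have dp : DifferentiableAt ℝ (hpr g Φ) y := (hf.contDiff_pr h.sm).differentiable (by simp) y
  have dψ : Differentiable ℝ ψ := h.ch.smψ.differentiable (by simp)
  have dg : Differentiable ℝ g := h.sm.differentiable (by simp)
  have dπ : DifferentiableAt ℝ (hpi P) (ψ y) := (contDiffAt_hpi hs0).differentiableAt (by simp)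
  have hev := (hf.pr_tan h hy h1 h2).1
  have hw : fderiv ℝ (hpr g Φ) y v ∈ Tan W (φ z) := by
    rw [ez]
    exact Tan.map dp (hev.mono fun _ a => a.1) hv
  have hg0 : fderiv ℝ g (φ z) (fderiv ℝ (hpr g Φ) y v) = 0 := by
    have a := Tan.fderiv_congr (f := g ∘ hpr g Φ) (g := fun _ => (-2 : ℝ)) hy ((dg _).comp y dp)
      (differentiableAt_const _) (hev.mono fun _ a => a.2) hv
    rw [fderiv_comp y (dg _) dp, fderiv_fun_const] at a
    rw [ez]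
    exact a
  have hu : fderiv ℝ ψ (φ z) (fderiv ℝ (hpr g Φ) y v) =
      fderiv ℝ (hpi P) (ψ y) (fderiv ℝ ψ y v) := by
    have b : ∀ᶠ y' in 𝓝 y, 0 < j y' := hf.sm.continuous.continuousAt.eventually (lt_mem_nhds h0)
    have a := Tan.fderiv_congr (f := ψ ∘ hpr g Φ) (g := hpi P ∘ ψ) hy ((dψ _).comp y dp)
      (dπ.comp y (dψ _)) (by
        filter_upwards [horb_near h.sm.continuous hf.sm.continuous h1 h2, nhdsWithin_le_nhds b]
          with y' a b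
        exact (hf.pr_chart h hδ' a.1 a.2.1 b a.2.2.le).2.2) hv
    rw [fderiv_comp y (dψ _) dp, fderiv_comp y dπ (dψ _)] at a
    rw [ez]
    exact a
  have hU' : z ∈ hU P := ⟨by rw [h3]; norm_num, by rw [h3]; norm_num, h4.trans_le hε⟩
  have hsg0 : hsg P z (fderiv ℝ ψ (φ z) (fderiv ℝ (hpr g Φ) y v)) = 0 := by
    have a := HMod.fderiv_flat h.pr h.md hU' (fderiv ℝ ψ (φ z) (fderiv ℝ (hpr g Φ) y v))
    rw [← h.dg hz, h.ch.right_inv hz hw, hg0] at a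
    linarith
  have a := e z h3 h4 _ hsg0
  have ez' : z = hpi P (ψ y) := by rw [← hπ, ← ez, (h.ch.right z hz).2]
  rw [h.ch.right_inv hz hw, hu, ez, ez', h.pr.hlam_hpi hs0] at a
  have hp : √(hs P (ψ y)) ≠ 0 :=
    (Real.sqrt_pos.2 (lt_of_le_of_ne (sq_nonneg _) hs0.symm)).ne'
  show hlam P (ψ y) (fderiv ℝ ψ y v) = _ * β (hpr g Φ y) (fderiv ℝ (hpr g Φ) y v)
  rw [a, inv_mul_cancel_left₀ hp]

end Pool.Agent.Lib.MP_ccffa6_gt
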