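import Pool.Agent.Lib.MP_ccffa6_gt.ELI.Calc
import Pool.Agent.Lib.MP_ccffa6_gt.ELI.Co

/-!
Paths of equivariant local diffeomorphisms and families of two-forms on the tube.
-/

open Set Filter Topology
open scoped ContDiff RealInnerProductSpace

noncomputable section

namespace Pool.Agent.Lib.MP_ccffa6_gt.ELI

variable {F : Type} [NormedAddCommGroup F] [InnerProductSpace ℝ F] [FiniteDimensional ℝ F]
  {P : F →L[ℝ] F} {R : ℝ} {H H' : ℝ → F × F → F × F} {lam : Form1 (F × F)}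

/-- Sketch: inside the tube by `map`, outside by `out`. -/
theorem HPath.toEqv (h : HPath P R H) {t : ℝ} (ht : t ∈ Icc (0 : ℝ) 1) : Eqv P (H t) := by
  refine ⟨h.sm t ht, h.eqv t ht, fun y hy => ?_⟩
  obtain ⟨r, hr, e⟩ := h.out
  rcases lt_or_ge (rad P y) R with a | a
  · exact (h.map t ht ⟨hy, a⟩).1
  · rwa [e t ht y hy (hr.le.trans a)]

theorem HPath.rad_le (h : HPath P R H) {t : ℝ} (ht : t ∈ Icc (0 : ℝ) 1) {y : F × F}
    (hy : P y.1 ≠ 0) (hr : rad P y ≤ R) : rad P (H t y) ≤ R := by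
  obtain ⟨r, hr', e⟩ := h.out
  rcases hr.lt_or_eq with a | a
  · exact (h.map t ht ⟨hy, a⟩).2.le
  · rwa [e t ht y hy (hr'.le.trans a.ge)]

theorem hpath_id (R : ℝ) : HPath P R fun _ y => y := by
  refine ⟨fun _ _ _ _ => contDiffAt_id, continuousOn_snd, ?_, fun _ _ _ _ _ _ => rfl,
    ⟨R - 1, by simp, fun _ _ _ _ _ => rfl⟩, fun _ _ => mapsTo_id _, fun _ _ y _ => ?_, fun _ _ => rfl⟩
  · simp only [fderiv_fun_id]
    exact continuousOn_const
  · rw [fderiv_fun_id]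
    exact Function.injective_id

theorem HPath.comp (h : HPath P R H) (h' : HPath P R H') :
    HPath P R fun t y => H t (H' t y) := by
  obtain ⟨r, hr, e⟩ := h.out
  obtain ⟨r', hr', e'⟩ := h'.out
  have d (t) (ht : t ∈ Icc (0 : ℝ) 1) (y : F × F) (hy : P y.1 ≠ 0) :
      fderiv ℝ (fun y => H t (H' t y)) y = (fderiv ℝ (H t) (H' t y)).comp (fderiv ℝ (H' t) y) :=
    fderiv_comp y ((h.sm t ht _ ((h'.toEqv ht).ne y hy)).differentiableAt (by simp))
      ((h'.sm t ht y hy).differentiableAt (by simp))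
  have m : MapsTo (fun z : ℝ × (F × F) => (z.1, H' z.1 z.2)) (Icc 0 1 ×ˢ {y | P y.1 ≠ 0})
      (Icc 0 1 ×ˢ {y | P y.1 ≠ 0}) := fun z hz => ⟨hz.1, (h'.toEqv hz.1).ne _ hz.2⟩
  exact ⟨fun t ht => ((h.toEqv ht).comp (h'.toEqv ht)).sm,
    h.c0.comp (continuousOn_fst.prodMk h'.c0) m,
    ((h.c1.comp (continuousOn_fst.prodMk h'.c0) m).clm_comp h'.c1).congr fun z hz =>
      d _ hz.1 _ hz.2, fun t ht => ((h.toEqv ht).comp (h'.toEqv ht)).eqv,
    ⟨max r r', max_lt hr hr', fun t ht y hy k => by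
      rw [e' t ht y hy (le_of_max_le_right k), e t ht y hy (le_of_max_le_left k)]⟩,
    fun t ht => (h.map t ht).comp (h'.map t ht), fun t ht y hy => by
      rw [d t ht y hy]
      exact (h.inj t ht _ ((h'.toEqv ht).ne y hy)).comp (h'.inj t ht y hy),
    fun y hy => by rw [h'.zero y hy, h.zero y hy]⟩

theorem HPath.fderiv_zero (h : HPath P R H) {y : F × F} (hy : P y.1 ≠ 0) :
    fderiv ℝ (H 0) y = ContinuousLinearMap.id ℝ (F × F) := by
  rw [Filter.EventuallyEq.fderiv_eq (f := id) ((eventually_ne hy).mono h.zero), fderiv_id]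

theorem HPath.pb_zero (h : HPath P R H) (lam : Form1 (F × F)) {y : F × F} (hy : P y.1 ≠ 0) :
    pb (H 0) lam y = lam y := by
  rw [pb, h.fderiv_zero hy, h.zero y hy]
  rfl

/-- Sketch: take `(r + R) / 2`; there `H t` is the identity near `y` (`continuousAt_rad`). -/
theorem HPath.pb_out (h : HPath P R H) : ∃ r < R, ∀ t ∈ Icc (0 : ℝ) 1, ∀ lam : Form1 (F × F),
    ∀ y : F × F, P y.1 ≠ 0 → r ≤ rad P y → pb (H t) lam y = lam y := by
  obtain ⟨r, hr, e⟩ := h.out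
  refine ⟨(r + R) / 2, by linarith, fun t ht lam y hy k => ?_⟩
  have a : H t =ᶠ[𝓝 y] id := by
    filter_upwards [eventually_ne hy, (continuousAt_rad hy).eventually
      (lt_mem_nhds (show r < rad P y by linarith))] with z h1 h2 using e t ht z h1 h2.le
  rw [pb, a.fderiv_eq, fderiv_id, a.eq_of_nhds]
  rfl

theorem HPath.ct (hP : IsOP P) (h : HPath P R H) (hl : Adm P lam) (hc : Ct P R lam) {t : ℝ}
    (ht : t ∈ Icc (0 : ℝ) 1) : Ct P R (pb (H t) lam) := by
  intro y hy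
  have a := ne_of_ht hy.1
  rw [(h.toEqv ht).dF_pb hl a]
  exact nd_pbB (h.inj t ht y a) (hl.nd hP hc ((h.toEqv ht).ne y a)
    (h.rad_le ht a ((rad_of_ht hy.1).trans_le hy.2)))

theorem HPath.jet_pb (h : HPath P R H) (hl : Adm P lam) {t : ℝ} (ht : t ∈ Icc (0 : ℝ) 1) {q : F}
    (hq : q ∈ core P) :
    jet (pb (H t) lam) q = pbB (fderiv ℝ (H t) (q, 0)) (dF lam (H t (q, 0))) :=
  (h.toEqv ht).dF_pb hl (core_ne hq)

/-- A continuous family of two-forms, nondegenerate on the closed tube. -/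
structure TFam {Y : Type} [TopologicalSpace Y] (P : F →L[ℝ] F) (R : ℝ) (D : Set Y)
    (Ω : Y → F × F → Bil (F × F)) : Prop where
  cont : ContinuousOn (fun z : Y × (F × F) => Ω z.1 z.2) (D ×ˢ {y | P y.1 ≠ 0})
  nd : ∀ p ∈ D, ∀ y : F × F, P y.1 ≠ 0 → rad P y ≤ R → ND ⊤ (Ω p y)

section fam

variable {Y : Type} [TopologicalSpace Y] {D : Set Y} {Ω : Y → F × F → Bil (F × F)}

omit [FiniteDimensional ℝ F] in
theorem HP_pbB {S : Set Y} {M : Y → F × F →L[ℝ] F × F} {w : Y → Bil (F × F)}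
    (hM : ContinuousOn M S) (hw : ContinuousOn w S) : ContinuousOn (fun p => pbB (M p) (w p)) S :=
  (continuous_pbB (V := F × F) (V' := F × F)).comp_continuousOn (f := fun p => (M p, w p))
    (hM.prodMk hw)

theorem TFam.fam (h : TFam P R D Ω) (hR : 0 ≤ R) : Fam D (core P) fun p q => Ω p (q, 0) := by
  exact ⟨h.cont.comp (f := fun z : Y × F => (z.1, (z.2, (0 : F)))) (by fun_prop)
    fun z hz => ⟨hz.1, core_ne hz.2⟩,
    fun p hp q hq => h.nd p hp _ (core_ne hq) ((core_rad hq).trans_le hR)⟩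

theorem TFam.pull (h : TFam P R D Ω) (hH : HPath P R H) {τ : Y → ℝ} (hτ : ContinuousOn τ D)
    (hm : MapsTo τ D (Icc 0 1)) :
    TFam P R D fun p y => pbB (fderiv ℝ (H (τ p)) y) (Ω p (H (τ p) y)) := by
  have c : ContinuousOn (fun z : Y × (F × F) => (τ z.1, z.2)) (D ×ˢ {y | P y.1 ≠ 0}) :=
    (hτ.comp continuousOn_fst fun _ hz => hz.1).prodMk continuousOn_snd
  have m : MapsTo (fun z : Y × (F × F) => (τ z.1, z.2)) (D ×ˢ {y | P y.1 ≠ 0})
      (Icc 0 1 ×ˢ {y | P y.1 ≠ 0}) := fun z hz => ⟨hm hz.1, hz.2⟩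
  exact ⟨HP_pbB (hH.c1.comp c m) (h.cont.comp (continuousOn_fst.prodMk (hH.c0.comp c m))
    fun z hz => ⟨hz.1, (hH.toEqv (hm hz.1)).ne _ hz.2⟩), fun p hp y hy hr =>
    nd_pbB (hH.inj _ (hm hp) y hy) (h.nd p hp _ ((hH.toEqv (hm hp)).ne y hy)
      (hH.rad_le (hm hp) hy hr))⟩

theorem tfam_const (hP : IsOP P) (hl : Adm P lam) (hc : Ct P R lam) (D : Set Y) :
    TFam P R D fun _ y => dF lam y := by
  exact ⟨hl.contOn_dF.comp continuousOn_snd fun _ hz => hz.2, fun _ _ _ => hl.nd hP hc⟩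

theorem Fam.congr {V X : Type} [TopologicalSpace X] [NormedAddCommGroup V] [NormedSpace ℝ V]
    {C : Set X} {K K' : Y → X → Bil V} (h : Fam D C K) (e : ∀ p ∈ D, ∀ q ∈ C, K p q = K' p q) :
    Fam D C K' := by
  exact ⟨h.cont.congr fun z hz => (e _ hz.1 _ hz.2).symm, fun p hp q hq => e p hp q hq ▸ h.nd p hp q hq⟩

theorem Fam.comp {V X Y' : Type} [TopologicalSpace X] [TopologicalSpace Y'] [NormedAddCommGroup V]
    [NormedSpace ℝ V] {C : Set X} {K : Y → X → Bil V} (h : Fam D C K) {D' : Set Y'} {g : Y' → Y}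
    (hg : ContinuousOn g D') (hm : MapsTo g D' D) : Fam D' C fun p => K (g p) := by
  exact ⟨h.cont.comp (f := fun z : Y' × X => (g z.1, z.2)) ((hg.comp continuousOn_fst
    fun _ hz => hz.1).prodMk continuousOn_snd) fun _ hz => ⟨hm hz.1, hz.2⟩,
    fun _ hp => h.nd _ (hm hp)⟩

end fam

/-- The segment between two admissible forms whose differentials span nondegenerate segments. -/
theorem tfam_seg (hP : IsOP P) {lam' : Form1 (F × F)} (hl : Adm P lam) (hl' : Adm P lam')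
    (hc : ∀ u ∈ Icc (0 : ℝ) 1, ∀ y ∈ Cyl P R, ND ⊤ ((1 - u) • dF lam y + u • dF lam' y)) :
    TFam P R (Icc (0 : ℝ) 1 ×ˢ Icc (0 : ℝ) 1)
      fun p : ℝ × ℝ => fun y => (1 - p.2) • dF lam y + p.2 • dF lam' y := by
  have := (inferInstance : IsTopologicalAddGroup (Bil (F × F))).toContinuousAdd
  refine ⟨((continuousOn_const.sub continuousOn_fst.snd).smul (hl.contOn_dF.comp continuousOn_snd
    fun _ hz => hz.2)).add (continuousOn_fst.snd.smul (hl'.contOn_dF.comp continuousOn_snd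
    fun _ hz => hz.2)), fun p hp y hy hr => ?_⟩
  rw [← dF_lin (hl.diff hy) (hl'.diff hy)]
  refine (hl.lin hl' _ _).nd hP (fun z hz => ?_) hy hr
  rw [dF_lin (hl.diff (ne_of_ht hz.1)) (hl'.diff (ne_of_ht hz.1))]
  exact hc _ hp.2 z hz

theorem HPath.fam (hP : IsOP P) (h : HPath P R H) (hl : Adm P lam) (hc : Ct P R lam)
    (hR : 0 ≤ R) : Fam (Icc (0 : ℝ) 1) (core P) fun t => jet (pb (H t) lam) := by
  exact (((tfam_const hP hl hc _).pull h continuousOn_id (mapsTo_id _)).fam hR).congr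
    fun t ht q hq => (h.jet_pb hl ht hq).symm

end Pool.Agent.Lib.MP_ccffa6_gt.ELI
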