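import Pool.Agent.Lib.MP_ccffa6_gt.ELI.HP

/-!
Uniform estimates on the closed tube.
-/

open Set Filter Topology
open scoped ContDiff RealInnerProductSpace

noncomputable section

namespace Pool.Agent.Lib.MP_ccffa6_gt.ELI

variable {F : Type} [NormedAddCommGroup F] [InnerProductSpace ℝ F] [FiniteDimensional ℝ F]
  {P : F →L[ℝ] F} {R : ℝ} {H H' : ℝ → F × F → F × F} {lam : Form1 (F × F)}

section gen

variable {V : Type} [NormedAddCommGroup V] [NormedSpace ℝ V] [FiniteDimensional ℝ V]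

theorem HP2_unit {M : V →L[ℝ] V} (hM : Function.Injective M) : IsUnit M := by
  have := FiniteDimensional.complete ℝ V
  exact ContinuousLinearMap.isUnit_iff_bijective.2
    ⟨hM, (LinearMap.injective_iff_surjective (f := (M : V →ₗ[ℝ] V))).1 hM⟩

theorem HP2_inv {M : V →L[ℝ] V} (hM : Function.Injective M) (u : V) :
    M (Ring.inverse M u) = u ∧ Ring.inverse M (M u) = u :=
  ⟨congrArg (fun L : V →L[ℝ] V => L u) (Ring.mul_inverse_cancel M (HP2_unit hM)),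
    congrArg (fun L : V →L[ℝ] V => L u) (Ring.inverse_mul_cancel M (HP2_unit hM))⟩

theorem HP2_cont {M : V →L[ℝ] V} (hM : Function.Injective M) :
    ContinuousAt (Ring.inverse : (V →L[ℝ] V) → V →L[ℝ] V) M := by
  have := FiniteDimensional.complete ℝ V
  obtain ⟨u, rfl⟩ := HP2_unit hM
  exact NormedRing.inverse_continuousAt u

theorem HP2_gen {X : Type} [TopologicalSpace X] {K : Set X} (hK : IsCompact K) {σ : X → ℝ}
    {S M : X → V →L[ℝ] V} (hσ : ContinuousOn σ K) (hS : ContinuousOn S K)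
    (hM : ContinuousOn M K) (hi : ∀ z ∈ K, Function.Injective (M z)) :
    ∃ C > 0, ∀ z ∈ K, ∀ D : Bil V, ‖σ z • pbB (S z) D‖ ≤ C * ‖pbB (M z) D‖ := by
  let N : X → V →L[ℝ] V := fun z => (Ring.inverse (M z)).comp (S z)
  have h3 : ContinuousOn N K := by
    refine ContinuousOn.clm_comp (fun z hz => ?_) hS
    exact (HP2_cont (hi z hz)).comp_continuousWithinAt (hM z hz)
  obtain ⟨C, hC⟩ := hK.exists_bound_of_continuousOn (hσ.norm.mul (h3.norm.mul h3.norm))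
  refine ⟨max C 1, lt_max_of_lt_right one_pos, fun z hz D => ?_⟩
  have e : pbB (S z) D = pbB (N z) (pbB (M z) D) := by
    refine ContinuousLinearMap.ext fun u => ContinuousLinearMap.ext fun v => ?_
    simp only [pbB_apply, N, ContinuousLinearMap.comp_apply, (HP2_inv (hi z hz) _).1]
  have h1 := norm_pbB_le (N z) (pbB (M z) D)
  have h2 : ‖σ z‖ * (‖N z‖ * ‖N z‖) ≤ max C 1 :=
    ((le_abs_self _).trans (hC z hz)).trans (le_max_left _ _)
  rw [e]
  calc _ ≤ ‖σ z‖ * ‖pbB (N z) (pbB (M z) D)‖ := ContinuousLinearMap.opNorm_smul_le _ _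
    _ ≤ ‖σ z‖ * (‖N z‖ * ‖N z‖ * ‖pbB (M z) D‖) :=
        mul_le_mul_of_nonneg_left h1 (norm_nonneg _)
    _ = ‖σ z‖ * (‖N z‖ * ‖N z‖) * ‖pbB (M z) D‖ := by ring
    _ ≤ _ := mul_le_mul_of_nonneg_right h2 (ContinuousLinearMap.opNorm_nonneg _)

theorem HP2_add {𝒞 : Set (Bil V)} (hc : IsCompact 𝒞) (hnd : ∀ w ∈ 𝒞, ND ⊤ w) :
    ∃ ε > 0, ∀ w ∈ 𝒞, ∀ D : Bil V, (∀ u, D u u = 0) → ‖D‖ ≤ ε → ND ⊤ (w + D) := by
  obtain ⟨ε, h0, h⟩ := nd_unif hc hnd
  refine ⟨ε, h0, fun w hw D hD hn => h w hw _ (fun u => ?_) ?_⟩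
  · rw [add_apply, add_apply, (hnd w hw).1 u trivial, hD, add_zero]
  · have e : w + D - w = D :=
      ContinuousLinearMap.ext fun u => ContinuousLinearMap.ext fun v => add_sub_cancel_left _ _
    rwa [e]

theorem HP2_ev {X : Type} {l : Filter X} {g : X → Bil V} {w : Bil V} (hw : ND ⊤ w)
    (hg : Tendsto g l (𝓝 w)) (ha : ∀ x u, g x u u = 0) : ∀ᶠ x in l, ND ⊤ (g x) := by
  obtain ⟨ε, h0, h⟩ := nd_unif (isCompact_singleton (x := w)) (by
    rintro _ rfl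
    exact hw)
  filter_upwards [(Metric.tendsto_nhds (α := Bil V)).1 hg ε h0] with x hx
  exact h _ rfl _ (ha x) ((dist_eq_norm (g x) w).symm.trans_lt hx).le

end gen

/-- Uniform nondegeneracy on the closed tube. Sketch: `nd_unif` for the image of `Cyl P R` under
`dF lam`; pull back by `Sc P (ht P y)` (`Adm.dF_hom`, `nd_of_pbB`, `nd_smul`). -/
theorem unif (hP : IsOP P) (hl : Adm P lam) (hc : Ct P R lam) :
    ∃ ε > 0, ∀ y : F × F, P y.1 ≠ 0 → rad P y ≤ R → ∀ D : Bil (F × F), (∀ u, D u u = 0) →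
      nrm P y D ≤ ε → ND ⊤ (dF lam y + D) := by
  have hK : IsCompact (dF lam '' Cyl P R) :=
    (isCompact_Cyl R).image_of_continuousOn (hl.contOn_dF.mono fun y hy => ne_of_ht hy.1)
  obtain ⟨ε, h0, h⟩ := HP2_add hK (by
    rintro _ ⟨y, hy, rfl⟩
    exact hc y hy)
  refine ⟨ε, h0, fun y hy hr D hD hn => ?_⟩
  have hρ := ht_pos hy
  have h1 := hl.dF_hom hP hρ (ne_of_ht (ht_nz hP hy))
  rw [Sc_nz hP hy] at h1
  have ha : ∀ u, (dF lam y + D) u u = 0 := fun u => by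
    rw [add_apply, add_apply, dF_alt, hD, add_zero]
  have h2 : ND ⊤ (dF lam (nz P y) + (ht P y)⁻¹ • pbB (Sc P (ht P y)) D) := by
    refine h _ ⟨_, nz_mem_Cyl hP hy hr, rfl⟩ _ (fun u => ?_) hn
    rw [smul_apply, smul_apply, pbB_apply, hD, smul_zero]
  have h3 := nd_smul h2 hρ.ne'
  have e : ht P y • (dF lam (nz P y) + (ht P y)⁻¹ • pbB (Sc P (ht P y)) D)
      = pbB (Sc P (ht P y)) (dF lam y + D) := by
    rw [pbB_add, h1]
    refine ContinuousLinearMap.ext fun u => ContinuousLinearMap.ext fun v => ?_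
    simp only [smul_apply, add_apply, smul_eq_mul, mul_add, mul_inv_cancel_left₀ hρ.ne']
  rw [e] at h3
  exact (nd_of_pbB ha h3).1

theorem HP2_bound {φ : F × F → F × F} (he : Eqv P φ)
    (hi : ∀ y : F × F, P y.1 ≠ 0 → Function.Injective (fderiv ℝ φ y)) (R : ℝ) :
    ∃ C > 0, ∀ z ∈ Cyl P R, ∀ D : Bil (F × F),
      ‖(ht P (φ z))⁻¹ • pbB (Sc P (ht P (φ z))) D‖ ≤ C * ‖pbB (fderiv ℝ φ z) D‖ := by
  have h1 : ∀ z ∈ Cyl P R, ContinuousAt (fun z => ht P (φ z)) z := fun z hz =>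
    (contDiffAt_ht (he.ne z (ne_of_ht hz.1))).continuousAt.comp
      (he.sm z (ne_of_ht hz.1)).continuousAt
  refine HP2_gen (V := F × F) (isCompact_Cyl R) (σ := fun z => (ht P (φ z))⁻¹)
    (S := fun z => Sc P (ht P (φ z))) (M := fderiv ℝ φ) (fun z hz => ?_) (fun z hz => ?_)
    (fun z hz => ?_) fun z hz => hi z (ne_of_ht hz.1)
  · exact ((h1 z hz).inv₀ (ht_pos (he.ne z (ne_of_ht hz.1))).ne').continuousWithinAt
  · exact ((contDiff_Sc (P := P)).continuous.continuousAt.comp (h1 z hz)).continuousWithinAt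
  · exact ((he.sm z (ne_of_ht hz.1)).fderiv_right (m := ∞)
      (by simp)).continuousAt.continuousWithinAt

/-- Sketch: both sides are unchanged when `y` is replaced by `nz P y` and `D` by
`(ht P y)⁻¹ • pbB (Sc P (ht P y)) D` (`Eqv.fderiv_Sc`). For `y ∈ Cyl P R` the map
`K y = Sc P (ht P (H 1 y))⁻¹ ∘ fderiv (H 1) y` is injective and continuous in `y`, so
`c ‖u‖ ≤ ‖K y u‖` and `c ≤ ht P (H 1 y)` by compactness; `K y` is onto. -/
theorem HPath.trans (hP : IsOP P) (h : HPath P R H) :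
    ∃ C > 0, ∀ y : F × F, P y.1 ≠ 0 → rad P y ≤ R → ∀ D : Bil (F × F),
      nrm P (H 1 y) D ≤ C * nrm P y (pbB (fderiv ℝ (H 1) y) D) := by
  have h1 : (1 : ℝ) ∈ Icc (0 : ℝ) 1 := ⟨zero_le_one, le_rfl⟩
  have he := h.toEqv h1
  obtain ⟨C, h0, hC⟩ := HP2_bound he (h.inj 1 h1) R
  refine ⟨C, h0, fun y hy hr D => ?_⟩
  have hρ := ht_pos hy
  have hz := nz_mem_Cyl hP hy hr
  have hz' := ne_of_ht hz.1
  have e0 : H 1 y = Sc P (ht P y) (H 1 (nz P y)) := by
    rw [← he.eqv _ hρ _ hz', Sc_nz hP hy]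
  have e1 : nrm P (H 1 y) D = ‖(ht P (H 1 (nz P y)))⁻¹ • pbB (Sc P (ht P (H 1 (nz P y))))
      ((ht P y)⁻¹ • pbB (Sc P (ht P y)) D)‖ := by
    rw [nrm, e0, ht_Sc hP hρ]
    congr 1
    refine ContinuousLinearMap.ext fun u => ContinuousLinearMap.ext fun v => ?_
    simp only [smul_apply, pbB_apply, smul_eq_mul, Sc_Sc hP, mul_inv]
    ring
  have e2 : nrm P y (pbB (fderiv ℝ (H 1) y) D) = ‖pbB (fderiv ℝ (H 1) (nz P y))
      ((ht P y)⁻¹ • pbB (Sc P (ht P y)) D)‖ := by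
    rw [nrm]
    congr 1
    refine ContinuousLinearMap.ext fun u => ContinuousLinearMap.ext fun v => ?_
    simp only [smul_apply, pbB_apply, ← he.fderiv_Sc hP hρ hz', Sc_nz hP hy]
  rw [e1, e2]
  exact hC _ hz _

/-- An injective endomorphism pulls forms back bijectively. -/
theorem exists_pbB {M : F × F →L[ℝ] F × F} (hM : Function.Injective M) {D : Bil (F × F)}
    (hD : ∀ u, D u u = 0) : ∃ D' : Bil (F × F), (∀ u, D' u u = 0) ∧ pbB M D' = D := by
  refine ⟨pbB (Ring.inverse M) D, fun u => hD _, ?_⟩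
  refine ContinuousLinearMap.ext fun u => ContinuousLinearMap.ext fun v => ?_
  simp only [pbB_apply, (HP2_inv hM _).2]

/-- Contact near the core, uniformly in a parameter. Sketch: `nd_unif` on the image of
`Icc 0 1 ×ˢ core`, `IsCompact.eventually_forall_of_forall_eventually`, `exists_cyl`. -/
theorem exists_ct (hP : IsOP P) {fam : ℝ → Form1 (F × F)}
    (hc : ContinuousOn (fun z : ℝ × (F × F) => dF (fam z.1) z.2) (Icc 0 1 ×ˢ {y | P y.1 ≠ 0}))
    (hn : ∀ s ∈ Icc (0 : ℝ) 1, ∀ q ∈ core P, ND ⊤ (jet (fam s) q)) :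
    ∃ r > 0, ∀ s ∈ Icc (0 : ℝ) 1, Ct P r (fam s) := by
  have key : ∀ q ∈ core P, ∀ᶠ y in 𝓝 (q, (0 : F)), ∀ s ∈ Icc (0 : ℝ) 1,
      s ∈ Icc (0 : ℝ) 1 → ND ⊤ (dF (fam s) y) := by
    intro q hq
    refine isCompact_Icc.eventually_forall_of_forall_eventually
      (P := fun y s => s ∈ Icc (0 : ℝ) 1 → ND ⊤ (dF (fam s) y)) fun s hs => ?_
    have h1 := hc (s, (q, 0)) ⟨hs, core_ne hq⟩
    have h2 := eventually_nhdsWithin_iff.1
      (HP2_ev (V := F × F) (hn s hs q hq) h1 fun _ => dF_alt _ _)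
    have h3 : Tendsto (fun z : (F × F) × ℝ => (z.2, z.1)) (𝓝 ((q, (0 : F)), s))
        (𝓝 (s, (q, (0 : F)))) := continuous_swap.continuousAt
    have h4 : ∀ᶠ z : (F × F) × ℝ in 𝓝 ((q, (0 : F)), s), P z.1.1 ≠ 0 :=
      (continuous_fst.tendsto ((q, (0 : F)), s)).eventually
        (eventually_ne (y := (q, (0 : F))) (core_ne hq))
    filter_upwards [h3.eventually h2, h4] with z a b c
    exact a ⟨c, b⟩
  obtain ⟨r, hr, h⟩ := exists_cyl hP key
  exact ⟨r, hr, fun s hs y hy => h y hy s hs hs⟩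

end Pool.Agent.Lib.MP_ccffa6_gt.ELI
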