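import Pool.Agent.Lib.MP_ccffa6_gt.ELI.HLam
import Pool.Agent.Lib.MP_ccffa6_gt.ELI.HMd

/-! The handle step. -/

open Set Filter Topology Metric
open scoped ContDiff RealInnerProductSpace

noncomputable section

namespace Pool.Agent.Lib.MP_ccffa6_gt

variable {E : Type} [NormedAddCommGroup E] [NormedSpace ℝ E] [FiniteDimensional ℝ E]
  {K : Type} [NormedAddCommGroup K] [NormedSpace ℝ K] [FiniteDimensional ℝ K]
  {F : Type} [NormedAddCommGroup F] [InnerProductSpace ℝ F] [FiniteDimensional ℝ F]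
  {n : ℕ} {η : Bil K} {W O N N' : Set E} {g j : E → ℝ} {P : F →L[ℝ] F} {R δ : ℝ} {Q : F × F → ℝ}
  {φ : F × F → E} {ψ : E → F × F} {Ω : E → Bil (E × K)} {Y Y₀ : E → E} {Φ : ℝ → E → E}

omit [NormedAddCommGroup E] [NormedSpace ℝ E] [FiniteDimensional ℝ E] in
theorem hstep_sub {y : E} (hy : y ∈ HSl W g (-2) (-1 / 2)) : y ∈ HSl W g (-5 / 2) (-1 / 4) :=
  ⟨hy.1, Icc_subset_Icc (by norm_num) (by norm_num) hy.2⟩

/-- Transport of a homotopy to the upper level. -/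
theorem HFl.transport (hf : HFl W g P R φ δ j Y Φ N) (h : HData n η W g P R Q φ ψ O Ω)
    {Ω₀ Ω₁ : E → Bil (E × K)} (h0 : NDField (HSl W g (-2) (-1 / 2)) (fun x => pl (Tan W x) K) Ω₀)
    (h1 : NDField (HSl W g (-2) (-1 / 2)) (fun x => pl (Tan W x) K) Ω₁)
    (e : NDHtpy (Lev W g (-2) ∪ HSl W g (-2) (-1 / 2) ∩ {y | 3 / 5 ≤ j y})
      (fun x => pl (Tan W x) K) Ω₀ Ω₁) :
    NDHtpy (Lev W g (-1 / 2)) (fun x => pl (Tan W x) K) Ω₀ Ω₁ := by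
  have hU := hf.up h (c := -1 / 2) (Or.inr rfl)
  have hT : ∀ y ∈ HSl W g (-2) (-1 / 2), Y y ∈ Tan W y := fun y hy =>
    hf.tan y ⟨hy.1, hf.sub (hstep_sub hy)⟩
  have st : ∀ x ∈ Lev W g (-1 / 2), ∀ t ∈ uIcc (0 : ℝ) (-3 / 2), Φ t x ∈ HSl W g (-2) (-1 / 2) ∧
      j (Φ t x) = j x ∧ (j x ≤ 2 / 3 → g (Φ t x) = -1 / 2 + t) := by
    intro x hx t ht
    rw [uIcc_of_ge (by norm_num)] at ht
    have hg : g x = -1 / 2 := hx.2
    have := hf.stay h hx.1 (t := t) (by rw [hg, min_eq_left ht.2]; linarith [ht.1])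
      (by rw [hg, max_eq_right ht.2]; norm_num)
    rw [hg, min_eq_left ht.2, max_eq_right ht.2] at this
    obtain ⟨a1, a2, a3, a4, a5⟩ := this
    exact ⟨⟨a1, by linarith [ht.1], by linarith⟩, a4, a5⟩
  have tr := fun {Ω : E → Bil (E × K)} hΩ => h_transport hf.fl h.sub h.sm (c := -1 / 2)
    (T := -3 / 2) (A := HSl W g (-2) (-1 / 2)) inter_subset_left (fun x hx => (hU.pos x hx).ne') hT
    (fun x hx t ht => (st x hx t ht).1) (Ω := Ω) hΩ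
  have hm := fun x hx => st x hx _ right_mem_uIcc
  refine (tr h0).trans (NDHtpy.trans ?_ (tr h1).symm)
  refine e.comp (hf.fl.sm_t _).continuous.continuousOn (fun x hx => ?_)
    (((h_flow_cont hf.fl).comp (continuous_const.prodMk continuous_id)).continuousOn.prod_mapL ℝ
      continuousOn_const) fun x hx => pK_bijOn (h_flow_bijOn hf.fl h.sub h.sm
        (fun x hx => ⟨hU.tan x hx, (hU.pos x hx).ne'⟩)
        (fun x hx => ⟨(hm x hx).1.1, hT _ (hm x hx).1⟩) hx)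
  obtain ⟨a1, a2, a3⟩ := hm x hx
  rcases le_total (j x) (2 / 3) with hj | hj
  · exact Or.inl ⟨a1.1, (a3 hj).trans (by norm_num)⟩
  · refine Or.inr ⟨a1, ?_⟩
    show 3 / 5 ≤ j _
    rw [a2]
    linarith

/-- The homotopy on the lower level and on the handle. -/
theorem HFl.htpy (hf : HFl W g P R φ δ j Y Φ N) (h : HData n η W g P R Q φ ψ O Ω)
    (hY : HFld W g P R φ Y₀ N') {ε : ℝ} (hδ : ∀ p, hI P p ≤ δ → Q p = -2 → hs P p = 1 ∧ hr P p < ε)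
    {β lam : Form1 E} {ν : E → E} (hβ : CMan n (Lev W g (-2)) β)
    (hR : RH (Lev W g (-2)) (φ '' {p | p ∈ hCyl P ∧ hr P p < ε}) (fun x => pl (Tan W x) K)
      (fun x => upf η g β (Y₀ x) x) Ω)
    (hl : LSlab n W g (-2) (-1 / 2) ν lam) (e : EqT (Lev W g (-2)) β lam)
    (e' : ∀ y, 1 / 2 < j y → lam =ᶠ[𝓝 y] pb ψ (hlam P)) :
    NDHtpy (Lev W g (-2) ∪ HSl W g (-2) (-1 / 2) ∩ {y | 3 / 5 ≤ j y}) (fun x => pl (Tan W x) K)
      (fun x => osum (dF lam x) η) Ω := by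
  obtain ⟨Z, hZ, eZ⟩ := hl.exists_up η (c := -2) (Or.inl rfl)
  have hY₀ := hY.up h (c := -2) (Or.inl rfl)
  have big := h.md.big
  have ch : ∀ x ∈ HSl W g (-2) (-1 / 2) ∩ {y | 3 / 5 ≤ j y}, ∃ z ∈ closedBall (0 : F × F) (R - 1),
      z ∈ ball (0 : F × F) R ∧ φ z = x ∧ hI P z ≤ δ ∧ lam =ᶠ[𝓝 (φ z)] pb ψ (hlam P) := by
    intro x hx
    have h1 : 3 / 5 ≤ j x := hx.2
    obtain ⟨z, hz, rfl, h2, -⟩ := hf.ch x (hstep_sub hx.1) (by linarith)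
    exact ⟨z, closedBall_subset_closedBall (by linarith) hz,
      closedBall_subset_ball (by linarith) hz, rfl, h2, e' _ (by linarith)⟩
  have r1 := ((hZ.change hY₀ h.sub h.sm (hl.cMan (Or.inl rfl)) h.nd).mono
    (B' := HSl W g (-2) (-1 / 2) ∩ {y | 3 / 5 ≤ j y}) fun x hx => by
      obtain ⟨z, h1, h2, rfl, -, h3⟩ := ch x hx.2
      exact ((h.model h2 h3).2.2 _ (hZ.tan _ hx.1) (eZ _ hx.1).1).trans
        (hY.ch z h1 (hY.sub (hstep_sub hx.2.1))).symm).congr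
    (fun x hx u hu v hv => ((eZ x hx).2 u hu v hv).symm)
    fun x hx u hu v hv => (hY₀.upf_congr h.sub h.sm hβ hl.sm e hx hu hv).symm
  have r2 := hR.mono (B' := HSl W g (-2) (-1 / 2) ∩ {y | 3 / 5 ≤ j y}) fun x hx => by
    obtain ⟨z, -, h2, rfl, h3, -⟩ := ch x hx.2
    exact ⟨z, hδ z h3 ((h.val z h2).symm.trans hx.1.2), rfl⟩
  have hc : IsCompact (HSl W g (-2) (-1 / 2)) := h.cpt' (by norm_num) (by norm_num)
  obtain ⟨Pr, U, p1, -, p2, p3⟩ := h.sub.exists_proj hc inter_subset_left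
  have hs : Lev W g (-2) ∪ HSl W g (-2) (-1 / 2) ∩ {y | 3 / 5 ≤ j y} ⊆ HSl W g (-2) (-1 / 2) := by
    rintro x (hx | hx)
    · have hg : g x = -2 := hx.2
      exact ⟨hx.1, hg.ge, hg.trans_le (by norm_num)⟩
    · exact hx.1
  refine (r1.trans r2).glue (h.cpt_lev (by norm_num) (by norm_num)).isClosed
    (hc.isClosed.inter (isClosed_le continuous_const hf.sm.continuous)) (Pr := fun x => pK (Pr x) K)
    (p1.continuous.continuousOn.prod_mapL ℝ continuousOn_const) (fun x hx => ?_)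
    (NDField.plus ⟨(contDiff_dF hl.sm).continuous.continuousOn, fun x hx => hl.nd x hx.1⟩ h.nd)
    fun x hx => ?_
  · obtain ⟨a1, a2⟩ := p3 x ⟨(hs hx).1, p2 (hs hx)⟩
    exact ⟨fun v => mem_pl.2 (a1 v.1), fun v hv => Prod.ext (a2 v.1 (mem_pl.1 hv)) rfl⟩
  · obtain ⟨z, h1, h2, rfl, -, h3⟩ := ch x hx
    refine (h.eq_iff h2 _ _).1 ?_
    rw [h.nrm z h1 (hstep_sub hx.1), (h.model h2 h3).1]
    refine ContinuousLinearMap.ext fun u => ContinuousLinearMap.ext fun v => ?_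
    show hom P (fderiv ℝ ψ (φ z) (fderiv ℝ φ z u.1)) (fderiv ℝ ψ (φ z) (fderiv ℝ φ z v.1)) +
      η u.2 v.2 = hom P u.1 v.1 + η u.2 v.2
    rw [h.ch.left_inv h2, h.ch.left_inv h2]

/-- The handle step. -/
theorem h_step (hT : TubeH n) (hn : 1 ≤ n) (h : HData n η W g P R Q φ ψ O Ω)
    (hK : KG n η W g (-2) Ω) : KG n η W g (-1 / 2) Ω := by
  obtain ⟨Y₀, N', hY⟩ := h.exists_fld
  obtain ⟨β, ε, h0, h1, hβ, hG, hm, hR⟩ := hY.exists_mod h hT hn hK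
  obtain ⟨δ, hδ0, hδ⟩ := h.md.low ε h0
  obtain ⟨j, Y, Φ, N, hf⟩ := h.exists_fl hδ0
  obtain ⟨lam, ν, hl, e, e'⟩ := hf.exists_lam h h1 hδ hβ hm
  have ht := hf.transport h
    (NDField.plus ⟨(contDiff_dF hl.sm).continuous.continuousOn, hl.nd⟩ h.nd)
    (h.fld.hmono fun _ hy => hstep_sub hy) (hf.htpy h hY hδ hβ hR hl e e')
  obtain ⟨Z, hZ, eZ⟩ := hl.exists_up η (c := -1 / 2) (Or.inr rfl)
  exact ⟨lam, Z, hl.cMan (Or.inr rfl),
    hl.good (hG.congr fun x hx v hv => (e x hx v hv).symm), hZ,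
    ht.congr (fun x hx => (eZ x hx).2) fun _ _ _ _ _ _ => rfl⟩

end Pool.Agent.Lib.MP_ccffa6_gt
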