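import Pool.Agent.Lib.MP_ccffa6_gt.K.Fam

/-! Isotopy extension for families which are only continuous in the parameter. -/

open Set Filter Topology
open scoped ContDiff

noncomputable section

namespace Pool.Agent.Lib.MP_ccffa6_gt

/-- Isotopy extension for tubes. `S` is a subset with a smooth local retraction `ρ` (`S = univ`,
`ρ = id` is allowed), `G t` are embeddings near the compact set `C ⊆ S` which preserve `S`. -/
def IEGen : Prop :=
  ∀ (E : Type) [NormedAddCommGroup E] [NormedSpace ℝ E] [FiniteDimensional ℝ E]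
    (S O U C : Set E) (ρ : E → E) (G : ℝ → E → E), IsOpen O → IsOpen U → IsCompact C → C ⊆ S ∩ O →
    ContDiffOn ℝ ∞ ρ O → MapsTo ρ O S → (∀ p ∈ S ∩ O, ρ p = p) →
    (∀ t ∈ Icc (0 : ℝ) 1, ContDiffOn ℝ ∞ (G t) O) →
    ContinuousOn (fun z : ℝ × E => G z.1 z.2) (Icc (0 : ℝ) 1 ×ˢ O) →
    ContinuousOn (fun z : ℝ × E => fderiv ℝ (G z.1) z.2) (Icc (0 : ℝ) 1 ×ˢ O) →
    (∀ t ∈ Icc (0 : ℝ) 1, InjOn (G t) C ∧ MapsTo (G t) C U ∧
      (∀ p ∈ C, Function.Injective (fderiv ℝ (G t) p)) ∧ ∀ p ∈ O, (G t p ∈ S ↔ p ∈ S)) →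
    ∃ (φ : ℝ → E → E) (K : Set E), IsCompact K ∧ K ⊆ U ∧ (∀ t, ContDiff ℝ ∞ (φ t)) ∧
      Continuous (fun z : ℝ × E => φ z.1 z.2) ∧
      Continuous (fun z : ℝ × E => fderiv ℝ (φ z.1) z.2) ∧
      (∀ p, φ 0 p = p) ∧ (∀ t, ∀ p ∉ K, φ t p = p) ∧
      (∀ t, MapsTo (φ t) S S ∧ MapsTo (φ t) U U ∧
        ∀ p ∈ S, ∀ v ∈ Tan S p, fderiv ℝ (φ t) p v = 0 → v = 0) ∧
      ∀ᶠ p in 𝓝ˢ C, p ∈ S → ∀ t ∈ Icc (0 : ℝ) 1, φ t (G 0 p) = G t p

variable {E : Type} [NormedAddCommGroup E] [NormedSpace ℝ E]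

/-- An ambient isotopy which carries `G a` to `G t` for `t ∈ [a, b]`, on `S` near `C`. -/
def IEGood (S U C : Set E) (G : ℝ → E → E) (a b : ℝ) : Prop :=
  ∃ (φ : ℝ → E → E) (K : Set E), IsCompact K ∧ K ⊆ U ∧ PFam univ φ ∧
    (∀ t, ∀ p ∉ K, φ t p = p) ∧
    (∀ t, MapsTo (φ t) S S ∧ MapsTo (φ t) U U ∧ ∀ p, Function.Injective (fderiv ℝ (φ t) p)) ∧
    (∀ t ≤ a, ∀ p, φ t p = p) ∧ (∀ t, b ≤ t → φ t = φ b) ∧
    ∀ᶠ p in 𝓝ˢ C, p ∈ S → ∀ t ∈ Icc a b, φ t (G a p) = G t p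

theorem IEGood.trans {S U C : Set E} {G : ℝ → E → E} {a b c : ℝ} (h : IEGood S U C G a b)
    (h' : IEGood S U C G b c) (hab : a ≤ b) (hbc : b ≤ c) : IEGood S U C G a c := by
  obtain ⟨φ, K, k1, k2, f1, f2, f3, f4, f5, f6⟩ := h
  obtain ⟨ψ, L, l1, l2, g1, g2, g3, g4, g5, g6⟩ := h'
  refine ⟨fun t p => ψ t (φ t p), K ∪ L, k1.union l1, union_subset k2 l2,
    g1.comp f1 isOpen_univ isOpen_univ fun _ _ _ => trivial, fun t p hp => ?_, fun t =>
    ⟨(g3 t).1.comp (f3 t).1, (g3 t).2.1.comp (f3 t).2.1, fun p => ?_⟩, fun t ht p => ?_,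
    fun t ht => ?_, ?_⟩
  · beta_reduce
    rw [f2 t p fun h => hp (Or.inl h), g2 t p fun h => hp (Or.inr h)]
  · rw [show fderiv ℝ (fun p => ψ t (φ t p)) p = _ from fderiv_comp p
      (g1.diff isOpen_univ t trivial) (f1.diff isOpen_univ t trivial)]
    exact ((g3 t).2.2 _).comp ((f3 t).2.2 p)
  · beta_reduce
    rw [f4 t ht, g4 t (ht.trans hab)]
  · beta_reduce
    rw [g5 t ht, f5 t (hbc.trans ht), f5 c hbc]
  · filter_upwards [f6, g6] with p p1 p2 hp t ht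
    rcases le_total t b with h | h
    · rw [g4 t h, p1 hp t ⟨ht.1, h⟩]
    · rw [f5 t h, p1 hp b ⟨hab, le_rfl⟩, p2 hp t ⟨h, ht.2⟩]

variable [FiniteDimensional ℝ E]

/-- The local step near a time where the family is the identity. -/
theorem ie_local_id {S O U C : Set E} {ρ : E → E} {g : ℝ → E → E} {T : ℝ} (hO : IsOpen O)
    (hU : IsOpen U) (hC : IsCompact C) (hCO : C ⊆ O ∩ U) (hρ : ContDiffOn ℝ ∞ ρ O)
    (hm : MapsTo ρ O S) (hf : ∀ p ∈ S ∩ O, ρ p = p) (hg : PFam O g) (hT : ∀ p ∈ O, g T p = p)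
    (hS : ∀ t, MapsTo (g t) (S ∩ O) S) :
    ∃ δ > 0, ∀ a ∈ Metric.ball T δ, ∀ b ∈ Metric.ball T δ, a ≤ b → IEGood S U C g a b := by
  obtain ⟨χ, c1, -, c2, c3, c4⟩ := exists_cutoff hC.isClosed (hO.inter hU) hCO
  have hK : IsCompact (tsupport χ) := c4 hC
  have hKO : tsupport χ ⊆ O := fun x hx => (c3 hx).1
  obtain ⟨r, r1, r2, -⟩ := exists_smooth_nhdsSet hK.isClosed hO hKO hρ
  obtain ⟨V, hV, hKV, hVr⟩ := mem_nhdsSet_iff_exists.1 (r2.and (hO.mem_nhdsSet.2 hKO))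
  have hid : PFam univ fun (_ : ℝ) (x : E) => x := PFam.const isOpen_univ contDiffOn_id
  obtain ⟨H, hH⟩ : ∃ H : ℝ → E → E, H = fun t x => x + χ x • (g t x - x) := ⟨_, rfl⟩
  have H1 : PFam univ H := hH ▸ hid.add ((hg.sub (hid.mono (subset_univ _)) hO).cut hO c1 hKO)
    isOpen_univ
  have H2 : ∀ t, ∀ x ∉ tsupport χ, H t x = x := fun t x hx => by
    simp [hH, image_eq_zero_of_notMem_tsupport hx]
  have H3 : ∀ x, H T x = x := fun x => by
    by_cases hx : x ∈ tsupport χ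
    · simp [hH, hT x (hKO hx)]
    · exact H2 T x hx
  obtain ⟨m, hm'⟩ : ∃ m : ℝ × ℝ → E → E,
      m = fun q x => H q.1 x + (r (H q.2 x) - r (H q.1 x)) := ⟨_, rfl⟩
  have m1 : PFam univ m := hm' ▸ (H1.reparam continuous_fst).add
    (((H1.reparam continuous_snd).map isOpen_univ r1).sub
      ((H1.reparam continuous_fst).map isOpen_univ r1) isOpen_univ) isOpen_univ
  have m2 : ∀ q, ∀ x ∉ tsupport χ, m q x = x := fun q x hx => by simp [hm', H2 _ x hx]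
  have e1 := H1.near_id hK hV hKV H2 H3
  have e2 := m1.near_id hK hU (fun x hx => (c3 hx).2) m2 (t₀ := (T, T)) fun x => by
    simp [hm', H3]
  obtain ⟨δ, hδ, e3⟩ := Metric.eventually_nhds_iff_ball.1
    (e2.and ((continuous_fst.tendsto (T, T)).eventually e1 |>.and
      ((continuous_snd.tendsto (T, T)).eventually e1)))
  refine ⟨δ, hδ, fun a ha b hb hab => ?_⟩
  have hτ : ∀ t, max a (min t b) ∈ Icc a b := fun t =>
    ⟨le_max_left _ _, max_le hab (min_le_right _ _)⟩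
  have e4 := fun t => e3 (a, max a (min t b)) (by
    rw [← ball_prod_same]
    exact ⟨ha, (convex_ball T δ).ordConnected.out ha hb (hτ t)⟩)
  obtain ⟨J, J1, J2, J3⟩ := exists_inverse_of_near_id (H1.contDiff a) (e4 a).2.1.1
  have J4 : ∀ p ∉ tsupport χ, J p = p := fun p hp => by
    conv_lhs => rw [← H2 a p hp, J2]
  have J5 : ∀ p ∈ tsupport χ, J p ∈ tsupport χ := fun p hp => by
    by_contra h
    have := H2 a _ h
    rw [J3] at this
    exact h (this ▸ hp)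
  have f2 : ∀ t, ∀ p ∉ tsupport χ, m (a, max a (min t b)) (J p) = p := fun t p hp => by
    rw [J4 p hp, m2 _ p hp]
  refine ⟨fun t p => m (a, max a (min t b)) (J p), tsupport χ, hK, fun x hx => (c3 hx).2,
    (m1.reparam (by fun_prop)).comp (PFam.const isOpen_univ J1.contDiffOn) isOpen_univ
      isOpen_univ fun _ _ _ => trivial, f2, fun t => ⟨fun p hp => ?_, fun p hp => ?_, fun p => ?_⟩,
    fun t ht p => ?_, fun t ht => ?_, ?_⟩
  · by_cases hK : p ∈ tsupport χ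
    · have h1 := hVr ((e4 t).2.2.2 (J5 p hK))
      have h2 := hVr (hKV hK)
      have h3 : m (a, max a (min t b)) (J p) = ρ (H (max a (min t b)) (J p)) := by
        simp only [hm', J3]
        rw [h1.1, h2.1, hf p ⟨hp, h2.2⟩, add_sub_cancel]
      exact mem_of_eq_of_mem h3 (hm h1.2)
    · exact mem_of_eq_of_mem (f2 t p hK) hp
  · by_cases hK : p ∈ tsupport χ
    · exact (e4 t).1.2 (J5 p hK)
    · exact mem_of_eq_of_mem (f2 t p hK) hp
  · rw [show fderiv ℝ (fun p => m (a, max a (min t b)) (J p)) p = _ from fderiv_comp p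
      (m1.diff isOpen_univ _ trivial) (J1.differentiable (by simp) p)]
    refine (injective_of_near_id ((e4 t).1.1 _)).comp (Function.LeftInverse.injective
      (g := fderiv ℝ (H a) (J p)) fun v => ?_)
    have := fderiv_comp p (H1.diff isOpen_univ a (x := J p) trivial)
      (J1.differentiable (by simp) p)
    rw [show H a ∘ J = id from funext J3, fderiv_id] at this
    exact (congrArg (fun L => L v) this).symm
  · simp [hm', max_eq_left ((min_le_left t b).trans ht), J3]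
  · simp only [min_eq_right ht, min_self]
  · filter_upwards [c2] with y y1 hy t ht
    have hK : y ∈ tsupport χ := subset_tsupport _ (by simp [y1])
    have h1 : ∀ s, H s y = g s y := fun s => by simp [hH, y1]
    have h2 : ∀ s, H s y ∈ V → r (H s y) = H s y := fun s hs => by
      rw [(hVr hs).1, hf _ ⟨h1 s ▸ hS s ⟨hy, hKO hK⟩, (hVr hs).2⟩]
    have h3 : max a (min t b) = t := by rw [min_eq_left ht.2, max_eq_right ht.1]
    have h4 := (e4 t).2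
    rw [← h1 a, J2]
    simp only [hm', h3] at h4 ⊢
    rw [h2 a (h4.1.2 hK), h2 t (h4.2.2 hK), add_sub_cancel, h1]

theorem ie_local {S O U C : Set E} {ρ : E → E} {G : ℝ → E → E} (T : ℝ) (hO : IsOpen O)
    (hU : IsOpen U) (hC : IsCompact C) (hCO : C ⊆ S ∩ O) (hρ : ContDiffOn ℝ ∞ ρ O)
    (hm : MapsTo ρ O S) (hf : ∀ p ∈ S ∩ O, ρ p = p) (hG : PFam O G) (hi : InjOn (G T) C)
    (hCU : MapsTo (G T) C U) (hd : ∀ p ∈ C, Function.Injective (fderiv ℝ (G T) p))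
    (hS : ∀ t, ∀ p ∈ O, (G t p ∈ S ↔ p ∈ S)) :
    ∃ δ > 0, ∀ a ∈ Metric.ball T δ, ∀ b ∈ Metric.ball T δ, a ≤ b → IEGood S U C G a b := by
  have hO₁ : IsOpen (O ∩ ρ ⁻¹' O) := hρ.continuousOn.isOpen_inter_preimage hO hO
  have hC₁ : C ⊆ O ∩ ρ ⁻¹' O := fun p hp =>
    ⟨(hCO hp).2, by rw [mem_preimage, hf p (hCO hp)]; exact (hCO hp).2⟩
  obtain ⟨γ, O', γ1, hO', γ2, γ3, γ4⟩ := exists_inverse_near hC hO₁ hC₁
    ((hG.sm T).mono inter_subset_left) hi hd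
  have hc : ContinuousOn (G T) O := (hG.sm T).continuousOn
  obtain ⟨δ, hδ, h⟩ := ie_local_id (S := S) (C := G T '' C) (ρ := fun y => G T (ρ (γ y)))
    (g := fun t y => G t (γ y)) (T := T) hO' hU
    (hC.image_of_continuousOn (hc.mono fun p hp => (hCO hp).2))
    (subset_inter γ2 hCU.image_subset)
    ((hG.sm T).comp (hρ.comp γ1.contDiffOn fun y hy => (γ3 y hy).1.1) fun y hy => (γ3 y hy).1.2)
    (fun y hy => (hS T _ (γ3 y hy).1.2).2 (hm (γ3 y hy).1.1))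
    (fun y hy => by
      have h1 := γ3 y hy.2
      rw [hf _ ⟨(hS T _ h1.1.1).1 (h1.2.symm ▸ hy.1), h1.1.1⟩, h1.2])
    (hG.comp (PFam.const hO' γ1.contDiffOn) hO hO' fun _ y hy => (γ3 y hy).1.1)
    (fun y hy => (γ3 y hy).2) fun t y hy => by
      have h1 := γ3 y hy.2
      exact (hS t _ h1.1.1).2 ((hS T _ h1.1.1).1 (h1.2.symm ▸ hy.1))
  refine ⟨δ, hδ, fun a ha b hb hab => ?_⟩
  obtain ⟨φ, K, k1, k2, f1, f2, f3, f4, f5, f6⟩ := h a ha b hb hab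
  refine ⟨φ, K, k1, k2, f1, f2, f3, f4, f5, ?_⟩
  have h1 : Tendsto (G T) (𝓝ˢ C) (𝓝ˢ (G T '' C)) :=
    hc.tendsto_nhdsSet (hO.mem_nhdsSet.2 fun p hp => (hCO hp).2) (mapsTo_image _ _)
  filter_upwards [h1.eventually f6, γ4, hO.mem_nhdsSet.2 fun p hp => (hCO hp).2]
    with p p1 p2 p3 hp t ht
  simpa only [p2] using p1 ((hS T p p3).2 hp) t ht

/-- Isotopy extension for a family indexed by all reals. -/
theorem ie_good {S O U C : Set E} {ρ : E → E} {G : ℝ → E → E} (hO : IsOpen O)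
    (hU : IsOpen U) (hC : IsCompact C) (hCO : C ⊆ S ∩ O) (hρ : ContDiffOn ℝ ∞ ρ O)
    (hm : MapsTo ρ O S) (hf : ∀ p ∈ S ∩ O, ρ p = p) (hG : PFam O G) (hi : ∀ t, InjOn (G t) C)
    (hCU : ∀ t, MapsTo (G t) C U) (hd : ∀ t, ∀ p ∈ C, Function.Injective (fderiv ℝ (G t) p))
    (hS : ∀ t, ∀ p ∈ O, (G t p ∈ S ↔ p ∈ S)) : IEGood S U C G 0 1 := by
  have hl := fun T => ie_local T hO hU hC hCO hρ hm hf hG (hi T) (hCU T) (hd T) hS
  refine isPreconnected_Ici.induction₂' (fun x y : ℝ =>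
    (∀ r ∈ Icc 0 x, IEGood S U C G 0 r) → ∀ r ∈ Icc 0 y, IEGood S U C G 0 r) (fun x hx => ?_)
    (fun _ _ _ _ _ _ h h' h0 => h' (h h0)) (le_refl (0 : ℝ))
    (mem_Ici.2 (zero_le_one' ℝ)) (fun r hr => ?_) 1 ⟨zero_le_one, le_rfl⟩
  · obtain ⟨δ, hδ, h⟩ := hl x
    have key : ∀ y ∈ Metric.ball x δ, ∀ z ∈ Metric.ball x δ, 0 ≤ y →
        (∀ r ∈ Icc 0 y, IEGood S U C G 0 r) → ∀ r ∈ Icc 0 z, IEGood S U C G 0 r :=
      fun y hy z hz h0 hP r hr => by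
        rcases le_total r y with h1 | h1
        · exact hP r ⟨hr.1, h1⟩
        · exact (hP y ⟨h0, le_rfl⟩).trans
            (h y hy r ((convex_ball x δ).ordConnected.out hy hz ⟨h1, hr.2⟩) h1) h0 h1
    filter_upwards [nhdsWithin_le_nhds (Metric.ball_mem_nhds x hδ), self_mem_nhdsWithin]
      with y y1 y2
    exact ⟨key x (Metric.mem_ball_self hδ) y y1 hx, key y y1 x (Metric.mem_ball_self hδ) y2⟩
  · obtain ⟨δ, hδ, h⟩ := hl 0
    rw [le_antisymm hr.2 hr.1]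
    exact h 0 (Metric.mem_ball_self hδ) 0 (Metric.mem_ball_self hδ) le_rfl

/-- Retraction of the line onto the unit interval. -/
def ie_cl (t : ℝ) : ℝ := max 0 (min t 1)

theorem ie_cl_mem (t : ℝ) : ie_cl t ∈ Icc (0 : ℝ) 1 :=
  ⟨le_max_left _ _, max_le zero_le_one (min_le_right _ _)⟩

theorem ie_cl_eq {t : ℝ} (ht : t ∈ Icc (0 : ℝ) 1) : ie_cl t = t := by
  simp only [ie_cl, min_eq_left ht.2, max_eq_right ht.1]

theorem ie_cl_cont : Continuous ie_cl := by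
  unfold ie_cl
  fun_prop

theorem ie_gen : IEGen := by
  intro E _ _ _ S O U C ρ G hO hU hC hCO hρ hm hf g1 g2 g3 g4
  have τ3 : Continuous fun z : ℝ × E => (ie_cl z.1, z.2) :=
    (ie_cl_cont.comp continuous_fst).prodMk continuous_snd
  have hG : PFam O fun t => G (ie_cl t) := ⟨fun t => g1 _ (ie_cl_mem t),
    g2.comp τ3.continuousOn fun z hz => ⟨ie_cl_mem _, hz.2⟩,
    g3.comp τ3.continuousOn fun z hz => ⟨ie_cl_mem _, hz.2⟩⟩
  obtain ⟨φ, K, k1, k2, f1, f2, f3, f4, -, f6⟩ := ie_good hO hU hC hCO hρ hm hf hG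
    (fun t => (g4 _ (ie_cl_mem t)).1) (fun t => (g4 _ (ie_cl_mem t)).2.1)
    (fun t => (g4 _ (ie_cl_mem t)).2.2.1) fun t => (g4 _ (ie_cl_mem t)).2.2.2
  refine ⟨φ, K, k1, k2, f1.contDiff, f1.cont0, f1.cont1, f4 0 le_rfl, f2, fun t =>
    ⟨(f3 t).1, (f3 t).2.1, fun p _ v _ hv => (f3 t).2.2 p (by rw [hv, map_zero])⟩, ?_⟩
  filter_upwards [f6] with p p1 hp t ht
  simpa only [ie_cl_eq ht, ie_cl_eq ⟨le_rfl, zero_le_one⟩] using p1 hp t ht

end Pool.Agent.Lib.MP_ccffa6_gt
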