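import Pool.Agent.Lib.MP_ccffa6_gt.ELI.Calc
import Pool.Agent.Lib.MP_ccffa6_gt.ELI.IEg

/-!
Isotopy extension for jets. (Owner helper12; split freely, keep the name `ie`.)
-/

open Set Filter Topology
open scoped ContDiff RealInnerProductSpace

noncomputable section

namespace Pool.Agent.Lib.MP_ccffa6_gt.ELI

section aux

variable {F : Type} [NormedAddCommGroup F] [InnerProductSpace ℝ F] {P : F →L[ℝ] F}

theorem IE_Sc (ρ : ℝ) (y : F × F) : Sc P ρ y = y - Zv P y + ρ • Zv P y := by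
  ext <;> simp [Sc_apply, sa_apply, sb_apply, Zv_apply, add_comm]

theorem IE_Zv_Sc (hP : IsOP P) (ρ : ℝ) (y : F × F) : Zv P (Sc P ρ y) = ρ • Zv P y := by
  ext <;> simp [Sc_apply, sa_apply, sb_apply, Zv_apply, hP.idem]

theorem IE_sm : ContDiff ℝ ∞ fun z : ℝ × (F × F) => Sc P z.1 z.2 :=
  ((contDiff_Sc (P := P)).comp contDiff_fst).clm_apply contDiff_snd

theorem IE_diff {h : F × F → ℝ} {n : F × F → F × F} {x : F × F} (hh : DifferentiableAt ℝ h x)
    (hn : DifferentiableAt ℝ n x) : DifferentiableAt ℝ (fun z => Sc P (h z) (n z)) x :=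
  (((contDiff_Sc (P := P)).differentiable (by simp) (h x)).comp x hh).clm_apply hn

/-- Derivative in polar form. -/
theorem IE_fderiv {h : F × F → ℝ} {n : F × F → F × F} {x : F × F} (hh : DifferentiableAt ℝ h x)
    (hn : DifferentiableAt ℝ n x) (u : F × F) :
    fderiv ℝ (fun z => Sc P (h z) (n z)) x u =
      fderiv ℝ h x u • Zv P (n x) + Sc P (h x) (fderiv ℝ n x u) := by
  have h1 := (Zv P).hasFDerivAt.comp x hn.hasFDerivAt
  have h2 := ((hn.hasFDerivAt.sub h1).add (hh.hasFDerivAt.smul h1)).fderiv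
  simp only [IE_Sc]
  refine (congrArg (fun L => L u) h2).trans ?_
  simp
  abel

theorem IE_polar (hP : IsOP P) {w : F × F} (hw : P w.1 ≠ 0) (v : F × F) :
    v = fderiv ℝ (ht P) w v • Zv P (nz P w) + Sc P (ht P w) (fderiv ℝ (nz P) w v) := by
  rw [← IE_fderiv ((contDiffAt_ht hw).differentiableAt (by simp))
    ((contDiffAt_nz hw).differentiableAt (by simp))]
  have : (fun z => Sc P (ht P z) (nz P z)) =ᶠ[𝓝 w] id :=
    (eventually_ne hw).mono fun z hz => Sc_nz hP hz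
  rw [this.fderiv_eq, fderiv_id]
  rfl

theorem IE_ker {V : Type} [NormedAddCommGroup V] [NormedSpace ℝ V] {A : F × F → F × F}
    {g k : F × F → V} {x u : F × F} (hA : DifferentiableAt ℝ A x)
    (hg : DifferentiableAt ℝ g (A x)) (he : ∀ᶠ z in 𝓝 x, g (A z) = k z)
    (hu : fderiv ℝ A x u = 0) : fderiv ℝ k x u = 0 := by
  rw [← Filter.EventuallyEq.fderiv_eq (f₁ := g ∘ A) he, fderiv_comp x hg hA,
    ContinuousLinearMap.comp_apply, hu, map_zero]

theorem IE_of_ker {L : F × F →L[ℝ] F × F} (h : ∀ u, L u = 0 → u = 0) : Function.Injective L :=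
  (injective_iff_map_eq_zero L).2 h

/-- The map with the prescribed jets. -/
def IE_xi (P : F →L[ℝ] F) (f : ℝ → F → F × F) (G : ℝ → F → F →L[ℝ] F × F) (s : ℝ) (y : F × F) :
    F × F := f s y.1 + G s (‖P y.1‖⁻¹ • P y.1) y.2

variable {f : ℝ → F → F × F} {G : ℝ → F → F →L[ℝ] F × F}

theorem IE_unit {q : F} (hq : q ∈ core P) : ‖P q‖⁻¹ • P q = q := by simp [hq.1, hq.2]

theorem IE_un {y : F × F} (hy : P y.1 ≠ 0) :
    ContDiffAt ℝ ∞ (fun y : F × F => ‖P y.1‖⁻¹ • P y.1) y :=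
  ((contDiffAt_ht hy).inv (ht_pos hy).ne').smul (P.contDiff.comp contDiff_fst).contDiffAt

theorem IE_xi_sm (hP : IsOP P) (hJ : Jets P f G) {s : ℝ} (hs : s ∈ Icc (0 : ℝ) 1) {y : F × F}
    (hy : P y.1 ≠ 0) : ContDiffAt ℝ ∞ (fun z : ℝ × (F × F) => IE_xi P f G z.1 z.2) (s, y) := by
  have h1 := (hJ.smf s hs y.1 hy).comp (f := fun z : ℝ × (F × F) => (z.1, z.2.1)) (s, y)
    (by fun_prop)
  have h2 := (hJ.smG s hs _ (unit_mem_core hP hy)).comp
    (f := fun z : ℝ × (F × F) => (z.1, ‖P z.2.1‖⁻¹ • P z.2.1)) (s, y)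
    (contDiffAt_fst.prodMk ((IE_un hy).comp (s, y) contDiffAt_snd))
  exact h1.add (h2.clm_apply (by fun_prop))

theorem IE_xi_fam (hP : IsOP P) (hJ : Jets P f G) :
    PFam {y : F × F | P y.1 ≠ 0} fun t => IE_xi P f G (ie_cl t) := by
  have τ3 : Continuous fun z : ℝ × (F × F) => (ie_cl z.1, z.2) :=
    (ie_cl_cont.comp continuous_fst).prodMk continuous_snd
  refine ⟨fun t y hy => ?_, fun z hz => ?_, fun z hz => ?_⟩
  · exact ((IE_xi_sm hP hJ (ie_cl_mem t) hy).comp (f := fun y => (ie_cl t, y)) y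
      (by fun_prop)).contDiffWithinAt
  · exact (ContinuousAt.comp (f := fun z : ℝ × (F × F) => (ie_cl z.1, z.2))
      (IE_xi_sm hP hJ (ie_cl_mem z.1) hz.2).continuousAt τ3.continuousAt).continuousWithinAt
  · exact (ContinuousAt.comp (f := fun z : ℝ × (F × F) => (ie_cl z.1, z.2)) (contDiffAt_fderiv_fam
      (IE_xi_sm hP hJ (ie_cl_mem z.1) hz.2)).continuousAt τ3.continuousAt).continuousWithinAt

theorem IE_xi_fderiv (hJ : Jets P f G) {s : ℝ} (hs : s ∈ Icc (0 : ℝ) 1) {q : F}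
    (hq : q ∈ core P) : fderiv ℝ (IE_xi P f G s) (q, 0) = frm (f s) (G s q) q := by
  have h0 : DifferentiableAt ℝ (f s) q := ((hJ.smf s hs q (core_ne hq)).comp
    (f := fun a => (s, a)) q (by fun_prop)).differentiableAt (by simp)
  have h1 := HasFDerivAt.comp (f := Prod.fst) ((q, 0) : F × F) h0.hasFDerivAt hasFDerivAt_fst
  have h2 : DifferentiableAt ℝ (fun y : F × F => G s (‖P y.1‖⁻¹ • P y.1)) (q, 0) := by
    have h3 := hJ.smG s hs q hq
    rw [← IE_unit hq] at h3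
    exact (h3.comp (f := fun y : F × F => (s, ‖P y.1‖⁻¹ • P y.1)) (q, 0)
      (contDiffAt_const.prodMk (IE_un (y := (q, 0)) (core_ne hq)))).differentiableAt (by simp)
  refine ((h1.add (h2.hasFDerivAt.clm_apply hasFDerivAt_snd)).fderiv).trans ?_
  refine ContinuousLinearMap.ext fun u => ?_
  simp [frm_apply, IE_unit hq]

theorem IE_xi_core {s : ℝ} (q : F) : IE_xi P f G s (q, 0) = f s q := by simp [IE_xi]

theorem IE_euler (hJ : Jets P f G) {s : ℝ} (hs : s ∈ Icc (0 : ℝ) 1) {q : F} (hq : q ∈ core P) :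
    frm (f s) (G s q) q (Zv P (q, 0)) = Zv P (f s q) := by
  have h0 : DifferentiableAt ℝ (f s) (sa P 1 q) := by
    rw [sa_one]
    exact ((hJ.smf s hs q (core_ne hq)).comp
      (f := fun a => (s, a)) q (by fun_prop)).differentiableAt (by simp)
  have h1 := h0.hasFDerivAt.comp_hasDerivAt 1 (hasDerivAt_sa q 1)
  have h2 := (hasDerivAt_Sc (P := P) (f s q) 1).congr_of_eventuallyEq
    ((lt_mem_nhds zero_lt_one).mono fun ρ hρ => hJ.eqv s hs ρ hρ q (core_ne hq))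
  rw [sa_one] at h1
  simpa [frm_apply, Zv_apply] using h1.unique h2

/-- The normalised map is an immersion along the core. -/
theorem IE_inj (hP : IsOP P) {ξ : F × F → F × F} {q : F} (hq : q ∈ core P)
    (hξ : DifferentiableAt ℝ ξ (q, 0)) (h0 : P (ξ (q, 0)).1 ≠ 0)
    (hi : Function.Injective (fderiv ℝ ξ (q, 0)))
    (he : fderiv ℝ ξ (q, 0) (Zv P (q, 0)) = Zv P (ξ (q, 0))) :
    Function.Injective (fderiv ℝ (fun z => Sc P (ht P z) (nz P (ξ (nz P z)))) (q, 0)) := by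
  apply IE_of_ker
  intro u hu
  have h1 : ht P (q, 0) = 1 := core_ht hq 0
  have hy := ne_of_ht h1
  have d1 := (contDiffAt_ht hy).differentiableAt (by simp)
  have d2 := (contDiffAt_nz hy).differentiableAt (by simp)
  have d3 := (contDiffAt_nz h0).differentiableAt (by simp)
  have d4 : HasFDerivAt (fun z => ξ (nz P z)) ((fderiv ℝ ξ (q, 0)).comp (fderiv ℝ (nz P) (q, 0)))
      (q, 0) := HasFDerivAt.comp (g := ξ) _ (by rw [nz_of_ht h1]; exact hξ.hasFDerivAt)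
        d2.hasFDerivAt
  have d5 : HasFDerivAt (fun z => nz P (ξ (nz P z))) ((fderiv ℝ (nz P) (ξ (q, 0))).comp _) (q, 0) :=
    HasFDerivAt.comp (g := nz P) _ (by rw [nz_of_ht h1]; exact d3.hasFDerivAt) d4
  have e1 : ∀ᶠ z in 𝓝 ((q, 0) : F × F), ht P (Sc P (ht P z) (nz P (ξ (nz P z)))) = ht P z := by
    filter_upwards [eventually_ne hy, d4.continuousAt.eventually
      (eventually_ne (P := P) (by simpa only [nz_of_ht h1] using h0))] with z z1 z2
    rw [ht_Sc hP (ht_pos z1), ht_nz hP z2, mul_one]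
  have d6 : DifferentiableAt ℝ (fun z => Sc P (ht P z) (nz P (ξ (nz P z)))) (q, 0) :=
    IE_diff d1 d5.differentiableAt
  have h2 : fderiv ℝ (ht P) (q, 0) u = 0 := IE_ker d6 ((contDiffAt_ht
    (ne_of_ht (e1.self_of_nhds.trans h1))).differentiableAt (by simp)) e1 hu
  rw [IE_fderiv d1 d5.differentiableAt, h2, zero_smul, zero_add, h1, Sc_one, d5.fderiv] at hu
  rw [fderiv_ht hP h1] at h2
  simp only [ContinuousLinearMap.comp_apply, fderiv_nz hP h1, h2, zero_smul, sub_zero] at hu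
  have h3 := IE_polar hP h0 (fderiv ℝ ξ (q, 0) u)
  have h4 : Zv P (nz P (ξ (q, 0))) = (ht P (ξ (q, 0)))⁻¹ • Zv P (ξ (q, 0)) := IE_Zv_Sc hP _ _
  rw [hu, map_zero, add_zero, h4, ← he, smul_smul, ← map_smul] at h3
  have h5 := hi h3
  rw [h5] at h2
  simp only [Zv_apply, Prod.smul_fst, inner_smul_right, real_inner_self_eq_norm_sq, hq.1, hq.2,
    one_pow, mul_one] at h2
  rw [h5, h2, zero_smul]

/-- The cone over an immersion of the cylinder, rescaled, is an immersion. -/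
theorem IE_inj' (hP : IsOP P) {φ : F × F → F × F} {γ : F × F → ℝ} (hφ : Differentiable ℝ φ)
    (hγ : Differentiable ℝ γ) (hm : ∀ z, ht P z = 1 → ht P (φ z) = 1)
    (hi : ∀ z, Function.Injective (fderiv ℝ φ z)) {y : F × F} (hy : P y.1 ≠ 0) :
    Function.Injective
      (fderiv ℝ (fun z => Sc P (ht P z * Real.exp (γ (nz P z))) (φ (nz P z))) y) := by
  apply IE_of_ker
  intro u hu
  have d1 := (contDiffAt_ht hy).differentiableAt (by simp)
  have d2 := (contDiffAt_nz hy).differentiableAt (by simp)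
  have d3 := (hφ _).hasFDerivAt.comp y d2.hasFDerivAt
  have d4 := d1.hasFDerivAt.mul ((hγ _).hasFDerivAt.comp y d2.hasFDerivAt).exp
  have hp : ∀ z : F × F, P z.1 ≠ 0 → 0 < ht P z * Real.exp (γ (nz P z)) := fun z hz =>
    mul_pos (ht_pos hz) (Real.exp_pos _)
  have hn := ne_of_ht (hm _ (ht_nz hP hy))
  have e1 : ∀ᶠ z in 𝓝 y, nz P (Sc P (ht P z * Real.exp (γ (nz P z))) (φ (nz P z))) =
      (φ ∘ nz P) z := (eventually_ne hy).mono fun z hz => by
    rw [nz_Sc hP (hp z hz), nz_of_ht (hm _ (ht_nz hP hz))]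
    rfl
  have d6 : DifferentiableAt ℝ (fun z => Sc P (ht P z * Real.exp (γ (nz P z))) (φ (nz P z))) y :=
    IE_diff d4.differentiableAt d3.differentiableAt
  have h2 : fderiv ℝ (nz P) y u = 0 := by
    refine (injective_iff_map_eq_zero _).1 (hi (nz P y)) _ ?_
    have h8 := IE_ker d6 ((contDiffAt_nz (Sc_ne hP (hp y hy) hn)).differentiableAt (by simp)) e1 hu
    rwa [d3.fderiv] at h8
  have h3 := IE_fderiv (P := P) d4.differentiableAt d3.differentiableAt u
  rw [d4.fderiv, d3.fderiv] at h3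
  have h4 := hu.symm.trans h3
  have h5 : Zv P (φ (nz P y)) ≠ 0 := fun h => hn (congrArg Prod.fst h)
  have h7 : (Real.exp (γ (nz P y)) * fderiv ℝ (ht P) y u) • Zv P (φ (nz P y)) = 0 := by
    simpa [h2] using h4.symm
  have h6 := IE_polar hP hy u
  rwa [h2, (mul_eq_zero.1 ((smul_eq_zero.1 h7).resolve_right h5)).resolve_left (Real.exp_ne_zero _),
    zero_smul, map_zero, add_zero] at h6

end aux

/-- Sketch: `Ξ s (a, b) = f s a + Sc P ρ (G s q b')` with `ρ = ‖P a‖`, `q = ρ⁻¹ P a`,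
`b' = sb P ρ⁻¹ b`, is equivariant, has derivative `frm` on the core and is the identity for
`s = 0`. -/
theorem ie (F : Type) [NormedAddCommGroup F] [InnerProductSpace ℝ F] [FiniteDimensional ℝ F] :
    IEStmt F := by
  intro P hP R f G hJ hR h0 hG0
  have hξ := IE_xi_fam hP hJ
  have hΩ := isOpen_ne (P := P)
  have snz : ContDiffOn ℝ ∞ (nz P) {y : F × F | P y.1 ≠ 0} := fun y hy =>
    (contDiffAt_nz hy).contDiffWithinAt
  have sht : ContDiffOn ℝ ∞ (ht P) {y : F × F | P y.1 ≠ 0} := fun y hy =>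
    (contDiffAt_ht hy).contDiffWithinAt
  have mnz : MapsTo (nz P) {y : F × F | P y.1 ≠ 0} {y : F × F | P y.1 ≠ 0} := fun y hy =>
    ne_of_ht (ht_nz hP hy)
  have hξ' := hξ.comp (PFam.const hΩ snz) hΩ hΩ fun _ => mnz
  obtain ⟨C, hC⟩ : ∃ C : Set (F × F), C = (fun q => (q, 0)) '' core P := ⟨_, rfl⟩
  have cC : IsCompact C := hC ▸ isCompact_core.image (by fun_prop)
  have hz : ∀ q ∈ core P, nz P (q, 0) = (q, 0) := fun q hq => nz_of_ht (core_ht hq 0)
  obtain ⟨O, hO, hCO, hO'⟩ : ∃ O : Set (F × F), IsOpen O ∧ C ⊆ O ∧ ∀ y ∈ O, P y.1 ≠ 0 ∧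
      ∀ s ∈ Icc (0 : ℝ) 1, P (IE_xi P f G (ie_cl s) (nz P y)).1 ≠ 0 := by
    refine ⟨interior _, isOpen_interior, ?_, interior_subset⟩
    rw [hC]
    rintro _ ⟨q, hq, rfl⟩
    refine mem_interior_iff_mem_nhds.2 ((eventually_ne (core_ne hq)).and
      (isCompact_Icc.eventually_forall_of_forall_eventually fun s _ => ?_))
    have h1 := (hξ'.c0.continuousAt ((isOpen_univ.prod hΩ).mem_nhds
      (show (s, ((q, 0) : F × F)) ∈ _ from ⟨trivial, core_ne hq⟩))).comp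
        (f := Prod.swap) (x := ((q, 0), s)) continuous_swap.continuousAt
    refine h1.eventually (eventually_ne ?_)
    simpa [hz q hq, IE_xi_core] using hJ.ne _ (ie_cl_mem s) q (core_ne hq)
  have hO1 : O ⊆ {y : F × F | P y.1 ≠ 0} := fun y hy => (hO' y hy).1
  have hO2 : ∀ t, ∀ y ∈ O, P (IE_xi P f G (ie_cl t) (nz P y)).1 ≠ 0 := fun t y hy => by
    have := (hO' y hy).2 _ (ie_cl_mem t)
    rwa [ie_cl_eq (ie_cl_mem t)] at this
  have hv : ∀ t, ∀ q ∈ core P, Sc P (ht P (q, 0)) (nz P (IE_xi P f G (ie_cl t) (nz P (q, 0)))) =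
      nz P (f (ie_cl t) q) := fun t q hq => by rw [core_ht hq, Sc_one, hz q hq, IE_xi_core]
  obtain ⟨φ, K, k1, k2, f1, f2, f3, f4, -, f6⟩ := ie_good (S := {y | ht P y = 1}) (ρ := nz P)
    (G := fun t y => Sc P (ht P y) (nz P (IE_xi P f G (ie_cl t) (nz P y)))) hO (isOpen_Tube R) cC
    (subset_inter (by rw [hC]; rintro _ ⟨q, hq, rfl⟩; exact core_ht hq 0) hCO) (snz.mono hO1)
    (fun y hy => ht_nz hP (hO1 hy)) (fun y hy => nz_of_ht hy.1)
    (((PFam.const hO (sht.mono hO1)).prod ((PFam.const hΩ snz).comp (hξ'.mono hO1) hΩ hO hO2)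
      hO).map hO IE_sm)
    (fun t => by
      rw [hC]
      rintro _ ⟨q, hq, rfl⟩ _ ⟨q', hq', rfl⟩ h
      simp only [hv t q hq, hv t q' hq'] at h
      rw [hJ.emb _ (ie_cl_mem t) q hq q' hq' h])
    (fun t => by
      rw [hC]
      rintro _ ⟨q, hq, rfl⟩
      have h1 := hR _ (ie_cl_mem t) q hq
      simp only [hv t q hq]
      exact ⟨mnz h1.1, by rw [rad_nz hP h1.1]; exact h1.2⟩)
    (fun t => by
      rw [hC]
      rintro _ ⟨q, hq, rfl⟩
      refine IE_inj hP hq (hξ.diff hΩ t (core_ne hq)) ?_ ?_ ?_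
      · rw [IE_xi_core]
        exact hJ.ne _ (ie_cl_mem t) q (core_ne hq)
      · rw [IE_xi_fderiv hJ (ie_cl_mem t) hq]
        exact hJ.inj _ (ie_cl_mem t) q hq
      · rw [IE_xi_fderiv hJ (ie_cl_mem t) hq, IE_xi_core, IE_euler hJ (ie_cl_mem t) hq])
    (fun t y hy => by
      simp only [mem_ofPred_eq, ht_Sc hP (ht_pos (hO1 hy)), ht_nz hP (hO2 t y hy), mul_one])
  have ξ0 : ∀ y : F × F, P y.1 ≠ 0 → IE_xi P f G (ie_cl 0) y = y := fun y hy => by
    simp [IE_xi, ie_cl, h0 _ hy, hG0 _ (unit_mem_core hP hy)]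
  have hCT : C ⊆ Tube P R := by
    rw [hC]
    rintro _ ⟨q, hq, rfl⟩
    exact mem_of_eq_of_mem (h0 q (core_ne hq)).symm (hR 0 ⟨le_rfl, zero_le_one⟩ q hq)
  obtain ⟨χ, c1, -, c2, c3, c4⟩ := exists_cutoff cC.isClosed (hO.inter (isOpen_Tube R))
    (subset_inter hCO hCT)
  have hγ := ((PFam.const isOpen_Ioi (Real.contDiffOn_log.mono fun x hx => ne_of_gt hx)).comp
    ((PFam.const hΩ sht).comp (hξ'.mono hO1) hΩ hO hO2) isOpen_Ioi hO
    fun t y hy => ht_pos (hO2 t y hy)).cut hO c1 fun x hx => (c3 hx).1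
  obtain ⟨γ, eγ⟩ : ∃ γ : ℝ → F × F → ℝ,
      γ = fun t x => χ x • Real.log (ht P (IE_xi P f G (ie_cl t) (nz P x))) := ⟨_, rfl⟩
  rw [← eγ] at hγ
  have hp : ∀ t (z : F × F), P z.1 ≠ 0 → 0 < ht P z * Real.exp (γ t (nz P z)) := fun t z hz =>
    mul_pos (ht_pos hz) (Real.exp_pos _)
  have hH : PFam {y : F × F | P y.1 ≠ 0}
      fun t y => Sc P (ht P y * Real.exp (γ t (nz P y))) (φ t (nz P y)) :=
    (((PFam.const hΩ sht).smul ((hγ.comp (PFam.const hΩ snz) isOpen_univ hΩ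
      fun _ _ _ => trivial).map hΩ Real.contDiff_exp) hΩ).prod
      (f1.comp (PFam.const hΩ snz) isOpen_univ hΩ fun _ _ _ => trivial) hΩ).map hΩ IE_sm
  refine ⟨fun t y => Sc P (ht P y * Real.exp (γ t (nz P y))) (φ t (nz P y)), id,
    ⟨fun t _ y hy => (hH.sm t).contDiffAt (hΩ.mem_nhds hy),
      hH.c0.mono (prod_mono_left (subset_univ _)), hH.c1.mono (prod_mono_left (subset_univ _)),
      fun t _ ρ hρ y hy => ?_, ?_, fun t _ y hy => ?_, fun t _ y hy => ?_, fun y hy => ?_⟩,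
    continuous_id, rfl, rfl, mapsTo_id _, fun t ht' q hq => ?_⟩
  · rw [ht_Sc hP hρ, nz_Sc hP hρ, Sc_Sc hP, mul_assoc]
  · have hK : K ∪ tsupport χ ⊆ Tube P R := union_subset k2 fun x hx => (c3 hx).2
    obtain ⟨r, hr, hr'⟩ : ∃ r < R, ∀ z ∈ K ∪ tsupport χ, rad P z < r := by
      rcases (K ∪ tsupport χ).eq_empty_or_nonempty with h | h
      · exact ⟨R - 1, by linarith, by simp [h]⟩
      · obtain ⟨z, z1, z2⟩ := (k1.union (c4 cC)).exists_isMaxOn h fun z hz =>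
          (continuousAt_rad (hK hz).1).continuousWithinAt
        obtain ⟨r, r1, r2⟩ := exists_between (hK z1).2
        exact ⟨r, r2, fun w hw => (z2 hw).trans_lt r1⟩
    refine ⟨r, hr, fun t _ y hy hr2 => ?_⟩
    have h1 : nz P y ∉ K ∪ tsupport χ := fun h => by
      have := hr' _ h
      rw [rad_nz hP hy] at this
      linarith
    rw [f2 t _ fun h => h1 (Or.inl h), eγ]
    simp [image_eq_zero_of_notMem_tsupport fun h => h1 (Or.inr h), Sc_nz hP hy]
  · have h1 := (f3 t).2.1 (x := nz P y) ⟨mnz hy.1, by rw [rad_nz hP hy.1]; exact hy.2⟩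
    exact ⟨Sc_ne hP (hp t y hy.1) h1.1, by rw [rad_Sc hP (hp t y hy.1)]; exact h1.2⟩
  · exact IE_inj' hP ((f1.contDiff t).differentiable (by simp))
      ((hγ.contDiff t).differentiable (by simp)) (f3 t).1 (f3 t).2.2 hy
  · rw [f4 0 le_rfl, eγ]
    simp [ξ0 _ (mnz (mnz hy)), ht_nz hP (mnz hy), Sc_nz hP hy]
  · have hy : P ((q, 0) : F × F).1 ≠ 0 := core_ne hq
    have d1 := (contDiffAt_ht hy).differentiableAt (by simp)
    have d2 := (contDiffAt_nz hy).differentiableAt (by simp)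
    have t1 : Tendsto (nz P) (𝓝 (q, 0)) (𝓝ˢ C) := d2.continuousAt.tendsto.mono_right
      (nhds_le_nhdsSet (by rw [hz q hq, hC]; exact mem_image_of_mem _ hq))
    have e1 : (fun y => Sc P (ht P y * Real.exp (γ t (nz P y))) (φ t (nz P y))) =ᶠ[𝓝 (q, 0)]
        fun y => Sc P (ht P y) (IE_xi P f G t (nz P y)) := by
      filter_upwards [eventually_ne hy, t1.eventually f6, t1.eventually c2,
        t1.eventually (hO.mem_nhdsSet.2 hCO)] with y y1 y2 y3 y4
      have h1 := ht_nz hP y1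
      have h2 := y2 h1 t ht'
      have h3 := hO2 t _ y4
      simp only [h1, Sc_one, nz_of_ht h1, ξ0 _ (mnz y1), ie_cl_eq ht'] at h2 h3
      simp only [h2, eγ, y3, one_smul, nz_of_ht h1, ie_cl_eq ht', Real.exp_log (ht_pos h3),
        ← Sc_Sc hP, Sc_nz hP h3]
    have d3 := hξ.diff hΩ t hy
    rw [ie_cl_eq ht'] at d3
    have d4 : HasFDerivAt (fun z => IE_xi P f G t (nz P z))
        ((fderiv ℝ (IE_xi P f G t) (q, 0)).comp (fderiv ℝ (nz P) (q, 0))) (q, 0) :=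
      HasFDerivAt.comp (g := IE_xi P f G t) _ (by rw [hz q hq]; exact d3.hasFDerivAt) d2.hasFDerivAt
    refine ⟨e1.eq_of_nhds.trans (by rw [core_ht hq, Sc_one, hz q hq, IE_xi_core]; rfl),
      e1.fderiv_eq.trans (ContinuousLinearMap.ext fun u => ?_)⟩
    rw [IE_fderiv d1 d4.differentiableAt, d4.fderiv, core_ht hq, Sc_one, hz q hq,
      IE_xi_core, ContinuousLinearMap.comp_apply, fderiv_nz hP (core_ht hq 0),
      fderiv_ht hP (core_ht hq 0), IE_xi_fderiv hJ ht' hq, map_sub, map_smul, IE_euler hJ ht' hq]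
    simp

end Pool.Agent.Lib.MP_ccffa6_gt.ELI
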