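import Pool.Agent.Lib.MP_ccffa6_gt.ELI.LZone

/-!
Scaling of a zone, one period of the curve.
-/

open Set Filter Topology
open scoped ContDiff RealInnerProductSpace

noncomputable section

namespace Pool.Agent.Lib.MP_ccffa6_gt.ELI

theorem LCell_deriv_scale {f : ℝ → ℝ} (hf : ContDiff ℝ ∞ f) (δ t : ℝ) :
    HasDerivAt (fun t => f (t / δ)) (deriv f (t / δ) * (1 / δ)) t := by
  have h1 : HasDerivAt f (deriv f (t / δ)) (t / δ) :=
    (hf.differentiable (by simp) _).hasDerivAt
  have h2 : HasDerivAt (fun t : ℝ => t / δ) (1 / δ) t := (hasDerivAt_id t).div_const δ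
  exact HasDerivAt.comp (h₂ := f) (h := fun t : ℝ => t / δ) t h1 h2

theorem LCell_deriv_scale' {f : ℝ → ℝ} (hf : ContDiff ℝ ∞ f) {δ : ℝ} (hδ : 0 < δ) (t : ℝ) :
    deriv (fun t => δ * f (t / δ)) t = deriv f (t / δ) := by
  have h := ((LCell_deriv_scale hf δ t).const_mul δ).deriv
  rw [h]
  field_simp

theorem LCell_deriv_shift {f : ℝ → ℝ} (hf : ContDiff ℝ ∞ f) (d t : ℝ) :
    HasDerivAt (fun t => f (t - d)) (deriv f (t - d)) t := by
  have h1 : HasDerivAt f (deriv f (t - d)) (t - d) :=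
    (hf.differentiable (by simp) _).hasDerivAt
  exact HasDerivAt.comp_sub_const t d h1

theorem LCell_deriv_lo {f : ℝ → ℝ} {b : ℝ} (h : ∀ t, t ≤ b → f t = 0) {u : ℝ} (hu : u < b) :
    deriv f u = 0 := by
  have : f =ᶠ[𝓝 u] fun _ => 0 := by
    filter_upwards [Iio_mem_nhds hu] with t ht using h t (le_of_lt ht)
  rw [this.deriv_eq]
  simp

theorem LCell_deriv_hi {f : ℝ → ℝ} {b : ℝ} (h : ∀ t, b ≤ t → f t = 0) {u : ℝ} (hu : b < u) :
    deriv f u = 0 := by
  have : f =ᶠ[𝓝 u] fun _ => 0 := by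
    filter_upwards [Ioi_mem_nhds hu] with t ht using h t (le_of_lt ht)
  rw [this.deriv_eq]
  simp

theorem Zone.scale {η J A : ℝ} {γ n σ : ℝ → ℝ} (h : Zone η J A γ n σ) {δ : ℝ} (hδ : 0 < δ) :
    Zone η (δ * J) (δ * A) (fun t => δ * γ (t / δ)) (fun t => n (t / δ))
      (fun t => δ * σ (t / δ)) := by
  have hd : ContDiff ℝ ∞ (fun t : ℝ => t / δ) := contDiff_id.div_const δ
  refine ⟨contDiff_const.mul (h.smγ.comp hd), h.smn.comp hd, contDiff_const.mul (h.smσ.comp hd),
    ?_, ?_, fun t => h.bn _, ?_, ?_, ?_, ?_, ?_⟩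
  · have := mul_lt_mul_of_pos_left h.lt hδ
    linarith
  · intro t
    rw [abs_mul, abs_of_pos hδ]
    exact mul_le_mul_of_nonneg_left (h.bγ _) hδ.le
  · intro t ht
    obtain ⟨h1, h2, h3⟩ := h.lo (t / δ) (div_nonpos_of_nonpos_of_nonneg ht hδ.le)
    exact ⟨by rw [h1, mul_zero], h2, by rw [h3, mul_zero]⟩
  · intro t ht
    obtain ⟨h1, h2, h3⟩ := h.hi (t / δ) (by rw [le_div_iff₀ hδ]; linarith)
    exact ⟨by rw [h1, mul_zero], h2, by rw [h3]; ring⟩
  · intro t
    rw [LCell_deriv_scale' h.smσ hδ, LCell_deriv_scale' h.smγ hδ, h.dσ]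
  · intro t t' htt
    exact mul_le_mul_of_nonneg_left (h.mono (div_le_div_of_nonneg_right htt hδ.le)) hδ.le
  · intro c hc
    rw [LCell_deriv_scale' h.smγ hδ] at hc ⊢
    obtain ⟨h1, h2, h3, h4, h5⟩ := h.fold _ hc
    refine ⟨?_, ?_, ?_, ?_, ?_⟩
    · exact (div_pos_iff_of_pos_right hδ).1 h1
    · rw [div_lt_iff₀ hδ] at h2
      linarith
    · intro r r' hr hr'
      exact mul_lt_mul_of_pos_left (h3 _ _ (div_lt_div_of_pos_right hr hδ)
        (div_lt_div_of_pos_right hr' hδ)) hδ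
    · intro hc'
      rw [LCell_deriv_scale' h.smσ hδ]
      exact h4 hc'
    · intro hc'
      rw [(LCell_deriv_scale h.smn δ c).deriv]
      exact mul_ne_zero (h5 hc') (one_div_pos.2 hδ).ne'

theorem zone_exists {η J : ℝ} (hη : 0 < η) (hJ : 0 < J) :
    ∃ (A : ℝ) (γ n σ : ℝ → ℝ), Zone η J A γ n σ := by
  obtain ⟨J₀, A, γ, n, σ, h0, h⟩ := zone_raw hη
  have := h.scale (div_pos hJ h0)
  rw [div_mul_cancel₀ _ h0.ne'] at this
  exact ⟨_, _, _, _, this⟩

/-- Sketch. `c = |C| + 1`, `J = T / 5`, zone for `η / c`; `g t = γ (t - J) + γ (t - 3 J)`,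
`s t = σ (t - J)`, `n₁ t = n (t - J)`, `n₀ t = c (n (t - J) - n (t - 3 J))`,
`w t = c (σ (t - J) - σ (t - 3 J))`, `T₀ = η / c`. Split at `t = 5 J / 2`: on each side one of
the two translates of `γ`, `n` vanishes near `t` and the translate of `σ` is constant. For `inj`:
if `c` is a fold of the first zone then `r' < c + J < 3 J`, the expression is
`(a + c) (σ (r' - J) - σ (r - J)) > 0`; for the second zone `r > 2 J` and it is negative. -/
theorem cell_exists (C : ℝ) {η : ℝ} (hη : 0 < η) : ∃ T₀ > 0, ∀ T, 0 < T → T ≤ T₀ →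
    ∃ (A : ℝ) (g s w n₁ n₀ : ℝ → ℝ), Cell C η T A g s w n₁ n₀ := by
  have hc1 : 1 ≤ |C| + 1 := by linarith [abs_nonneg C]
  have hcC : C < |C| + 1 := by linarith [le_abs_self C]
  generalize |C| + 1 = k at hc1 hcC
  have hk : 0 < k := by linarith
  refine ⟨η / k, div_pos hη hk, fun T hT hTle => ?_⟩
  obtain ⟨J, rfl⟩ : ∃ J, T = 5 * J := ⟨T / 5, by ring⟩
  have hJ : 0 < J := by linarith
  obtain ⟨A, γ, n, σ, h⟩ := zone_exists (div_pos hη hk) hJ
  have hle : η / k ≤ η := div_le_self hη.le hc1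
  have hkT : k * (5 * J) ≤ η := by
    rw [le_div_iff₀ hk] at hTle
    linarith
  have hkη : k * (η / k) = η := by field_simp
  have hs0 : ∀ t, 0 ≤ σ t := by
    intro t
    rcases le_total t 0 with ht | ht
    · rw [(h.lo t ht).2.2]
    · have := h.mono ht
      rwa [(h.lo 0 le_rfl).2.2] at this
  have hs1 : ∀ t, σ t ≤ 5 * J := by
    intro t
    rcases le_total t J with ht | ht
    · have := h.mono ht
      rwa [(h.hi J le_rfl).2.2] at this
    · rw [(h.hi t ht).2.2]
  have hd1 : ContDiff ℝ ∞ (fun t : ℝ => t - J) := contDiff_id.sub contDiff_const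
  have hd3 : ContDiff ℝ ∞ (fun t : ℝ => t - 3 * J) := contDiff_id.sub contDiff_const
  have dg : ∀ t, deriv (fun t => γ (t - J) + γ (t - 3 * J)) t =
      deriv γ (t - J) + deriv γ (t - 3 * J) := fun t =>
    ((LCell_deriv_shift h.smγ J t).fun_add (LCell_deriv_shift h.smγ (3 * J) t)).deriv
  have ds : ∀ t, deriv (fun t => σ (t - J)) t = deriv σ (t - J) := fun t =>
    (LCell_deriv_shift h.smσ J t).deriv
  have dn : ∀ t, deriv (fun t => n (t - J)) t = deriv n (t - J) := fun t =>
    (LCell_deriv_shift h.smn J t).deriv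
  have dw : ∀ t, deriv (fun t => k * (σ (t - J) - σ (t - 3 * J))) t =
      k * (deriv σ (t - J) - deriv σ (t - 3 * J)) := fun t =>
    (((LCell_deriv_shift h.smσ J t).fun_sub
      (LCell_deriv_shift h.smσ (3 * J) t)).const_mul k).deriv
  have dm : ∀ t, deriv (fun t => k * (n (t - J) - n (t - 3 * J))) t =
      k * (deriv n (t - J) - deriv n (t - 3 * J)) := fun t =>
    (((LCell_deriv_shift h.smn J t).fun_sub
      (LCell_deriv_shift h.smn (3 * J) t)).const_mul k).deriv
  have glo : ∀ u, u < 0 → deriv γ u = 0 := fun u hu =>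
    LCell_deriv_lo (fun t ht => (h.lo t ht).1) hu
  have ghi : ∀ u, J < u → deriv γ u = 0 := fun u hu =>
    LCell_deriv_hi (fun t ht => (h.hi t ht).1) hu
  have nlo : ∀ u, u < 0 → deriv n u = 0 := fun u hu =>
    LCell_deriv_lo (fun t ht => (h.lo t ht).2.1) hu
  have nhi : ∀ u, J < u → deriv n u = 0 := fun u hu =>
    LCell_deriv_hi (fun t ht => (h.hi t ht).2.1) hu
  have x1 : ∀ t, n (t - J) * deriv γ (t - 3 * J) = 0 := by
    intro t
    rcases lt_or_ge t (3 * J) with ht | ht
    · rw [glo _ (by linarith), mul_zero]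
    · rw [(h.hi (t - J) (by linarith)).2.1, zero_mul]
  have x3 : ∀ t, n (t - 3 * J) * deriv γ (t - J) = 0 := by
    intro t
    rcases le_or_gt t (3 * J) with ht | ht
    · rw [(h.lo (t - 3 * J) (by linarith)).2.1, zero_mul]
    · rw [ghi _ (by linarith), mul_zero]
  refine ⟨A, fun t => γ (t - J) + γ (t - 3 * J), fun t => σ (t - J),
    fun t => k * (σ (t - J) - σ (t - 3 * J)), fun t => n (t - J),
    fun t => k * (n (t - J) - n (t - 3 * J)),
    (h.smγ.comp hd1).add (h.smγ.comp hd3), h.smσ.comp hd1,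
    contDiff_const.mul ((h.smσ.comp hd1).sub (h.smσ.comp hd3)), h.smn.comp hd1,
    contDiff_const.mul ((h.smn.comp hd1).sub (h.smn.comp hd3)), hT, hTle.trans hle,
    ?_, ?_, fun t => ⟨hs0 _, hs1 _⟩, ?_, fun t => (h.bn _).trans hle, ?_, ?_, ?_, ?_, ?_, ?_, ?_⟩
  · have := h.lt
    linarith
  · intro t
    rcases le_total t (3 * J) with ht | ht
    · rw [(h.lo (t - 3 * J) (by linarith)).1, add_zero]
      exact h.bγ _
    · rw [(h.hi (t - J) (by linarith)).1, zero_add]
      exact h.bγ _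
  · intro t
    rw [abs_mul, abs_of_pos hk]
    refine le_trans (mul_le_mul_of_nonneg_left ?_ hk.le) hkT
    have a1 := hs0 (t - J)
    have a2 := hs1 (t - J)
    have a3 := hs0 (t - 3 * J)
    have a4 := hs1 (t - 3 * J)
    rw [abs_le]
    constructor <;> linarith
  · intro t
    rw [abs_mul, abs_of_pos hk, ← hkη]
    refine mul_le_mul_of_nonneg_left ?_ hk.le
    rcases le_total t (3 * J) with ht | ht
    · rw [(h.lo (t - 3 * J) (by linarith)).2.1, sub_zero]
      exact h.bn _
    · rw [(h.hi (t - J) (by linarith)).2.1, zero_sub, abs_neg]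
      exact h.bn _
  · intro t ht
    obtain ⟨a1, a2, a3⟩ := h.lo (t - J) (by linarith)
    obtain ⟨b1, b2, b3⟩ := h.lo (t - 3 * J) (by linarith)
    simp [a1, a2, a3, b1, b2, b3]
  · intro t ht
    obtain ⟨a1, a2, a3⟩ := h.hi (t - J) (by linarith)
    obtain ⟨b1, b2, b3⟩ := h.hi (t - 3 * J) (by linarith)
    simp [a1, a2, a3, b1, b2, b3]
  · intro t
    rw [ds, dg, h.dσ]
    linear_combination - x1 t
  · intro t
    rw [dw, dg, h.dσ, h.dσ]
    linear_combination (-k) * x1 t + k * x3 t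
  · intro a ha r c r' hr hr' hA hc
    have ha' : 0 < a + k := by linarith [neg_abs_le a]
    have hlt := h.lt
    rw [dg] at hc
    rcases lt_or_ge c (5 * J / 2) with h5 | h5
    · rw [glo (c - 3 * J) (by linarith), add_zero] at hc
      obtain ⟨f1, f2, f3, -, -⟩ := h.fold _ hc
      have p := f3 (r - J) (r' - J) (by linarith) (by linarith)
      rw [(h.lo (r - 3 * J) (by linarith)).2.2, (h.lo (r' - 3 * J) (by linarith)).2.2]
      have := mul_pos ha' (sub_pos.2 p)
      intro e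
      linarith
    · rw [ghi (c - J) (by linarith), zero_add] at hc
      obtain ⟨f1, f2, f3, -, -⟩ := h.fold _ hc
      have p := f3 (r - 3 * J) (r' - 3 * J) (by linarith) (by linarith)
      rw [(h.hi (r - J) (by linarith)).2.2, (h.hi (r' - J) (by linarith)).2.2]
      have := mul_pos hk (sub_pos.2 p)
      intro e
      linarith
  · intro a ha c
    have ha' : 0 < a + k := by linarith [neg_abs_le a]
    rw [dg, ds, dw, dn, dm]
    rcases lt_or_ge c (5 * J / 2) with h5 | h5
    · rw [glo (c - 3 * J) (by linarith), add_zero, nlo (c - 3 * J) (by linarith),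
        h.dσ (c - 3 * J), (h.lo (c - 3 * J) (by linarith)).2.1]
      refine ⟨fun hc => ?_, fun hc => ?_⟩
      · have p := (h.fold _ hc.le).2.2.2.1 hc
        have := mul_pos ha' p
        intro e
        linarith
      · have p := (h.fold _ hc.le).2.2.2.2 hc
        have := mul_ne_zero ha'.ne' p
        intro e
        exact this (by linarith)
    · rw [ghi (c - J) (by linarith), zero_add, nhi (c - J) (by linarith),
        h.dσ (c - J), (h.hi (c - J) (by linarith)).2.1]
      refine ⟨fun hc => ?_, fun hc => ?_⟩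
      · have p := (h.fold _ hc.le).2.2.2.1 hc
        have := mul_pos hk p
        intro e
        linarith
      · have p := (h.fold _ hc.le).2.2.2.2 hc
        have := mul_ne_zero hk.ne' p
        intro e
        exact this (by linarith)

end Pool.Agent.Lib.MP_ccffa6_gt.ELI
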