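import Pool.Agent.Lib.MP_ccffa6_gt.ELI.LCell

/-!
The universal zigzag curve.
-/

open Set Filter Topology
open scoped ContDiff RealInnerProductSpace

noncomputable section

namespace Pool.Agent.Lib.MP_ccffa6_gt.ELI

/-- Sum of `P` translates. -/
def LCurve_rep (P : ℕ) (T : ℝ) (f : ℝ → ℝ) (r : ℝ) : ℝ := ∑ j ∈ Finset.range P, f (r + 4 - T * j)

theorem LCurve_sm (P : ℕ) (T : ℝ) {f : ℝ → ℝ} (hf : ContDiff ℝ ∞ f) :
    ContDiff ℝ ∞ (LCurve_rep P T f) :=
  ContDiff.sum fun _ _ => hf.comp ((contDiff_id.add contDiff_const).sub contDiff_const)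

theorem LCurve_cover {P : ℕ} (hP : 0 < P) {T : ℝ} (hT : 0 < T) (r : ℝ) :
    ∃ j < P, (j = 0 ∨ 0 ≤ r + 4 - T * j) ∧ (j + 1 = P ∨ r + 4 - T * j ≤ T) := by
  rcases lt_or_ge (r + 4) 0 with h | h
  · exact ⟨0, hP, Or.inl rfl, Or.inr (by simp; linarith)⟩
  have h1 := Nat.floor_le (div_nonneg h hT.le)
  have h2 := Nat.lt_floor_add_one ((r + 4) / T)
  rw [le_div_iff₀ hT] at h1
  rw [div_lt_iff₀ hT] at h2
  rcases lt_or_ge ⌊(r + 4) / T⌋₊ P with h3 | h3
  · exact ⟨_, h3, Or.inr (by linarith), Or.inr (by linarith)⟩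
  · refine ⟨P - 1, by omega, Or.inr ?_, Or.inl (by omega)⟩
    have h4 : ((P - 1 : ℕ) : ℝ) ≤ ⌊(r + 4) / T⌋₊ := by exact_mod_cast (by omega)
    nlinarith

theorem LCurve_loc {P j : ℕ} (hj : j < P) {T c r r' : ℝ} (hT : 0 < T) {f : ℝ → ℝ}
    (lo : ∀ t, t ≤ T / 5 → f t = 0) (hi : ∀ t, 4 * T / 5 ≤ t → f t = c)
    (h : (j = 0 ∨ 0 ≤ r + 4 - T * j) ∧ (j + 1 = P ∨ r + 4 - T * j ≤ T)) (hr : |r' - r| ≤ T / 5) :
    LCurve_rep P T f r' = j * c + f (r' + 4 - T * j) := by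
  obtain ⟨m, rfl⟩ := Nat.exists_eq_add_of_lt hj
  rw [abs_le] at hr
  unfold LCurve_rep
  rw [show j + m + 1 = j + 1 + m by ring, Finset.sum_range_add, Finset.sum_range_succ,
    Finset.sum_congr rfl (g := fun _ => c), Finset.sum_eq_zero (s := Finset.range m)]
  · simp
  · intro i hi'
    rcases h.2 with h2 | h2
    · have := Finset.mem_range.1 hi'
      omega
    · refine lo _ ?_
      have : (0 : ℝ) ≤ T * i := by positivity
      push_cast
      nlinarith
  · intro i hi'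
    have h1 := Finset.mem_range.1 hi'
    rcases h.1 with h2 | h2
    · omega
    · refine hi _ ?_
      have h3 : (i : ℝ) + 1 ≤ j := by exact_mod_cast h1
      nlinarith

theorem LCurve_der {P j : ℕ} (hj : j < P) {T c r : ℝ} (hT : 0 < T) {f : ℝ → ℝ}
    (lo : ∀ t, t ≤ T / 5 → f t = 0) (hi : ∀ t, 4 * T / 5 ≤ t → f t = c)
    (h : (j = 0 ∨ 0 ≤ r + 4 - T * j) ∧ (j + 1 = P ∨ r + 4 - T * j ≤ T)) :
    deriv (LCurve_rep P T f) r = deriv f (r + 4 - T * j) := by
  have h1 : LCurve_rep P T f =ᶠ[𝓝 r] fun x => j * c + f (x + (4 - T * j)) := by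
    filter_upwards [Metric.closedBall_mem_nhds r (by positivity : 0 < T / 5)] with x hx
    rw [LCurve_loc hj hT lo hi h hx, add_sub_assoc]
  rw [h1.deriv_eq, deriv_const_add, deriv_comp_add_const, add_sub_assoc]

theorem LCurve_lo (P : ℕ) {T r : ℝ} (hT : 0 < T) {f : ℝ → ℝ} (lo : ∀ t, t ≤ T / 5 → f t = 0)
    (h : r ≤ -4) : LCurve_rep P T f r = 0 :=
  Finset.sum_eq_zero fun j _ => lo _ (by
    have : (0 : ℝ) ≤ T * j := by positivity
    linarith)

theorem LCurve_hi {P : ℕ} {T c r : ℝ} (hT : 0 < T) (hP : T * P = 8) {f : ℝ → ℝ}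
    (hi : ∀ t, 4 * T / 5 ≤ t → f t = c) (h : 4 ≤ r) : LCurve_rep P T f r = P * c := by
  unfold LCurve_rep
  rw [Finset.sum_congr rfl (g := fun _ => c)]
  · simp
  · intro j hj
    have h1 : (j : ℝ) + 1 ≤ P := by exact_mod_cast Finset.mem_range.1 hj
    exact hi _ (by nlinarith)

theorem LCurve_mid {T u : ℝ} {g : ℝ → ℝ} (lo : ∀ t, t ≤ T / 5 → g t = 0)
    (hi : ∀ t, 4 * T / 5 ≤ t → g t = 0) (h : deriv g u ≤ -1) : T / 5 ≤ u ∧ u ≤ 4 * T / 5 := by
  have key : g =ᶠ[𝓝 u] (fun _ => 0) → False := fun h0 => by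
    rw [h0.deriv_eq, deriv_const] at h
    linarith
  refine ⟨not_lt.1 fun h1 => key ?_, not_lt.1 fun h1 => key ?_⟩
  · filter_upwards [Iio_mem_nhds h1] with t ht using lo t (le_of_lt ht)
  · filter_upwards [Ioi_mem_nhds h1] with t ht using hi t (le_of_lt ht)

theorem LCurve_cut {η : ℝ} (hη : 0 < η) : ∃ χ : ℝ → ℝ, ContDiff ℝ ∞ χ ∧ (∀ r, |χ r| ≤ 1) ∧
    (∀ r, |r| ≤ 4 → χ r = 1) ∧ ∀ r, 4 + η ≤ |r| → χ r = 0 := by
  refine ⟨fun r => Real.smoothTransition ((r + 4 + η) / η) *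
    Real.smoothTransition ((4 + η - r) / η), ?_, fun r => ?_, fun r hr => ?_, fun r hr => ?_⟩
  · exact (Real.smoothTransition.contDiff.comp (by fun_prop)).mul
      (Real.smoothTransition.contDiff.comp (by fun_prop))
  · rw [abs_of_nonneg (mul_nonneg (Real.smoothTransition.nonneg _) (Real.smoothTransition.nonneg _))]
    exact mul_le_one₀ (Real.smoothTransition.le_one _) (Real.smoothTransition.nonneg _)
      (Real.smoothTransition.le_one _)
  · rw [abs_le] at hr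
    show Real.smoothTransition _ * Real.smoothTransition _ = 1
    rw [Real.smoothTransition.one_of_one_le ((one_le_div hη).2 (by linarith)),
      Real.smoothTransition.one_of_one_le ((one_le_div hη).2 (by linarith)), one_mul]
  · show Real.smoothTransition _ * Real.smoothTransition _ = 0
    rcases le_abs.1 hr with h | h
    · rw [Real.smoothTransition.zero_of_nonpos (x := (4 + η - r) / η)
        (div_nonpos_of_nonpos_of_nonneg (by linarith) hη.le), mul_zero]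
    · rw [Real.smoothTransition.zero_of_nonpos (x := (r + 4 + η) / η)
        (div_nonpos_of_nonpos_of_nonneg (by linarith) hη.le), zero_mul]

theorem LCurve_neg {s d : ℝ} (hs : s ∈ Icc (0 : ℝ) 1) (h : 1 + s * d = 0) :
    d ≤ -1 ∧ (s < 1 → d < -1) := by
  have h0 : d < 0 := by
    by_contra h0
    have := mul_nonneg hs.1 (not_lt.1 h0)
    linarith
  exact ⟨by nlinarith [hs.2], fun h1 => by nlinarith⟩

/-- `P` periods of length `T = 8 / P`, and a cut-off. -/
theorem crv_exists (C : ℝ) {η : ℝ} (hη : 0 < η) (h1 : η ≤ 1) :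
    ∃ g k w n₁ n₀ : ℝ → ℝ, Crv C η g k w n₁ n₀ := by
  obtain ⟨T₀, hT₀, hc⟩ := cell_exists C hη
  obtain ⟨P, hP⟩ := exists_nat_gt (8 / T₀)
  have hP0 : (0 : ℝ) < P := lt_trans (by positivity) hP
  have hP1 : 0 < P := by exact_mod_cast hP0
  obtain ⟨T, hT, hTP, hT1⟩ : ∃ T : ℝ, 0 < T ∧ T * P = 8 ∧ T ≤ T₀ :=
    ⟨8 / P, by positivity, by field_simp, by
      rw [div_le_iff₀ hP0]
      rw [div_lt_iff₀ hT₀] at hP
      linarith⟩
  obtain ⟨A, g, s, w, n₁, n₀, H⟩ := hc T hT hT1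
  obtain ⟨χ, χ1, χ2, χ3, χ4⟩ := LCurve_cut hη
  have g0 := fun t ht => (H.lo t ht).1
  have g1 := fun t ht => (H.hi t ht).1
  have w0 := fun t ht => (H.lo t ht).2.1
  have w1 := fun t ht => (H.hi t ht).2.1
  have a0 := fun t ht => (H.lo t ht).2.2.1
  have a1 := fun t ht => (H.hi t ht).2.2.1
  have b0 := fun t ht => (H.lo t ht).2.2.2.1
  have b1 := fun t ht => (H.hi t ht).2.2.2.1
  have s0 := fun t ht => (H.lo t ht).2.2.2.2
  have s1 := fun t ht => (H.hi t ht).2.2.2.2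
  have z : ∀ r : ℝ, |r - r| ≤ T / 5 := fun r => by
    rw [sub_self, abs_zero]
    positivity
  have bd : ∀ {f : ℝ → ℝ} {B : ℝ}, (∀ t, t ≤ T / 5 → f t = 0) → (∀ t, 4 * T / 5 ≤ t → f t = 0) →
      (∀ t, |f t| ≤ B) → ∀ r, |LCurve_rep P T f r| ≤ B := fun lo hi hb r => by
    obtain ⟨j, hj, h⟩ := LCurve_cover hP1 hT r
    rw [LCurve_loc hj hT lo hi h (z r), mul_zero, zero_add]
    exact hb _
  have ou : ∀ {f : ℝ → ℝ}, (∀ t, t ≤ T / 5 → f t = 0) → (∀ t, 4 * T / 5 ≤ t → f t = 0) →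
      ∀ r, 5 < |r| → LCurve_rep P T f r = 0 := fun lo hi r hr => by
    rcases lt_abs.1 hr with h | h
    · rw [LCurve_hi hT hTP hi (by linarith), mul_zero]
    · exact LCurve_lo P hT lo (by linarith)
  have dk : ∀ r, |r| < 4 → 1 + deriv (fun r => χ r * (LCurve_rep P T s r - 4 - r)) r =
      deriv (LCurve_rep P T s) r := fun r hr => by
    have h2 : (fun r => χ r * (LCurve_rep P T s r - 4 - r)) =ᶠ[𝓝 r]
        fun r => LCurve_rep P T s r - 4 - r := by
      filter_upwards [(isOpen_lt continuous_abs continuous_const).mem_nhds hr] with x hx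
      rw [χ3 x (le_of_lt hx), one_mul]
    have h3 := (((LCurve_sm P T H.sms).differentiable (by simp) r).hasDerivAt.sub_const 4).sub
      (hasDerivAt_id r)
    rw [h2.deriv_eq, show deriv (fun r => LCurve_rep P T s r - 4 - r) r = _ from h3.deriv]
    ring
  have mid : ∀ {j : ℕ} {c : ℝ}, j < P → deriv g (c + 4 - T * j) ≤ -1 →
      -4 + T / 5 ≤ c ∧ c ≤ 4 - T / 5 := fun {j c} hj hd => by
    obtain ⟨h2, h3⟩ := LCurve_mid g0 g1 hd
    have h4 : (j : ℝ) + 1 ≤ P := by exact_mod_cast hj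
    have h5 : (0 : ℝ) ≤ T * j := by positivity
    exact ⟨by linarith, by nlinarith⟩
  refine ⟨LCurve_rep P T g, fun r => χ r * (LCurve_rep P T s r - 4 - r), LCurve_rep P T w,
    LCurve_rep P T n₁, LCurve_rep P T n₀, LCurve_sm P T H.smg,
    χ1.mul (((LCurve_sm P T H.sms).sub contDiff_const).sub contDiff_id), LCurve_sm P T H.smw,
    LCurve_sm P T H.sm1, LCurve_sm P T H.sm0,
    fun r => (bd g0 g1 H.bg r).trans (by linarith [H.lt, H.le]), fun r => ?_, bd w0 w1 H.bw,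
    bd a0 a1 H.b1, bd b0 b1 H.b0, fun r hr => ⟨ou g0 g1 r hr, ?_, ou w0 w1 r hr, ou a0 a1 r hr,
      ou b0 b1 r hr⟩, fun r => ?_, fun r hr => ?_, fun a ha σ hσ r r' hr he => ?_,
    fun a ha σ hσ r he => ?_⟩
  · rcases le_or_gt (4 + η) |r| with h2 | h2
    · rw [χ4 r h2, zero_mul, abs_zero]
      exact hη.le
    rw [abs_mul]
    refine (mul_le_of_le_one_left (abs_nonneg _) (χ2 r)).trans ?_
    rw [abs_lt] at h2
    rcases le_or_gt r (-4) with h3 | h3
    · rw [LCurve_lo P hT s0 h3, abs_le]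
      constructor <;> linarith
    rcases le_or_gt 4 r with h4 | h4
    · rw [LCurve_hi hT hTP s1 h4, abs_le]
      constructor <;> linarith
    obtain ⟨j, hj, h⟩ := LCurve_cover hP1 hT r
    have h5 : 0 ≤ r + 4 - T * j := by
      rcases h.1 with h5 | h5
      · rw [h5]
        simp only [Nat.cast_zero, mul_zero]
        linarith
      · exact h5
    have h6 : r + 4 - T * j ≤ T := by
      rcases h.2 with h6 | h6
      · have h7 : (j : ℝ) + 1 = P := by exact_mod_cast h6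
        nlinarith
      · exact h6
    have h7 := H.bs (r + 4 - T * j)
    rw [LCurve_loc hj hT s0 s1 h (z r), abs_le]
    constructor <;> linarith [H.le]
  · show χ r * _ = 0
    rw [χ4 r (by linarith), zero_mul]
  · obtain ⟨j, hj, h⟩ := LCurve_cover hP1 hT r
    rw [LCurve_der hj hT w0 w1 h, LCurve_der hj hT g0 g1 h, LCurve_loc hj hT b0 b1 h (z r),
      mul_zero, zero_add, H.dw]
  · obtain ⟨j, hj, h⟩ := LCurve_cover hP1 hT r
    rw [dk r hr, LCurve_der hj hT s0 s1 h, LCurve_der hj hT g0 g1 h,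
      LCurve_loc hj hT a0 a1 h (z r), mul_zero, zero_add, H.ds]
  · have hG := (LCurve_sm P T H.smg).differentiable (by simp)
    obtain ⟨c, hc, h2⟩ := exists_hasDerivAt_eq_zero (f := fun x => x + σ * LCurve_rep P T g x)
      (f' := fun x => 1 + σ * deriv (LCurve_rep P T g) x) hr
      (continuous_id.add (continuous_const.mul hG.continuous)).continuousOn he
      fun x _ => (hasDerivAt_id x).add ((hG x).hasDerivAt.const_mul σ)
    obtain ⟨j, hj, h⟩ := LCurve_cover hP1 hT c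
    have h3 := (LCurve_neg hσ h2).1
    rw [LCurve_der hj hT g0 g1 h] at h3
    have h4 : r' - r ≤ 2 * A := by
      have h5 := abs_le.1 (bd g0 g1 H.bg r)
      have h6 := abs_le.1 (bd g0 g1 H.bg r')
      nlinarith [hσ.1, hσ.2]
    have h5 := mid hj h3
    have h6 := H.lt
    have e1 : |r - c| ≤ T / 5 := abs_le.2 ⟨by linarith [hc.2], by linarith [hc.1]⟩
    have e2 : |r' - c| ≤ T / 5 := abs_le.2 ⟨by linarith [hc.2], by linarith [hc.1]⟩
    have h7 := H.inj a ha (r + 4 - T * j) _ (r' + 4 - T * j) (by linarith [hc.1])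
      (by linarith [hc.2]) (by linarith) h3
    rw [χ3 r (abs_le.2 ⟨by linarith [hc.2], by linarith [hc.1]⟩),
      χ3 r' (abs_le.2 ⟨by linarith [hc.2], by linarith [hc.1]⟩),
      LCurve_loc hj hT s0 s1 h e1, LCurve_loc hj hT s0 s1 h e2, LCurve_loc hj hT w0 w1 h e1,
      LCurve_loc hj hT w0 w1 h e2]
    intro h8
    exact h7 (by linarith)
  · obtain ⟨j, hj, h⟩ := LCurve_cover hP1 hT r
    rw [LCurve_der hj hT g0 g1 h] at he
    obtain ⟨h2, h3⟩ := LCurve_neg hσ he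
    have h4 := mid hj h2
    rw [dk r (abs_lt.2 ⟨by linarith, by linarith⟩), LCurve_der hj hT s0 s1 h,
      LCurve_der hj hT w0 w1 h, LCurve_der hj hT a0 a1 h, LCurve_der hj hT b0 b1 h]
    refine ⟨fun h5 => (H.imm a ha _).1 (h3 h5), fun h5 => ?_⟩
    rw [h5, one_mul] at he
    exact ⟨by rw [H.ds, he, mul_zero], (H.imm a ha _).2 (by linarith)⟩

end Pool.Agent.Lib.MP_ccffa6_gt.ELI
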