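import Pool.Agent.Lib.MP_ccffa6_gt.ELI.Defs

/-!
Definitions for the critical case `P = 1`: plane curves, band data, the zigzag.
-/

open Set Filter Topology
open scoped ContDiff RealInnerProductSpace

noncomputable section

namespace Pool.Agent.Lib.MP_ccffa6_gt.ELI

/-- One zone of oscillations, supported in `[0, J]`. -/
structure Zone (η J A : ℝ) (γ n σ : ℝ → ℝ) : Prop where
  smγ : ContDiff ℝ ∞ γ
  smn : ContDiff ℝ ∞ n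
  smσ : ContDiff ℝ ∞ σ
  lt : 2 * A < J
  bγ : ∀ t, |γ t| ≤ A
  bn : ∀ t, |n t| ≤ η
  lo : ∀ t, t ≤ 0 → γ t = 0 ∧ n t = 0 ∧ σ t = 0
  hi : ∀ t, J ≤ t → γ t = 0 ∧ n t = 0 ∧ σ t = 5 * J
  dσ : ∀ t, deriv σ t = n t * (1 + deriv γ t)
  mono : Monotone σ
  fold : ∀ c, deriv γ c ≤ -1 → 0 < c ∧ c < J ∧ (∀ r r', r < c → c < r' → σ r < σ r') ∧
    (deriv γ c < -1 → 0 < deriv σ c) ∧ (deriv γ c = -1 → deriv n c ≠ 0)

/-- One period: a positive and a negative zone. -/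
structure Cell (C η T A : ℝ) (g s w n₁ n₀ : ℝ → ℝ) : Prop where
  smg : ContDiff ℝ ∞ g
  sms : ContDiff ℝ ∞ s
  smw : ContDiff ℝ ∞ w
  sm1 : ContDiff ℝ ∞ n₁
  sm0 : ContDiff ℝ ∞ n₀
  pos : 0 < T
  le : T ≤ η
  lt : 2 * A < T / 5
  bg : ∀ t, |g t| ≤ A
  bs : ∀ t, 0 ≤ s t ∧ s t ≤ T
  bw : ∀ t, |w t| ≤ η
  b1 : ∀ t, |n₁ t| ≤ η
  b0 : ∀ t, |n₀ t| ≤ η
  lo : ∀ t, t ≤ T / 5 → g t = 0 ∧ w t = 0 ∧ n₁ t = 0 ∧ n₀ t = 0 ∧ s t = 0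
  hi : ∀ t, 4 * T / 5 ≤ t → g t = 0 ∧ w t = 0 ∧ n₁ t = 0 ∧ n₀ t = 0 ∧ s t = T
  ds : ∀ t, deriv s t = n₁ t * (1 + deriv g t)
  dw : ∀ t, deriv w t = n₀ t * (1 + deriv g t)
  inj : ∀ a, |a| ≤ C → ∀ r c r', r < c → c < r' → r' - r ≤ 2 * A → deriv g c ≤ -1 →
    a * (s r' - s r) + (w r' - w r) ≠ 0
  imm : ∀ a, |a| ≤ C → ∀ c, (deriv g c < -1 → a * deriv s c + deriv w c ≠ 0) ∧
    (deriv g c = -1 → a * deriv n₁ c + deriv n₀ c ≠ 0)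

/-- The universal zigzag curve. -/
structure Crv (C η : ℝ) (g k w n₁ n₀ : ℝ → ℝ) : Prop where
  smg : ContDiff ℝ ∞ g
  smk : ContDiff ℝ ∞ k
  smw : ContDiff ℝ ∞ w
  sm1 : ContDiff ℝ ∞ n₁
  sm0 : ContDiff ℝ ∞ n₀
  bg : ∀ r, |g r| ≤ η
  bk : ∀ r, |k r| ≤ η
  bw : ∀ r, |w r| ≤ η
  b1 : ∀ r, |n₁ r| ≤ η
  b0 : ∀ r, |n₀ r| ≤ η
  out : ∀ r, 5 < |r| → g r = 0 ∧ k r = 0 ∧ w r = 0 ∧ n₁ r = 0 ∧ n₀ r = 0
  dw : ∀ r, deriv w r = n₀ r * (1 + deriv g r)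
  dk : ∀ r, |r| < 4 → 1 + deriv k r = n₁ r * (1 + deriv g r)
  inj : ∀ a, |a| ≤ C → ∀ s ∈ Icc (0 : ℝ) 1, ∀ r r', r < r' → r + s * g r = r' + s * g r' →
    a * ((k r' + r') - (k r + r)) + (w r' - w r) ≠ 0
  imm : ∀ a, |a| ≤ C → ∀ s ∈ Icc (0 : ℝ) 1, ∀ r, 1 + s * deriv g r = 0 →
    (s < 1 → a * (1 + deriv k r) + deriv w r ≠ 0) ∧
      (s = 1 → 1 + deriv k r = 0 ∧ a * deriv n₁ r + deriv n₀ r ≠ 0)

/-- Transport of frames along the vectors `V r x`, from `r₁` to `r`. -/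
structure Trp {X E : Type} [NormedAddCommGroup X] [NormedSpace ℝ X] [NormedAddCommGroup E]
    [NormedSpace ℝ E] (U Kc : Set X) (r₀ r₁ : ℝ) (V : ℝ → X → E) (l : ℝ → X → E →L[ℝ] ℝ)
    (Φ : ℝ → X → E →L[ℝ] E) : Prop where
  sm : ∀ r, ∀ x ∈ U, ContDiffAt ℝ ∞ (fun z : ℝ × X => Φ z.1 z.2) (r, x)
  inj : ∀ r ∈ Icc r₀ r₁, ∀ x ∈ Kc, Function.Injective (Φ r x)
  map : ∀ r ∈ Icc r₀ r₁, ∀ x ∈ Kc, Φ r x (V r₁ x) = V r x
  fix : ∀ r x e, (∀ r', l r' x e = 0) → Φ r x e = e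
  sub : ∀ r x (W : Submodule ℝ E), (∀ r', V r' x ∈ W) → ∀ e, Φ r x e - e ∈ W
  one : ∀ r x, (∀ r' ∈ uIcc r r₁, V r' x = V r₁ x) → Φ r x = ContinuousLinearMap.id ℝ E

variable {F : Type} [NormedAddCommGroup F] [InnerProductSpace ℝ F]

section hom

variable {Y : Type} [NormedAddCommGroup Y] [NormedSpace ℝ Y]

/-- Smooth away from the origin. -/
def Sm (f : F → Y) : Prop := ∀ x, x ≠ 0 → ContDiffAt ℝ ∞ f x

/-- Homogeneous of degree zero. -/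
def H0 (f : F → Y) : Prop := ∀ ρ : ℝ, 0 < ρ → ∀ x, x ≠ 0 → f (ρ • x) = f x

/-- Homogeneous of degree one. -/
def H1 (f : F → Y) : Prop := ∀ ρ : ℝ, 0 < ρ → ∀ x, x ≠ 0 → f (ρ • x) = ρ • f x

end hom

/-- A homogeneous diffeomorphism of the complement of the origin, with its inverse. -/
structure HDiff (h k : F → F) : Prop where
  smh : Sm h
  smk : Sm k
  hh : H1 h
  hk : H1 k
  neh : ∀ x, x ≠ 0 → h x ≠ 0
  nek : ∀ x, x ≠ 0 → k x ≠ 0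
  left : ∀ x, x ≠ 0 → k (h x) = x
  right : ∀ x, x ≠ 0 → h (k x) = x

/-- Band data: on the band `|φ| < L` the flow `κ` of `u` raises `φ` with unit speed and
`lam = dφ`; the pair `u`, `lam` extends over the inner region `φ < L`. -/
structure Band (L : ℝ) (φ : F → ℝ) (κ : ℝ → F → F) (u : F → F) (lam : Form1 F) : Prop where
  smφ : Sm φ
  smκ : ∀ t x, x ≠ 0 → ContDiffAt ℝ ∞ (fun z : ℝ × F => κ z.1 z.2) (t, x)
  smu : Sm u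
  sml : Sm lam
  hφ : H0 φ
  hκ : ∀ t, H1 (κ t)
  zero : ∀ x, x ≠ 0 → κ 0 x = x
  ne : ∀ t x, x ≠ 0 → κ t x ≠ 0
  inv : ∀ t x, x ≠ 0 → κ (-t) (κ t x) = x
  flow : ∀ t x, x ≠ 0 → |φ x| < L → |φ x + t| < L →
    φ (κ t x) = φ x + t ∧ HasDerivAt (fun t' => κ t' x) (u (κ t x)) t
  band : ∀ x, x ≠ 0 → |φ x| < L → lam x = fderiv ℝ φ x
  dual : ∀ x, x ≠ 0 → φ x < L → lam x (u x) = 1 ∧ lam x x = 0

/-- Band data with first integrals `Ψ` which complete `φ` to a system of coordinates. -/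
structure Pre (L : ℝ) (φ : F → ℝ) (κ : ℝ → F → F) (u : F → F) (lam : Form1 F) (Ψ : F → F)
    (Ec : F → F →L[ℝ] F) : Prop where
  bd : Band L φ κ u lam
  smΨ : Sm Ψ
  smE : Sm Ec
  hΨ : H0 Ψ
  inv : ∀ t x, x ≠ 0 → |φ x| < L → |φ x + t| < L → Ψ (κ t x) = Ψ x
  span : ∀ x, x ≠ 0 → |φ x| < L → ∀ v, ∃ c : ℝ,
    v = fderiv ℝ φ x v • u x + c • x + Ec x (fderiv ℝ Ψ x v)

/-- The shear `(v, p) ↦ (v, p + M v)`. -/
def shr (M : F →L[ℝ] F) : F × F →L[ℝ] F × F :=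
  (ContinuousLinearMap.fst ℝ F F).prod
    (ContinuousLinearMap.snd ℝ F F + M.comp (ContinuousLinearMap.fst ℝ F F))

/-- `0 × F` is isotropic and the pairing is joined to the standard one by a segment. -/
def LBlk (w : Bil (F × F)) : Prop :=
  (∀ p p', w (0, p) (0, p') = 0) ∧ ∀ t ∈ Icc (0 : ℝ) 1, ∀ p,
    (∀ v, (1 - t) * ⟪v, p⟫ + t * w (v, 0) (0, p) = 0) → p = 0

/-- The conclusion of `LegStmt 1`. -/
def LegFor (ς : F → F) (r : ℝ) : Prop :=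
  ∃ (f : ℝ → F → F × F) (G : ℝ → F → F →L[ℝ] F × F), Jets (1 : F →L[ℝ] F) f G ∧
    (∀ a : F, (1 : F →L[ℝ] F) a ≠ 0 → f 0 a = (a, ς a)) ∧
    (∀ q ∈ core (1 : F →L[ℝ] F), G 0 q = ContinuousLinearMap.inr ℝ F F) ∧
    (∀ s ∈ Icc (0 : ℝ) 1, ∀ q ∈ core (1 : F →L[ℝ] F),
      ((f s q).1, (f s q).2 - ς (f s q).1) ∈ Tube (1 : F →L[ℝ] F) r) ∧
    (∀ q ∈ core (1 : F →L[ℝ] F), pbB (frm (f 1) (G 1 q) q) (om0 F) = om0 F) ∧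
    ∀ a : Lf (1 : F →L[ℝ] F),
      Co (seg (fun q => pbB (frm (f 0) (G 0 q) q) (om0 F)) fun _ => om0 F) a (bas 1) →
      Co (fun s q => pbB (frm (f s) (G s q) q) (om0 F)) a (bas 1)

/-- The data of the zigzag. -/
structure ZD (F : Type) [NormedAddCommGroup F] [InnerProductSpace ℝ F] where
  ς : F → F
  φ : F → ℝ
  κ : ℝ → F → F
  u : F → F
  lam : Form1 F
  e : Form1 F
  z : F → ℝ
  a : F → ℝ
  g : ℝ → ℝ
  k : ℝ → ℝ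
  w : ℝ → ℝ
  n₁ : ℝ → ℝ
  n₀ : ℝ → ℝ
  C : ℝ
  η : ℝ

/-- The hypotheses on the data. -/
structure ZD.Ok (D : ZD F) : Prop where
  bd : Band 8 D.φ D.κ D.u D.lam
  cv : Crv D.C D.η D.g D.k D.w D.n₁ D.n₀
  hη : D.η ≤ 1 / 2
  smς : Sm D.ς
  hς : H0 D.ς
  sme : Sm D.e
  he : H0 D.e
  smz : Sm D.z
  sma : Sm D.a
  ha : H1 D.a
  red : ∀ x, x ≠ 0 → ∀ v, ⟪D.ς x, v⟫ + D.e x v = fderiv ℝ D.z x v - D.a x * fderiv ℝ D.φ x v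
  supp : ∀ x, x ≠ 0 → D.a x ≠ 0 → |D.φ x| ≤ 3
  ba : ∀ x, x ≠ 0 → |D.a x| ≤ D.C * ‖x‖

variable [FiniteDimensional ℝ F]

/-- The vector dual to a covector. -/
def shp : (F →L[ℝ] ℝ) →L[ℝ] F :=
  haveI := FiniteDimensional.complete ℝ F
  LinearMap.toContinuousLinearMap
    { toFun := fun β => (InnerProductSpace.toDual ℝ F).symm β
      map_add' := fun β β' => map_add _ β β'
      map_smul' := fun c β => by simp }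

/-- The transpose. -/
def trp : (F →L[ℝ] F) →L[ℝ] (F →L[ℝ] F) :=
  (ContinuousLinearMap.compL ℝ F (F →L[ℝ] ℝ) F shp).comp
    (((ContinuousLinearMap.compL ℝ F (F →L[ℝ] ℝ) (F →L[ℝ] ℝ)).flip
      (innerSL ℝ : F →L[ℝ] F →L[ℝ] ℝ)).comp (ContinuousLinearMap.compL ℝ F F ℝ).flip)

namespace ZD

variable (D : ZD F)

/-- time of the flow -/
def tm (s : ℝ) (x : F) : ℝ := s * D.g (D.φ x)

/-- base point -/
def y (s : ℝ) (x : F) : F := D.κ (D.tm s x) x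

/-- correction of the covector -/
def Gam (s r : ℝ) (y : F) : F →L[ℝ] ℝ :=
  s • ((D.k r - s * D.g r) • fderiv ℝ D.a y + D.w r • fderiv ℝ (fun x : F => ‖x‖) y +
    (D.a y * D.n₁ r + ‖y‖ * D.n₀ r) • fderiv ℝ D.φ y + D.e y)

/-- momentum -/
def sec (s r : ℝ) (y : F) : F := D.ς y + shp (D.Gam s r y)

/-- the isotopy -/
def f (s : ℝ) (x : F) : F × F := (D.y s x, D.sec s (D.φ x) (D.y s x))

/-- shear term -/
def M (s : ℝ) (x : F) : F →L[ℝ] F := fderiv ℝ (D.sec s (D.φ x)) (D.y s x)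

/-- derivative of the flow -/
def K (s : ℝ) (x : F) : F →L[ℝ] F := fderiv ℝ (D.κ (D.tm s x)) x

/-- its inverse -/
def K' (s : ℝ) (x : F) : F →L[ℝ] F := fderiv ℝ (D.κ (-D.tm s x)) (D.y s x)

def X (s r : ℝ) : ℝ := 1 + s * deriv D.g r

def al1 (s r : ℝ) : ℝ := s * (deriv D.k r - s * deriv D.g r)

def al0 (s r : ℝ) : ℝ := s * deriv D.w r

def be (s r : ℝ) (y : F) : ℝ := s * (D.a y * deriv D.n₁ r + ‖y‖ * deriv D.n₀ r)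

/-- the `r`-derivative of `Gam`, with `lam` in place of `dφ` -/
def gam (s r : ℝ) (y : F) : F →L[ℝ] ℝ :=
  D.al1 s r • fderiv ℝ D.a y + D.al0 s r • fderiv ℝ (fun x : F => ‖x‖) y + D.be s r y • D.lam y

def cc (s r : ℝ) (y : F) : ℝ :=
  D.al1 s r * fderiv ℝ D.a y (D.u y) + D.al0 s r * fderiv ℝ (fun x : F => ‖x‖) y (D.u y) +
    D.be s r y

def mm (s r : ℝ) (y : F) : ℝ := D.al1 s r * D.a y + D.al0 s r * ‖y‖

def NN (s r : ℝ) (y : F) : ℝ := D.X s r ^ 2 + D.cc s r y ^ 2 + (1 - s) * D.mm s r y ^ 2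

/-- the image of `(u, 0)` -/
def V (r : ℝ) (p : ℝ × F) : F × F :=
  (D.X p.1 r • D.u (D.y p.1 p.2), shp (D.gam p.1 r (D.y p.1 p.2)))

/-- a covector equal to one on `V` -/
def l (r : ℝ) (p : ℝ × F) : F × F →L[ℝ] ℝ :=
  (D.NN p.1 r (D.y p.1 p.2))⁻¹ •
    (D.X p.1 r • (D.lam (D.y p.1 p.2)).comp (ContinuousLinearMap.fst ℝ F F) +
      (innerSL ℝ (D.cc p.1 r (D.y p.1 p.2) • D.u (D.y p.1 p.2) +
        ((1 - p.1) * D.mm p.1 r (D.y p.1 p.2)) • D.y p.1 p.2)).comp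
        (ContinuousLinearMap.snd ℝ F F))

/-- the square of frames, `p = (s, l)` -/
def Psi (Φ : ℝ → ℝ × F → F × F →L[ℝ] F × F) (d : ℝ) (p : ℝ × ℝ) (x : F) : F × F →L[ℝ] F × F :=
  (shr ((1 - p.2) • D.M p.1 x)).comp ((Φ (D.φ x + p.2 * d) (p.1, x)).comp
    ((D.K p.1 x).prodMap (trp (D.K' p.1 x))))

/-- parameters where the objects are smooth -/
def U (F : Type) [Zero F] : Set (ℝ × F) := Icc (0 : ℝ) 1 ×ˢ {x | x ≠ 0}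

/-- parameters where the transport is used -/
def Kc : Set (ℝ × F) := Icc (0 : ℝ) 1 ×ˢ {x | ‖x‖ = 1 ∧ D.φ x ≤ 6}

end ZD

end Pool.Agent.Lib.MP_ccffa6_gt.ELI
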