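import Pool.Agent.Lib.MP_ccffa6_gt.ELI.LHom

/-!
A section is made holonomic near one ray.
-/

open Set Filter Topology
open scoped ContDiff RealInnerProductSpace

noncomputable section

namespace Pool.Agent.Lib.MP_ccffa6_gt.ELI

variable {F : Type} [NormedAddCommGroup F] [InnerProductSpace ℝ F]

theorem LHol_delta {n₀ : F} (hn : ‖n₀‖ = 1) {ς : F → F} (hs : Sm ς) (h0 : H0 ς) {ε : ℝ}
    (hε : 0 < ε) : ∃ δ > 0, ∀ x, x ≠ 0 → (1 - 2 * δ) * ‖x‖ < ⟪n₀, x⟫ → ‖ς n₀ - ς x‖ ≤ ε := by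
  have hn0 : n₀ ≠ 0 := fun h => by simp [h] at hn
  obtain ⟨r, hr, h⟩ := Metric.continuousAt_iff.1 (hs n₀ hn0).continuousAt ε hε
  refine ⟨r ^ 2 / 4, by positivity, fun x hx hx' => ?_⟩
  have hp : 0 < ‖x‖ := norm_pos_iff.2 hx
  have h1 : ‖‖x‖⁻¹ • x‖ = 1 := by rw [norm_smul, norm_inv, norm_norm, inv_mul_cancel₀ hp.ne']
  have h2 : 1 - 2 * (r ^ 2 / 4) < ⟪n₀, ‖x‖⁻¹ • x⟫ := by
    rw [inner_smul_right, inv_mul_eq_div, lt_div_iff₀ hp]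
    exact hx'
  have h3 : dist (‖x‖⁻¹ • x) n₀ < r := by
    rw [dist_comm, dist_eq_norm]
    refine lt_of_pow_lt_pow_left₀ 2 hr.le ?_
    rw [norm_sub_sq_real, hn, h1]
    linarith
  have h4 := h h3
  rw [h0 _ (inv_pos.2 hp) x hx, dist_comm, dist_eq_norm] at h4
  exact h4.le

/-- Sketch: `δ` with `‖ς x - ς n₀‖ ≤ ε` for unit `x` with `⟪n₀, x⟫ ≥ 1 - 2 δ`
(`‖x - n₀‖ ^ 2 = 2 - 2 ⟪n₀, x⟫`); `χ x = S ((⟪n₀, x⟫ / ‖x‖ - (1 - 2 δ)) / δ)`,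
`e x = χ x • innerSL (ς n₀ - ς x)`, `z x = ⟪ς x, x⟫ + e x x`, `b x = innerSL (ς x) + e x - dz x`.
On the open set `⟪n₀, x⟫ > (1 - δ) ‖x‖` one has `χ = 1`, `z x = ⟪ς n₀, x⟫`, `b = 0`. -/
theorem hol_exists {n₀ : F} (hn : ‖n₀‖ = 1) {ς : F → F} (hs : Sm ς) (h0 : H0 ς) {ε : ℝ}
    (hε : 0 < ε) : ∃ δ > 0, ∃ (e b : Form1 F) (z : F → ℝ), Sm e ∧ Sm b ∧ Sm z ∧ H0 e ∧ H0 b ∧
      ∀ x, x ≠ 0 → ‖e x‖ ≤ ε ∧ b x x = 0 ∧ (b x ≠ 0 → ⟪n₀, x⟫ ≤ (1 - δ) * ‖x‖) ∧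
        ∀ v, ⟪ς x, v⟫ + e x v = fderiv ℝ z x v + b x v := by
  obtain ⟨δ, hδ, h⟩ := LHol_delta hn hs h0 hε
  obtain ⟨χ, hχ⟩ : ∃ χ : F → ℝ,
      χ = fun x => Real.smoothTransition ((⟪n₀, x⟫ / ‖x‖ - (1 - 2 * δ)) / δ) := ⟨_, rfl⟩
  have c0 : Sm fun x : F => ⟪n₀, x⟫ / ‖x‖ := fun x hx =>
    (contDiffAt_const.inner ℝ contDiffAt_id).div (sm_norm x hx) (norm_ne_zero_iff.2 hx)
  have c1 : Sm χ := fun x hx => hχ ▸ Real.smoothTransition.contDiffAt.comp x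
    (((c0 x hx).sub contDiffAt_const).div_const δ)
  have c2 : H0 χ := fun ρ hρ x hx => by
    simp only [hχ, inner_smul_right, norm_smul, Real.norm_of_nonneg hρ.le,
      mul_div_mul_left _ _ hρ.ne']
  obtain ⟨e, he⟩ : ∃ e : Form1 F, e = fun x => χ x • innerSL ℝ (ς n₀ - ς x) := ⟨_, rfl⟩
  have e1 : Sm e := fun x hx => he ▸ (c1 x hx).smul
    ((innerSL ℝ : F →L[ℝ] F →L[ℝ] ℝ).contDiff.contDiffAt.comp x (contDiffAt_const.sub (hs x hx)))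
  have e2 : H0 e := fun ρ hρ x hx => by simp only [he, c2 ρ hρ x hx, h0 ρ hρ x hx]
  obtain ⟨z, hz⟩ : ∃ z : F → ℝ, z = fun x => ⟪ς x, x⟫ + e x x := ⟨_, rfl⟩
  have z1 : Sm z := fun x hx => hz ▸ ((hs x hx).inner ℝ contDiffAt_id).add
    ((e1 x hx).clm_apply contDiffAt_id)
  have z2 : H1 z := fun ρ hρ x hx => by
    simp only [hz, h0 ρ hρ x hx, e2 ρ hρ x hx, inner_smul_right, map_smul, smul_eq_mul, mul_add]
  refine ⟨δ, hδ, e, fun x => innerSL ℝ (ς x) + e x - fderiv ℝ z x, z, e1, fun x hx =>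
    (((innerSL ℝ : F →L[ℝ] F →L[ℝ] ℝ).contDiff.contDiffAt.comp x (hs x hx)).add (e1 x hx)).sub
      (z1.fderiv x hx), z1, e2, fun ρ hρ x hx => ?_, fun x hx => ⟨?_, ?_, fun hb => ?_,
        fun v => by simp⟩⟩
  · simp only [h0 ρ hρ x hx, e2 ρ hρ x hx, z2.h0_fderiv z1 ρ hρ x hx]
  · have hp : 0 < ‖x‖ := norm_pos_iff.2 hx
    rw [he]
    simp only [norm_smul, innerSL_apply_norm]
    by_cases h1 : (1 - 2 * δ) * ‖x‖ < ⟪n₀, x⟫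
    · refine (mul_le_of_le_one_left (norm_nonneg _) ?_).trans (h x hx h1)
      rw [hχ, Real.norm_of_nonneg (Real.smoothTransition.nonneg _)]
      exact Real.smoothTransition.le_one _
    · have h2 : χ x = 0 := hχ ▸ Real.smoothTransition.zero_of_nonpos (div_nonpos_of_nonpos_of_nonneg
        (sub_nonpos.2 ((div_le_iff₀ hp).2 (not_lt.1 h1))) hδ.le)
      simp [h2, hε.le]
  · simp only [sub_apply, add_apply, z2.euler z1 hx, innerSL_apply_apply]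
    simp [hz]
  · by_contra h1
    have h2 : 1 - δ < ⟪n₀, x⟫ / ‖x‖ := (lt_div_iff₀ (norm_pos_iff.2 hx)).2 (not_le.1 h1)
    have h3 : ∀ᶠ y in 𝓝 x, χ y = 1 := by
      filter_upwards [continuousAt_const.eventually_lt (c0 x hx).continuousAt h2] with y hy
      exact hχ ▸ Real.smoothTransition.one_of_one_le ((one_le_div hδ).2 (by linarith))
    have h4 : z =ᶠ[𝓝 x] innerSL ℝ (ς n₀) := h3.mono fun y hy => by
      simp [hz, he, hy]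
    refine hb ?_
    beta_reduce
    rw [h4.fderiv_eq, ContinuousLinearMap.fderiv, he]
    simp [h3.self_of_nhds]

end Pool.Agent.Lib.MP_ccffa6_gt.ELI
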