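import Pool.Agent.Lib.MP_ccffa6_gt.ELI.LDef

/-!
Homogeneous functions, duality, the case `P = 1`.
-/

open Set Filter Topology
open scoped ContDiff RealInnerProductSpace

noncomputable section

namespace Pool.Agent.Lib.MP_ccffa6_gt.ELI

variable {F : Type} [NormedAddCommGroup F] [InnerProductSpace ℝ F] [FiniteDimensional ℝ F]
  {Y : Type} [NormedAddCommGroup Y] [NormedSpace ℝ Y]

theorem inner_shp (β : F →L[ℝ] ℝ) (v : F) : ⟪shp β, v⟫ = β v := by
  have := FiniteDimensional.complete ℝ F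
  exact InnerProductSpace.toDual_symm_apply

theorem inner_shp' (β : F →L[ℝ] ℝ) (v : F) : ⟪v, shp β⟫ = β v := by
  rw [real_inner_comm, inner_shp]

theorem norm_shp (β : F →L[ℝ] ℝ) : ‖shp β‖ = ‖β‖ := by
  have := FiniteDimensional.complete ℝ F
  exact (InnerProductSpace.toDual ℝ F).symm.norm_map β

theorem shp_innerSL (p : F) : shp (innerSL ℝ p) = p := by
  exact ext_inner_right ℝ fun v => by rw [inner_shp, innerSL_apply_apply]

theorem inner_trp (A : F →L[ℝ] F) (p v : F) : ⟪trp A p, v⟫ = ⟪p, A v⟫ := by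
  exact inner_shp ((innerSL ℝ p).comp A) v

theorem trp_id : trp (ContinuousLinearMap.id ℝ F) = ContinuousLinearMap.id ℝ F := by
  exact ContinuousLinearMap.ext fun p => ext_inner_right ℝ fun v => inner_trp _ p v

omit [FiniteDimensional ℝ F] in
theorem shr_apply (M : F →L[ℝ] F) (v : F × F) : shr M v = (v.1, v.2 + M v.1) := rfl

omit [FiniteDimensional ℝ F] in
theorem shr_inj (M : F →L[ℝ] F) : Function.Injective (shr M) := by
  refine (injective_iff_map_eq_zero _).2 fun v hv => ?_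
  obtain ⟨h1, h2⟩ := Prod.mk_eq_zero.1 ((shr_apply M v).symm.trans hv)
  rw [h1, map_zero, add_zero] at h2
  exact Prod.ext h1 h2

omit [FiniteDimensional ℝ F] in
theorem shr_zero : shr (0 : F →L[ℝ] F) = ContinuousLinearMap.id ℝ (F × F) := by
  exact ContinuousLinearMap.ext fun v => by simp [shr_apply]

omit [FiniteDimensional ℝ F] in
theorem contDiff_shr : ContDiff ℝ ∞ fun M : F →L[ℝ] F => shr M := by
  have e : (fun M : F →L[ℝ] F => shr M) = fun M => ContinuousLinearMap.id ℝ (F × F) +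
      (ContinuousLinearMap.inr ℝ F F).comp (M.comp (ContinuousLinearMap.fst ℝ F F)) :=
    funext fun M => ContinuousLinearMap.ext fun v => by simp [shr_apply, Prod.ext_iff]
  rw [e]
  exact contDiff_const.add (contDiff_const.clm_comp (contDiff_id.clm_comp contDiff_const))

omit [FiniteDimensional ℝ F] in
theorem contDiff_prodMap :
    ContDiff ℝ ∞ fun z : (F →L[ℝ] F) × (F →L[ℝ] F) => z.1.prodMap z.2 := by
  have e : (fun z : (F →L[ℝ] F) × (F →L[ℝ] F) => z.1.prodMap z.2) = fun z =>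
      (ContinuousLinearMap.inl ℝ F F).comp (z.1.comp (ContinuousLinearMap.fst ℝ F F)) +
      (ContinuousLinearMap.inr ℝ F F).comp (z.2.comp (ContinuousLinearMap.snd ℝ F F)) :=
    funext fun z => ContinuousLinearMap.ext fun v => by simp [Prod.ext_iff]
  rw [e]
  exact (contDiff_const.clm_comp (contDiff_fst.clm_comp contDiff_const)).add
    (contDiff_const.clm_comp (contDiff_snd.clm_comp contDiff_const))

omit [FiniteDimensional ℝ F] in
theorem mem_core_one {q : F} : q ∈ core (1 : F →L[ℝ] F) ↔ ‖q‖ = 1 := by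
  simp [core]

omit [FiniteDimensional ℝ F] in
theorem sa_one_apply (ρ : ℝ) (a : F) : sa (1 : F →L[ℝ] F) ρ a = ρ • a := by
  simp [sa]

omit [FiniteDimensional ℝ F] in
theorem Sc_one_apply (ρ : ℝ) (y : F × F) : Sc (1 : F →L[ℝ] F) ρ y = (ρ • y.1, y.2) := by
  simp [Sc, sa, sb, Prod.map]

omit [FiniteDimensional ℝ F] in
theorem nz_one_apply (y : F × F) : nz (1 : F →L[ℝ] F) y = (‖y.1‖⁻¹ • y.1, y.2) := by
  rw [nz, Sc_one_apply]
  rfl

omit [FiniteDimensional ℝ F] in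
theorem mem_Tube_one {y : F × F} {r : ℝ} :
    y ∈ Tube (1 : F →L[ℝ] F) r ↔ y.1 ≠ 0 ∧ ‖y.2‖ < r := by
  simp [Tube, rad, nu, nz_one_apply, Prod.map]

omit [FiniteDimensional ℝ F] in
theorem Sect.sm_one {ς : F → F} (h : Sect (1 : F →L[ℝ] F) ς) : Sm ς := by
  exact fun x hx => h.sm x hx

omit [FiniteDimensional ℝ F] in
theorem Sect.h0_one {ς : F → F} (h : Sect (1 : F →L[ℝ] F) ς) : H0 ς := by
  intro ρ hρ x hx
  have h1 := h.eqv ρ hρ x hx
  rw [sa_one_apply] at h1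
  simpa [sb] using h1

omit [FiniteDimensional ℝ F] in
theorem eventually_ne_zero {x : F} (hx : x ≠ 0) : ∀ᶠ x' in 𝓝 x, x' ≠ 0 :=
  isOpen_ne.mem_nhds hx

variable {f : F → Y}

omit [FiniteDimensional ℝ F] in
theorem Sm.diff (h : Sm f) {x : F} (hx : x ≠ 0) : DifferentiableAt ℝ f x :=
  (h x hx).differentiableAt (by simp)

omit [FiniteDimensional ℝ F] in
theorem Sm.fderiv (h : Sm f) : Sm (fderiv ℝ f) := by
  exact fun x hx => (h x hx).fderiv_right (m := ∞) (by simp)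

omit [FiniteDimensional ℝ F] in
theorem Sm.contDiffOn (h : Sm f) : ContDiffOn ℝ ∞ f {x | x ≠ 0} :=
  fun x hx => (h x hx).contDiffWithinAt

omit [FiniteDimensional ℝ F] in
theorem LHom_smul (hs : Sm f) {ρ : ℝ} (hρ : 0 < ρ) {x : F} (hx : x ≠ 0) :
    fderiv ℝ (fun y => f (ρ • y)) x = ρ • fderiv ℝ f (ρ • x) := by
  have h1 := (hs.diff (smul_ne_zero hρ.ne' hx)).hasFDerivAt.comp x
    ((hasFDerivAt_id x).const_smul ρ)
  refine h1.fderiv.trans (ContinuousLinearMap.ext fun v => ?_)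
  simp

omit [FiniteDimensional ℝ F] in
theorem LHom_ray (hs : Sm f) {x : F} (hx : x ≠ 0) :
    HasDerivAt (fun t : ℝ => f (t • x)) (fderiv ℝ f x x) 1 := by
  have h1 : HasFDerivAt f (fderiv ℝ f x) ((1 : ℝ) • x) := by
    rw [one_smul]
    exact (hs.diff hx).hasFDerivAt
  have h2 := h1.comp_hasDerivAt (1 : ℝ) ((hasDerivAt_id (1 : ℝ)).smul_const x)
  rw [one_smul] at h2
  exact h2

omit [FiniteDimensional ℝ F] in
theorem H0.fderiv_smul (h : H0 f) (hs : Sm f) {ρ : ℝ} (hρ : 0 < ρ) {x : F} (hx : x ≠ 0) :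
    fderiv ℝ f (ρ • x) = ρ⁻¹ • fderiv ℝ f x := by
  have h1 : (fun y => f (ρ • y)) =ᶠ[𝓝 x] f := (eventually_ne_zero hx).mono (h ρ hρ)
  rw [← h1.fderiv_eq, LHom_smul hs hρ hx, smul_smul, inv_mul_cancel₀ hρ.ne', one_smul]

omit [FiniteDimensional ℝ F] in
theorem H0.euler (h : H0 f) (hs : Sm f) {x : F} (hx : x ≠ 0) : fderiv ℝ f x x = 0 := by
  refine (LHom_ray hs hx).unique ((hasDerivAt_const (1 : ℝ) (f x)).congr_of_eventuallyEq ?_)
  exact (lt_mem_nhds one_pos).mono fun t ht => h t ht x hx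

omit [FiniteDimensional ℝ F] in
theorem H1.h0_fderiv (h : H1 f) (hs : Sm f) : H0 (fderiv ℝ f) := by
  intro ρ hρ x hx
  have h1 : (fun y => f (ρ • y)) =ᶠ[𝓝 x] fun y => ρ • f y := (eventually_ne_zero hx).mono (h ρ hρ)
  have h2 := h1.fderiv_eq (𝕜 := ℝ)
  rw [LHom_smul hs hρ hx, fderiv_fun_const_smul (hs.diff hx)] at h2
  exact smul_right_injective _ hρ.ne' h2

omit [FiniteDimensional ℝ F] in
theorem H1.euler (h : H1 f) (hs : Sm f) {x : F} (hx : x ≠ 0) : fderiv ℝ f x x = f x := by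
  have h1 : HasDerivAt (fun t : ℝ => t • f x) (f x) 1 := by
    simpa using (hasDerivAt_id (1 : ℝ)).smul_const (f x)
  refine (LHom_ray hs hx).unique (h1.congr_of_eventuallyEq ?_)
  exact (lt_mem_nhds one_pos).mono fun t ht => h t ht x hx

theorem LHom_sph (hs : Sm f) : ∃ B, 0 ≤ B ∧ ∀ x, x ≠ 0 → ‖f (‖x‖⁻¹ • x)‖ ≤ B := by
  obtain ⟨B, hB⟩ := (isCompact_sphere (0 : F) 1).exists_bound_of_continuousOn (f := f)
    fun x hx => (hs x (by rintro rfl; simp at hx)).continuousAt.continuousWithinAt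
  refine ⟨max B 0, le_max_right _ _, fun x hx => (hB _ ?_).trans (le_max_left _ _)⟩
  simp [norm_smul, hx]

theorem H0.bound (h : H0 f) (hs : Sm f) : ∃ B, 0 ≤ B ∧ ∀ x, x ≠ 0 → ‖f x‖ ≤ B := by
  obtain ⟨B, h0, hB⟩ := LHom_sph hs
  exact ⟨B, h0, fun x hx => h _ (inv_pos.2 (norm_pos_iff.2 hx)) x hx ▸ hB x hx⟩

omit [FiniteDimensional ℝ F] in
theorem sm_norm : Sm fun x : F => ‖x‖ := by
  exact fun x hx => contDiffAt_norm ℝ hx

omit [FiniteDimensional ℝ F] in
theorem h1_norm : H1 fun x : F => ‖x‖ := by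
  intro ρ hρ x _
  simp only [norm_smul, Real.norm_of_nonneg hρ.le, smul_eq_mul]

omit [FiniteDimensional ℝ F] in
theorem fderiv_norm_apply {x : F} (hx : x ≠ 0) (v : F) :
    fderiv ℝ (fun x : F => ‖x‖) x v = ‖x‖⁻¹ * ⟪x, v⟫ := by
  have h1 := ((sm_norm.diff hx).hasFDerivAt.pow 2).unique (hasStrictFDerivAt_norm_sq x).hasFDerivAt
  have h2 := DFunLike.congr_fun h1 v
  have h3 := norm_ne_zero_iff.2 hx
  simp only [smul_apply, smul_eq_mul, nsmul_eq_mul, innerSL_apply_apply] at h2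
  field_simp
  norm_num at h2
  linarith

omit [FiniteDimensional ℝ F] in
theorem norm_fderiv_norm_le {x : F} (hx : x ≠ 0) : ‖fderiv ℝ (fun x : F => ‖x‖) x‖ ≤ 1 := by
  refine ContinuousLinearMap.opNorm_le_bound _ zero_le_one fun v => ?_
  rw [fderiv_norm_apply hx, norm_mul, norm_inv, norm_norm, one_mul,
    inv_mul_le_iff₀ (norm_pos_iff.2 hx)]
  exact norm_inner_le_norm x v

/-- One constant for the three bounds used by the zigzag. -/
theorem exists_three_bounds {a φ : F → ℝ} (ha : H1 a) (sa' : Sm a) (hφ : H0 φ) (sφ : Sm φ) :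
    ∃ C, 0 ≤ C ∧ ∀ y, y ≠ 0 → |a y| ≤ C * ‖y‖ ∧ ‖fderiv ℝ a y‖ ≤ C ∧
      ‖y‖ * ‖fderiv ℝ φ y‖ ≤ C := by
  obtain ⟨B, h0, hB⟩ := (ha.h0_fderiv sa').bound sa'.fderiv
  obtain ⟨C, -, hC⟩ := LHom_sph sφ.fderiv
  refine ⟨max B C, le_max_of_le_left h0, fun y hy => ⟨?_, (hB y hy).trans (le_max_left _ _), ?_⟩⟩
  · rw [← ha.euler sa' hy]
    exact (fderiv ℝ a y).le_of_opNorm_le ((hB y hy).trans (le_max_left _ _)) y
  · have h1 := hC y hy
    rw [hφ.fderiv_smul sφ (inv_pos.2 (norm_pos_iff.2 hy)) hy, inv_inv, norm_smul, norm_norm] at h1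
    exact h1.trans (le_max_right _ _)

end Pool.Agent.Lib.MP_ccffa6_gt.ELI
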