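import Pool.Agent.Lib.MP_ccffa6_gt.ELI.LHom

/-!
The splitting, the boost.
-/

open Set Filter Topology
open scoped ContDiff RealInnerProductSpace

noncomputable section

namespace Pool.Agent.Lib.MP_ccffa6_gt.ELI

variable {F : Type} [NormedAddCommGroup F] [InnerProductSpace ℝ F] [FiniteDimensional ℝ F]

theorem LJoinA_frame (h3 : 3 ≤ Module.finrank ℝ F) : ∃ e₁ e₂ e₃ : F, ‖e₁‖ = 1 ∧ ‖e₂‖ = 1 ∧
    ‖e₃‖ = 1 ∧ ⟪e₁, e₂⟫ = 0 ∧ ⟪e₁, e₃⟫ = 0 ∧ ⟪e₂, e₃⟫ = 0 := by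
  have h := (stdOrthonormalBasis ℝ F).orthonormal
  refine ⟨_, _, _, h.1 ⟨0, by omega⟩, h.1 ⟨1, by omega⟩, h.1 ⟨2, by omega⟩, h.2 ?_, h.2 ?_,
    h.2 ?_⟩ <;> simp

/-- Sketch: `e₁ e₂ e₃` from `stdOrthonormalBasis`, `P x = ⟪e₁, x⟫ e₁ + ⟪e₂, x⟫ e₂`,
`J x = ⟪e₁, x⟫ e₂ - ⟪e₂, x⟫ e₁`, `n₀ = (e₁ + e₃) / √2`. If `x` is a unit vector with
`⟪n₀, x⟫ ≤ -9/10` then `‖x + n₀‖ ^ 2 ≤ 1/5`, and `‖P n₀‖ = ‖n₀ - P n₀‖ = 1/√2 > 0.7`,
`√(1/5) < 0.45`. -/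
theorem split_exists (h3 : 3 ≤ Module.finrank ℝ F) : ∃ (P J : F →L[ℝ] F) (n₀ : F), IsOP P ∧
    (∀ x, P (J x) = J x) ∧ (∀ x, ⟪J x, x⟫ = 0) ∧ (∀ x, ‖J x‖ = ‖P x‖) ∧ ‖n₀‖ = 1 ∧
    ∀ x, ⟪n₀, x⟫ ≤ -(9 / 10) * ‖x‖ → ‖x‖ ≤ 4 * ‖P x‖ ∧ ‖x‖ ≤ 4 * ‖x - P x‖ := by
  obtain ⟨e₁, e₂, e₃, n1, n2, n3, h12, h13, h23⟩ := LJoinA_frame h3
  have h11 : ⟪e₁, e₁⟫ = 1 := by rw [real_inner_self_eq_norm_sq, n1, one_pow]
  have h22 : ⟪e₂, e₂⟫ = 1 := by rw [real_inner_self_eq_norm_sq, n2, one_pow]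
  have h33 : ⟪e₃, e₃⟫ = 1 := by rw [real_inner_self_eq_norm_sq, n3, one_pow]
  have h21 : ⟪e₂, e₁⟫ = 0 := by rw [real_inner_comm, h12]
  have h31 : ⟪e₃, e₁⟫ = 0 := by rw [real_inner_comm, h13]
  have h32 : ⟪e₃, e₂⟫ = 0 := by rw [real_inner_comm, h23]
  obtain ⟨P, hP⟩ : ∃ P : F →L[ℝ] F, ∀ x, P x = ⟪e₁, x⟫ • e₁ + ⟪e₂, x⟫ • e₂ :=
    ⟨(innerSL ℝ e₁).smulRight e₁ + (innerSL ℝ e₂).smulRight e₂, fun _ => rfl⟩
  obtain ⟨J, hJ⟩ : ∃ J : F →L[ℝ] F, ∀ x, J x = ⟪e₁, x⟫ • e₂ - ⟪e₂, x⟫ • e₁ :=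
    ⟨(innerSL ℝ e₁).smulRight e₂ - (innerSL ℝ e₂).smulRight e₁, fun _ => rfl⟩
  refine ⟨P, J, (20 / 29 : ℝ) • e₁ + (21 / 29 : ℝ) • e₃, ⟨fun x => ?_, fun x y => ?_⟩, fun x => ?_,
    fun x => ?_, fun x => ?_, ?_, fun x hx => ?_⟩
  · rw [hP, hP x]
    simp only [inner_add_right, real_inner_smul_right, h11, h12, h21, h22]
    module
  · rw [hP, hP]
    simp only [inner_add_right, inner_add_left, real_inner_smul_right, real_inner_smul_left,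
      real_inner_comm x]
    ring
  · rw [hP, hJ]
    simp only [inner_sub_right, real_inner_smul_right, h11, h12, h21, h22]
    module
  · rw [hJ]
    simp only [inner_sub_left, real_inner_smul_left]
    ring
  · rw [norm_eq_sqrt_real_inner, norm_eq_sqrt_real_inner, hP, hJ]
    simp only [inner_sub_right, inner_sub_left, inner_add_right, inner_add_left,
      real_inner_smul_right, real_inner_smul_left, h11, h12, h21, h22]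
    exact congrArg _ (by ring)
  · rw [norm_eq_sqrt_real_inner]
    simp only [inner_add_right, inner_add_left, real_inner_smul_right, real_inner_smul_left, h11,
      h13, h31, h33]
    norm_num
  · simp only [inner_add_left, real_inner_smul_left] at hx
    have a1 := abs_real_inner_le_norm e₁ x
    have a3 := abs_real_inner_le_norm e₃ x
    have b1 := abs_real_inner_le_norm e₁ (P x)
    have b3 := abs_real_inner_le_norm e₃ (x - P x)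
    have c1 : ⟪e₁, P x⟫ = ⟪e₁, x⟫ := by
      rw [hP]; simp only [inner_add_right, real_inner_smul_right, h11, h12]; ring
    have c3 : ⟪e₃, x - P x⟫ = ⟪e₃, x⟫ := by
      rw [hP]; simp only [inner_sub_right, inner_add_right, real_inner_smul_right, h31, h32]; ring
    rw [n1, one_mul] at a1 b1
    rw [n3, one_mul] at a3 b3
    rw [c1] at b1
    rw [c3] at b3
    have := norm_nonneg x
    constructor <;> linarith [neg_abs_le ⟪e₁, x⟫, neg_abs_le ⟪e₃, x⟫]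

/-- The boost. -/
def LJoinA_B (n : F) (c s : ℝ) (x : F) : F := x + ((c - 1) * ⟪n, x⟫ + s * ‖x‖) • n

omit [FiniteDimensional ℝ F] in
theorem LJoinA_inner {n : F} (hn : ‖n‖ = 1) (c s : ℝ) (x : F) :
    ⟪n, LJoinA_B n c s x⟫ = c * ⟪n, x⟫ + s * ‖x‖ := by
  rw [LJoinA_B, inner_add_right, real_inner_smul_right, real_inner_self_eq_norm_sq, hn]
  ring

omit [FiniteDimensional ℝ F] in
theorem LJoinA_norm {n : F} (hn : ‖n‖ = 1) {c s : ℝ} (hc : 0 < c) (h : c ^ 2 - s ^ 2 = 1) (x : F) :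
    ‖LJoinA_B n c s x‖ = c * ‖x‖ + s * ⟪n, x⟫ := by
  have h1 : |⟪n, x⟫| ≤ ‖x‖ := by simpa [hn] using abs_real_inner_le_norm n x
  have h2 : |s| ≤ c := abs_le_of_sq_le_sq (by linarith) hc.le
  have h3 : |s * ⟪n, x⟫| ≤ c * ‖x‖ := by
    rw [abs_mul]; exact mul_le_mul h2 h1 (abs_nonneg _) hc.le
  refine (sq_eq_sq₀ (norm_nonneg _) (by linarith [neg_abs_le (s * ⟪n, x⟫)])).1 ?_
  rw [LJoinA_B, norm_add_sq_real, real_inner_smul_right, norm_smul, hn, mul_one, Real.norm_eq_abs,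
    sq_abs, real_inner_comm n x]
  linear_combination (⟪n, x⟫ ^ 2 - ‖x‖ ^ 2) * h

omit [FiniteDimensional ℝ F] in
theorem LJoinA_inv {n : F} (hn : ‖n‖ = 1) {c s : ℝ} (hc : 0 < c) (h : c ^ 2 - s ^ 2 = 1) (x : F) :
    LJoinA_B n c (-s) (LJoinA_B n c s x) = x := by
  rw [LJoinA_B, LJoinA_inner hn, LJoinA_norm hn hc h, LJoinA_B, add_assoc, ← add_smul,
    add_eq_left]
  exact smul_eq_zero_of_left (by linear_combination ⟪n, x⟫ * h) n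

omit [FiniteDimensional ℝ F] in
theorem LJoinA_sm (n : F) (c s : ℝ) : Sm (LJoinA_B n c s) := fun _ hx =>
  contDiffAt_id.add (((contDiffAt_const.mul (innerSL ℝ n).contDiff.contDiffAt).add
    (contDiffAt_const.mul (contDiffAt_norm ℝ hx))).smul contDiffAt_const)

omit [FiniteDimensional ℝ F] in
theorem LJoinA_h1 (n : F) (c s : ℝ) : H1 (LJoinA_B n c s) := fun ρ hρ x _ => by
  rw [LJoinA_B, LJoinA_B, real_inner_smul_right, norm_smul, Real.norm_of_nonneg hρ.le]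
  module

omit [FiniteDimensional ℝ F] in
theorem LJoinA_ne {n : F} (hn : ‖n‖ = 1) {c s : ℝ} (hc : 0 < c) (h : c ^ 2 - s ^ 2 = 1) (x : F)
    (hx : x ≠ 0) : LJoinA_B n c s x ≠ 0 := fun e => by
  have h1 := LJoinA_inv hn hc h x
  rw [e] at h1
  exact hx (by simpa [LJoinA_B] using h1.symm)

omit [FiniteDimensional ℝ F] in
/-- Sketch: `c = (E + 1/E) / 2`, `s = (E - 1/E) / 2`, `c ^ 2 - s ^ 2 = 1`, `E ≥ 1`,
`E ^ 2 ≥ 38 / δ`; `h x = x + ((c - 1) ⟪n₀, x⟫ + s ‖x‖) n₀`, `k` the same with `-s`.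
`⟪n₀, h x⟫ = c ⟪n₀, x⟫ + s ‖x‖`, `‖h x‖ = c ‖x‖ + s ⟪n₀, x⟫ > 0`. -/
theorem boost_exists {n₀ : F} (hn : ‖n₀‖ = 1) {δ : ℝ} (hδ : 0 < δ) : ∃ h k : F → F, HDiff h k ∧
    ∀ x, x ≠ 0 → ⟪n₀, x⟫ ≤ (1 - δ) * ‖x‖ → ⟪n₀, k x⟫ ≤ -(9 / 10) * ‖k x‖ := by
  obtain ⟨E, h1, h2⟩ : ∃ E : ℝ, 1 ≤ E ∧ 38 ≤ δ * E := by
    refine ⟨38 / δ + 1, le_add_of_nonneg_left (by positivity), ?_⟩
    rw [mul_add, mul_div_cancel₀ _ hδ.ne']
    linarith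
  have h0 : 0 < E := one_pos.trans_le h1
  have hi : 0 < E⁻¹ := inv_pos.2 h0
  have hi1 : E⁻¹ ≤ 1 := inv_le_one_of_one_le₀ h1
  have hc : 0 < (E + E⁻¹) / 2 := by positivity
  have h : ((E + E⁻¹) / 2) ^ 2 - ((E - E⁻¹) / 2) ^ 2 = 1 := by
    linear_combination mul_inv_cancel₀ h0.ne'
  have h' : ((E + E⁻¹) / 2) ^ 2 - (-((E - E⁻¹) / 2)) ^ 2 = 1 := by rwa [neg_sq]
  refine ⟨_, _, ⟨LJoinA_sm _ _ _, LJoinA_sm _ _ _, LJoinA_h1 _ _ _, LJoinA_h1 _ _ _,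
    LJoinA_ne hn hc h, LJoinA_ne hn hc h', fun x _ => LJoinA_inv hn hc h x, fun x _ => ?_⟩,
    fun x _ hx => ?_⟩
  · simpa only [neg_neg] using LJoinA_inv hn hc h' x
  · rw [LJoinA_inner hn, LJoinA_norm hn hc h']
    have h3 := mul_le_mul_of_nonneg_left hx (show 0 ≤ E / 20 + 19 / 20 * E⁻¹ by positivity)
    have h4 : 19 / 10 * E⁻¹ ≤ δ * (E / 20 + 19 / 20 * E⁻¹) := by
      have := mul_pos hδ hi
      linarith
    have h5 := mul_le_mul_of_nonneg_right h4 (norm_nonneg x)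
    linarith

end Pool.Agent.Lib.MP_ccffa6_gt.ELI
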