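import Pool.Agent.Lib.MP_ccffa6_gt.ELI.LHom

/-!
The two radii of the join.
-/

open Set Filter Topology
open scoped ContDiff RealInnerProductSpace

noncomputable section

namespace Pool.Agent.Lib.MP_ccffa6_gt.ELI

variable {F : Type} [NormedAddCommGroup F] [InnerProductSpace ℝ F]

theorem LJoinB_m {ε : ℝ} (hε : 0 < ε) : ∃ m : ℝ → ℝ, ContDiff ℝ ∞ m ∧ (∀ T, 0 < m T) ∧
    (∀ T, ε ≤ T → m T = T) ∧ ∀ T, T ≤ ε → m T ≤ ε := by
  have h2 : 0 < ε / 2 := by positivity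
  refine ⟨fun T => Real.smoothTransition ((T - ε / 2) / (ε / 2)) * T +
    (1 - Real.smoothTransition ((T - ε / 2) / (ε / 2))) * (ε / 2), ?_, ?_, ?_, ?_⟩
  · have hS : ContDiff ℝ ∞ fun T : ℝ => Real.smoothTransition ((T - ε / 2) / (ε / 2)) :=
      Real.smoothTransition.contDiff.comp ((contDiff_id.sub contDiff_const).div_const _)
    exact (hS.mul contDiff_id).add ((contDiff_const.sub hS).mul contDiff_const)
  · intro T
    have h0 := Real.smoothTransition.nonneg ((T - ε / 2) / (ε / 2))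
    have h1 := Real.smoothTransition.le_one ((T - ε / 2) / (ε / 2))
    rcases le_total T (ε / 2) with h | h
    · have : Real.smoothTransition ((T - ε / 2) / (ε / 2)) = 0 :=
        Real.smoothTransition.zero_of_nonpos (div_nonpos_of_nonpos_of_nonneg (by linarith) h2.le)
      simp only [this]
      linarith
    · show 0 < _ * T + (1 - _) * (ε / 2)
      nlinarith [mul_nonneg h0 (sub_nonneg.2 h)]
  · intro T hT
    have : Real.smoothTransition ((T - ε / 2) / (ε / 2)) = 1 :=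
      Real.smoothTransition.one_of_one_le (by rw [le_div_iff₀ h2]; linarith)
    simp only [this]
    ring
  · intro T hT
    have h0 := Real.smoothTransition.nonneg ((T - ε / 2) / (ε / 2))
    have h1 := Real.smoothTransition.le_one ((T - ε / 2) / (ε / 2))
    show _ * T + (1 - _) * (ε / 2) ≤ ε
    nlinarith [mul_nonneg h0 (sub_nonneg.2 hT), mul_nonneg (sub_nonneg.2 h1) h2.le]

theorem LJoinB_rad (A : F →L[ℝ] F) {m : ℝ → ℝ} (hm : ContDiff ℝ ∞ m) (hp : ∀ T, 0 < m T) :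
    Sm (fun y : F => √(‖y‖ ^ 2 * m (‖A y‖ ^ 2 / ‖y‖ ^ 2))) ∧
    H1 (fun y : F => √(‖y‖ ^ 2 * m (‖A y‖ ^ 2 / ‖y‖ ^ 2))) ∧
    ∀ x v : F, x ≠ 0 → ⟪x, v⟫ = 0 → ⟪A x, A v⟫ = 0 →
      fderiv ℝ (fun y : F => √(‖y‖ ^ 2 * m (‖A y‖ ^ 2 / ‖y‖ ^ 2))) x v = 0 := by
  have hg : ∀ z : ℝ × ℝ, 0 < z.1 →
      ContDiffAt ℝ ∞ (fun z : ℝ × ℝ => √(z.1 * m (z.2 / z.1))) z := by
    intro z hz
    refine ContDiffAt.sqrt ?_ (mul_pos hz (hp _)).ne'
    exact contDiffAt_fst.mul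
      (hm.contDiffAt.comp z (contDiffAt_snd.div contDiffAt_fst hz.ne'))
  have hn : ContDiff ℝ ∞ fun y : F => ‖y‖ ^ 2 := contDiff_norm_sq ℝ
  have hA : ContDiff ℝ ∞ fun y : F => ‖A y‖ ^ 2 := (contDiff_norm_sq ℝ).comp A.contDiff
  refine ⟨?_, ?_, ?_⟩
  · intro x hx
    have h0 : 0 < ‖x‖ ^ 2 := by positivity
    have d := ContDiffAt.comp (f := fun y : F => (‖y‖ ^ 2, ‖A y‖ ^ 2)) x
      (hg (‖x‖ ^ 2, ‖A x‖ ^ 2) h0) (hn.prodMk hA).contDiffAt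
    exact d
  · intro r hr x hx
    have h0 : 0 < ‖x‖ ^ 2 := by positivity
    have e1 : ‖r • x‖ ^ 2 = r ^ 2 * ‖x‖ ^ 2 := by
      rw [norm_smul, Real.norm_eq_abs, mul_pow, sq_abs]
    have e2 : ‖A (r • x)‖ ^ 2 = r ^ 2 * ‖A x‖ ^ 2 := by
      rw [map_smul, norm_smul, Real.norm_eq_abs, mul_pow, sq_abs]
    have hr2 : r ^ 2 ≠ 0 := by positivity
    show √(‖r • x‖ ^ 2 * m (‖A (r • x)‖ ^ 2 / ‖r • x‖ ^ 2)) =
      r * √(‖x‖ ^ 2 * m (‖A x‖ ^ 2 / ‖x‖ ^ 2))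
    rw [e1, e2, mul_div_mul_left _ _ hr2, mul_assoc, Real.sqrt_mul (sq_nonneg r),
      Real.sqrt_sq hr.le]
  · intro x v hx h1 h2
    have h0 : 0 < ‖x‖ ^ 2 := by positivity
    have d1 : HasFDerivAt (fun y : F => ‖y‖ ^ 2) (2 • innerSL ℝ x) x :=
      (hasStrictFDerivAt_norm_sq x).hasFDerivAt
    have d2 : HasFDerivAt (fun y : F => ‖A y‖ ^ 2) ((2 • innerSL ℝ (A x)).comp A) x :=
      (hasStrictFDerivAt_norm_sq (A x)).hasFDerivAt.comp x A.hasFDerivAt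
    have d3 := ((hg (‖x‖ ^ 2, ‖A x‖ ^ 2) h0).differentiableAt (by simp)).hasFDerivAt.comp x
      (d1.prodMk d2)
    have e : fderiv ℝ (fun y : F => √(‖y‖ ^ 2 * m (‖A y‖ ^ 2 / ‖y‖ ^ 2))) x = _ := d3.fderiv
    rw [e]
    have z : ((2 • innerSL ℝ x).prod ((2 • innerSL ℝ (A x)).comp A)) v = 0 := by
      ext
      · simp [h1]
      · simp [h2]
    rw [ContinuousLinearMap.comp_apply, z, map_zero]

theorem LJoinB_key {m : ℝ → ℝ} (hp : ∀ T, 0 < m T)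
    (h1 : ∀ T, 1 / (1 + Real.exp 28) ≤ T → m T = T)
    (h2 : ∀ T, T ≤ 1 / (1 + Real.exp 28) → m T ≤ 1 / (1 + Real.exp 28)) {a b n : ℝ}
    (hn : 0 < n) (e : a + b = n)
    (h : Real.log √(n * m (b / n)) - Real.log √(n * m (a / n)) < 13) :
    1 / (1 + Real.exp 28) ≤ a / n := by
  by_contra hc
  have hc' : a / n < 1 / (1 + Real.exp 28) := not_le.1 hc
  have hE : 0 < Real.exp 28 := Real.exp_pos _
  have hE1 : 1 ≤ Real.exp 28 := Real.one_le_exp (by norm_num)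
  have hε : 1 / (1 + Real.exp 28) ≤ 1 / 2 :=
    one_div_le_one_div_of_le (by norm_num) (by linarith)
  have hs : a / n + b / n = 1 := by rw [← add_div, e, div_self hn.ne']
  have hb : 1 / 2 ≤ b / n := by linarith
  have m2 : m (b / n) = b / n := h1 _ (hε.trans hb)
  have m1 : m (a / n) ≤ 1 / (1 + Real.exp 28) := h2 _ hc'.le
  have p1 := hp (a / n)
  have p2 := hp (b / n)
  rw [Real.log_sqrt (mul_pos hn p2).le, Real.log_sqrt (mul_pos hn p1).le,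
    Real.log_mul hn.ne' p2.ne', Real.log_mul hn.ne' p1.ne'] at h
  have k : Real.exp 26 * m (a / n) ≤ m (b / n) := by
    rw [m2]
    refine le_trans ?_ hb
    have t : Real.exp 28 = Real.exp 26 * Real.exp 2 := by rw [← Real.exp_add]; norm_num
    have t2 : 2 + 1 ≤ Real.exp 2 := Real.add_one_le_exp 2
    have hE2 : 0 < Real.exp 26 := Real.exp_pos _
    have t3 : Real.exp 26 * (1 / (1 + Real.exp 28)) ≤ 1 / 2 := by
      rw [mul_one_div, div_le_div_iff₀ (by linarith) (by norm_num), t]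
      nlinarith
    exact (mul_le_mul_of_nonneg_left m1 hE2.le).trans t3
  have k2 := Real.log_le_log (mul_pos (Real.exp_pos _) p1) k
  rw [Real.log_mul (Real.exp_pos _).ne' p1.ne', Real.log_exp] at k2
  linarith

theorem LJoinB_mid {s t n : ℝ} (hs : 0 < s) (ht : 0 < t) (e : s ^ 2 + t ^ 2 = n)
    (h : Real.log t - Real.log s ≤ 14) : 1 / (1 + Real.exp 28) ≤ s ^ 2 / n := by
  have hE : 0 < Real.exp 14 := Real.exp_pos _
  have k : t ≤ Real.exp 14 * s := by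
    have : Real.log t ≤ Real.log (Real.exp 14 * s) := by
      rw [Real.log_mul hE.ne' hs.ne', Real.log_exp]
      linarith
    exact (Real.log_le_log_iff ht (mul_pos hE hs)).1 this
  have t1 : Real.exp 28 = Real.exp 14 * Real.exp 14 := by rw [← Real.exp_add]; norm_num
  have k2 : t ^ 2 ≤ (Real.exp 14 * s) ^ 2 := pow_le_pow_left₀ ht.le k 2
  rw [div_le_div_iff₀ (by positivity) (by rw [← e]; positivity), t1, ← e]
  nlinarith

theorem LJoinB_val {m : ℝ → ℝ} {ε s n : ℝ} (h1 : ∀ T, ε ≤ T → m T = T) (hs : 0 ≤ s)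
    (hn : 0 < n) (h : ε ≤ s ^ 2 / n) : √(n * m (s ^ 2 / n)) = s := by
  rw [h1 _ h, mul_div_cancel₀ _ hn.ne', Real.sqrt_sq hs]

/-- Sketch: `ε = 1 / (1 + exp 28)`, `m` smooth and positive on `ℝ`, `m T = T` for `T ≥ ε`,
`m T ≤ ε` for `T ≤ ε` (`m T = S T + (1 - S) ε / 2`, `S = smoothTransition ((T - ε/2) / (ε/2))`),
`q₁ = ‖P x‖ ^ 2 / ‖x‖ ^ 2`, `q₂ = ‖x - P x‖ ^ 2 / ‖x‖ ^ 2`, `q₁ + q₂ = 1`,
`ρ i x = ‖x‖ * √(m (q i))`. If `q₁ < ε` then `q₂ ≥ 1/2` and `ρ₂ ^ 2 / ρ₁ ^ 2 ≥ 1 / (2 ε) ≥ exp 26`.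
The three functions `‖x‖ ^ 2`, `‖P x‖ ^ 2`, `‖x - P x‖ ^ 2` have derivative zero along `J x`. -/
theorem join_fun {P J : F →L[ℝ] F} (hP : IsOP P) (hJ : ∀ x, P (J x) = J x)
    (hJ' : ∀ x, ⟪J x, x⟫ = 0) : ∃ ρ₁ ρ₂ : F → ℝ, Sm ρ₁ ∧ Sm ρ₂ ∧ H1 ρ₁ ∧ H1 ρ₂ ∧
      ∀ x, x ≠ 0 → 0 < ρ₁ x ∧ 0 < ρ₂ x ∧
        (Real.log (ρ₂ x) - Real.log (ρ₁ x) < 13 → ρ₁ x = ‖P x‖) ∧
        (-13 < Real.log (ρ₂ x) - Real.log (ρ₁ x) → ρ₂ x = ‖x - P x‖) ∧
        (P x ≠ 0 → x - P x ≠ 0 → |Real.log ‖x - P x‖ - Real.log ‖P x‖| ≤ 14 →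
          ρ₁ x = ‖P x‖ ∧ ρ₂ x = ‖x - P x‖) ∧
        fderiv ℝ ρ₁ x (J x) = 0 ∧ fderiv ℝ ρ₂ x (J x) = 0 := by
  obtain ⟨m, hm, hp, h1, h2⟩ := LJoinB_m (ε := 1 / (1 + Real.exp 28)) (by positivity)
  obtain ⟨a1, a2, a3⟩ := LJoinB_rad P hm hp
  obtain ⟨b1, b2, b3⟩ := LJoinB_rad (1 - P) hm hp
  have eQ : ∀ y, (1 - P) y = y - P y := fun y => rfl
  simp only [eQ] at b1 b2 b3
  refine ⟨_, _, a1, b1, a2, b2, ?_⟩
  intro x hx
  have hn : 0 < ‖x‖ ^ 2 := by positivity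
  have orth : ⟪P x, x - P x⟫ = 0 := by
    rw [hP.symm, map_sub, hP.idem, sub_self, inner_zero_right]
  have e : ‖P x‖ ^ 2 + ‖x - P x‖ ^ 2 = ‖x‖ ^ 2 := by
    have := norm_add_sq_real (P x) (x - P x)
    rw [orth, add_sub_cancel] at this
    linarith
  have e' : ‖x - P x‖ ^ 2 + ‖P x‖ ^ 2 = ‖x‖ ^ 2 := by linarith
  have j0 : ⟪x, J x⟫ = 0 := by rw [real_inner_comm]; exact hJ' x
  refine ⟨Real.sqrt_pos.2 (mul_pos hn (hp _)), Real.sqrt_pos.2 (mul_pos hn (hp _)),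
    fun h => ?_, fun h => ?_, fun p1 p2 h => ⟨?_, ?_⟩, ?_, ?_⟩
  · exact LJoinB_val h1 (norm_nonneg _) hn (LJoinB_key hp h1 h2 hn e h)
  · exact LJoinB_val h1 (norm_nonneg _) hn (LJoinB_key hp h1 h2 hn e' (by linarith))
  · exact LJoinB_val h1 (norm_nonneg _) hn
      (LJoinB_mid (norm_pos_iff.2 p1) (norm_pos_iff.2 p2) e (le_of_abs_le h))
  · exact LJoinB_val h1 (norm_nonneg _) hn
      (LJoinB_mid (norm_pos_iff.2 p2) (norm_pos_iff.2 p1) e' (by linarith [(abs_le.1 h).1]))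
  · refine a3 x (J x) hx j0 ?_
    rw [hP.symm, hP.idem, hJ, j0]
  · refine b3 x (J x) hx j0 ?_
    rw [hJ, sub_self, inner_zero_right]

end Pool.Agent.Lib.MP_ccffa6_gt.ELI
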