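import Pool.Agent.Lib.MP_ccffa6_gt.ELI.LJoinB

/-!
Band data on the join.
-/

open Set Filter Topology
open scoped ContDiff RealInnerProductSpace

noncomputable section

namespace Pool.Agent.Lib.MP_ccffa6_gt.ELI

variable {F : Type} [NormedAddCommGroup F] [InnerProductSpace ℝ F]

theorem LJoinC_dinv {ρ : F → ℝ} (A : F →L[ℝ] F) {x : F} (hd : DifferentiableAt ℝ ρ x)
    (h0 : ρ x ≠ 0) : ∃ D : F →L[ℝ] F, HasFDerivAt (fun x => (ρ x)⁻¹ • A x) D x ∧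
      ∀ v, D v = (ρ x)⁻¹ • A v - ((ρ x)⁻¹ * ((ρ x)⁻¹ * fderiv ℝ ρ x v)) • A x := by
  have h1 : HasFDerivAt (fun x => (ρ x)⁻¹) (-(ρ x ^ 2)⁻¹ • fderiv ℝ ρ x) x :=
    (hasDerivAt_inv h0).comp_hasFDerivAt x hd.hasFDerivAt
  refine ⟨_, h1.fun_smul A.hasFDerivAt, fun v => ?_⟩
  simp only [add_apply, smul_apply,
    ContinuousLinearMap.smulRight_apply, smul_eq_mul]
  rw [sub_eq_add_neg, ← neg_smul]
  congr 2
  field_simp

theorem LJoinC_orth {P : F →L[ℝ] F} (hP : IsOP P) (x : F) :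
    ‖P x‖ ≤ ‖x‖ ∧ ‖x - P x‖ ≤ ‖x‖ := by
  have h0 : ⟪P x, x - P x⟫ = 0 := by
    rw [hP.symm, map_sub, hP.idem, sub_self, inner_zero_right]
  have h1 := norm_add_sq_real (P x) (x - P x)
  rw [h0, add_sub_cancel] at h1
  constructor
  · exact abs_le_of_sq_le_sq' (by nlinarith [sq_nonneg ‖x - P x‖]) (norm_nonneg _) |>.2
  · exact abs_le_of_sq_le_sq' (by nlinarith [sq_nonneg ‖P x‖]) (norm_nonneg _) |>.2

theorem LJoinC_log {a b : ℝ} (ha : 0 < a) (hb : 0 < b) (h : a ≤ 4 * b) :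
    Real.log a - Real.log b ≤ 2 := by
  have h1 := Real.log_le_log ha h
  have h2 : Real.log 2 ≤ 2 - 1 := Real.log_le_sub_one_of_pos two_pos
  have h3 : Real.log (4 * b) = Real.log 2 + Real.log 2 + Real.log b := by
    rw [← Real.log_mul two_ne_zero two_ne_zero, ← Real.log_mul (by norm_num) hb.ne']
    norm_num
  linarith

theorem LJoinC_unit {φ : F → ℝ} {x p q : F} (hx : p + q = x) (hd : DifferentiableAt ℝ φ x)
    (h : ∀ t : ℝ, |t| ≤ 1 → φ (p + Real.exp t • q) = φ x + t) : fderiv ℝ φ x q = 1 := by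
  have h1 : HasDerivAt (fun t : ℝ => p + Real.exp t • q) (Real.exp 0 • q) 0 :=
    ((Real.hasDerivAt_exp 0).smul_const q).const_add p
  have h2 : HasFDerivAt φ (fderiv ℝ φ x) (p + Real.exp 0 • q) := by
    rw [Real.exp_zero, one_smul, hx]
    exact hd.hasFDerivAt
  have h3 := h2.comp_hasDerivAt (0 : ℝ) h1
  rw [Real.exp_zero, one_smul] at h3
  have h4 : HasDerivAt (fun t : ℝ => φ x + t) 1 0 := (hasDerivAt_id (0 : ℝ)).const_add _
  refine h3.unique (h4.congr_of_eventuallyEq ?_)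
  filter_upwards [Icc_mem_nhds (show (-1 : ℝ) < 0 by norm_num) one_pos] with t ht
  exact h t (abs_le.2 ht)

/-- Sketch: `φ = log ρ₂ - log ρ₁`, `κ t x = P x + exp t • (x - P x)`, `S = smoothTransition`,
`α = S (φ + 12)`, `u x = α • (x - P x) + (1 - α) • J x`,
`lam x = dφ + (1 - S (φ + 11)) • (ρ₁ ^ 2)⁻¹ • innerSL (J x)`,
`Ψ x = ρ₁⁻¹ • P x + ρ₂⁻¹ • (x - P x)`, `Ec x = ρ₁ • P + ρ₂ • (1 - P)`. For `|φ x| < 13` and
`|φ x + t| ≤ 14`: `ρ₁ (κ t x) = ρ₁ x`, `ρ₂ (κ t x) = exp t * ρ₂ x`, hence `dφ (x - P x) = 1`.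
`span` holds with `c = dρ₁ v / ρ₁`. -/
theorem join_pre {P J : F →L[ℝ] F} (hP : IsOP P) (hJ : ∀ x, P (J x) = J x)
    (hJ' : ∀ x, ⟪J x, x⟫ = 0) (hJ'' : ∀ x, ‖J x‖ = ‖P x‖) :
    ∃ (φ : F → ℝ) (κ : ℝ → F → F) (u : F → F) (lam : Form1 F) (Ψ : F → F) (Ec : F → F →L[ℝ] F),
      Pre 10 φ κ u lam Ψ Ec ∧
        ∀ x, x ≠ 0 → ‖x‖ ≤ 4 * ‖P x‖ → ‖x‖ ≤ 4 * ‖x - P x‖ → |φ x| ≤ 2 := by
  obtain ⟨ρ₁, ρ₂, s₁, s₂, g₁, g₂, H⟩ := join_fun hP hJ hJ'
  obtain ⟨Q, hQ⟩ : ∃ Q : F →L[ℝ] F, ∀ x, x - P x = Q x := ⟨1 - P, fun x => rfl⟩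
  obtain ⟨φ, hφ⟩ : ∃ φ : F → ℝ, ∀ x, Real.log (ρ₂ x) - Real.log (ρ₁ x) = φ x := ⟨_, fun _ => rfl⟩
  have hφ' : φ = fun x => Real.log (ρ₂ x) - Real.log (ρ₁ x) := funext fun x => (hφ x).symm
  have hO := LJoinC_orth hP
  simp only [hQ, hφ] at H hO ⊢
  have PQ : ∀ x, P (Q x) = 0 := fun x => by rw [← hQ, map_sub, hP.idem, sub_self]
  have QP : ∀ x, Q (P x) = 0 := fun x => by rw [← hQ, hP.idem, sub_self]
  have QQ : ∀ x, Q (Q x) = Q x := fun x => by rw [← hQ (Q x), PQ, sub_zero]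
  have PpQ : ∀ x, P x + Q x = x := fun x => by rw [← hQ, add_sub_cancel]
  have p₁ : ∀ x, x ≠ 0 → 0 < ρ₁ x := fun x hx => (H x hx).1
  have p₂ : ∀ x, x ≠ 0 → 0 < ρ₂ x := fun x hx => (H x hx).2.1
  obtain ⟨κ, hκ⟩ : ∃ κ : ℝ → F → F, ∀ t x, κ t x = P x + Real.exp t • Q x := ⟨_, fun _ _ => rfl⟩
  have Pκ : ∀ t x, P (κ t x) = P x := fun t x => by
    rw [hκ, map_add, map_smul, hP.idem, PQ, smul_zero, add_zero]
  have Qκ : ∀ t x, Q (κ t x) = Real.exp t • Q x := fun t x => by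
    rw [hκ, map_add, map_smul, QP, QQ, zero_add]
  have κne : ∀ t x, x ≠ 0 → κ t x ≠ 0 := fun t x hx h0 => by
    have e1 := Pκ t x
    have e2 := Qκ t x
    rw [h0, map_zero] at e1 e2
    have e3 : Q x = 0 := (smul_eq_zero.1 e2.symm).resolve_left (Real.exp_pos t).ne'
    exact hx (by rw [← PpQ x, ← e1, e3, add_zero])
  have sφ : Sm φ := fun x hx => by
    rw [hφ']
    exact ((s₂ x hx).log (p₂ x hx).ne').sub ((s₁ x hx).log (p₁ x hx).ne')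
  have h0φ : H0 φ := fun r hr x hx => by
    rw [← hφ, ← hφ, g₁ r hr x hx, g₂ r hr x hx, smul_eq_mul, smul_eq_mul,
      Real.log_mul hr.ne' (p₁ x hx).ne', Real.log_mul hr.ne' (p₂ x hx).ne']
    ring
  have dφ : ∀ x, x ≠ 0 → ∀ v, fderiv ℝ φ x v =
      (ρ₂ x)⁻¹ * fderiv ℝ ρ₂ x v - (ρ₁ x)⁻¹ * fderiv ℝ ρ₁ x v := fun x hx v => by
    have := (((s₂.diff hx).hasFDerivAt.log (p₂ x hx).ne').fun_sub
      ((s₁.diff hx).hasFDerivAt.log (p₁ x hx).ne')).fderiv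
    rw [hφ', this]
    rfl
  have fl : ∀ t x, x ≠ 0 → |φ x| < 13 → |φ x + t| ≤ 14 →
      ρ₁ (κ t x) = ρ₁ x ∧ ρ₂ (κ t x) = Real.exp t * ρ₂ x ∧ φ (κ t x) = φ x + t := by
    intro t x hx h1 h2
    have e1 : ρ₁ x = ‖P x‖ := (H x hx).2.2.1 (abs_lt.1 h1).2
    have e2 : ρ₂ x = ‖Q x‖ := (H x hx).2.2.2.1 (abs_lt.1 h1).1
    have n1 : P x ≠ 0 := norm_pos_iff.1 (e1 ▸ p₁ x hx)
    have n2 : Q x ≠ 0 := norm_pos_iff.1 (e2 ▸ p₂ x hx)
    have e3 : ‖Q (κ t x)‖ = Real.exp t * ρ₂ x := by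
      rw [Qκ, norm_smul, Real.norm_of_nonneg (Real.exp_pos t).le, e2]
    have e4 : Real.log (Real.exp t * ρ₂ x) - Real.log (ρ₁ x) = φ x + t := by
      rw [Real.log_mul (Real.exp_pos t).ne' (p₂ x hx).ne', Real.log_exp, ← hφ]
      ring
    obtain ⟨f1, f2⟩ := (H _ (κne t x hx)).2.2.2.2.1 (by rwa [Pκ])
      (by rw [Qκ]; exact smul_ne_zero (Real.exp_pos t).ne' n2) (by rwa [e3, Pκ, ← e1, e4])
    rw [Pκ, ← e1] at f1
    rw [e3] at f2
    exact ⟨f1, f2, by rw [← hφ, f1, f2, e4]⟩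
  have un : ∀ x, x ≠ 0 → |φ x| < 13 → fderiv ℝ φ x (Q x) = 1 := fun x hx h1 =>
    LJoinC_unit (PpQ x) (sφ.diff hx) fun t ht => by
      rw [← hκ]
      exact (fl t x hx h1 ((abs_add_le _ _).trans (by linarith))).2.2
  have sS : ∀ c : ℝ, Sm fun x => Real.smoothTransition (φ x + c) := fun c x hx =>
    Real.smoothTransition.contDiff.contDiffAt.comp x ((sφ x hx).add contDiffAt_const)
  obtain ⟨u, hu⟩ : ∃ u : F → F, u = fun x => Real.smoothTransition (φ x + 12) • Q x +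
    (1 - Real.smoothTransition (φ x + 12)) • J x := ⟨_, rfl⟩
  have uQ : ∀ x, -11 ≤ φ x → u x = Q x := fun x h => by
    rw [hu]
    simp only []
    rw [Real.smoothTransition.one_of_one_le (by linarith), one_smul, sub_self, zero_smul, add_zero]
  refine ⟨φ, κ, u, fun x => fderiv ℝ φ x +
      ((1 - Real.smoothTransition (φ x + 11)) * (ρ₁ x ^ 2)⁻¹) • innerSL ℝ (J x),
    fun x => (ρ₁ x)⁻¹ • P x + (ρ₂ x)⁻¹ • Q x, fun x => ρ₁ x • P + ρ₂ x • Q,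
    ⟨⟨sφ, fun t x _ => ?_, fun x hx => ?_, fun x hx => ?_, h0φ, fun t r _ x _ => ?_,
      fun x _ => ?_, κne, fun t x _ => ?_, fun t x hx h1 h2 => ?_, fun x _ h1 => ?_,
      fun x hx h1 => ?_⟩, fun x hx => ?_, fun x hx => ?_, fun r hr x hx => ?_,
      fun t x hx h1 h2 => ?_, fun x hx h1 v => ?_⟩, fun x hx h1 h2 => ?_⟩
  · simp only [hκ]
    exact ((P.contDiff.comp contDiff_snd).add
      ((Real.contDiff_exp.comp contDiff_fst).smul (Q.contDiff.comp contDiff_snd))).contDiffAt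
  · rw [hu]
    exact ((sS 12 x hx).smul Q.contDiff.contDiffAt).add
      ((contDiffAt_const.sub (sS 12 x hx)).smul J.contDiff.contDiffAt)
  · refine (sφ.fderiv x hx).add (ContDiffAt.smul ((contDiffAt_const.sub (sS 11 x hx)).mul
      (((s₁ x hx).pow 2).inv (pow_pos (p₁ x hx) 2).ne')) ?_)
    exact (((innerSL ℝ : F →L[ℝ] F →L[ℝ] ℝ).comp J).contDiff).contDiffAt
  · rw [hκ, hκ, map_smul, map_smul, smul_add, smul_comm r]
  · rw [hκ, Real.exp_zero, one_smul, PpQ]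
  · rw [hκ (-t), Pκ, Qκ, smul_smul, ← Real.exp_add, neg_add_cancel, Real.exp_zero, one_smul, PpQ]
  · have e := (fl t x hx (by linarith) (by linarith)).2.2
    refine ⟨e, ?_⟩
    rw [uQ _ (by rw [e]; linarith [(abs_lt.1 h2).1]), Qκ]
    simp only [hκ]
    exact ((Real.hasDerivAt_exp t).smul_const (Q x)).const_add (P x)
  · rw [Real.smoothTransition.one_of_one_le (by linarith [(abs_lt.1 h1).1]), sub_self, zero_mul,
      zero_smul, add_zero]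
  · have e1 : ρ₁ x = ‖P x‖ := (H x hx).2.2.1 (by linarith)
    have dJ : fderiv ℝ φ x (J x) = 0 := by
      rw [dφ x hx, (H x hx).2.2.2.2.2.1, (H x hx).2.2.2.2.2.2, mul_zero, mul_zero, sub_self]
    have JQ : ⟪J x, Q x⟫ = 0 := by
      rw [← hQ, inner_sub_right, ← hP.symm, hJ, sub_self]
    have JJ : (ρ₁ x ^ 2)⁻¹ * ⟪J x, J x⟫ = 1 := by
      rw [real_inner_self_eq_norm_sq, hJ'', ← e1, inv_mul_cancel₀ (pow_pos (p₁ x hx) 2).ne']
    simp only [add_apply, smul_apply, innerSL_apply_apply,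
      smul_eq_mul]
    refine ⟨?_, by rw [h0φ.euler sφ hx, hJ', mul_zero, add_zero]⟩
    rcases le_total (-11) (φ x) with h2 | h2
    · rw [uQ x h2, JQ, un x hx (abs_lt.2 ⟨by linarith, by linarith⟩), mul_zero, add_zero]
    · rw [hu, Real.smoothTransition.zero_of_nonpos (x := φ x + 11) (by linarith)]
      simp only [map_add, map_smul, inner_add_right, inner_smul_right, dJ, JQ, smul_eq_mul]
      rcases le_total (-12) (φ x) with h3 | h3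
      · rw [un x hx (abs_lt.2 ⟨by linarith, by linarith⟩)]
        linear_combination (1 - Real.smoothTransition (φ x + 12)) * JJ
      · rw [Real.smoothTransition.zero_of_nonpos (x := φ x + 12) (by linarith)]
        linear_combination JJ
  · exact (((s₁ x hx).inv (p₁ x hx).ne').smul P.contDiff.contDiffAt).add
      (((s₂ x hx).inv (p₂ x hx).ne').smul Q.contDiff.contDiffAt)
  · exact ((s₁ x hx).smul contDiffAt_const).add ((s₂ x hx).smul contDiffAt_const)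
  · simp only [g₁ r hr x hx, g₂ r hr x hx, map_smul, smul_smul, smul_eq_mul]
    congr 2 <;> field_simp
  · obtain ⟨e1, e2, -⟩ := fl t x hx (by linarith) (by linarith)
    simp only [e1, e2, Pκ, Qκ, smul_smul]
    congr 2
    field_simp
  · obtain ⟨D₁, d₁, e₁⟩ := LJoinC_dinv P (s₁.diff hx) (p₁ x hx).ne'
    obtain ⟨D₂, d₂, e₂⟩ := LJoinC_dinv Q (s₂.diff hx) (p₂ x hx).ne'
    refine ⟨(ρ₁ x)⁻¹ * fderiv ℝ ρ₁ x v, ?_⟩
    rw [(d₁.fun_add d₂).fderiv, uQ x (by linarith [(abs_lt.1 h1).1]), dφ x hx, add_apply,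
      smul_apply, smul_apply, add_apply, e₁, e₂]
    simp only [map_add, map_sub, map_smul, hP.idem, PQ, QP, QQ, smul_zero, add_zero, sub_zero,
      zero_add, smul_sub, smul_smul, mul_inv_cancel_left₀ (p₁ x hx).ne', mul_inv_cancel_left₀ (p₂ x hx).ne',
      mul_inv_cancel₀ (p₁ x hx).ne', mul_inv_cancel₀ (p₂ x hx).ne', one_smul]
    linear_combination (norm := module) (-1 : ℝ) • PpQ v +
      ((ρ₁ x)⁻¹ * fderiv ℝ ρ₁ x v) • PpQ x
  · have hn : 0 < ‖x‖ := norm_pos_iff.2 hx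
    have n1 : 0 < ‖P x‖ := by linarith
    have n2 : 0 < ‖Q x‖ := by linarith
    have b : |Real.log ‖Q x‖ - Real.log ‖P x‖| ≤ 2 := abs_sub_le_iff.2
      ⟨LJoinC_log n2 n1 ((hO x).2.trans h1), LJoinC_log n1 n2 ((hO x).1.trans h2)⟩
    obtain ⟨e1, e2⟩ := (H x hx).2.2.2.2.1 (norm_pos_iff.1 n1) (norm_pos_iff.1 n2) (by linarith)
    rwa [← hφ, e1, e2]

end Pool.Agent.Lib.MP_ccffa6_gt.ELI
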