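import Pool.Agent.Lib.MP_ccffa6_gt.ELI.LDef

/-!
Discrete transport of frames.
-/

open Set Filter Topology
open scoped ContDiff RealInnerProductSpace

noncomputable section

namespace Pool.Agent.Lib.MP_ccffa6_gt.ELI

/-- The composition of the first `j` rank one steps. -/
def LLift_it {X E : Type} [NormedAddCommGroup E] [NormedSpace ℝ E] (t : ℕ → ℝ → ℝ)
    (V : ℝ → X → E) (l : ℝ → X → E →L[ℝ] ℝ) : ℕ → ℝ → X → E →L[ℝ] E
  | 0, _, _ => ContinuousLinearMap.id ℝ E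
  | j + 1, r, x => (ContinuousLinearMap.id ℝ E +
      (l (t j r) x).smulRight (V (t (j + 1) r) x - V (t j r) x)).comp (LLift_it t V l j r x)

theorem LLift_succ {X E : Type} [NormedAddCommGroup E] [NormedSpace ℝ E] (t : ℕ → ℝ → ℝ)
    (V : ℝ → X → E) (l : ℝ → X → E →L[ℝ] ℝ) (j : ℕ) (r : ℝ) (x : X) (e : E) :
    LLift_it t V l (j + 1) r x e = LLift_it t V l j r x e +
      l (t j r) x (LLift_it t V l j r x e) • (V (t (j + 1) r) x - V (t j r) x) := rfl

/-- Compose `N` rank one steps along an equidistant subdivision. -/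
theorem trp_exists {X E : Type} [NormedAddCommGroup X] [NormedSpace ℝ X] [NormedAddCommGroup E]
    [NormedSpace ℝ E] {U Kc : Set X} (hK : IsCompact Kc) (hU : Kc ⊆ U) {r₀ r₁ : ℝ} (hr : r₀ ≤ r₁)
    {V : ℝ → X → E} {l : ℝ → X → E →L[ℝ] ℝ}
    (hV : ∀ r, ∀ x ∈ U, ContDiffAt ℝ ∞ (fun z : ℝ × X => V z.1 z.2) (r, x))
    (hl : ∀ r, ∀ x ∈ U, ContDiffAt ℝ ∞ (fun z : ℝ × X => l z.1 z.2) (r, x))
    (h1 : ∀ r ∈ Icc r₀ r₁, ∀ x ∈ Kc, l r x (V r x) = 1) :
    ∃ Φ : ℝ → X → E →L[ℝ] E, Trp U Kc r₀ r₁ V l Φ := by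
  have h2 : ∀ᶠ h in 𝓝 (0 : ℝ), ∀ y ∈ Icc r₀ r₁ ×ˢ Kc, 0 < l y.1 y.2 (V (y.1 + h) y.2) := by
    refine (isCompact_Icc.prod hK).eventually_forall_of_forall_eventually fun y hy => ?_
    have c1 : ContinuousAt (fun z : ℝ × ℝ × X => l z.2.1 z.2.2) (0, y) :=
      ContinuousAt.comp (f := fun z : ℝ × ℝ × X => z.2) (g := fun z : ℝ × X => l z.1 z.2)
        (x := (0, y)) (hl y.1 y.2 (hU hy.2)).continuousAt continuousAt_snd
    have c2 : ContinuousAt (fun z : ℝ × ℝ × X => V (z.2.1 + z.1) z.2.2) (0, y) :=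
      ContinuousAt.comp (f := fun z : ℝ × ℝ × X => (z.2.1 + z.1, z.2.2))
        (g := fun z : ℝ × X => V z.1 z.2) (x := (0, y))
        (hV (y.1 + 0) y.2 (hU hy.2)).continuousAt (by fun_prop)
    refine (c1.clm_apply c2).eventually (lt_mem_nhds ?_)
    simp [h1 y.1 hy.1 y.2 hy.2]
  obtain ⟨ε, hε, h3⟩ := Metric.eventually_nhds_iff.1 h2
  obtain ⟨N, hN⟩ := exists_nat_gt ((r₁ - r₀) / ε)
  have N0 : (0 : ℝ) < N := (div_nonneg (sub_nonneg.2 hr) hε.le).trans_lt hN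
  obtain ⟨t, ct, t0, tN, ts, tm⟩ : ∃ t : ℕ → ℝ → ℝ, (∀ j, ContDiff ℝ ∞ (t j)) ∧
      (∀ r, t 0 r = r₁) ∧ (∀ r, t N r = r) ∧ (∀ j r, t (j + 1) r = t j r + (r - r₁) / N) ∧
      ∀ j ≤ N, ∀ r, t j r ∈ uIcc r r₁ := by
    refine ⟨fun j r => r₁ + j / N * (r - r₁), fun j => by fun_prop, fun r => by simp,
      fun r => by simp [N0.ne'], fun j r => by push_cast; ring, fun j hj r => ?_⟩
    rw [uIcc_comm, ← segment_eq_uIcc, segment_eq_image']
    exact ⟨j / N, ⟨by positivity, (div_le_one N0).2 (Nat.cast_le.2 hj)⟩, rfl⟩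
  have tI : ∀ j ≤ N, ∀ r ∈ Icc r₀ r₁, t j r ∈ Icc r₀ r₁ := fun j hj r h =>
    uIcc_subset_Icc h (right_mem_Icc.2 hr) (tm j hj r)
  have ind : ∀ {p : ℕ → Prop}, p 0 → (∀ j, j + 1 ≤ N → p j → p (j + 1)) → p N :=
    fun {p} h0 hs => Nat.le_induction (m := 0) (P := fun j _ => j ≤ N → p j) (fun _ => h0)
      (fun j _ ih hj => hs j hj (ih (Nat.le_of_succ_le hj))) N (Nat.zero_le N) le_rfl
  refine ⟨LLift_it t V l N, fun r x hx => ?_, fun r h x hx => ?_, fun r h x hx => ?_,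
    fun r x e he => ?_, fun r x W hW e => ?_, fun r x h => ?_⟩
  · refine ind (p := fun j => ContDiffAt ℝ ∞ (fun z : ℝ × X => LLift_it t V l j z.1 z.2) (r, x))
      contDiffAt_const fun j _ ih => ?_
    have c : ∀ i, ContDiffAt ℝ ∞ (fun z : ℝ × X => (t i z.1, z.2)) (r, x) := fun i =>
      (((ct i).comp contDiff_fst).prodMk contDiff_snd).contDiffAt
    have cV : ∀ i, ContDiffAt ℝ ∞ (fun z : ℝ × X => V (t i z.1) z.2) (r, x) := fun i =>
      ContDiffAt.comp (f := fun z : ℝ × X => (t i z.1, z.2)) (r, x) (hV (t i r) x hx) (c i)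
    have cl : ContDiffAt ℝ ∞ (fun z : ℝ × X => l (t j z.1) z.2) (r, x) :=
      ContDiffAt.comp (f := fun z : ℝ × X => (t j z.1, z.2)) (r, x) (hl (t j r) x hx) (c j)
    exact (contDiffAt_const.add ((((ContinuousLinearMap.smulRightL ℝ E E).contDiff.contDiffAt.comp
      (r, x) cl).clm_apply ((cV (j + 1)).sub (cV j))))).clm_comp ih
  · refine ind (p := fun j => Function.Injective (LLift_it t V l j r x)) (fun _ _ h => h)
      fun j hj ih => (injective_iff_map_eq_zero _).2 fun e he => ?_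
    have hj' := tI j (Nat.le_of_succ_le hj) r h
    have h4 := h3 (y := (r - r₁) / N) (by
      rw [dist_zero_right, Real.norm_eq_abs, abs_div, abs_of_pos N0, div_lt_iff₀ N0,
        abs_of_nonpos (sub_nonpos.2 h.2)]
      rw [div_lt_iff₀ hε] at hN
      linarith [h.1]) (t j r, x) ⟨hj', hx⟩
    rw [← ts] at h4
    rw [LLift_succ] at he
    have h5 := congrArg (l (t j r) x) he
    rw [map_add, map_smul, map_sub, h1 _ hj' x hx, map_zero, smul_eq_mul] at h5
    have h6 : l (t j r) x (LLift_it t V l j r x e) = 0 :=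
      (mul_eq_zero.1 (by linarith)).resolve_right h4.ne'
    rw [h6, zero_smul, add_zero] at he
    exact ih (he.trans (map_zero _).symm)
  · refine (ind (p := fun j => LLift_it t V l j r x (V r₁ x) = V (t j r) x) (by rw [t0]; rfl)
      fun j hj ih => ?_).trans (by rw [tN])
    rw [LLift_succ, ih, h1 _ (tI j (Nat.le_of_succ_le hj) r h) x hx, one_smul, add_sub_cancel]
  · refine ind (p := fun j => LLift_it t V l j r x e = e) rfl fun j _ ih => ?_
    rw [LLift_succ, ih, he, zero_smul, add_zero]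
  · refine ind (p := fun j => LLift_it t V l j r x e - e ∈ W) (by simp [LLift_it]) fun j _ ih => ?_
    rw [LLift_succ, add_sub_right_comm]
    exact W.add_mem ih (W.smul_mem _ (W.sub_mem (hW _) (hW _)))
  · refine ind (p := fun j => LLift_it t V l j r x = ContinuousLinearMap.id ℝ E) rfl
      fun j hj ih => ContinuousLinearMap.ext fun e => ?_
    rw [LLift_succ, ih, h _ (tm _ hj r), h _ (tm _ (Nat.le_of_succ_le hj) r), sub_self, smul_zero,
      add_zero]

end Pool.Agent.Lib.MP_ccffa6_gt.ELI
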