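import Pool.Agent.Lib.MP_ccffa6_gt.ELI.LHom
import Pool.Agent.Lib.MP_ccffa6_gt.ELI.Bil

/-!
Linear algebra of the frames.
-/

open Set Filter Topology
open scoped ContDiff RealInnerProductSpace

noncomputable section

namespace Pool.Agent.Lib.MP_ccffa6_gt.ELI

variable {F : Type} [NormedAddCommGroup F] [InnerProductSpace ℝ F] [FiniteDimensional ℝ F]
  {Φ : F × F →L[ℝ] F × F} {u : F} {lam : F →L[ℝ] ℝ} {K K' : F →L[ℝ] F}

omit [FiniteDimensional ℝ F] in
theorem LLin_form (h3 : ∀ e, ∃ t : ℝ, (Φ e - e).1 = t • u) (s : F) :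
    ∃ (X α : ℝ) (γ q : F), Φ (u, 0) = (X • u, γ) ∧ Φ (0, s) = (α • u, q) := by
  obtain ⟨a, ha⟩ := h3 (u, 0)
  obtain ⟨b, hb⟩ := h3 (0, s)
  refine ⟨a + 1, b, _, _, Prod.ext ?_ rfl, Prod.ext (by simpa using hb) rfl⟩
  rw [add_smul, one_smul]
  exact eq_add_of_sub_eq ha

theorem LLin_trp (A : F →L[ℝ] F) (p v : F) : ⟪v, trp A p⟫ = ⟪A v, p⟫ := by
  rw [real_inner_comm, inner_trp, real_inner_comm]

/-- The determinant of `Φ` on the quotient plane does not vanish. -/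
theorem lin_delta (hu : lam u = 1) (hi : Function.Injective Φ)
    (h2 : ∀ p, ⟪p, u⟫ = 0 → Φ (0, p) = (0, p)) (h3 : ∀ e, ∃ t : ℝ, (Φ e - e).1 = t • u) :
    om0 F (Φ (u, 0)) (Φ (0, shp lam)) ≠ 0 := by
  obtain ⟨X, α, γ, q, e1, e2⟩ := LLin_form h3 (shp lam)
  have key : ∀ a b : ℝ, a * X + b * α = 0 → a * ⟪γ, u⟫ + b * ⟪q, u⟫ = 0 → a = 0 ∧ b = 0 := by
    intro a b ha hb
    have h4 : ⟪a • γ + b • q, u⟫ = 0 := by rwa [inner_add_left, real_inner_smul_left, real_inner_smul_left]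
    have h5 : a • (u, (0 : F)) + b • ((0 : F), shp lam) = (0, a • γ + b • q) := hi (by
      rw [h2 _ h4, map_add, map_smul, map_smul, e1, e2]
      exact Prod.ext (by simp [smul_smul, ← add_smul, ha]) rfl)
    refine ⟨by simpa [hu] using congrArg (fun z => lam z.1) h5, ?_⟩
    simpa [h4, real_inner_smul_left, inner_shp, hu] using congrArg (fun z => ⟪z.2, u⟫) h5
  rw [e1, e2, om0_apply, real_inner_smul_left, real_inner_smul_right, real_inner_comm]
  intro h
  obtain ⟨a1, a2⟩ := key α (-X) (by ring) (by linarith)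
  obtain ⟨-, a4⟩ := key ⟪q, u⟫ (-⟪γ, u⟫) (by linarith) (by ring)
  exact one_ne_zero (key 1 0 (by linarith) (by linarith)).1

theorem lin_blk (hu : lam u = 1) (h1 : ∀ v, lam v = 0 → Φ (v, 0) = (v, 0))
    (h2 : ∀ p, ⟪p, u⟫ = 0 → Φ (0, p) = (0, p)) (h3 : ∀ e, ∃ t : ℝ, (Φ e - e).1 = t • u)
    (hΔ : 0 < om0 F (Φ (u, 0)) (Φ (0, shp lam))) (hK : ∀ v, K' (K v) = v)
    (hK' : ∀ v, K (K' v) = v) (M : F →L[ℝ] F) :
    LBlk (pbB ((shr M).comp (Φ.comp (K.prodMap (trp K')))) (om0 F)) := by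
  obtain ⟨X, α, γ, q, e1, e2⟩ := LLin_form h3 (shp lam)
  have e0 : ∀ p, ⟪p - ⟪p, u⟫ • shp lam, u⟫ = 0 := fun p => by
    simp [inner_sub_left, real_inner_smul_left, inner_shp, hu]
  have e3 : ∀ p, Φ (0, p) = (⟪p, u⟫ • α • u, p - ⟪p, u⟫ • shp lam + ⟪p, u⟫ • q) := fun p => by
    have : ((0 : F), p) = (0, p - ⟪p, u⟫ • shp lam) + ⟪p, u⟫ • ((0 : F), shp lam) := by simp
    rw [this, map_add, h2 _ (e0 p), map_smul, e2]
    simp
  have e4 : ∀ (a b : ℝ) (x y : F), om0 F (shr M (a • u, x)) (shr M (b • u, y)) =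
      a * ⟪y, u⟫ - b * ⟪x, u⟫ := fun a b x y => by
    simp only [om0_apply, shr_apply, map_smul, inner_add_left, inner_add_right, real_inner_smul_left,
      real_inner_smul_right, real_inner_comm u]
    ring
  have e5 : ∀ p, ⟪p - ⟪p, u⟫ • shp lam + ⟪p, u⟫ • q, u⟫ = ⟪p, u⟫ * ⟪q, u⟫ := fun p => by
    rw [inner_add_left, e0, zero_add, real_inner_smul_left]
  rw [e1, e2, om0_apply, real_inner_smul_left, real_inner_smul_right, real_inner_comm] at hΔ
  refine ⟨fun p p' => ?_, fun t ht p h => ?_⟩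
  · change om0 F (shr M (Φ (K 0, trp K' p))) (shr M (Φ (K 0, trp K' p'))) = 0
    rw [map_zero, e3, e3, smul_smul, smul_smul, e4, e5, e5]
    ring
  replace h : ∀ v, (1 - t) * ⟪trp K' p, v⟫ +
      t * om0 F (shr M (Φ (v, 0))) (shr M (Φ (0, trp K' p))) = 0 := fun v => by
    rw [inner_trp, real_inner_comm]
    simpa [hK'] using h (K' v)
  have a1 : ⟪trp K' p, u⟫ = 0 := by
    have h4 := h u
    rw [e1, e3, smul_smul, e4, e5] at h4
    have h5 : 0 < 1 - t + t * (X * ⟪q, u⟫ - α * ⟪γ, u⟫) := by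
      rcases ht.1.eq_or_lt with rfl | h6
      · simp
      · linarith [mul_pos h6 hΔ, ht.2]
    exact (mul_eq_zero.1 (by linear_combination h4)).resolve_right h5.ne'
  have a2 : ∀ v, lam v = 0 → ⟪trp K' p, v⟫ = 0 := fun v hv => by
    have h4 := h v
    rw [h1 v hv, h2 _ a1, om0_apply] at h4
    simp only [shr_apply, map_zero, add_zero, inner_zero_right, real_inner_comm (trp K' p)] at h4
    linarith
  have a3 := a2 (K p - lam (K p) • u) (by simp [hu])
  rwa [inner_sub_right, real_inner_smul_right, a1, mul_zero, sub_zero, inner_trp, hK,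
    inner_self_eq_zero] at a3

theorem lin_blk_id (hK : ∀ v, K' (K v) = v) (M : F →L[ℝ] F) :
    LBlk (pbB ((shr M).comp (K.prodMap (trp K'))) (om0 F)) := by
  refine ⟨fun p p' => by simp [om0_apply, shr_apply], fun t _ p h => ?_⟩
  have h1 := h p
  simp only [pbB_apply, ContinuousLinearMap.comp_apply, ContinuousLinearMap.coe_prodMap', Prod.map,
    om0_apply, shr_apply, map_zero, add_zero, inner_zero_right, LLin_trp, hK] at h1
  exact inner_self_eq_zero.1 (show ⟪p, p⟫ = 0 by linarith)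

theorem lin_sympl (hK : ∀ v, K' (K v) = v) : pbB (K.prodMap (trp K')) (om0 F) = om0 F := by
  refine ContinuousLinearMap.ext fun a => ContinuousLinearMap.ext fun b => ?_
  simp [om0_apply, LLin_trp, inner_trp, hK]

theorem lin_inj (hK : ∀ v, K' (K v) = v) : Function.Injective (K.prodMap (trp K')) := by
  exact (nd_of_pbB (fun u => nd_om0.1 u trivial) ((lin_sympl hK).symm ▸ nd_om0)).2

omit [FiniteDimensional ℝ F] in
theorem lin_shr (M : F →L[ℝ] F) (t : ℝ) :
    pbB (shr ((1 - t) • M)) (om0 F) = (1 - t) • pbB (shr M) (om0 F) + t • om0 F := by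
  refine ContinuousLinearMap.ext fun a => ContinuousLinearMap.ext fun b => ?_
  simp only [pbB_apply, om0_apply, shr_apply, add_apply, smul_apply, smul_eq_mul, inner_add_left,
    inner_add_right, real_inner_smul_left, real_inner_smul_right]
  ring

end Pool.Agent.Lib.MP_ccffa6_gt.ELI
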