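import Pool.Agent.Lib.MP_ccffa6_gt.ELI.LHom

/-!
Transport of band data; wiggling the function.
-/

open Set Filter Topology
open scoped ContDiff RealInnerProductSpace

noncomputable section

namespace Pool.Agent.Lib.MP_ccffa6_gt.ELI

variable {F : Type} [NormedAddCommGroup F] [InnerProductSpace ℝ F]
  {φ : F → ℝ} {κ : ℝ → F → F} {u : F → F} {lam : Form1 F} {Ψ : F → F} {Ec : F → F →L[ℝ] F}

theorem LMap_inv {h k : F → F} (sh : Sm h) (sk : Sm k) (n : ∀ x, x ≠ 0 → k x ≠ 0)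
    (e : ∀ x, x ≠ 0 → h (k x) = x) {x : F} (hx : x ≠ 0) (v : F) :
    fderiv ℝ h (k x) (fderiv ℝ k x v) = v := by
  have h1 := (sh.diff (n x hx)).hasFDerivAt.comp x (sk.diff hx).hasFDerivAt
  have h2 : HasFDerivAt (h ∘ k) (ContinuousLinearMap.id ℝ F) x :=
    (hasFDerivAt_id x).congr_of_eventuallyEq ((eventually_ne_zero hx).mono e)
  exact congrArg (fun L : F →L[ℝ] F => L v) (h1.unique h2)

theorem LMap_comp {Y : Type} [NormedAddCommGroup Y] [NormedSpace ℝ Y] {f : F → Y} {k : F → F}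
    (sf : Sm f) (sk : Sm k) (n : ∀ x, x ≠ 0 → k x ≠ 0) : Sm fun x => f (k x) :=
  fun x hx => (sf _ (n x hx)).comp x (sk x hx)

theorem LMap_h0 {Y : Type} {f : F → Y} {k : F → F} (hf : H0 f) (hk : H1 k)
    (n : ∀ x, x ≠ 0 → k x ≠ 0) : H0 fun x => f (k x) := fun ρ hρ x hx => by
  simp only [hk ρ hρ x hx, hf ρ hρ _ (n x hx)]

theorem HDiff.fderiv_left {h k : F → F} (hd : HDiff h k) {x : F} (hx : x ≠ 0) (v : F) :
    fderiv ℝ k x (fderiv ℝ h (k x) v) = v := by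
  have e := LMap_inv hd.smk hd.smh hd.neh hd.left (hd.nek x hx) v
  rwa [hd.right x hx] at e

theorem HDiff.fderiv_right {h k : F → F} (hd : HDiff h k) {x : F} (hx : x ≠ 0) (v : F) :
    fderiv ℝ h (k x) (fderiv ℝ k x v) = v := by
  exact LMap_inv hd.smh hd.smk hd.nek hd.right hx v

/-- Sketch: `κ' t x = h (κ t (k x))`, `u' x = Dh (k x) (u (k x))`, `lam' x = lam (k x) ∘ Dk x`,
`Ec' x = Dh (k x) ∘ Ec (k x)`; Euler: `Dh (k x) (k x) = x`, `Dk x x = k x`. -/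
theorem Pre.map {L : ℝ} {h k : F → F} (hd : HDiff h k) (hp : Pre L φ κ u lam Ψ Ec) :
    ∃ (κ' : ℝ → F → F) (u' : F → F) (lam' : Form1 F) (Ec' : F → F →L[ℝ] F),
      Pre L (fun x => φ (k x)) κ' u' lam' (fun x => Ψ (k x)) Ec' := by
  have B := hp.bd
  have n := hd.nek
  have ek : ∀ x, x ≠ 0 → fderiv ℝ k x x = k x := fun x hx => hd.hk.euler hd.smk hx
  have eh : ∀ x, x ≠ 0 → fderiv ℝ h (k x) (k x) = x := fun x hx => by
    rw [hd.hh.euler hd.smh (n x hx), hd.right x hx]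
  have sD : Sm fun x => fderiv ℝ h (k x) := LMap_comp hd.smh.fderiv hd.smk n
  refine ⟨fun t x => h (κ t (k x)), fun x => fderiv ℝ h (k x) (u (k x)),
    fun x => (lam (k x)).comp (fderiv ℝ k x), fun x => (fderiv ℝ h (k x)).comp (Ec (k x)),
    ⟨LMap_comp B.smφ hd.smk n, fun t x hx => ?_,
      fun x hx => (sD x hx).clm_apply (LMap_comp B.smu hd.smk n x hx),
      fun x hx => (LMap_comp B.sml hd.smk n x hx).clm_comp (hd.smk.fderiv x hx),
      LMap_h0 B.hφ hd.hk n, fun t ρ hρ x hx => ?_, fun x hx => ?_,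
      fun t x hx => hd.neh _ (B.ne t _ (n x hx)), fun t x hx => ?_, fun t x hx h1 h2 => ?_,
      fun x hx h1 => ?_, fun x hx h1 => ?_⟩,
    LMap_comp hp.smΨ hd.smk n, fun x hx => (sD x hx).clm_comp (LMap_comp hp.smE hd.smk n x hx),
    LMap_h0 hp.hΨ hd.hk n, fun t x hx h1 h2 => ?_, fun x hx h1 v => ?_⟩
  · have s1 : ContDiffAt ℝ ∞ (fun z : ℝ × F => (z.1, k z.2)) (t, x) :=
      contDiffAt_fst.prodMk (ContDiffAt.comp (g := k) (t, x) (hd.smk x hx) contDiffAt_snd)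
    have s2 : ContDiffAt ℝ ∞ (fun z : ℝ × F => κ z.1 (k z.2)) (t, x) :=
      ContDiffAt.comp (g := fun z : ℝ × F => κ z.1 z.2) (t, x) (B.smκ t _ (n x hx)) s1
    exact ContDiffAt.comp (g := h) (t, x) (hd.smh _ (B.ne t _ (n x hx))) s2
  · simp only [hd.hk ρ hρ x hx, B.hκ t ρ hρ _ (n x hx), hd.hh ρ hρ _ (B.ne t _ (n x hx))]
  · simp only [B.zero _ (n x hx), hd.right x hx]
  · simp only [hd.left _ (B.ne t _ (n x hx)), B.inv t _ (n x hx), hd.right x hx]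
  · obtain ⟨e1, e2⟩ := B.flow t _ (n x hx) h1 h2
    simp only [hd.left _ (B.ne t _ (n x hx))]
    exact ⟨e1, (hd.smh.diff (B.ne t _ (n x hx))).hasFDerivAt.comp_hasDerivAt t e2⟩
  · simp only [B.band _ (n x hx) h1]
    exact (fderiv_comp x (B.smφ.diff (n x hx)) (hd.smk.diff hx)).symm
  · simp only [ContinuousLinearMap.comp_apply, hd.fderiv_left hx, ek x hx]
    exact B.dual _ (n x hx) h1
  · simp only [hd.left _ (B.ne t _ (n x hx))]
    exact hp.inv t _ (n x hx) h1 h2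
  · obtain ⟨c, hc⟩ := hp.span _ (n x hx) h1 (fderiv ℝ k x v)
    refine ⟨c, ?_⟩
    have e := congrArg (fderiv ℝ h (k x)) hc
    rw [hd.fderiv_right hx, map_add, map_add, map_smul, map_smul, eh x hx] at e
    rw [fderiv_fun_comp x (B.smφ.diff (n x hx)) (hd.smk.diff hx),
      fderiv_fun_comp x (hp.smΨ.diff (n x hx)) (hd.smk.diff hx)]
    exact e

/-- The first integrals are constant along `u`. -/
theorem Pre.fderiv_u {L : ℝ} (hp : Pre L φ κ u lam Ψ Ec) {x : F} (hx : x ≠ 0) (hb : |φ x| < L) :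
    fderiv ℝ Ψ x (u x) = 0 := by
  have h1 := (hp.bd.flow 0 x hx hb (by rwa [add_zero])).2
  have h2 : HasFDerivAt Ψ (fderiv ℝ Ψ x) (κ 0 x) := by
    rw [hp.bd.zero x hx]
    exact (hp.smΨ.diff hx).hasFDerivAt
  have h3 := h2.comp_hasDerivAt 0 h1
  rw [hp.bd.zero x hx] at h3
  have h4 : ∀ᶠ t in 𝓝 (0 : ℝ), |φ x + t| < L :=
    ContinuousAt.eventually_lt (by fun_prop) continuousAt_const (by rwa [add_zero])
  exact h3.unique ((hasDerivAt_const (0 : ℝ) (Ψ x)).congr_of_eventuallyEq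
    (h4.mono fun t ht => hp.inv t x hx hb ht))

/-- Sketch: `lam' x = lam x - χ (φ x) • d (W ∘ Ψ) x`, `χ = 1` on `[-9, 9]`, `χ t = 0` for
`|t| ≥ 10`. -/
theorem Pre.wig (hp : Pre 10 φ κ u lam Ψ Ec) {W : F → ℝ} (hW : ContDiff ℝ ∞ W)
    (hb : ∀ y, |W y| ≤ 1) : ∃ lam' : Form1 F, Band 8 (fun x => φ x - W (Ψ x)) κ u lam' := by
  have B := hp.bd
  obtain ⟨χ, hχ, h1, h0⟩ : ∃ χ : ℝ → ℝ, ContDiff ℝ ∞ χ ∧ (∀ t, |t| ≤ 9 → χ t = 1) ∧
      ∀ t, 10 ≤ |t| → χ t = 0 := by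
    let b : ContDiffBump (0 : ℝ) := ⟨9, 10, by norm_num, by norm_num⟩
    exact ⟨b, b.contDiff, fun t ht => b.one_of_mem_closedBall (by simpa using ht),
      fun t ht => b.zero_of_le_dist (by simpa using ht)⟩
  have sW : Sm fun x => W (Ψ x) := fun x hx => hW.contDiffAt.comp x (hp.smΨ x hx)
  have dW : ∀ x, x ≠ 0 → ∀ v, fderiv ℝ (fun x => W (Ψ x)) x v =
      fderiv ℝ W (Ψ x) (fderiv ℝ Ψ x v) := fun x hx v => by
    rw [fderiv_fun_comp x (hW.differentiable (by simp) _) (hp.smΨ.diff hx)]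
    rfl
  have lt : ∀ (x : F) (a : ℝ), |a - W (Ψ x)| < 8 → |a| < 9 := fun x a h => by
    obtain ⟨a1, a2⟩ := abs_lt.1 h
    obtain ⟨b1, b2⟩ := abs_le.1 (hb (Ψ x))
    exact abs_lt.2 ⟨by linarith, by linarith⟩
  refine ⟨fun x => lam x - χ (φ x) • fderiv ℝ (fun x => W (Ψ x)) x,
    fun x hx => (B.smφ x hx).sub (sW x hx), B.smκ, B.smu,
    fun x hx => (B.sml x hx).sub ((hχ.contDiffAt.comp x (B.smφ x hx)).smul (sW.fderiv x hx)),
    fun ρ hρ x hx => ?_, B.hκ, B.zero, B.ne, B.inv, fun t x hx a1 a2 => ?_, fun x hx a1 => ?_,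
    fun x hx a1 => ?_⟩
  · simp only [B.hφ ρ hρ x hx, hp.hΨ ρ hρ x hx]
  · have b1 : |φ x| < 10 := (lt x _ a1).trans (by norm_num)
    have b2 : |φ x + t| < 10 := (lt x _ (by rwa [add_sub_right_comm])).trans (by norm_num)
    obtain ⟨e1, e2⟩ := B.flow t x hx b1 b2
    refine ⟨?_, e2⟩
    simp only [e1, hp.inv t x hx b1 b2]
    ring
  · rw [fderiv_fun_sub (B.smφ.diff hx) (sW.diff hx), ← B.band x hx ((lt x _ a1).trans (by norm_num))]
    simp only [h1 _ (lt x _ a1).le, one_smul]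
  · obtain ⟨e1, e2⟩ := B.dual x hx (by linarith [(abs_le.1 (hb (Ψ x))).2])
    simp only [ContinuousLinearMap.sub_apply, ContinuousLinearMap.smul_apply, dW x hx, e1, e2,
      hp.hΨ.euler hp.smΨ hx, map_zero, smul_zero, sub_zero, and_true]
    rcases lt_or_ge |φ x| 10 with h | h
    · rw [hp.fderiv_u hx h, map_zero, smul_zero, sub_zero]
    · rw [h0 _ h, zero_smul, sub_zero]

end Pool.Agent.Lib.MP_ccffa6_gt.ELI
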