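import Pool.Agent.Lib.MP_ccffa6_gt.ELI.LHom
import Pool.Agent.Lib.MP_ccffa6_gt.ELI.Calc
import Pool.Agent.Lib.MP_ccffa6_gt.ELI.Co

/-!
Normalisation of the pairing and the tracking.
-/

open Set Filter Topology
open scoped ContDiff RealInnerProductSpace

noncomputable section

namespace Pool.Agent.Lib.MP_ccffa6_gt.ELI

variable {F : Type} [NormedAddCommGroup F] [InnerProductSpace ℝ F] [FiniteDimensional ℝ F]

/-- The operator which represents the pairing. -/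
def LNorm_D (w : Bil (F × F)) : F →L[ℝ] F :=
  shp.comp (w.bilinearComp (ContinuousLinearMap.inl ℝ F F) (ContinuousLinearMap.inr ℝ F F)).flip

theorem LNorm_D_inner (w : Bil (F × F)) (v p : F) : ⟪v, LNorm_D w p⟫ = w (v, 0) (0, p) :=
  inner_shp' _ v

theorem LNorm_D_smooth : ContDiff ℝ ∞ fun w : Bil (F × F) => LNorm_D w := by
  refine contDiff_clm_apply_iff.2 fun p => ?_
  have h1 : ContDiff ℝ ∞ fun w : Bil (F × F) => (w.bilinearComp (ContinuousLinearMap.inl ℝ F F)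
      (ContinuousLinearMap.inr ℝ F F)).flip p :=
    contDiff_clm_apply_iff.2 fun v => by
      have h2 : ContDiff ℝ ∞ fun w : Bil (F × F) => w (v, 0) (0, p) :=
        (contDiff_id.clm_apply contDiff_const).clm_apply contDiff_const
      exact h2
  exact (shp.contDiff.comp h1 :)

/-- The segment from the identity. -/
def LNorm_A (s : ℝ) (w : Bil (F × F)) : F →L[ℝ] F :=
  (1 - s) • ContinuousLinearMap.id ℝ F + s • LNorm_D w

/-- The correction of the frame. -/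
def LNorm_n (s : ℝ) (w : Bil (F × F)) : F →L[ℝ] F := (LNorm_A s w).inverse

theorem LNorm_inv {s : ℝ} (hs : s ∈ Icc (0 : ℝ) 1) {w : Bil (F × F)} (h : LBlk w) :
    (LNorm_A s w).IsInvertible := by
  have hi : Function.Injective (LNorm_A s w) := (injective_iff_map_eq_zero _).2 fun p hp =>
    h.2 s hs p fun v => by
      have h1 := congrArg (fun x => ⟪v, x⟫) hp
      simpa [LNorm_A, inner_add_right, inner_smul_right, LNorm_D_inner] using h1
  exact ⟨(LinearEquiv.ofInjectiveEndo (LNorm_A s w : F →ₗ[ℝ] F) hi).toContinuousLinearEquiv, by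
    ext v
    rfl⟩

theorem LNorm_n_smooth {s : ℝ} (hs : s ∈ Icc (0 : ℝ) 1) {w : Bil (F × F)} (h : LBlk w) :
    ContDiffAt ℝ ∞ (fun z : ℝ × Bil (F × F) => LNorm_n z.1 z.2) (s, w) := by
  have := FiniteDimensional.complete ℝ F
  have h1 : ContDiff ℝ ∞ fun z : ℝ × Bil (F × F) => LNorm_A z.1 z.2 :=
    ((contDiff_const.sub contDiff_fst).smul contDiff_const).add
      (contDiff_fst.smul (LNorm_D_smooth.comp contDiff_snd))
  exact ContDiffAt.comp (s, w) (g := ContinuousLinearMap.inverse)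
    (f := fun z : ℝ × Bil (F × F) => LNorm_A z.1 z.2) (LNorm_inv hs h).contDiffAt_map_inverse
    h1.contDiffAt

theorem LNorm_n_zero (w : Bil (F × F)) : LNorm_n 0 w = ContinuousLinearMap.id ℝ F := by
  simp [LNorm_n, LNorm_A]

theorem LNorm_n_om0 (s : ℝ) : LNorm_n s (om0 F) = ContinuousLinearMap.id ℝ F := by
  have h1 : LNorm_D (om0 F) = ContinuousLinearMap.id ℝ F := by
    ext p
    refine ext_inner_left ℝ fun v => ?_
    simp [LNorm_D_inner, om0_apply]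
  rw [LNorm_n, LNorm_A, h1, ← add_smul, sub_add_cancel, one_smul, ContinuousLinearMap.inverse_id]

/-- The correction on the whole space. -/
def LNorm_M (s : ℝ) (w : Bil (F × F)) : F × F →L[ℝ] F × F :=
  (ContinuousLinearMap.id ℝ F).prodMap (LNorm_n s w)

theorem LNorm_M_apply (s : ℝ) (w : Bil (F × F)) (a b : F) :
    LNorm_M s w (a, b) = (a, LNorm_n s w b) := rfl

theorem LNorm_M_id {s : ℝ} {w : Bil (F × F)} (h : LNorm_n s w = ContinuousLinearMap.id ℝ F)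
    (w' : Bil (F × F)) : pbB (LNorm_M s w) w' = w' := by
  rw [LNorm_M, h]
  rfl

theorem LNorm_M_inj {s : ℝ} (hs : s ∈ Icc (0 : ℝ) 1) {w : Bil (F × F)} (h : LBlk w) :
    Function.Injective (LNorm_M s w) := by
  rintro ⟨a, b⟩ ⟨a', b'⟩ e
  rw [LNorm_M_apply, LNorm_M_apply, Prod.mk.injEq] at e
  exact Prod.ext e.1 ((LNorm_inv hs h).inverse.injective e.2)

theorem LNorm_M_smooth {s : ℝ} (hs : s ∈ Icc (0 : ℝ) 1) {w : Bil (F × F)} (h : LBlk w) :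
    ContinuousAt (fun z : ℝ × Bil (F × F) => LNorm_M z.1 z.2) (s, w) :=
  (contDiff_prodMap (F := F)).continuous.continuousAt.comp
    (f := fun z : ℝ × Bil (F × F) => (ContinuousLinearMap.id ℝ F, LNorm_n z.1 z.2))
    (continuousAt_const.prodMk (LNorm_n_smooth hs h).continuousAt)

theorem LNorm_pair {w : Bil (F × F)} (h : LBlk w) (u b : F) :
    pbB (LNorm_M 1 w) w (u, 0) (0, b) = ⟪u, b⟫ := by
  have h1 := (LNorm_inv (s := 1) (by simp) h).self_apply_inverse b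
  have h2 : LNorm_A 1 w = LNorm_D w := by simp [LNorm_A]
  rw [pbB_apply, LNorm_M_apply, LNorm_M_apply, map_zero, ← LNorm_D_inner, ← h2, LNorm_n, h1]

theorem LNorm_iso {w : Bil (F × F)} (h : LBlk w) (b b' : F) :
    pbB (LNorm_M 1 w) w (0, b) (0, b') = 0 := h.1 _ _

theorem LNorm_std {w : Bil (F × F)} (h : LBlk w) (ha : ∀ u, w u u = 0)
    (h0 : ∀ v v', w (v, 0) (v', 0) = 0) : pbB (LNorm_M 1 w) w = om0 F := by
  refine ContinuousLinearMap.ext fun ⟨a, b⟩ => ContinuousLinearMap.ext fun ⟨a', b'⟩ => ?_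
  have e : ((a, b) : F × F) = (a, 0) + (0, b) := by simp
  have e' : ((a', b') : F × F) = (a', 0) + (0, b') := by simp
  have h1 : pbB (LNorm_M 1 w) w (a, 0) (a', 0) = 0 := by
    rw [pbB_apply, LNorm_M_apply, LNorm_M_apply, map_zero, h0]
  have h2 : pbB (LNorm_M 1 w) w (0, b) (a', 0) = -⟪a', b⟫ := by
    rw [alt_swap (w := pbB (LNorm_M 1 w) w) fun u => ha _, LNorm_pair h]
  rw [om0_apply, e, e', map_add, map_add, add_apply, add_apply, h1, h2, LNorm_pair h, LNorm_iso h,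
    real_inner_comm b a']
  simp [sub_eq_add_neg, add_comm]

theorem LNorm_cont {G X : Type} [NormedAddCommGroup G] [NormedSpace ℝ G] [TopologicalSpace X]
    {C : Set X} {K : ℝ × ℝ → X → G} (c : G)
    (hK : ContinuousOn (fun z : (ℝ × ℝ) × X => K z.1 z.2)
      ((Icc (0 : ℝ) 1 ×ˢ Icc (0 : ℝ) 1) ×ˢ C)) :
    ContinuousOn (fun z : (ℝ × ℝ) × X => (1 - z.1.2) • K (1, z.1.1) z.2 + z.1.2 • c)
      ((Icc (0 : ℝ) 1 ×ˢ Icc (0 : ℝ) 1) ×ˢ C) := by
  have h1 := hK.comp (f := fun z : (ℝ × ℝ) × X => (((1 : ℝ), z.1.1), z.2))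
    (s := (Icc (0 : ℝ) 1 ×ˢ Icc (0 : ℝ) 1) ×ˢ C) (by fun_prop)
    fun z hz => ⟨⟨by simp, hz.1.1⟩, hz.2⟩
  exact (ContinuousOn.smul (by fun_prop) h1).add (by fun_prop)

omit [FiniteDimensional ℝ F] in
theorem LNorm_W_smooth {f : ℝ → F → F × F} {G : ℝ → F → F →L[ℝ] F × F}
    (hJ : Jets (1 : F →L[ℝ] F) f G) {q : F} (hq : q ∈ core (1 : F →L[ℝ] F)) :
    ContDiffAt ℝ ∞ (fun q => pbB (frm (f 1) (G 1 q) q) (om0 F)) q := by
  have z1 : (1 : ℝ) ∈ Icc (0 : ℝ) 1 := by simp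
  have h0 : ContDiffAt ℝ ∞ (fun x : F => ((1 : ℝ), x)) q := contDiffAt_const.prodMk contDiffAt_id
  have h1 : ContDiffAt ℝ ∞ (f 1) q := ((hJ.smf 1 z1 q (core_ne hq)).comp q h0 :)
  have h2 : ContDiffAt ℝ ∞ (G 1) q := ((hJ.smG 1 z1 q hq).comp q h0 :)
  have h3 : ContDiffAt ℝ ∞ (fun x => frm (f 1) (G 1 x) x) q := by
    simp only [frm, ← ContinuousLinearMap.comp_fst_add_comp_snd]
    exact ((h1.fderiv_right (m := ∞) (by simp)).clm_comp contDiffAt_const).add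
      (h2.clm_comp contDiffAt_const)
  have h4 : ContDiffAt ℝ ∞ (fun x => (frm (f 1) (G 1 x) x, om0 F)) q := h3.prodMk contDiffAt_const
  exact (contDiff_pbB.contDiffAt.comp q h4 :)

theorem LNorm_fam {K : ℝ × ℝ → F → Bil (F × F)}
    (hK : Fam (Icc (0 : ℝ) 1 ×ˢ Icc (0 : ℝ) 1) (core (1 : F →L[ℝ] F)) K)
    (right : ∀ l ∈ Icc (0 : ℝ) 1, ∀ q : F, ‖q‖ = 1 → LBlk (K (1, l) q)) :
    Fam (Icc (0 : ℝ) 1 ×ˢ Icc (0 : ℝ) 1) (core (1 : F →L[ℝ] F))
      fun (z : ℝ × ℝ) q => pbB (LNorm_M z.1 (K (1, z.2) q)) (K z q) := by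
  refine ⟨?_, fun z hz q hq =>
    nd_pbB (LNorm_M_inj hz.1 (right _ hz.2 q (mem_core_one.1 hq))) (hK.nd z hz q hq)⟩
  have h1 : ContinuousOn (fun z : (ℝ × ℝ) × F => K (1, z.1.2) z.2)
      ((Icc (0 : ℝ) 1 ×ˢ Icc (0 : ℝ) 1) ×ˢ core (1 : F →L[ℝ] F)) :=
    hK.cont.comp (f := fun z : (ℝ × ℝ) × F => (((1 : ℝ), z.1.2), z.2)) (by fun_prop)
      fun z hz => ⟨⟨by simp, hz.1.2⟩, hz.2⟩
  have h2 : ContinuousOn (fun z : (ℝ × ℝ) × F => (z.1.1, K (1, z.1.2) z.2))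
      ((Icc (0 : ℝ) 1 ×ˢ Icc (0 : ℝ) 1) ×ˢ core (1 : F →L[ℝ] F)) :=
    continuous_fst.fst.continuousOn.prodMk h1
  have h3 : ContinuousOn (fun z : (ℝ × ℝ) × F => LNorm_M z.1.1 (K (1, z.1.2) z.2))
      ((Icc (0 : ℝ) 1 ×ˢ Icc (0 : ℝ) 1) ×ˢ core (1 : F →L[ℝ] F)) := fun z hz =>
    ((LNorm_M_smooth hz.1.1 (right _ hz.1.2 _ (mem_core_one.1 hz.2))).comp_continuousWithinAt
      (f := fun z : (ℝ × ℝ) × F => (z.1.1, K (1, z.1.2) z.2)) (h2 z hz) :)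
  exact (continuous_pbB.comp_continuousOn (h3.prodMk hK.cont) :)

theorem LNorm_G_smooth {G : ℝ → F → F →L[ℝ] F × F} {W : F → Bil (F × F)} {s : ℝ} {q : F}
    (hs : s ∈ Icc (0 : ℝ) 1) (hG : ContDiffAt ℝ ∞ (fun z : ℝ × F => G z.1 z.2) (s, q))
    (hW : ContDiffAt ℝ ∞ W q) (hb : LBlk (W q)) :
    ContDiffAt ℝ ∞ (fun z : ℝ × F => (G z.1 z.2).comp (LNorm_n z.1 (W z.2))) (s, q) := by
  have h1 : ContDiffAt ℝ ∞ (fun z : ℝ × F => W z.2) (s, q) :=
    (ContDiffAt.comp (s, q) (g := W) (f := Prod.snd) hW contDiffAt_snd :)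
  have h2 : ContDiffAt ℝ ∞ (fun z : ℝ × F => (z.1, W z.2)) (s, q) := contDiffAt_fst.prodMk h1
  exact hG.clm_comp ((LNorm_n_smooth hs hb).comp (s, q) h2 :)

omit [FiniteDimensional ℝ F] in
/-- The tracking around a square whose right side consists of block forms. -/
theorem LNorm_track {K : ℝ × ℝ → F → Bil (F × F)}
    (hK : Fam (Icc (0 : ℝ) 1 ×ˢ Icc (0 : ℝ) 1) (core (1 : F →L[ℝ] F)) K)
    (top : ∀ s ∈ Icc (0 : ℝ) 1, ∀ q ∈ core (1 : F →L[ℝ] F), K (s, 1) q = om0 F)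
    (cor : ∀ q ∈ core (1 : F →L[ℝ] F), K (1, 0) q = om0 F)
    (pair : ∀ l ∈ Icc (0 : ℝ) 1, ∀ q ∈ core (1 : F →L[ℝ] F), ∀ u b,
      K (1, l) q (u, 0) (0, b) = ⟪u, b⟫)
    (iso : ∀ l ∈ Icc (0 : ℝ) 1, ∀ q ∈ core (1 : F →L[ℝ] F), ∀ b b',
      K (1, l) q (0, b) (0, b') = 0)
    {a : Lf (1 : F →L[ℝ] F)} (h : Co (fun t => K (0, t)) a (bas 1)) :
    Co (fun t => K (t, 0)) a (bas 1) := by
  have z0 : (0 : ℝ) ∈ Icc (0 : ℝ) 1 := by simp
  have z1 : (1 : ℝ) ∈ Icc (0 : ℝ) 1 := by simp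
  have hb : Fam (Icc (0 : ℝ) 1) (core (1 : F →L[ℝ] F)) fun t => K (t, 0) :=
    ⟨hK.cont.comp (f := fun z : ℝ × F => ((z.1, (0 : ℝ)), z.2)) (by fun_prop)
      fun z hz => ⟨⟨hz.1, z0⟩, hz.2⟩, fun t ht q hq => hK.nd _ ⟨ht, z0⟩ q hq⟩
  have hr : Fam (Icc (0 : ℝ) 1) (core (1 : F →L[ℝ] F)) fun t => K (1, t) :=
    ⟨hK.cont.comp (f := fun z : ℝ × F => (((1 : ℝ), z.1), z.2)) (by fun_prop)
      fun z hz => ⟨⟨z1, hz.1⟩, hz.2⟩, fun t ht q hq => hK.nd _ ⟨z1, ht⟩ q hq⟩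
  obtain ⟨b, hab⟩ := Co.exists_right hb (a := a) h.over_left
  obtain ⟨d, hbd⟩ := Co.exists_right hr (a := b) hab.over_right
  have h1 : bas (1 : F →L[ℝ] F) = d :=
    (Co.refl fun t ht q => (top t ht q q.2).symm).unique_right (Co.square hK hab hbd h)
  have hH : Fam (Icc (0 : ℝ) 1 ×ˢ Icc (0 : ℝ) 1) (core (1 : F →L[ℝ] F))
      fun (z : ℝ × ℝ) q => (1 - z.2) • K (1, z.1) q + z.2 • om0 F := by
    refine ⟨LNorm_cont (G := Bil (F × F)) (K := K) (om0 F) hK.cont, fun z hz q hq =>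
      nd_block (fun u => ?_) (fun u b => ?_) fun b b' => ?_⟩
    · simp only [add_apply, smul_apply, (hK.nd (1, z.1) ⟨z1, hz.1⟩ q hq).1 u trivial,
        nd_om0.1 u trivial, smul_zero, add_zero]
    · simp only [add_apply, smul_apply, pair _ hz.1 q hq, om0_apply, smul_eq_mul, inner_zero_left]
      ring
    · simp [iso _ hz.1 q hq, om0_apply]
  have h2 := (Co.homot hH (a := b) (a' := d)
    (fun σ _ q hq => by
      ext u v <;> simp only [cor q hq] <;> simp <;> ring)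
    (fun σ _ q hq => by
      ext u v <;> simp only [top 1 z1 q hq] <;> simp <;> ring)).1
    (hbd.congr fun t _ q _ => by
      refine ContinuousLinearMap.ext fun u => ContinuousLinearMap.ext fun v => ?_
      simp)
  have h3 : b = d := (Co.refl fun t _ => hab.over_right.congr fun q hq => by
    refine ContinuousLinearMap.ext fun u => ContinuousLinearMap.ext fun v => ?_
    simp [cor q hq]).unique_right h2
  rwa [h1, ← h3]

/-- Normalisation of the pairing at the end of the isotopy. -/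
theorem leg_norm {ς : F → F} {r : ℝ} {f : ℝ → F → F × F} {G : ℝ → F → F →L[ℝ] F × F}
    (hJ : Jets (1 : F →L[ℝ] F) f G) (h0 : ∀ a : F, a ≠ 0 → f 0 a = (a, ς a))
    (hG : ∀ q : F, ‖q‖ = 1 → G 0 q = ContinuousLinearMap.inr ℝ F F)
    (hc : ∀ s ∈ Icc (0 : ℝ) 1, ∀ q : F, ‖q‖ = 1 → ‖(f s q).2 - ς (f s q).1‖ < r)
    (hl : ∀ q : F, ‖q‖ = 1 → ∀ v v', om0 F (fderiv ℝ (f 1) q v) (fderiv ℝ (f 1) q v') = 0)
    {K : ℝ × ℝ → F → Bil (F × F)}
    (hK : Fam (Icc (0 : ℝ) 1 ×ˢ Icc (0 : ℝ) 1) (core (1 : F →L[ℝ] F)) K)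
    (bot : ∀ s ∈ Icc (0 : ℝ) 1, ∀ q : F, ‖q‖ = 1 →
      K (s, 0) q = pbB (frm (f s) (G s q) q) (om0 F))
    (left : ∀ l ∈ Icc (0 : ℝ) 1, ∀ q : F, ‖q‖ = 1 →
      K (0, l) q = (1 - l) • pbB (frm (f 0) (G 0 q) q) (om0 F) + l • om0 F)
    (top : ∀ s ∈ Icc (0 : ℝ) 1, ∀ q : F, ‖q‖ = 1 → K (s, 1) q = om0 F)
    (right : ∀ l ∈ Icc (0 : ℝ) 1, ∀ q : F, ‖q‖ = 1 → LBlk (K (1, l) q)) : LegFor ς r := by
  have z0 : (0 : ℝ) ∈ Icc (0 : ℝ) 1 := by simp
  have z1 : (1 : ℝ) ∈ Icc (0 : ℝ) 1 := by simp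
  obtain ⟨W, hWd⟩ : ∃ W : F → Bil (F × F), W = fun q => pbB (frm (f 1) (G 1 q) q) (om0 F) :=
    ⟨_, rfl⟩
  have hW : ∀ q ∈ core (1 : F →L[ℝ] F), K (1, 0) q = W q := fun q hq => by
    rw [hWd]
    exact bot 1 z1 q (mem_core_one.1 hq)
  have hWb : ∀ q ∈ core (1 : F →L[ℝ] F), LBlk (W q) := fun q hq => by
    rw [← hW q hq]
    exact right 0 z0 q (mem_core_one.1 hq)
  have hstd : ∀ q ∈ core (1 : F →L[ℝ] F), pbB (LNorm_M 1 (W q)) (W q) = om0 F := fun q hq => by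
    refine LNorm_std (hWb q hq) (fun u => ?_) fun v v' => ?_
    · rw [← hW q hq]
      exact (hK.nd (1, 0) ⟨z1, z0⟩ q hq).1 u trivial
    · simp only [hWd, pbB_apply, frm_apply, map_zero, add_zero]
      exact hl q (mem_core_one.1 hq) v v'
  have hfrm : ∀ s q, frm (f s) ((G s q).comp (LNorm_n s (W q))) q =
      (frm (f s) (G s q) q).comp (LNorm_M s (W q)) := fun s q =>
    ContinuousLinearMap.ext fun ⟨a, b⟩ => by
      simp only [frm_apply, ContinuousLinearMap.comp_apply, LNorm_M_apply]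
  refine ⟨f, fun s q => (G s q).comp (LNorm_n s (W q)), ⟨hJ.smf, fun s hs q hq => ?_, hJ.eqv,
    hJ.ne, fun s hs q hq => ?_, hJ.emb⟩, h0, fun q hq => ?_, fun s hs q hq => ?_,
    fun q hq => ?_, fun a ha => ?_⟩
  · exact LNorm_G_smooth hs (hJ.smG s hs q hq) (by rw [hWd]; exact LNorm_W_smooth hJ hq)
      (hWb q hq)
  · rw [hfrm]
    exact (hJ.inj s hs q hq).comp (LNorm_M_inj hs (hWb q hq))
  · simp only [LNorm_n_zero, hG q (mem_core_one.1 hq), ContinuousLinearMap.comp_id]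
  · exact mem_Tube_one.2 ⟨hJ.ne s hs q (core_ne hq), hc s hs q (mem_core_one.1 hq)⟩
  · rw [hfrm, pbB_comp, ← bot 1 z1 q (mem_core_one.1 hq), hW q hq]
    exact hstd q hq
  · have hK' := LNorm_fam hK right
    refine (LNorm_track hK' (fun s hs q hq => ?_) (fun q hq => ?_)
      (fun l hl' q hq => LNorm_pair (right l hl' q (mem_core_one.1 hq)))
      (fun l hl' q hq => LNorm_iso (right l hl' q (mem_core_one.1 hq)))
      (ha.congr fun t ht q hq => ?_)).congr fun s hs q hq => ?_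
    · simp only [top s hs q (mem_core_one.1 hq), top 1 z1 q (mem_core_one.1 hq)]
      exact LNorm_M_id (LNorm_n_om0 s) _
    · simp only [hW q hq]
      exact hstd q hq
    · simp only [LNorm_M_id (LNorm_n_zero _), left t ht q (mem_core_one.1 hq), seg, LNorm_n_zero,
        ContinuousLinearMap.comp_id]
    · simp only [hW q hq, bot s hs q (mem_core_one.1 hq), hfrm, pbB_comp]

end Pool.Agent.Lib.MP_ccffa6_gt.ELI
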