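import Pool.Agent.Lib.MP_ccffa6_gt.ELI.LMap
import Pool.Agent.Lib.MP_ccffa6_gt.ELI.W

/-!
Reduction to one primitive form.
-/

open Set Filter Topology
open scoped ContDiff RealInnerProductSpace

noncomputable section

namespace Pool.Agent.Lib.MP_ccffa6_gt.ELI

variable {F : Type} [NormedAddCommGroup F] [InnerProductSpace ℝ F] [FiniteDimensional ℝ F]

omit [FiniteDimensional ℝ F] in
theorem LRed_unit {x : F} (hx : x ≠ 0) : ‖‖x‖⁻¹ • x‖ = 1 := by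
  rw [norm_smul, norm_inv, norm_norm, inv_mul_cancel₀ (norm_ne_zero_iff.2 hx)]

omit [FiniteDimensional ℝ F] in
theorem LRed_ne {x : F} (hx : ‖x‖ = 1) : x ≠ 0 := fun h => by simp [h] at hx

omit [FiniteDimensional ℝ F] in
theorem LRed_nz {ρ : ℝ} (hρ : 0 < ρ) (x : F) : ‖ρ • x‖⁻¹ • ρ • x = ‖x‖⁻¹ • x := by
  rw [norm_smul, Real.norm_of_nonneg hρ.le, smul_smul, mul_inv, mul_right_comm,
    inv_mul_cancel₀ hρ.ne', one_mul]

omit [FiniteDimensional ℝ F] in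
/-- Homogeneous extension of degree one. -/
theorem LRed_ext {g : F → ℝ} (hg : ContDiffOn ℝ ∞ g {x | x ≠ 0}) :
    Sm (fun x : F => ‖x‖ * g (‖x‖⁻¹ • x)) ∧ H1 (fun x : F => ‖x‖ * g (‖x‖⁻¹ • x)) ∧
      ∀ x : F, ‖x‖ = 1 → ∀ v, fderiv ℝ (fun x : F => ‖x‖ * g (‖x‖⁻¹ • x)) x v =
        ⟪x, v⟫ * g x + fderiv ℝ g x (v - ⟪x, v⟫ • x) := by
  have hn : ∀ x : F, x ≠ 0 → ContDiffAt ℝ ∞ (fun x : F => ‖x‖⁻¹ • x) x := fun x hx =>
    ((sm_norm x hx).inv (norm_ne_zero_iff.2 hx)).smul contDiffAt_id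
  have hg' : ∀ x : F, x ≠ 0 → ContDiffAt ℝ ∞ g x := fun x hx =>
    hg.contDiffAt (eventually_ne_zero hx)
  have hc : ∀ x : F, x ≠ 0 → ContDiffAt ℝ ∞ (fun x : F => g (‖x‖⁻¹ • x)) x := fun x hx =>
    ContDiffAt.comp (g := g) x (hg' _ (LRed_ne (LRed_unit hx))) (hn x hx)
  refine ⟨fun x hx => (sm_norm x hx).mul (hc x hx), fun ρ hρ x _ => ?_, fun x hx v => ?_⟩
  · simp only [LRed_nz hρ, smul_eq_mul]
    rw [norm_smul, Real.norm_of_nonneg hρ.le, mul_assoc]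
  · have hx0 := LRed_ne hx
    have h1 : HasFDerivAt (fun x : F => ‖x‖) (fderiv ℝ (fun x : F => ‖x‖) x) x :=
      (sm_norm.diff hx0).hasFDerivAt
    have h2 := ((hasDerivAt_inv (norm_ne_zero_iff.2 hx0)).comp_hasFDerivAt x h1).smul
      (hasFDerivAt_id x)
    have h3 : HasFDerivAt g (fderiv ℝ g x) (‖x‖⁻¹ • x) := by
      rw [hx, inv_one, one_smul]
      exact ((hg' x hx0).differentiableAt (by simp)).hasFDerivAt
    have h4 := h1.mul (HasFDerivAt.comp (f := fun x : F => ‖x‖⁻¹ • x) x h3 h2)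
    have h5 := h4.fderiv
    have e : (fun x : F => ‖x‖ * g (‖x‖⁻¹ • x)) =
        (fun x : F => ‖x‖) * (g ∘ fun x : F => ‖x‖⁻¹ • x) := rfl
    rw [e, h5]
    simp [fderiv_norm_apply hx0, hx, sub_eq_add_neg, add_comm, mul_comm]

theorem red_exists {φ : F → ℝ} {κ : ℝ → F → F} {u : F → F} {lam : Form1 F} {Ψ : F → F}
    {Ec : F → F →L[ℝ] F} (hp : Pre 10 φ κ u lam Ψ Ec) {b : Form1 F} (hs : Sm b) (h0 : H0 b)
    (he : ∀ x, x ≠ 0 → b x x = 0) (hb : ∀ x, x ≠ 0 → b x ≠ 0 → |φ x| ≤ 2) {ε : ℝ} (hε : 0 < ε) :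
    ∃ (φ' : F → ℝ) (lam' e : Form1 F) (z a : F → ℝ), Band 8 φ' κ u lam' ∧ Sm e ∧ Sm z ∧ Sm a ∧
      H0 e ∧ H1 a ∧ ∀ x, x ≠ 0 → ‖e x‖ ≤ ε ∧ (a x ≠ 0 → |φ' x| ≤ 3) ∧
        ∀ v, b x v + e x v = fderiv ℝ z x v - a x * fderiv ℝ φ' x v := by
  let B := stdOrthonormalBasis ℝ F
  have hO : IsOpen {x : F | x ≠ 0} := isOpen_ne
  have hKO : Metric.sphere (0 : F) 1 ⊆ {x : F | x ≠ 0} := fun x hx =>
    LRed_ne (mem_sphere_zero_iff_norm.1 hx)
  have hψ : ∀ i, Sm fun x => ⟪B i, Ψ x⟫ := fun i x hx => contDiffAt_const.inner ℝ (hp.smΨ x hx)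
  have dψ : ∀ i x, x ≠ 0 → ∀ v, fderiv ℝ (fun x => ⟪B i, Ψ x⟫) x v = ⟪B i, fderiv ℝ Ψ x v⟫ := by
    intro i x hx v
    have := ((innerSL ℝ (B i)).hasFDerivAt.comp x (hp.smΨ.diff hx).hasFDerivAt).fderiv
    exact congrArg (fun L : F →L[ℝ] ℝ => L v) this
  have hε' : 0 < min (ε / 3) 1 := lt_min (by linarith) one_pos
  obtain ⟨δ, N, a', z', hδ, sa', sz', hv, hK⟩ := wig (Y := ℝ) hO (isCompact_sphere (0 : F) 1) hKO
    (φ := φ) (ψ := fun i x => ⟪B i, Ψ x⟫) (a := fun x => b x (u x))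
    (b := fun i x => b x (Ec x (B i))) hp.bd.smφ.contDiffOn (fun i => (hψ i).contDiffOn)
    (fun x hx => ((hs x hx).clm_apply (hp.bd.smu x hx)).contDiffWithinAt)
    (fun i x hx => ((hs x hx).clm_apply
      ((hp.smE x hx).clm_apply contDiffAt_const)).contDiffWithinAt) hε'
  let W : F → ℝ := fun y => ∑ i, δ i * Real.sin (N i * ⟪B i, y⟫)
  have sW : ContDiff ℝ ∞ W := ContDiff.sum fun i _ =>
    contDiff_const.mul (contDiff_const.mul (contDiff_const.inner ℝ contDiff_id)).sin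
  have bW : ∀ y, |W y| ≤ 1 := fun y => by
    refine (Finset.abs_sum_le_sum_abs _ _).trans ((Finset.sum_le_sum fun i _ => ?_).trans
      (hδ.trans (min_le_right _ _)))
    rw [abs_mul]
    exact mul_le_of_le_one_right (abs_nonneg _) (Real.abs_sin_le_one _)
  obtain ⟨lam', hbd⟩ := hp.wig sW bW
  obtain ⟨sA, hA, -⟩ := LRed_ext sa'
  obtain ⟨sZ, hZ, dZ⟩ := LRed_ext sz'
  set φ' : F → ℝ := fun x => φ x - W (Ψ x) with hφ'
  set A : F → ℝ := fun x => ‖x‖ * a' (‖x‖⁻¹ • x) with hAd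
  set Z : F → ℝ := fun x => ‖x‖ * z' (‖x‖⁻¹ • x) with hZd
  have span : ∀ x, x ≠ 0 → ∀ v, b x v = fderiv ℝ φ x v * b x (u x) +
      ∑ i, ⟪B i, fderiv ℝ Ψ x v⟫ * b x (Ec x (B i)) := by
    intro x hx v
    by_cases hbx : b x = 0
    · simp [hbx]
    obtain ⟨c, hc⟩ := hp.span x hx (by linarith [hb x hx hbx]) v
    have h1 := B.sum_repr' (fderiv ℝ Ψ x v)
    conv_lhs => rw [hc, ← h1]
    simp [he x hx, map_sum]
  have hE : H0 fun x => fderiv ℝ Z x + A x • fderiv ℝ φ' x - b x := fun ρ hρ x hx => by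
    simp only [hZ.h0_fderiv sZ ρ hρ x hx, hA ρ hρ x hx, hbd.hφ.fderiv_smul hbd.smφ hρ hx,
      h0 ρ hρ x hx, smul_smul, smul_eq_mul]
    rw [mul_right_comm, mul_inv_cancel₀ hρ.ne', one_mul]
  have bE : ∀ x : F, ‖x‖ = 1 → ‖fderiv ℝ Z x + A x • fderiv ℝ φ' x - b x‖ ≤ ε := by
    intro x hx
    have hx0 := LRed_ne hx
    obtain ⟨k1, k2⟩ := hK x (mem_sphere_zero_iff_norm.2 hx)
    refine ContinuousLinearMap.opNorm_le_bound _ hε.le fun v => ?_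
    set T := (fderiv ℝ (fun x => φ x - ∑ i, δ i * Real.sin (N i * ⟪B i, Ψ x⟫)) x).smulRight (a' x) +
      fderiv ℝ z' x - (fderiv ℝ φ x).smulRight (b x (u x)) -
      ∑ i, (fderiv ℝ (fun x => ⟪B i, Ψ x⟫) x).smulRight (b x (Ec x (B i))) with hT
    have eT : ∀ w, T w = fderiv ℝ φ' x w * a' x + fderiv ℝ z' x w - b x w := fun w => by
      rw [span x hx0 w, hT]
      simp only [sub_apply, add_apply, ContinuousLinearMap.smulRight_apply, smul_eq_mul,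
        sum_apply, dψ _ x hx0]
      rw [sub_sub]
    have e1 : (fderiv ℝ Z x + A x • fderiv ℝ φ' x - b x) v =
        T (v - ⟪x, v⟫ • x) + ⟪x, v⟫ * z' x := by
      rw [eT]
      simp only [sub_apply, add_apply, smul_apply, dZ x hx v, smul_eq_mul, hAd, hx, inv_one,
        one_smul, one_mul, map_sub (fderiv ℝ φ' x), map_sub (b x), map_smul, he x hx0,
        hbd.hφ.euler hbd.smφ hx0]
      ring
    have i1 : |⟪x, v⟫| ≤ ‖v‖ := by simpa [hx] using abs_real_inner_le_norm x v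
    have i2 : ‖v - ⟪x, v⟫ • x‖ ≤ 2 * ‖v‖ := by
      refine (norm_sub_le _ _).trans ?_
      rw [norm_smul, hx, Real.norm_eq_abs]
      linarith
    have m1 := min_le_left (ε / 3) 1
    have i3 : ‖T (v - ⟪x, v⟫ • x)‖ ≤ ε / 3 * (2 * ‖v‖) :=
      (T.le_opNorm _).trans (mul_le_mul (k2.trans m1) i2 (norm_nonneg _) (by linarith))
    have i4 : ‖⟪x, v⟫ * z' x‖ ≤ ‖v‖ * (ε / 3) := by
      rw [norm_mul]
      exact mul_le_mul i1 (k1.trans m1) (norm_nonneg _) (norm_nonneg _)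
    rw [e1]
    refine (norm_add_le _ _).trans ?_
    linarith
  refine ⟨φ', lam', fun x => fderiv ℝ Z x + A x • fderiv ℝ φ' x - b x, Z, fun x => -A x, hbd,
    fun x hx => ((sZ.fderiv x hx).add ((sA x hx).smul (hbd.smφ.fderiv x hx))).sub (hs x hx), sZ,
    fun x hx => (sA x hx).neg, hE, fun ρ hρ x hx => by simp only [hA ρ hρ x hx, smul_neg],
    fun x hx => ⟨?_, fun ha => ?_, fun v => ?_⟩⟩
  · have hρ : 0 < ‖x‖⁻¹ := inv_pos.2 (norm_pos_iff.2 hx)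
    rw [← hE _ hρ x hx]
    exact bE _ (LRed_unit hx)
  · have hρ : 0 < ‖x‖⁻¹ := inv_pos.2 (norm_pos_iff.2 hx)
    have h1 : b (‖x‖⁻¹ • x) ≠ 0 := fun h => ha (by
      simp only [hAd, (hv (‖x‖⁻¹ • x) (by simp [h]) fun i => by simp [h]).1, mul_zero, neg_zero])
    have h2 := hb _ (LRed_ne (LRed_unit hx)) h1
    rw [hp.bd.hφ _ hρ x hx] at h2
    have h3 := bW (Ψ x)
    have h4 : |φ x - W (Ψ x)| ≤ |φ x| + |W (Ψ x)| := abs_sub _ _
    show |φ x - W (Ψ x)| ≤ 3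
    linarith
  · simp only [sub_apply, add_apply, smul_apply, smul_eq_mul]
    ring

end Pool.Agent.Lib.MP_ccffa6_gt.ELI
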