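import Pool.Agent.Lib.MP_ccffa6_gt.ELI.LHom

/-!
The zigzag: smoothness, equivariance, smallness.
-/

open Set Filter Topology
open scoped ContDiff RealInnerProductSpace

noncomputable section

namespace Pool.Agent.Lib.MP_ccffa6_gt.ELI

variable {F : Type} [NormedAddCommGroup F] [InnerProductSpace ℝ F] [FiniteDimensional ℝ F]
  {D : ZD F}

section

variable {A B C : Type} [NormedAddCommGroup A] [NormedSpace ℝ A] [NormedAddCommGroup B]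
  [NormedSpace ℝ B] [NormedAddCommGroup C] [NormedSpace ℝ C]

theorem LZigA_comp {g : B → C} {f : A → B} {a : A} {b : B} (hg : ContDiffAt ℝ ∞ g b)
    (hf : ContDiffAt ℝ ∞ f a) (e : f a = b) : ContDiffAt ℝ ∞ (fun z => g (f z)) a :=
  (e ▸ hg).comp a hf

omit [FiniteDimensional ℝ F] in
theorem LZigA_fd {G : B × F → C} {π : A → B} {g : A → F} {a : A}
    (hG : ContDiffAt ℝ ∞ G (π a, g a)) (hπ : ContDiffAt ℝ ∞ π a) (hg : ContDiffAt ℝ ∞ g a) :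
    ContDiffAt ℝ ∞ (fun z => fderiv ℝ (fun y => G (π z, y)) (g z)) a :=
  ContDiffAt.fderiv (n := ∞) (f := fun z y => G (π z, y))
    (LZigA_comp (f := fun p : A × F => (π p.1, p.2)) hG (hπ.fst'.prodMk contDiffAt_snd) rfl) hg
    (by simp)

theorem LZigA_inv {f : A → B} {g : B → A} {x : A} {y : B} (hf : DifferentiableAt ℝ f x)
    (hg : DifferentiableAt ℝ g y) (e : f x = y) (h : ∀ᶠ z in 𝓝 x, g (f z) = z) (v : A) :
    fderiv ℝ g y (fderiv ℝ f x v) = v := by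
  subst e
  have h1 := (fderiv_comp x hg hf).symm.trans (EventuallyEq.fderiv_eq (f := id) h)
  rw [fderiv_id] at h1
  exact DFunLike.congr_fun h1 v

end

omit [FiniteDimensional ℝ F] in
theorem LZigA_tm (h : D.Ok) (s : ℝ) {x : F} (hx : x ≠ 0) :
    ContDiffAt ℝ ∞ (fun z : ℝ × F => D.tm z.1 z.2) (s, x) :=
  contDiffAt_fst.mul (LZigA_comp h.cv.smg.contDiffAt (h.bd.smφ x hx).snd' rfl)

omit [FiniteDimensional ℝ F] in
theorem LZigA_diff (h : D.Ok) (t : ℝ) {x : F} (hx : x ≠ 0) : DifferentiableAt ℝ (D.κ t) x :=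
  (LZigA_comp (f := fun z : F => (t, z)) (h.bd.smκ t x hx)
    (contDiffAt_const.prodMk contDiffAt_id) rfl).differentiableAt (by simp)

theorem LZigA_sec (D : ZD F) (r : ℝ) : D.sec 0 r = D.ς := by
  funext y
  rw [ZD.sec, ZD.Gam, zero_smul, map_zero, add_zero]

namespace ZD

theorem Ok.tm_le (h : D.Ok) {s : ℝ} (hs : s ∈ Icc (0 : ℝ) 1) (x : F) : |D.tm s x| ≤ 1 / 2 := by
  rw [tm, abs_mul, abs_of_nonneg hs.1]
  exact (mul_le_of_le_one_left (abs_nonneg _) hs.2).trans ((h.cv.bg _).trans h.hη)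

theorem Ok.y_ne (h : D.Ok) (s : ℝ) {x : F} (hx : x ≠ 0) : D.y s x ≠ 0 := h.bd.ne _ _ hx

theorem Ok.y_zero (h : D.Ok) {x : F} (hx : x ≠ 0) : D.y 0 x = x := by
  rw [y, tm, zero_mul, h.bd.zero x hx]

theorem Ok.phi_y (h : D.Ok) {s : ℝ} (hs : s ∈ Icc (0 : ℝ) 1) {x : F} (hx : x ≠ 0) :
    D.φ (D.y s x) = D.φ x + s * D.g (D.φ x) := by
  by_cases h1 : 5 < |D.φ x|
  · rw [y, tm, (h.cv.out _ h1).1, mul_zero, h.bd.zero x hx, add_zero]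
  · have h2 := h.tm_le hs x
    have h3 := abs_add_le (D.φ x) (D.tm s x)
    exact (h.bd.flow _ x hx (by linarith) (by linarith)).1

/-- Outside `[-5, 5]` the derivatives vanish too. -/
theorem Ok.deriv_out (h : D.Ok) {r : ℝ} (hr : 5 < |r|) : deriv D.g r = 0 ∧ deriv D.k r = 0 ∧
    deriv D.w r = 0 ∧ deriv D.n₁ r = 0 ∧ deriv D.n₀ r = 0 := by
  have h1 := ((isOpen_lt continuous_const continuous_abs).eventually_mem hr).mono h.cv.out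
  have h2 : ∀ {f : ℝ → ℝ}, (∀ᶠ t in 𝓝 r, f t = 0) → deriv f r = 0 := fun e =>
    (EventuallyEq.deriv_eq (f := fun _ => 0) e).trans (deriv_const _ _)
  exact ⟨h2 (h1.mono fun _ e => e.1), h2 (h1.mono fun _ e => e.2.1), h2 (h1.mono fun _ e => e.2.2.1),
    h2 (h1.mono fun _ e => e.2.2.2.1), h2 (h1.mono fun _ e => e.2.2.2.2)⟩

theorem Ok.sm_y (h : D.Ok) (s : ℝ) {x : F} (hx : x ≠ 0) :
    ContDiffAt ℝ ∞ (fun z : ℝ × F => D.y z.1 z.2) (s, x) :=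
  LZigA_comp (f := fun z : ℝ × F => (D.tm z.1 z.2, z.2)) (h.bd.smκ _ x hx)
    ((LZigA_tm h s hx).prodMk contDiffAt_snd) rfl

theorem Ok.sm_sec (h : D.Ok) (s r : ℝ) {y : F} (hy : y ≠ 0) :
    ContDiffAt ℝ ∞ (fun z : (ℝ × ℝ) × F => D.sec z.1.1 z.1.2 z.2) ((s, r), y) := by
  have R : ∀ {f : ℝ → ℝ}, ContDiff ℝ ∞ f →
      ContDiffAt ℝ ∞ (fun z : (ℝ × ℝ) × F => f z.1.2) ((s, r), y) := fun hf =>
    (hf.comp contDiff_fst.snd).contDiffAt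
  have S : ContDiffAt ℝ ∞ (fun z : (ℝ × ℝ) × F => z.1.1) ((s, r), y) := contDiffAt_fst.fst
  unfold sec Gam
  refine (h.smς y hy).snd'.add (shp.contDiff.contDiffAt.comp _ (S.smul ?_))
  exact (((((R h.cv.smk).sub (S.mul (R h.cv.smg))).smul (h.sma.fderiv y hy).snd').add
    ((R h.cv.smw).smul (sm_norm.fderiv y hy).snd')).add
    ((((h.sma y hy).snd'.mul (R h.cv.sm1)).add ((sm_norm y hy).snd'.mul (R h.cv.sm0))).smul
      (h.bd.smφ.fderiv y hy).snd')).add (h.sme y hy).snd'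

theorem Ok.sm_f (h : D.Ok) (s : ℝ) {x : F} (hx : x ≠ 0) :
    ContDiffAt ℝ ∞ (fun z : ℝ × F => D.f z.1 z.2) (s, x) :=
  (h.sm_y s hx).prodMk (LZigA_comp (f := fun z : ℝ × F => ((z.1, D.φ z.2), D.y z.1 z.2))
    (h.sm_sec s (D.φ x) (h.y_ne s hx))
    ((contDiffAt_fst.prodMk (h.bd.smφ x hx).snd').prodMk (h.sm_y s hx)) rfl)

theorem Ok.sm_M (h : D.Ok) (s : ℝ) {x : F} (hx : x ≠ 0) :
    ContDiffAt ℝ ∞ (fun z : ℝ × F => D.M z.1 z.2) (s, x) :=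
  LZigA_fd (G := fun z : (ℝ × ℝ) × F => D.sec z.1.1 z.1.2 z.2)
    (π := fun z : ℝ × F => (z.1, D.φ z.2)) (h.sm_sec s (D.φ x) (h.y_ne s hx))
    (contDiffAt_fst.prodMk (h.bd.smφ x hx).snd') (h.sm_y s hx)

theorem Ok.sm_K (h : D.Ok) (s : ℝ) {x : F} (hx : x ≠ 0) :
    ContDiffAt ℝ ∞ (fun z : ℝ × F => D.K z.1 z.2) (s, x) :=
  LZigA_fd (G := fun z : ℝ × F => D.κ z.1 z.2) (π := fun z : ℝ × F => D.tm z.1 z.2)
    (g := Prod.snd) (h.bd.smκ _ x hx) (LZigA_tm h s hx) contDiffAt_snd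

theorem Ok.sm_K' (h : D.Ok) (s : ℝ) {x : F} (hx : x ≠ 0) :
    ContDiffAt ℝ ∞ (fun z : ℝ × F => D.K' z.1 z.2) (s, x) :=
  LZigA_fd (π := fun z : ℝ × F => -D.tm z.1 z.2) (h.bd.smκ _ _ (h.y_ne s hx))
    (LZigA_tm h s hx).neg (h.sm_y s hx)

theorem Ok.y_smul (h : D.Ok) (s : ℝ) {ρ : ℝ} (hρ : 0 < ρ) {x : F} (hx : x ≠ 0) :
    D.y s (ρ • x) = ρ • D.y s x := by
  rw [y, y, tm, tm, h.bd.hφ ρ hρ x hx, h.bd.hκ _ ρ hρ x hx]

theorem Ok.sec_smul (h : D.Ok) (s r : ℝ) {ρ : ℝ} (hρ : 0 < ρ) {y : F} (hy : y ≠ 0) :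
    D.sec s r (ρ • y) = D.sec s r y := by
  have e : (ρ * D.a y * D.n₁ r + ρ * ‖y‖ * D.n₀ r) * ρ⁻¹ = D.a y * D.n₁ r + ‖y‖ * D.n₀ r := by
    field_simp
  rw [sec, sec, Gam, Gam, h.hς ρ hρ y hy, h.he ρ hρ y hy, h.ha.h0_fderiv h.sma ρ hρ y hy,
    h1_norm.h0_fderiv sm_norm ρ hρ y hy, h.bd.hφ.fderiv_smul h.bd.smφ hρ hy, h.ha ρ hρ y hy,
    norm_smul, Real.norm_of_nonneg hρ.le, smul_smul _ ρ⁻¹, smul_eq_mul, e]

theorem Ok.f_smul (h : D.Ok) (s : ℝ) {ρ : ℝ} (hρ : 0 < ρ) {x : F} (hx : x ≠ 0) :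
    D.f s (ρ • x) = (ρ • (D.f s x).1, (D.f s x).2) := by
  rw [f, f, h.y_smul s hρ hx, h.bd.hφ ρ hρ x hx, h.sec_smul _ _ hρ (h.y_ne s hx)]

theorem Ok.f_zero (h : D.Ok) {x : F} (hx : x ≠ 0) : D.f 0 x = (x, D.ς x) := by
  rw [f, h.y_zero hx, LZigA_sec]

theorem Ok.K'_K (h : D.Ok) (s : ℝ) {x : F} (hx : x ≠ 0) (v : F) : D.K' s x (D.K s x v) = v :=
  LZigA_inv (LZigA_diff h _ hx) (LZigA_diff h _ (h.y_ne s hx)) rfl
    ((eventually_ne_zero hx).mono (h.bd.inv _)) v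

theorem Ok.K_K' (h : D.Ok) (s : ℝ) {x : F} (hx : x ≠ 0) (v : F) : D.K s x (D.K' s x v) = v :=
  LZigA_inv (LZigA_diff h _ (h.y_ne s hx)) (LZigA_diff h _ hx) (h.bd.inv _ x hx)
    ((eventually_ne_zero (h.y_ne s hx)).mono fun z hz => by
      simpa only [neg_neg] using h.bd.inv (-D.tm s x) z hz) v

theorem Ok.K_zero (h : D.Ok) {x : F} (hx : x ≠ 0) : D.K 0 x = ContinuousLinearMap.id ℝ F ∧
    D.K' 0 x = ContinuousLinearMap.id ℝ F ∧ D.M 0 x = fderiv ℝ D.ς x := by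
  have e : fderiv ℝ (D.κ 0) x = ContinuousLinearMap.id ℝ F :=
    (EventuallyEq.fderiv_eq (f := id) ((eventually_ne_zero hx).mono h.bd.zero)).trans fderiv_id
  rw [K, K', M, h.y_zero hx, LZigA_sec, tm, zero_mul, neg_zero]
  exact ⟨e, e, rfl⟩

theorem Ok.small (h : D.Ok) {ε : ℝ} (hC : 0 ≤ D.C) {y : F} (hy : y ≠ 0)
    (h1 : ‖fderiv ℝ D.a y‖ ≤ D.C) (h2 : ‖y‖ * ‖fderiv ℝ D.φ y‖ ≤ D.C) (he : ‖D.e y‖ ≤ ε)
    {s : ℝ} (hs : s ∈ Icc (0 : ℝ) 1) (r : ℝ) :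
    ‖D.Gam s r y‖ ≤ (2 * D.C + 1 + (D.C + 1) * D.C) * D.η + ε := by
  have h0 := (abs_nonneg _).trans (h.cv.bg r)
  have b1 : ‖D.k r - s * D.g r‖ ≤ 2 * D.η := by
    have h3 := abs_sub (D.k r) (s * D.g r)
    rw [abs_mul, abs_of_nonneg hs.1] at h3
    have h4 := mul_le_of_le_one_left (abs_nonneg (D.g r)) hs.2
    rw [Real.norm_eq_abs]
    linarith [h.cv.bk r, h.cv.bg r]
  have b2 : ‖D.a y * D.n₁ r + ‖y‖ * D.n₀ r‖ ≤ (D.C + 1) * D.η * ‖y‖ := by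
    have h3 := abs_add_le (D.a y * D.n₁ r) (‖y‖ * D.n₀ r)
    rw [abs_mul, abs_mul, abs_norm] at h3
    have h4 := mul_le_mul (h.ba y hy) (h.cv.b1 r) (abs_nonneg _) (by positivity)
    have h5 := mul_le_mul_of_nonneg_left (h.cv.b0 r) (norm_nonneg y)
    rw [Real.norm_eq_abs]
    linarith
  have c1 := (ContinuousLinearMap.opNorm_smul_le _ _).trans
    (mul_le_mul b1 h1 (norm_nonneg _) (by positivity))
  have c2 := (ContinuousLinearMap.opNorm_smul_le (D.w r) _).trans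
    (mul_le_mul (h.cv.bw r) (norm_fderiv_norm_le hy) (norm_nonneg _) h0)
  have c3 := (ContinuousLinearMap.opNorm_smul_le _ (fderiv ℝ D.φ y)).trans
    (mul_le_mul_of_nonneg_right b2 (norm_nonneg _))
  have c4 := mul_le_mul_of_nonneg_left h2 (by positivity : 0 ≤ (D.C + 1) * D.η)
  refine (ContinuousLinearMap.opNorm_smul_le _ _).trans ?_
  rw [Real.norm_of_nonneg hs.1]
  refine (mul_le_of_le_one_left (norm_nonneg _) hs.2).trans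
    ((norm_add_le_of_le (norm_add_le_of_le (norm_add_le_of_le c1 c2) c3) he).trans ?_)
  linarith

end ZD

end Pool.Agent.Lib.MP_ccffa6_gt.ELI
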