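import Pool.Agent.Lib.MP_ccffa6_gt.ELI.LZigA
import Pool.Agent.Lib.MP_ccffa6_gt.ELI.Form

/-!
The zigzag is embedded, and Lagrangian at the end.
-/

open Set Filter Topology
open scoped ContDiff RealInnerProductSpace

noncomputable section

namespace Pool.Agent.Lib.MP_ccffa6_gt.ELI

variable {F : Type} [NormedAddCommGroup F] [InnerProductSpace ℝ F] [FiniteDimensional ℝ F]
  {D : ZD F}

section abstr

omit [FiniteDimensional ℝ F]

theorem LZigB_slice {Y : Type} [NormedAddCommGroup Y] [NormedSpace ℝ Y] {f : ℝ → F → Y} {s : ℝ}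
    {x : F} (hf : ContDiffAt ℝ ∞ (fun z : ℝ × F => f z.1 z.2) (s, x)) : ContDiffAt ℝ ∞ (f s) x :=
  hf.comp x (f := fun x : F => (s, x)) (by fun_prop)

theorem LZigB_gen {φ a N z : F → ℝ} {Y : F → F} {k g w : ℝ → ℝ} {x : F}
    (hφ : DifferentiableAt ℝ φ x) (hY : DifferentiableAt ℝ Y x) (hk : DifferentiableAt ℝ k (φ x))
    (hg : DifferentiableAt ℝ g (φ x)) (hw : DifferentiableAt ℝ w (φ x))
    (ha : DifferentiableAt ℝ a (Y x)) (hN : DifferentiableAt ℝ N (Y x))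
    (hz : DifferentiableAt ℝ z (Y x)) (v : F) :
    fderiv ℝ (fun x => (k (φ x) - g (φ x)) * a (Y x) + w (φ x) * N (Y x) + z (Y x)) x v =
      (k (φ x) - g (φ x)) * fderiv ℝ a (Y x) (fderiv ℝ Y x v) +
        a (Y x) * ((deriv k (φ x) - deriv g (φ x)) * fderiv ℝ φ x v) +
        (w (φ x) * fderiv ℝ N (Y x) (fderiv ℝ Y x v) +
          N (Y x) * (deriv w (φ x) * fderiv ℝ φ x v)) + fderiv ℝ z (Y x) (fderiv ℝ Y x v) := by
  have k1 := hk.hasDerivAt.comp_hasFDerivAt x hφ.hasFDerivAt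
  have g1 := hg.hasDerivAt.comp_hasFDerivAt x hφ.hasFDerivAt
  have w1 := hw.hasDerivAt.comp_hasFDerivAt x hφ.hasFDerivAt
  have a1 := ha.hasFDerivAt.comp x hY.hasFDerivAt
  have N1 := hN.hasFDerivAt.comp x hY.hasFDerivAt
  have z1 := hz.hasFDerivAt.comp x hY.hasFDerivAt
  have t := (((k1.fun_sub g1).fun_mul a1).fun_add (w1.fun_mul N1)).fun_add z1
  have t' : fderiv ℝ (fun x => (k (φ x) - g (φ x)) * a (Y x) + w (φ x) * N (Y x) + z (Y x)) x =
      _ := t.fderiv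
  rw [t']
  simp only [add_apply, smul_apply, sub_apply, smul_eq_mul, Function.comp,
    ContinuousLinearMap.comp_apply]
  ring

theorem LZigB_chain {φ : F → ℝ} {Y : F → F} {g : ℝ → ℝ} {x : F}
    (hφ : DifferentiableAt ℝ φ x) (hY : DifferentiableAt ℝ Y x)
    (hg : DifferentiableAt ℝ g (φ x)) (hφ' : DifferentiableAt ℝ φ (Y x))
    (e : ∀ᶠ x' in 𝓝 x, φ (Y x') = φ x' + g (φ x')) (v : F) :
    fderiv ℝ φ (Y x) (fderiv ℝ Y x v) = (1 + deriv g (φ x)) * fderiv ℝ φ x v := by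
  have g1 := hg.hasDerivAt.comp_hasFDerivAt x hφ.hasFDerivAt
  have a1 := hφ'.hasFDerivAt.comp x hY.hasFDerivAt
  have t := (hφ.hasFDerivAt.fun_add g1).congr_of_eventuallyEq (f₁ := φ ∘ Y) e
  have u := congrArg (fun L : F →L[ℝ] ℝ => L v) (a1.unique t)
  simp only [add_apply, smul_apply, smul_eq_mul, ContinuousLinearMap.comp_apply] at u
  rw [u]
  ring

theorem LZigB_smZ {φ a N z : F → ℝ} {Y : F → F} {k g w : ℝ → ℝ} {x : F}
    (hφ : ContDiffAt ℝ ∞ φ x) (hY : ContDiffAt ℝ ∞ Y x) (hk : ContDiff ℝ ∞ k)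
    (hg : ContDiff ℝ ∞ g) (hw : ContDiff ℝ ∞ w) (ha : ContDiffAt ℝ ∞ a (Y x))
    (hN : ContDiffAt ℝ ∞ N (Y x)) (hz : ContDiffAt ℝ ∞ z (Y x)) :
    ContDiffAt ℝ ∞ (fun x => (k (φ x) - g (φ x)) * a (Y x) + w (φ x) * N (Y x) + z (Y x)) x :=
  ((((hk.contDiffAt.comp x hφ).sub (hg.contDiffAt.comp x hφ)).mul (ha.comp x hY)).add
    ((hw.contDiffAt.comp x hφ).mul (hN.comp x hY))).add (hz.comp x hY)

/-- The tautological form, as a linear map. -/
def LZigB_mu (F : Type) [NormedAddCommGroup F] [InnerProductSpace ℝ F] : Bil (F × F) :=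
  (innerSL ℝ : F →L[ℝ] F →L[ℝ] ℝ).bilinearComp (ContinuousLinearMap.snd ℝ F F)
    (ContinuousLinearMap.fst ℝ F F)

theorem LZigB_mu_apply (u v : F × F) : LZigB_mu F u v = ⟪u.2, v.1⟫ := by simp [LZigB_mu]

theorem LZigB_lag {f : F → F × F} {Y P : F → F} {Z : F → ℝ} {x : F} (hf : ∀ x, f x = (Y x, P x))
    (sf : ContDiffAt ℝ ∞ f x) (sZ : ContDiffAt ℝ ∞ Z x)
    (e : ∀ᶠ x' in 𝓝 x, ∀ v, ⟪P x', fderiv ℝ Y x' v⟫ = fderiv ℝ Z x' v) (v v' : F) :
    om0 F (fderiv ℝ f x v) (fderiv ℝ f x v') = 0 := by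
  have hY : Y = fun x => (f x).1 := funext fun x => by rw [hf]
  have d1 := dF_pb (α := fun y => LZigB_mu F y) sf (LZigB_mu F).differentiableAt
  have d2 : pb f (fun y => LZigB_mu F y) =ᶠ[𝓝 x] fderiv ℝ Z := by
    filter_upwards [e, (sf.of_le (m := 1) (by simp)).eventually (by simp)] with x' e' s'
    ext u
    have d := s'.differentiableAt (by simp)
    rw [← e' u, hY, d.hasFDerivAt.fst.fderiv]
    simp only [pb, ContinuousLinearMap.comp_apply, LZigB_mu_apply, hf x',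
      ContinuousLinearMap.coe_fst']
  rw [dF_congr d2, dF_fderiv sZ] at d1
  have d3 := congrArg (fun B : Bil F => B v' v) d1
  simp only [pbB_apply, dF_apply, ContinuousLinearMap.fderiv, LZigB_mu_apply, zero_apply] at d3
  rw [om0_apply, real_inner_comm]
  exact d3.symm

end abstr

namespace ZD

theorem LZigB_sec (D : ZD F) (s r : ℝ) (y v : F) : ⟪D.sec s r y, v⟫ = ⟪D.ς y, v⟫ +
    s * ((D.k r - s * D.g r) * fderiv ℝ D.a y v + D.w r * fderiv ℝ (fun x : F => ‖x‖) y v +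
      (D.a y * D.n₁ r + ‖y‖ * D.n₀ r) * fderiv ℝ D.φ y v + D.e y v) := by
  simp only [ZD.sec, inner_add_left, inner_shp, ZD.Gam, smul_apply, add_apply, smul_eq_mul]

theorem LZigB_pair (h : D.Ok) (s r : ℝ) {y : F} (hy : y ≠ 0) : ⟪D.sec s r y, y⟫ = ⟪D.ς y, y⟫ +
    s * ((D.k r - s * D.g r) * D.a y + D.w r * ‖y‖ + D.e y y) := by
  rw [LZigB_sec, h.ha.euler h.sma hy, h1_norm.euler sm_norm hy, h.bd.hφ.euler h.bd.smφ hy]
  ring

/-- Sketch. With `y = D.y s x = D.y s x'`, `r = φ x`, `r' = φ x'`: `phi_y` gives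
`r + s g r = r' + s g r'`. Pair the momenta with `y` (`inner_shp`, Euler for `a`, `‖·‖`, `φ`):
`s (a y (k r - s g r) + ‖y‖ w r)` is the same for `r` and `r'`. For `s ≠ 0`, `Crv.inj` with
`a y / ‖y‖` forces `r = r'`; then the times agree and `Band.inv` gives `x = x'`. -/
theorem Ok.f_inj (h : D.Ok) {s : ℝ} (hs : s ∈ Icc (0 : ℝ) 1) {x x' : F} (hx : x ≠ 0)
    (hx' : x' ≠ 0) (e : D.f s x = D.f s x') : x = x' := by
  rcases eq_or_ne s 0 with rfl | s0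
  · have e1 : D.y 0 x = D.y 0 x' := congrArg Prod.fst e
    rwa [h.y_zero hx, h.y_zero hx'] at e1
  have e1 : D.y s x = D.y s x' := congrArg Prod.fst e
  have e2 : D.sec s (D.φ x) (D.y s x) = D.sec s (D.φ x') (D.y s x') := congrArg Prod.snd e
  have hy := h.y_ne s hx
  have p1 := h.phi_y hs hx
  have p2 := h.phi_y hs hx'
  rw [← e1] at e2 p2
  have e3 := LZigB_pair h s (D.φ x) hy
  rw [e2, LZigB_pair h s (D.φ x') hy] at e3
  have e4 := mul_left_cancel₀ s0 (add_left_cancel e3)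
  have hn : 0 < ‖D.y s x‖ := norm_pos_iff.2 hy
  have ha : |D.a (D.y s x) / ‖D.y s x‖| ≤ D.C := by
    rw [abs_div, abs_of_pos hn, div_le_iff₀ hn]
    exact h.ba _ hy
  have hr : D.φ x = D.φ x' := by
    have key : D.a (D.y s x) / ‖D.y s x‖ * ((D.k (D.φ x') + D.φ x') - (D.k (D.φ x) + D.φ x)) +
        (D.w (D.φ x') - D.w (D.φ x)) = 0 := by
      have e5 : D.φ x' - D.φ x = s * D.g (D.φ x) - s * D.g (D.φ x') := by linarith
      field_simp
      linear_combination e4 + D.a (D.y s x) * e5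
    rcases lt_trichotomy (D.φ x) (D.φ x') with lt | eq | lt
    · exact absurd key (h.cv.inj _ ha s hs _ _ lt (by linarith))
    · exact eq
    · refine absurd ?_ (h.cv.inj _ ha s hs _ _ lt (by linarith))
      linear_combination -key
  have ht : D.tm s x = D.tm s x' := by simp only [ZD.tm, hr]
  have i1 := h.bd.inv (D.tm s x) x hx
  have i2 := h.bd.inv (D.tm s x') x' hx'
  have e6 : D.κ (D.tm s x) x = D.κ (D.tm s x') x' := e1
  rw [e6, ht, i2] at i1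
  exact i1.symm

/-- Apply `f_inj` to `‖y s q‖⁻¹ • q` and `‖y s q'‖⁻¹ • q'`. -/
theorem Ok.emb (h : D.Ok) {s : ℝ} (hs : s ∈ Icc (0 : ℝ) 1) {q q' : F} (hq : ‖q‖ = 1)
    (hq' : ‖q'‖ = 1) (e : nz (1 : F →L[ℝ] F) (D.f s q) = nz (1 : F →L[ℝ] F) (D.f s q')) :
    q = q' := by
  have q0 : q ≠ 0 := by
    rintro rfl
    simp at hq
  have q0' : q' ≠ 0 := by
    rintro rfl
    simp at hq'
  have r1 : 0 < ‖(D.f s q).1‖⁻¹ := inv_pos.2 (norm_pos_iff.2 (h.y_ne s q0))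
  have r2 : 0 < ‖(D.f s q').1‖⁻¹ := inv_pos.2 (norm_pos_iff.2 (h.y_ne s q0'))
  rw [nz_one_apply, nz_one_apply, ← h.f_smul s r1 q0, ← h.f_smul s r2 q0'] at e
  have e1 := h.f_inj hs (smul_ne_zero r1.ne' q0) (smul_ne_zero r2.ne' q0') e
  have e2 := congrArg norm e1
  rw [norm_smul, norm_smul, hq, hq', mul_one, mul_one, Real.norm_of_nonneg r1.le,
    Real.norm_of_nonneg r2.le] at e2
  rw [← e2] at e1
  exact smul_right_injective F r1.ne' e1

theorem LZigB_smy (h : D.Ok) {s : ℝ} {x : F} (hx : x ≠ 0) : ContDiffAt ℝ ∞ (D.y s) x :=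
  LZigB_slice (h.sm_y s hx)

theorem LZigB_smf (h : D.Ok) {s : ℝ} {x : F} (hx : x ≠ 0) : ContDiffAt ℝ ∞ (D.f s) x :=
  LZigB_slice (h.sm_f s hx)

/-- Generating function at `s = 1`. Sketch: `d (φ ∘ y) = (1 + g') dφ` by `phi_y`; the difference
of the two sides is `(a y (n₁ (1 + g') - 1 - k') + ‖y‖ (n₀ (1 + g') - w')) dφ x v`, and
`a y ≠ 0` gives `|φ y| ≤ 3`, `|φ x| < 4`. -/
theorem Ok.exact (h : D.Ok) {x : F} (hx : x ≠ 0) (v : F) :
    ⟪(D.f 1 x).2, fderiv ℝ (D.y 1) x v⟫ =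
      fderiv ℝ (fun x => (D.k (D.φ x) - D.g (D.φ x)) * D.a (D.y 1 x) +
        D.w (D.φ x) * ‖D.y 1 x‖ + D.z (D.y 1 x)) x v := by
  have hy := h.y_ne 1 hx
  have h1 : (1 : ℝ) ∈ Icc (0 : ℝ) 1 := ⟨zero_le_one, le_rfl⟩
  have dY : DifferentiableAt ℝ (D.y 1) x := (LZigB_smy h hx).differentiableAt (by simp)
  have dg : Differentiable ℝ D.g := h.cv.smg.differentiable (by simp)
  have dk : Differentiable ℝ D.k := h.cv.smk.differentiable (by simp)
  have dw : Differentiable ℝ D.w := h.cv.smw.differentiable (by simp)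
  have e1 := LZigB_gen (h.bd.smφ.diff hx) dY (dk _) (dg _) (dw _) (h.sma.diff hy)
    (sm_norm.diff hy) (h.smz.diff hy) v
  have e2 := LZigB_chain (h.bd.smφ.diff hx) dY (dg _) (h.bd.smφ.diff hy)
    ((eventually_ne_zero hx).mono fun x' hx' => by simpa using h.phi_y h1 hx') v
  have e3 := LZigB_sec D 1 (D.φ x) (D.y 1 x) (fderiv ℝ (D.y 1) x v)
  have e4 := h.red _ hy (fderiv ℝ (D.y 1) x v)
  have e5 := h.cv.dw (D.φ x)
  have e6 : D.a (D.y 1 x) * (1 + deriv D.k (D.φ x)) =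
      D.a (D.y 1 x) * (D.n₁ (D.φ x) * (1 + deriv D.g (D.φ x))) := by
    rcases eq_or_ne (D.a (D.y 1 x)) 0 with a0 | a0
    · rw [a0, zero_mul, zero_mul]
    · have b1 := abs_le.1 (h.supp _ hy a0)
      have b2 := abs_le.1 ((h.cv.bg (D.φ x)).trans h.hη)
      rw [h.phi_y h1 hx] at b1
      rw [h.cv.dk _ (abs_lt.2 ⟨by linarith [b1.1, b2.2], by linarith [b1.2, b2.1]⟩)]
  show ⟪D.sec 1 (D.φ x) (D.y 1 x), fderiv ℝ (D.y 1) x v⟫ = _
  rw [e1, e3]
  rw [e2] at e4 ⊢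
  rw [e5]
  linear_combination e4 - fderiv ℝ D.φ x v * e6

/-- Sketch: `μ y = -(innerSL y.2) ∘ fst` has `dF μ = om0`; `pb (f 1) μ = -dZ` near `x`; use
`dF_pb`, `dF_congr`, `dF_fderiv`. -/
theorem Ok.lag (h : D.Ok) {x : F} (hx : x ≠ 0) (v v' : F) :
    om0 F (fderiv ℝ (D.f 1) x v) (fderiv ℝ (D.f 1) x v') = 0 := by
  have hy := h.y_ne 1 hx
  refine LZigB_lag (Y := D.y 1) (P := fun x => (D.f 1 x).2)
    (Z := fun x => (D.k (D.φ x) - D.g (D.φ x)) * D.a (D.y 1 x) +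
        D.w (D.φ x) * ‖D.y 1 x‖ + D.z (D.y 1 x)) (f := D.f 1) (fun _ => rfl)
    (LZigB_smf h hx) ?_ ((eventually_ne_zero hx).mono fun x' hx' => h.exact hx') v v'
  exact LZigB_smZ (h.bd.smφ x hx) (LZigB_smy h hx) h.cv.smk h.cv.smg h.cv.smw (h.sma _ hy)
    (sm_norm _ hy) (h.smz _ hy)

end ZD

end Pool.Agent.Lib.MP_ccffa6_gt.ELI
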