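import Pool.Agent.Lib.MP_ccffa6_gt.ELI.LZigA

/-!
The derivative of the zigzag.
-/

open Set Filter Topology
open scoped ContDiff RealInnerProductSpace

noncomputable section

namespace Pool.Agent.Lib.MP_ccffa6_gt.ELI

variable {F : Type} [NormedAddCommGroup F] [InnerProductSpace ℝ F] [FiniteDimensional ℝ F]
  {D : ZD F}

namespace ZD

omit [FiniteDimensional ℝ F] in
theorem LZigC_chain {Y : Type} [NormedAddCommGroup Y] [NormedSpace ℝ Y] {H : ℝ → F → Y}
    {τ : F → ℝ} {p : F → F} {x : F} {τ' : F →L[ℝ] ℝ} {p' : F →L[ℝ] F} {a : Y}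
    (hH : DifferentiableAt ℝ (fun z : ℝ × F => H z.1 z.2) (τ x, p x)) (hτ : HasFDerivAt τ τ' x)
    (hp : HasFDerivAt p p' x) (ha : HasDerivAt (fun t => H t (p x)) a (τ x)) :
    HasFDerivAt (fun x' => H (τ x') (p x'))
      (τ'.smulRight a + (fderiv ℝ (H (τ x)) (p x)).comp p') x := by
  obtain ⟨L, hL⟩ := hH
  have h1 : HasFDerivAt (fun x' => H (τ x') (p x')) (L.comp (τ'.prod p')) x :=
    HasFDerivAt.comp (f := fun x' => (τ x', p x')) x hL (hτ.prodMk hp)
  have h2 : HasDerivAt (fun t => H t (p x)) (L (1, 0)) (τ x) :=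
    HasFDerivAt.comp_hasDerivAt (f := fun t => (t, p x)) (τ x) hL
      ((hasDerivAt_id (τ x)).prodMk (hasDerivAt_const (τ x) (p x)))
  have h3 : HasFDerivAt (H (τ x)) (L.comp (ContinuousLinearMap.inr ℝ ℝ F)) (p x) :=
    hL.comp (p x) (hasFDerivAt_prodMk_right (τ x) (p x))
  rw [h3.fderiv, ha.unique h2]
  refine h1.congr_fderiv (ContinuousLinearMap.ext fun v => ?_)
  change L (τ' v, p' v) = τ' v • L (1, 0) + L (0, p' v)
  rw [← map_smul, ← map_add]
  simp

theorem LZigC_sec (h : D.Ok) (s r : ℝ) (y : F) : HasDerivAt (fun t => D.sec s t y)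
    (shp (D.al1 s r • fderiv ℝ D.a y + D.al0 s r • fderiv ℝ (fun x : F => ‖x‖) y +
      D.be s r y • fderiv ℝ D.φ y)) r := by
  have d : ∀ {g : ℝ → ℝ}, ContDiff ℝ ∞ g → HasDerivAt g (deriv g r) r := fun hg =>
    (hg.differentiable (by simp) r).hasDerivAt
  have h1 : HasDerivAt (fun t => D.Gam s t y) _ r :=
    ((((((d h.cv.smk).sub ((d h.cv.smg).const_mul s)).smul_const (fderiv ℝ D.a y)).add
      ((d h.cv.smw).smul_const (fderiv ℝ (fun x : F => ‖x‖) y))).add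
      ((((d h.cv.sm1).const_mul (D.a y)).add ((d h.cv.sm0).const_mul ‖y‖)).smul_const
        (fderiv ℝ D.φ y))).add_const (D.e y)).const_smul s
  have h2 := (shp.hasFDerivAt.comp_hasDerivAt r h1).const_add (D.ς y)
  refine h2.congr_deriv ?_
  simp only [al1, al0, be, smul_add, mul_smul]

theorem LZigC_lam (h : D.Ok) {s : ℝ} (hs : s ∈ Icc (0 : ℝ) 1) {x : F} (hx : x ≠ 0)
    (h5 : |D.φ x| ≤ 5) : D.lam (D.y s x) = fderiv ℝ D.φ (D.y s x) ∧
      ∀ v, D.lam (D.y s x) (D.K s x v) = fderiv ℝ D.φ x v := by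
  have ht := h.tm_le hs x
  have ab : ∀ r : ℝ, |r| < 6 → |r| < 8 ∧ |r + D.tm s x| < 8 := fun r hr =>
    ⟨by linarith, (abs_add_le _ _).trans_lt (by linarith)⟩
  have e1 : D.lam (D.y s x) = fderiv ℝ D.φ (D.y s x) := h.bd.band _ (h.y_ne s hx) (by
    rw [h.phi_y hs hx]
    exact (ab _ (by linarith)).2)
  refine ⟨e1, fun v => ?_⟩
  have dκ : DifferentiableAt ℝ (D.κ (D.tm s x)) x :=
    ((h.bd.smκ (D.tm s x) x hx).differentiableAt (by simp)).comp x
      (hasFDerivAt_prodMk_right (D.tm s x) x).differentiableAt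
  have c1 : HasFDerivAt (fun x' => D.φ (D.κ (D.tm s x) x'))
      ((fderiv ℝ D.φ (D.y s x)).comp (D.K s x)) x :=
    HasFDerivAt.comp (f := D.κ (D.tm s x)) x (h.bd.smφ.diff (h.y_ne s hx)).hasFDerivAt
      dκ.hasFDerivAt
  have ev : ∀ᶠ x' in 𝓝 x, |D.φ x'| < 6 :=
    (h.bd.smφ.diff hx).continuousAt.abs.eventually_lt continuousAt_const (by linarith)
  have c2 : HasFDerivAt (fun x' => D.φ (D.κ (D.tm s x) x')) (fderiv ℝ D.φ x) x := by
    refine ((h.bd.smφ.diff hx).hasFDerivAt.add_const (D.tm s x)).congr_of_eventuallyEq ?_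
    filter_upwards [ev, eventually_ne_zero hx] with x' h1 h2
    exact (h.bd.flow _ x' h2 (ab _ h1).1 (ab _ h1).2).1
  rw [e1, ← c1.unique c2]
  rfl



theorem Ok.fderiv_f (h : D.Ok) {s : ℝ} (hs : s ∈ Icc (0 : ℝ) 1) {x : F} (hx : x ≠ 0) (v : F) :
    fderiv ℝ (D.f s) x v = shr (D.M s x)
      (D.K s x v + ((D.X s (D.φ x) - 1) * D.lam (D.y s x) (D.K s x v)) • D.u (D.y s x),
        D.lam (D.y s x) (D.K s x v) • shp (D.gam s (D.φ x) (D.y s x))) := by
  have dφ := (h.bd.smφ.diff hx).hasFDerivAt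
  have dκ := (h.bd.smκ (D.tm s x) x hx).differentiableAt (by simp)
  have dt : HasFDerivAt (D.tm s) (s • deriv D.g (D.φ x) • fderiv ℝ D.φ x) x :=
    ((h.cv.smg.differentiable (by simp) _).hasDerivAt.comp_hasFDerivAt x dφ).const_mul s
  have da : DifferentiableAt ℝ (fun t => D.κ t x) (D.tm s x) :=
    DifferentiableAt.comp (f := fun t => (t, x)) (D.tm s x) dκ (by fun_prop)
  have dy : HasFDerivAt (D.y s) (_ + (D.K s x).comp _) x :=
    LZigC_chain (H := D.κ) (p := fun x => x) dκ dt (hasFDerivAt_id x) da.hasDerivAt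
  have ds : DifferentiableAt ℝ (fun z : ℝ × F => D.sec s z.1 z.2) (D.φ x, D.y s x) :=
    DifferentiableAt.comp (g := fun z : (ℝ × ℝ) × F => D.sec z.1.1 z.1.2 z.2)
      (f := fun z : ℝ × F => ((s, z.1), z.2)) _
      ((h.sm_sec s (D.φ x) (h.y_ne s hx)).differentiableAt (by simp)) (by fun_prop)
  have dσ : HasFDerivAt (fun x' => D.sec s (D.φ x') (D.y s x')) (_ + (D.M s x).comp _) x :=
    LZigC_chain (H := D.sec s) ds dφ dy (LZigC_sec h s (D.φ x) (D.y s x))
  have df : HasFDerivAt (D.f s) _ x := dy.prodMk dσ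
  rw [df.fderiv, shr_apply]
  simp only [ContinuousLinearMap.prod_apply, add_apply, ContinuousLinearMap.smulRight_apply,
    ContinuousLinearMap.comp_apply, ContinuousLinearMap.id_apply, smul_apply, smul_eq_mul, X,
    add_sub_cancel_left]
  rcases le_or_gt |D.φ x| 5 with h5 | h5
  · obtain ⟨e1, e2⟩ := LZigC_lam h hs hx h5
    have ht := h.tm_le hs x
    have e3 : deriv (fun t => D.κ t x) (D.tm s x) = D.u (D.y s x) := (h.bd.flow _ x hx
      (by linarith) ((abs_add_le _ _).trans_lt (by linarith))).2.deriv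
    rw [e2, e3, gam, e1, mul_assoc, add_comm (D.K s x v)]
  · obtain ⟨a1, a2, a3, a4, a5⟩ := h.deriv_out h5
    simp [gam, al1, al0, be, a1, a2, a3, a4, a5]

end ZD

end Pool.Agent.Lib.MP_ccffa6_gt.ELI
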