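import Pool.Agent.Lib.MP_ccffa6_gt.ELI.LZigA
import Pool.Agent.Lib.MP_ccffa6_gt.ELI.LLift

/-!
The vectors along which frames are transported.
-/

open Set Filter Topology
open scoped ContDiff RealInnerProductSpace

noncomputable section

namespace Pool.Agent.Lib.MP_ccffa6_gt.ELI

variable {F : Type} [NormedAddCommGroup F] [InnerProductSpace ℝ F] [FiniteDimensional ℝ F]
  {D : ZD F}

namespace ZD

omit [FiniteDimensional ℝ F] in
theorem Kc_sub (D : ZD F) : D.Kc ⊆ U F := by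
  refine Set.prod_mono Subset.rfl fun x hx => ?_
  exact norm_ne_zero_iff.1 (hx.1.trans_ne one_ne_zero)

/-- The normalising factor is positive. -/
theorem Ok.NN_pos (h : D.Ok) {s : ℝ} (hs : s ∈ Icc (0 : ℝ) 1) (r : ℝ) {y : F} (hy : y ≠ 0) :
    0 < D.NN s r y := by
  have h1 : 0 ≤ (1 - s) * D.mm s r y ^ 2 := mul_nonneg (sub_nonneg.2 hs.2) (sq_nonneg _)
  have h2 := sq_nonneg (D.cc s r y)
  have h3 := sq_nonneg (D.X s r)
  have hn : 0 < ‖y‖ := norm_pos_iff.2 hy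
  unfold NN
  by_cases hX : D.X s r = 0
  swap
  · have := sq_pos_of_ne_zero hX
    linarith
  have hX' : 1 + s * deriv D.g r = 0 := hX
  obtain ⟨i1, i2⟩ := h.cv.imm (D.a y / ‖y‖) (by
    rw [abs_div, abs_norm, div_le_iff₀ hn]; exact h.ba y hy) s hs r hX'
  rcases hs.2.lt_or_eq with hs1 | rfl
  · have h0 : s ≠ 0 := by
      rintro rfl
      simp at hX'
    have e : D.mm s r y = s * ‖y‖ * (D.a y / ‖y‖ * (1 + deriv D.k r) + deriv D.w r) := by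
      unfold mm al1 al0
      field_simp
      linear_combination (-D.a y) * hX'
    have := mul_pos (sub_pos.2 hs1) (sq_pos_of_ne_zero
      (e ▸ mul_ne_zero (mul_ne_zero h0 hn.ne') (i1 hs1) : D.mm s r y ≠ 0))
    linarith
  · obtain ⟨j1, j2⟩ := i2 rfl
    have e1 : D.al1 1 r = 0 := by
      unfold al1
      linear_combination j1 - hX'
    have e0 : D.al0 1 r = 0 := by
      unfold al0
      rw [h.cv.dw]
      linear_combination D.n₀ r * hX'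
    have e : D.cc 1 r y = ‖y‖ * (D.a y / ‖y‖ * deriv D.n₁ r + deriv D.n₀ r) := by
      unfold cc be
      rw [e1, e0]
      field_simp
      ring
    have := sq_pos_of_ne_zero (e ▸ mul_ne_zero hn.ne' j2 : D.cc 1 r y ≠ 0)
    linarith

theorem Ok.LZigD_y (h : D.Ok) (r : ℝ) {p : ℝ × F} (hp : p ∈ U F) :
    ContDiffAt ℝ ∞ (fun z : ℝ × (ℝ × F) => D.y z.2.1 z.2.2) (r, p) :=
  ContDiffAt.comp (g := fun z : ℝ × F => D.y z.1 z.2) (r, p) (h.sm_y p.1 hp.2) contDiffAt_snd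

section

variable {Z : Type} [NormedAddCommGroup Z] [NormedSpace ℝ Z] {s r : Z → ℝ} {y : Z → F} {z : Z}

omit [FiniteDimensional ℝ F] in
theorem Ok.LZigD_sm (h : D.Ok) (hs : ContDiffAt ℝ ∞ s z) (hr : ContDiffAt ℝ ∞ r z)
    (hy : ContDiffAt ℝ ∞ y z) (h0 : y z ≠ 0) :
    ContDiffAt ℝ ∞ (fun z => D.X (s z) (r z)) z ∧ ContDiffAt ℝ ∞ (fun z => D.u (y z)) z ∧
      ContDiffAt ℝ ∞ (fun z => D.lam (y z)) z ∧
      ContDiffAt ℝ ∞ (fun z => D.cc (s z) (r z) (y z)) z ∧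
      ContDiffAt ℝ ∞ (fun z => D.mm (s z) (r z) (y z)) z ∧
      ContDiffAt ℝ ∞ (fun z => D.gam (s z) (r z) (y z)) z := by
  have d : ∀ {f : ℝ → ℝ}, ContDiff ℝ ∞ f → ContDiffAt ℝ ∞ (fun z => deriv f (r z)) z :=
    fun hf => (contDiff_infty_iff_deriv.1 hf).2.contDiffAt.comp z hr
  have u : ContDiffAt ℝ ∞ (fun z => D.u (y z)) z := (h.bd.smu _ h0).comp z hy
  have l : ContDiffAt ℝ ∞ (fun z => D.lam (y z)) z := (h.bd.sml _ h0).comp z hy
  have a : ContDiffAt ℝ ∞ (fun z => D.a (y z)) z := (h.sma _ h0).comp z hy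
  have n : ContDiffAt ℝ ∞ (fun z => ‖y z‖) z := (sm_norm _ h0).comp z hy
  have a' : ContDiffAt ℝ ∞ (fun z => fderiv ℝ D.a (y z)) z := (h.sma.fderiv _ h0).comp z hy
  have n' : ContDiffAt ℝ ∞ (fun z => fderiv ℝ (fun x : F => ‖x‖) (y z)) z :=
    (sm_norm.fderiv _ h0).comp z hy
  have b1 : ContDiffAt ℝ ∞ (fun z => D.al1 (s z) (r z)) z :=
    hs.mul ((d h.cv.smk).sub (hs.mul (d h.cv.smg)))
  have b0 : ContDiffAt ℝ ∞ (fun z => D.al0 (s z) (r z)) z := hs.mul (d h.cv.smw)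
  have b : ContDiffAt ℝ ∞ (fun z => D.be (s z) (r z) (y z)) z :=
    hs.mul ((a.mul (d h.cv.sm1)).add (n.mul (d h.cv.sm0)))
  exact ⟨contDiffAt_const.add (hs.mul (d h.cv.smg)), u, l,
    ((b1.mul (a'.clm_apply u)).add (b0.mul (n'.clm_apply u))).add b, (b1.mul a).add (b0.mul n),
    ((b1.smul a').add (b0.smul n')).add (b.smul l)⟩

theorem LZigD_smul {V : Type} [NormedAddCommGroup V] [NormedSpace ℝ V] {c : Z → ℝ} {v : Z → V}
    (hc : ContDiffAt ℝ ∞ c z) (hv : ContDiffAt ℝ ∞ v z) :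
    ContDiffAt ℝ ∞ (fun z => c z • v z) z := hc.smul hv

omit [FiniteDimensional ℝ F] in
theorem LZigD_l {X c m : Z → ℝ} {u : Z → F} {l : Z → F →L[ℝ] ℝ} (hs : ContDiffAt ℝ ∞ s z)
    (hX : ContDiffAt ℝ ∞ X z) (hc : ContDiffAt ℝ ∞ c z) (hm : ContDiffAt ℝ ∞ m z)
    (hy : ContDiffAt ℝ ∞ y z) (hu : ContDiffAt ℝ ∞ u z) (hl : ContDiffAt ℝ ∞ l z)
    (h0 : X z ^ 2 + c z ^ 2 + (1 - s z) * m z ^ 2 ≠ 0) :
    ContDiffAt ℝ ∞ (fun z => (X z ^ 2 + c z ^ 2 + (1 - s z) * m z ^ 2)⁻¹ •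
      (X z • (l z).comp (ContinuousLinearMap.fst ℝ F F) +
        (innerSL ℝ (c z • u z + ((1 - s z) * m z) • y z)).comp
          (ContinuousLinearMap.snd ℝ F F))) z := by
  have h1 := contDiffAt_const (c := (1 : ℝ)).sub hs
  have h2 : ContDiffAt ℝ ∞ (fun z => (l z).comp (ContinuousLinearMap.fst ℝ F F)) z :=
    hl.clm_comp contDiffAt_const
  have h3 : ContDiffAt ℝ ∞ (fun z => innerSL ℝ (c z • u z + ((1 - s z) * m z) • y z)) z :=
    (innerSL ℝ).contDiff.contDiffAt.comp z ((hc.smul hu).add ((h1.mul hm).smul hy))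
  exact LZigD_smul ((((hX.pow 2).add (hc.pow 2)).add (h1.mul (hm.pow 2))).inv h0)
    ((LZigD_smul hX h2).add (h3.clm_comp contDiffAt_const))

end

theorem Ok.sm_V (h : D.Ok) (r : ℝ) {p : ℝ × F} (hp : p ∈ U F) :
    ContDiffAt ℝ ∞ (fun z : ℝ × (ℝ × F) => D.V z.1 z.2) (r, p) := by
  obtain ⟨a1, a2, -, -, -, a3⟩ := h.LZigD_sm contDiffAt_snd.fst contDiffAt_fst
    (h.LZigD_y r hp) (h.y_ne _ hp.2)
  exact (a1.smul a2).prodMk (shp.contDiff.contDiffAt.comp _ a3)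

theorem Ok.sm_l (h : D.Ok) (r : ℝ) {p : ℝ × F} (hp : p ∈ U F) :
    ContDiffAt ℝ ∞ (fun z : ℝ × (ℝ × F) => D.l z.1 z.2) (r, p) := by
  have hy := h.LZigD_y r hp
  have h0 := h.y_ne p.1 hp.2
  obtain ⟨a1, a2, a3, a4, a5, -⟩ := h.LZigD_sm contDiffAt_snd.fst contDiffAt_fst hy h0
  exact LZigD_l contDiffAt_snd.fst a1 a4 a5 hy a2 a3 (h.NN_pos hp.1 r h0).ne'

theorem Ok.dual_y (h : D.Ok) {p : ℝ × F} (hp : p ∈ D.Kc) :
    D.lam (D.y p.1 p.2) (D.u (D.y p.1 p.2)) = 1 ∧ D.lam (D.y p.1 p.2) (D.y p.1 p.2) = 0 := by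
  have hx : p.2 ≠ 0 := (D.Kc_sub hp).2
  refine h.bd.dual _ (h.y_ne _ hx) ?_
  have h1 : p.1 * D.g (D.φ p.2) ≤ 1 / 2 := (le_abs_self _).trans (h.tm_le hp.1 p.2)
  rw [h.phi_y hp.1 hx]
  linarith [hp.2.2]

theorem Ok.l_V (h : D.Ok) (r : ℝ) {p : ℝ × F} (hp : p ∈ D.Kc) : D.l r p (D.V r p) = 1 := by
  obtain ⟨d1, d2⟩ := h.dual_y hp
  have h0 := h.y_ne p.1 (D.Kc_sub hp).2
  have hN := (h.NN_pos hp.1 r h0).ne'
  unfold l V
  generalize D.y p.1 p.2 = y at d1 d2 h0 hN ⊢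
  have g1 : D.gam p.1 r y (D.u y) = D.cc p.1 r y := by
    simp only [gam, cc, add_apply, smul_apply, smul_eq_mul, d1, mul_one]
  have g2 : D.gam p.1 r y y = D.mm p.1 r y := by
    simp only [gam, mm, add_apply, smul_apply, smul_eq_mul, d2, mul_zero, add_zero,
      h.ha.euler h.sma h0, h1_norm.euler sm_norm h0]
  simp only [add_apply, smul_apply, ContinuousLinearMap.comp_apply, ContinuousLinearMap.coe_fst',
    ContinuousLinearMap.coe_snd', innerSL_apply_apply, inner_shp', map_add, map_smul, smul_eq_mul,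
    d1, g1, g2]
  rw [inv_mul_eq_one₀ hN, NN]
  ring

theorem Ok.out (h : D.Ok) (s : ℝ) {r : ℝ} (hr : 5 < |r|) (y : F) :
    D.X s r = 1 ∧ D.gam s r y = 0 := by
  obtain ⟨e1, e2, e3, e4, e5⟩ := h.deriv_out hr
  simp [X, gam, al1, al0, be, e1, e2, e3, e4, e5]

theorem Ok.V_out (h : D.Ok) {r : ℝ} (hr : 5 < |r|) (p : ℝ × F) :
    D.V r p = (D.u (D.y p.1 p.2), 0) := by
  simp only [V, (h.out _ hr (D.y p.1 p.2)).1, (h.out _ hr (D.y p.1 p.2)).2, one_smul, map_zero]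

theorem V_zero (D : ZD F) (r : ℝ) (x : F) : D.V r (0, x) = (D.u (D.y 0 x), 0) := by
  simp [V, X, gam, al1, al0, be]

theorem Ok.isCompact_Kc (h : D.Ok) : IsCompact D.Kc := by
  refine isCompact_Icc.prod ?_
  have c : ContinuousOn D.φ (Metric.sphere 0 1) := fun x hx =>
    (h.bd.smφ x (ne_zero_of_mem_unit_sphere ⟨x, hx⟩)).continuousAt.continuousWithinAt
  have e : {x : F | ‖x‖ = 1 ∧ D.φ x ≤ 6} = Metric.sphere 0 1 ∩ D.φ ⁻¹' Iic 6 := by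
    ext x
    simp
  rw [e]
  exact (isCompact_sphere 0 1).of_isClosed_subset
    (c.preimage_isClosed_of_isClosed Metric.isClosed_sphere isClosed_Iic) inter_subset_left

theorem Ok.exists_trp (h : D.Ok) {r₀ : ℝ} (hr : r₀ ≤ 6) :
    ∃ Φ : ℝ → ℝ × F → F × F →L[ℝ] F × F, Trp (U F) D.Kc r₀ 6 D.V D.l Φ :=
  trp_exists h.isCompact_Kc D.Kc_sub hr (fun r _ hp => h.sm_V r hp) (fun r _ hp => h.sm_l r hp)
    fun r _ _ hp => h.l_V r hp

end ZD

end Pool.Agent.Lib.MP_ccffa6_gt.ELI
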