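import Pool.Agent.Lib.MP_ccffa6_gt.ELI.LZigC
import Pool.Agent.Lib.MP_ccffa6_gt.ELI.LZigD
import Pool.Agent.Lib.MP_ccffa6_gt.ELI.LLin

/-!
The square of frames.
-/

open Set Filter Topology
open scoped ContDiff RealInnerProductSpace

noncomputable section

namespace Pool.Agent.Lib.MP_ccffa6_gt.ELI

variable {F : Type} [NormedAddCommGroup F] [InnerProductSpace ℝ F] [FiniteDimensional ℝ F]
  {D : ZD F}
  {Φ : ℝ → ℝ × F → F × F →L[ℝ] F × F} {r₀ d : ℝ}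

namespace ZD

/-- For `6 ≤ r` the transport is the identity (`Trp.one`, `V_out`). -/
theorem Ok.phi_out (h : D.Ok) (hΦ : Trp (U F) D.Kc r₀ 6 D.V D.l Φ) {r : ℝ} (hr : 6 ≤ r)
    (p : ℝ × F) : Φ r p = ContinuousLinearMap.id ℝ (F × F) := by
  refine hΦ.one r p fun r' hr' => ?_
  rw [uIcc_of_ge hr] at hr'
  rw [h.V_out (r := r') (lt_of_lt_of_le (by linarith [hr'.1]) (le_abs_self _)),
    h.V_out (r := 6) (by norm_num)]

theorem LZigE_sm {Z : Type} [NormedAddCommGroup Z] [NormedSpace ℝ Z] {z : Z}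
    {M K K' : Z → F →L[ℝ] F} {A : Z → F × F →L[ℝ] F × F} (hM : ContDiffAt ℝ ∞ M z)
    (hK : ContDiffAt ℝ ∞ K z) (hK' : ContDiffAt ℝ ∞ K' z) (hA : ContDiffAt ℝ ∞ A z) :
    ContDiffAt ℝ ∞ (fun z => (shr (M z)).comp ((A z).comp ((K z).prodMap (trp (K' z))))) z := by
  have h1 : ContDiffAt ℝ ∞ (fun z => shr (M z)) z :=
    ContDiffAt.comp (g := fun M : F →L[ℝ] F => shr M) z contDiff_shr.contDiffAt hM
  have h2 : ContDiffAt ℝ ∞ (fun z => trp (K' z)) z :=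
    ContDiffAt.comp (g := fun M : F →L[ℝ] F => trp M) z (trp (F := F)).contDiff.contDiffAt hK'
  have h3 : ContDiffAt ℝ ∞ (fun z => (K z).prodMap (trp (K' z))) z :=
    ContDiffAt.comp (g := fun z : (F →L[ℝ] F) × (F →L[ℝ] F) => z.1.prodMap z.2)
      (f := fun z => (K z, trp (K' z))) z contDiff_prodMap.contDiffAt (hK.prodMk h2)
  exact h1.clm_comp (hA.clm_comp h3)

omit [FiniteDimensional ℝ F] in
theorem LZigE_par {Y : Type} [NormedAddCommGroup Y] [NormedSpace ℝ Y] {g : ℝ → F → Y}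
    {p : ℝ × ℝ} {x : F} (h : ContDiffAt ℝ ∞ (fun z : ℝ × F => g z.1 z.2) (p.1, x)) :
    ContDiffAt ℝ ∞ (fun z : (ℝ × ℝ) × F => g z.1.1 z.2) (p, x) :=
  ContDiffAt.comp (g := fun z : ℝ × F => g z.1 z.2) (f := fun z : (ℝ × ℝ) × F => (z.1.1, z.2))
    (p, x) h (by fun_prop)

theorem LZigE_pos {Δ : ℝ → ℝ} {a b : ℝ} (h : a ≤ b) (hc : Continuous Δ) (h1 : 0 < Δ b)
    (hn : ∀ r ∈ Icc a b, Δ r ≠ 0) : 0 < Δ a := by
  by_contra h0
  obtain ⟨r, hr, e⟩ := intermediate_value_Icc h hc.continuousOn ⟨not_lt.1 h0, h1.le⟩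
  exact hn r hr e

omit [FiniteDimensional ℝ F] in
theorem LZigE_l (D : ZD F) (r : ℝ) (p : ℝ × F) (e : F × F) :
    D.l r p e = (D.NN p.1 r (D.y p.1 p.2))⁻¹ * (D.X p.1 r * D.lam (D.y p.1 p.2) e.1 +
      (D.cc p.1 r (D.y p.1 p.2) * ⟪D.u (D.y p.1 p.2), e.2⟫ +
        (1 - p.1) * D.mm p.1 r (D.y p.1 p.2) * ⟪D.y p.1 p.2, e.2⟫)) := by
  simp [ZD.l]
  ring

theorem LZigE_fix (hΦ : Trp (U F) D.Kc r₀ 6 D.V D.l Φ) (r : ℝ) (p : ℝ × F) {v : F}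
    (hv : D.lam (D.y p.1 p.2) v = 0) : Φ r p (v, 0) = (v, 0) :=
  hΦ.fix r p _ fun r' => by simp [LZigE_l, hv]

theorem Ok.psi_sm (h : D.Ok) (hΦ : Trp (U F) D.Kc r₀ 6 D.V D.l Φ) {p : ℝ × ℝ}
    (hp : p.1 ∈ Icc (0 : ℝ) 1) {x : F} (hx : x ≠ 0) :
    ContDiffAt ℝ ∞ (fun z : (ℝ × ℝ) × F => D.Psi Φ d z.1 z.2) (p, x) := by
  have h1 : ContDiffAt ℝ ∞ (fun z : (ℝ × ℝ) × F => D.φ z.2 + z.1.2 * d) (p, x) :=
    (ContDiffAt.comp (g := D.φ) (f := Prod.snd) (p, x) (h.bd.smφ x hx) contDiffAt_snd).add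
      (by fun_prop)
  have h2 : ContDiffAt ℝ ∞ (fun z : (ℝ × ℝ) × F => Φ (D.φ z.2 + z.1.2 * d) (z.1.1, z.2)) (p, x) :=
    ContDiffAt.comp (g := fun z : ℝ × (ℝ × F) => Φ z.1 z.2)
      (f := fun z : (ℝ × ℝ) × F => (D.φ z.2 + z.1.2 * d, (z.1.1, z.2))) (p, x)
      (hΦ.sm _ (p.1, x) ⟨hp, hx⟩) (h1.prodMk (by fun_prop))
  have h3 : ContDiffAt ℝ ∞ (fun z : (ℝ × ℝ) × F => (1 - z.1.2) • D.M z.1.1 z.2) (p, x) :=
    ContDiffAt.smul (f := fun z : (ℝ × ℝ) × F => 1 - z.1.2) (by fun_prop)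
      (LZigE_par (h.sm_M p.1 hx))
  exact LZigE_sm h3 (LZigE_par (h.sm_K p.1 hx)) (LZigE_par (h.sm_K' p.1 hx)) h2

/-- Cases `φ q + l d ≤ 6` (then `(s, q) ∈ Kc`) and `6 ≤ φ q + l d`. -/
theorem Ok.psi_inj (h : D.Ok) (hΦ : Trp (U F) D.Kc r₀ 6 D.V D.l Φ) (hd : 0 ≤ d) {p : ℝ × ℝ}
    (hp : p ∈ Icc (0 : ℝ) 1 ×ˢ Icc (0 : ℝ) 1) {q : F} (hq : ‖q‖ = 1) (hr : r₀ ≤ D.φ q) :
    Function.Injective (D.Psi Φ d p q) := by
  have hq0 : q ≠ 0 := fun e => by simp [e] at hq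
  have h0 : 0 ≤ p.2 * d := mul_nonneg hp.2.1 hd
  have h1 : Function.Injective (Φ (D.φ q + p.2 * d) (p.1, q)) := by
    rcases le_total (D.φ q + p.2 * d) 6 with h6 | h6
    · exact hΦ.inj _ ⟨by linarith, h6⟩ _ ⟨hp.1, hq, by change D.φ q ≤ 6; linarith⟩
    · rw [h.phi_out hΦ h6]; exact fun _ _ e => e
  exact (shr_inj _).comp (h1.comp (lin_inj (h.K'_K p.1 hq0)))

/-- Sketch: `fderiv_f`; for `φ q ≤ 6` write `K v = (K v - lam (K v) u) + lam (K v) u` and use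
`Trp.fix`, `Trp.map`, `V_out`; for `6 ≤ φ q` use `phi_out` and `out`. -/
theorem Ok.psi_bot (h : D.Ok) (hΦ : Trp (U F) D.Kc r₀ 6 D.V D.l Φ) {s : ℝ}
    (hs : s ∈ Icc (0 : ℝ) 1) {q : F} (hq : ‖q‖ = 1) (hr : r₀ ≤ D.φ q) :
    frm (D.f s) ((D.Psi Φ d (s, 0) q).comp (ContinuousLinearMap.inr ℝ F F)) q =
      D.Psi Φ d (s, 0) q := by
  have hq0 : q ≠ 0 := fun e => by simp [e] at hq
  have key : ∀ w : F, Φ (D.φ q) (s, q) (w, 0) =
      (w + ((D.X s (D.φ q) - 1) * D.lam (D.y s q) w) • D.u (D.y s q),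
        D.lam (D.y s q) w • shp (D.gam s (D.φ q) (D.y s q))) := fun w => by
    rcases le_total (D.φ q) 6 with h6 | h6
    · have hK : (s, q) ∈ D.Kc := ⟨hs, hq, h6⟩
      have hd := (h.dual_y hK).1
      have h1 := hΦ.map _ ⟨hr, h6⟩ _ hK
      rw [h.V_out (r := 6) (by norm_num)] at h1
      have h2 := LZigE_fix hΦ (D.φ q) (s, q)
        (v := w - D.lam (D.y s q) w • D.u (D.y s q)) (by
          rw [map_sub, map_smul, hd, smul_eq_mul, mul_one, sub_self])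
      have e : ((w, 0) : F × F) = (w - D.lam (D.y s q) w • D.u (D.y s q), 0) +
          D.lam (D.y s q) w • (D.u (D.y s q), 0) := by simp
      rw [e, map_add, map_smul, h2, h1]
      simp only [ZD.V, Prod.smul_mk, Prod.mk_add_mk, zero_add, Prod.mk.injEq, and_true]
      module
    · obtain ⟨h1, h2⟩ := h.out s (r := D.φ q) (lt_of_lt_of_le (by linarith) (le_abs_self _))
        (D.y s q)
      rw [h.phi_out hΦ h6, h1, h2]
      simp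
  have main : ∀ v : F, fderiv ℝ (D.f s) q v = D.Psi Φ d (s, 0) q (v, 0) := fun v => by
    rw [h.fderiv_f hs hq0, ← key]
    simp [ZD.Psi]
  refine ContinuousLinearMap.ext fun v => ?_
  rw [frm, ContinuousLinearMap.coprod_apply, main, ContinuousLinearMap.comp_apply, ← map_add]
  simp

theorem Ok.psi_left (h : D.Ok) (hΦ : Trp (U F) D.Kc r₀ 6 D.V D.l Φ) (l : ℝ) {q : F}
    (hq : q ≠ 0) : D.Psi Φ d (0, l) q = shr ((1 - l) • fderiv ℝ D.ς q) := by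
  obtain ⟨h1, h2, h3⟩ := h.K_zero hq
  have h4 : ∀ r, Φ r (0, q) = ContinuousLinearMap.id ℝ (F × F) := fun r =>
    hΦ.one r _ fun r' _ => by rw [V_zero, V_zero]
  simp only [ZD.Psi, h1, h2, h3, h4, trp_id]
  ext <;> simp

theorem Ok.psi_top (h : D.Ok) (hΦ : Trp (U F) D.Kc r₀ 6 D.V D.l Φ) (s : ℝ) {q : F} (hq : q ≠ 0)
    (hr : 6 ≤ D.φ q + d) : pbB (D.Psi Φ d (s, 1) q) (om0 F) = om0 F := by
  simp only [ZD.Psi, one_mul, h.phi_out hΦ hr, sub_self, zero_smul, shr_zero,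
    ContinuousLinearMap.id_comp]
  exact lin_sympl (h.K'_K s hq)

/-- Sketch. For `r = φ q + l d ≤ 6` use `lin_blk`; `Δ r' = om0 (Φ r' (u, 0)) (Φ r' (0, shp lam))`
is continuous and nonzero on `[r₀, 6]` (`lin_delta`; `Trp.sub` with
`W = (span {u}).prod ⊤`; `Trp.fix`, at `s = 1` the covector `l` kills `(0, p)` if `⟪p, u⟫ = 0`)
and `Δ 6 = 1`, so it is positive. Otherwise `phi_out` and `lin_blk_id`. -/
theorem Ok.psi_right (h : D.Ok) (hΦ : Trp (U F) D.Kc r₀ 6 D.V D.l Φ) (hd : 0 ≤ d) {l : ℝ}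
    (hl : l ∈ Icc (0 : ℝ) 1) {q : F} (hq : ‖q‖ = 1) (hr : r₀ ≤ D.φ q) :
    LBlk (pbB (D.Psi Φ d (1, l) q) (om0 F)) := by
  have hq0 : q ≠ 0 := fun e => by simp [e] at hq
  have h0 : 0 ≤ l * d := mul_nonneg hl.1 hd
  have z1 : (1 : ℝ) ∈ Icc (0 : ℝ) 1 := by simp
  rcases le_total (D.φ q + l * d) 6 with h6 | h6
  · have hK : ((1 : ℝ), q) ∈ D.Kc := ⟨z1, hq, by change D.φ q ≤ 6; linarith⟩
    have hu : D.lam (D.y 1 q) (D.u (D.y 1 q)) = 1 := (h.dual_y hK).1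
    have h2 : ∀ r p, ⟪p, D.u (D.y 1 q)⟫ = 0 → Φ r (1, q) (0, p) = (0, p) := fun r p hp =>
      hΦ.fix r _ _ fun r' => by simp [LZigE_l, real_inner_comm p, hp]
    have h3 : ∀ r e, ∃ t : ℝ, (Φ r (1, q) e - e).1 = t • D.u (D.y 1 q) := fun r e => by
      have := hΦ.sub r (1, q) ((Submodule.span ℝ {D.u (D.y 1 q)}).prod ⊤) (fun r' =>
        ⟨Submodule.smul_mem _ _ (Submodule.mem_span_singleton_self _), trivial⟩) e
      obtain ⟨t, ht⟩ := Submodule.mem_span_singleton.1 this.1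
      exact ⟨t, ht.symm⟩
    have hc : Continuous fun r => Φ r (1, q) := continuous_iff_continuousAt.2 fun r =>
      ContinuousAt.comp (g := fun z : ℝ × (ℝ × F) => Φ z.1 z.2) (f := fun r => (r, (1, q)))
        (hΦ.sm r (1, q) ⟨z1, hq0⟩).continuousAt (by fun_prop)
    have hΔ : Continuous fun r => om0 F (Φ r (1, q) (D.u (D.y 1 q), 0))
        (Φ r (1, q) (0, shp (D.lam (D.y 1 q)))) :=
      ((om0 F).continuous.comp (hc.clm_apply continuous_const)).clm_apply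
        (hc.clm_apply continuous_const)
    have hp := LZigE_pos h6 hΔ (by
      rw [h.phi_out hΦ le_rfl]
      simp [om0_apply, inner_shp', hu]) fun r hr' =>
      lin_delta hu (hΦ.inj r ⟨by linarith [hr'.1], hr'.2⟩ _ hK) (h2 r) (h3 r)
    exact lin_blk hu (fun v hv => LZigE_fix hΦ _ (1, q) hv) (h2 _) (h3 _) hp (h.K'_K 1 hq0)
      (h.K_K' 1 hq0) _
  · simp only [ZD.Psi, h.phi_out hΦ h6, ContinuousLinearMap.id_comp]
    exact lin_blk_id (h.K'_K 1 hq0) _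

end ZD

end Pool.Agent.Lib.MP_ccffa6_gt.ELI
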