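import Pool.Agent.Lib.MP_ccffa6_gt.ELI.LDef

/-!
One zone of oscillations.
-/

open Set Filter Topology
open scoped ContDiff RealInnerProductSpace

noncomputable section

namespace Pool.Agent.Lib.MP_ccffa6_gt.ELI

open Real

/-- The envelope. -/
def LZone_b (J t : ℝ) : ℝ := smoothTransition (4 * t) * smoothTransition (4 * (J - t))

/-- The derivative of the envelope. -/
def LZone_db (J t : ℝ) : ℝ :=
  4 * deriv smoothTransition (4 * t) * smoothTransition (4 * (J - t)) -
    4 * smoothTransition (4 * t) * deriv smoothTransition (4 * (J - t))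

/-- The derivative of the oscillation. -/
def LZone_d (K J t : ℝ) : ℝ :=
  K * (LZone_db J t * sin (2 * π * t) / (2 * π) + LZone_b J t * cos (2 * π * t))

theorem LZone_S : ContDiff ℝ ∞ smoothTransition := smoothTransition.contDiff

theorem LZone_dS : ContDiff ℝ ∞ (deriv smoothTransition) := (contDiff_infty_iff_deriv.1 LZone_S).2

theorem LZone_dS0 {x : ℝ} (h : x ≤ 0 ∨ 1 ≤ x) : deriv smoothTransition x = 0 := by
  rcases h with h | h
  · exact IsLocalMin.deriv_eq_zero (Eventually.of_forall fun y => by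
      rw [smoothTransition.zero_of_nonpos h]; exact smoothTransition.nonneg y)
  · exact IsLocalMax.deriv_eq_zero (Eventually.of_forall fun y => by
      rw [smoothTransition.one_of_one_le h]; exact smoothTransition.le_one y)

theorem LZone_bd : ∃ B, 0 ≤ B ∧ ∀ x, 0 ≤ deriv smoothTransition x ∧ deriv smoothTransition x ≤ B := by
  obtain ⟨B, hB⟩ := (isCompact_Icc (a := (0 : ℝ)) (b := 1)).exists_bound_of_continuousOn
    LZone_dS.continuous.continuousOn
  have h0 : 0 ≤ B := (norm_nonneg _).trans (hB 0 ⟨le_rfl, zero_le_one⟩)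
  refine ⟨B, h0, fun x => ⟨smoothTransition.monotone.deriv_nonneg, ?_⟩⟩
  by_cases h : x ≤ 0 ∨ 1 ≤ x
  · rwa [LZone_dS0 h]
  · push Not at h
    exact (le_abs_self _).trans (hB x ⟨h.1.le, h.2.le⟩)

theorem LZone_smb (J : ℝ) : ContDiff ℝ ∞ (LZone_b J) :=
  (LZone_S.comp (contDiff_const.mul contDiff_id)).mul
    (LZone_S.comp (contDiff_const.mul (contDiff_const.sub contDiff_id)))

theorem LZone_hb (J t : ℝ) : HasDerivAt (LZone_b J) (LZone_db J t) t := by
  have h : ∀ x, HasDerivAt smoothTransition (deriv smoothTransition x) x := fun x =>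
    (LZone_S.differentiable (by simp) x).hasDerivAt
  have h1 := (h (4 * t)).comp t ((hasDerivAt_id t).const_mul 4)
  have h2 := (h (4 * (J - t))).comp t (((hasDerivAt_id t).const_sub J).const_mul 4)
  refine (h1.mul h2).congr_deriv ?_
  simp only [LZone_db, Function.comp, id]
  ring

theorem LZone_hg (K J t : ℝ) :
    HasDerivAt (fun t => K * LZone_b J t * sin (2 * π * t) / (2 * π)) (LZone_d K J t) t := by
  have h1 := ((hasDerivAt_id t).const_mul (2 * π)).sin
  refine ((((LZone_hb J t).const_mul K).mul h1).div_const (2 * π)).congr_deriv ?_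
  simp only [LZone_d, id]
  field_simp

theorem LZone_b01 (J t : ℝ) : 0 ≤ LZone_b J t ∧ LZone_b J t ≤ 1 :=
  ⟨mul_nonneg (smoothTransition.nonneg _) (smoothTransition.nonneg _),
    mul_le_one₀ (smoothTransition.le_one _) (smoothTransition.nonneg _) (smoothTransition.le_one _)⟩

theorem LZone_b0 {J t : ℝ} (h : t ≤ 0 ∨ J ≤ t) : LZone_b J t = 0 := by
  rcases h with h | h
  · rw [LZone_b, smoothTransition.zero_of_nonpos (by linarith), zero_mul]
  · rw [LZone_b, smoothTransition.zero_of_nonpos (x := 4 * (J - t)) (by linarith), mul_zero]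

theorem LZone_mid {K J t : ℝ} (h1 : 1 / 4 ≤ t) (h2 : t ≤ J - 1 / 4) :
    LZone_b J t = 1 ∧ LZone_d K J t = K * cos (2 * π * t) := by
  have a1 : smoothTransition (4 * t) = 1 := smoothTransition.one_of_one_le (by linarith)
  have a2 : smoothTransition (4 * (J - t)) = 1 := smoothTransition.one_of_one_le (by linarith)
  simp [LZone_d, LZone_db, LZone_b, a1, a2, LZone_dS0 (x := 4 * t) (Or.inr (by linarith)),
    LZone_dS0 (x := 4 * (J - t)) (Or.inr (by linarith))]

theorem LZone_aux {u : ℝ} (h : u ≤ 1 / 4) :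
    0 ≤ 4 * deriv smoothTransition (4 * u) * sin (2 * π * u) / (2 * π) +
      smoothTransition (4 * u) * cos (2 * π * u) := by
  rcases le_total u 0 with h0 | h0
  · rw [LZone_dS0 (Or.inl (by linarith)), smoothTransition.zero_of_nonpos (by linarith)]
    simp
  · have := pi_pos
    have a1 : 0 ≤ sin (2 * π * u) := sin_nonneg_of_nonneg_of_le_pi (by positivity) (by nlinarith)
    have a2 : 0 ≤ cos (2 * π * u) := cos_nonneg_of_neg_pi_div_two_le_of_le (by nlinarith)
      (by nlinarith)
    have a3 : 0 ≤ deriv smoothTransition (4 * u) := smoothTransition.monotone.deriv_nonneg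
    have a4 := smoothTransition.nonneg (4 * u)
    positivity

theorem LZone_end {K : ℝ} (hK : 0 ≤ K) {J : ℕ} (hJ : 1 ≤ (J : ℝ)) {t : ℝ}
    (h : t ≤ 1 / 4 ∨ J - 1 / 4 ≤ t) : 0 ≤ LZone_d K J t := by
  refine mul_nonneg hK ?_
  rcases h with h | h
  · have := LZone_aux h
    rw [LZone_db, LZone_b, smoothTransition.one_of_one_le (x := 4 * (J - t)) (by linarith),
      LZone_dS0 (x := 4 * (J - t)) (Or.inr (by linarith))]
    simpa using this
  · have := LZone_aux (u := J - t) (by linarith)
    rw [show 2 * π * (J - t) = J * (2 * π) - 2 * π * t by ring, sin_nat_mul_two_pi_sub,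
      cos_nat_mul_two_pi_sub] at this
    rw [LZone_db, LZone_b, smoothTransition.one_of_one_le (x := 4 * t) (by linarith),
      LZone_dS0 (x := 4 * t) (Or.inr (by linarith))]
    refine this.trans_eq ?_
    ring

theorem LZone_bU {B K : ℝ} (hB : 0 ≤ B)
    (h : ∀ x, 0 ≤ deriv smoothTransition x ∧ deriv smoothTransition x ≤ B) (hK : 1 ≤ K)
    (J t : ℝ) : |1 + LZone_d K J t| ≤ K * (2 + B) := by
  have a1 : |LZone_db J t| ≤ 4 * B := by
    have b1 := h (4 * t)
    have b2 := h (4 * (J - t))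
    have b3 := smoothTransition.nonneg (4 * t)
    have b4 := smoothTransition.le_one (4 * t)
    have b5 := smoothTransition.nonneg (4 * (J - t))
    have b6 := smoothTransition.le_one (4 * (J - t))
    rw [LZone_db, abs_le]
    constructor <;> nlinarith [mul_nonneg b1.1 b5, mul_nonneg b3 b2.1]
  have a2 : |LZone_db J t * sin (2 * π * t) / (2 * π)| ≤ B := by
    have := pi_gt_three
    rw [abs_div, abs_mul, abs_of_pos (by positivity : 0 < 2 * π), div_le_iff₀ (by positivity)]
    nlinarith [abs_sin_le_one (2 * π * t), abs_nonneg (LZone_db J t), abs_nonneg (sin (2 * π * t))]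
  have a3 : |LZone_b J t * cos (2 * π * t)| ≤ 1 := by
    rw [abs_mul, abs_of_nonneg (LZone_b01 J t).1]
    exact mul_le_one₀ (LZone_b01 J t).2 (abs_nonneg _) (abs_cos_le_one _)
  have a4 : |LZone_d K J t| ≤ K * (B + 1) := by
    rw [LZone_d, abs_mul, abs_of_nonneg (by linarith : 0 ≤ K)]
    exact mul_le_mul_of_nonneg_left ((abs_add_le _ _).trans (add_le_add a2 a3)) (by linarith)
  have a5 := abs_add_le 1 (LZone_d K J t)
  rw [abs_one] at a5
  linarith

theorem LZone_int (K : ℝ) (J : ℕ) : ∫ t in (1 : ℝ)..(J - 1), (1 + K * cos (2 * π * t)) ^ 2 =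
    (J - 2) * (1 + K ^ 2 / 2) := by
  have hd : ∀ t, HasDerivAt (fun t => t * (1 + K ^ 2 / 2) +
      sin (2 * π * t) * (2 * K + K ^ 2 / 2 * cos (2 * π * t)) / (2 * π))
      ((1 + K * cos (2 * π * t)) ^ 2) t := fun t => by
    have h0 := (hasDerivAt_id t).const_mul (2 * π)
    refine (((hasDerivAt_id t).mul_const (1 + K ^ 2 / 2)).add ((h0.sin.mul
      ((h0.cos.const_mul (K ^ 2 / 2)).const_add (2 * K))).div_const (2 * π))).congr_deriv ?_
    simp only [id]
    field_simp
    linear_combination -K ^ 2 * sin_sq_add_cos_sq (2 * π * t)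
  rw [intervalIntegral.integral_eq_sub_of_hasDerivAt (fun t _ => hd t)
    (Continuous.intervalIntegrable (by fun_prop) _ _),
    show 2 * π * ((J : ℝ) - 1) = J * (2 * π) - 2 * π by ring, sin_nat_mul_two_pi_sub]
  simp only [mul_one, sin_two_pi]
  ring

/-- A zone of oscillations `K β t sin (2 π t) / (2 π)` with `K` large. -/
theorem zone_raw {η : ℝ} (hη : 0 < η) :
    ∃ (J A : ℝ) (γ n σ : ℝ → ℝ), 0 < J ∧ Zone η J A γ n σ := by
  obtain ⟨B, hB, hS⟩ := LZone_bd
  obtain ⟨K, hK, hKη⟩ : ∃ K : ℝ, 4 ≤ K ∧ 20 * (2 + B) ≤ η * K :=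
    ⟨max 4 (20 * (2 + B) / η), le_max_left _ _, by
      rw [← div_le_iff₀' hη]; exact le_max_right _ _⟩
  obtain ⟨J, hJ⟩ := exists_nat_ge K
  have hπ := pi_gt_three
  set γ : ℝ → ℝ := fun t => K * LZone_b J t * sin (2 * π * t) / (2 * π) with hγ
  have dγ : ∀ t, deriv γ t = LZone_d K J t := fun t => (LZone_hg K J t).deriv
  have sγ : ContDiff ℝ ∞ γ := ((contDiff_const.mul (LZone_smb J)).mul
    (contDiff_sin.comp (contDiff_const.mul contDiff_id))).div_const _
  have sd : ContDiff ℝ ∞ (LZone_d K J) := funext dγ ▸ (contDiff_infty_iff_deriv.1 sγ).2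
  set F : ℝ → ℝ := fun t => LZone_b J t * (1 + LZone_d K J t) ^ 2 with hF
  have sF : ContDiff ℝ ∞ F := (LZone_smb J).mul ((contDiff_const.add sd).pow 2)
  have F0 : ∀ t, 0 ≤ F t := fun t => mul_nonneg (LZone_b01 J t).1 (sq_nonneg _)
  have iF : ∀ a b, IntervalIntegrable F MeasureTheory.volume a b :=
    sF.continuous.intervalIntegrable
  have hI : J * K ^ 2 / 4 ≤ ∫ t in (0 : ℝ)..J, F t := by
    have a1 : ∫ t in (1 : ℝ)..(J - 1), F t = (J - 2) * (1 + K ^ 2 / 2) := by
      rw [← LZone_int]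
      refine intervalIntegral.integral_congr fun t ht => ?_
      rw [uIcc_of_le (by linarith)] at ht
      obtain ⟨b1, b2⟩ := LZone_mid (K := K) (J := J) (t := t) (by linarith [ht.1])
        (by linarith [ht.2])
      simp only [hF, b1, b2, one_mul]
    have a2 := intervalIntegral.integral_mono_interval (zero_le_one) (by linarith : (1 : ℝ) ≤ J - 1)
      (by linarith : (J : ℝ) - 1 ≤ J) (Eventually.of_forall F0) (iF 0 J)
    nlinarith [sq_nonneg K]
  generalize hIe : ∫ t in (0 : ℝ)..J, F t = I at hI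
  have I0 : 0 < I := lt_of_lt_of_le (by have : (0 : ℝ) < J := by linarith
                                        positivity) hI
  obtain ⟨c, hc, c0, cK⟩ : ∃ c : ℝ, c * I = 5 * J ∧ 0 < c ∧ c * K ^ 2 ≤ 20 := by
    refine ⟨5 * J / I, div_mul_cancel₀ _ I0.ne', div_pos (by linarith) I0, ?_⟩
    rw [div_mul_eq_mul_div, div_le_iff₀ I0]
    linarith
  set n : ℝ → ℝ := fun t => c * LZone_b J t * (1 + LZone_d K J t) with hn
  set σ : ℝ → ℝ := fun t => c * ∫ s in (0 : ℝ)..t, F s with hσ
  have hσ' : ∀ t, HasDerivAt σ (c * F t) t := fun t =>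
    (sF.continuous.integral_hasStrictDerivAt 0 t).hasDerivAt.const_mul c
  have dσ : deriv σ = fun t => c * F t := funext fun t => (hσ' t).deriv
  have mσ : Monotone σ := monotone_of_deriv_nonneg (fun t => (hσ' t).differentiableAt) fun t => by
    rw [dσ]; exact mul_nonneg c0.le (F0 t)
  have z : ∀ a b, (∀ t ∈ uIcc a b, t ≤ 0 ∨ (J : ℝ) ≤ t) → ∫ s in a..b, F s = 0 := fun a b h => by
    rw [intervalIntegral.integral_congr (g := fun _ => 0) fun t ht => by
      simp only [hF, LZone_b0 (h t ht), zero_mul]]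
    simp
  refine ⟨J, K / 6, γ, n, σ, by linarith, sγ,
    (contDiff_const.mul (LZone_smb J)).mul (contDiff_const.add sd),
    contDiff_infty_iff_deriv.2 ⟨fun t => (hσ' t).differentiableAt, dσ ▸ contDiff_const.mul sF⟩,
    by linarith, fun t => ?_, fun t => ?_, fun t ht => ?_, fun t ht => ?_, fun t => ?_, mσ,
    fun x hx => ?_⟩
  · have b := LZone_b01 J t
    simp only [hγ]
    rw [abs_div, abs_mul, abs_mul, abs_of_pos (by positivity : 0 < 2 * π), abs_of_nonneg b.1,
      abs_of_nonneg (by linarith : 0 ≤ K), div_le_iff₀ (by positivity)]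
    have := mul_le_one₀ b.2 (abs_nonneg _) (abs_sin_le_one (2 * π * t))
    nlinarith
  · have b := LZone_b01 J t
    have b1 := LZone_bU hB hS (by linarith : 1 ≤ K) J t
    simp only [hn]
    rw [abs_mul, abs_mul, abs_of_pos c0, abs_of_nonneg b.1]
    have b2 : c * LZone_b J t * |1 + LZone_d K J t| ≤ c * 1 * (K * (2 + B)) := by gcongr; exact b.2
    refine b2.trans (le_of_mul_le_mul_right ?_ (by linarith : 0 < K))
    nlinarith
  · simp only [hγ, hn, hσ, LZone_b0 (Or.inl ht), z 0 t fun s hs => Or.inl (by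
      rw [uIcc_of_ge ht] at hs; exact hs.2)]
    simp
  · simp only [hγ, hn, hσ, LZone_b0 (Or.inr ht),
      ← intervalIntegral.integral_add_adjacent_intervals (iF 0 J) (iF J t), hIe,
      z J t fun s hs => Or.inr (by rw [uIcc_of_le ht] at hs; exact hs.1)]
    simp [hc]
  · simp only [dσ, dγ, hn, hF]
    ring
  · rw [dγ] at hx ⊢
    have hm : 1 / 4 < x ∧ x < J - 1 / 4 := by
      by_contra h
      have := LZone_end (K := K) (J := J) (t := x) (by linarith) (by linarith)
        (by rcases not_and_or.1 h with h | h <;> simp only [not_lt] at h <;> simp only [h, true_or, or_true])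
      linarith
    have ev : ∀ᶠ t in 𝓝 x, LZone_b J t = 1 ∧ LZone_d K J t = K * cos (2 * π * t) :=
      mem_of_superset (Ioo_mem_nhds hm.1 hm.2) fun t ht => LZone_mid ht.1.le ht.2.le
    have e0 := ev.self_of_nhds
    have dn : LZone_d K J x = -1 → deriv n x ≠ 0 := fun h => by
      have a1 : n =ᶠ[𝓝 x] fun t => c * (1 + K * cos (2 * π * t)) :=
        ev.mono fun t ht => by simp only [hn, ht.1, ht.2, mul_one]
      have a2 : HasDerivAt (fun t => c * (1 + K * cos (2 * π * t))) _ x :=
        ((((hasDerivAt_id x).const_mul (2 * π)).cos.const_mul K).const_add 1).const_mul c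
      rw [a1.deriv_eq, a2.deriv]
      have a3 : sin (2 * π * x) ≠ 0 := fun h0 => by
        have a4 := sin_sq_add_cos_sq (2 * π * x)
        have a5 : (K * cos (2 * π * x)) ^ 2 = 1 := by rw [← e0.2, h]; ring
        rw [h0] at a4
        rw [mul_pow, show cos (2 * π * x) ^ 2 = 1 by linarith] at a5
        nlinarith
      have a4 : K ≠ 0 := by linarith
      simp [a3, a4, c0.ne', pi_ne_zero]
    refine ⟨by linarith [hm.1], by linarith [hm.2], fun r r' h1 h2 => ?_, fun h => ?_, dn⟩
    · refine (mσ (h1.trans h2).le).lt_of_ne fun h => ?_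
      have a1 : ∀ᶠ t in 𝓝 x, σ t = σ r := mem_of_superset (Ioo_mem_nhds h1 h2)
        fun t ht => le_antisymm (h ▸ mσ ht.2.le) (mσ ht.1.le)
      have a2 : ∀ᶠ t in 𝓝 x, 1 + LZone_d K J t = 0 := by
        filter_upwards [a1.eventually_nhds, ev] with t ht ht'
        have a3 := EventuallyEq.deriv_eq (f₁ := σ) (f := fun _ => σ r) ht
        rw [dσ, deriv_const] at a3
        simpa [hF, ht'.1, c0.ne'] using a3
      refine dn (by linarith [a2.self_of_nhds]) ?_
      have a3 : n =ᶠ[𝓝 x] fun _ => 0 := a2.mono fun t ht => by simp only [hn, ht, mul_zero]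
      rw [a3.deriv_eq, deriv_const]
    · simp only [dσ, hF, e0.1, one_mul]
      exact mul_pos c0 (sq_pos_of_neg (by linarith))

end Pool.Agent.Lib.MP_ccffa6_gt.ELI
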