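import Pool.Agent.Lib.MP_ccffa6_gt.ELI.LCurve
import Pool.Agent.Lib.MP_ccffa6_gt.ELI.LJoinA
import Pool.Agent.Lib.MP_ccffa6_gt.ELI.LJoinC
import Pool.Agent.Lib.MP_ccffa6_gt.ELI.LHol
import Pool.Agent.Lib.MP_ccffa6_gt.ELI.LRed
import Pool.Agent.Lib.MP_ccffa6_gt.ELI.LZigB
import Pool.Agent.Lib.MP_ccffa6_gt.ELI.LZigE
import Pool.Agent.Lib.MP_ccffa6_gt.ELI.LNorm

/-!
The critical case.
-/

open Set Filter Topology
open scoped ContDiff RealInnerProductSpace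

noncomputable section

namespace Pool.Agent.Lib.MP_ccffa6_gt.ELI

variable {F : Type} [NormedAddCommGroup F] [InnerProductSpace ℝ F] [FiniteDimensional ℝ F]

omit [FiniteDimensional ℝ F] in
theorem LegC_slice {Ψ : ℝ × ℝ → F → F × F →L[ℝ] F × F} {s : ℝ} {q : F}
    (h : ContDiffAt ℝ ∞ (fun z : (ℝ × ℝ) × F => Ψ z.1 z.2) ((s, 0), q)) :
    ContDiffAt ℝ ∞
      (fun z : ℝ × F => (Ψ (z.1, 0) z.2).comp (ContinuousLinearMap.inr ℝ F F)) (s, q) := by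
  have h2 : ContDiffAt ℝ ∞ (fun z : ℝ × F => (((z.1, (0 : ℝ)), z.2) : (ℝ × ℝ) × F)) (s, q) := by
    fun_prop
  have h3 := ContDiffAt.comp (g := fun z : (ℝ × ℝ) × F => Ψ z.1 z.2) (s, q) h h2
  exact h3.clm_comp contDiffAt_const

omit [FiniteDimensional ℝ F] in
theorem LegC_cont {Ψ : ℝ × ℝ → F → F × F →L[ℝ] F × F} {z : (ℝ × ℝ) × F}
    (h : ContinuousAt (fun z : (ℝ × ℝ) × F => Ψ z.1 z.2) z) :
    ContinuousAt (fun z : (ℝ × ℝ) × F => pbB (Ψ z.1 z.2) (om0 F)) z :=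
  continuous_pbB.continuousAt.comp (f := fun z : (ℝ × ℝ) × F => (Ψ z.1 z.2, om0 F))
    (h.prodMk continuousAt_const)

theorem ZD.Ok.leg {D : ZD F} (h : D.Ok) {r : ℝ}
    (hc : ∀ s ∈ Icc (0 : ℝ) 1, ∀ t y, y ≠ 0 → ‖D.Gam s t y‖ < r) : LegFor D.ς r := by
  obtain ⟨B, hB0, hB⟩ := h.bd.hφ.bound h.bd.smφ
  have ne1 : ∀ {q : F}, ‖q‖ = 1 → q ≠ 0 := fun hq h0 => by simp [h0] at hq
  have hlo : ∀ q : F, ‖q‖ = 1 → -B ≤ D.φ q := fun q hq => (abs_le.1 (hB q (ne1 hq))).1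
  obtain ⟨Φ, hΦ⟩ := h.exists_trp (r₀ := -B) (by linarith)
  have hd : (0 : ℝ) ≤ 6 + B := by linarith
  have z1 : (0 : ℝ) ∈ Icc (0 : ℝ) 1 := ⟨le_rfl, zero_le_one⟩
  have G0 : ∀ q : F, ‖q‖ = 1 → (D.Psi Φ (6 + B) (0, 0) q).comp (ContinuousLinearMap.inr ℝ F F) =
      ContinuousLinearMap.inr ℝ F F := fun q hq => by
    rw [h.psi_left hΦ 0 (ne1 hq)]
    ext p <;> simp [shr_apply]
  refine leg_norm (f := D.f)
    (G := fun s q => (D.Psi Φ (6 + B) (s, 0) q).comp (ContinuousLinearMap.inr ℝ F F))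
    (K := fun p q => pbB (D.Psi Φ (6 + B) p q) (om0 F)) ⟨?_, ?_, ?_, ?_, ?_, ?_⟩
    (fun a ha => h.f_zero ha) G0 ?_ (fun q hq => h.lag (ne1 hq)) ⟨?_, ?_⟩ ?_ ?_ ?_ ?_
  · exact fun s _ a ha => h.sm_f s ha
  · intro s hs q hq
    have h1 := h.psi_sm (d := 6 + B) hΦ (p := (s, 0)) hs (ne1 (mem_core_one.1 hq))
    exact LegC_slice h1
  · intro s _ ρ hρ a ha
    rw [sa_one_apply, Sc_one_apply]
    exact h.f_smul s hρ ha
  · exact fun s _ a ha => h.y_ne s ha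
  · intro s hs q hq
    have hq' := mem_core_one.1 hq
    rw [h.psi_bot hΦ hs hq' (hlo q hq')]
    exact h.psi_inj hΦ hd ⟨hs, z1⟩ hq' (hlo q hq')
  · exact fun s hs q hq q' hq' e => h.emb hs (mem_core_one.1 hq) (mem_core_one.1 hq') e
  · intro s hs q hq
    have : (D.f s q).2 - D.ς (D.f s q).1 = shp (D.Gam s (D.φ q) (D.y s q)) := by
      simp [ZD.f, ZD.sec]
    rw [this, norm_shp]
    exact hc s hs _ _ (h.y_ne s (ne1 hq))
  · intro z hz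
    have h1 := (h.psi_sm (d := 6 + B) hΦ (p := z.1) hz.1.1
      (ne1 (mem_core_one.1 hz.2))).continuousAt
    exact (LegC_cont h1).continuousWithinAt
  · intro p hp q hq
    have hq' := mem_core_one.1 hq
    exact nd_pbB (h.psi_inj hΦ hd hp hq' (hlo q hq')) nd_om0
  · intro s hs q hq
    simp only [h.psi_bot hΦ hs hq (hlo q hq)]
  · intro l _ q hq
    simp only [h.psi_bot hΦ z1 hq (hlo q hq)]
    simp only [h.psi_left hΦ _ (ne1 hq)]
    rw [lin_shr, sub_zero, one_smul]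
  · intro s _ q hq
    exact h.psi_top hΦ s (ne1 hq) (by linarith [hlo q hq])
  · intro l hl q hq
    exact h.psi_right hΦ hd hl hq (hlo q hq)

theorem leg_crit (F : Type) [NormedAddCommGroup F] [InnerProductSpace ℝ F] [FiniteDimensional ℝ F]
    (h3 : 3 ≤ Module.finrank ℝ F) : LegStmt (1 : F →L[ℝ] F) := by
  intro ς hς r hr
  obtain ⟨P, J, n₀, hP, hJ, hJ', hJ'', hn, hcap⟩ := split_exists h3
  obtain ⟨φ₀, κ₀, u₀, lam₀, Ψ₀, Ec₀, hp₀, hφ₀⟩ := join_pre hP hJ hJ' hJ''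
  have hr4 : 0 < r / 4 := by linarith
  obtain ⟨δ, hδ, e₁, b, z₁, se₁, sb', sz₁, he₁, hb, H₁⟩ :=
    hol_exists hn hς.sm_one hς.h0_one hr4
  obtain ⟨h, k, hd, hk⟩ := boost_exists hn hδ
  obtain ⟨κ, u, lam₁, Ec, hp⟩ := hp₀.map hd
  obtain ⟨φ, lam, e₂, z₂, a, hbd, se₂, sz₂, sa', he₂, ha, H₂⟩ :=
    red_exists hp sb' hb (fun x hx => (H₁ x hx).2.1) (fun x hx hbx => by
      have := hcap _ (hk x hx ((H₁ x hx).2.2.1 hbx))
      exact hφ₀ _ (hd.nek x hx) this.1 this.2) hr4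
  obtain ⟨C, hC, hB⟩ := exists_three_bounds ha sa' hbd.hφ hbd.smφ
  have hc0 : 0 < 2 * C + 1 + (C + 1) * C := by positivity
  obtain ⟨η, hη0, hη1, hη2⟩ : ∃ η : ℝ, 0 < η ∧ η ≤ 1 / 2 ∧
      (2 * C + 1 + (C + 1) * C) * η ≤ r / 4 :=
    ⟨min (1 / 2) (r / 4 / (2 * C + 1 + (C + 1) * C)), lt_min (by norm_num) (div_pos hr4 hc0),
      min_le_left _ _, (le_div_iff₀' hc0).1 (min_le_right _ _)⟩
  obtain ⟨g, k', w, n₁, n₀', hcv⟩ := crv_exists C hη0 (by linarith)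
  let D : ZD F := ⟨ς, φ, κ, u, lam, fun x => e₁ x + e₂ x, fun x => z₁ x + z₂ x, a, g, k', w, n₁,
    n₀', C, η⟩
  have hD : D.Ok :=
    { bd := hbd
      cv := hcv
      hη := hη1
      smς := hς.sm_one
      hς := hς.h0_one
      sme := fun x hx => (se₁ x hx).add (se₂ x hx)
      he := fun ρ hρ x hx => by simp only [D, he₁ ρ hρ x hx, he₂ ρ hρ x hx]
      smz := fun x hx => (sz₁ x hx).add (sz₂ x hx)
      sma := sa'
      ha := ha
      red := fun x hx v => by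
        have h1 := (H₁ x hx).2.2.2 v
        have h2 := (H₂ x hx).2.2 v
        simp only [D]
        rw [fderiv_fun_add (sz₁.diff hx) (sz₂.diff hx)]
        simp only [add_apply]
        linarith
      supp := fun x hx => (H₂ x hx).2.1
      ba := fun x hx => (hB x hx).1 }
  refine hD.leg fun s hs t y hy => ?_
  have he : ‖D.e y‖ ≤ r / 4 + r / 4 :=
    (norm_add_le _ _).trans (add_le_add (H₁ y hy).1 (H₂ y hy).1)
  have := hD.small hC hy (hB y hy).2.1 (hB y hy).2.2 he hs t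
  simp only [D] at this ⊢
  linarith

end Pool.Agent.Lib.MP_ccffa6_gt.ELI
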