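import Pool.Agent.Lib.MP_ccffa6_gt.ELI.Nr

/-!
From paths to chains of segments.
-/

open Set Filter Topology
open scoped ContDiff RealInnerProductSpace

noncomputable section

namespace Pool.Agent.Lib.MP_ccffa6_gt.ELI

variable {F : Type} [NormedAddCommGroup F] [InnerProductSpace ℝ F] [FiniteDimensional ℝ F]
  {P : F →L[ℝ] F} {R : ℝ} {tgt lam : Form1 (F × F)} {a : Lf P}

omit [FiniteDimensional ℝ F] in
theorem Rch_seg {lam' : Form1 (F × F)} (hl : Adm P lam) (hl' : Adm P lam') (ho : EqOut P R lam lam')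
    (h : ∀ t ∈ Icc (0 : ℝ) 1, ∀ y ∈ Cyl P R, ND ⊤ ((1 - t) • dF lam y + t • dF lam' y)) :
    Seg P R lam lam' :=
  ⟨hl, hl', ho, fun t ht y hy => by
    rw [dF_lin (hl.diff (ne_of_ht hy.1)) (hl'.diff (ne_of_ht hy.1))]; exact h t ht y hy⟩

omit [FiniteDimensional ℝ F] in
theorem Rch_nd {lam' : Form1 (F × F)} (h : Seg P R lam lam') {t : ℝ} (ht : t ∈ Icc (0 : ℝ) 1)
    {y : F × F} (hy : y ∈ Cyl P R) : ND ⊤ ((1 - t) • dF lam y + t • dF lam' y) := by
  have := h.ct t ht y hy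
  rwa [dF_lin (h.adm.diff (ne_of_ht hy.1)) (h.adm'.diff (ne_of_ht hy.1))] at this

omit [FiniteDimensional ℝ F] in
theorem Rch_dF {lam' : Form1 (F × F)} (e : ∀ y : F × F, P y.1 ≠ 0 → lam' y = lam y) {y : F × F}
    (hy : P y.1 ≠ 0) : dF lam' y = dF lam y := dF_congr ((eventually_ne hy).mono e)

theorem Rch_comb {V : Type} [NormedAddCommGroup V] [NormedSpace ℝ V] {w₀ w w' : Bil V} {ε t : ℝ}
    (h : (∀ u, w u u = 0) ∧ ‖w - w₀‖ ≤ ε) (h' : (∀ u, w' u u = 0) ∧ ‖w' - w₀‖ ≤ ε)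
    (ht : t ∈ Icc (0 : ℝ) 1) :
    (∀ u, ((1 - t) • w + t • w') u u = 0) ∧ ‖(1 - t) • w + t • w' - w₀‖ ≤ ε := by
  refine ⟨fun u => by simp [h.1 u, h'.1 u], ?_⟩
  exact mem_closedBall_iff_norm.1 (convex_closedBall w₀ ε (mem_closedBall_iff_norm.2 h.2)
    (mem_closedBall_iff_norm.2 h'.2) (sub_nonneg.2 ht.2) ht.1 (sub_add_cancel 1 t))

theorem Rch_same {V : Type} [NormedAddCommGroup V] [NormedSpace ℝ V] (w : Bil V) (t : ℝ) :
    (1 - t) • w + t • w = w := by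
  ext u v
  simp only [add_apply, smul_apply, smul_eq_mul]
  ring

theorem Rch_zero {V : Type} [NormedAddCommGroup V] [NormedSpace ℝ V] (w w' : Bil V) :
    (1 - 0 : ℝ) • w + (0 : ℝ) • w' = w := by
  ext u v
  simp

theorem Rch_one {V : Type} [NormedAddCommGroup V] [NormedSpace ℝ V] (w w' : Bil V) :
    (1 - 1 : ℝ) • w + (1 : ℝ) • w' = w' := by
  ext u v
  simp

theorem Rch_cont {B Z : Type} [NormedAddCommGroup B] [NormedSpace ℝ B] [TopologicalSpace Z]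
    {s : Set Z} {τ : Z → ℝ} {f g : Z → B} (hτ : Continuous τ) (hf : ContinuousOn f s)
    (hg : ContinuousOn g s) : ContinuousOn (fun z => (1 - τ z) • f z + τ z • g z) s :=
  ((continuous_const.sub hτ).continuousOn.smul hf).add (hτ.continuousOn.smul hg)

theorem Rch_uc {B Z : Type} [NormedAddCommGroup B] [PseudoMetricSpace Z]
    {K : Set Z} (hK : IsCompact K) {f : Z → B} (hf : ContinuousOn f K) {ε : ℝ} (hε : 0 < ε) :
    ∃ δ > 0, ∀ x ∈ K, ∀ y ∈ K, dist x y ≤ δ → ‖f x - f y‖ ≤ ε := by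
  obtain ⟨δ, hδ, h⟩ := Metric.uniformContinuousOn_iff_le.1
    (hK.uniformContinuousOn_of_continuous hf) ε hε
  exact ⟨δ, hδ, fun x hx y hy hd => (dist_eq_norm (f x) (f y)).symm.trans_le (h x hx y hy hd)⟩

theorem Rch_nrm {B : Type} [NormedAddCommGroup B] [NormedSpace ℝ B] (D : B)
    (c : ℝ) {t : ℝ} (ht : t ∈ Icc (0 : ℝ) 1) : ‖c • t • D‖ ≤ ‖c • D‖ := by
  rw [smul_comm, norm_smul, Real.norm_of_nonneg ht.1]
  exact mul_le_of_le_one_left (norm_nonneg _) ht.2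

theorem Rch_mem {s s' t : ℝ} (hs : s ∈ Icc (0 : ℝ) 1) (hs' : s' ∈ Icc (0 : ℝ) 1)
    (ht : t ∈ Icc (0 : ℝ) 1) : (1 - t) • s + t • s' ∈ Icc (0 : ℝ) 1 :=
  convex_Icc 0 1 hs hs' (sub_nonneg.2 ht.2) ht.1 (sub_add_cancel 1 t)

theorem Seg.ct_right (hP : IsOP P) {lam' : Form1 (F × F)} (h : Seg P R lam lam') :
    Ct P R lam' := by
  intro y hy
  exact Rch_one (dF lam y) (dF lam' y) ▸ Rch_nd h ⟨zero_le_one, le_rfl⟩ hy

theorem Reach.congr (hP : IsOP P) {lam' : Form1 (F × F)} (h : Reach P R tgt lam a)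
    (e : ∀ y : F × F, P y.1 ≠ 0 → lam' y = lam y) : Reach P R tgt lam' a := by
  cases h with
  | base h1 h2 h3 =>
    obtain ⟨r, hr, h4⟩ := h3
    exact Reach.base (h1.congr hP e) (fun y hy => Rch_dF e (ne_of_ht hy.1) ▸ h2 y hy)
      ⟨r, hr, fun y hy => (e y hy.1).trans (h4 y hy)⟩
  | step h1 h2 h3 =>
    obtain ⟨r, hr, h4⟩ := h1.out
    refine Reach.step (Rch_seg (h1.adm.congr hP e) h1.adm'
      ⟨r, hr, fun y hy hy' => (h4 y hy hy').trans (e y hy).symm⟩ fun t ht y hy => ?_)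
      (h2.congr fun t _ q hq => ?_) h3
    · rw [Rch_dF e (ne_of_ht hy.1)]; exact Rch_nd h1 ht hy
    · simp only [seg, jet, Rch_dF e (y := (q, 0)) (core_ne hq)]

/-- Sketch: induction on the chain; for `y ∈ Cyl P R` with `r < rad P y` both forms agree near
`y`. -/
theorem Reach.mono (hP : IsOP P) {r : ℝ} (hr : r ≤ R) (h : Reach P r tgt lam a)
    (hc : Ct P R lam) : Reach P R tgt lam a := by
  induction h with
  | base h1 _ h3 => exact Reach.base h1 hc h3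
  | step h1 h2 _ ih =>
    obtain ⟨r₀, hr₀, h4⟩ := h1.out
    have hS := Rch_seg (R := R) h1.adm h1.adm' ⟨r₀, hr₀.trans_le hr, h4⟩ fun t ht y hy => by
      rcases le_or_gt ‖nu P y‖ r with h5 | h5
      · exact Rch_nd h1 ht ⟨hy.1, h5⟩
      · have hy' := ne_of_ht hy.1
        rw [← rad_of_ht hy.1] at h5
        rw [dF_congr (((eventually_ne hy').and ((continuousAt_rad hy').eventually
          (le_mem_nhds (hr₀.trans h5)))).mono fun z hz => h4 z hz.1 hz.2), Rch_same]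
        exact hc y hy
    exact Reach.step hS h2 (ih (hS.ct_right hP))

/-- Uniform closeness of the pulled back forms. -/
theorem Rch_unif (hP : IsOP P) {H : ℝ → F × F → F × F} (hH : HPath P R H) (hl : Adm P lam)
    (hc : Ct P R lam) : ∃ ε δ : ℝ, 0 < δ ∧ ∀ s ∈ Icc (0 : ℝ) 1, ∀ y ∈ Cyl P R,
      (∀ w : Bil (F × F), (∀ u, w u u = 0) ∧ ‖w - dF (pb (H s) lam) y‖ ≤ ε → ND ⊤ w) ∧
      ∀ s' ∈ Icc (0 : ℝ) 1, |s' - s| ≤ δ → (∀ u, dF (pb (H s') lam) y u u = 0) ∧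
        ‖dF (pb (H s') lam) y - dF (pb (H s) lam) y‖ ≤ ε := by
  have h1 := (tfam_const hP hl hc (Icc (0 : ℝ) 1)).pull hH continuousOn_id (mapsTo_id _)
  have h2 : ContinuousOn (fun z : ℝ × (F × F) => dF (pb (H z.1) lam) z.2) (Icc 0 1 ×ˢ Cyl P R) :=
    (h1.cont.mono (prod_mono_right fun y hy => ne_of_ht hy.1)).congr fun z hz =>
      (hH.toEqv hz.1).dF_pb hl (ne_of_ht hz.2.1)
  have hK : IsCompact (Icc (0 : ℝ) 1 ×ˢ Cyl P R) := isCompact_Icc.prod (isCompact_Cyl R)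
  obtain ⟨ε, hε, h3⟩ := nd_unif (hK.image_of_continuousOn h2) (by
    rintro _ ⟨z, hz, rfl⟩
    exact hH.ct hP hl hc hz.1 _ hz.2)
  obtain ⟨δ, hδ, h4⟩ := Rch_uc (B := Bil (F × F)) hK h2 hε
  refine ⟨ε, δ, hδ, fun s hs y hy => ⟨fun w hw => h3 _ ⟨(s, y), ⟨hs, hy⟩, rfl⟩ w hw.1 hw.2,
    fun s' hs' hd => ⟨dF_alt _ _, ?_⟩⟩⟩
  exact h4 (s', y) ⟨hs', hy⟩ (s, y) ⟨hs, hy⟩ (by
    rw [Prod.dist_eq, dist_self, Real.dist_eq]; exact max_le hd hδ.le)

/-- A short piece of the path is a segment, with the same tracking. -/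
theorem Rch_short (hP : IsOP P) (hR : 0 < R) {H : ℝ → F × F → F × F} (hH : HPath P R H)
    (hl : Adm P lam) (hc : Ct P R lam) : ∃ δ : ℝ, 0 < δ ∧ ∀ s ∈ Icc (0 : ℝ) 1,
      ∀ s' ∈ Icc (0 : ℝ) 1, |s' - s| ≤ δ → Seg P R (pb (H s) lam) (pb (H s') lam) ∧
        ∀ b b' : Lf P, Co (fun t => jet (pb (H ((1 - t) • s + t • s')) lam)) b b' →
          Co (seg (jet (pb (H s) lam)) (jet (pb (H s') lam))) b b' := by
  obtain ⟨ε, δ, hδ, h⟩ := Rch_unif hP hH hl hc
  obtain ⟨r, hr, ho⟩ := hH.pb_out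
  have hf := hH.fam hP hl hc hR.le
  refine ⟨δ, hδ, fun s hs s' hs' hd => ?_⟩
  have h0 : |s - s| ≤ δ := by rw [sub_self, abs_zero]; exact hδ.le
  have h1 : ∀ t ∈ Icc (0 : ℝ) 1, ∀ y ∈ Cyl P R, _ := fun t ht y hy =>
    Rch_comb ((h s hs y hy).2 s hs h0) ((h s hs y hy).2 s' hs' hd) ht
  refine ⟨Rch_seg ((hH.toEqv hs).adm hP hl) ((hH.toEqv hs').adm hP hl)
    ⟨r, hr, fun y hy hy' => (ho s' hs' lam y hy hy').trans (ho s hs lam y hy hy').symm⟩
    fun t ht y hy => (h s hs y hy).1 _ (h1 t ht y hy), fun b b' hb => ?_⟩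
  have hK : Fam (Icc (0 : ℝ) 1 ×ˢ Icc (0 : ℝ) 1) (core P) fun p q =>
      (1 - p.2) • jet (pb (H ((1 - p.1) • s + p.1 • s')) lam) q +
        p.2 • seg (jet (pb (H s) lam)) (jet (pb (H s') lam)) p.1 q := by
    have c1 := (hf.comp (D' := Icc (0 : ℝ) 1 ×ˢ Icc (0 : ℝ) 1)
      (g := fun p => (1 - p.1) • s + p.1 • s') (by fun_prop) fun p hp => Rch_mem hs hs' hp.1).cont
    have c2 := (hf.comp (D' := Icc (0 : ℝ) 1 ×ˢ Icc (0 : ℝ) 1) (g := fun _ => s)
      continuousOn_const fun _ _ => hs).cont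
    have c3 := (hf.comp (D' := Icc (0 : ℝ) 1 ×ˢ Icc (0 : ℝ) 1) (g := fun _ => s')
      continuousOn_const fun _ _ => hs').cont
    refine ⟨Rch_cont (B := Bil (F × F)) (τ := fun z : (ℝ × ℝ) × F => z.1.2) (by fun_prop) c1
      (Rch_cont (B := Bil (F × F)) (τ := fun z : (ℝ × ℝ) × F => z.1.1) (by fun_prop) c2 c3),
      fun p hp q hq => ?_⟩
    have hy := core_mem_Cyl hq hR.le
    refine (h s hs _ hy).1 _ (Rch_comb ((h s hs _ hy).2 _ (Rch_mem hs hs' hp.1) ?_)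
      (h1 p.1 hp.1 _ hy) hp.2)
    rw [show (1 - p.1) • s + p.1 • s' - s = p.1 * (s' - s) by simp only [smul_eq_mul]; ring,
      abs_mul, abs_of_nonneg hp.1.1]
    exact (mul_le_of_le_one_left (abs_nonneg _) hp.1.2).trans hd
  have e0 : (1 - 0 : ℝ) • s + (0 : ℝ) • s' = s := by simp
  have e1 : (1 - 1 : ℝ) • s + (1 : ℝ) • s' = s' := by simp
  have h2 := (Co.homot hK (fun σ _ q _ => by simp only [seg, e0, Rch_zero, Rch_same])
    (fun σ _ q _ => by simp only [seg, e1, Rch_one, Rch_zero, Rch_same])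
    (a := b) (a' := b')).1 (hb.congr fun t _ q _ => (Rch_zero _ _).symm)
  exact h2.congr fun t _ q _ => Rch_one _ _

/-- Sketch: `Ω t y = dF (pb (H t) lam) y` is continuous on `Icc 0 1 ×ˢ Cyl P R` (`TFam.pull`), so
with `ε` from `nd_unif` for its image and uniform continuity there is `n` such that all values
for `t ∈ [k/n, (k+1)/n]` are `ε`-close to the value at `k/n`. Downward induction on `k`: the lift
`b` with `Co (fun τ => jet (pb (H ((1 - τ) • (k/n) + τ • 1)) lam)) b a'` is reachable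
(`Co.exists_left` on the last part, `Co.tri` on `Icc 0 1`, `Co.unique_left`; `Co.homot` replaces
a short path by the segment). `HPath.pb_out` gives `EqOut`, `Reach.congr` the case `k = 0`. -/
theorem reach_pull (hP : IsOP P) (hR : 0 < R) {H : ℝ → F × F → F × F} (hH : HPath P R H)
    (hl : Adm P lam) (hc : Ct P R lam) {a' : Lf P} (hco : Co (fun t => jet (pb (H t) lam)) a a')
    (h : Reach P R tgt (pb (H 1) lam) a') : Reach P R tgt lam a := by
  obtain ⟨δ, hδ, hs⟩ := Rch_short hP hR hH hl hc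
  have hf := hH.fam hP hl hc hR.le
  have h1 : (1 : ℝ) ∈ Icc (0 : ℝ) 1 := ⟨zero_le_one, le_rfl⟩
  have hg : ∀ s ∈ Icc (0 : ℝ) 1, ∀ s' ∈ Icc (0 : ℝ) 1, Fam (Icc (0 : ℝ) 1) (core P)
      fun t => jet (pb (H ((1 - t) • s + t • s')) lam) := fun s hs s' hs' =>
    hf.comp (g := fun t => (1 - t) • s + t • s') (by fun_prop) fun t ht => Rch_mem hs hs' ht
  have key : ∀ n : ℕ, ∀ s ∈ Icc (0 : ℝ) 1, 1 - s ≤ n * δ → ∀ b : Lf P,
      Co (fun t => jet (pb (H ((1 - t) • s + t • (1 : ℝ))) lam)) b a' →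
      Reach P R tgt (pb (H s) lam) b := by
    intro n
    induction n with
    | zero =>
      intro s hs' hn b hb
      obtain rfl : s = 1 := le_antisymm hs'.2 (by simpa using hn)
      rwa [hb.unique_left (Co.refl fun t _ => by simpa using hco.over_right)]
    | succ n ih =>
      intro s hs' hn b hb
      have h2 : min 1 (s + δ) ∈ Icc (0 : ℝ) 1 :=
        ⟨le_min zero_le_one (by linarith [hs'.1]), min_le_left _ _⟩
      have h3 : |min 1 (s + δ) - s| ≤ δ := by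
        rw [abs_of_nonneg (sub_nonneg.2 (le_min hs'.2 (by linarith)))]
        linarith [min_le_right 1 (s + δ)]
      have h4 : 1 - min 1 (s + δ) ≤ n * δ := by
        push_cast at hn
        rcases le_total 1 (s + δ) with h5 | h5
        · rw [min_eq_left h5, sub_self]; positivity
        · rw [min_eq_right h5]; linarith
      obtain ⟨b', hb'⟩ := Co.exists_left (hg _ h2 1 h1) (a' := a') (by simpa using hco.over_right)
      obtain ⟨b'', hb''⟩ := Co.exists_left (hg s hs' _ h2) (a' := b') (by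
        simpa using hb'.over_left)
      obtain rfl := hb.unique_left (Co.tri (convex_Icc 0 1) hf hs' h2 h1 hb'' hb')
      exact Reach.step (hs s hs' _ h2 h3).1 ((hs s hs' _ h2 h3).2 _ _ hb'') (ih _ h2 h4 _ hb')
  obtain ⟨n, hn⟩ := exists_nat_ge (1 / δ)
  refine (key n 0 ⟨le_rfl, zero_le_one⟩ (by rwa [sub_zero, ← div_le_iff₀ hδ]) a
    (by simpa using hco)).congr hP fun y hy => (hH.pb_zero lam hy).symm

/-- Sketch: `ε` from `unif`; the segment from `pb (H 1) lam` to `mu` has differential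
`pbB _ (dF lam _ + t • D)`. -/
theorem Nr.reach (hP : IsOP P) (hR : 0 < R) (hl : Adm P lam) (hc : Ct P R lam)
    (h : Nr P R tgt lam a) : Reach P R tgt lam a := by
  obtain ⟨ε, hε, hu⟩ := unif hP hl hc
  obtain ⟨H, mu, a', hH, hm, ho, hn, hD, h1, h2⟩ := h ε hε
  have i1 : (1 : ℝ) ∈ Icc (0 : ℝ) 1 := ⟨zero_le_one, le_rfl⟩
  have hS := Rch_seg ((hH.toEqv i1).adm hP hl) hm ho fun t ht y hy => by
    have hy' := ne_of_ht hy.1
    have hr : rad P y ≤ R := (rad_of_ht hy.1).le.trans hy.2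
    obtain ⟨D, d1, d2, d3⟩ := hD y hy' hr
    have e : (1 - t) • dF (pb (H 1) lam) y + t • dF mu y =
        pbB (fderiv ℝ (H 1) y) (dF lam (H 1 y) + t • D) := by
      rw [(hH.toEqv i1).dF_pb hl hy', d2]
      refine ContinuousLinearMap.ext fun u => ContinuousLinearMap.ext fun v => ?_
      simp only [add_apply, smul_apply, smul_eq_mul, pbB_apply]
      ring
    rw [e]
    refine nd_pbB (hH.inj 1 i1 y hy') (hu _ ((hH.toEqv i1).ne y hy') (hH.rad_le i1 hy' hr) _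
      (fun u => by simp [d1 u]) ?_)
    exact (Rch_nrm (B := Bil (F × F)) (pbB _ D) _ ht).trans d3
  exact reach_pull hP hR hH hl hc h1 (Reach.step hS h2 (Reach.base hm (hS.ct_right hP) hn))

end Pool.Agent.Lib.MP_ccffa6_gt.ELI
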