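import Pool.Agent.Lib.MP_ccffa6_gt.ELI.SubA

/-!
The subcritical case.
-/

open Set Filter Topology
open scoped ContDiff RealInnerProductSpace

noncomputable section

namespace Pool.Agent.Lib.MP_ccffa6_gt.ELI

variable {F : Type} [NormedAddCommGroup F] [InnerProductSpace ℝ F] [FiniteDimensional ℝ F]
  {P : F →L[ℝ] F}

theorem SubB_sa {e : F} (hPe : P e = 0) (ρ t : ℝ) (a : F) :
    sa P ρ (a + t • e) = sa P ρ a + t • e := by
  rw [map_add, map_smul, sa_apply ρ e, hPe, smul_zero, zero_add, sub_zero]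

theorem SubB_W (hP : IsOP P) {e : F} (hPe : P e = 0) {w : F → ℝ} (hw : ContDiff ℝ ∞ w)
    (hwe : ∀ x (t : ℝ), w (x + t • e) = w x) :
    ∃ W : F → ℝ, (∀ a, P a ≠ 0 → ContDiffAt ℝ ∞ W a) ∧
      (∀ ρ : ℝ, 0 < ρ → ∀ a, W (sa P ρ a) = W a) ∧ (∀ a, P a ≠ 0 → fderiv ℝ W a e = 0) ∧
      ∀ q ∈ core P, W q = w q := by
  have h1 : ∀ a, P a ≠ 0 → ContDiffAt ℝ ∞ (fun x => w (hat P x)) a :=
    fun a ha => hw.contDiffAt.comp a (contDiffAt_hat ha)
  refine ⟨fun x => w (hat P x), h1, fun ρ hρ a => congrArg w (hat_sa hP hρ a), fun a ha => ?_,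
    fun q hq => congrArg w (hat_of_norm (by rw [hq.1, hq.2]))⟩
  have h2 : ∀ t : ℝ, w (hat P (a + t • e)) = w (hat P a) := fun t => by
    rw [hat, SubB_sa hPe, hwe, map_add, map_smul, hPe, smul_zero, add_zero, hat]
  rw [← ((h1 a ha).differentiableAt (by simp)).lineDeriv_eq_fderiv, lineDeriv]
  simp only [h2, deriv_const]

theorem SubB_grad {W : F → ℝ} {a : F} (h : ContDiffAt ℝ ∞ W a) :
    ContDiffAt ℝ ∞ (gradient W) a :=
  (InnerProductSpace.toDual ℝ F).symm.toContinuousLinearEquiv.toContinuousLinearMap.contDiff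
    |>.contDiffAt.comp a (h.fderiv_right (m := ∞) le_rfl)

theorem SubB_blk {f : F → F × F} {G : F →L[ℝ] F × F} {q e g : F} {s : ℝ} (hg : ⟪g, e⟫ = 0)
    (hf : ∀ u, (fderiv ℝ f q u).1 = u + (s * ⟪g, u⟫) • e)
    (hG : ∀ b, G b = (0, b - ⟪e, b⟫ • s • g)) : Blk (pbB (frm f G q) (om0 F)) := by
  refine ⟨fun u => (pbB_apply _ _ u u).trans (nd_om0.1 _ trivial), fun u b => ?_, fun b b' => ?_⟩
  · simp only [pbB_apply, frm_apply, map_zero, add_zero, zero_add]
    simp only [om0_apply, hf, hG,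
      inner_zero_right, sub_zero, inner_add_left, inner_sub_right, real_inner_smul_left,
      real_inner_smul_right, real_inner_comm g u, real_inner_comm g e, hg]
    ring
  · simp only [pbB_apply, frm_apply, map_zero, zero_add, om0_apply, hG, inner_zero_right,
      inner_zero_left, sub_zero]

/-- The subcritical case, by explicit jets. -/
theorem leg_sub (hP : IsOP P) {e : F} (he : ‖e‖ = 1) (hPe : P e = 0) : LegStmt P := by
  intro ς hς r hr
  obtain ⟨w, Y, hw, hwε, hwe, hY, hYε⟩ := sub_hol hP he hPe hς (half_pos hr)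
  obtain ⟨W, W1, W2, W3, W4⟩ := SubB_W hP hPe hw hwe
  have hγ := hY.sect hP
  have hτ := hγ.sub hς
  obtain ⟨h, hh⟩ : ∃ h : ℝ → F → F, h = fun s x => x + (s * W x) • e := ⟨_, rfl⟩
  have h1 : ∀ s x, P (h s x) = P x := fun s x => by
    simp only [hh, map_add, map_smul, hPe, smul_zero, add_zero]
  have h2 : ∀ s (ρ : ℝ), 0 < ρ → ∀ x, h s (sa P ρ x) = sa P ρ (h s x) := fun s ρ hρ x => by
    simp only [hh, W2 ρ hρ, SubB_sa hPe]
  have h3 : ∀ s a, P a ≠ 0 → ContDiffAt ℝ ∞ (fun z : ℝ × F => h z.1 z.2) (s, a) := by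
    intro s a ha
    subst hh
    exact contDiffAt_snd.add
      ((contDiffAt_fst.mul ((W1 a ha).comp (s, a) contDiffAt_snd)).smul contDiffAt_const)
  have h4 : ∀ s a, P a ≠ 0 → HasFDerivAt (h s)
      (ContinuousLinearMap.id ℝ F + (s • fderiv ℝ W a).smulRight e) a := by
    intro s a ha
    subst hh
    exact (hasFDerivAt_id a).add
      ((((W1 a ha).differentiableAt (by simp)).hasFDerivAt.const_mul s).smul_const e)
  have h5 : ∀ s a, P a ≠ 0 → P (h s a) ≠ 0 := fun s a ha => h1 s a ▸ ha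
  obtain ⟨f, hf⟩ : ∃ f : ℝ → F → F × F,
      f = fun s x => (h s x, ς (h s x) + s • (gradient Y (h 1 x) - ς (h 1 x))) := ⟨_, rfl⟩
  obtain ⟨G, hG⟩ : ∃ G : ℝ → F → F →L[ℝ] F × F, G = fun s q =>
      (ContinuousLinearMap.inr ℝ F F).comp (ContinuousLinearMap.id ℝ F -
        ContinuousLinearMap.smulRightL ℝ F F (innerSL ℝ e) (s • gradient W q)) := ⟨_, rfl⟩
  have f1 : ∀ s a, P a ≠ 0 → ContDiffAt ℝ ∞ (fun z : ℝ × F => f z.1 z.2) (s, a) := by
    intro s a ha
    subst hf
    have e1 : ContDiffAt ℝ ∞ (fun z : ℝ × F => h 1 z.2) (s, a) := (h3 1 a ha).comp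
      (f := fun z : ℝ × F => ((1 : ℝ), z.2)) (s, a) (contDiffAt_const.prodMk contDiffAt_snd)
    have e2 := (hτ.sm _ (h5 1 a ha)).comp (f := fun z : ℝ × F => h 1 z.2) (s, a) e1
    have e3 := (hς.sm _ (h5 s a ha)).comp (f := fun z : ℝ × F => h z.1 z.2) (s, a) (h3 s a ha)
    exact (h3 s a ha).prodMk (e3.add (contDiffAt_fst.smul e2))
  have f2 : ∀ s a, (f s a).1 = h s a := fun s a => by rw [hf]
  have f3 : ∀ s a, P a ≠ 0 → DifferentiableAt ℝ (f s) a := fun s a ha =>
    ((f1 s a ha).comp (f := fun x : F => (s, x)) a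
      (contDiffAt_const.prodMk contDiffAt_id)).differentiableAt (by simp)
  have hb : ∀ s, ∀ q ∈ core P, Blk (pbB (frm (f s) (G s q) q) (om0 F)) := by
    intro s q hq
    refine SubB_blk (e := e) (g := gradient W q) (s := s)
      ((inner_gradient W q e).trans (W3 q (core_ne hq))) (fun u => ?_) fun b => by rw [hG]; rfl
    have e1 := (f3 s q (core_ne hq)).hasFDerivAt.fst
    simp only [f2] at e1
    rw [inner_gradient]
    exact DFunLike.congr_fun (e1.unique (h4 s q (core_ne hq))) u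
  have hht : ∀ s, ∀ q ∈ core P, ∀ b, ht P (h s q, b) = 1 := fun s q hq b => by
    rw [ht, h1, hq.1, hq.2]
  have hJ : Jets P f G := by
    refine ⟨fun s _ => f1 s, fun s _ q hq => ?_, fun s _ ρ hρ a ha => ?_,
      fun s _ a ha => f2 s a ▸ h5 s a ha,
      fun s _ q hq => (nd_of_pbB (fun u => nd_om0.1 u trivial) (hb s q hq).nd).2,
      fun s _ q hq q' hq' e => ?_⟩
    · subst hG
      have e1 := (SubB_grad (W1 q (core_ne hq))).comp (f := fun z : ℝ × F => z.2) (s, q)
        contDiffAt_snd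
      exact contDiffAt_const.clm_comp (contDiffAt_const.sub
        ((ContinuousLinearMap.smulRightL ℝ F F (innerSL ℝ e)).contDiff.contDiffAt.comp (s, q)
          (contDiffAt_fst.smul e1)))
    · simp only [hf, Sc_apply, h2 _ ρ hρ, hς.eqv ρ hρ _ (h5 _ a ha), hγ.eqv ρ hρ _ (h5 _ a ha),
        map_add, map_smul, map_sub]
    · subst hf
      rw [nz_of_ht (hht s q hq _), nz_of_ht (hht s q' hq' _)] at e
      rw [← hq.1, ← hq'.1, ← h1 s q, ← h1 s q']
      exact congrArg (fun y : F × F => P y.1) e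
  have hone : ∀ q ∈ core P, pbB (frm (f 1) (G 1 q) q) (om0 F) = om0 F := by
    intro q hq
    refine (hb 1 q hq).ext blk_om0 fun u u' => ?_
    have e1 : f 1 = fun x => (h 1 x, gradient Y (h 1 x)) := by
      simp only [hf, one_smul, add_sub_cancel]
    have e2 := h4 1 q (core_ne hq)
    have e3 := e2.prodMk
      (((hγ.sm _ (h5 1 q (core_ne hq))).differentiableAt (by simp)).hasFDerivAt.comp q e2)
    have e4 : fderiv ℝ (f 1) q = _ := e1 ▸ e3.fderiv
    simp only [pbB_apply, frm_apply, map_zero, add_zero, om0_apply, e4,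
      ContinuousLinearMap.prod_apply, ContinuousLinearMap.comp_apply,
      hess_symm (hY.sm _ (h5 1 q (core_ne hq))), sub_self, inner_zero_right, inner_zero_left]
  refine ⟨f, G, hJ, fun a _ => by simp [hf, hh], fun q _ => by simp [hG], fun s hs q hq => ?_,
    hone, fun a ha => ?_⟩
  · refine ⟨f2 s q ▸ h5 s q (core_ne hq), ?_⟩
    have e1 : |s| ≤ 1 := abs_le.2 ⟨by linarith [hs.1], hs.2⟩
    have e2 := hYε q hq
    have e3 : h 1 q = q + w q • e := by simp only [hh, one_mul, W4 q hq]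
    have e4 : h s q - P (h s q) = (s * w q) • e := by
      rw [h1, hq.1]
      simp only [hh, W4 q hq, add_sub_cancel_left]
    rw [f2, rad_of_ht (hht s q hq _), nu_apply, Prod.norm_mk, e4]
    simp only [hf, add_sub_cancel_left, e3, norm_smul, he, mul_one, Real.norm_eq_abs, abs_mul]
    exact (max_le ((mul_le_of_le_one_left (abs_nonneg _) e1).trans (hwε q))
      ((mul_le_of_le_one_left (norm_nonneg _) e1).trans e2)).trans_lt (half_lt_self hr)
  · have e1 := continuous_pbB.comp_continuousOn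
      (hJ.contOn_frm.prodMk (continuousOn_const (c := om0 F)))
    have e2 : Co (seg (fun q => pbB (frm (f 0) (G 0 q) q) (om0 F))
        fun q => pbB (frm (f 1) (G 1 q) q) (om0 F)) a (bas P) :=
      ha.congr fun t _ q hq => by simp only [seg, hone q hq]
    exact (co_blk (c := fun s q => pbB (frm (f s) (G s q) q) (om0 F)) e1 fun s _ => hb s).2 e2

end Pool.Agent.Lib.MP_ccffa6_gt.ELI
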