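import Pool.Agent.Lib.MP_ccffa6_gt.ELI.DescC
import Pool.Agent.Lib.MP_ccffa6_gt.ELI.GenD
import Pool.Agent.Lib.MP_ccffa6_gt.ELI.SubB
import Pool.Agent.Lib.MP_ccffa6_gt.ELI.Rch
import Pool.Agent.Lib.MP_ccffa6_gt.ELI.IE
import Pool.Agent.Lib.MP_ccffa6_gt.ELI.LegC

/-!
The tube theorem.
-/

open Set Filter Topology
open scoped ContDiff RealInnerProductSpace

noncomputable section

namespace Pool.Agent.Lib.MP_ccffa6_gt.ELI

variable {F : Type} [NormedAddCommGroup F] [InnerProductSpace ℝ F] [FiniteDimensional ℝ F]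
  {P : F →L[ℝ] F}

theorem leg (h3 : 3 ≤ Module.finrank ℝ F) (hP : IsOP P) : LegStmt P := by
  by_cases h : ∀ x, P x = x
  · have : P = 1 := ContinuousLinearMap.ext h
    subst this
    exact leg_crit F h3
  · obtain ⟨x, hx⟩ := not_forall.1 h
    have hne : x - P x ≠ 0 := fun h0 => hx (sub_eq_zero.1 h0).symm
    refine leg_sub hP (e := ‖x - P x‖⁻¹ • (x - P x)) ?_ ?_
    · rw [norm_smul, norm_inv, norm_norm, inv_mul_cancel₀ (norm_ne_zero_iff.2 hne)]
    · rw [map_smul, map_sub, hP.idem, sub_self, smul_zero]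

theorem tube (F : Type) [NormedAddCommGroup F] [InnerProductSpace ℝ F] [FiniteDimensional ℝ F]
    (h3 : 3 ≤ Module.finrank ℝ F) : TubeStmt F := by
  intro P hP R hR lam tgt hl hc ht hj a ha
  obtain ⟨r, hr, fam, hadm, hct, hcont, h0, h1, hco⟩ := genuine hP hl ha
  have hm : 0 < min r R := lt_min hr hR
  have hb := gd_base hP hm ht hj
  have hct' : ∀ s ∈ Icc (0 : ℝ) 1, Ct P (min r R) (fam s) := fun s hs y hy =>
    hct s hs y (Cyl_mono (min_le_left _ _) hy)
  have h1' : Nr P (min r R) tgt (fam 1) (bas P) :=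
    hb _ (hadm 1 ⟨zero_le_one, le_rfl⟩) (hct' 1 ⟨zero_le_one, le_rfl⟩) hco.over_right
  have h2 := (descent (ie F) (leg h3 hP) hP hm hb hj hadm hct' hcont hco h1').congr hP
    (lam' := lam) fun y hy => (h0 y hy).symm
  exact (h2.reach hP hm hl fun y hy => hc y (Cyl_mono (min_le_right _ _) hy)).mono hP
    (min_le_right _ _) hc

end Pool.Agent.Lib.MP_ccffa6_gt.ELI
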