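import Pool.Agent.Lib.MP_ccffa6_gt.ELI.HMain
import Pool.Agent.Lib.MP_ccffa6_gt.ELI.HMor
import Pool.Agent.Lib.MP_ccffa6_gt.ELI.TubeMain

/-! Block ELI. -/

namespace Pool.Agent.Lib.MP_ccffa6_gt

theorem ELI_main {n : ℕ} (hn : 2 ≤ n) : ELIKStmt n :=
  ELI.elik_of_h1 (ELI.h1 (by omega) fun F _ _ _ h => ELI.tube F (by omega))

end Pool.Agent.Lib.MP_ccffa6_gt
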