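import Pool.Agent.Lib.MP_ccffa6_gt.ELI.HP2

/-!
Forms which can be moved arbitrarily close to a form that is standard near the core.
-/

open Set Filter Topology
open scoped ContDiff RealInnerProductSpace

noncomputable section

namespace Pool.Agent.Lib.MP_ccffa6_gt.ELI

variable {F : Type} [NormedAddCommGroup F] [InnerProductSpace ℝ F] [FiniteDimensional ℝ F]
  {P : F →L[ℝ] F} {R : ℝ} {tgt lam : Form1 (F × F)} {a : Lf P}

/-- Up to a path of local diffeomorphisms, `lam` is arbitrarily close to a form which equals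
`tgt` near the core, and the lift `a` is carried to the base. -/
def Nr (P : F →L[ℝ] F) (R : ℝ) (tgt lam : Form1 (F × F)) (a : Lf P) : Prop :=
  ∀ ε > 0, ∃ (H : ℝ → F × F → F × F) (mu : Form1 (F × F)) (a' : Lf P), HPath P R H ∧ Adm P mu ∧
    EqOut P R (pb (H 1) lam) mu ∧ EqNear P mu tgt ∧
    (∀ y : F × F, P y.1 ≠ 0 → rad P y ≤ R → ∃ D : Bil (F × F), (∀ u, D u u = 0) ∧
      dF mu y = pbB (fderiv ℝ (H 1) y) (dF lam (H 1 y) + D) ∧ nrm P (H 1 y) D ≤ ε) ∧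
    Co (fun t => jet (pb (H t) lam)) a a' ∧
    Co (seg (jet (pb (H 1) lam)) (jet mu)) a' (bas P)

theorem EqNear.jet_eq {mu : Form1 (F × F)} (h : EqNear P mu tgt) {q : F} (hq : q ∈ core P) :
    jet mu q = jet tgt q := by
  obtain ⟨r, hr, he⟩ := h
  exact dF_congr (eventually_of_mem ((isOpen_Tube r).mem_nhds (core_mem_Tube hq hr)) he)

omit [FiniteDimensional ℝ F] in
theorem Nr_pb_id (lam : Form1 (F × F)) : pb (fun y => y) lam = lam := by
  funext y
  simp [pb]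

omit [FiniteDimensional ℝ F] in
theorem Nr_dF {α β : Form1 (F × F)} (e : ∀ y : F × F, P y.1 ≠ 0 → α y = β y) {y : F × F}
    (hy : P y.1 ≠ 0) : dF α y = dF β y :=
  dF_congr ((eventually_ne hy).mono e)

omit [FiniteDimensional ℝ F] in
theorem Nr_fderiv {φ ψ : F × F → F × F} (h : Eqv P φ) (h' : Eqv P ψ) {y : F × F}
    (hy : P y.1 ≠ 0) :
    fderiv ℝ (fun y => φ (ψ y)) y = (fderiv ℝ φ (ψ y)).comp (fderiv ℝ ψ y) :=
  fderiv_fun_comp y ((h.sm _ (h'.ne y hy)).differentiableAt (by simp))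
    ((h'.sm y hy).differentiableAt (by simp))

/-- Sketch: `H = id`, `mu = lam`, `D = 0`, `Co.refl`. -/
theorem nr_std (hl : Adm P lam) (hn : EqNear P lam tgt) (ht : ∀ q ∈ core P, jet tgt q = om0 F) :
    Nr P R tgt lam (bas P) := by
  intro ε hε
  have ho : (bas P).Over (jet lam) := fun q => ((hn.jet_eq q.2).trans (ht q q.2)).symm
  refine ⟨fun _ y => y, lam, bas P, hpath_id R, hl, ⟨R - 1, by linarith, fun y _ _ => ?_⟩, hn,
    fun y _ _ => ⟨0, fun _ => rfl, ?_, ?_⟩, Co.refl fun t _ => ?_, Co.refl fun t _ => ?_⟩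
  · rw [Nr_pb_id]
  · rw [fderiv_fun_id, pbB_id]
    ext <;> simp
  · have : ((ELI.ht P y)⁻¹ • pbB (Sc P (ELI.ht P y)) (0 : Bil (F × F)) : Bil (F × F)) = 0 := by
      ext <;> simp
    show nrm P y 0 ≤ ε
    rw [nrm, this]
    exact (norm_zero (E := Bil (F × F))).trans_le hε.le
  · rw [Nr_pb_id]
    exact ho
  · rw [Nr_pb_id]
    refine ho.congr fun q _ => ?_
    refine ContinuousLinearMap.ext fun u => ContinuousLinearMap.ext fun v => ?_
    simp only [seg, add_apply, smul_apply, smul_eq_mul]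
    ring

/-- Sketch: `C` from `HPath.trans`; apply the hypothesis with `ε / C`, compose the paths
(`HPath.comp`), get the new `D` from `exists_pbB`. Tracking: `Co.diag` for
`K (t₁, t₂) q = pbB (fderiv (H' t₂) (q,0)) (pbB (fderiv (H t₁) _) (dF lam (H t₁ (H' t₂ (q,0)))))`
(`TFam.pull` twice, `pb_comp`, `dF_congr`). -/
theorem nr_pull (hP : IsOP P) (hR : 0 < R) {H : ℝ → F × F → F × F} (hH : HPath P R H)
    (hl : Adm P lam) (hc : Ct P R lam) {a₁ : Lf P} (hco : Co (fun t => jet (pb (H t) lam)) a a₁)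
    (h : Nr P R tgt (pb (H 1) lam) a₁) : Nr P R tgt lam a := by
  intro ε hε
  have z1 : (1 : ℝ) ∈ Icc (0 : ℝ) 1 := by simp
  obtain ⟨C, hC, hT⟩ := hH.trans hP
  obtain ⟨H', mu, a', hH', hmu, ⟨r, hr, hout⟩, hnear, hD, c1, c2⟩ := h (ε / C) (div_pos hε hC)
  have hl₁ : Adm P (pb (H 1) lam) := (hH.toEqv z1).adm hP hl
  have hpb : ∀ y : F × F, P y.1 ≠ 0 →
      pb (fun y => H 1 (H' 1 y)) lam y = pb (H' 1) (pb (H 1) lam) y := fun y hy =>
    pb_comp lam ((hH'.sm 1 z1 y hy).differentiableAt (by simp))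
      ((hH.sm 1 z1 _ ((hH'.toEqv z1).ne y hy)).differentiableAt (by simp))
  refine ⟨fun t y => H t (H' t y), mu, a', hH.comp hH', hmu,
    ⟨r, hr, fun y hy hy' => (hout y hy hy').trans (hpb y hy).symm⟩, hnear, fun y hy hy' => ?_, ?_,
    c2.congr fun t _ q hq => ?_⟩
  · obtain ⟨D, hD0, hD1, hD2⟩ := hD y hy hy'
    have hz := (hH'.toEqv z1).ne y hy
    obtain ⟨D', h0, h1⟩ := exists_pbB (hH.inj 1 z1 _ hz) hD0
    refine ⟨D', h0, ?_, (hT _ hz (hH'.rad_le z1 hy hy') D').trans ?_⟩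
    · rw [hD1, (hH.toEqv z1).dF_pb hl hz, ← h1, ← pbB_add, ← pbB_comp,
        Nr_fderiv (hH.toEqv z1) (hH'.toEqv z1) hy]
    · rw [h1]
      exact (le_div_iff₀' hC).1 hD2
  · have hK := ((((tfam_const hP hl hc (Icc (0 : ℝ) 1 ×ˢ Icc (0 : ℝ) 1)).pull hH
      (τ := Prod.fst) continuousOn_fst fun p hp => hp.1).pull hH' (τ := Prod.snd)
      continuousOn_snd fun p hp => hp.2).fam hR.le)
    refine (Co.diag hK (b := a₁) (hco.congr fun t ht q hq => ?_)
      (c1.congr fun t ht q hq => ?_)).congr fun t ht q hq => ?_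
    · dsimp only
      rw [hH'.fderiv_zero (y := (q, 0)) (core_ne hq), hH'.zero (q, 0) (core_ne hq), pbB_id,
        hH.jet_pb hl ht hq]
    · dsimp only
      rw [hH'.jet_pb hl₁ ht hq,
        (hH.toEqv z1).dF_pb hl ((hH'.toEqv ht).ne (q, 0) (core_ne hq))]
    · dsimp only
      rw [(hH.comp hH').jet_pb hl ht hq, ← pbB_comp,
        Nr_fderiv (hH.toEqv ht) (hH'.toEqv ht) (y := (q, 0)) (core_ne hq)]
  · have : jet (pb (fun y => H 1 (H' 1 y)) lam) q = jet (pb (H' 1) (pb (H 1) lam)) q :=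
      Nr_dF hpb (y := (q, 0)) (core_ne hq)
    rw [seg, seg, this]

theorem Nr.congr (hP : IsOP P) {lam' : Form1 (F × F)} (h : Nr P R tgt lam a)
    (e : ∀ y : F × F, P y.1 ≠ 0 → lam' y = lam y) : Nr P R tgt lam' a := by
  intro ε hε
  have z1 : (1 : ℝ) ∈ Icc (0 : ℝ) 1 := by simp
  obtain ⟨H, mu, a', hH, hmu, ⟨r, hr, hout⟩, hnear, hD, c1, c2⟩ := h ε hε
  have hpb : ∀ t ∈ Icc (0 : ℝ) 1, ∀ y : F × F, P y.1 ≠ 0 → pb (H t) lam' y = pb (H t) lam y :=
    fun t ht y hy => by rw [pb, pb, e _ ((hH.toEqv ht).ne y hy)]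
  have hj : ∀ t ∈ Icc (0 : ℝ) 1, ∀ q ∈ core P, jet (pb (H t) lam') q = jet (pb (H t) lam) q :=
    fun t ht q hq => Nr_dF (hpb t ht) (y := (q, 0)) (core_ne hq)
  refine ⟨H, mu, a', hH, hmu, ⟨r, hr, fun y hy hy' => (hout y hy hy').trans (hpb 1 z1 y hy).symm⟩,
    hnear, fun y hy hy' => ?_, c1.congr fun t ht q hq => (hj t ht q hq).symm,
    c2.congr fun t _ q hq => by rw [seg, seg, hj 1 z1 q hq]⟩
  rw [Nr_dF e ((hH.toEqv z1).ne y hy)]
  exact hD y hy hy'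

end Pool.Agent.Lib.MP_ccffa6_gt.ELI
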