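import Pool.Agent.Lib.MP_ccffa6_gt.ELI.Nr

/-!
Stability of `Nr` under small perturbations.
-/

open Set Filter Topology
open scoped ContDiff RealInnerProductSpace

noncomputable section

namespace Pool.Agent.Lib.MP_ccffa6_gt.ELI

variable {F : Type} [NormedAddCommGroup F] [InnerProductSpace ℝ F] [FiniteDimensional ℝ F]
  {P : F →L[ℝ] F} {R : ℝ} {tgt lam : Form1 (F × F)} {a : Lf P}

omit [FiniteDimensional ℝ F] in
theorem Nr2_smul (y : F × F) (D : Bil (F × F)) {u : ℝ} (hu : u ∈ Icc (0 : ℝ) 1) :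
    nrm P y (u • D) ≤ nrm P y D := by
  have e : (ht P y)⁻¹ • pbB (Sc P (ht P y)) (u • D) = u • (ht P y)⁻¹ • pbB (Sc P (ht P y)) D :=
    ContinuousLinearMap.ext fun v => ContinuousLinearMap.ext fun w => mul_left_comm _ _ _
  rw [nrm, nrm, e]
  refine (ContinuousLinearMap.opNorm_smul_le _ _).trans ?_
  rw [Real.norm_of_nonneg hu.1]
  exact mul_le_of_le_one_left (norm_nonneg _) hu.2

omit [FiniteDimensional ℝ F] in
theorem Nr2_sub (hP : IsOP P) (hl : Adm P lam) {lam' : Form1 (F × F)} (hl' : Adm P lam') {δ : ℝ}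
    (h : ∀ y : F × F, ht P y = 1 → ‖dF lam' y - dF lam y‖ ≤ δ) {y : F × F} (hy : P y.1 ≠ 0) :
    nrm P y (dF lam' y - dF lam y) ≤ δ := by
  have h1 := ht_nz hP hy
  rw [← dF_sub (hl'.diff hy) (hl.diff hy), nrm_dF hP (hl'.sub hl) hy,
    dF_sub (hl'.diff (ne_of_ht h1)) (hl.diff (ne_of_ht h1))]
  exact h _ h1

theorem Nr2_cont {X V : Type} [TopologicalSpace X] [NormedAddCommGroup V] [NormedSpace ℝ V]
    {C : Set X} {A B D : X → V} (hA : ContinuousOn A C) (hB : ContinuousOn B C)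
    (hD : ContinuousOn D C) (S : Set (ℝ × ℝ)) : ContinuousOn (fun z : (ℝ × ℝ) × X =>
      A z.2 + (z.1.1 • (B z.2 - A z.2) + z.1.2 • (D z.2 - B z.2))) (S ×ˢ C) := by
  have m : MapsTo (Prod.snd : (ℝ × ℝ) × X → X) (S ×ˢ C) C := fun _ hz => hz.2
  have e1 := hA.comp continuousOn_snd m
  have e2 := hB.comp continuousOn_snd m
  have e3 := hD.comp continuousOn_snd m
  exact e1.add ((continuous_fst.fst.continuousOn.smul (e2.sub e1)).add
    (continuous_fst.snd.continuousOn.smul (e3.sub e2)))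

/-- A form which is a limit of nearly standard forms with the same jet is nearly standard. -/
theorem nr_pert (hP : IsOP P) (hR : 0 < R) (hl : Adm P lam) (hc : Ct P R lam)
    (h : ∀ ε > 0, ∃ lam' : Form1 (F × F), Adm P lam' ∧ EqOut P R lam lam' ∧
      (∀ y : F × F, ht P y = 1 → ‖dF lam' y - dF lam y‖ ≤ ε) ∧
      (∀ q ∈ core P, jet lam' q = jet lam q) ∧ (Ct P R lam' → Nr P R tgt lam' a)) :
    Nr P R tgt lam a := by
  intro ε hε
  obtain ⟨ε₁, hε₁, hu⟩ := unif hP hl hc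
  have hδ : 0 < min ε ε₁ / 2 := half_pos (lt_min hε hε₁)
  have d1 : min ε ε₁ ≤ ε := min_le_left _ _
  have d2 : min ε ε₁ ≤ ε₁ := min_le_right _ _
  obtain ⟨lam', hl', ⟨r₁, hr₁, ho₁⟩, hn, hj, hN⟩ := h _ hδ
  have hs := fun y hy => Nr2_sub hP hl hl' hn (y := y) hy
  have h0 : (0 : ℝ) ∈ Icc (0 : ℝ) 1 := ⟨le_rfl, zero_le_one⟩
  have h1 : (1 : ℝ) ∈ Icc (0 : ℝ) 1 := ⟨zero_le_one, le_rfl⟩
  have key : ∀ y : F × F, P y.1 ≠ 0 → rad P y ≤ R → ∀ D : Bil (F × F), (∀ w, D w w = 0) →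
      nrm P y D ≤ min ε ε₁ / 2 → ∀ u ∈ Icc (0 : ℝ) 1, ∀ v ∈ Icc (0 : ℝ) 1,
      ND ⊤ (dF lam y + (u • (dF lam' y - dF lam y) + v • D)) := by
    intro y hy hr D hD hD' u hu' v hv
    refine hu y hy hr _ (fun w => ?_) ((nrm_add_le _ _ _).trans ?_)
    · show u * (dF lam' y w w - dF lam y w w) + v * D w w = 0
      rw [dF_alt, dF_alt, hD]
      ring
    · linarith [Nr2_smul (P := P) y (dF lam' y - dF lam y) hu', Nr2_smul (P := P) y D hv, hs y hy]
  have hseg : ∀ u ∈ Icc (0 : ℝ) 1, ∀ y ∈ Cyl P R, ND ⊤ ((1 - u) • dF lam y + u • dF lam' y) := by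
    intro u hu' y hy
    have h2 := key y (ne_of_ht hy.1) (by rw [rad_of_ht hy.1]; exact hy.2) (dF lam' y - dF lam y)
      (fun w => by
        show dF lam' y w w - dF lam y w w = 0
        rw [dF_alt, dF_alt, sub_self]) (hs y (ne_of_ht hy.1)) u hu' 0 h0
    have e : (1 - u) • dF lam y + u • dF lam' y =
        dF lam y + (u • (dF lam' y - dF lam y) + (0 : ℝ) • (dF lam' y - dF lam y)) := by
      refine ContinuousLinearMap.ext fun v => ContinuousLinearMap.ext fun w => ?_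
      show (1 - u) * dF lam y v w + u * dF lam' y v w = dF lam y v w +
        (u * (dF lam' y v w - dF lam y v w) + 0 * (dF lam' y v w - dF lam y v w))
      ring
    rwa [e]
  have hc' : Ct P R lam' := fun y hy => by
    have h2 := hseg 1 h1 y hy
    have e : (1 - 1 : ℝ) • dF lam y + (1 : ℝ) • dF lam' y = dF lam' y := by
      refine ContinuousLinearMap.ext fun v => ContinuousLinearMap.ext fun w => ?_
      show (1 - 1) * dF lam y v w + 1 * dF lam' y v w = _
      ring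
    rwa [e] at h2
  obtain ⟨H, mu, a', hH, hm, ⟨r₂, hr₂, ho₂⟩, hnear, hD, co₁, co₂⟩ := hN hc' _ hδ
  obtain ⟨r₃, hr₃, ho₃⟩ := hH.pb_out
  have hE := hH.toEqv h1
  have j0 : ∀ l : Form1 (F × F), Adm P l → ∀ q ∈ core P, jet (pb (H 0) l) q = jet l q :=
    fun l hl q hq => by
      rw [hH.jet_pb hl h0 hq, hH.fderiv_zero (core_ne hq), hH.zero _ (core_ne hq), pbB_id]
      rfl
  have ov : a.Over (jet lam) :=
    co₁.over_left.congr fun q hq => (j0 _ hl' q hq).trans (hj q hq)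
  obtain ⟨a'', co₃⟩ := Co.exists_right (hH.fam hP hl hc hR.le)
    (ov.congr fun q hq => (j0 _ hl q hq).symm)
  have hK := ((tfam_seg hP hl hl' hseg).pull hH continuousOn_fst fun _ hp => hp.1).fam hR.le
  have cb : Co (fun t q => pbB (fderiv ℝ (H t) (q, 0))
      ((1 - 0 : ℝ) • dF lam (H t (q, 0)) + (0 : ℝ) • dF lam' (H t (q, 0)))) a a'' :=
    co₃.congr fun t ht q hq => by
      rw [hH.jet_pb hl ht hq]
      refine ContinuousLinearMap.ext fun v => ContinuousLinearMap.ext fun w => ?_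
      show dF lam _ _ _ = (1 - 0) * dF lam _ _ _ + 0 * dF lam' _ _ _
      ring
  have ct : Co (fun t q => pbB (fderiv ℝ (H t) (q, 0))
      ((1 - 1 : ℝ) • dF lam (H t (q, 0)) + (1 : ℝ) • dF lam' (H t (q, 0)))) a a' :=
    co₁.congr fun t ht q hq => by
      rw [hH.jet_pb hl' ht hq]
      refine ContinuousLinearMap.ext fun v => ContinuousLinearMap.ext fun w => ?_
      show dF lam' _ _ _ = (1 - 1) * dF lam _ _ _ + 1 * dF lam' _ _ _
      ring
  have cl : Co (fun u q => pbB (fderiv ℝ (H 0) (q, 0))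
      ((1 - u : ℝ) • dF lam (H 0 (q, 0)) + u • dF lam' (H 0 (q, 0)))) a a :=
    Co.refl fun u _ => ov.congr fun q hq => by
      rw [hH.fderiv_zero (core_ne hq), hH.zero _ (core_ne hq), pbB_id,
        show dF lam' (q, 0) = dF lam (q, 0) from hj q hq]
      refine ContinuousLinearMap.ext fun v => ContinuousLinearMap.ext fun w => ?_
      show dF lam _ _ _ = (1 - u) * dF lam _ _ _ + u * dF lam _ _ _
      ring
  obtain ⟨d, cr⟩ := Co.exists_right (a := a'')
    (hK.comp (D' := Icc (0 : ℝ) 1) (g := fun u : ℝ => ((1 : ℝ), u))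
      (continuous_const.prodMk continuous_id).continuousOn fun _ hu => ⟨h1, hu⟩) cb.over_right
  obtain rfl : d = a' := (Co.square hK cb cr cl).unique_right ct
  refine ⟨H, mu, a'', hH, hm, ⟨max r₁ (max r₂ r₃), max_lt hr₁ (max_lt hr₂ hr₃),
    fun y hy hr => ?_⟩, hnear, fun y hy hr => ?_, co₃, ?_⟩
  · rw [max_le_iff, max_le_iff] at hr
    rw [ho₂ y hy hr.2.1, ho₃ 1 h1 _ y hy hr.2.2, ho₃ 1 h1 _ y hy hr.2.2, ho₁ y hy hr.1]
  · obtain ⟨D, hD1, hD2, hD3⟩ := hD y hy hr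
    refine ⟨D + (dF lam' (H 1 y) - dF lam (H 1 y)), fun w => ?_, ?_,
      (nrm_add_le _ _ _).trans ?_⟩
    · show D w w + (dF lam' _ w w - dF lam _ w w) = 0
      rw [dF_alt, dF_alt, hD1]
      ring
    · rw [hD2]
      refine ContinuousLinearMap.ext fun v => ContinuousLinearMap.ext fun w => ?_
      show dF lam' _ _ _ + D _ _ = dF lam _ _ _ + (D _ _ + (dF lam' _ _ _ - dF lam _ _ _))
      ring
    · linarith [hs _ (hE.ne y hy)]
  have c1 := (hE.adm hP hl).contOn_jet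
  have c2 := (hE.adm hP hl').contOn_jet
  have c3 := hm.contOn_jet
  have hK' : Fam (Icc (0 : ℝ) 1 ×ˢ Icc (0 : ℝ) 1) (core P) fun p q => jet (pb (H 1) lam) q +
      (p.1 • (jet (pb (H 1) lam') q - jet (pb (H 1) lam) q) +
        p.2 • (jet mu q - jet (pb (H 1) lam') q)) := by
    refine ⟨Nr2_cont (V := Bil (F × F)) c1 c2 c3 _, fun p hp q hq => ?_⟩
    have hq' : P ((q, 0) : F × F).1 ≠ 0 := core_ne hq
    have hr : rad P (q, 0) ≤ R := by rw [core_rad hq]; exact hR.le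
    obtain ⟨D, hD1, hD2, hD3⟩ := hD _ hq' hr
    have h2 := nd_pbB (hH.inj 1 h1 _ hq')
      (key _ (hE.ne _ hq') (hH.rad_le h1 hq' hr) D hD1 hD3 p.1 hp.1 p.2 hp.2)
    have e : dF lam' (H 1 (q, 0)) + D - dF lam' (H 1 (q, 0)) = D :=
      ContinuousLinearMap.ext fun v => ContinuousLinearMap.ext fun w => add_sub_cancel_left _ _
    rw [hH.jet_pb hl h1 hq, hH.jet_pb hl' h1 hq, show jet mu q = _ from hD2, ← pbB_sub,
      ← pbB_sub, e]
    exact h2
  refine (Co.diag hK' (cr.congr fun t _ q hq => ?_) (co₂.congr fun t _ q _ => ?_)).congr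
    fun t _ q _ => ?_
  · dsimp only
    rw [hH.jet_pb hl h1 hq, hH.jet_pb hl' h1 hq]
    refine ContinuousLinearMap.ext fun v => ContinuousLinearMap.ext fun w => ?_
    show (1 - t) * dF lam _ _ _ + t * dF lam' _ _ _ = dF lam _ _ _ +
      (t * (dF lam' _ _ _ - dF lam _ _ _) + 0 * (jet mu q v w - dF lam' _ _ _))
    ring
  · refine ContinuousLinearMap.ext fun v => ContinuousLinearMap.ext fun w => ?_
    show (1 - t) * jet (pb (H 1) lam') q v w + t * jet mu q v w = jet (pb (H 1) lam) q v w +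
      (1 * (jet (pb (H 1) lam') q v w - jet (pb (H 1) lam) q v w) +
        t * (jet mu q v w - jet (pb (H 1) lam') q v w))
    ring
  · refine ContinuousLinearMap.ext fun v => ContinuousLinearMap.ext fun w => ?_
    show jet (pb (H 1) lam) q v w + (t * (jet (pb (H 1) lam') q v w - jet (pb (H 1) lam) q v w) +
        t * (jet mu q v w - jet (pb (H 1) lam') q v w)) =
      (1 - t) * jet (pb (H 1) lam) q v w + t * jet mu q v w
    ring

end Pool.Agent.Lib.MP_ccffa6_gt.ELI
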