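import Mathlib

/-!
Real powers `(1 + x)^a` near `1` in a Banach algebra, by the binomial series.
-/

open Set Filter Topology Metric
open scoped ContDiff NNReal ENNReal

noncomputable section

namespace Pool.Agent.Lib.MP_ccffa6_gt.ELI

variable {A : Type} [NormedRing A] [NormedAlgebra ℝ A]

/-- `(1 + x)^a`. -/
def pw (a : ℝ) (x : A) : A := ∑' k : ℕ, Ring.choose a k • x ^ k

theorem pw_coeff_summable (a : ℝ) {r : ℝ} (h0 : 0 ≤ r) (h1 : r < 1) :
    Summable fun k : ℕ => ‖Ring.choose a k‖ * r ^ k := by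
  lift r to ℝ≥0 using h0
  have h : ((r : ℝ≥0) : ℝ≥0∞) < (binomialSeries ℝ a).radius :=
    lt_of_lt_of_le (by exact_mod_cast h1) binomialSeries_radius_ge_one
  have := (binomialSeries ℝ a).summable_norm_mul_pow h
  simpa [binomialSeries, FormalMultilinearSeries.ofScalars_norm] using this

theorem pw_summable (a : ℝ) {x : A} (hx : ‖x‖ < 1) :
    Summable fun k : ℕ => ‖Ring.choose a k • x ^ k‖ := by
  rw [← summable_nat_add_iff 1]
  refine Summable.of_nonneg_of_le (fun _ => norm_nonneg _) (fun k => ?_)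
    ((summable_nat_add_iff 1).2 (pw_coeff_summable a (norm_nonneg x) hx))
  rw [norm_smul]
  exact mul_le_mul_of_nonneg_left (norm_pow_le' x (Nat.succ_pos k)) (norm_nonneg _)

theorem pw_radius (a : ℝ) : 1 ≤ (binomialSeries A a).radius := by
  refine ENNReal.le_of_forall_nnreal_lt fun r hr => ?_
  have h1 : (r : ℝ) < 1 := by exact_mod_cast hr
  refine FormalMultilinearSeries.le_radius_of_summable_norm _ ?_
  rw [← summable_nat_add_iff 1]
  refine Summable.of_nonneg_of_le (fun _ => by positivity) (fun k => ?_)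
    ((summable_nat_add_iff 1).2 (pw_coeff_summable a r.2 h1))
  exact mul_le_mul_of_nonneg_right
    (FormalMultilinearSeries.ofScalars_norm_le A _ _ (Nat.succ_pos k)) (by positivity)

theorem pw_eq_sum (a : ℝ) : (pw a : A → A) = (binomialSeries A a).sum := by
  funext x
  exact (FormalMultilinearSeries.ofScalars_sum_eq (fun k => Ring.choose a k) x).symm

theorem pw_at_zero (a : ℝ) : pw a (0 : A) = 1 := by
  rw [pw, tsum_eq_single 0]
  · simp
  · intro k hk; simp [hk]

theorem pw_zero (x : A) : pw 0 x = 1 := by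
  rw [pw, tsum_eq_single 0]
  · simp
  · intro k hk; simp [Ring.choose_zero_pos ℝ (Nat.pos_of_ne_zero hk)]

theorem pw_one (x : A) : pw 1 x = 1 + x := by
  have h : ∀ k : ℕ, Ring.choose (1 : ℝ) k = (Nat.choose 1 k : ℝ) := fun k => by
    simpa using Ring.choose_natCast (R := ℝ) 1 k
  rw [pw, tsum_eq_sum (s := Finset.range 2)]
  · simp [Finset.sum_range_succ]
  · intro k hk
    have : 1 < k := by simpa using hk
    simp [h, Nat.choose_eq_zero_of_lt this]

variable [CompleteSpace A]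

theorem pw_mul (a b : ℝ) {x : A} (hx : ‖x‖ < 1) : pw a x * pw b x = pw (a + b) x := by
  rw [pw, pw, tsum_mul_tsum_eq_tsum_sum_antidiagonal_of_summable_norm (pw_summable a hx)
    (pw_summable b hx), pw]
  refine tsum_congr fun k => ?_
  rw [Ring.add_choose_eq k (Commute.all a b), Finset.sum_smul]
  refine Finset.sum_congr rfl fun p hp => ?_
  rw [smul_mul_smul_comm, ← pow_add, Finset.HasAntidiagonal.mem_antidiagonal.1 hp]

theorem pw_analytic (a : ℝ) : AnalyticOnNhd ℝ (pw a : A → A) (ball 0 1) := by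
  have h := (binomialSeries A a).hasFPowerSeriesOnBall (lt_of_lt_of_le one_pos (pw_radius a))
  rw [pw_eq_sum]
  refine h.analyticOnNhd.mono fun x hx => ?_
  rw [mem_eball_zero_iff]
  refine lt_of_lt_of_le ?_ (pw_radius a)
  have : ‖x‖₊ < 1 := by exact_mod_cast mem_ball_zero_iff.1 hx
  rw [enorm_eq_nnnorm]; exact_mod_cast this

theorem pw_contDiffAt (a : ℝ) {x : A} (hx : ‖x‖ < 1) : ContDiffAt ℝ ∞ (pw a : A → A) x :=
  (pw_analytic a x (mem_ball_zero_iff.2 hx)).contDiffAt

theorem pw_continuousAt (a : ℝ) {x : A} (hx : ‖x‖ < 1) : ContinuousAt (pw a : A → A) x :=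
  (pw_contDiffAt a hx).continuousAt

/-- A closed subspace containing the powers of `x` contains `(1 + x)^a`. -/
theorem pw_mem (a : ℝ) {x : A} (hx : ‖x‖ < 1) (W : Submodule ℝ A) (hW : IsClosed (W : Set A))
    (h : ∀ k : ℕ, x ^ k ∈ W) : pw a x ∈ W := by
  have hs := (pw_summable a hx).of_norm.hasSum
  exact hW.mem_of_tendsto hs (Eventually.of_forall fun s =>
    W.sum_mem fun k _ => W.smul_mem _ (h k))

theorem pw_commute (a : ℝ) {x y : A} (hx : ‖x‖ < 1) (h : Commute x y) : Commute (pw a x) y := by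
  let W : Submodule ℝ A :=
    { carrier := {z | z * y = y * z}
      add_mem' := fun {u v} hu hv => by
        simp only [mem_ofPred_eq] at *; rw [add_mul, mul_add, hu, hv]
      zero_mem' := by simp
      smul_mem' := fun c u hu => by
        simp only [mem_ofPred_eq] at *; rw [smul_mul_assoc, mul_smul_comm, hu] }
  exact pw_mem a hx W (isClosed_eq (by fun_prop) (by fun_prop)) fun k => (h.pow_left k).eq

/-- Intertwining: `y x = x' y` gives `y (1+x)^a = (1+x')^a y`. -/
theorem pw_semiconj (a : ℝ) {x x' y : A} (hx : ‖x‖ < 1) (hx' : ‖x'‖ < 1) (h : y * x = x' * y) :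
    y * pw a x = pw a x' * y := by
  have hk : ∀ k : ℕ, y * x ^ k = x' ^ k * y := fun k => (SemiconjBy.pow_right h k).eq
  rw [pw, pw, ← (pw_summable a hx).of_norm.tsum_mul_left,
    ← (pw_summable a hx').of_norm.tsum_mul_right]
  exact tsum_congr fun k => by rw [mul_smul_comm, smul_mul_assoc, hk]

/-- The inverse square root. -/
theorem pw_isq {x : A} (hx : ‖x‖ < 1) :
    pw (-1 / 2) x * (1 + x) * pw (-1 / 2) x = 1 := by
  rw [← pw_one, pw_mul _ _ hx, pw_mul _ _ hx]; norm_num [pw_zero]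

theorem pw_inv (a : ℝ) {x : A} (hx : ‖x‖ < 1) : pw a x * pw (-a) x = 1 := by
  rw [pw_mul _ _ hx, add_neg_cancel, pw_zero]

theorem pw_isUnit (a : ℝ) {x : A} (hx : ‖x‖ < 1) : IsUnit (pw a x) :=
  ⟨⟨pw a x, pw (-a) x, pw_inv a hx, by simpa using pw_inv (-a) hx⟩, rfl⟩

/-- `(1 + x)^a` is uniformly close to `1`. -/
theorem pw_near (a : ℝ) {ε : ℝ} (hε : 0 < ε) :
    ∃ δ, 0 < δ ∧ δ < 1 ∧ ∀ x : A, ‖x‖ ≤ δ → ‖pw a x - 1‖ < ε := by
  have h := pw_continuousAt (A := A) a (x := 0) (by simp)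
  obtain ⟨d, hd, H⟩ := Metric.continuousAt_iff.1 h ε hε
  refine ⟨min (d / 2) (1 / 2), by positivity, by
    have := min_le_right (d / 2) (1 / 2 : ℝ); linarith, fun x hx => ?_⟩
  have := H (x := x) (by
    have := min_le_left (d / 2) (1 / 2 : ℝ); rw [dist_zero_right]; linarith)
  rwa [pw_at_zero, dist_eq_norm] at this

end Pool.Agent.Lib.MP_ccffa6_gt.ELI
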