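import Pool.Agent.Lib.MP_ccffa6_gt.ELI.Defs
import Pool.Agent.Lib.MP_ccffa6_gt.ELI.Sq1

/-!
The relative inverse square root of two close symplectic forms.
-/

set_option maxSynthPendingDepth 3

open Set Filter Topology
open scoped ContDiff

noncomputable section

namespace Pool.Agent.Lib.MP_ccffa6_gt.ELI

variable {V : Type} [NormedAddCommGroup V] [NormedSpace ℝ V] [FiniteDimensional ℝ V]

theorem Sq_inv_of_inj {W : Type} [NormedAddCommGroup W] [NormedSpace ℝ W] [FiniteDimensional ℝ W]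
    {f : V →L[ℝ] W} (hf : Function.Injective f) (hd : Module.finrank ℝ V = Module.finrank ℝ W) :
    f.IsInvertible :=
  ⟨((f : V →ₗ[ℝ] W).linearEquivOfInjective hf hd).toContinuousLinearEquiv, by ext; rfl⟩

theorem Sq_finrank_dual : Module.finrank ℝ V = Module.finrank ℝ (V →L[ℝ] ℝ) := by
  rw [← (LinearMap.toContinuousLinearMap (𝕜 := ℝ) (E := V) (F' := ℝ)).finrank_eq]
  exact Subspace.dual_finrank_eq.symm

theorem Sq_inv_bil {w : Bil V} (h : ∀ u, (∀ v, w u v = 0) → u = 0) : w.IsInvertible :=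
  Sq_inv_of_inj ((injective_iff_map_eq_zero w).2 fun u hu => h u fun v => by simp [hu])
    Sq_finrank_dual

theorem Sq_inv_of_nd {w : Bil V} (h : ND ⊤ w) : w.IsInvertible :=
  Sq_inv_bil fun u hu => h.2 u trivial fun v _ => hu v

omit [FiniteDimensional ℝ V] in
theorem Sq_swap {w : Bil V} (ha : ∀ u, w u u = 0) (u v : V) : w u v = -w v u := by
  have := ha (u + v)
  simp only [map_add, add_apply, ha u, ha v] at this
  linarith

/-- Uniform bounds near a compact set of symplectic forms. -/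
theorem Sq_bound {𝒞 : Set (Bil V)} (hc : IsCompact 𝒞) (hnd : ∀ w ∈ 𝒞, ND ⊤ w) :
    ∃ c > 0, ∃ M > 0, ∀ w ∈ 𝒞, ∀ Θ : Bil V, ‖Θ - w‖ ≤ c →
      ‖Θ‖ ≤ M ∧ ∀ x, c * ‖x‖ ≤ ‖Θ x‖ := by
  have h1 : ContinuousOn (fun w : Bil V => ContinuousLinearMap.inverse w) 𝒞 := fun w hw =>
    ((Sq_inv_of_nd (hnd w hw)).contDiffAt_map_inverse (n := 0)).continuousAt.continuousWithinAt
  obtain ⟨A, hA⟩ := hc.exists_bound_of_continuousOn h1
  obtain ⟨B, hB⟩ := hc.exists_bound_of_continuousOn continuousOn_id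
  have hA0 : 0 < |A| + 1 := by positivity
  refine ⟨1 / (2 * (|A| + 1)), by positivity, |B| + 1, by positivity, fun w hw Θ h => ⟨?_, ?_⟩⟩
  · have e : Θ = (Θ - w) + w := by abel
    have hb : ‖w‖ ≤ B := hB w hw
    have h2 : 1 / (2 * (|A| + 1)) ≤ 1 := by
      rw [div_le_one (by positivity)]; linarith [abs_nonneg A]
    calc ‖Θ‖ = ‖(Θ - w) + w‖ := by rw [← e]
      _ ≤ ‖Θ - w‖ + ‖w‖ := norm_add_le _ _
      _ ≤ |B| + 1 := by linarith [le_abs_self B]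
  · intro x
    have h3 : ‖x‖ ≤ (|A| + 1) * ‖w x‖ := by
      conv_lhs => rw [← (Sq_inv_of_nd (hnd w hw)).inverse_apply_self x]
      exact ((ContinuousLinearMap.inverse w).le_opNorm _).trans
        (mul_le_mul_of_nonneg_right (by linarith [hA w hw, le_abs_self A]) (norm_nonneg _))
    have h4 : ‖w x‖ ≤ ‖Θ x‖ + 1 / (2 * (|A| + 1)) * ‖x‖ := by
      have e : w x = Θ x - (Θ - w) x := by simp
      rw [e]
      exact (norm_sub_le _ _).trans (add_le_add le_rfl (((Θ - w).le_opNorm x).trans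
        (mul_le_mul_of_nonneg_right h (norm_nonneg _))))
    have h5 : (|A| + 1) * (1 / (2 * (|A| + 1))) = 1 / 2 := by field_simp
    rw [div_mul_eq_mul_div, div_le_iff₀ (by positivity)]
    have h6 := mul_le_mul_of_nonneg_left h4 hA0.le
    rw [mul_add, ← mul_assoc, h5] at h6
    linarith

theorem Sq_inv_of_lb {Θ : Bil V} {c : ℝ} (hc : 0 < c) (h : ∀ x, c * ‖x‖ ≤ ‖Θ x‖) :
    Θ.IsInvertible :=
  Sq_inv_bil fun u hu => by
    have : Θ u = 0 := ContinuousLinearMap.ext hu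
    have h2 := h u
    rw [this, norm_zero] at h2
    exact norm_eq_zero.1 (le_antisymm (by nlinarith [norm_nonneg u]) (norm_nonneg u))

/-- `Θ⁻¹ Ω - 1`. -/
def rel (Θ Ω : Bil V) : V →L[ℝ] V := (ContinuousLinearMap.inverse Θ).comp Ω - 1

/-- `(Θ⁻¹ Ω)^a`. -/
def rpw (a : ℝ) (Θ Ω : Bil V) : V →L[ℝ] V := pw a (rel Θ Ω)

omit [FiniteDimensional ℝ V] in
theorem rel_apply {Θ : Bil V} (h : Θ.IsInvertible) (Ω : Bil V) (x : V) :
    Θ (rel Θ Ω x) = Ω x - Θ x := by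
  simp [rel, h.self_apply_inverse]

omit [FiniteDimensional ℝ V] in
theorem rel_self {Θ : Bil V} (h : Θ.IsInvertible) : rel Θ Θ = 0 := by
  rw [rel, h.inverse_comp_self]; exact sub_self _

theorem rel_norm {Θ : Bil V} {c : ℝ} (hc : 0 < c) (h : ∀ x, c * ‖x‖ ≤ ‖Θ x‖) (Ω : Bil V) :
    ‖rel Θ Ω‖ ≤ ‖Ω - Θ‖ / c := by
  refine ContinuousLinearMap.opNorm_le_bound _ (by positivity) fun x => ?_
  have h1 := h (rel Θ Ω x)
  rw [rel_apply (Sq_inv_of_lb hc h)] at h1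
  have h2 := (Ω - Θ).le_opNorm x
  rw [div_mul_eq_mul_div, le_div_iff₀ hc]
  rw [sub_apply] at h2
  linarith

theorem contDiffAt_rel {Θ Ω : Bil V} (h : Θ.IsInvertible) :
    ContDiffAt ℝ ∞ (fun z : Bil V × Bil V => rel z.1 z.2) (Θ, Ω) :=
  ((h.contDiffAt_map_inverse.comp (Θ, Ω) contDiffAt_fst).clm_comp contDiffAt_snd).sub
    contDiffAt_const

theorem contDiffAt_rpw (a : ℝ) {Θ Ω : Bil V} (h : Θ.IsInvertible) (hn : ‖rel Θ Ω‖ < 1) :
    ContDiffAt ℝ ∞ (fun z : Bil V × Bil V => rpw a z.1 z.2) (Θ, Ω) :=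
  (pw_contDiffAt a hn).comp (Θ, Ω) (contDiffAt_rel h)

/-- The powers are self-adjoint. -/
theorem rpw_adj (a : ℝ) {Θ Ω : Bil V} (h : Θ.IsInvertible) (hΘ : ∀ u, Θ u u = 0)
    (hΩ : ∀ u, Ω u u = 0) (hn : ‖rel Θ Ω‖ < 1) (x y : V) :
    Θ (rpw a Θ Ω x) y = Θ x (rpw a Θ Ω y) := by
  let W : Submodule ℝ (V →L[ℝ] V) :=
    { carrier := {Y | ∀ x y, Θ (Y x) y = Θ x (Y y)}
      add_mem' := fun {u v} hu hv x y => by simp [hu x y, hv x y]
      zero_mem' := fun x y => by simp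
      smul_mem' := fun c u hu x y => by simp [hu x y] }
  have hW : IsClosed (W : Set (V →L[ℝ] V)) := by
    change IsClosed {Y : V →L[ℝ] V | ∀ x y, Θ (Y x) y = Θ x (Y y)}
    simp only [ofPred_forall]
    exact isClosed_iInter fun x => isClosed_iInter fun y => isClosed_eq (by fun_prop) (by fun_prop)
  have h1 : ∀ x y, Θ (rel Θ Ω x) y = Θ x (rel Θ Ω y) := fun x y => by
    rw [Sq_swap hΘ x, rel_apply h, rel_apply h, sub_apply, sub_apply, Sq_swap hΩ x, Sq_swap hΘ x]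
    ring
  refine pw_mem a hn W hW (fun k => ?_) x y
  induction k with
  | zero => exact fun x y => rfl
  | succ k ih =>
    intro x y
    conv_lhs => rw [pow_succ']
    rw [pow_succ, mul_apply_eq_comp, mul_apply_eq_comp, h1, ih]

/-- `B = (Θ⁻¹ Ω)^(-1/2)` pulls `Ω` back to `Θ`. -/
theorem rpw_pb {Θ Ω : Bil V} (h : Θ.IsInvertible) (hΘ : ∀ u, Θ u u = 0)
    (hΩ : ∀ u, Ω u u = 0) (hn : ‖rel Θ Ω‖ < 1) (x y : V) :
    Ω (rpw (-1 / 2) Θ Ω x) (rpw (-1 / 2) Θ Ω y) = Θ x y := by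
  have e : ∀ z, Ω z = Θ ((1 + rel Θ Ω) z) := fun z => by
    rw [add_apply, map_add, rel_apply h]; simp
  rw [e, ← rpw_adj _ h hΘ hΩ hn]
  exact congrArg (fun Y : V →L[ℝ] V => Θ (Y x) y) (by
    simpa only [mul_assoc, rpw] using pw_isq hn : rpw (-1 / 2) Θ Ω * ((1 + rel Θ Ω) *
      rpw (-1 / 2) Θ Ω) = 1)

theorem rpw_inv (a : ℝ) {Θ Ω : Bil V} (hn : ‖rel Θ Ω‖ < 1) (x : V) :
    rpw a Θ Ω (rpw (-a) Θ Ω x) = x :=
  congrArg (fun Y : V →L[ℝ] V => Y x) (pw_inv a hn)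

omit [FiniteDimensional ℝ V] in
theorem rpw_self (a : ℝ) {Θ : Bil V} (h : Θ.IsInvertible) : rpw a Θ Θ = 1 := by
  rw [rpw, rel_self h, pw_at_zero]

end Pool.Agent.Lib.MP_ccffa6_gt.ELI
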