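import Pool.Agent.Lib.MP_ccffa6_gt.ELI.Blk
import Pool.Agent.Lib.MP_ccffa6_gt.ELI.W

/-!
Holonomic approximation along a wiggled core.
-/

open Set Filter Topology
open scoped ContDiff RealInnerProductSpace

noncomputable section

namespace Pool.Agent.Lib.MP_ccffa6_gt.ELI

variable {F : Type} [NormedAddCommGroup F] [InnerProductSpace ℝ F] [FiniteDimensional ℝ F]
  {P : F →L[ℝ] F}

/-- The wiggle lemma for the covector field `⟪ς x, ·⟫` and the coordinate `⟪e, x⟫`. -/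
theorem SubA_wig {O K : Set F} (hO : IsOpen O) (hK : IsCompact K) (hKO : K ⊆ O) (e : F)
    (he : ‖e‖ = 1) {ς : F → F} (hς : ContDiffOn ℝ ∞ ς O) {ε : ℝ} (hε : 0 < ε) :
    ∃ w g : F → ℝ, ContDiff ℝ ∞ w ∧ (∀ x, |w x| ≤ ε) ∧ (∀ x (t : ℝ), w (x + t • e) = w x) ∧
      ContDiffOn ℝ ∞ g O ∧ ∀ x ∈ K, ⟪e, x⟫ = w x → |g x| ≤ ε ∧
        ∀ u, |fderiv ℝ g x u - ⟪ς x, u⟫| ≤ ε * ‖u‖ := by
  let v := stdOrthonormalBasis ℝ F
  let L : F →L[ℝ] F := 1 - (innerSL ℝ e).smulRight e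
  have hL : ∀ x, L x = x - ⟪e, x⟫ • e := fun _ => rfl
  let ψ : Fin (Module.finrank ℝ F) → F →L[ℝ] ℝ := fun i => (innerSL ℝ (v i)).comp L
  have hψ : ∀ i x, ψ i x = ⟪v i, x - ⟪e, x⟫ • e⟫ := fun _ _ => rfl
  obtain ⟨δ, N, a', z, h1, h2, h3, -, h4⟩ := wig hO hK hKO (φ := innerSL ℝ e)
    (ψ := fun i => ψ i) (a := fun x => ⟪ς x, e⟫) (b := fun i x => ⟪ς x, v i⟫)
    (innerSL ℝ e).contDiff.contDiffOn (fun i => (ψ i).contDiff.contDiffOn)
    (hς.inner ℝ contDiffOn_const) (fun _ => hς.inner ℝ contDiffOn_const) hε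
  have hw : ContDiff ℝ ∞ fun x => ∑ i, δ i * Real.sin (N i * ψ i x) :=
    ContDiff.sum fun i _ => contDiff_const.mul (contDiff_const.mul (ψ i).contDiff).sin
  have hφ : ContDiff ℝ ∞ fun x => innerSL ℝ e x - ∑ i, δ i * Real.sin (N i * ψ i x) :=
    (innerSL ℝ e).contDiff.sub hw
  refine ⟨fun x => ∑ i, δ i * Real.sin (N i * ψ i x),
    fun x => (innerSL ℝ e x - ∑ i, δ i * Real.sin (N i * ψ i x)) • a' x + z x, hw,
    fun x => ((Finset.abs_sum_le_sum_abs _ _).trans (Finset.sum_le_sum fun i _ => ?_)).trans h1,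
    fun x t => Finset.sum_congr rfl fun i _ => ?_, (hφ.contDiffOn.smul h2).add h3,
    fun x hx h0 => ?_⟩
  · rw [abs_mul]
    exact mul_le_of_le_one_right (abs_nonneg _) (Real.abs_sin_le_one _)
  · have h5 : x + t • e - ⟪e, x + t • e⟫ • e = x - ⟪e, x⟫ • e := by
      rw [inner_add_right, real_inner_smul_right, real_inner_self_eq_norm_sq, he]
      module
    rw [hψ, hψ, h5]
  · have h5 : innerSL ℝ e x - ∑ i, δ i * Real.sin (N i * ψ i x) = 0 := sub_eq_zero.2 h0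
    obtain ⟨h6, h7⟩ := h4 x hx
    refine ⟨by simpa only [h5, zero_smul, zero_add, Real.norm_eq_abs] using h6, fun u => ?_⟩
    have h8 := (((hφ.differentiable (by simp) x).hasFDerivAt.fun_smul
      (W_at hO h2 (hKO hx))).fun_add (W_at hO h3 (hKO hx))).fderiv
    rw [h8, h5, zero_smul, zero_add]
    refine le_trans (le_of_eq ?_) (ContinuousLinearMap.le_of_opNorm_le _ h7 u)
    have h9 : ∑ i, ⟪v i, u - ⟪e, u⟫ • e⟫ * ⟪ς x, v i⟫ = ⟪ς x, u⟫ - ⟪e, u⟫ * ⟪ς x, e⟫ := by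
      rw [← real_inner_smul_right, ← inner_sub_right, ← v.sum_inner_mul_inner (ς x)]
      exact Finset.sum_congr rfl fun i _ => mul_comm _ _
    rw [Real.norm_eq_abs]
    congr 1
    simp only [ContinuousLinearMap.fderiv, sub_apply, sum_apply,
      ContinuousLinearMap.smulRight_apply, smul_eq_mul, hψ, innerSL_apply_apply, h9]
    ring

/-- Sketch: `z₀ x = ⟪P x, ς x⟫` (`Sect.hom1`), `ς₁ = ς - gradient z₀` has `⟪P x, ς₁ x⟫ = 0`
(`Hom1.euler`). `wig` on `F` with `O = {P x ≠ 0}`, `K = {‖P x‖ = 1, ‖x - P x‖ ≤ 1}`,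
`φ = ⟪e, x⟫`, `ψ i = ⟪v i, x - ⟪e, x⟫ • e⟫`, `a = ⟪ς₁, e⟫`, `b i = ⟪ς₁, v i⟫`;
`g = z + (φ - w) * a'`, `Y = z₀ + ‖P x‖ * g (hat P x)` (`hom1_ext`). At `x = q + w q • e` one has
`φ = w`, so `fderiv g x` is close to `⟪ς₁ x, ·⟫` and `g x` is small. -/
theorem sub_hol (hP : IsOP P) {e : F} (he : ‖e‖ = 1) (hPe : P e = 0) {ς : F → F} (hς : Sect P ς)
    {ε : ℝ} (hε : 0 < ε) :
    ∃ (w Y : F → ℝ), ContDiff ℝ ∞ w ∧ (∀ x, |w x| ≤ ε) ∧ (∀ x (t : ℝ), w (x + t • e) = w x) ∧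
      Hom1 P Y ∧ ∀ q ∈ core P, ‖gradient Y (q + w q • e) - ς (q + w q • e)‖ ≤ ε := by
  have h0 := hς.hom1 hP
  have h1 := hς.sub (h0.sect hP)
  have hPx : ∀ q ∈ core P, ∀ t : ℝ, P (q + t • e) = q := fun q hq t => by
    rw [map_add, map_smul, hPe, smul_zero, add_zero, hq.1]
  have hO : IsOpen {a : F | P a ≠ 0} := isOpen_ne_fun P.continuous continuous_const
  obtain ⟨w, g, a1, a2, a3, a4, a5⟩ := SubA_wig hO
    (K := (fun p : F × ℝ => p.1 + p.2 • e) '' (core P ×ˢ Icc (-ε) ε))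
    ((isCompact_core.prod isCompact_Icc).image (by fun_prop))
    (by
      rintro _ ⟨p, hp, rfl⟩
      show P (p.1 + p.2 • e) ≠ 0
      rw [hPx _ hp.1, ← hp.1.1]
      exact core_ne hp.1) e he (fun a ha => (h1.sm a ha).contDiffWithinAt)
    (ε := ε / 3) (by positivity)
  obtain ⟨b1, b2⟩ := hom1_ext hP (g := g) fun a ha => a4.contDiffAt (hO.mem_nhds fun h => by
    rw [h, norm_zero] at ha
    exact zero_ne_one ha)
  have a6 : ∀ x, |w x| ≤ ε := fun x => (a2 x).trans (by linarith)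
  refine ⟨w, _, a1, a6, a3, h0.add b1, fun q hq => ?_⟩
  obtain ⟨x, hx⟩ : ∃ x, x = q + w q • e := ⟨_, rfl⟩
  have c1 : P x = q := hx ▸ hPx q hq _
  have c2 : P x ≠ 0 := by
    rw [c1, ← hq.1]
    exact core_ne hq
  obtain ⟨c3, c4⟩ := a5 x ⟨(q, w q), ⟨hq, abs_le.1 (a6 q)⟩, hx.symm⟩ (by
    rw [hx, a3, inner_add_right, real_inner_smul_right, real_inner_self_eq_norm_sq, he, ← hq.1,
      ← hP.symm, hPe, inner_zero_left, hq.1]
    ring)
  have c5 : ⟪ς x - gradient (fun a => ⟪P a, ς a⟫) x, q⟫ = 0 := by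
    rw [inner_sub_left, inner_gradient, ← c1, h0.euler c2, real_inner_comm, sub_self]
  rw [← hx]
  have c6 : ∀ u, ⟪gradient (fun a => ⟪P a, ς a⟫ + ‖P a‖ * g (hat P a)) x - ς x, u⟫ ≤
      ε * ‖u‖ := fun u => by
    have d1 := c4 (u - ⟪q, u⟫ • q)
    have d2 : |⟪q, u⟫| ≤ ‖u‖ := by
      simpa only [hq.2, one_mul] using abs_real_inner_le_norm q u
    have d3 : ‖u - ⟪q, u⟫ • q‖ ≤ ‖u‖ + ‖u‖ := by
      refine (norm_sub_le _ _).trans (add_le_add le_rfl ?_)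
      rwa [norm_smul, hq.2, mul_one]
    have d4 : ⟪q, u⟫ * g x ≤ ‖u‖ * (ε / 3) := by
      refine (le_abs_self _).trans ?_
      rw [abs_mul]
      exact mul_le_mul d2 c3 (abs_nonneg _) (norm_nonneg _)
    have d5 := mul_le_mul_of_nonneg_left d3 (show 0 ≤ ε / 3 by positivity)
    rw [inner_sub_right, real_inner_smul_right, c5, inner_sub_left, inner_gradient] at d1
    rw [inner_sub_left, inner_gradient, fderiv_fun_add ((h0.sm x c2).differentiableAt (by simp))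
      ((b1.sm x c2).differentiableAt (by simp)), add_apply, b2 x (c1 ▸ hq.2), c1]
    linarith [(abs_le.1 d1).2]
  have c7 := c6 (gradient (fun a => ⟪P a, ς a⟫ + ‖P a‖ * g (hat P a)) x - ς x)
  rw [real_inner_self_eq_norm_sq, sq] at c7
  rcases (norm_nonneg (gradient (fun a => ⟪P a, ς a⟫ + ‖P a‖ * g (hat P a)) x - ς x)).eq_or_lt
    with h | h
  · exact h ▸ hε.le
  · exact le_of_mul_le_mul_right c7 h

end Pool.Agent.Lib.MP_ccffa6_gt.ELI
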